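import Pool.Agent.Lib.MP_c1b9d3_an.Geo

namespace Pool.Agent.Lib.MP_c1b9d3_an

open MeasureTheory Real Filter Topology Set Pool.Agent.Lib.MP_2d4879_an
open scoped InnerProductSpace

def Sid (ρ Δ a b c : ℝ) : Prop :=
  4 * Δ ^ 2 = (a + b + c) * (b + c - a) * (a + c - b) * (a + b - c) ∧
    ((a * b * c = 2 * Δ * ρ ∧ 8 * ρ ^ 2 ≤ a ^ 2 + b ^ 2 + c ^ 2) ∨
      (a = 2 * ρ ∧ b ^ 2 + c ^ 2 ≤ a ^ 2))

lemma sid_sym {ρ Δ a b c a' b' c' : ℝ} (_hρ : 0 < ρ) (hΔ : 0 < Δ) (ha : 0 < a) (hb : 0 < b)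
    (hc : 0 < c) (ha' : 0 < a') (hb' : 0 < b') (hc' : 0 < c') (hL : a + b + c = a' + b' + c')
    (h : Sid ρ Δ a b c) (h' : Sid ρ Δ a' b' c') :
    a * b + b * c + c * a = a' * b' + b' * c' + c' * a' ∧ a * b * c = a' * b' * c' := by
  have mix : ∀ {a b c a' b' c' : ℝ}, 0 < a → 0 < b → 0 < c → 0 < b' → 0 < c' →
      a + b + c = a' + b' + c' →
      4 * Δ ^ 2 = (a + b + c) * (b + c - a) * (a + c - b) * (a + b - c) →
      4 * Δ ^ 2 = (a' + b' + c') * (b' + c' - a') * (a' + c' - b') * (a' + b' - c') →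
      a * b * c = 2 * Δ * ρ → 8 * ρ ^ 2 ≤ a ^ 2 + b ^ 2 + c ^ 2 → a' = 2 * ρ →
      b' ^ 2 + c' ^ 2 ≤ a' ^ 2 → a * b * c = a' * b' * c' := by
    intro a b c a' b' c' ha hb hc hb' hc' hL H H' h1 h2 h3 h4
    obtain ⟨L, e⟩ : ∃ L, L = a + b + c := ⟨_, rfl⟩
    have L0 : 0 < L := by rw [e]; positivity
    have k1 : (4 * ρ * L + 2 * Δ) ^ 2 ≤ (L ^ 2) ^ 2 := by
      have : (L ^ 2) ^ 2 - (4 * ρ * L + 2 * Δ) ^ 2 =
          2 * L ^ 2 * (a ^ 2 + b ^ 2 + c ^ 2 - 8 * ρ ^ 2) := by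
        rw [e]; linear_combination (-1) * H + 8 * (a + b + c) * h1
      nlinarith [mul_nonneg (sq_nonneg L) (sub_nonneg.2 h2)]
    have k2 := (abs_le_of_sq_le_sq' k1 (sq_nonneg L)).2
    obtain ⟨u, hu⟩ : ∃ u, u = (b' + c') ^ 2 - a' ^ 2 := ⟨_, rfl⟩
    obtain ⟨v, hv⟩ : ∃ v, v = a' ^ 2 - (b' - c') ^ 2 := ⟨_, rfl⟩
    have k3 : 2 * Δ ≤ u := by
      rw [hu, show b' + c' = L - 2 * ρ by linarith, h3]; linarith
    have k4 : u ≤ v := by rw [hu, hv]; linarith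
    have k5 : u * v = 4 * Δ ^ 2 := by rw [hu, hv, H']; ring
    have k6 : u = 2 * Δ := by nlinarith
    have k7 : v = 2 * Δ := by nlinarith
    rw [h1, mul_assoc a', show b' * c' = Δ by linarith, h3]; ring
  obtain ⟨H, h⟩ := h
  obtain ⟨H', h'⟩ := h'
  have L0 : a + b + c ≠ 0 := by positivity
  suffices a * b * c = a' * b' * c' by
    refine ⟨mul_left_cancel₀ (pow_ne_zero 2 L0) ?_, this⟩
    obtain rfl : c' = a + b + c - a' - b' := by linarith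
    linear_combination (1 / 4) * H' - (1 / 4) * H + 2 * (a + b + c) * this
  rcases h with ⟨h1, h2⟩ | ⟨h1, h2⟩ <;> rcases h' with ⟨h3, h4⟩ | ⟨h3, h4⟩
  · rw [h1, h3]
  · exact mix ha hb hc hb' hc' hL H H' h1 h2 h3 h4
  · exact (mix ha' hb' hc' hb hc hL.symm H' H h3 h4 h1 h2).symm
  · obtain rfl : a' = a := by rw [h1, h3]
    obtain rfl : c' = b + c - b' := by linarith
    have k : (a' + b + c) * (b + c - a') ≠ 0 := fun k => by
      rw [k] at H; nlinarith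
    have : b * c = b' * (b + c - b') := mul_left_cancel₀ k (by
      linear_combination (1 / 4) * H' - (1 / 4) * H)
    rw [mul_assoc, this, mul_assoc]

lemma perm_of {a b c a' b' c' : ℝ} (h1 : a + b + c = a' + b' + c')
    (h2 : a * b + b * c + c * a = a' * b' + b' * c' + c' * a') (h3 : a * b * c = a' * b' * c') :
    (a' = a ∧ (b' = b ∧ c' = c ∨ b' = c ∧ c' = b)) ∨ (a' = b ∧ (b' = a ∧ c' = c ∨ b' = c ∧ c' = a)) ∨
      (a' = c ∧ (b' = a ∧ c' = b ∨ b' = b ∧ c' = a)) := by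
  have two : ∀ {x y : ℝ}, x + y = b' + c' → a' * (x + y) + x * y = a' * b' + b' * c' + c' * a' →
      b' = x ∧ c' = y ∨ b' = y ∧ c' = x := fun {x y} k1 k2 => by
    rcases mul_eq_zero.1 (show (b' - x) * (b' - y) = 0 by
      linear_combination k2 - (a' + b') * k1) with k | k
    · exact Or.inl ⟨by linarith, by linarith⟩
    · exact Or.inr ⟨by linarith, by linarith⟩
  rcases mul_eq_zero.1 (show (a' - a) * ((a' - b) * (a' - c)) = 0 by
    linear_combination -a' ^ 2 * h1 + a' * h2 - h3) with k | k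
  · obtain rfl := sub_eq_zero.1 k
    exact Or.inl ⟨rfl, two (by linarith) (by linarith)⟩
  rcases mul_eq_zero.1 k with k | k <;> obtain rfl := sub_eq_zero.1 k
  · exact Or.inr (Or.inl ⟨rfl, two (by linarith) (by linarith)⟩)
  · exact Or.inr (Or.inr ⟨rfl, two (by linarith) (by linarith)⟩)

lemma sides_pos {P Q R : E} (h : 0 < det (Q - P) (R - Q)) :
    0 < ‖R - Q‖ ∧ 0 < ‖P - R‖ ∧ 0 < ‖Q - P‖ := by
  refine ⟨norm_pos_iff.2 fun k => ?_, norm_pos_iff.2 fun k => ?_, norm_pos_iff.2 fun k => ?_⟩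
  · simp [k, det] at h
  · rw [sub_eq_zero.1 k] at h
    simp only [det, PiLp.sub_apply] at h; linarith
  · simp [k, det] at h

lemma acute {ρ : ℝ} {P Q R : E} (h : 0 < det (Q - P) (R - Q)) (n1 : ‖P‖ = ρ) (n2 : ‖Q‖ = ρ)
    (n3 : ‖R‖ = ρ) (hd : 0 < det Q R) : 0 < ‖P - R‖ ^ 2 + ‖Q - P‖ ^ 2 - ‖R - Q‖ ^ 2 := by
  have q1 := n1 ▸ nsq P
  have q2 := n2 ▸ nsq Q
  have q3 := n3 ▸ nsq R
  refine (mul_pos_iff_of_pos_left (pow_pos (sides_pos h).1 2)).1 ((mul_pos four_pos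
    (mul_pos h hd)).trans_eq ?_)
  linear_combination (norm := (simp only [nsq, inn, det, PiLp.sub_apply]; ring1))
    2 * (‖R - P‖ ^ 2 - ⟪Q - P, R - P⟫_ℝ) * (q1 - q2) + 2 * (‖Q - P‖ ^ 2 - ⟪Q - P, R - P⟫_ℝ) * (q1 - q3)

lemma Shape.sid {D : Set E} {ρ : ℝ} (hρ : 0 < ρ) (h : Shape D ρ) : ∃ P Q R : E,
    0 < det (Q - P) (R - Q) ∧ D = tri P Q R ∧
      Sid ρ (det (Q - P) (R - Q)) ‖R - Q‖ ‖P - R‖ ‖Q - P‖ := by
  obtain ⟨P, Q, R, h1, h2, h3⟩ := h
  obtain ⟨a0, b0, c0⟩ := sides_pos h1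
  have H : 4 * det (Q - P) (R - Q) ^ 2 = 4 * ‖P - R‖ ^ 2 * ‖Q - P‖ ^ 2 -
      (‖P - R‖ ^ 2 + ‖Q - P‖ ^ 2 - ‖R - Q‖ ^ 2) ^ 2 := by
    simp only [nsq, det, PiLp.sub_apply]; ring
  refine ⟨P, Q, R, h1, h2, by rw [H]; ring, ?_⟩
  rcases h3 with ⟨n1, n2, n3, d3, d1, d2⟩ | ⟨rfl, n, n'⟩
  · have e : ‖R - Q‖ ^ 2 * ‖P - R‖ ^ 2 * ‖Q - P‖ ^ 2 = 4 * det (Q - P) (R - Q) ^ 2 * ρ ^ 2 := by
      have k : det (Q - P) (R - Q) ^ 2 * ‖P‖ ^ 2 = ⟪P, Q - P⟫_ℝ ^ 2 * ‖P - R‖ ^ 2 - 2 *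
          ⟪P, Q - P⟫_ℝ * ⟪P, R - P⟫_ℝ * ⟪Q - P, R - P⟫_ℝ + ⟪P, R - P⟫_ℝ ^ 2 * ‖Q - P‖ ^ 2 := by
        simp only [nsq, inn, det, PiLp.sub_apply]; ring
      have q1 := n1 ▸ nsq P
      have q2 := n2 ▸ nsq Q
      have q3 := n3 ▸ nsq R
      have x : ⟪P, Q - P⟫_ℝ = -‖Q - P‖ ^ 2 / 2 := by
        simp only [nsq, inn, PiLp.sub_apply]; linarith
      have y : ⟪P, R - P⟫_ℝ = -‖P - R‖ ^ 2 / 2 := by
        simp only [nsq, inn, PiLp.sub_apply]; linarith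
      have z : ⟪Q - P, R - P⟫_ℝ = (‖P - R‖ ^ 2 + ‖Q - P‖ ^ 2 - ‖R - Q‖ ^ 2) / 2 := by
        simp only [nsq, inn, PiLp.sub_apply]; ring
      rw [x, y, z, n1] at k
      linarith
    refine Or.inl ⟨(pow_left_inj₀ (by positivity) (by positivity) two_ne_zero).1 (by linarith), ?_⟩
    have k := mul_pos (mul_pos (acute h1 n1 n2 n3 d1) (acute (P := Q) (Q := R) (R := P) (by
      simp only [det, PiLp.sub_apply] at h1 ⊢; linarith) n2 n3 n1 d2))
      (acute (P := R) (Q := P) (R := Q) (by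
        simp only [det, PiLp.sub_apply] at h1 ⊢; linarith) n3 n1 n2 d3)
    refine sub_nonneg.1 (le_of_lt ((mul_pos_iff_of_pos_left (mul_pos four_pos
      (pow_pos h1 2))).1 (k.trans_eq ?_)))
    linear_combination (-8) * e - (‖R - Q‖ ^ 2 + ‖P - R‖ ^ 2 + ‖Q - P‖ ^ 2) * H
  · refine Or.inr ⟨?_, ?_⟩
    · rw [← neg_add', norm_neg, ← two_smul ℝ, norm_smul, n]; simp
    · have k := pow_le_pow_left₀ (norm_nonneg _) (n'.trans n.ge) 2
      simp only [nsq, PiLp.sub_apply, PiLp.neg_apply] at k ⊢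
      linarith

lemma tri_hull {P Q R : E} (h : 0 < det (Q - P) (R - Q)) :
    interior (convexHull ℝ {P, Q, R}) = tri P Q R := by
  have key : ∀ u X : E, 0 ≤ det u (P - X) → 0 ≤ det u (Q - X) → 0 ≤ det u (R - X) →
      ∀ Y ∈ convexHull ℝ {P, Q, R}, 0 ≤ det u (Y - X) := fun u X h1 h2 h3 Y hY => by
    have := convexHull_min (t := {p : E | u 1 * p 0 + -u 0 * p 1 ≤ -det u X}) (by
      rintro _ (rfl | rfl | rfl) <;> simp only [det, PiLp.sub_apply, mem_ofPred_eq] at * <;>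
        linarith) (convex_aff _ _ _) hY
    simp only [det, PiLp.sub_apply, mem_ofPred_eq] at this ⊢; linarith
  refine Body.eq_tri ⟨(toFinite _).isCompact_convexHull ℝ, convex_convexHull _ _⟩ h
    (subset_convexHull _ _ (by simp)) (subset_convexHull _ _ (by simp))
    (subset_convexHull _ _ (by simp)) (key _ _ ?_ ?_ ?_) (key _ _ ?_ ?_ ?_) (key _ _ ?_ ?_ ?_) <;>
    simp only [det, PiLp.sub_apply] at h ⊢ <;> linarith

lemma frame {u : E} (hu : 0 < ‖u‖) (v : E) :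
    ∃ O : E ≃ₗᵢ[ℝ] E, O u = !₂[‖u‖, 0] ∧ 0 ≤ O v 1 := by
  obtain ⟨e, he, hd⟩ : ∃ e : ℝ, e ^ 2 = 1 ∧ 0 ≤ e * (u 0 * v 1 - u 1 * v 0) := by
    rcases le_total (u 0 * v 1 - u 1 * v 0) 0 with k | k
    · exact ⟨-1, by norm_num, by linarith⟩
    · exact ⟨1, by norm_num, by linarith⟩
  have hn := nsq u
  refine ⟨ort (u 0 / ‖u‖) (u 1 / ‖u‖) (-e * u 1 / ‖u‖) (e * u 0 / ‖u‖)
    (by field_simp; linear_combination (u 1 ^ 2) * he - hn)
    (by field_simp; linear_combination (u 0 ^ 2) * he - hn)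
    (by field_simp; linear_combination (-u 0 * u 1) * he), ?_, ?_⟩
  · ext i; fin_cases i
    · simp [ort_0]; field_simp; linarith
    · simp [ort_1]; ring
  · rw [ort_1]
    exact (div_nonneg hd hu.le).trans_eq (by ring)

lemma sss {P Q R P' Q' R' : E} (h0 : 0 < ‖Q - P‖) (ha : ‖R' - Q'‖ = ‖R - Q‖)
    (hb : ‖P' - R'‖ = ‖P - R‖) (hc : ‖Q' - P'‖ = ‖Q - P‖) :
    Cong (interior (convexHull ℝ {P, Q, R})) (interior (convexHull ℝ {P', Q', R'})) := by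
  obtain ⟨O, h1, h2⟩ := frame h0 (R - P)
  obtain ⟨O', h1', h2'⟩ := frame (hc ▸ h0) (R' - P')
  have e : O (R - P) = O' (R' - P') := by
    have k1 : ‖O (R - P)‖ ^ 2 = ‖O' (R' - P')‖ ^ 2 := by
      rw [O.norm_map, O'.norm_map, norm_sub_rev, ← hb, norm_sub_rev]
    have k2 : ‖O (R - P) - O (Q - P)‖ ^ 2 = ‖O' (R' - P') - O' (Q' - P')‖ ^ 2 := by
      rw [← map_sub, ← map_sub, O.norm_map, O'.norm_map, sub_sub_sub_cancel_right,
        sub_sub_sub_cancel_right, ha]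
    rw [h1, h1', hc] at k2
    simp only [nsq, PiLp.sub_apply, Matrix.cons_val_zero, Matrix.cons_val_one] at k1 k2
    have k3 : O (R - P) 0 = O' (R' - P') 0 := mul_left_cancel₀ h0.ne' (by linarith)
    rw [k3] at k1
    ext i; fin_cases i
    · exact k3
    · exact (pow_left_inj₀ h2 h2' two_ne_zero).1 (by simpa using k1)
  refine (cong_hull O (-O P) _).interior.trans (Cong.symm ?_)
  convert (cong_hull O' (-O' P') {P', Q', R'}).interior using 3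
  simp only [image_insert_eq, image_singleton, ← sub_eq_add_neg, ← map_sub, e, h1, h1', hc,
    sub_self, map_zero]

lemma per_eq {P Q R P' Q' R' : E} (h : 0 < det (Q - P) (R - Q)) (h' : 0 < det (Q' - P') (R' - Q'))
    (he : ∀ k, 0 < k → sInf (adm (tri P Q R) k) = sInf (adm (tri P' Q' R') k)) :
    det (Q - P) (R - Q) = det (Q' - P') (R' - Q') ∧
      ‖R' - Q'‖ + ‖P' - R'‖ + ‖Q' - P'‖ ≤ ‖R - Q‖ + ‖P - R‖ + ‖Q - P‖ := by
  have hΔ : det (Q - P) (R - Q) = det (Q' - P') (R' - Q') := by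
    linarith [area_eq (dom_tri h) (dom_tri h') he, vol_tri h, vol_tri h']
  have g : ∀ P Q R, Good (Yt P Q R) := fun P Q R => by unfold Yt; fun_prop
  have eY : ∀ {P Q R : E}, 0 < det (Q - P) (R - Q) →
      EE (Yt P Q R) = (‖R - Q‖ + ‖P - R‖ + ‖Q - P‖) * (mw / 2) := fun {P Q R} h => by
    obtain ⟨a0, b0, c0⟩ := sides_pos h
    unfold Yt
    rw [EE_add (by fun_prop) (by fun_prop), EE_add (by fun_prop) (by fun_prop),
      EE_f c0 (by rw [nsq]; ring), EE_f a0 (by rw [nsq]; ring), EE_f b0 (by rw [nsq]; ring)]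
    ring
  refine ⟨hΔ, le_of_mul_le_mul_right ?_ (half_pos mw_pos)⟩
  rw [← eY h, ← eY h']
  have g1 := g P Q R
  have g2 := g P' Q' R'
  set Δ := det (Q - P) (R - Q)
  have t1 : Tendsto (fun s : ℝ => EE (Yt P Q R) + s * EE fun σ => Yt P' Q' R' σ ^ 2 / (2 * Δ))
      (𝓝[>] 0) (𝓝 (EE (Yt P Q R))) :=
    tendsto_nhdsWithin_of_tendsto_nhds (Continuous.tendsto' (by fun_prop) _ _ (by simp))
  refine ge_of_tendsto t1 (eventually_mem_nhdsWithin.mono fun s (hs : 0 < s) => ?_)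
  have k1 := EE_heat (dom_tri h) (dom_tri h') he hs
    (Φ := fun σ => max (Δ - s * Yt P Q R σ) 0 ^ 2 / (2 * Δ))
    (Ψ := fun σ => max (Δ - s * Yt P' Q' R' σ) 0 ^ 2 / (2 * Δ)) (by fun_prop) (by fun_prop)
    (er_tri h hs.le) (hΔ ▸ er_tri h' hs.le)
  have k2 := EE_mono (Φ := fun σ => Δ / 2 - s * Yt P Q R σ) (by fun_prop)
    (Ψ := fun σ => max (Δ - s * Yt P Q R σ) 0 ^ 2 / (2 * Δ)) (by fun_prop) fun σ => by
      rw [le_div_iff₀ (by positivity)]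
      nlinarith [sq_nonneg (max (Δ - s * Yt P Q R σ) 0 - Δ),
        mul_le_mul_of_nonneg_left (le_max_left (Δ - s * Yt P Q R σ) 0) h.le]
  have k3 := EE_mono (Φ := fun σ => max (Δ - s * Yt P' Q' R' σ) 0 ^ 2 / (2 * Δ)) (by fun_prop)
    (Ψ := fun σ => Δ / 2 - s * Yt P' Q' R' σ + s * (s * (Yt P' Q' R' σ ^ 2 / (2 * Δ))))
    (by fun_prop) fun σ => by
      rw [pos_sq_add]
      refine (div_le_div_of_nonneg_right (sub_le_self _ (sq_nonneg _)) (by positivity)).trans_eq ?_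
      field_simp; ring
  rw [EE_add (by fun_prop) (by fun_prop), EE_mul _ (by fun_prop), EE_mul _ (by fun_prop)] at k3
  rw [EE_sub (by fun_prop) (by fun_prop), EE_mul _ (by fun_prop)] at k2 k3
  exact le_of_mul_le_mul_left (by linarith) hs

structure Norm (D : Set E) (ρ : ℝ) : Prop where
  dom : Dom D
  pos : 0 < ρ
  le : ∀ z ∈ closure D, ‖z‖ ≤ ρ
  cert : Cert (closure D) ρ

lemma norm_ex {D : Set E} (hD : Dom D) : ∃ D' ρ, Cong D' D ∧ Norm D' ρ := by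
  obtain ⟨c, ρ, h1, h2, h3⟩ := exists_disc hD.bdd.isCompact_closure fun k =>
    hD.isOpen.measure_ne_zero volume hD.ne (measure_mono_null subset_closure k)
  have e : closure ((· + c) ⁻¹' D) = (· + c) ⁻¹' closure D :=
    ((Homeomorph.addRight c).preimage_closure D).symm
  refine ⟨(· + c) ⁻¹' D, ρ, ⟨LinearIsometryEquiv.refl ℝ E, c, fun z => Iff.rfl⟩,
    ⟨hD.isOpen.preimage (by fun_prop), hD.conv.translate_preimage_left c,
      (isometry_add_right c).antilipschitz.isBounded_preimage hD.bdd, ?_⟩, h1,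
    fun z hz => by simpa using h2 _ (e ▸ hz :), e ▸ h3⟩
  obtain ⟨z, hz⟩ := hD.ne
  exact ⟨z - c, by simpa using hz⟩

lemma vol_closure {D : Set E} (hD : Dom D) : volume.real (closure D) = volume.real D := by
  rw [Measure.real, Measure.real, measure_closure_of_null_frontier (hD.conv.addHaar_frontier _)]

lemma Norm.body {D : Set E} {ρ : ℝ} (h : Norm D ρ) : Body (closure D) :=
  ⟨h.dom.bdd.isCompact_closure, h.dom.conv.closure⟩

lemma Norm.shape {D : Set E} {ρ : ℝ} (h : Norm D ρ) {P Q R : E} (hΔ : 0 < det (Q - P) (R - Q))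
    (he : ∀ k, 0 < k → sInf (adm D k) = sInf (adm (tri P Q R) k)) : Shape D ρ := by
  have A0 := vol_pos h.dom
  have ρ0 := h.pos
  have := (h.body.shape (fits h.dom hΔ he h.pos (c := 0) fun z hz => by
    simpa using h.le z (subset_closure hz)).1 (by positivity) h.pos h.le h.cert).2
    (by rw [vol_closure h.dom, mul_div_cancel₀ _ ρ0.ne'])
  rwa [h.dom.conv.interior_closure_eq_interior_of_nonempty_interior
    (h.dom.isOpen.interior_eq.symm ▸ h.dom.ne), h.dom.isOpen.interior_eq] at this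

lemma Norm.rad {D : Set E} {ρ ρ' : ℝ} (h : Norm D ρ) {P Q R : E} (h' : Norm (tri P Q R) ρ')
    (hΔ : 0 < det (Q - P) (R - Q))
    (he : ∀ k, 0 < k → sInf (adm D k) = sInf (adm (tri P Q R) k)) : ρ' ≤ ρ := by
  have A0 := vol_pos h.dom
  have ρ0 := h.pos
  have := (h'.body.shape (fits h.dom hΔ he h.pos (c := 0) fun z hz => by
    simpa using h.le z (subset_closure hz)).2 (by positivity) h'.pos h'.le h'.cert).1
  rw [vol_closure h'.dom, ← area_eq h.dom h'.dom he, ← mul_div_assoc, div_le_iff₀ ρ0] at this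
  nlinarith

theorem tri_hear {D : Set E} (hD : Dom D) {P Q R : E} (hΔ : 0 < det (Q - P) (R - Q))
    (he : ∀ k, 0 < k → sInf (adm D k) = sInf (adm (tri P Q R) k)) : Cong (tri P Q R) D := by
  obtain ⟨D', ρ, c1, n1⟩ := norm_ex hD
  obtain ⟨T, ρ', c2, n2⟩ := norm_ex (dom_tri hΔ)
  obtain ⟨X, Y, Z, d1, rfl, s1⟩ := (n1.shape hΔ fun k hk => c1.adm_eq k ▸ he k hk).sid n1.pos
  obtain ⟨U, V, W, d2, rfl, s2⟩ := (n2.shape hΔ fun k _ => c2.adm_eq k ▸ rfl).sid n2.pos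
  have e : ∀ k, 0 < k → sInf (adm (tri X Y Z) k) = sInf (adm (tri U V W) k) := fun k hk => by
    rw [c1.adm_eq, c2.adm_eq, he k hk]
  obtain rfl : ρ' = ρ := (n1.rad n2 d2 e).antisymm (n2.rad n1 d1 fun k hk => (e k hk).symm)
  obtain ⟨k1, k2⟩ := per_eq d1 d2 e
  have k3 := (per_eq d2 d1 fun k hk => (e k hk).symm).2.antisymm k2
  obtain ⟨a0, b0, c0⟩ := sides_pos d1
  obtain ⟨a0', b0', c0'⟩ := sides_pos d2
  obtain ⟨k4, k5⟩ := sid_sym n1.pos d1 a0 b0 c0 a0' b0' c0' k3 s1 (k1 ▸ s2)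
  refine c2.symm.trans (Cong.trans (Cong.symm ?_) c1)
  rw [← tri_hull d1, ← tri_hull d2]
  rcases perm_of k3 k4 k5 with ⟨h1, ⟨h2, h3⟩ | ⟨h2, h3⟩⟩ | ⟨h1, ⟨h2, h3⟩ | ⟨h2, h3⟩⟩ |
    ⟨h1, ⟨h2, h3⟩ | ⟨h2, h3⟩⟩
  · exact sss c0 h1 h2 h3
  · rw [show ({U, V, W} : Set E) = {U, W, V} by rw [pair_comm]]
    exact sss c0 ((norm_sub_rev _ _).trans h1) ((norm_sub_rev _ _).trans h3)
      ((norm_sub_rev _ _).trans h2)
  · rw [show ({U, V, W} : Set E) = {V, U, W} by rw [insert_comm]]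
    exact sss c0 ((norm_sub_rev _ _).trans h2) ((norm_sub_rev _ _).trans h1)
      ((norm_sub_rev _ _).trans h3)
  · rw [show ({U, V, W} : Set E) = {W, U, V} by rw [pair_comm, insert_comm]]
    exact sss c0 h3 h1 h2
  · rw [show ({U, V, W} : Set E) = {V, W, U} by rw [insert_comm, pair_comm]]
    exact sss c0 h2 h3 h1
  · rw [show ({U, V, W} : Set E) = {W, V, U} by rw [pair_comm, insert_comm, pair_comm]]
    exact sss c0 ((norm_sub_rev _ _).trans h3) ((norm_sub_rev _ _).trans h2)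
      ((norm_sub_rev _ _).trans h1)

lemma det_ne {A B C : E} (hi : AffineIndependent ℝ ![A, B, C]) : det (B - A) (C - B) ≠ 0 := by
  intro h0
  rw [affineIndependent_iff_linearIndependent_vsub ℝ _ (0 : Fin 3),
    ← linearIndependent_equiv (finSuccAboveEquiv (0 : Fin 3))] at hi
  have h1 : LinearIndependent ℝ ![B - A, C - A] := by
    have e : ![B - A, C - A] = (fun i : {i // i ≠ (0 : Fin 3)} => ![A, B, C] i -ᵥ ![A, B, C] 0) ∘
        finSuccAboveEquiv 0 := by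
      ext1 i; fin_cases i <;> rfl
    exact e ▸ hi
  rw [LinearIndependent.pair_iff] at h1
  simp only [det, PiLp.sub_apply] at h0
  have k1 := h1 (C 1 - A 1) (-(B 1 - A 1)) (by ext i; fin_cases i <;> simp <;> linarith)
  have k2 := h1 (C 0 - A 0) (-(B 0 - A 0)) (by ext i; fin_cases i <;> simp <;> linarith)
  have k3 := h1 1 0 (by ext i; fin_cases i <;> simp <;> linarith [k1.2, k2.2])
  simp at k3

theorem hull_hear {D : Set E} (hD : Dom D) {A B C : E} (hi : AffineIndependent ℝ ![A, B, C])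
    (he : ∀ k, 0 < k → sInf (adm (interior (convexHull ℝ {A, B, C})) k) = sInf (adm D k)) :
    Cong (interior (convexHull ℝ {A, B, C})) D := by
  rcases lt_or_gt_of_ne (det_ne hi) with k | k
  · have k' : 0 < det (C - A) (B - C) := by simp only [det, PiLp.sub_apply] at k ⊢; linarith
    rw [pair_comm, tri_hull k'] at he ⊢
    exact tri_hear hD k' fun k hk => (he k hk).symm
  · rw [tri_hull k] at he ⊢
    exact tri_hear hD k fun k hk => (he k hk).symm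

end Pool.Agent.Lib.MP_c1b9d3_an
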