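import Pool.Agent.Lib.MP_c1b9d3_an.BCmp

namespace Pool.Agent.Lib.MP_c1b9d3_an

open MeasureTheory Real Filter Topology Set Asymptotics Pool.Agent.Lib.MP_2d4879_an

lemma good_sum {ι : Type} (t : Finset ι) {Φ : ι → S → ℝ} (h : ∀ i, Good (Φ i)) :
    Good fun σ => ∑ i ∈ t, Φ i σ := by
  classical
  induction t using Finset.induction_on with
  | empty => simpa using Good.const 0
  | insert i s hi ih => simp only [Finset.sum_insert hi]; exact (h i).add ih

lemma EE_sum {ι : Type} (t : Finset ι) {Φ : ι → S → ℝ} (h : ∀ i, Good (Φ i)) :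
    EE (fun σ => ∑ i ∈ t, Φ i σ) = ∑ i ∈ t, EE (Φ i) := by
  classical
  induction t using Finset.induction_on with
  | empty => simpa using EE_const 0
  | insert i s hi ih => simp only [Finset.sum_insert hi]; rw [EE_add (h i) (good_sum s h), ih]

@[fun_prop] lemma good_ang (α : ℝ) : Good fun σ => ang σ α := Good.atom _ _

lemma EE_ang (α : ℝ) : EE (fun σ => ang σ α) = mw / 2 :=
  (EE_f one_pos (by simp)).trans (one_mul _)

/-- Twice the sector area. -/
noncomputable def qf (σ : S) (α ε : ℝ) : ℝ :=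
  (2 * (ang σ α * ang σ (α + ε)) - cos ε * (ang σ α ^ 2 + ang σ (α + ε) ^ 2)) / sin ε

@[fun_prop] lemma good_qf (α ε : ℝ) : Good fun σ => qf σ α ε := by unfold qf; fun_prop

/-- The corner term. -/
noncomputable def Gq (ε : ℝ) : ℝ := EE fun σ => qf σ 0 ε

lemma EE_qf (α ε : ℝ) : EE (fun σ => qf σ α ε) = Gq ε :=
  EE_rot (p := cos α) (q := sin α) (r := -sin α) (t := cos α) (by simp) (by simp) (by ring)
    fun σ => by
      have : ∀ β, ang (σ.rot (cos α) (sin α) (-sin α) (cos α)) β = ang σ (α + β) := fun β => by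
        simp only [ang, S.rot, cos_add, sin_add]; congr 1 <;> ring
      simp only [qf, this, add_zero, zero_add]

lemma qf_add (σ : S) {a b : ℝ} (ha : 0 < a) (hb : 0 < b) (h : a + b < π) :
    qf σ 0 (a + b) = qf σ 0 a + qf σ a b + 2 * cc a b *
      ((ang σ 0 - cos a * ang σ a) / sin a + (ang σ (a + b) - cos b * ang σ a) / sin b) ^ 2 := by
  have s1 := (sin_pos_of_pos_of_lt_pi ha (by linarith)).ne'
  have s2 := (sin_pos_of_pos_of_lt_pi hb (by linarith)).ne'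
  have s3 := (sin_pos_of_pos_of_lt_pi (add_pos ha hb) h).ne'
  simp only [qf, cc, zero_add]
  generalize ang σ 0 = x, ang σ a = y, ang σ (a + b) = z
  field_simp
  rw [sin_add, cos_add]
  have u := sin_sq_add_cos_sq a
  have v := sin_sq_add_cos_sq b
  generalize sin a = p, cos a = c, sin b = q, cos b = d at *
  linear_combination (x ^ 2 * q ^ 2) * u + (z ^ 2 * p ^ 2) * v

lemma Gq_add {a b : ℝ} (ha : 0 < a) (hb : 0 < b) (h : a + b < π) :
    Gq a + Gq b ≤ Gq (a + b) ∧ (a = b → Gq a + Gq b < Gq (a + b)) := by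
  have s1 := sin_pos_of_pos_of_lt_pi ha (by linarith)
  have s2 := sin_pos_of_pos_of_lt_pi hb (by linarith)
  have c0 : 0 < 2 * cc a b := mul_pos two_pos (div_pos (mul_pos s1 s2)
    (mul_pos two_pos (sin_pos_of_pos_of_lt_pi (add_pos ha hb) h)))
  set l : S → ℝ := fun σ =>
    (ang σ 0 - cos a * ang σ a) / sin a + (ang σ (a + b) - cos b * ang σ a) / sin b with hl
  have gl : Good l := by rw [hl]; fun_prop
  have e : Gq (a + b) = Gq a + Gq b + 2 * cc a b * EE fun σ => l σ ^ 2 := by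
    rw [← EE_qf a b, Gq, Gq, ← EE_mul _ (gl.pow 2), ← EE_add (by fun_prop) (by fun_prop),
      ← EE_add (by fun_prop) ((Good.const _).mul (gl.pow 2))]
    exact congrArg EE (funext fun σ => qf_add σ ha hb h)
  have k : EE l ^ 2 ≤ EE fun σ => l σ ^ 2 := by
    have := EE_mono (Φ := fun σ => 2 * EE l * l σ - EE l ^ 2)
      (((Good.const _).mul gl).sub (Good.const _)) (gl.pow 2) fun σ => by
        nlinarith [sq_nonneg (l σ - EE l)]
    rw [EE_sub ((Good.const _).mul gl) (Good.const _), EE_mul _ gl, EE_const] at this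
    linarith
  refine ⟨by nlinarith [mul_nonneg c0.le ((sq_nonneg _).trans k)], fun hab => ?_⟩
  subst hab
  have m : EE l = (1 - cos a) * mw / sin a := by
    have : l = fun σ => (sin a)⁻¹ * ang σ 0 + ((sin a)⁻¹ * ang σ (a + a) +
        -2 * cos a / sin a * ang σ a) := by ext σ; rw [hl]; ring
    rw [this, EE_add (by fun_prop) (by fun_prop), EE_add (by fun_prop) (by fun_prop),
      EE_mul _ (good_ang _), EE_mul _ (good_ang _), EE_mul _ (good_ang _), EE_ang, EE_ang, EE_ang]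
    ring
  have : 0 < EE l := m ▸ div_pos (mul_pos (by
    nlinarith [sin_sq_add_cos_sq a, cos_le_one a]) mw_pos) s1
  nlinarith [mul_pos c0 ((pow_pos this 2).trans_le k)]

lemma ang_lip (σ : S) (α β : ℝ) : ang σ β ≤ ang σ α + |β - α| * Wd σ := by
  have h := σ.add (cos α) (sin α) (cos β - cos α) (sin β - sin α)
  rw [add_sub_cancel, add_sub_cancel] at h
  exact h.trans (add_le_add_right (f_le σ (abs_cos_sub_cos_le β α) (abs_sin_sub_sin_le β α)) _)

lemma Gq_low : ∃ C, ∀ a, 0 < a → a < π → -C * a ≤ Gq a := by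
  have gW : Good fun σ => Wd σ ^ 2 := (Good.W1.add Good.W2).pow 2
  have k : ∀ a, 0 < a → a ≤ π / 2 → -(π / 2 * EE fun σ => Wd σ ^ 2) * a ≤ Gq a := fun a h0 h1 => by
    have s1 := mul_le_sin h0.le h1
    have s0 : 0 < 2 / π * a := by positivity
    rw [show -(π / 2 * EE fun σ => Wd σ ^ 2) * a = -(π / 2 * a) * EE fun σ => Wd σ ^ 2 by ring,
      ← EE_mul _ gW]
    refine EE_mono ((Good.const _).mul gW) (good_qf _ _) fun σ => ?_
    have k1 := ang_lip σ 0 a
    have k2 := ang_lip σ a 0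
    rw [sub_zero, abs_of_pos h0] at k1
    rw [zero_sub, abs_neg, abs_of_pos h0] at k2
    have k3 : (ang σ 0 - ang σ a) ^ 2 ≤ (a * Wd σ) ^ 2 := sq_le_sq' (by linarith) (by linarith)
    have k4 := mul_le_mul_of_nonneg_left s1 (show 0 ≤ π / 2 * a * Wd σ ^ 2 by positivity)
    rw [show π / 2 * a * Wd σ ^ 2 * (2 / π * a) = (a * Wd σ) ^ 2 by field_simp] at k4
    rw [qf, zero_add, le_div_iff₀ (s0.trans_le s1)]
    nlinarith [mul_nonneg (sub_nonneg.2 (cos_le_one a))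
      (add_nonneg (sq_nonneg (ang σ 0)) (sq_nonneg (ang σ a)))]
  refine ⟨π / 2 * EE fun σ => Wd σ ^ 2, fun a h0 h1 => le_trans ?_ (((Gq_add (half_pos h0)
    (half_pos h0) (by linarith)).1).trans_eq (by rw [add_halves]))⟩
  linarith [k (a / 2) (half_pos h0) (by linarith)]

lemma excess {G : ℝ → ℝ} {C : ℝ} (h1 : ∀ a b, 0 < a → 0 < b → a + b < π → G a + G b ≤ G (a + b))
    (h2 : ∀ a, 0 < a → a < π → -C * a ≤ G a) (h3 : G (1 / 8) + G (1 / 8) < G (1 / 8 + 1 / 8)) :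
    ∃ γ η ε, 0 < ε ∧ (∀ a, 0 < a → a < π → γ * a ≤ G a) ∧
      (∀ a, 0 < a → a ≤ ε → G a ≤ (γ + η) * a) ∧ ∀ a, 1 / 4 < a → a < π → γ * a + 2 * π * η < G a := by
  have hp := pi_gt_three
  set T := (fun a => G a / a) '' Ioo 0 π
  have hb : BddBelow T := ⟨-C, by
    rintro _ ⟨a, ha, rfl⟩; exact (le_div_iff₀ ha.1).2 (h2 a ha.1 ha.2)⟩
  have k1 : ∀ a, 0 < a → a < π → sInf T * a ≤ G a := fun a a0 a1 =>
    (le_div_iff₀ a0).1 (csInf_le hb ⟨a, ⟨a0, a1⟩, rfl⟩)
  set γ := sInf T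
  obtain ⟨η, hη⟩ : ∃ η, η = (G (1 / 4) - γ / 4) / (4 * π) := ⟨_, rfl⟩
  have x0 : 0 < G (1 / 4) - γ / 4 := by
    norm_num at h3; linarith [k1 (1 / 8) (by norm_num) (by linarith)]
  have η0 : 0 < η := by rw [hη]; positivity
  obtain ⟨_, ⟨t, ht, rfl⟩, ht'⟩ := exists_lt_of_csInf_lt (s := T) ⟨_, 1, ⟨one_pos, by linarith⟩, rfl⟩
    (show γ < γ + η / 2 by linarith)
  rw [div_lt_iff₀ ht.1] at ht'
  refine ⟨γ, η, t / 2, half_pos ht.1, k1, fun a a0 a1 => ?_, fun a a0 a1 => ?_⟩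
  · have k2 : ∀ (k : ℕ) u, k * a < u → u < π → k * (G a - γ * a) ≤ G u - γ * u := by
      intro k
      induction k with
      | zero => intro u u0 u1; simpa using k1 u (by simpa using u0) u1
      | succ k ih =>
        intro u u0 u1
        push_cast at u0 ⊢
        have := h1 a (u - a) a0 (by nlinarith [k.cast_nonneg (α := ℝ)]) (by linarith)
        rw [add_sub_cancel] at this
        linarith [ih (u - a) (by linarith) (by linarith)]
    have m1 := Nat.le_ceil (t / a)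
    have m2 := Nat.ceil_lt_add_one (div_pos ht.1 a0).le
    have m3 : 2 ≤ t / a := (le_div_iff₀ a0).2 (by linarith)
    obtain ⟨k, hk⟩ := Nat.exists_eq_succ_of_ne_zero (Nat.ceil_pos.2 (div_pos ht.1 a0)).ne'
    rw [hk] at m1 m2
    push_cast at m1 m2
    rw [div_le_iff₀ a0] at m1
    have k0 : (1 : ℝ) ≤ k := by
      have : (2 : ℝ) * a ≤ (k + 1) * a := by linarith
      linarith [le_of_mul_le_mul_right this a0]
    have := k2 k t ((lt_div_iff₀ a0).1 (by linarith)) ht.2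
    refine le_of_mul_le_mul_left ?_ (one_pos.trans_le k0)
    nlinarith [mul_le_mul_of_nonneg_left m1 η0.le, mul_le_mul_of_nonneg_left k0 (mul_pos η0 a0).le]
  · have := h1 (1 / 4) (a - 1 / 4) (by norm_num) (by linarith) (by linarith)
    rw [add_sub_cancel] at this
    have e : 2 * π * η = (G (1 / 4) - γ / 4) / 2 := by rw [hη]; field_simp; ring
    linarith [k1 (a - 1 / 4) (by linarith) (by linarith)]

namespace GF

variable {f g : GF} {b c : ℤ → ℝ}

lemma sum_e (f : GF) : ∑ i ∈ Finset.range f.n, f.e i = 2 * π := by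
  have := Finset.sum_range_sub (fun i : ℕ => f.φ (i - 1)) f.n
  simp only [Nat.cast_add, Nat.cast_one, add_sub_cancel_right, Nat.cast_zero] at this
  have k := f.per (0 - 1)
  rw [show 0 - 1 + (f.n : ℤ) = f.n - 1 by ring] at k
  simp only [e]
  linarith

lemma B_qf (f : GF) (σ : S) : f.B (fun i => ang σ (f.φ i)) (fun i => ang σ (f.φ i)) =
    ∑ i ∈ Finset.range f.n, qf σ (f.φ (i - 1)) (f.e i) := by
  have pd := f.pd_of_per (sa_ang σ).per
  have h := Pd.sum_succ (f := f) (b := fun i => ang σ (f.φ (i - 1)) *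
    ((ang σ (f.φ i) - cos (f.e i) * ang σ (f.φ (i - 1))) / sin (f.e i))) fun i => by
      simp only [show i + f.n - 1 = i - 1 + f.n by ring, pd i, pd (i - 1), f.e_per]
  simp only [add_sub_cancel_right] at h
  simp only [B, ln, mul_add, Finset.sum_add_distrib, h]
  rw [← Finset.sum_add_distrib]
  refine Finset.sum_congr rfl fun i _ => ?_
  rw [qf, show f.φ (i - 1) + f.e i = f.φ i by simp [e]]
  ring

lemma heat (hb : f.Pd b) (hl : ∀ i, 0 < f.ln b i) : ∃ (Φ : ℝ → S → ℝ) (err : ℝ → ℝ),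
    err =o[L0] (fun s => s ^ 2) ∧ ∀ s, 0 < s → Good (Φ s) ∧
      (∀ n (y : Fin n → E), er (f.set b) s y = Φ s (sp y)) ∧
      EE (Φ s) = f.B b b / 2 + -(mw / 2 * ∑ i ∈ Finset.range f.n, f.ln b i) * s +
        (∑ i ∈ Finset.range f.n, Gq (f.e i)) / 2 * s ^ 2 + err s := by
  obtain ⟨h, h0, hh⟩ := small hb hl
  obtain ⟨M, M0, hM⟩ := f.ln_bd
  have hD := dom hb hl
  have hA := area hb fun i => (hl i).le
  set A := f.B b b / 2
  set L := ∑ i ∈ Finset.range f.n, f.ln b i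
  have L0' : 0 ≤ L := Finset.sum_nonneg fun i _ => (hl i).le
  let Φ : ℝ → S → ℝ := fun s σ => volume.real (f.set fun i => b i - s * ang σ (f.φ i))
  let Ψ : ℝ → S → ℝ := fun s σ => A - s * ∑ i ∈ Finset.range f.n, f.ln b i * ang σ (f.φ i) +
    s ^ 2 / 2 * ∑ i ∈ Finset.range f.n, qf σ (f.φ (i - 1)) (f.e i)
  have g1 : Good fun σ => ∑ i ∈ Finset.range f.n, f.ln b i * ang σ (f.φ i) :=
    good_sum _ fun _ => by fun_prop
  have g2 : Good fun σ => ∑ i ∈ Finset.range f.n, qf σ (f.φ (i - 1)) (f.e i) :=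
    good_sum _ fun _ => good_qf _ _
  have gΨ : ∀ s, Good (Ψ s) := fun s =>
    ((Good.const _).sub ((Good.const _).mul g1)).add ((Good.const _).mul g2)
  have eΦ : ∀ s, 0 < s → ∀ n (y : Fin n → E), er (f.set b) s y = Φ s (sp y) :=
    fun s hs n y => f.er_set b y hs.le
  have bΦ : ∀ s, 0 < s → ∀ σ, Φ s σ ≤ A := fun s hs σ => hA ▸ measureReal_mono
    (fun z hz i => (hz i).trans_le (sub_le_self _ (mul_nonneg hs.le (ang_nonneg _ _))))
      hD.bdd.measure_lt_top.ne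
  have gΦ : ∀ s, 0 < s → Good (Φ s) := fun s hs => (Good.const A).of_le (fun n => by
    simp only [← eΦ s hs]
    exact (measurable_measure_prodMk_right (ms_er hD.isOpen.measurableSet s)).ennreal_toReal)
      fun σ => (abs_of_nonneg measureReal_nonneg).trans_le (bΦ s hs σ)
  obtain ⟨C, hC⟩ : ∃ C, C = 2 * (4 * A / h ^ 2 + 4 * L / h + 4 * (f.n * M)) := ⟨_, rfl⟩
  have key : ∀ s, 0 < s → ∀ σ, |Φ s σ - Ψ s σ| ≤
      C * (max (s * σ.W1 - h / 4) 0 ^ 2 + max (s * σ.W2 - h / 4) 0 ^ 2) := fun s hs σ => by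
    have A0 : 0 ≤ A := hA ▸ measureReal_nonneg
    have eΨ : Ψ s σ = A - s * f.B (fun i => ang σ (f.φ i)) b +
        s ^ 2 * f.B (fun i => ang σ (f.φ i)) (fun i => ang σ (f.φ i)) / 2 := by
      simp only [Ψ, B_qf]; simp only [B, mul_comm (f.ln b _)]; ring
    rcases le_or_gt (s * Wd σ) h with k | k
    · rw [eΨ, sub_eq_zero.2 (hh σ s hs.le k), abs_zero, hC]; positivity
    have W0 := Wd_nonneg σ
    have l0 := f.ln_sa_nonneg (sa_ang σ) (ang_nonneg σ)
    have a1 : 0 ≤ f.B (fun i => ang σ (f.φ i)) b :=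
      Finset.sum_nonneg fun i _ => mul_nonneg (ang_nonneg _ _) (hl i).le
    have a2 : f.B (fun i => ang σ (f.φ i)) b ≤ Wd σ * L := (Finset.sum_le_sum fun (i : ℕ) _ =>
      mul_le_mul_of_nonneg_right (ang_le _ _) (hl i).le).trans_eq (Finset.mul_sum ..).symm
    have a3 : 0 ≤ f.B (fun i => ang σ (f.φ i)) fun i => ang σ (f.φ i) :=
      Finset.sum_nonneg fun i _ => mul_nonneg (ang_nonneg _ _) (l0 i)
    have a4 : (f.B (fun i => ang σ (f.φ i)) fun i => ang σ (f.φ i)) ≤ f.n * (Wd σ * (M * Wd σ)) :=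
      (Finset.sum_le_card_nsmul (Finset.range f.n) _ _ fun (i : ℕ) _ => mul_le_mul (ang_le _ _)
        ((le_abs_self _).trans (hM _ _ (fun i => by
          rw [abs_of_nonneg (ang_nonneg _ _)]; exact ang_le _ _) i)) (l0 i) W0).trans_eq (by simp)
    have u1 := le_max_left (s * σ.W1 - h / 4) 0
    have u2 := le_max_left (s * σ.W2 - h / 4) 0
    generalize max (s * σ.W1 - h / 4) 0 = u at *
    generalize max (s * σ.W2 - h / 4) 0 = v at *
    have x1 : s * Wd σ ≤ 2 * (u + v) := by unfold Wd at k ⊢; linarith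
    have x2 : h ≤ 2 * (u + v) := by linarith
    have x3 : h ^ 2 ≤ 4 * (u + v) ^ 2 := by nlinarith
    have x4 : (s * Wd σ) * h ≤ 4 * (u + v) ^ 2 := by nlinarith
    have x5 : (s * Wd σ) ^ 2 ≤ 4 * (u + v) ^ 2 := by nlinarith [mul_nonneg hs.le W0]
    have y1 : A ≤ 4 * A / h ^ 2 * (u + v) ^ 2 := by
      rw [div_mul_eq_mul_div, le_div_iff₀ (by positivity)]; nlinarith
    have y2 : s * (Wd σ * L) ≤ 4 * L / h * (u + v) ^ 2 := by
      rw [div_mul_eq_mul_div, le_div_iff₀ h0]; nlinarith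
    have y3 : s ^ 2 * (f.n * (Wd σ * (M * Wd σ))) ≤ 4 * (f.n * M) * (u + v) ^ 2 := by
      nlinarith [mul_le_mul_of_nonneg_left x5 (show (0 : ℝ) ≤ f.n * M by positivity)]
    have y4 : C / 2 * (u + v) ^ 2 ≤ C * (u ^ 2 + v ^ 2) := by
      nlinarith [mul_nonneg (show 0 ≤ C by rw [hC]; positivity) (sq_nonneg (u - v))]
    have z1 := mul_le_mul_of_nonneg_left a2 hs.le
    have z2 := mul_le_mul_of_nonneg_left a4 (sq_nonneg s)
    have z3 := mul_nonneg hs.le a1
    have z4 := mul_nonneg (sq_nonneg s) a3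
    have z5 : 0 ≤ Φ s σ := measureReal_nonneg
    rw [hC] at y4 ⊢
    rw [eΨ, abs_le]
    constructor <;> linarith [bΦ s hs σ]
  refine ⟨Φ, fun s => EE (Φ s) - EE (Ψ s), ?_, fun s hs => ⟨gΦ s hs, eΦ s hs, ?_⟩⟩
  · refine IsBigO.trans_isLittleO (IsBigO.of_bound (|2 * C|) ?_)
      ((ps_O (h / 4)).trans_isLittleO (php_o_sq (by positivity)))
    filter_upwards [self_mem_nhdsWithin] with s hs
    have gU : Good fun σ : S => C * (max (s * σ.W1 - h / 4) 0 ^ 2 +
      max (s * σ.W2 - h / 4) 0 ^ 2) := by fun_prop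
    have e : EE (fun σ : S => C * (max (s * σ.W1 - h / 4) 0 ^ 2 + max (s * σ.W2 - h / 4) 0 ^ 2)) =
        2 * C * ps (h / 4) s := by
      rw [EE_mul _ (by fun_prop), EE_add (by fun_prop) (by fun_prop),
        EE_W2 fun w => max (s * w - h / 4) 0 ^ 2, ps]; ring
    have k1 := EE_mono ((gΦ s hs).sub (gΨ s)) gU fun σ => (le_abs_self _).trans (key s hs σ)
    have k2 := EE_mono ((gΨ s).sub (gΦ s hs)) gU fun σ =>
      (le_abs_self _).trans ((abs_sub_comm _ _).trans_le (key s hs σ))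
    rw [EE_sub (gΦ s hs) (gΨ s), e] at k1
    rw [EE_sub (gΨ s) (gΦ s hs), e] at k2
    rw [Real.norm_eq_abs, Real.norm_eq_abs, ← abs_mul]
    exact (abs_le.2 ⟨by linarith, k1⟩).trans (le_abs_self _)
  · have : EE (Ψ s) = A - s * (L * (mw / 2)) + s ^ 2 / 2 * ∑ i ∈ Finset.range f.n, Gq (f.e i) := by
      rw [EE_add ((Good.const _).sub ((Good.const _).mul g1)) ((Good.const _).mul g2),
        EE_sub (Good.const _) ((Good.const _).mul g1), EE_const, EE_mul _ g1, EE_mul _ g2,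
        EE_sum _ fun _ => good_qf _ _, EE_sum _ fun _ => by fun_prop, Finset.sum_mul]
      simp only [EE_qf, EE_mul _ (good_ang _), EE_ang]
    simp only [this]; ring

theorem inv_eq (hb : f.Pd b) (hl : ∀ i, 0 < f.ln b i) (hc : g.Pd c) (hl' : ∀ i, 0 < g.ln c i)
    (he : Iso (f.set b) (g.set c)) :
    ∑ i ∈ Finset.range f.n, f.ln b i = ∑ i ∈ Finset.range g.n, g.ln c i ∧
      ∑ i ∈ Finset.range f.n, Gq (f.e i) = ∑ i ∈ Finset.range g.n, Gq (g.e i) := by
  obtain ⟨Φ, e1, h1, h2⟩ := heat hb hl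
  obtain ⟨Ψ, e2, h3, h4⟩ := heat hc hl'
  obtain ⟨-, k1, k2⟩ := poly_zero (a := f.B b b / 2 - g.B c c / 2)
    (b := mw / 2 * (∑ i ∈ Finset.range g.n, g.ln c i - ∑ i ∈ Finset.range f.n, f.ln b i))
    (c := (∑ i ∈ Finset.range f.n, Gq (f.e i) - ∑ i ∈ Finset.range g.n, Gq (g.e i)) / 2)
    ((h3.sub h1).congr' (by
      filter_upwards [self_mem_nhdsWithin] with s hs
      obtain ⟨a1, a2, a3⟩ := h2 s hs
      obtain ⟨b1, b2, b3⟩ := h4 s hs
      linarith [EE_heat (dom hb hl) (dom hc hl') he hs a1 b1 a2 b2]) EventuallyEq.rfl)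
  exact ⟨(sub_eq_zero.1 ((mul_eq_zero.1 k1).resolve_left (half_pos mw_pos).ne')).symm,
    by linarith⟩

end GF

theorem small_ang : ∃ ε, 0 < ε ∧ ∀ f g : GF, (∀ i, f.e i ≤ ε) →
    ∑ i ∈ Finset.range f.n, Gq (f.e i) = ∑ i ∈ Finset.range g.n, Gq (g.e i) →
      ∀ j, g.e j ≤ 1 / 4 := by
  obtain ⟨C, hC⟩ := Gq_low
  obtain ⟨γ, η, ε, h0, h1, h2, h3⟩ := excess (fun a b ha hb h => (Gq_add ha hb h).1) hC
    ((Gq_add (by norm_num) (by norm_num) (by linarith [pi_gt_three])).2 rfl)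
  refine ⟨ε, h0, fun f g he h j => not_lt.1 fun k => ?_⟩
  obtain ⟨m, hm, i, rfl⟩ := g.exists_rep 0 j
  rw [GF.Pd.mul g.e_per, zero_add] at k
  have k1 := Finset.sum_le_sum fun (i : ℕ) (_ : i ∈ Finset.range f.n) => h2 _ (f.e_pos i) (he i)
  have k2 := Finset.single_le_sum (f := fun i : ℕ => Gq (g.e i) - γ * g.e i)
    (fun i _ => sub_nonneg.2 (h1 _ (g.e_pos i) (g.e_lt i))) (Finset.mem_range.2 hm)
  rw [← Finset.mul_sum, f.sum_e] at k1
  rw [Finset.sum_sub_distrib, ← Finset.mul_sum, g.sum_e] at k2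
  linarith [h3 _ k (g.e_lt m)]

/-- Generic nearly equilateral polygons with small exterior angles are determined. -/
theorem generic' (hM : Match) : ∃ ε, 0 < ε ∧ ∀ f : GF, Odd f.n → (∀ i, f.e i ≤ ε) →
    ∀ b0 η, f.Pd b0 → 0 < η → ∃ b, f.Pd b ∧ (∀ i, |b i - b0 i| ≤ η) ∧
      ((∀ i, 0 < f.ln b i) → (∀ i j, f.ln b i ≤ 11 / 10 * f.ln b j) → ∀ D, Dom D →
        Iso (f.set b) D → Cong (f.set b) D) := by
  obtain ⟨ε, h0, h1⟩ := small_ang
  refine ⟨min ε (1 / 4), by positivity, fun f hf he b0 η hb hη => ?_⟩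
  obtain ⟨b, k1, k2, k3⟩ := generic hM f hf (fun i => (he i).trans (min_le_right _ _)) hb hη
  refine ⟨b, k1, k2, fun hl hr D hD hi => ?_⟩
  obtain ⟨g, c, l1, l2, rfl⟩ := mate_poly k1 hl hD fun k hk => (hi k hk).symm
  obtain ⟨m1, m2⟩ := GF.inv_eq k1 hl l1 l2 hi
  exact k3 hl hr g c ⟨l1, h1 f g (fun i => (he i).trans (min_le_left _ _)) m2, l2⟩ hi m1

end Pool.Agent.Lib.MP_c1b9d3_an
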