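import Pool.Agent.Lib.MP_c1b9d3_an.BFan

namespace Pool.Agent.Lib.MP_c1b9d3_an

open MeasureTheory Real Filter Topology Set Pool.Agent.Lib.MP_2d4879_an
open scoped ENNReal

lemma Jk_tri {κ H : ℝ} (hκ : 0 ≤ κ) (hH : 0 ≤ H) : Jk (-κ) 0 H = κ * H ^ 2 / 2 := by
  unfold Jk
  split_ifs with k
  · simp [neg_eq_zero.1 k]
  · have : κ ≠ 0 := fun k' => k (by simp [k'])
    rw [max_self, max_eq_left hH, max_eq_left (by nlinarith [mul_nonneg hκ hH])]
    field_simp; ring

lemma vol_tri_o {x y H : ℝ} (hxy : x ≤ y) (hH : 0 ≤ H) :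
    volume {p : E | 0 < p 1 ∧ p 1 < H ∧ x * p 1 < p 0 ∧ p 0 < y * p 1} =
      ENNReal.ofReal ((y - x) * H ^ 2 / 2) := by
  have := vol_trap 0 H x y 0 0
  simp only [add_zero, mul_zero, sub_zero] at this
  rw [this, ← Jk_tri (sub_nonneg.2 hxy) hH, neg_sub]

lemma vol_tri_c {x y H : ℝ} (hxy : x ≤ y) (hH : 0 ≤ H) :
    volume {p : E | 0 < p 1 ∧ p 1 < H ∧ x * p 1 ≤ p 0 ∧ p 0 ≤ y * p 1} =
      ENNReal.ofReal ((y - x) * H ^ 2 / 2) := by
  rw [← Jk_tri (sub_nonneg.2 hxy) hH, ← sub_zero H, ← lint_lin, vol_sec (by measurability),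
    ← lintegral_indicator measurableSet_Ioo, sub_zero]
  congr 1; ext t
  by_cases ht : t ∈ Ioo 0 H
  · rw [indicator_of_mem ht, show 0 - -(y - x) * (t - 0) = y * t - x * t by ring, ← Real.volume_Icc]
    congr 1; ext u; simp [ht.1, ht.2]
  · rw [indicator_of_notMem ht]
    convert measure_empty (μ := (volume : Measure ℝ))
    ext u
    simp only [Matrix.cons_val_one, Matrix.cons_val_zero, mem_ofPred_eq, mem_empty_iff_false,
      iff_false]
    exact fun h => ht ⟨h.1, h.2.1⟩

lemma lin_pi (z : E) (α : ℝ) : lin z (α + π) = -lin z α := by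
  simp only [lin, cos_add_pi, sin_add_pi]; ring

namespace GF

variable {f : GF} {b c : ℤ → ℝ}

lemma lin_succ (f : GF) (z : E) (i : ℤ) : lin z (f.φ (i + 1)) =
    cos (f.e (i + 1)) * rot (f.φ i) z 1 + sin (f.e (i + 1)) * rot (f.φ i) z 0 := by
  rw [← lin_add]; congr 1; simp [e]

lemma lin_pred (f : GF) (z : E) (i : ℤ) : lin z (f.φ (i - 1)) =
    cos (f.e i) * rot (f.φ i) z 1 - sin (f.e i) * rot (f.φ i) z 0 := by
  rw [← lin_sub]; congr 1; simp [e]

lemma exists_between (f : GF) (α : ℝ) : ∃ i, f.φ i ≤ α ∧ α < f.φ (i + 1) := by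
  have hn : (0 : ℤ) < f.n := by exact_mod_cast f.npos
  obtain ⟨k, hk⟩ := exists_int_gt ((α - f.φ 0) / (2 * π))
  obtain ⟨k', hk'⟩ := exists_int_lt ((α - f.φ 0) / (2 * π))
  rw [div_lt_iff₀ (by positivity)] at hk
  rw [lt_div_iff₀ (by positivity)] at hk'
  obtain ⟨i, h1, h2⟩ := Int.exists_greatest_of_bdd (P := fun i => f.φ i ≤ α)
    ⟨0 + k * f.n, fun i hi => by
      by_contra h
      have := f.mono (not_le.1 h)
      rw [f.φ_mul] at this
      linarith⟩ ⟨0 + k' * f.n, by rw [f.φ_mul]; linarith⟩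
  exact ⟨i, h1, not_le.1 fun h => by linarith [h2 _ h]⟩

/-- Every direction is a nonnegative combination of two consecutive fan directions. -/
lemma comb (f : GF) (α : ℝ) : ∃ i, ∃ p q : ℝ, 0 ≤ p ∧ 0 ≤ q ∧ 0 < p ∧ p ≤ (sin (f.e (i + 1)))⁻¹ ∧
    q ≤ (sin (f.e (i + 1)))⁻¹ ∧ f.φ i ≤ α ∧ α < f.φ (i + 1) ∧
    cos α = p * cos (f.φ i) + q * cos (f.φ (i + 1)) ∧
    sin α = p * sin (f.φ i) + q * sin (f.φ (i + 1)) := by
  obtain ⟨i, h1, h2⟩ := f.exists_between α
  have hs := f.sin_pos (i + 1)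
  have hg := f.gap i
  have k1 : 0 < sin (f.φ (i + 1) - α) := sin_pos_of_pos_of_lt_pi (by linarith) (by linarith)
  have k2 : 0 ≤ sin (α - f.φ i) := sin_nonneg_of_nonneg_of_le_pi (by linarith) (by linarith)
  refine ⟨i, sin (f.φ (i + 1) - α) / sin (f.e (i + 1)), sin (α - f.φ i) / sin (f.e (i + 1)),
    by positivity, by positivity, by positivity, ?_, ?_, h1, h2, ?_, ?_⟩
  · rw [← one_div]; gcongr; exact sin_le_one _
  · rw [← one_div]; gcongr; exact sin_le_one _
  · field_simp; rw [e_succ, sin_sub, sin_sub, sin_sub]; ring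
  · field_simp; rw [e_succ, sin_sub, sin_sub, sin_sub]; ring

lemma exists_pos (f : GF) {z : E} (hz : z ≠ 0) : ∃ i, 0 < lin z (f.φ i) := by
  obtain ⟨α, hα⟩ := lin_eq z
  obtain ⟨i, p, q, p0, q0, -, -, -, -, -, h1, h2⟩ := f.comb α
  have h3 : lin z α = p * lin z (f.φ i) + q * lin z (f.φ (i + 1)) := by
    simp only [lin, h1, h2]; ring
  have h4 : 0 < lin z α := by rw [hα]; simpa using hz
  by_contra h
  push Not at h
  nlinarith [mul_nonneg p0 (neg_nonneg.2 (h i)), mul_nonneg q0 (neg_nonneg.2 (h (i + 1)))]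

lemma mem_set (hb : f.Pd b) {z : E} : z ∈ f.set b ↔ ∀ i : ℕ, i < f.n → lin z (f.φ i) < b i := by
  refine ⟨fun h i _ => h i, fun h i => ?_⟩
  obtain ⟨m, hm, k, rfl⟩ := f.exists_rep 0 i
  rw [hb.mul, (f.pd_lin z).mul, zero_add]
  exact h m hm

lemma isOpen_set (hb : f.Pd b) : IsOpen (f.set b) := by
  have : f.set b = ⋂ i ∈ Finset.range f.n, {z | lin z (f.φ i) < b i} := by
    ext z; simp [mem_set hb]
  rw [this]
  exact isOpen_biInter_finset fun i _ => isOpen_lt (by unfold lin; fun_prop) continuous_const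

lemma convex_set (f : GF) (b : ℤ → ℝ) : Convex ℝ (f.set b) := fun x hx y hy u v hu hv huv i => by
  rw [lin_vadd, lin_smul, lin_smul]
  have h1 := hx i
  have h2 := hy i
  rcases hu.eq_or_lt with rfl | hu
  · rw [zero_add] at huv; simpa [huv] using h2
  · have : b i = u * b i + v * b i := by rw [← add_mul, huv, one_mul]
    nlinarith [mul_lt_mul_of_pos_left h1 hu, mul_le_mul_of_nonneg_left h2.le hv]

lemma Pd.bdd (hb : f.Pd b) : ∃ C, 0 ≤ C ∧ ∀ i, |b i| ≤ C := by
  refine ⟨∑ i ∈ Finset.range f.n, |b i|, by positivity, fun i => ?_⟩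
  obtain ⟨m, hm, k, rfl⟩ := f.exists_rep 0 i
  rw [hb.mul, zero_add]
  exact Finset.single_le_sum (f := fun i : ℕ => |b i|) (fun _ _ => abs_nonneg _)
    (Finset.mem_range.2 hm)

lemma bdd_set (hb : f.Pd b) : Bornology.IsBounded (f.set b) := by
  obtain ⟨C, C0, hC⟩ := hb.bdd
  obtain ⟨M, M0, hM⟩ := Pd.bdd (f := f) (b := fun i => (sin (f.e i))⁻¹) fun i => by
    simp only [f.e_per]
  refine isBounded_iff_forall_norm_le.2 ⟨2 * (M * C), fun z hz => ?_⟩
  obtain ⟨α, hα⟩ := lin_eq z
  obtain ⟨i, p, q, p0, q0, -, p1, q1, -, -, h1, h2⟩ := f.comb α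
  have h3 : lin z α = p * lin z (f.φ i) + q * lin z (f.φ (i + 1)) := by
    simp only [lin, h1, h2]; ring
  rw [hα, sub_self, cos_zero, mul_one] at h3
  have k := (le_abs_self _).trans (hM (i + 1))
  have k1 := mul_le_mul_of_nonneg_left ((hz i).le.trans ((le_abs_self _).trans (hC i))) p0
  have k2 := mul_le_mul_of_nonneg_left ((hz (i + 1)).le.trans ((le_abs_self _).trans (hC _))) q0
  nlinarith [mul_le_mul_of_nonneg_right (p1.trans k) C0, mul_le_mul_of_nonneg_right (q1.trans k) C0]

lemma area0 (hb : f.Pd b) (hl : ∀ i, 0 ≤ f.ln b i) (h0 : ∀ i, 0 ≤ b i) :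
    volume (f.set b) = ENNReal.ofReal (f.B b b / 2) := by
  classical
  let lo : ℤ → ℝ := fun i => (cos (f.e i) - b (i - 1) / b i) / sin (f.e i)
  let hi : ℤ → ℝ := fun i => (b (i + 1) / b i - cos (f.e (i + 1))) / sin (f.e (i + 1))
  have hlh : ∀ i, 0 < b i → hi i - lo i = f.ln b i / b i := fun i h => by
    have := (f.sin_pos i).ne'
    have := (f.sin_pos (i + 1)).ne'
    simp only [lo, hi, ln]; field_simp; ring
  have hle : ∀ i, 0 < b i → lo i ≤ hi i := fun i h =>
    sub_nonneg.1 (hlh i h ▸ div_nonneg (hl i) h.le)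
  have hsum : ENNReal.ofReal (f.B b b / 2) =
      ∑ i ∈ Finset.range f.n, ENNReal.ofReal (b i * f.ln b i / 2) := by
    rw [B, Finset.sum_div, ENNReal.ofReal_sum_of_nonneg fun i _ =>
      div_nonneg (mul_nonneg (h0 _) (hl _)) two_pos.le]
  have hv : ∀ i, 0 < b i → (hi i - lo i) * b i ^ 2 / 2 = b i * f.ln b i / 2 := fun i h => by
    rw [hlh i h]; field_simp
  have c1 : ∀ (i : ℤ) (z : E), 0 < b i → (lo i * rot (f.φ i) z 1 - rot (f.φ i) z 0) *
      (sin (f.e i) * b i) = lin z (f.φ (i - 1)) * b i - b (i - 1) * lin z (f.φ i) := by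
    intro i z h
    have := (f.sin_pos i).ne'
    simp only [lo, lin_pred, rot_1]; field_simp; ring
  have c2 : ∀ (i : ℤ) (z : E), 0 < b i → (rot (f.φ i) z 0 - hi i * rot (f.φ i) z 1) *
      (sin (f.e (i + 1)) * b i) = lin z (f.φ (i + 1)) * b i - b (i + 1) * lin z (f.φ i) := by
    intro i z h
    have := (f.sin_pos (i + 1)).ne'
    simp only [hi, lin_succ, rot_1]; field_simp; ring
  apply le_antisymm
  · let T : ℤ → Set E := fun i => rot (f.φ i) ⁻¹' {p : E | 0 < p 1 ∧ p 1 < b i ∧
      lo i * p 1 ≤ p 0 ∧ p 0 ≤ hi i * p 1}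
    have hsub : f.set b ⊆ {0} ∪ ⋃ i ∈ Finset.range f.n, T i := by
      intro z hz
      by_cases z0 : z = 0
      · exact Or.inl z0
      right
      obtain ⟨i0, hi0⟩ := f.exists_pos z0
      obtain ⟨m0, hm0, k0, rfl⟩ := f.exists_rep 0 i0
      rw [(f.pd_lin z).mul, zero_add] at hi0
      obtain ⟨j, hj, hmax⟩ := Finset.exists_max_image ((Finset.range f.n).filter
        fun k : ℕ => 0 < b k) (fun k : ℕ => lin z (f.φ k) / b k)
        ⟨m0, by simp [hm0, hi0.trans (hz m0)]⟩
      simp only [Finset.mem_filter, Finset.mem_range] at hj hmax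
      have t0 : 0 < lin z (f.φ j) := (div_pos_iff_of_pos_right hj.2).1
        ((div_pos hi0 (hi0.trans (hz m0))).trans_le (hmax m0 ⟨hm0, hi0.trans (hz m0)⟩))
      have hall : ∀ i, lin z (f.φ i) * b j ≤ b i * lin z (f.φ j) := fun i => by
        obtain ⟨m, hm, k, rfl⟩ := f.exists_rep 0 i
        rw [hb.mul, (f.pd_lin z).mul, zero_add]
        rcases (h0 m).eq_or_lt with e | e
        · have := hz m
          rw [← e] at this ⊢
          nlinarith [hj.2]
        · have := hmax m ⟨hm, e⟩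
          rw [div_le_div_iff₀ e hj.2] at this
          linarith
      simp only [mem_iUnion, Finset.mem_range]
      refine ⟨j, hj.1, t0, hz j, ?_, ?_⟩
      · have := c1 j z hj.2
        exact sub_nonpos.1 (nonpos_of_mul_nonpos_left (this.trans_le (by linarith [hall (j - 1)]))
          (mul_pos (f.sin_pos _) hj.2))
      · have := c2 j z hj.2
        exact sub_nonpos.1 (nonpos_of_mul_nonpos_left (this.trans_le (by linarith [hall (j + 1)]))
          (mul_pos (f.sin_pos _) hj.2))
    refine (measure_mono hsub).trans ((measure_union_le _ _).trans ?_)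
    rw [measure_singleton, zero_add, hsum]
    refine (measure_biUnion_finset_le _ _).trans (Finset.sum_le_sum fun i _ => ?_)
    rw [vol_rot _ (by measurability)]
    rcases (h0 i).eq_or_lt with e | e
    · refine le_trans (le_of_eq ?_) zero_le
      convert measure_empty (μ := (volume : Measure E))
      ext p
      simp only [mem_ofPred_eq, mem_empty_iff_false, iff_false]
      exact fun h => by linarith [h.1, h.2.1]
    · rw [vol_tri_c (hle i e) e.le, hv i e]
  · let T : ℤ → Set E := fun i => rot (f.φ i) ⁻¹' {p : E | 0 < p 1 ∧ p 1 < b i ∧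
      lo i * p 1 < p 0 ∧ p 0 < hi i * p 1}
    have key : ∀ j, ∀ z ∈ T j, ∀ m : ℕ, 0 < m → m < f.n →
        lin z (f.φ (j + m)) * b j < b (j + m) * lin z (f.φ j) := by
      rintro j z ⟨h1, h2, h3, h4⟩ m hm0 hm
      have t0 : 0 < lin z (f.φ j) := h1
      have bj : 0 < b j := h1.trans h2
      have hp : f.Pd fun i => lin z (f.φ j) * b i - b j * lin z (f.φ i) :=
        Pd.sub (b := fun i => lin z (f.φ j) * b i) (fun i => by simp only [hb i]) (f.pd_lin z) _
      have := far_pos hp (j := j) (fun i => by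
          rw [ln_sub, ln_lin, mul_zero, sub_zero]
          have : f.ln (fun i => lin z (f.φ j) * b i) i = lin z (f.φ j) * f.ln b i := by
            simp only [ln]; ring
          rw [this]; exact mul_nonneg t0.le (hl i)) (by ring)
        (by
          have := c2 j z bj
          nlinarith [mul_neg_of_neg_of_pos (sub_neg.2 h4) (mul_pos (f.sin_pos (j + 1)) bj)])
        (by
          have := c1 j z bj
          nlinarith [mul_neg_of_neg_of_pos (sub_neg.2 h3) (mul_pos (f.sin_pos j) bj)])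
        (fun i hi => by
          simp only [hi, lin_pi]
          nlinarith [mul_nonneg t0.le (h0 i), mul_pos bj t0]) hm0 hm
      linarith
    have key2 : ∀ i < f.n, ∀ k < f.n, i ≠ k → ∀ z ∈ T i,
        lin z (f.φ k) * b i < b k * lin z (f.φ i) := by
      intro i hi k hk hik z hz
      rcases lt_or_gt_of_ne hik with k1 | k1
      · have := key _ z hz (k - i) (by omega) (by omega)
        rwa [show (i : ℤ) + (k - i : ℕ) = k by omega] at this
      · have := key _ z hz (k + f.n - i) (by omega) (by omega)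
        rwa [show (i : ℤ) + (k + f.n - i : ℕ) = k + f.n by omega, hb,
          show lin z (f.φ (k + f.n)) = _ from f.pd_lin z k] at this
    have hm : ∀ i, MeasurableSet (T i) := fun i =>
      (rot (f.φ i)).continuous.measurable (by measurability)
    calc _ = ∑ i ∈ Finset.range f.n, volume (T i) := by
          rw [hsum]
          refine Finset.sum_congr rfl fun i _ => ?_
          rw [vol_rot _ (by measurability)]
          rcases (h0 i).eq_or_lt with e | e
          · rw [← e, zero_mul, zero_div, ENNReal.ofReal_zero]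
            symm
            convert measure_empty (μ := (volume : Measure E))
            ext p
            simp only [mem_ofPred_eq, mem_empty_iff_false, iff_false]
            exact fun h => by linarith [h.1, h.2.1]
          · rw [vol_tri_o (hle i e) e.le, hv i e]
      _ = volume (⋃ i ∈ Finset.range f.n, T i) := by
          refine (measure_biUnion_finset (fun i hi k hk hik => ?_) fun i _ => hm _).symm
          simp only [Finset.coe_range, mem_Iio] at hi hk
          refine disjoint_left.2 fun z h1 h2 => ?_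
          linarith [key2 i hi k hk hik z h1, key2 k hk i hi hik.symm z h2]
      _ ≤ _ := by
          refine measure_mono (iUnion₂_subset fun i hi z hz => (mem_set hb).2 fun k hk => ?_)
          have h1 : lin z (f.φ i) < b i := hz.2.1
          have h2 : 0 < lin z (f.φ i) := hz.1
          rcases eq_or_ne i k with rfl | hik
          · exact h1
          · have := key2 i (Finset.mem_range.1 hi) k hk hik z hz
            nlinarith [h0 k]

lemma set_sub (f : GF) (b : ℤ → ℝ) (w : E) :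
    f.set (fun i => b i - 1 * lin w (f.φ i)) = (· + w) ⁻¹' f.set b := by
  ext z
  simp only [set, mem_ofPred_eq, mem_preimage, lin_vadd, one_mul, lt_sub_iff_add_lt]

lemma B_nonneg (hb : f.Pd b) (hl : ∀ i, 0 ≤ f.ln b i) : 0 ≤ f.B b b := by
  rw [← B_lin hb (f.vx b 0)]
  exact Finset.sum_nonneg fun i _ => mul_nonneg (by linarith [vx_le hb hl 0 i])
    (by rw [ln_sub, ln_lin]; simpa using hl i)

theorem area (hb : f.Pd b) (hl : ∀ i, 0 ≤ f.ln b i) : volume.real (f.set b) = f.B b b / 2 := by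
  have := area0 (hb.sub (f.pd_lin (f.vx b 0)) 1) (fun i => by
    rw [ln_sub, ln_lin]; simpa using hl i) fun i => by linarith [vx_le hb hl 0 i]
  rw [set_sub, measure_preimage_add_right, B_lin hb] at this
  rw [Measure.real, this, ENNReal.toReal_ofReal (by linarith [B_nonneg hb hl])]

lemma three_le (f : GF) : 3 ≤ f.n := by
  by_contra h
  have h1 := f.per 0
  have h2 := f.npos
  have g0 := f.gap 0
  have g1 := f.gap (0 + 1)
  have : f.n = 1 ∨ f.n = 2 := by omega
  rcases this with k | k <;> rw [k] at h1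
  · rw [Nat.cast_one] at h1; linarith [pi_pos]
  · rw [show (0 : ℤ) + (2 : ℕ) = 0 + 1 + 1 by norm_num] at h1; linarith

lemma vx_succ (f : GF) (b : ℤ → ℝ) (j : ℤ) (α : ℝ) :
    lin (f.vx b j) α - lin (f.vx b (j - 1)) α = f.ln b j * sin (α - f.φ j) := by
  have h1 := f.lin_vx b j
  have h2 := f.lin_vx' b j
  have h3 := f.lin_vx b (j - 1)
  have h4 := f.lin_vx' b (j - 1)
  rw [sub_add_cancel] at h4
  rw [lin_succ, rot_1, h1] at h2
  rw [lin_pred, rot_1, h4] at h3
  have s1 := (f.sin_pos j).ne'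
  have s2 := (f.sin_pos (j + 1)).ne'
  have e : ∀ z, lin z α = cos (α - f.φ j) * lin z (f.φ j) + sin (α - f.φ j) * rot (f.φ j) z 0 :=
    fun z => by rw [← rot_1 (f.φ j), ← lin_add, add_sub_cancel]
  rw [e, e, h1, h4, ln, ← h2, ← h3]
  field_simp; ring

theorem dom (hb : f.Pd b) (hl : ∀ i, 0 < f.ln b i) : Dom (f.set b) := by
  refine ⟨isOpen_set hb, f.convex_set b, bdd_set hb,
    nonempty_of_measure_ne_zero (μ := volume) fun k => ?_⟩
  have h1 := area hb fun i => (hl i).le
  rw [Measure.real, k, ENNReal.toReal_zero, ← B_lin hb (f.vx b 0)] at h1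
  have h2 : 0 < f.B (fun i => b i - 1 * lin (f.vx b 0) (f.φ i))
      fun i => b i - 1 * lin (f.vx b 0) (f.φ i) := by
    refine Finset.sum_pos' (fun i _ => mul_nonneg (by linarith [vx_le hb (fun i => (hl i).le) 0 i])
      (by rw [ln_sub, ln_lin]; simpa using (hl i).le)) ⟨2, Finset.mem_range.2 f.three_le,
        mul_pos ?_ (by rw [ln_sub, ln_lin]; simpa using hl _)⟩
    have k1 := f.vx_succ b 1 (f.φ 2)
    have k2 := f.lin_vx' b 1
    have k3 := f.sin_pos (1 + 1)
    rw [e_succ] at k3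
    norm_num at k1 k2 k3 ⊢
    nlinarith [mul_pos (hl 1) k3]
  linarith

end GF

end Pool.Agent.Lib.MP_c1b9d3_an
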