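import Pool.Agent.Lib.MP_c1b9d3_an.BSep

namespace Pool.Agent.Lib.MP_c1b9d3_an

open MeasureTheory Real Filter Topology Set Pool.Agent.Lib.MP_2d4879_an

/-- Sum of the two coordinate widths. -/
def Wd (σ : S) : ℝ := σ.W1 + σ.W2

/-- Support function in terms of the angle. -/
noncomputable def ang (σ : S) (α : ℝ) : ℝ := σ.f (cos α) (sin α)

lemma Wd_nonneg (σ : S) : 0 ≤ Wd σ := add_nonneg σ.W1_nonneg σ.W2_nonneg

lemma f_le (σ : S) {a b c : ℝ} (ha : |a| ≤ c) (hb : |b| ≤ c) : σ.f a b ≤ c * Wd σ := by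
  linarith [σ.le_abs a b, mul_le_mul_of_nonneg_right ha σ.W1_nonneg,
    mul_le_mul_of_nonneg_right hb σ.W2_nonneg, show c * Wd σ = c * σ.W1 + c * σ.W2 from mul_add ..]

lemma ang_le (σ : S) (α : ℝ) : ang σ α ≤ Wd σ :=
  (f_le σ (abs_cos_le_one α) (abs_sin_le_one α)).trans_eq (one_mul _)

lemma ang_nonneg (σ : S) (α : ℝ) : 0 ≤ ang σ α := σ.nonneg _ _

lemma sa_ang (σ : S) : SA (ang σ) := fun _ _ _ _ _ ha hb h1 h2 => σ.le2 ha hb h1 h2

lemma Wd_tail : ∃ C, ∀ n r, 1 ≤ r →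
    (nu n).real {y | r ≤ Wd (sp y)} ≤ exp (-(r ^ 2 / 8) + C * r) := by
  obtain ⟨C, hC⟩ := zono_tail (M := 2) ![!₂[1, 0], !₂[0, 1]] le_rfl (η := 1 / 2) (by norm_num)
    (by norm_num) (fun i => by
      rw [← sq_le_one_iff₀ (norm_nonneg _), nsq]; fin_cases i <;> simp) fun e he => by
      rw [← sq_le_one_iff₀ (norm_nonneg _), nsq]
      have h0 := abs_le.1 (he 0)
      have h1 := abs_le.1 (he 1)
      simp only [Fin.sum_univ_two, Matrix.cons_val_zero, Matrix.cons_val_one, PiLp.add_apply,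
        PiLp.smul_apply, smul_eq_mul]
      nlinarith
  refine ⟨C, fun n r hr => ?_⟩
  convert hC n r hr using 3
  · simp [Wd, S.W1, S.W2, sp]
  · ring

lemma Wd_le {n : ℕ} (y : Fin n → E) {R : ℝ} (h : ∀ j, ‖cns 0 y j‖ ≤ R) : Wd (sp y) ≤ 4 * R := by
  have k : ∀ a b : ℝ, |a| + |b| = 1 → spf y a b ≤ R := fun a b e => by
    obtain ⟨j, hj⟩ := spf_eq y a b
    have h0 := mul_le_mul_of_nonneg_left ((PiLp.norm_apply_le (cns 0 y j) 0).trans (h j))
      (abs_nonneg a)
    have h1 := mul_le_mul_of_nonneg_left ((PiLp.norm_apply_le (cns 0 y j) 1).trans (h j))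
      (abs_nonneg b)
    rw [Real.norm_eq_abs, ← abs_mul] at h0 h1
    have : |a| * R + |b| * R = R := by rw [← add_mul, e, one_mul]
    linarith [le_abs_self (a * cns 0 y j 0), le_abs_self (b * cns 0 y j 1)]
  linarith [k 1 0 (by simp), k (-1) 0 (by simp), k 0 1 (by simp), k 0 (-1) (by simp),
    show Wd (sp y) = spf y 1 0 + spf y (-1) 0 + (spf y 0 1 + spf y 0 (-1)) from rfl]

/-- Third difference. -/
noncomputable def D3 (a : ℝ → ℝ) (s : ℝ) : ℝ := a s - 3 * a (2 / 3 * s) + 3 * a (1 / 3 * s) - a 0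

variable {D D' : Set E}

theorem d3_cmp (hD : Dom D) (hD' : Dom D') (he : Iso D D') {r : ℝ} (r0 : 0 < r)
    (h' : ∀ s, 0 < s → ∀ n (y : Fin n → E), s * Wd (sp y) < r →
      D3 (fun t => er D' t y) s ≤ D3 (fun t => er D t y) s) {k1 k2 : E} (hP : per k1 k2 < r / 2) :
    D3 (fun t => er D t ![k1, k2]) 1 ≤ D3 (fun t => er D' t ![k1, k2]) 1 := by
  by_contra hg
  rw [not_le, ← sub_pos] at hg
  obtain ⟨g, hg'⟩ : ∃ g, g = D3 (fun t => er D t ![k1, k2]) 1 -
    D3 (fun t => er D' t ![k1, k2]) 1 := ⟨_, rfl⟩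
  rw [← hg'] at hg
  have hA := area_eq hD hD' he
  set A := volume.real D
  have A0 : 0 < A := vol_pos hD
  have p0 : 0 ≤ per k1 k2 := by unfold per; positivity
  set P := per k1 k2
  obtain ⟨C, hC⟩ := Wd_tail
  obtain ⟨C1, c1, hC1⟩ := er_near hD
  obtain ⟨C2, c2, hC2⟩ := er_near hD'
  obtain ⟨δ, hδ⟩ : ∃ δ, δ = g / (14 * (C1 + C2 + 1)) := ⟨_, rfl⟩
  have δ0 : 0 < δ := by rw [hδ]; positivity
  obtain ⟨s, ⟨h1, h2⟩, hs⟩ := (((exp_win (C := C * r) (K := 7 * A)
    (show P ^ 2 / 4 < r ^ 2 / 8 by nlinarith) (show 0 < g / 4 by positivity)).and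
      (Ioo_mem_nhdsGT (lt_min r0 (show 0 < δ / 8 by positivity)))).and self_mem_nhdsWithin).exists
  replace hs : 0 < s := hs
  have near : ∀ {X : Set E} {C : ℝ} {n : ℕ} {y : Fin n → E},
      (∀ τ, 0 ≤ τ → τ ≤ 1 → |er X (τ * s) y - er X τ ![k1, k2]| ≤ δ * C) →
      |D3 (fun t => er X t y) s - D3 (fun t => er X t ![k1, k2]) 1| ≤ 7 * (δ * C) := by
    intro X C n y h
    have k1 := abs_le.1 (h 1 zero_le_one le_rfl)
    have k2 := abs_le.1 (h (1 / 3) (by norm_num) (by norm_num))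
    have k3 := abs_le.1 (h (2 / 3) (by norm_num) (by norm_num))
    simp only [D3, er_zero, abs_le, mul_one, one_mul] at k1 ⊢
    constructor <;> linarith [k1.1, k1.2, k2.1, k2.2, k3.1, k3.2]
  have t1 := ((er_lim hD hD' he hs).sub ((er_lim hD hD' he (s := 2 / 3 * s)
    (by positivity)).const_mul 3)).add ((er_lim hD hD' he (s := 1 / 3 * s)
      (by positivity)).const_mul 3)
  have t2 : Tendsto (fun j : ℕ => P / (((4 * j + 3 : ℕ) : ℝ) + 1)) atTop (𝓝 0) :=
    tendsto_const_nhds.div_atTop (tendsto_atTop_add_const_right _ _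
      (tendsto_natCast_atTop_atTop.comp (tendsto_atTop_mono (f := id)
        (fun j => by simp only [id]; omega) tendsto_id)))
  simp only [mul_zero, sub_zero, add_zero] at t1
  refine absurd (ge_of_tendsto t1 ?_) (not_le.2 (sub_pos.2 h1))
  filter_upwards [t2.eventually (gt_mem_nhds (half_pos δ0))] with i hi
  set n := 4 * i + 3
  obtain ⟨G, g1, g2, g3⟩ := tube k1 k2 hs n
  have b1 : MeasurableSet {y : Fin n → E | r / s ≤ Wd (sp y)} :=
    measurableSet_le measurable_const ((Good.W1.add Good.W2).1 n)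
  have b2 := hC n (r / s) ((one_le_div hs).2 (h2.2.le.trans (min_le_left _ _)))
  have i0 : ∀ t, Integrable (fun y => er D t y - er D' t y) (nu n) := fun t =>
    (er_int hD t n).sub (er_int hD' t n)
  have k := integral_mono (((integrable_const (g / 2)).indicator g1).sub
    ((integrable_const (7 * A)).indicator b1)) (((i0 s).sub ((i0 (2 / 3 * s)).const_mul 3)).add
      ((i0 (1 / 3 * s)).const_mul 3)) fun y => by
    have e : er D s y - er D' s y - 3 * (er D (2 / 3 * s) y - er D' (2 / 3 * s) y) +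
        3 * (er D (1 / 3 * s) y - er D' (1 / 3 * s) y) =
        D3 (fun t => er D t y) s - D3 (fun t => er D' t y) s := by
      simp only [D3, er_zero, ← hA]; ring
    simp only [Pi.sub_apply, Pi.add_apply]
    by_cases hG : y ∈ G
    · have hN : Near δ s y ![k1, k2] := by
        have k : 4 * s + P / (n + 1) ≤ δ := by linarith [h2.2.trans_le (min_le_right _ _)]
        exact ⟨fun j => ((g3 y hG).1 j).imp fun w h => ⟨h.1, h.2.trans k⟩,
          fun j => ((g3 y hG).2 j).imp fun w h => h.trans k⟩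
      have k1 := (abs_le.1 (near fun τ => hC1 y _ s δ τ δ0 hN)).1
      have k2 := (abs_le.1 (near fun τ => hC2 y _ s δ τ δ0 hN)).2
      have k3 : 7 * (δ * (C1 + C2 + 1)) = g / 2 := by rw [hδ]; field_simp; ring
      have k4 : 0 ≤ {y : Fin n → E | r / s ≤ Wd (sp y)}.indicator (fun _ => 7 * A) y :=
        indicator_nonneg (fun _ _ => by positivity) _
      rw [indicator_of_mem hG, e]
      linarith
    rw [indicator_of_notMem hG]
    by_cases hb : y ∈ {y : Fin n → E | r / s ≤ Wd (sp y)}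
    · rw [indicator_of_mem hb]
      have k : ∀ t, 0 ≤ er D t y := fun _ => measureReal_nonneg
      have k' : ∀ t, 0 ≤ er D' t y := fun _ => measureReal_nonneg
      linarith [k s, k (1 / 3 * s), k' (2 / 3 * s), er_le hD' s y, er_le hD' (1 / 3 * s) y,
        er_le hD (2 / 3 * s) y]
    · rw [indicator_of_notMem hb, e]
      linarith [h' s hs n y ((lt_div_iff₀' hs).1 (not_le.1 hb))]
  rw [integral_sub' ((integrable_const _).indicator g1) ((integrable_const _).indicator b1),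
    integral_indicator_const _ g1, integral_indicator_const _ b1,
    integral_add' ((i0 _).sub ((i0 _).const_mul _)) ((i0 _).const_mul _),
    integral_sub' (i0 _) ((i0 _).const_mul _), integral_const_mul, integral_const_mul,
    integral_sub (er_int hD _ n) (er_int hD' _ n), integral_sub (er_int hD _ n) (er_int hD' _ n),
    integral_sub (er_int hD _ n) (er_int hD' _ n), smul_eq_mul, smul_eq_mul] at k
  refine le_trans ?_ k
  rw [show -(P / s) ^ 2 / 4 = -(P ^ 2 / 4 * s⁻¹ ^ 2) by ring] at g2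
  rw [show -((r / s) ^ 2 / 8) + C * (r / s) = -(r ^ 2 / 8 * s⁻¹ ^ 2) + C * r * s⁻¹ by ring] at b2
  linarith [mul_le_mul_of_nonneg_left b2 (mul_pos (show (0 : ℝ) < 7 by norm_num) A0).le,
    mul_le_mul_of_nonneg_left g2 hg.le]

namespace GF

variable {f : GF} {b : ℤ → ℝ}

lemma Pd.low (hb : f.Pd b) (h : ∀ i, 0 < b i) : ∃ μ, 0 < μ ∧ ∀ i, μ ≤ b i := by
  obtain ⟨C, C0, hC⟩ := Pd.bdd (f := f) (b := fun i => (b i)⁻¹) fun i => by simp only [hb i]
  exact ⟨(C + 1)⁻¹, by positivity, fun i => inv_le_of_inv_le₀ (h i)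
    (by linarith [le_abs_self (b i)⁻¹, hC i])⟩

lemma ln_bd (f : GF) : ∃ M, 0 < M ∧ ∀ (X : ℤ → ℝ) (W : ℝ), (∀ i, |X i| ≤ W) →
    ∀ i, |f.ln X i| ≤ M * W := by
  obtain ⟨μ, μ0, hμ⟩ := Pd.low (f := f) (b := fun i => sin (f.e i))
    (fun i => by simp only [f.e_per]) f.sin_pos
  refine ⟨4 / μ, by positivity, fun X W h i => ?_⟩
  have k : ∀ j k : ℤ, |(X j - cos (f.e k) * X i) / sin (f.e k)| ≤ 2 / μ * W := fun j k => by
    have W0 := (abs_nonneg _).trans (h i)
    rw [abs_div, abs_of_pos (f.sin_pos k), div_mul_eq_mul_div]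
    refine div_le_div₀ (by positivity) ((abs_sub _ _).trans ?_) μ0 (hμ k)
    rw [abs_mul]
    linarith [h j, mul_le_mul (abs_cos_le_one (f.e k)) (h i) (abs_nonneg _) zero_le_one]
  refine (abs_add_le _ _).trans ((add_le_add (k _ _) (k _ _)).trans_eq (by ring))

lemma small (hb : f.Pd b) (hl : ∀ i, 0 < f.ln b i) : ∃ h, 0 < h ∧ ∀ (σ : S) s, 0 ≤ s →
    s * Wd σ ≤ h → volume.real (f.set fun i => b i - s * ang σ (f.φ i)) =
      f.B b b / 2 - s * f.B (fun i => ang σ (f.φ i)) b +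
        s ^ 2 * f.B (fun i => ang σ (f.φ i)) (fun i => ang σ (f.φ i)) / 2 := by
  obtain ⟨μ, μ0, hμ⟩ := hb.ln.low hl
  obtain ⟨M, M0, hM⟩ := f.ln_bd
  refine ⟨μ / M, by positivity, fun σ s hs h => ?_⟩
  have pd := f.pd_of_per (sa_ang σ).per
  rw [area (hb.sub pd s) fun i => ?_, B_expand hb pd]
  · ring
  have := mul_le_mul_of_nonneg_left ((le_abs_self _).trans (hM (fun i => ang σ (f.φ i)) (Wd σ)
    (fun i => by rw [abs_of_nonneg (ang_nonneg _ _)]; exact ang_le _ _) i)) hs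
  rw [le_div_iff₀ M0] at h
  rw [ln_sub]
  linarith [hμ i]

end GF

lemma er_cov (hD : Dom D) (τ : ℝ) (k : E) : er D τ ![k, k] = cov (closure D) (τ • k) := by
  have h0 := hD.conv.addHaar_frontier (volume : Measure E)
  have h1 : ∀ᵐ z : E, z ∉ frontier D := measure_eq_zero_iff_ae_notMem.1 h0
  have h2 : ∀ᵐ z : E, z + τ • k ∉ frontier D := measure_eq_zero_iff_ae_notMem.1
    ((measure_preimage_add_right volume (τ • k) (frontier D)).trans h0)
  refine measureReal_congr ?_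
  filter_upwards [h1, h2] with z k1 k2
  have e : ∀ x ∉ frontier D, x ∈ closure D ↔ x ∈ D := fun x hx =>
    ⟨fun h => by_contra fun h' => hx ⟨h, fun k => h' (interior_subset k)⟩, fun h => subset_closure h⟩
  refine propext ?_
  change (∀ j, z + τ • cns 0 ![k, k] j ∈ D) ↔ _ ∧ _
  rw [e _ k1, e _ k2]
  simp [Fin.forall_fin_succ]

theorem mate_poly {f : GF} {b : ℤ → ℝ} (hb : f.Pd b) (hl : ∀ i, 0 < f.ln b i) (hD : Dom D)
    (he : Iso D (f.set b)) : ∃ (g : GF) (c : ℤ → ℝ), g.Pd c ∧ (∀ i, 0 < g.ln c i) ∧ D = g.set c := by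
  obtain ⟨h, h0, hh⟩ := GF.small hb hl
  obtain ⟨ρ, ρ0, hρ⟩ := hD.bdd.exists_pos_norm_le
  obtain ⟨x, hx⟩ := hD.ne
  obtain ⟨ε, ε0, hε⟩ := Metric.isOpen_iff.1 hD.isOpen x hx
  have A0 := vol_pos hD
  have q : ∀ s, 0 < s → ∀ n (y : Fin n → E), s * Wd (sp y) ≤ h →
      D3 (fun t => er (f.set b) t y) s = 0 := fun s hs n y k => by
    have k' : ∀ τ, 0 ≤ τ → τ ≤ 1 → er (f.set b) (τ * s) y = _ := fun τ t0 t1 =>
      (f.er_set b y (mul_nonneg t0 hs.le)).trans (hh (sp y) _ (mul_nonneg t0 hs.le) (by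
        nlinarith [mul_nonneg hs.le (Wd_nonneg (sp y))]))
    have k0 := k' 0 le_rfl zero_le_one
    have k1 := k' 1 zero_le_one le_rfl
    rw [zero_mul] at k0
    rw [one_mul] at k1
    simp only [D3, k0, k1, k' (1 / 3) (by norm_num) (by norm_num),
      k' (2 / 3) (by norm_num) (by norm_num)]
    ring
  obtain ⟨r, hr⟩ : ∃ r, r = min h (volume.real D / (8 * ρ)) := ⟨_, rfl⟩
  have r0 : 0 < r := by rw [hr]; positivity
  have r1 : r ≤ h := hr ▸ min_le_left _ _
  have r2 : r * (8 * ρ) ≤ volume.real D := (le_div_iff₀ (by positivity)).1 (hr ▸ min_le_right _ _)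
  refine poly_of_fin hD (fin_of_sep hD.bdd.isCompact_closure extremePoints_subset
    (d := min (r / 12) (ε / 3)) (by positivity) fun p hp q' hq hd => by_contra fun hpq => ?_)
  obtain ⟨d1, d2⟩ := lt_min_iff.1 hd
  have n3 : ‖(3 : ℝ) • (q' - p)‖ = 3 * ‖q' - p‖ := by rw [norm_smul]; simp
  have k1 := sep hD.bdd.isCompact_closure hD.conv.closure hp hq hpq ⟨x, subset_closure hx,
    subset_closure (hε (by rw [mem_ball_iff_norm, add_sub_cancel_left, n3]; linarith))⟩
  have k2 := d3_cmp hD (GF.dom hb hl) he r0 (k1 := (3 : ℝ) • (q' - p)) (k2 := (3 : ℝ) • (q' - p))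
    (fun s hs n y k => by
      rw [q s hs n y (k.le.trans r1)]
      have h1 := (er_lip y hD (c := 0) (by simpa using hρ) 0 le_rfl hs.le).2
      have h2 : Pm 0 (sa y) ≤ 8 * Wd (sp y) := by
        refine (mul_le_of_le_one_left (Finset.sum_nonneg fun _ _ => sa_nonneg y _) (cf_le 0)).trans ?_
        exact (Finset.sum_le_card_nsmul (Finset.range (8 * 2 ^ 0)) _ _
          fun i _ => ang_le (sp y) (i * fθ 0)).trans_eq (by simp)
      rw [er_zero, sub_zero] at h1
      have h3 := er_lam y hD (r := 1 / 3 * s) (s := s) (by positivity) (by linarith) (by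
        nlinarith [mul_le_mul_of_nonneg_left h2 (mul_pos hs ρ0).le,
          mul_lt_mul_of_pos_right k (mul_pos (show (0 : ℝ) < 8 by norm_num) ρ0)])
      rw [lam_eq _ (by norm_num) hs.ne', show 2 * (1 / 3 * s) = 2 / 3 * s by ring] at h3
      unfold D3
      norm_num at h3 ⊢
      linarith)
    (by rw [per, sub_self, norm_zero, n3]; linarith)
  rw [q 1 one_pos _ _ (by
    linarith [Wd_le ![(3 : ℝ) • (q' - p), (3 : ℝ) • (q' - p)] (R := 3 * ‖q' - p‖)
      (by simp [Fin.forall_fin_succ, n3])])] at k2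
  simp only [D3, er_cov hD, smul_smul] at k2
  norm_num at k2
  linarith

end Pool.Agent.Lib.MP_c1b9d3_an
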