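import Pool.Agent.Lib.MP_c1b9d3_an.Alg

namespace Pool.Agent.Lib.MP_c1b9d3_an

open MeasureTheory Real Filter Topology Set Pool.Agent.Lib.MP_2d4879_an

/-- A general fan: periodic increasing sequence of normal angles with gaps below `π`. -/
structure GF where
  n : ℕ
  φ : ℤ → ℝ
  npos : 0 < n
  per : ∀ i, φ (i + n) = φ i + 2 * π
  lt : ∀ i, φ i < φ (i + 1)
  gap : ∀ i, φ (i + 1) < φ i + π

namespace GF

/-- Periodic data on the fan. -/
def Pd (f : GF) (b : ℤ → ℝ) : Prop := ∀ i, b (i + f.n) = b i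

/-- Exterior angle between the sides `i - 1` and `i`. -/
def e (f : GF) (i : ℤ) : ℝ := f.φ i - f.φ (i - 1)

/-- Formal length of side `i` for the support numbers `b`. -/
noncomputable def ln (f : GF) (b : ℤ → ℝ) (i : ℤ) : ℝ :=
  (b (i - 1) - cos (f.e i) * b i) / sin (f.e i) +
    (b (i + 1) - cos (f.e (i + 1)) * b i) / sin (f.e (i + 1))

/-- Twice the mixed area. -/
noncomputable def B (f : GF) (b c : ℤ → ℝ) : ℝ := ∑ i ∈ Finset.range f.n, b i * f.ln c i

/-- The open polygon. -/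
def set (f : GF) (b : ℤ → ℝ) : Set E := {z | ∀ i, lin z (f.φ i) < b i}

/-- Support numbers of the hull of a discrete loop. -/
noncomputable def hy (f : GF) {n : ℕ} (y : Fin n → E) (i : ℤ) : ℝ := sa y (f.φ i)

end GF

/-- Area of the triangle with base one and base angles `a`, `b`. -/
noncomputable def cc (a b : ℝ) : ℝ := sin a * sin b / (2 * sin (a + b))

/-- Isospectral sets. -/
def Iso (D D' : Set E) : Prop := ∀ k, 0 < k → sInf (adm D k) = sInf (adm D' k)

/-- A fine polygon: all exterior angles at most `1/4`, all sides of positive length. -/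
structure Fine (f : GF) (b : ℤ → ℝ) : Prop where
  pd : f.Pd b
  ang : ∀ i, f.e i ≤ 1 / 4
  pos : ∀ i, 0 < f.ln b i

/-- The analytic half: side lengths and angle germs of a nearly equilateral fine polygon are
audible among fine polygons. -/
def Match : Prop := ∃ R : ℝ → ℝ → ℝ → ℝ → Prop,
  (∀ p q a b a' b', R p q a b → R p q a' b' → 0 < a → 0 < b → a' ≤ 1 / 4 → b' ≤ 1 / 4 →
    a ≤ a' → b ≤ b' → a = a' ∧ b = b') ∧
  ∀ (f g : GF) (b c : ℤ → ℝ), Fine f b → Fine g c → Iso (f.set b) (g.set c) →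
    (∀ i j, f.ln b i ≤ 11 / 10 * f.ln b j) →
    (∀ i j : ℕ, i < f.n → j < f.n → f.ln b i = f.ln b j → i = j) →
    ∑ i ∈ Finset.range f.n, f.ln b i = ∑ j ∈ Finset.range g.n, g.ln c j →
    ∀ i : ℕ, i < f.n → ∃ j : ℕ, j < g.n ∧ g.ln c j = f.ln b i ∧
      R (f.e i) (f.e (i + 1)) (g.e j) (g.e (j + 1))

end Pool.Agent.Lib.MP_c1b9d3_an
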