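import Pool.Agent.Lib.MP_c1b9d3_an.BAng

namespace Pool.Agent.Lib.MP_c1b9d3_an

open MeasureTheory Real Filter Topology Set Pool.Agent.Lib.MP_2d4879_an

lemma two_level {r : ℤ → ℕ} {m : ℕ} (hr : ∀ i, 0 < r i) (hp : ∀ i, r (i + m) = r i) :
    ∃ (I : ℤ → ℤ) (k : ℤ → ℕ), (∀ j, k j < r (I j)) ∧
      (∀ j, I (j + 1) = I j ∧ k (j + 1) = k j + 1 ∨
        I (j + 1) = I j + 1 ∧ k (j + 1) = 0 ∧ k j + 1 = r (I j)) ∧
      ∀ j, I (j + (∑ i ∈ Finset.range m, r i : ℕ)) = I j + m ∧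
        k (j + (∑ i ∈ Finset.range m, r i : ℕ)) = k j := by
  obtain ⟨R, h0, hR⟩ : ∃ R : ℤ → ℤ, R 0 = 0 ∧ ∀ i, R (i + 1) = R i + r i := by
    refine ⟨fun i => ∑ k ∈ Finset.range i.toNat, (r k : ℤ) -
      ∑ k ∈ Finset.range (-i).toNat, (r (-k - 1) : ℤ), by simp, fun i => ?_⟩
    beta_reduce
    rcases le_or_gt 0 i with h | h
    · rw [show (i + 1).toNat = i.toNat + 1 by omega, show (-(i + 1)).toNat = 0 by omega,
        show (-i).toNat = 0 by omega, Finset.sum_range_succ, Int.toNat_of_nonneg h]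
      ring
    · rw [show (-i).toNat = (-(i + 1)).toNat + 1 by omega, show (i + 1).toNat = 0 by omega,
        show i.toNat = 0 by omega, Finset.sum_range_succ,
        show -((-(i + 1)).toNat : ℤ) - 1 = i by omega]
      ring
  set n := ∑ i ∈ Finset.range m, r i with hn
  have hm : StrictMono R := strictMono_int_of_lt_succ fun i => by have := hr i; rw [hR]; omega
  have h1 : ∀ j : ℕ, R j = (∑ i ∈ Finset.range j, r i : ℕ) := fun j => by
    induction j with
    | zero => simpa using h0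
    | succ j ih => rw [Finset.sum_range_succ]; push_cast at ih ⊢; rw [hR, ih]
  have h2 : ∀ i, R (i + m) = R i + n := fun i => by
    induction i using Int.induction_on with
    | zero => rw [zero_add, h0, zero_add, h1]
    | succ i ih => rw [add_right_comm, hR, hR, ih, hp]; ring
    | pred i ih =>
      have k1 := hR (-i - 1 + m)
      have k2 := hR (-i - 1)
      rw [show -(i : ℤ) - 1 + m + 1 = -i + m by ring, hp, ih] at k1
      rw [sub_add_cancel] at k2
      omega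
  have h3 : ∀ j, ∃ i, R i ≤ j ∧ j < R (i + 1) := fun j => by
    induction j using Int.induction_on with
    | zero => exact ⟨0, h0.le, h0.ge.trans_lt (hm (by norm_num))⟩
    | succ j ih =>
      obtain ⟨i, k1, k2⟩ := ih
      by_cases k : j + 1 < R (i + 1)
      · exact ⟨i, by omega, k⟩
      · have := hm (lt_add_one (i + 1))
        exact ⟨i + 1, by omega, by omega⟩
    | pred j ih =>
      obtain ⟨i, k1, k2⟩ := ih
      by_cases k : R i ≤ -j - 1
      · exact ⟨i, k, by omega⟩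
      · have := hm (sub_one_lt i)
        exact ⟨i - 1, by omega, by rw [sub_add_cancel]; omega⟩
  choose I a1 a2 using h3
  have u : ∀ j i, R i ≤ j → j < R (i + 1) → I j = i := fun j i k1 k2 => by
    have := hm.lt_iff_lt.1 (k1.trans_lt (a2 j))
    have := hm.lt_iff_lt.1 ((a1 j).trans_lt k2)
    omega
  refine ⟨I, fun j => (j - R (I j)).toNat, fun j => ?_, fun j => ?_, fun j => ?_⟩
  · have := a1 j; have := a2 j; rw [hR] at this; beta_reduce; omega
  · have k1 := a1 j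
    have k2 := a2 j
    by_cases k : j + 1 < R (I j + 1)
    · have := u (j + 1) (I j) (by omega) k
      exact Or.inl ⟨this, by simp only [this]; omega⟩
    · have k3 := hm (lt_add_one (I j + 1))
      have := u (j + 1) (I j + 1) (by omega) (by omega)
      have k4 := hR (I j)
      exact Or.inr ⟨this, by simp only [this]; omega, by beta_reduce; omega⟩
  · have := u (j + n) (I j + m) (by rw [h2]; linarith [a1 j])
      (by rw [add_right_comm, h2]; linarith [a2 j])
    exact ⟨this, by simp only [this, h2]; congr 1; ring⟩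

lemma lin_unit (α β : ℝ) : lin !₂[cos β, sin β] α = cos (α - β) := by simp [lin, cos_sub]

lemma hs_lip {X : Set E} (hn : X.Nonempty) {R : ℝ} (hR : ∀ z ∈ X, ‖z‖ ≤ R) (α β : ℝ) :
    hs X α ≤ hs X β + R * |α - β| := hs_le hn fun z hz => by
  linarith [lin_lip z α β, le_hs (isBounded_iff_forall_norm_le.2 ⟨R, hR⟩) hz β,
    mul_le_mul_of_nonneg_right (hR z hz) (abs_nonneg (α - β))]

lemma sin_low {x : ℝ} (h0 : 0 < x) (h1 : x ≤ 1 / 8) : 99 / 100 * x ≤ sin x := by
  nlinarith [sin_gt_sub_cube h0, mul_pos h0 h0]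

namespace GF

variable {f : GF} {b : ℤ → ℝ}

lemma of_vertices {V : ℤ → E} {l : ℤ → ℝ}
    (h : ∀ j α, lin (V (j + 1)) α - lin (V j) α = l j * sin (α - f.φ j)) (j : ℤ) :
    f.ln (fun j => lin (V j) (f.φ j)) j = l j := by
  have k0 := f.ln_lin (V j) j
  have k1 := h (j - 1) (f.φ (j - 1))
  have k2 := h j (f.φ (j + 1))
  rw [sub_add_cancel, sub_self, sin_zero, mul_zero, sub_eq_zero] at k1
  rw [← e_succ, sub_eq_iff_eq_add] at k2
  have := (f.sin_pos (j + 1)).ne'
  simp only [ln, ← k1, k2] at k0 ⊢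
  rw [add_sub_assoc, add_div, mul_div_cancel_right₀ _ this]
  linarith

lemma vx_per (hb : f.Pd b) (j : ℤ) : f.vx b (j + f.n) = f.vx b j := by
  simp only [vx, show j + f.n + 1 = j + 1 + f.n by ring, f.per, hb j, hb (j + 1), f.e_per,
    sin_add_two_pi, cos_add_two_pi]

lemma norm_le (he : ∀ i, f.e i ≤ 1 / 4) {z : E} {C : ℝ} (h : ∀ i, lin z (f.φ i) ≤ C) :
    ‖z‖ ≤ 2 * C := by
  obtain ⟨α, hα⟩ := lin_eq z
  obtain ⟨i, h1, h2⟩ := f.exists_between α
  have k := h i
  rw [hα, ← cos_neg, neg_sub] at k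
  rw [φ_succ] at h2
  nlinarith [cos_quarter (sub_nonneg.2 h1) (by linarith [he (i + 1)]), norm_nonneg z]

lemma hs_set (hb : f.Pd b) (hl : ∀ i, 0 < f.ln b i) (j : ℤ) : hs (f.set b) (f.φ j) = b j := by
  have hD := dom hb hl
  refine le_antisymm (hs_le hD.ne fun z hz => (hz j).le) ?_
  obtain ⟨z, hz⟩ := hD.ne
  rw [← f.lin_vx b j]
  refine le_closure (fun z hz => le_hs hD.bdd hz _) _ (mem_closure_of_tendsto
    (f := fun t : ℝ => f.vx b j + t • (z - f.vx b j)) (b := 𝓝[>] 0)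
    (tendsto_nhdsWithin_of_tendsto_nhds (Continuous.tendsto' (by fun_prop) _ _ (by simp))) ?_)
  filter_upwards [Ioo_mem_nhdsGT one_pos] with t ht i
  rw [lin_vadd, lin_smul, lin_vsub]
  nlinarith [mul_pos ht.1 (sub_pos.2 (hz i)), mul_nonneg (sub_pos.2 ht.2).le
    (sub_nonneg.2 (vx_le hb (fun i => (hl i).le) j i))]

theorem refine (g : GF) {θ R : ℝ} (hg : ∀ i, g.φ i = i * θ) (hθ : θ ≤ 1 / 4) (hm : Odd g.n)
    {F : ℝ → ℝ} (hF : SA F) (hR : ∀ α, F α ≤ R) (hL : ∀ α β, F α ≤ F β + R * |α - β|)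
    (hl : ∀ i, 0 < g.ln (fun i => F (g.φ i)) i) : ∃ (f : GF) (b : ℤ → ℝ) (l : ℝ), 0 < l ∧ Odd f.n ∧
      (∀ i, f.e i ≤ θ) ∧ f.Pd b ∧ (∀ i, 97 / 100 * l ≤ f.ln b i ∧ f.ln b i ≤ 103 / 100 * l) ∧
        ∀ i, |b i - F (f.φ i)| ≤ 3 * R * θ := by
  have ge : ∀ i, g.e i = θ := fun i => by simp only [e, hg]; push_cast; ring
  have θ0 : 0 < θ := ge 0 ▸ g.e_pos 0
  have mθ : g.n * θ = 2 * π := by simpa [hg] using g.per 0
  have hp := pi_gt_three
  have pd := g.pd_of_per hF.per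
  set L := g.ln fun i => F (g.φ i)
  have L2 : ∀ i, L i ≤ 2 * R := fun i => by
    linarith [g.ln_sa_le hF i (by rw [ge]; linarith) (by rw [ge]; linarith), hR (g.φ i + π / 2),
      hR (g.φ i - π / 2)]
  have R0 : 0 < R := by linarith [L2 0, hl 0]
  obtain ⟨μ, μ0, hμ⟩ := pd.ln.low hl
  obtain ⟨l, hl'⟩ : ∃ l, μ = 100 * l := ⟨μ / 100, by ring⟩
  have l0 : 0 < l := by linarith
  let r : ℤ → ℕ := fun i => 2 * ⌊L i / (2 * l)⌋₊ + 1
  have r1 : ∀ i, L i - l ≤ r i * l ∧ r i * l ≤ L i + l := fun i => by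
    have k1 := (le_div_iff₀ (by positivity)).1 (Nat.floor_le (div_pos (hl i) (mul_pos two_pos l0)).le)
    have k2 := (div_lt_iff₀ (by positivity)).1 (Nat.lt_floor_add_one (L i / (2 * l)))
    simp only [r]; push_cast
    constructor <;> linarith
  have r0 : ∀ i, (0 : ℝ) < r i := fun i => by simp only [r]; positivity
  obtain ⟨I, k, a1, a2, a3⟩ := two_level (r := r) (m := g.n) (fun i => Nat.succ_pos _)
    fun i => by simp only [r, show L (i + g.n) = L i from pd.ln i]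
  have rp : ∀ i, r (i + g.n) = r i := fun i => by simp only [r, show L (i + g.n) = L i from pd.ln i]
  set n := ∑ i ∈ Finset.range g.n, r i with hn
  have on : Odd n := by
    simp only [hn, r, Finset.sum_add_distrib, ← Finset.mul_sum, Finset.sum_const, Finset.card_range,
      smul_eq_mul, mul_one]
    exact (even_two_mul _).add_odd hm
  let ψ : ℤ → ℝ := fun j => (I j - 1 / 2 + k j / r (I j)) * θ
  let d : ℤ → ℝ := fun j => θ / r (I j) / 2
  have d0 : ∀ j, 0 < d j ∧ d j ≤ θ / 2 := fun j => ⟨by have := r0 (I j); positivity, by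
    simp only [d]; gcongr; exact div_le_self θ0.le (by exact_mod_cast Nat.succ_pos _)⟩
  have ψ1 : ∀ j, ψ (j + 1) = ψ j + 2 * d j := fun j => by
    have := (r0 (I j)).ne'
    rcases a2 j with ⟨h1, h2⟩ | ⟨h1, h2, h3⟩ <;> simp only [ψ, d, h1, h2]
    · push_cast; ring
    · rw [← h3] at this ⊢; push_cast at this ⊢; field_simp; ring
  have ψ2 : ∀ j, (I j - 1 / 2) * θ ≤ ψ j ∧ ψ j + 2 * d j ≤ (I j + 1 / 2) * θ := fun j => by
    have h1 : (k j : ℝ) + 1 ≤ r (I j) := by exact_mod_cast a1 j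
    have h2 := (div_le_one (r0 (I j))).2 h1
    have h3 : (0 : ℝ) ≤ k j / r (I j) := by positivity
    have h4 : ψ j + 2 * d j = (I j - 1 / 2 + (k j + 1) / r (I j)) * θ := by simp only [ψ, d]; ring
    rw [h4]
    exact ⟨mul_le_mul_of_nonneg_right (by linarith) θ0.le,
      mul_le_mul_of_nonneg_right (by linarith) θ0.le⟩
  have ψ3 : ∀ j, ψ (j + n) = ψ j + 2 * π := fun j => by
    simp only [ψ, (a3 j).1, (a3 j).2, rp, ← mθ]; push_cast; ring
  have d1 : ∀ j, d (j + n) = d j := fun j => by simp only [d, (a3 j).1, rp]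
  let f : GF := ⟨n, fun j => ψ j + d j, on.pos, fun j => by rw [ψ3, d1]; ring,
    fun j => by rw [ψ1]; linarith [(d0 j).1, (d0 (j + 1)).1],
    fun j => by rw [ψ1]; linarith [(d0 j).2, (d0 (j + 1)).2]⟩
  have s0 := sin_low (half_pos θ0) (by linarith)
  have s1 : 0 < sin (θ / 2) := by linarith
  let ρ : ℤ → ℝ := fun i => L i / (2 * sin (θ / 2))
  let V : ℤ → E := fun j => g.vx (fun i => F (g.φ i)) (I j - 1) + ρ (I j) •
    (!₂[cos (ψ j), sin (ψ j)] - !₂[cos ((I j - 1 / 2) * θ), sin ((I j - 1 / 2) * θ)])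
  have cs : ∀ x y : ℝ, cos (x - y) - cos (x + y) = 2 * sin y * sin x := fun x y => by
    rw [cos_sub, cos_add]; ring
  have hV : ∀ j α, lin (V (j + 1)) α - lin (V j) α =
      ρ (I j) * (2 * sin (d j)) * sin (α - f.φ j) := fun j α => by
    have c1 := cs (α - f.φ j) (d j)
    rw [show α - f.φ j - d j = α - ψ (j + 1) by rw [ψ1]; simp only [f]; ring,
      show α - f.φ j + d j = α - ψ j by simp only [f]; ring] at c1
    simp only [V, lin_vadd, lin_smul, lin_vsub, lin_unit]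
    rcases a2 j with ⟨h1, -⟩ | ⟨h1, h2, -⟩
    · rw [h1]; linear_combination ρ (I j) * c1
    · have c2 := cs (α - g.φ (I j)) (θ / 2)
      have c3 := g.vx_succ (fun i => F (g.φ i)) (I j) α
      have c4 : ψ (j + 1) = (I (j + 1) - 1 / 2) * θ := by simp [ψ, h2]
      have c5 : L (I j) = ρ (I j) * (2 * sin (θ / 2)) := by simp only [ρ]; field_simp
      rw [show α - g.φ (I j) - θ / 2 = α - ψ (j + 1) by rw [c4, h1, hg]; push_cast; ring,
        show α - g.φ (I j) + θ / 2 = α - (I j - 1 / 2) * θ by rw [hg]; ring] at c2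
      rw [← c4, h1, add_sub_cancel_right]
      change _ = L _ * _ at c3
      rw [c5] at c3
      linear_combination ρ (I j) * c1 + c3 - ρ (I j) * c2
  refine ⟨f, fun j => lin (V j) (f.φ j), l, l0, on, fun j => ?_, fun j => ?_, fun j => ?_,
    fun j => ?_⟩
  · have := ψ1 (j - 1)
    rw [sub_add_cancel] at this
    simp only [e, f]
    linarith [(d0 j).2, (d0 (j - 1)).2]
  · have : V (j + n) = V j := by
      simp only [V, ρ, (a3 j).1, ψ3, show I j + g.n - 1 = I j - 1 + g.n by ring, vx_per pd,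
        show L (I j + g.n) = L (I j) from pd.ln _, show (((I j + g.n : ℤ) : ℝ) - 1 / 2) * θ =
          (I j - 1 / 2) * θ + 2 * π by rw [← mθ]; push_cast; ring, sin_add_two_pi, cos_add_two_pi]
    exact (congrArg (fun z => lin z _) this).trans (f.pd_lin _ j)
  · rw [of_vertices hV]
    have k1 := sin_low (d0 j).1 (by linarith [(d0 j).2])
    have k2 := sin_le (d0 j).1.le
    have k3 := sin_le (half_pos θ0).le
    have k4 : r (I j) * d j = θ / 2 := by have := (r0 (I j)).ne'; simp only [d]; field_simp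
    obtain ⟨k5, k6⟩ := r1 (I j)
    have k7 := hμ (I j)
    have k8 := (d0 j).1
    change μ ≤ L _ at k7
    simp only [ρ]
    rw [div_mul_eq_mul_div (L _), le_div_iff₀ (by positivity), div_le_iff₀ (by positivity)]
    have k9 : l * (θ / 2) = r (I j) * l * d j := by rw [← k4]; ring
    generalize L (I j) = x, (r (I j) : ℝ) * l = y, d j = z at *
    constructor
    · nlinarith [mul_le_mul_of_nonneg_left k3 l0.le, mul_le_mul_of_nonneg_right k6 k8.le,
        mul_le_mul_of_nonneg_left k1 (μ0.le.trans k7), mul_le_mul_of_nonneg_right k7 k8.le]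
    · nlinarith [mul_le_mul_of_nonneg_left s0 l0.le, mul_le_mul_of_nonneg_right k5 k8.le,
        mul_le_mul_of_nonneg_left k2 (μ0.le.trans k7), mul_le_mul_of_nonneg_right k7 k8.le]
  · obtain ⟨k1, k2⟩ := ψ2 j
    obtain ⟨k3, k4⟩ := d0 j
    have e1 : |f.φ j - g.φ (I j)| ≤ θ / 2 := by
      rw [hg, abs_le]; simp only [f]; constructor <;> linarith
    have e2 := g.lin_vx' (fun i => F (g.φ i)) (I j - 1)
    have e3 := norm_le (fun i => (ge i).trans_le hθ)
      fun i => (vx_le pd (fun i => (hl i).le) (I j - 1) i).trans (hR _)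
    rw [sub_add_cancel] at e2
    simp only [V, lin_vadd, lin_smul, lin_vsub, lin_unit]
    generalize g.vx (fun i => F (g.φ i)) (I j - 1) = A at *
    have b1 := (lin_lip A (f.φ j) (g.φ (I j))).trans
      (mul_le_mul e3 e1 (abs_nonneg _) (by positivity))
    have b2 := (lin_lip A (g.φ (I j)) (f.φ j)).trans
      (mul_le_mul e3 ((abs_sub_comm _ _).trans_le e1) (abs_nonneg _) (by positivity))
    have b3 := hL (f.φ j) (g.φ (I j))
    have b4 := hL (g.φ (I j)) (f.φ j)
    rw [abs_sub_comm] at b4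
    have b5 := mul_le_mul_of_nonneg_left e1 R0.le
    have cb : ∀ x, 0 ≤ x → x ≤ θ → 1 - θ ^ 2 / 2 ≤ cos x := fun x h1 h2 =>
      le_trans (by nlinarith) one_sub_sq_div_two_le_cos
    have c1 := cb (f.φ j - ψ j) (by simp only [f]; linarith) (by simp only [f]; linarith)
    have c2 := cb (f.φ j - (I j - 1 / 2) * θ) (by simp only [f]; linarith)
      (by simp only [f]; linarith)
    have c3 : ρ (I j) * (θ ^ 2 / 2) ≤ 3 / 2 * R * θ := by
      simp only [ρ]
      rw [div_mul_eq_mul_div, div_le_iff₀ (by positivity)]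
      nlinarith [mul_le_mul_of_nonneg_right (L2 (I j)) (sq_nonneg θ),
        mul_le_mul_of_nonneg_left s0 (mul_pos R0 θ0).le, mul_pos R0 (pow_pos θ0 2)]
    have c4 : 0 ≤ ρ (I j) := div_nonneg (hl _).le (by positivity)
    have c5 := mul_le_mul_of_nonneg_left (show cos (f.φ j - ψ j) - cos (f.φ j - (I j - 1 / 2) * θ) ≤
      θ ^ 2 / 2 by linarith [cos_le_one (f.φ j - ψ j)]) c4
    have c6 := mul_le_mul_of_nonneg_left (show -(θ ^ 2 / 2) ≤ cos (f.φ j - ψ j) -
      cos (f.φ j - (I j - 1 / 2) * θ) by linarith [cos_le_one (f.φ j - (I j - 1 / 2) * θ)]) c4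
    rw [abs_le]
    constructor <;> linarith

end GF

theorem dense_det (hM : Match) {K : Set E} (hK : Bornology.IsBounded K) (hn : K.Nonempty) {δ : ℝ}
    (hδ : 0 < δ) : ∃ P, Dom P ∧ (∀ α, |hs P α - hs K α| ≤ δ) ∧
      ∀ D, Dom D → Iso P D → Cong P D := by
  obtain ⟨ε, ε0, hε⟩ := generic' hM
  obtain ⟨R0, r0, hR0⟩ := hK.exists_pos_norm_le
  obtain ⟨R, hR⟩ : ∃ R, R = R0 + δ / 4 := ⟨_, rfl⟩
  have R1 : 0 < R := by rw [hR]; positivity
  obtain ⟨κ, hκ⟩ : ∃ κ, κ = min (min ε (1 / 4)) (δ / (20 * R)) := ⟨_, rfl⟩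
  have κ0 : 0 < κ := by rw [hκ]; positivity
  obtain ⟨m, hm⟩ := exists_nat_gt (2 * π / κ)
  obtain ⟨θ, hθ⟩ : ∃ θ : ℝ, θ = 2 * π / (2 * m + 1 : ℕ) := ⟨_, rfl⟩
  have θ0 : 0 < θ := by rw [hθ]; positivity
  have θ1 : θ ≤ κ := by
    rw [div_lt_iff₀ κ0] at hm
    rw [hθ, div_le_iff₀ (by positivity)]; push_cast
    nlinarith [mul_nonneg (m.cast_nonneg (α := ℝ)) κ0.le]
  rw [hκ, le_min_iff, le_min_iff] at θ1
  obtain ⟨⟨θ1, θ2⟩, θ3⟩ := θ1
  rw [le_div_iff₀ (by positivity)] at θ3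
  let g : GF := ⟨2 * m + 1, fun i => i * θ, Nat.succ_pos _, fun i => by
    rw [hθ]; push_cast; field_simp, fun i => by push_cast; linarith,
    fun i => by push_cast; linarith [pi_gt_three]⟩
  obtain ⟨z, hz⟩ := id hn
  obtain ⟨f, b0, l, l0, on, he, pd, hl, hb⟩ := g.refine (θ := θ) (R := R) (fun _ => rfl) θ2
    (odd_two_mul_add_one m) (F := fun α => hs K α + δ / 4 * 1)
    ((sa_hs hK hn).add (fun α β γ a b ha hb h1 h2 => by
      have := cos_sq_add_sin_sq γ
      nth_rewrite 1 [sq, sq, h1, h2] at this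
      nlinarith [mul_le_mul_of_nonneg_left (cos_le_one (γ - α)) ha, cos_sub γ α, cos_sub γ β,
        mul_le_mul_of_nonneg_left (cos_le_one (γ - β)) hb]) (by positivity))
    (fun α => by linarith [hs_le hn (α := α) fun z hz => (lin_le _ _).trans (hR0 z hz)])
    (fun α β => by
      nlinarith [hs_lip hn hR0 α β, mul_nonneg hδ.le (abs_nonneg (α - β))])
    fun i => by
      have k1 := g.ln_sa_nonneg ((sa_hs hK hn).sub_lin z) (fun α => sub_nonneg.2 (le_hs hK hz α)) i
      have k2 := g.ln_lin z i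
      have k3 : ∀ j, 0 < δ / 4 * ((1 - cos (g.e j)) / sin (g.e j)) := fun j =>
        mul_pos (by positivity) (div_pos (by
          nlinarith [sin_sq_add_cos_sq (g.e j), cos_le_one (g.e j), g.sin_pos j]) (g.sin_pos j))
      refine lt_of_lt_of_eq ?_ (?_ :
        g.ln (fun i => hs K (g.φ i) - lin z (g.φ i)) i + g.ln (fun i => lin z (g.φ i)) i +
          (δ / 4 * ((1 - cos (g.e i)) / sin (g.e i)) +
            δ / 4 * ((1 - cos (g.e (i + 1))) / sin (g.e (i + 1)))) = _)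
      · linarith [k3 i, k3 (i + 1)]
      simp only [GF.ln]; ring
  obtain ⟨M, M0, hM'⟩ := f.ln_bd
  obtain ⟨b, p1, p2, p3⟩ := hε f on (fun i => (he i).trans θ1) b0 (min (δ / 4) (l / 100 / M)) pd
    (by positivity)
  have q1 : ∀ i, 96 / 100 * l ≤ f.ln b i ∧ f.ln b i ≤ 104 / 100 * l := fun i => by
    have := hM' (fun i => b i - 1 * b0 i) _ (fun i => by
      rw [one_mul]; exact (p2 i).trans (min_le_right _ _)) i
    rw [GF.ln_sub, mul_div_cancel₀ _ M0.ne', abs_le] at this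
    constructor <;> linarith [(hl i).1, (hl i).2, this.1, this.2]
  have q2 : ∀ i, 0 < f.ln b i := fun i => by linarith [(q1 i).1]
  have hD := GF.dom p1 q2
  refine ⟨_, hD, fun α => ?_, p3 q2 fun i j => by linarith [(q1 i).2, (q1 j).1]⟩
  have q3 : ∀ i, |b i - hs K (f.φ i)| ≤ δ / 2 + 3 * R * θ := fun i => by
    have k1 := abs_le.1 ((p2 i).trans (min_le_left _ _))
    have k2 := abs_le.1 (hb i)
    rw [abs_le]; constructor <;> linarith [k1.1, k1.2, k2.1, k2.2]
  have q4 : ∀ z ∈ f.set b, ‖z‖ ≤ 2 * (3 * R) := fun z hz =>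
    GF.norm_le (fun i => (he i).trans θ2) fun i => by
      nlinarith [hz i, (abs_le.1 (q3 i)).2,
        hs_le hn (α := f.φ i) fun z hz => (lin_le _ _).trans (hR0 z hz)]
  obtain ⟨i, h1, h2⟩ := f.exists_between α
  have e : |α - f.φ i| ≤ θ := by
    rw [GF.φ_succ] at h2
    rw [abs_of_nonneg (sub_nonneg.2 h1)]; linarith [he (i + 1)]
  have k1 := hs_lip hD.ne q4 α (f.φ i)
  have k2 := hs_lip hD.ne q4 (f.φ i) α
  have k3 := hs_lip hn hR0 α (f.φ i)
  have k4 := hs_lip hn hR0 (f.φ i) α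
  rw [abs_sub_comm] at k2 k4
  rw [GF.hs_set p1 q2] at k1 k2
  have k5 := mul_le_mul_of_nonneg_left e R1.le
  have k6 := mul_le_mul_of_nonneg_right (show R0 ≤ R by linarith) (abs_nonneg (α - f.φ i))
  have k7 := abs_le.1 (q3 i)
  rw [abs_le]
  constructor <;> linarith [k7.1, k7.2]

end Pool.Agent.Lib.MP_c1b9d3_an
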