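import Pool.Agent.Lib.MP_c1b9d3_an.BDef

namespace Pool.Agent.Lib.MP_c1b9d3_an

open MeasureTheory Real Filter Topology Set Pool.Agent.Lib.MP_2d4879_an

namespace GF

variable (f : GF) {b c X Y : ℤ → ℝ}

lemma e_succ (i : ℤ) : f.e (i + 1) = f.φ (i + 1) - f.φ i := by simp [e]

lemma e_pos (i : ℤ) : 0 < f.e i := by
  have := f.lt (i - 1)
  rw [sub_add_cancel] at this
  exact sub_pos.2 this

lemma e_lt (i : ℤ) : f.e i < π := by
  have := f.gap (i - 1)
  rw [sub_add_cancel] at this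
  unfold e; linarith

lemma sin_pos (i : ℤ) : 0 < sin (f.e i) := sin_pos_of_pos_of_lt_pi (f.e_pos i) (f.e_lt i)

lemma mono : StrictMono f.φ := strictMono_int_of_lt_succ f.lt

lemma e_per (i : ℤ) : f.e (i + f.n) = f.e i := by
  unfold e
  rw [show i + f.n - 1 = i - 1 + f.n by ring, f.per, f.per]; ring

lemma φ_mul (i k : ℤ) : f.φ (i + k * f.n) = f.φ i + k * (2 * π) := by
  induction k using Int.induction_on with
  | zero => simp
  | succ k ih => rw [add_mul, one_mul, ← add_assoc, f.per, ih]; push_cast; ring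
  | pred k ih =>
    have := f.per (i + (-k - 1) * f.n)
    rw [show i + (-k - 1) * f.n + f.n = i + -k * f.n by ring, ih] at this
    push_cast at this ⊢; linarith

variable {f}

lemma Pd.mul (hb : f.Pd b) (i k : ℤ) : b (i + k * f.n) = b i := by
  induction k using Int.induction_on with
  | zero => simp
  | succ k ih => rw [add_mul, one_mul, ← add_assoc, hb, ih]
  | pred k ih =>
    have := hb (i + (-k - 1) * f.n)
    rw [show i + (-k - 1) * f.n + f.n = i + -k * f.n by ring, ih] at this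
    exact this.symm

lemma Pd.ln (hb : f.Pd b) : f.Pd (f.ln b) := fun i => by
  unfold GF.ln
  rw [show i + f.n - 1 = i - 1 + f.n by ring, show i + f.n + 1 = i + 1 + f.n by ring, hb, hb, hb,
    f.e_per, f.e_per]

lemma Pd.sub (hb : f.Pd b) (hc : f.Pd c) (s : ℝ) : f.Pd fun i => b i - s * c i := fun i => by
  simp only [hb i, hc i]

lemma pd_of_per (f : GF) {F : ℝ → ℝ} (hF : Per F) : f.Pd fun i => F (f.φ i) := fun i => by
  simp only [f.per]
  exact hF _ _ (cos_add_two_pi _) (sin_add_two_pi _)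

lemma pd_lin (f : GF) (z : E) : f.Pd fun i => lin z (f.φ i) := f.pd_of_per (per_lin z)

lemma pd_hy (f : GF) {n : ℕ} (y : Fin n → E) : f.Pd (f.hy y) := f.pd_of_per (sa_sa y).per

lemma exists_rep (f : GF) (j i : ℤ) : ∃ m : ℕ, m < f.n ∧ ∃ k : ℤ, i = j + m + k * f.n := by
  have hn : (0 : ℤ) < f.n := by exact_mod_cast f.npos
  refine ⟨((i - j) % f.n).toNat, ?_, (i - j) / f.n, ?_⟩
  · have := Int.emod_lt_of_pos (i - j) hn
    have := Int.emod_nonneg (i - j) hn.ne'
    omega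
  · rw [Int.toNat_of_nonneg (Int.emod_nonneg _ hn.ne')]
    have := Int.emod_add_mul_ediv (i - j) f.n
    linarith

lemma Pd.sum_succ (hb : f.Pd b) :
    ∑ i ∈ Finset.range f.n, b (i + 1) = ∑ i ∈ Finset.range f.n, b i := by
  have h1 := Finset.sum_range_succ (fun i : ℕ => b i) f.n
  have h2 := Finset.sum_range_succ' (fun i : ℕ => b i) f.n
  have h3 := hb 0
  simp only [zero_add, Nat.cast_add, Nat.cast_one, Nat.cast_zero] at h1 h2 h3
  linarith

lemma Pd.shift (hb : f.Pd b) (k : ℤ) : f.Pd fun i => b (i + k) := fun i => by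
  simp only [show i + f.n + k = i + k + f.n by ring, hb (i + k)]

lemma Pd.sum_shift (hb : f.Pd b) (k : ℤ) :
    ∑ i ∈ Finset.range f.n, b (i + k) = ∑ i ∈ Finset.range f.n, b i := by
  induction k using Int.induction_on with
  | zero => simp
  | succ k ih =>
    rw [← ih, ← (hb.shift k).sum_succ]
    exact Finset.sum_congr rfl fun i _ => by congr 1; ring
  | pred k ih =>
    rw [← ih, ← (hb.shift (-k - 1)).sum_succ]
    exact Finset.sum_congr rfl fun i _ => by congr 1; ring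

/-- Discrete Wronskian. -/
noncomputable def Wr (f : GF) (X Y : ℤ → ℝ) (i : ℤ) : ℝ :=
  (X (i + 1) * Y i - X i * Y (i + 1)) / sin (f.e (i + 1))

lemma green (f : GF) (X Y : ℤ → ℝ) (i : ℤ) :
    f.Wr X Y i - f.Wr X Y (i - 1) = Y i * f.ln X i - X i * f.ln Y i := by
  have h1 := (f.sin_pos i).ne'
  have h2 := (f.sin_pos (i + 1)).ne'
  simp only [Wr, ln, sub_add_cancel]
  field_simp; ring

lemma B_symm (hb : f.Pd b) (hc : f.Pd c) : f.B b c = f.B c b := by
  have hW : f.Pd (f.Wr c b) := fun i => by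
    unfold Wr
    rw [show i + f.n + 1 = i + 1 + f.n by ring, hb, hb, hc, hc, f.e_per]
  have h1 := hW.sum_shift (-1)
  rw [← sub_eq_zero, B, B, ← Finset.sum_sub_distrib]
  simp only [← f.green c b, Finset.sum_sub_distrib, sub_eq_add_neg (_ : ℤ), h1, sub_self]

lemma ln_sub (f : GF) (b c : ℤ → ℝ) (s : ℝ) (i : ℤ) :
    f.ln (fun i => b i - s * c i) i = f.ln b i - s * f.ln c i := by
  simp only [ln]; ring

lemma ln_lin (f : GF) (z : E) (i : ℤ) : f.ln (fun i => lin z (f.φ i)) i = 0 := by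
  have h1 := (f.sin_pos i).ne'
  have h2 := (f.sin_pos (i + 1)).ne'
  have e1 : f.φ (i - 1) = f.φ i - f.e i := by simp [e]
  have e2 : f.φ (i + 1) = f.φ i + f.e (i + 1) := by simp [e]
  simp only [ln, e1, e2, lin_add, lin_sub, rot_1]
  field_simp; ring

lemma B_sub_left (f : GF) (b c X : ℤ → ℝ) (s : ℝ) :
    f.B (fun i => b i - s * c i) X = f.B b X - s * f.B c X := by
  simp only [B, sub_mul, Finset.sum_sub_distrib, Finset.mul_sum, mul_assoc]

lemma B_sub_right (f : GF) (b c X : ℤ → ℝ) (s : ℝ) :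
    f.B X (fun i => b i - s * c i) = f.B X b - s * f.B X c := by
  simp only [B, ln_sub, mul_sub, Finset.sum_sub_distrib, Finset.mul_sum]
  congr 1
  exact Finset.sum_congr rfl fun i _ => by ring

lemma B_expand (hb : f.Pd b) (hc : f.Pd c) (s : ℝ) :
    f.B (fun i => b i - s * c i) (fun i => b i - s * c i) =
      f.B b b - 2 * s * f.B c b + s ^ 2 * f.B c c := by
  rw [B_sub_left, B_sub_right, B_sub_right, B_symm hb hc]; ring

lemma B_lin (hb : f.Pd b) (z : E) :
    f.B (fun i => b i - 1 * lin z (f.φ i)) (fun i => b i - 1 * lin z (f.φ i)) = f.B b b := by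
  rw [B_expand hb (f.pd_lin z), B_symm (f.pd_lin z) hb]
  simp [B, ln_lin]

/-- The reversed fan. -/
def rev (f : GF) : GF where
  n := f.n
  φ i := -f.φ (-i)
  npos := f.npos
  per i := by
    have := f.per (-(i + f.n))
    rw [show -(i + f.n) + f.n = -i by ring] at this
    linarith
  lt i := neg_lt_neg (f.mono (by omega))
  gap i := by
    have := f.gap (-(i + 1))
    rw [show -(i + 1) + 1 = -i by ring] at this
    linarith

lemma rev_e (f : GF) (i : ℤ) : f.rev.e i = f.e (-i + 1) := by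
  simp only [e, rev, add_sub_cancel_right, show -(i - 1) = -i + 1 by ring]; ring

lemma rev_ln (f : GF) (X : ℤ → ℝ) (i : ℤ) : f.rev.ln (fun k => X (-k)) i = f.ln X (-i) := by
  simp only [ln, rev_e, show -(i - 1) = -i + 1 by ring, show -(i + 1) = -i - 1 by ring,
    sub_add_cancel]
  ring

lemma fwd (hX : ∀ i, 0 ≤ f.ln X i) {j : ℤ} (h0 : X j = 0) (m : ℕ)
    (hm : f.φ (j + 1 + m) < f.φ j + π) :
    X (j + 1) * sin (f.φ (j + 1 + m) - f.φ j) ≤ X (j + 1 + m) * sin (f.e (j + 1)) := by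
  set Y : ℤ → ℝ := fun i => sin (f.φ i - f.φ j)
  have hY : ∀ i, f.ln Y i = 0 := fun i => by
    rw [← f.ln_lin !₂[-sin (f.φ j), cos (f.φ j)] i]
    congr 1; ext k
    simp only [Y, lin, sin_sub, Matrix.cons_val_zero, Matrix.cons_val_one]; ring
  have hYp : ∀ k : ℕ, f.φ (j + 1 + k) < f.φ j + π → 0 < Y (j + 1 + k) := fun k hk =>
    sin_pos_of_pos_of_lt_pi (sub_pos.2 (f.mono (by omega))) (by linarith)
  have hW : ∀ k : ℕ, f.φ (j + k) < f.φ j + π → 0 ≤ f.Wr X Y (j + k) := by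
    intro k
    induction k with
    | zero => intro _; simp [Wr, h0, Y]
    | succ k ih =>
      intro hk
      have e : j + (k + 1 : ℕ) = j + 1 + k := by push_cast; ring
      rw [e] at hk ⊢
      have h1 := f.green X Y (j + 1 + k)
      rw [hY, show j + 1 + k - 1 = j + k by ring] at h1
      have h2 := ih ((f.mono (by omega)).trans hk)
      have h3 := mul_nonneg (hYp k hk).le (hX (j + 1 + k))
      linarith
  induction m with
  | zero => simp [e_succ]
  | succ m ih =>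
    have e : j + 1 + (m + 1 : ℕ) = j + 1 + m + 1 := by push_cast; ring
    have hm' : f.φ (j + 1 + m) < f.φ j + π := (f.mono (by omega)).trans hm
    have h1 := ih hm'
    have h2 := hW (m + 1) (by rwa [show j + (m + 1 : ℕ) = j + 1 + m by push_cast; ring])
    rw [show j + (m + 1 : ℕ) = j + 1 + m by push_cast; ring, Wr,
      le_div_iff₀ (f.sin_pos _), zero_mul] at h2
    have h3 := hYp m hm'
    have h4 := hYp (m + 1) hm
    rw [e] at h4 ⊢
    have h5 := f.sin_pos (j + 1)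
    refine le_of_mul_le_mul_right ?_ h3
    change X (j + 1) * Y (j + 1 + m + 1) * _ ≤ _
    change X (j + 1) * Y (j + 1 + m) ≤ _ at h1
    nlinarith [mul_le_mul_of_nonneg_right h1 h4.le, mul_nonneg h2 h5.le]

lemma bwd (hX : ∀ i, 0 ≤ f.ln X i) {j : ℤ} (h0 : X j = 0) (m : ℕ)
    (hm : f.φ j < f.φ (j - 1 - m) + π) :
    X (j - 1) * sin (f.φ j - f.φ (j - 1 - m)) ≤ X (j - 1 - m) * sin (f.e j) := by
  have := fwd (f := f.rev) (X := fun k => X (-k)) (fun i => by rw [rev_ln]; exact hX _) (j := -j)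
    (by simpa using h0) m (by
      simp only [rev, neg_neg, show -(-j + 1 + m) = j - 1 - m by ring]; linarith)
  simp only [rev_e, show -(-j + 1 + m) = j - 1 - m by ring, show -(-j + 1) = j - 1 by ring,
    sub_add_cancel] at this
  simp only [rev, neg_neg, show -(-j + 1 + m) = j - 1 - m by ring] at this
  rwa [show -f.φ (j - 1 - m) - -f.φ j = f.φ j - f.φ (j - 1 - m) by ring] at this

lemma far_gen (hp : f.Pd X) (hX : ∀ i, 0 ≤ f.ln X i) {j : ℤ} (h0 : X j = 0) {m : ℕ} (hm0 : 0 < m)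
    (hm : m < f.n) (hπ : f.φ (j + m) ≠ f.φ j + π) : ∃ p q : ℝ, 0 ≤ p ∧ 0 ≤ q ∧ 0 < p + q ∧
      p * X (j + 1) + q * X (j - 1) ≤ X (j + m) := by
  rcases lt_or_gt_of_ne hπ with k | k
  · obtain ⟨m, rfl⟩ := Nat.exists_eq_add_of_lt hm0
    have e : j + (0 + m + 1 : ℕ) = j + 1 + m := by push_cast; ring
    rw [e] at k ⊢
    have h1 := fwd hX h0 m k
    have h2 : 0 < sin (f.φ (j + 1 + m) - f.φ j) :=
      sin_pos_of_pos_of_lt_pi (sub_pos.2 (f.mono (by omega))) (by linarith)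
    have h3 := f.sin_pos (j + 1)
    refine ⟨sin (f.φ (j + 1 + m) - f.φ j) / sin (f.e (j + 1)), 0, by positivity, le_rfl,
      by positivity, ?_⟩
    rw [zero_mul, add_zero, div_mul_eq_mul_div, div_le_iff₀ h3]; linarith
  · obtain ⟨r, hr⟩ := Nat.exists_eq_add_of_lt hm
    have e : j + m = j - 1 - r + f.n := by rw [hr]; push_cast; ring
    rw [e, f.per] at k
    rw [e, hp]
    have h1 := bwd hX h0 r (by linarith)
    have h2 : 0 < sin (f.φ j - f.φ (j - 1 - r)) :=
      sin_pos_of_pos_of_lt_pi (sub_pos.2 (f.mono (by omega))) (by linarith)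
    have h3 := f.sin_pos j
    refine ⟨0, sin (f.φ j - f.φ (j - 1 - r)) / sin (f.e j), le_rfl, by positivity,
      by positivity, ?_⟩
    rw [zero_mul, zero_add, div_mul_eq_mul_div, div_le_iff₀ h3]; linarith

lemma nb_nonneg (hX : ∀ i, 0 ≤ f.ln X i) {j : ℤ} (h0 : X j = 0) (h1 : X (j + 1) = 0) :
    0 ≤ X (j - 1) ∧ 0 ≤ X (j + 1 + 1) := by
  have k1 := hX j
  have k2 := hX (j + 1)
  simp only [ln, h0, h1, add_sub_cancel_right, mul_zero, sub_zero, zero_div, add_zero,
    zero_add] at k1 k2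
  exact ⟨(div_nonneg_iff.1 k1).elim And.left fun k => absurd k.2 (not_le.2 (f.sin_pos _)),
    (div_nonneg_iff.1 k2).elim And.left fun k => absurd k.2 (not_le.2 (f.sin_pos _))⟩

lemma vertex_nonneg (hp : f.Pd X) (hX : ∀ i, 0 ≤ f.ln X i) {j : ℤ} (h0 : X j = 0)
    (h1 : X (j + 1) = 0) (i : ℤ) : 0 ≤ X i := by
  obtain ⟨n1, n2⟩ := nb_nonneg hX h0 h1
  obtain ⟨m, hm, k, rfl⟩ := f.exists_rep j i
  rw [hp.mul]
  rcases Nat.eq_zero_or_pos m with rfl | m0
  · simp [h0]
  by_cases hπ : f.φ (j + m) = f.φ j + π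
  · obtain ⟨m, rfl⟩ := Nat.exists_eq_add_of_lt m0
    have e : j + (0 + m + 1 : ℕ) = j + 1 + m := by push_cast; ring
    rw [e] at hπ ⊢
    rcases Nat.eq_zero_or_pos m with rfl | m1
    · simp [h1]
    obtain ⟨p, q, p0, q0, -, h⟩ := far_gen hp hX h1 m1 (by omega) (by linarith [f.lt j])
    rw [add_sub_cancel_right, h0] at h
    nlinarith [mul_nonneg p0 n2]
  · obtain ⟨p, q, p0, q0, -, h⟩ := far_gen hp hX h0 m0 hm hπ
    rw [h1] at h
    nlinarith [mul_nonneg q0 n1]

lemma far_pos (hp : f.Pd X) (hX : ∀ i, 0 ≤ f.ln X i) {j : ℤ} (h0 : X j = 0) (h1 : 0 < X (j + 1))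
    (h2 : 0 < X (j - 1)) (h3 : ∀ i, f.φ i = f.φ j + π → 0 < X i) {m : ℕ} (hm0 : 0 < m)
    (hm : m < f.n) : 0 < X (j + m) := by
  by_cases hπ : f.φ (j + m) = f.φ j + π
  · exact h3 _ hπ
  obtain ⟨p, q, p0, q0, pq, h⟩ := far_gen hp hX h0 hm0 hm hπ
  rcases p0.eq_or_lt with k | k
  · nlinarith [mul_pos (show 0 < q by linarith) h2]
  · nlinarith [mul_pos k h1, mul_nonneg q0 h2.le]

/-- The vertex between the sides `j` and `j + 1`. -/
noncomputable def vx (f : GF) (b : ℤ → ℝ) (j : ℤ) : E :=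
  !₂[(b j * sin (f.φ (j + 1)) - b (j + 1) * sin (f.φ j)) / sin (f.e (j + 1)),
    (b (j + 1) * cos (f.φ j) - b j * cos (f.φ (j + 1))) / sin (f.e (j + 1))]

lemma lin_vx (f : GF) (b : ℤ → ℝ) (j : ℤ) : lin (f.vx b j) (f.φ j) = b j := by
  have h := (f.sin_pos (j + 1)).ne'
  simp only [lin, vx, Matrix.cons_val_zero, Matrix.cons_val_one]
  field_simp
  rw [e_succ, sin_sub]; ring

lemma lin_vx' (f : GF) (b : ℤ → ℝ) (j : ℤ) : lin (f.vx b j) (f.φ (j + 1)) = b (j + 1) := by
  have h := (f.sin_pos (j + 1)).ne'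
  simp only [lin, vx, Matrix.cons_val_zero, Matrix.cons_val_one]
  field_simp
  rw [e_succ, sin_sub]; ring

lemma vx_le (hb : f.Pd b) (hl : ∀ i, 0 ≤ f.ln b i) (j i : ℤ) : lin (f.vx b j) (f.φ i) ≤ b i := by
  have := vertex_nonneg (hb.sub (f.pd_lin (f.vx b j)) 1) (fun i => by
    rw [ln_sub, ln_lin]; simpa using hl i) (j := j) (by simp [lin_vx]) (by simp [lin_vx']) i
  linarith

end GF

end Pool.Agent.Lib.MP_c1b9d3_an
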