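import Pool.Agent.Lib.MP_c1b9d3_an.BGd
import Pool.Agent.Lib.MP_c1b9d3_an.BDen

namespace Pool.Agent.Lib.MP_c1b9d3_an

open MeasureTheory Real Filter Topology Set Pool.Agent.Lib.MP_2d4879_an

lemma dist_of_hs {K L : ConvexBody E} {δ : ℝ} (hδ : 0 ≤ δ) (h : ∀ α, |hs K α - hs L α| ≤ δ) :
    dist K L ≤ δ := by
  rw [← ConvexBody.hausdorffDist_coe]
  refine Metric.hausdorffDist_le_of_mem_dist hδ (fun x hx => ?_) fun x hx => ?_
  · simpa only [dist_eq_norm] using near_of_hs L.isCompact L.convex L.nonempty hδ fun α => by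
      linarith [le_hs K.isBounded hx α, le_of_abs_le (h α)]
  · simpa only [dist_eq_norm] using near_of_hs K.isCompact K.convex K.nonempty hδ fun α => by
      linarith [le_hs L.isBounded hx α, neg_le_of_abs_le (h α)]

lemma hs_cb {D : Set E} (hD : Dom D) (α : ℝ) : hs (cb hD) α = hs D α :=
  le_antisymm (hs_le hD.ne.closure (le_closure fun _ hz => le_hs hD.bdd hz α))
    (hs_le hD.ne fun _ hz => le_hs hD.bdd.closure (subset_closure hz) α)

theorem det_dense (hM : Match) : Dense {K : ConvexBody E | (interior (K : Set E)).Nonempty ∧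
    ∀ D, Dom D → Iso (interior (K : Set E)) D → Cong (interior (K : Set E)) D} := fun K => by
  refine Metric.mem_closure_iff.2 fun ε hε => ?_
  obtain ⟨P, h1, h2, h3⟩ := dense_det hM K.isBounded K.nonempty (half_pos hε)
  refine ⟨cb h1, by simpa only [mem_ofPred_eq, int_cb] using ⟨h1.ne, h3⟩, ?_⟩
  rw [dist_comm]
  exact (dist_of_hs (half_pos hε).le fun α => hs_cb h1 α ▸ h2 α).trans_lt (half_lt_self hε)

theorem cb_complete : CompleteSpace (ConvexBody E) := by
  refine Metric.complete_of_cauchySeq_tendsto fun K hK => ?_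
  obtain ⟨ρ, hρ⟩ := hK.isBounded_range.subset_closedBall (K 0)
  obtain ⟨R, hR⟩ := (K 0).isBounded.exists_norm_le
  obtain ⟨L, φ, h1, h2⟩ := blaschke K (R := ρ + R) fun n x hx => by
    obtain ⟨y, hy, k⟩ := cb_near (K n) (K 0) hx
    rw [mem_closedBall_zero_iff]
    linarith [norm_le_norm_sub_add x y, hR y hy, Metric.mem_closedBall.1 (hρ ⟨n, rfl⟩)]
  exact ⟨L, tendsto_nhds_of_cauchySeq_of_subseq hK h1.tendsto_atTop h2⟩

lemma cong_iff {X Y : Set E} : Cong X Y ↔ ∃ φ : E ≃ᵢ E, φ '' X = Y := by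
  refine ⟨Cong.image, fun ⟨φ, h⟩ => ⟨φ.toRealLinearIsometryEquiv, φ 0, fun z => ?_⟩⟩
  rw [IsometryEquiv.toRealLinearIsometryEquiv_apply, sub_add_cancel, ← h]
  exact (φ.injective.mem_set_image).symm

theorem generic_main (hM : Match) {S : Set (ConvexBody E)}
    (hS : S = {K : ConvexBody E | (interior (K : Set E)).Nonempty ∧
      ∀ D : Set E, IsOpen D → Convex ℝ D → Bornology.IsBounded D → D.Nonempty →
        (∀ k : ℕ, 1 ≤ k → sInf (adm (interior (K : Set E)) k) = sInf (adm D k)) →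
          ∃ φ : E ≃ᵢ E, φ '' interior (K : Set E) = D}) : IsGδ S ∧ Dense S := by
  have e : S = {K : ConvexBody E | (interior (K : Set E)).Nonempty ∧
      ∀ D, Dom D → Iso (interior (K : Set E)) D → Cong (interior (K : Set E)) D} :=
    hS.trans (Set.ext fun K => and_congr_right fun _ => forall_congr' fun D =>
      ⟨fun h k1 k2 => cong_iff.2 (h k1.1 k1.2 k1.3 k1.4 k2),
        fun h k1 k2 k3 k4 k5 => cong_iff.1 (h ⟨k1, k2, k3, k4⟩ k5)⟩)
  exact e ▸ ⟨det_gd, det_dense hM⟩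

end Pool.Agent.Lib.MP_c1b9d3_an
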