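import Pool.Agent.Lib.MP_c1b9d3_an.BHull

namespace Pool.Agent.Lib.MP_c1b9d3_an

open MeasureTheory Real Filter Topology Set Pool.Agent.Lib.MP_2d4879_an

variable {D D' X : Set E}

/-- Poincare inequality in a strip. -/
lemma poincare {r w c α : ℝ} (hw : ∀ z ∈ D, |lin z α - c| ≤ w) (hr : r ∈ adm D 1) :
    1 ≤ 4 * w ^ 2 * r := by
  obtain ⟨V, hV, hf⟩ := hr
  have : V ≠ ⊥ := by rintro rfl; simp at hV
  obtain ⟨f, hfV, h0⟩ := Submodule.exists_mem_ne_zero_of_ne_bot this
  obtain ⟨h1, h2, h3, h4⟩ := hf f hfV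
  have h5 := int_sq_pos h1.continuous h2 h0
  let e : E := !₂[cos α, sin α]
  have he : ‖e‖ = 1 := by
    rw [← sq_eq_sq₀ (norm_nonneg _) zero_le_one, nsq]; simp [e]
  let L : E →L[ℝ] ℝ := cos α • EuclideanSpace.proj 0 + sin α • EuclideanSpace.proj 1
  have hL : ∀ z, L z = lin z α := fun z => by simp [L, lin]
  have hg : ∀ x, HasFDerivAt (fun z => lin z α - c) L x := fun x => by
    simpa only [hL] using L.hasFDerivAt.sub_const c
  have hLe : L e = 1 := by rw [hL]; simp [lin, e, ← sq]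
  have hd := h1.differentiable one_ne_zero
  have hf2 : ∀ x, fderiv ℝ (fun z => f z ^ 2) x e = 2 * f x * fderiv ℝ f x e := fun x => by
    rw [((hd x).hasFDerivAt.pow 2).fderiv]; simp
  have hc := h1.continuous
  have hc' := h1.continuous_fderiv one_ne_zero
  have hl := cont_lin α
  have s2 : HasCompactSupport fun z => f z ^ 2 := h2.comp_left (g := fun t => t ^ 2) (by simp)
  have i1 : Integrable fun x => 2 * f x * fderiv ℝ f x e * (lin x α - c) :=
    Continuous.integrable_of_hasCompactSupport (by fun_prop) h2.mul_left.mul_right.mul_right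
  have i2 := int_sq_of_cs hc h2
  have i3 : Integrable fun x => ‖fderiv ℝ f x‖ ^ 2 := int_sq_of_cs (by fun_prop) (h2.fderiv ℝ).norm
  have key := integral_mul_fderiv_eq_neg_fderiv_mul_of_integrable (μ := (volume : Measure E))
    (f := fun z => f z ^ 2) (g := fun z => lin z α - c) (v := e) (by simpa only [hf2] using i1)
    (by simpa only [(hg _).fderiv, hLe, mul_one] using i2)
    (Continuous.integrable_of_hasCompactSupport (by fun_prop) s2.mul_right)
    (fun x _ => (hd x).pow 2) fun x _ => (hg x).differentiableAt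
  simp only [(hg _).fderiv, hLe, mul_one, hf2, ← integral_neg] at key
  have k2 := integral_mono i1.neg ((i2.const_mul (1 / 2)).add (i3.const_mul (2 * w ^ 2)))
    fun x => by
      by_cases hx : x ∈ tsupport f
      · have a1 := sq_le_sq' (neg_le_of_abs_le (hw x (h3 hx))) (le_of_abs_le (hw x (h3 hx)))
        have a2 : |fderiv ℝ f x e| ≤ ‖fderiv ℝ f x‖ := by
          simpa [he] using (fderiv ℝ f x).le_opNorm e
        have a3 := sq_le_sq' (neg_le_of_abs_le a2) (le_of_abs_le a2)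
        have a4 := mul_le_mul a1 a3 (sq_nonneg _) (sq_nonneg _)
        simp only [Pi.neg_apply, Pi.add_apply]
        nlinarith [sq_nonneg (f x + 2 * fderiv ℝ f x e * (lin x α - c))]
      · simp only [Pi.neg_apply, Pi.add_apply, image_eq_zero_of_notMem_tsupport hx]
        have : 0 ≤ 2 * w ^ 2 * ‖fderiv ℝ f x‖ ^ 2 := by positivity
        linarith
  rw [integral_add' (i2.const_mul _) (i3.const_mul _), integral_const_mul, integral_const_mul] at k2
  simp only [Pi.neg_apply] at k2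
  rw [← key] at k2
  have k3 := mul_le_mul_of_nonneg_left h4 (show 0 ≤ 2 * w ^ 2 by positivity)
  refine le_of_mul_le_mul_right ?_ h5
  linarith

lemma adm_one (hD : Dom D) : (adm D 1).Nonempty := by
  obtain ⟨x, hx⟩ := hD.ne
  obtain ⟨f, h1, h2, h3, -, h5⟩ := exists_contDiff_tsupport_subset (n := 1)
    (hD.isOpen.mem_nhds hx)
  have h0 : f ≠ 0 := fun k => by simp [k] at h5
  have h3' : ContDiff ℝ 1 f := h3
  have h6 := int_sq_pos h3'.continuous h2 h0
  refine ⟨(∫ x, ‖fderiv ℝ f x‖ ^ 2) / ∫ x, f x ^ 2, ℝ ∙ f, finrank_span_singleton h0, fun g hg => ?_⟩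
  obtain ⟨a, rfl⟩ := Submodule.mem_span_singleton.1 hg
  refine ⟨h3'.const_smul a, h2.smul_left (f := fun _ => a),
    (tsupport_smul_subset_right (fun _ => a) f).trans h1, le_of_eq ?_⟩
  have : ∀ x, fderiv ℝ (a • f) x = a • fderiv ℝ f x := fun x =>
    fderiv_const_smul (h3'.differentiable one_ne_zero x) a
  simp only [this, norm_smul, Pi.smul_apply, smul_eq_mul, mul_pow, integral_const_mul,
    Real.norm_eq_abs, sq_abs]
  field_simp

/-- The set is not contained in a strip of half width below `w`. -/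
def Wide (X : Set E) (w : ℝ) : Prop := ∀ α c, ∃ z ∈ X, w ≤ |lin z α - c|

lemma wide_of_adm {r w : ℝ} (hr : r ∈ adm D 1) (h : 4 * w ^ 2 * r < 1) : Wide D w := fun α c => by
  by_contra! k
  exact (poincare (fun z hz => (k z hz).le) hr).not_gt h

lemma Wide.tri {w : ℝ} (h : Wide X w) {p q : E} (hp : p ∈ X) (hq : q ∈ X) :
    ∃ P ∈ X, ∃ Q ∈ X, ∃ R ∈ X, w * ‖q - p‖ ≤ det (Q - P) (R - Q) := by
  obtain ⟨φ, h0, h1⟩ := exists_angle (q - p)
  obtain ⟨z, hz, k⟩ := h (φ + π / 2) (lin p (φ + π / 2))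
  have e : det (q - p) (z - q) = (lin z (φ + π / 2) - lin p (φ + π / 2)) * ‖q - p‖ := by
    simp only [lin, cos_add_pi_div_two, sin_add_pi_div_two]
    simp only [det, PiLp.sub_apply] at h0 h1 ⊢
    linear_combination (z 1 - p 1) * h0 - (z 0 - p 0) * h1
  have e' : det (p - q) (z - p) = -det (q - p) (z - q) := by
    simp only [det, PiLp.sub_apply]; ring
  rcases le_abs.1 k with k | k
  · exact ⟨p, hp, q, hq, z, hz, e ▸ mul_le_mul_of_nonneg_right k (norm_nonneg _)⟩
  · refine ⟨q, hq, p, hp, z, hz, ?_⟩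
    rw [e', e, ← neg_mul]
    exact mul_le_mul_of_nonneg_right k (norm_nonneg _)

lemma Wide.int {w : ℝ} (h : Wide X w) (hw : 0 < w) (hc : Convex ℝ X) : (interior X).Nonempty := by
  obtain ⟨p, hp, -⟩ := h 0 0
  obtain ⟨q, hq, k⟩ := h 0 (lin p 0)
  have : q ≠ p := by rintro rfl; simp at k; linarith
  obtain ⟨P, hP, Q, hQ, R, hR, k⟩ := h.tri hp hq
  have k0 := (mul_pos hw (norm_pos_iff.2 (sub_ne_zero.2 this))).trans_le k
  exact (dom_tri k0).ne.mono (interior_maximal (tri_sub k0 hc hP hQ hR) (open_tri _ _ _))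

lemma Wide.diam {w : ℝ} (h : Wide D w) (hD : Dom D) {p q : E} (hp : p ∈ D) (hq : q ∈ D) :
    w * ‖q - p‖ ≤ 2 * volume.real D := by
  obtain ⟨P, hP, Q, hQ, R, hR, k⟩ := h.tri hp hq
  rcases le_or_gt (det (Q - P) (R - Q)) 0 with k0 | k0
  · linarith [vol_pos hD]
  · have := measureReal_mono (μ := volume) (tri_sub k0 hD.conv hP hQ hR) hD.bdd.measure_lt_top.ne
    rw [vol_tri k0] at this
    linarith

lemma ev_nn (D : Set E) {k : ℕ} (hk : 0 < k) : 0 ≤ sInf (adm D k) :=
  Real.sInf_nonneg fun _ hs => adm_nonneg hk hs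

lemma ev_cmp (hD : Dom D) (hD' : Dom D') {k : ℕ} (hk : 0 < k) {l : ℝ} (hl : 0 < l) (c : E)
    (h : ∀ y, l • y + c ∈ D → y ∈ D') : sInf (adm D' k) ≤ l ^ 2 * sInf (adm D k) := by
  rcases (adm D k).eq_empty_or_nonempty with e | e
  · rcases (adm D' k).eq_empty_or_nonempty with e' | ⟨r, hr⟩
    · simp [e, e']
    obtain ⟨x0, hx0⟩ := hD.ne
    obtain ⟨r0, hr0, hb⟩ := Metric.isOpen_iff.1 hD.isOpen x0 hx0
    obtain ⟨R, hR0, hR⟩ := hD'.bdd.subset_ball_lt 0 0
    have := adm_transfer (Ω' := D) (l := R / r0) (by positivity) (-((R / r0) • x0))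
      (fun y hy => hb (by
        have := hR hy
        rw [mem_ball_zero_iff, ← sub_eq_add_neg, ← smul_sub, norm_smul,
          Real.norm_of_nonneg (by positivity), div_mul_eq_mul_div, div_lt_iff₀ hr0] at this
        rw [mem_ball_iff_norm]
        exact lt_of_mul_lt_mul_left this hR0.le)) hr
    simp [e] at this
  · rw [← div_le_iff₀' (by positivity)]
    refine le_csInf e fun r hr => ?_
    rw [div_le_iff₀' (by positivity)]
    exact csInf_le ⟨0, fun s hs => adm_nonneg hk hs⟩ (adm_transfer hl c h hr)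

end Pool.Agent.Lib.MP_c1b9d3_an
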