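import Pool.Agent.Lib.MP_c1b9d3_an.BGa

namespace Pool.Agent.Lib.MP_c1b9d3_an

open MeasureTheory Real Filter Topology Set Pool.Agent.Lib.MP_2d4879_an TopologicalSpace

variable {D D' X Y Z : Set E} {K L : ConvexBody E}

lemma cb_near (K L : ConvexBody E) {z : E} (hz : z ∈ (K : Set E)) :
    ∃ y ∈ (L : Set E), ‖z - y‖ ≤ dist K L := by
  obtain ⟨y, hy, e⟩ := L.isCompact.exists_infDist_eq_dist L.nonempty z
  refine ⟨y, hy, ?_⟩
  rw [← dist_eq_norm, ← e, ← ConvexBody.hausdorffDist_coe]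
  exact Metric.infDist_le_hausdorffDist_of_mem hz ConvexBody.hausdorffEDist_ne_top

lemma hs_dist (K L : ConvexBody E) (α : ℝ) : hs K α ≤ hs L α + dist K L :=
  hs_le K.nonempty fun z hz => by
    obtain ⟨y, hy, k⟩ := cb_near K L hz
    linarith [le_hs L.isBounded hy α, lin_vsub z y α, lin_le (z - y) α]

lemma dom_int (h : (interior (K : Set E)).Nonempty) : Dom (interior (K : Set E)) :=
  ⟨isOpen_interior, K.convex.interior, K.isBounded.subset interior_subset, h⟩

lemma cl_int (h : (interior (K : Set E)).Nonempty) : closure (interior (K : Set E)) = K :=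
  (K.convex.closure_interior_eq_closure_of_nonempty_interior h).trans K.isClosed.closure_eq

/-- The closure of a convex domain as a convex body. -/
def cb (hD : Dom D) : ConvexBody E :=
  ⟨closure D, hD.conv.closure, hD.bdd.isCompact_closure, hD.ne.closure⟩

lemma int_cb (hD : Dom D) : interior (cb hD : Set E) = D := hD.int_cl

lemma exists_rho (h : (interior (K : Set E)).Nonempty) :
    ∃ x ρ, 0 < ρ ∧ ∀ α, lin x α + ρ ≤ hs K α := by
  obtain ⟨x, hx⟩ := h
  obtain ⟨ρ, h0, h1⟩ := Metric.nhds_basis_closedBall.mem_iff.1 (mem_interior_iff_mem_nhds.1 hx)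
  refine ⟨x, ρ, h0, fun α => ?_⟩
  have he : ‖(!₂[cos α, sin α] : E)‖ = 1 := by
    rw [← sq_eq_sq₀ (norm_nonneg _) zero_le_one, nsq]; simp
  have := le_hs K.isBounded (z := x + ρ • !₂[cos α, sin α]) (h1 (by
    simp [norm_smul, he, abs_of_pos h0])) α
  rwa [lin_vadd, lin_smul, show lin !₂[cos α, sin α] α = 1 by simp [lin, ← sq], mul_one] at this

lemma int_of_rho {x : E} {ρ : ℝ} (h0 : 0 < ρ) (h : ∀ α, lin x α + ρ ≤ hs K α) :
    (interior (K : Set E)).Nonempty :=
  ⟨x, mem_interior_iff_mem_nhds.2 (mem_of_superset (Metric.closedBall_mem_nhds x h0) fun z hz =>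
    mem_of_hs K.isCompact K.convex K.nonempty fun α => by
      linarith [h α, lin_vsub z x α, lin_le (z - x) α, mem_closedBall_iff_norm.1 hz])⟩

lemma ev_near {x : E} {ρ : ℝ} (h0 : 0 < ρ) (h : ∀ α, lin x α + ρ ≤ hs L α)
    (hK : (interior (K : Set E)).Nonempty) {k : ℕ} (hk : 0 < k) :
    sInf (adm (interior (L : Set E)) k) ≤
      (1 + dist K L / ρ) ^ 2 * sInf (adm (interior (K : Set E)) k) := by
  have d0 : 0 ≤ dist K L / ρ := by positivity
  refine ev_cmp (dom_int hK) (dom_int (int_of_rho h0 h)) hk (by positivity)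
    (-((dist K L / ρ) • x)) fun y hy => ?_
  refine interior_maximal (t := (fun y => (1 + dist K L / ρ) • y + -((dist K L / ρ) • x)) ⁻¹'
    interior (K : Set E)) (fun z hz => mem_of_hs L.isCompact L.convex L.nonempty fun α => ?_)
    (isOpen_interior.preimage (by fun_prop)) hy
  have a1 := le_hs K.isBounded (interior_subset hz) α
  simp only [← sub_eq_add_neg, lin_vsub, lin_smul] at a1
  have a2 := mul_le_mul_of_nonneg_left (h α) d0
  rw [mul_add, div_mul_cancel₀ _ h0.ne'] at a2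
  refine le_of_mul_le_mul_left ?_ (show 0 < 1 + dist K L / ρ by positivity)
  linarith [hs_dist K L α]

lemma int_ev (h : (interior (K : Set E)).Nonempty) :
    ∀ᶠ L : ConvexBody E in 𝓝 K, (interior (L : Set E)).Nonempty := by
  obtain ⟨x, ρ, h0, h1⟩ := exists_rho h
  filter_upwards [Metric.closedBall_mem_nhds K (half_pos h0)] with L hL
  refine int_of_rho (x := x) (half_pos h0) fun α => ?_
  linarith [h1 α, hs_dist K L α, Metric.mem_closedBall'.1 hL]

lemma ev_cont (h : (interior (K : Set E)).Nonempty) {k : ℕ} (hk : 0 < k) :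
    ContinuousAt (fun L : ConvexBody E => sInf (adm (interior (L : Set E)) k)) K := by
  obtain ⟨x, ρ, h0, h1⟩ := exists_rho h
  have t1 : Tendsto (fun L : ConvexBody E => sInf (adm (interior (K : Set E)) k) /
      (1 + dist L K / ρ) ^ 2) (𝓝 K) (𝓝 (sInf (adm (interior (K : Set E)) k))) :=
    (ContinuousAt.div (by fun_prop) (by fun_prop) (by simp)).tendsto.trans_eq (by simp)
  have t2 : Tendsto (fun L : ConvexBody E => (1 + dist K L / (ρ / 2)) ^ 2 *
      sInf (adm (interior (K : Set E)) k)) (𝓝 K) (𝓝 (sInf (adm (interior (K : Set E)) k))) :=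
    Continuous.tendsto' (by fun_prop) _ _ (by simp)
  refine tendsto_of_tendsto_of_tendsto_of_le_of_le' t1 t2 ?_ ?_
  · filter_upwards [int_ev h] with L hL
    rw [div_le_iff₀' (by positivity)]
    exact ev_near h0 h1 hL hk
  · filter_upwards [Metric.closedBall_mem_nhds K (half_pos h0)] with L hL
    refine ev_near (x := x) (half_pos h0) (fun α => ?_) h hk
    linarith [h1 α, hs_dist K L α, Metric.mem_closedBall'.1 hL]

/-- Blaschke selection. -/
lemma blaschke (K : ℕ → ConvexBody E) {R : ℝ} (h : ∀ n, (K n : Set E) ⊆ Metric.closedBall 0 R) :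
    ∃ (L : ConvexBody E) (φ : ℕ → ℕ), StrictMono φ ∧ Tendsto (K ∘ φ) atTop (𝓝 L) := by
  let F : ConvexBody E → NonemptyCompacts E := fun K => ⟨⟨K, K.isCompact⟩, K.nonempty⟩
  obtain ⟨M, -, φ, h1, h2⟩ := (NonemptyCompacts.isCompact_subsets_of_isCompact
    (isCompact_closedBall (0 : E) R)).tendsto_subseq (x := fun n => F (K n)) h
  rw [tendsto_iff_dist_tendsto_zero] at h2
  have fin : ∀ n, Metric.hausdorffEDist (M : Set E) (K n) ≠ ⊤ := fun n =>
    Metric.hausdorffEDist_ne_top_of_nonempty_of_bounded M.nonempty (K n).nonempty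
      M.isCompact.isBounded (K n).isBounded
  have near : ∀ n, ∀ z ∈ (M : Set E), ∃ y ∈ (K n : Set E), ‖z - y‖ ≤ dist (F (K n)) M :=
    fun n z hz => by
      obtain ⟨y, hy, e⟩ := (K n).isCompact.exists_infDist_eq_dist (K n).nonempty z
      refine ⟨y, hy, ?_⟩
      rw [← dist_eq_norm, ← e, dist_comm]
      exact Metric.infDist_le_hausdorffDist_of_mem hz (fin n)
  have hc : Convex ℝ (M : Set E) := fun x hx y hy a b ha hb hab => by
    rw [M.isCompact.isClosed.mem_iff_infDist_zero M.nonempty]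
    refine le_antisymm (ge_of_tendsto' (by simpa using h2.const_mul 2) fun n => ?_)
      Metric.infDist_nonneg
    obtain ⟨x', hx', k1⟩ := near (φ n) x hx
    obtain ⟨y', hy', k2⟩ := near (φ n) y hy
    have k3 := Metric.infDist_le_hausdorffDist_of_mem ((K (φ n)).convex hx' hy' ha hb hab)
      (t := (M : Set E)) (by rw [Metric.hausdorffEDist_comm]; exact fin _)
    have k4 := Metric.infDist_le_infDist_add_dist (s := (M : Set E)) (x := a • x + b • y)
      (y := a • x' + b • y')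
    have k5 : dist (a • x + b • y) (a • x' + b • y') ≤ a * ‖x - x'‖ + b * ‖y - y'‖ := by
      refine (dist_add_add_le _ _ _ _).trans_eq ?_
      simp only [dist_eq_norm, Real.norm_of_nonneg ha, Real.norm_of_nonneg hb,
        ← smul_sub, norm_smul]
    have k6 : Metric.hausdorffDist (K (φ n) : Set E) M = dist (F (K (φ n))) M := rfl
    have k7 := add_le_add (mul_le_mul_of_nonneg_left k1 ha) (mul_le_mul_of_nonneg_left k2 hb)
    rw [← add_mul, hab] at k7
    linarith
  exact ⟨⟨M, hc, M.isCompact, M.nonempty⟩, φ, h1, tendsto_iff_dist_tendsto_zero.2 h2⟩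

/-- Congruent up to an error `η`. -/
def Cl (X Y : Set E) (η : ℝ) : Prop := ∃ (O : E ≃ₗᵢ[ℝ] E) (c : E),
  (∀ z ∈ X, ∃ y ∈ Y, ‖O z + c - y‖ ≤ η) ∧ ∀ y ∈ Y, ∃ z ∈ X, ‖O z + c - y‖ ≤ η

lemma Cl.trans {η θ : ℝ} (h : Cl X Y η) (h' : Cl Y Z θ) : Cl X Z (η + θ) := by
  obtain ⟨O, c, h1, h2⟩ := h
  obtain ⟨O', c', h3, h4⟩ := h'
  have k : ∀ x y z : E, ‖O x + c - y‖ ≤ η → ‖O' y + c' - z‖ ≤ θ →
      ‖O.trans O' x + (O' c + c') - z‖ ≤ η + θ := fun x y z a b => by
    rw [← O'.norm_map] at a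
    refine le_trans (le_of_eq ?_) ((norm_add_le _ _).trans (add_le_add a b))
    congr 1
    simp only [map_sub, map_add, LinearIsometryEquiv.trans_apply]; abel
  refine ⟨O.trans O', O' c + c', fun x hx => ?_, fun z hz => ?_⟩
  · obtain ⟨y, hy, a⟩ := h1 x hx
    obtain ⟨z, hz, b⟩ := h3 y hy
    exact ⟨z, hz, k x y z a b⟩
  · obtain ⟨y, hy, b⟩ := h4 z hz
    obtain ⟨x, hx, a⟩ := h2 y hy
    exact ⟨x, hx, k x y z a b⟩

lemma cl_dist (K L : ConvexBody E) : Cl K L (dist K L) :=
  ⟨.refl ℝ E, 0, fun z hz => by simpa using cb_near K L hz, fun y hy => by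
    simpa [norm_sub_rev y, dist_comm L] using cb_near L K hy⟩

lemma cl_of_cong (h : Cong X Y) : Cl (closure X) (closure Y) 0 := by
  obtain ⟨O, c, h⟩ := h
  have e : ∀ z, z ∈ closure X ↔ O z + c ∈ closure Y := fun z => by
    rw [show X = (mot O c).toHomeomorph ⁻¹' Y from Set.ext h, ← Homeomorph.preimage_closure]
    rfl
  exact ⟨O, c, fun z hz => ⟨_, (e z).1 hz, by simp⟩, fun y hy =>
    ⟨O.symm (y - c), (e _).2 (by simpa using hy), by simp⟩⟩

lemma cong_of_cl (hX : IsCompact X) (hY : IsCompact Y) (hn : X.Nonempty)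
    (h : ∀ m : ℕ, ∃ η < 1 / ((m : ℝ) + 1), Cl X Y η) : Cong X Y := by
  choose η hη O c h1 h2 using h
  obtain ⟨R, hR⟩ := (hX.union hY).isBounded.exists_norm_le
  obtain ⟨x0, hx0⟩ := hn
  have hc : ∀ m, c m ∈ Metric.closedBall (0 : E) (1 + R + R) := fun m => by
    obtain ⟨y, hy, k⟩ := h1 m x0 hx0
    have k1 : 1 / ((m : ℝ) + 1) ≤ 1 := by
      rw [div_le_one (by positivity)]; linarith [m.cast_nonneg (α := ℝ)]
    rw [mem_closedBall_zero_iff, show c m = O m x0 + c m - y + y - O m x0 by abel]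
    refine (norm_sub_le _ _).trans (add_le_add ((norm_add_le _ _).trans (add_le_add
      (by linarith [hη m]) (hR y (Or.inr hy)))) ?_)
    rw [(O m).norm_map]; exact hR _ (Or.inl hx0)
  obtain ⟨⟨T, d⟩, -, φ, p1, p2⟩ := ((isCompact_closedBall (0 : E →L[ℝ] E) 1).prod
    (isCompact_closedBall (0 : E) (1 + R + R))).tendsto_subseq
      (x := fun m => ((O m).toLinearIsometry.toContinuousLinearMap, c m)) fun m =>
        ⟨mem_closedBall_zero_iff.2 (LinearIsometry.norm_toContinuousLinearMap_le _), hc m⟩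
  have q1 : ∀ z, Tendsto (fun m => O (φ m) z) atTop (𝓝 (T z)) := fun z =>
    ((ContinuousLinearMap.apply ℝ E z).continuous.tendsto T).comp (continuous_fst.tendsto _ |>.comp p2)
  have q2 : Tendsto (fun m => c (φ m)) atTop (𝓝 d) := (continuous_snd.tendsto _).comp p2
  have q3 : Tendsto (fun m => 1 / ((φ m : ℝ) + 1)) atTop (𝓝 0) :=
    tendsto_one_div_add_atTop_nhds_zero_nat.comp p1.tendsto_atTop
  have hT : ∀ z, ‖T z‖ = ‖z‖ := fun z =>
    tendsto_nhds_unique (q1 z).norm (by simp)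
  refine ⟨LinearIsometry.toLinearIsometryEquiv ⟨T.toLinearMap, hT⟩ rfl, d, fun z => ?_⟩
  change z ∈ X ↔ T z + d ∈ Y
  have q4 : Tendsto (fun m => ‖T z + d - (O (φ m) z + c (φ m))‖ + 1 / ((φ m : ℝ) + 1)) atTop
      (𝓝 0) := by
    simpa using (((q1 z).add q2).const_sub (T z + d)).norm.add q3
  refine ⟨fun hz => hY.isClosed.closure_subset (Metric.mem_closure_iff.2 fun ε hε => ?_),
    fun hz => hX.isClosed.closure_subset (Metric.mem_closure_iff.2 fun ε hε => ?_)⟩ <;>
    obtain ⟨m, hm⟩ := (q4.eventually (gt_mem_nhds hε)).exists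
  · obtain ⟨y, hy, k⟩ := h1 (φ m) z hz
    refine ⟨y, hy, ?_⟩
    rw [dist_eq_norm]
    linarith [norm_sub_le_norm_sub_add_norm_sub (T z + d) (O (φ m) z + c (φ m)) y, hη (φ m)]
  · obtain ⟨x, hx, k⟩ := h2 (φ m) _ hz
    refine ⟨x, hx, ?_⟩
    rw [dist_eq_norm, ← (O (φ m)).norm_map, map_sub,
      ← add_sub_add_right_eq_sub _ _ (c (φ m)), norm_sub_rev]
    linarith [norm_sub_le_norm_sub_add_norm_sub (O (φ m) x + c (φ m)) (T z + d)
      (O (φ m) z + c (φ m)), hη (φ m)]

/-- Isospectral mates of a convergent sequence subconverge up to translations. -/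
lemma mates {K : ℕ → ConvexBody E} {K0 : ConvexBody E} (hK : Tendsto K atTop (𝓝 K0))
    (h0 : (interior (K0 : Set E)).Nonempty) (hi : ∀ n, (interior (K n : Set E)).Nonempty)
    {D : ℕ → Set E} (hD : ∀ n, Dom (D n)) (he : ∀ n, Iso (interior (K n : Set E)) (D n)) :
    ∃ L : ConvexBody E, (interior (L : Set E)).Nonempty ∧
      Iso (interior (K0 : Set E)) (interior (L : Set E)) ∧
      ∀ ε > 0, ∃ n, dist (K n) K0 < ε ∧ ∃ η < ε, Cl L (closure (D n)) η := by
  choose p hp using fun n => (hD n).ne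
  let G : ℕ → Set E := fun n => (fun z => z + p n) ⁻¹' D n
  have cg : ∀ n, Cong (G n) (D n) := fun n => ⟨.refl ℝ E, p n, fun z => Iff.rfl⟩
  have hG : ∀ n, Dom (G n) := fun n => ⟨(hD n).isOpen.preimage (by fun_prop),
    (hD n).conv.translate_preimage_left _,
    (IsometryEquiv.addRight (p n)).isometry.antilipschitz.isBounded_preimage (hD n).bdd,
    0, by simpa [G] using hp n⟩
  have ge : ∀ n, Iso (interior (K n : Set E)) (G n) := fun n k hk => by
    rw [he n k hk, (cg n).adm_eq]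
  obtain ⟨Λ, hΛ⟩ := ((ev_cont h0 one_pos).tendsto.comp hK).bddAbove_range
  obtain ⟨ρ, hρ⟩ := (Metric.isBounded_range_of_tendsto K hK).subset_closedBall K0
  obtain ⟨R, hR⟩ := K0.isBounded.exists_norm_le
  have Λ0 : 0 ≤ Λ := (ev_nn _ one_pos).trans (hΛ ⟨0, rfl⟩)
  obtain ⟨w, w0, hw⟩ : ∃ w : ℝ, 0 < w ∧ 4 * w ^ 2 * (Λ + 1) < 1 := by
    refine ⟨1 / (4 * (Λ + 1)), by positivity, ?_⟩
    rw [show 4 * (1 / (4 * (Λ + 1))) ^ 2 * (Λ + 1) = 1 / (4 * (Λ + 1)) by field_simp,
      div_lt_one (by positivity)]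
    linarith
  have wd : ∀ n, Wide (G n) w := fun n => by
    obtain ⟨r, r1, r2⟩ := exists_lt_of_csInf_lt (adm_one (hG n))
      (((ge n 1 one_pos).symm.le.trans (hΛ ⟨n, rfl⟩)).trans_lt (lt_add_one Λ))
    exact wide_of_adm (adm_mono r2.le r1) hw
  have bd : ∀ n, (cb (hG n) : Set E) ⊆
      Metric.closedBall 0 (2 * volume.real (Metric.closedBall (0 : E) (ρ + R)) / w) := fun n => by
    refine closure_minimal (fun z hz => ?_) Metric.isClosed_closedBall
    have a1 := (wd n).diam (hG n) (p := 0) (by simpa [G] using hp n) hz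
    rw [← area_eq (dom_int (hi n)) (hG n) (ge n), sub_zero] at a1
    have a2 : volume.real (interior (K n : Set E)) ≤
        volume.real (Metric.closedBall (0 : E) (ρ + R)) :=
      measureReal_mono (fun x hx => by
        obtain ⟨y, hy, k⟩ := cb_near (K n) K0 (interior_subset hx)
        rw [mem_closedBall_zero_iff]
        linarith [norm_le_norm_sub_add x y, hR y hy, Metric.mem_closedBall.1 (hρ ⟨n, rfl⟩)])
        Metric.isBounded_closedBall.measure_lt_top.ne
    rw [mem_closedBall_zero_iff, le_div_iff₀' w0]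
    linarith
  obtain ⟨L, φ, p1, p2⟩ := blaschke _ bd
  have hL : (interior (L : Set E)).Nonempty := by
    obtain ⟨n, hn⟩ := (Metric.tendsto_nhds.1 p2 _ (half_pos w0)).exists
    refine Wide.int (fun α c => ?_) (half_pos w0) L.convex
    obtain ⟨z, hz, k⟩ := wd (φ n) α c
    obtain ⟨y, hy, k1⟩ := cb_near (cb (hG (φ n))) L (subset_closure hz)
    refine ⟨y, hy, ?_⟩
    have k2 : |lin z α - lin y α| ≤ ‖z - y‖ := abs_le.2
      ⟨by linarith [lin_le (y - z) α, lin_vsub y z α, norm_sub_rev y z],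
        by linarith [lin_le (z - y) α, lin_vsub z y α]⟩
    linarith [abs_sub_le (lin z α) (lin y α) c, show dist (cb (hG (φ n))) L < w / 2 from hn]
  refine ⟨L, hL, fun k hk => tendsto_nhds_unique
    ((ev_cont h0 hk).tendsto.comp (hK.comp p1.tendsto_atTop))
    (((ev_cont hL hk).tendsto.comp p2).congr fun n => ?_), fun ε hε => ?_⟩
  · simp only [Function.comp, int_cb, ge _ k hk]
  · obtain ⟨n, a1, a2⟩ := ((Metric.tendsto_nhds.1 (hK.comp p1.tendsto_atTop) ε hε).and
      (Metric.tendsto_nhds.1 p2 ε hε)).exists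
    refine ⟨φ n, a1, _, ?_, (cl_dist L (cb (hG (φ n)))).trans (cl_of_cong (cg (φ n)))⟩
    rwa [add_zero, dist_comm]

/-- The convex bodies whose interior is spectrally determined among all convex domains form a
`G_δ` set in the Hausdorff metric. -/
theorem det_gd : IsGδ {K : ConvexBody E | (interior (K : Set E)).Nonempty ∧
    ∀ D, Dom D → Iso (interior (K : Set E)) D → Cong (interior (K : Set E)) D} := by
  let U : ℕ → Set (ConvexBody E) := fun m => {K | (interior (K : Set E)).Nonempty ∧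
    ∀ D, Dom D → Iso (interior (K : Set E)) D → ∃ η < 1 / ((m : ℝ) + 1), Cl K (closure D) η}
  have hU : ∀ m, IsOpen (U m) := fun m => by
    rw [← isClosed_compl_iff, ← isSeqClosed_iff_isClosed]
    intro K K0 h1 h2 ⟨h0, h3⟩
    obtain ⟨N, hN⟩ := eventually_atTop.1 (h2.eventually (int_ev h0))
    have hi : ∀ n, (interior (K (n + N) : Set E)).Nonempty := fun n => hN _ (by omega)
    have := fun n => not_forall.1 (not_and.1 (h1 (n + N)) (hi n))
    choose D hD using this
    simp only [not_forall, exists_prop] at hD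
    obtain ⟨L, l1, l2, l3⟩ := mates (h2.comp (tendsto_add_atTop_nat N)) h0 hi
      (fun n => (hD n).1) fun n => (hD n).2.1
    obtain ⟨η, e1, e2⟩ := h3 _ (dom_int l1) l2
    rw [cl_int l1] at e2
    obtain ⟨n, a1, θ, a2, a3⟩ := l3 _ (half_pos (sub_pos.2 e1))
    exact (hD n).2.2 ⟨_, by linarith [show dist (K (n + N)) K0 < _ from a1],
      ((cl_dist (K (n + N)) K0).trans e2).trans a3⟩
  refine (congrArg IsGδ (Set.ext fun K => ?_)).mpr (IsGδ.iInter_of_isOpen hU)
  simp only [mem_iInter, U, mem_ofPred_eq]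
  refine ⟨fun h m => ⟨h.1, fun D h1 h2 => ⟨0, by positivity, ?_⟩⟩,
    fun h => ⟨(h 0).1, fun D h1 h2 => ?_⟩⟩
  · simpa only [cl_int h.1] using cl_of_cong (h.2 D h1 h2)
  · simpa only [h1.int_cl] using (cong_of_cl K.isCompact h1.bdd.isCompact_closure K.nonempty
      fun m => (h m).2 D h1 h2).interior

end Pool.Agent.Lib.MP_c1b9d3_an
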