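import Pool.Agent.Lib.MP_c1b9d3_an.BDen

namespace Pool.Agent.Lib.MP_c1b9d3_an

open MeasureTheory Real Filter Topology Set Metric Pool.Agent.Lib.MP_2d4879_an

lemma adm_one {D : Set E} (hD : Dom D) : (adm D 1).Nonempty := by
  obtain ⟨x, hx⟩ := hD.ne
  obtain ⟨ε, ε0, hε⟩ := Metric.isOpen_iff.1 hD.isOpen x hx
  let f : ContDiffBump x := ⟨ε / 4, ε / 2, by positivity, by linarith⟩
  have h0 : (f : E → ℝ) ≠ 0 := fun h => by
    simpa [h] using f.one_of_mem_closedBall (mem_closedBall_self f.rIn_pos.le)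
  have hf : ContDiff ℝ 1 f := f.contDiff
  have hp := int_sq_pos hf.continuous f.hasCompactSupport h0
  refine ⟨(∫ x, ‖fderiv ℝ f x‖ ^ 2) / ∫ x, f x ^ 2, Submodule.span ℝ {(f : E → ℝ)},
    finrank_span_singleton h0, fun g hg => ?_⟩
  obtain ⟨c, rfl⟩ := Submodule.mem_span_singleton.1 hg
  refine ⟨hf.const_smul c, f.hasCompactSupport.smul_left (f := fun _ => c),
    (tsupport_smul_subset_right (fun _ => c) f).trans ?_, le_of_eq ?_⟩
  · rw [f.tsupport_eq]
    exact (closedBall_subset_ball (show ε / 2 < ε by linarith)).trans hε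
  · simp only [fderiv_const_smul_field, Pi.smul_apply, norm_smul, smul_eq_mul, mul_pow,
      integral_const_mul, Real.norm_eq_abs, sq_abs]
    field_simp

lemma poincare {D : Set E} {r w α : ℝ} {p : E} (hr : r ∈ adm D 1)
    (hw : ∀ z ∈ D, |lin (z - p) α| ≤ w) : 1 ≤ 4 * w ^ 2 * r := by
  obtain ⟨V, hV, hf⟩ := hr
  obtain ⟨f, hfV, h0⟩ := Submodule.exists_mem_ne_zero_of_ne_bot (p := V) (by
    rintro rfl; simp at hV)
  obtain ⟨h1, h2, h3, h4⟩ := hf f hfV
  have hp := int_sq_pos h1.continuous h2 h0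
  set v : E := !₂[cos α, sin α] with hv
  have nv : ‖v‖ = 1 := by rw [← sq_eq_sq₀ (norm_nonneg _) zero_le_one, nsq]; simp [hv]
  have cf := h1.continuous
  have cd := h1.continuous_fderiv one_ne_zero
  have dg : ∀ x, HasFDerivAt (fun z => lin (z - p) α) (innerSL ℝ v) x := fun x => by
    refine (((innerSL ℝ v).hasFDerivAt (x := x)).sub_const (lin p α)).congr_of_eventuallyEq
      (Eventually.of_forall fun z => ?_)
    simp only [lin_vsub, innerSL_apply_apply, inn]; simp [lin, hv]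
  have df : ∀ x, HasFDerivAt (fun z => f z * f z) (f x • fderiv ℝ f x + f x • fderiv ℝ f x) x :=
    fun x => (h1.differentiable one_ne_zero x).hasFDerivAt.mul
      (h1.differentiable one_ne_zero x).hasFDerivAt
  have cg : Continuous fun z => lin (z - p) α := (cont_lin α).comp (by fun_prop)
  have e1 : ∀ x, fderiv ℝ (fun z => lin (z - p) α) x v * (f x * f x) = f x ^ 2 := fun x => by
    rw [(dg x).fderiv, innerSL_apply_apply, real_inner_self_eq_norm_sq, nv]; ring
  have e2 : ∀ x, lin (x - p) α * fderiv ℝ (fun z => f z * f z) x v =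
      f x * (2 * lin (x - p) α * fderiv ℝ f x v) := fun x => by
    rw [(df x).fderiv]; simp; ring
  have i1 := int_sq_of_cs cf h2
  have i2 : Integrable fun x => f x * (2 * lin (x - p) α * fderiv ℝ f x v) :=
    Continuous.integrable_of_hasCompactSupport (by fun_prop) h2.mul_right
  have i3 : Integrable fun x => ‖fderiv ℝ f x‖ ^ 2 := int_sq_of_cs cd.norm (h2.fderiv ℝ).norm
  have k := integral_mul_fderiv_eq_neg_fderiv_mul_of_integrable (μ := volume) (v := v)
    (f := fun z => lin (z - p) α) (g := fun z => f z * f z) (by simpa only [e1] using i1)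
    (by simpa only [e2] using i2)
    (Continuous.integrable_of_hasCompactSupport (by fun_prop) h2.mul_right.mul_left)
    (fun x _ => (dg x).differentiableAt) fun x _ => (df x).differentiableAt
  simp only [e1, e2] at k
  have k2 := integral_mono i2.neg ((i1.div_const 2).add (i3.const_mul (2 * w ^ 2))) fun x => by
    simp only [Pi.neg_apply, Pi.add_apply]
    by_cases hx : x ∈ tsupport f
    · have a1 : lin (x - p) α ^ 2 ≤ w ^ 2 := sq_le_sq' (abs_le.1 (hw x (h3 hx))).1
        (abs_le.1 (hw x (h3 hx))).2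
      have a2 : fderiv ℝ f x v ^ 2 ≤ ‖fderiv ℝ f x‖ ^ 2 := by
        rw [← sq_abs]
        exact pow_le_pow_left₀ (abs_nonneg _) (by simpa [nv] using (fderiv ℝ f x).le_opNorm v) 2
      nlinarith [mul_le_mul a1 a2 (sq_nonneg _) (sq_nonneg _),
        sq_nonneg (f x + 2 * lin (x - p) α * fderiv ℝ f x v)]
    · rw [image_eq_zero_of_notMem_tsupport hx]; simp only [zero_mul, neg_zero]; positivity
  rw [integral_neg', integral_add' (i1.div_const 2) (i3.const_mul _), integral_div,
    integral_const_mul, k] at k2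
  refine le_of_mul_le_mul_right ?_ hp
  nlinarith [mul_le_mul_of_nonneg_left h4 (sq_nonneg w)]

lemma diam_bd {D : Set E} (hD : Dom D) {r A : ℝ} (hr : r ∈ adm D 1) (hA : volume.real D ≤ A)
    {p q : E} (hp : p ∈ D) (hq : q ∈ D) : ‖q - p‖ ≤ 4 * A * (r + 1) := by
  have r0 := adm_nonneg one_pos hr
  obtain ⟨β, h0, h1⟩ := exists_angle (q - p)
  obtain ⟨z, hz, h⟩ : ∃ z ∈ D, (2 * (r + 1))⁻¹ < |lin (z - p) (β + π / 2)| := by
    by_contra k
    push Not at k
    have := poincare hr k
    rw [inv_pow, mul_assoc, ← div_eq_inv_mul, ← mul_div_assoc, le_div_iff₀ (by positivity)] at this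
    nlinarith
  have e : det (q - p) (z - p) = ‖q - p‖ * lin (z - p) (β + π / 2) := by
    rw [det, h0, h1, lin, cos_add_pi_div_two, sin_add_pi_div_two]; ring
  have k : ∀ P Q : E, P ∈ D → Q ∈ D → det (Q - P) (z - Q) ≤ 2 * A := fun P Q hP hQ => by
    rcases le_or_gt (det (Q - P) (z - Q)) 0 with k | k
    · linarith [vol_pos hD]
    · linarith [vol_tri k, measureReal_mono (μ := volume) (tri_sub k hD.conv hP hQ hz)
        hD.bdd.measure_lt_top.ne]
  have k1 := k p q hp hq
  have k2 := k q p hq hp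
  have k3 : ‖q - p‖ * |lin (z - p) (β + π / 2)| ≤ 2 * A := by
    rw [← abs_of_nonneg (norm_nonneg (q - p)), ← abs_mul, ← e, abs_le]
    simp only [det, PiLp.sub_apply] at k1 k2 ⊢
    constructor <;> linarith
  have k4 := (mul_le_mul_of_nonneg_left h.le (norm_nonneg (q - p))).trans k3
  rw [← div_eq_mul_inv, div_le_iff₀ (by positivity)] at k4
  linarith

variable {K L : ConvexBody E}

lemma near_of_dist {η : ℝ} (h : dist K L < η) : (∀ z ∈ K, ∃ w ∈ L, ‖z - w‖ ≤ η) ∧
    ∀ z ∈ L, ∃ w ∈ K, ‖z - w‖ ≤ η :=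
  ⟨fun z hz => (exists_dist_lt_of_hausdorffDist_lt hz h ConvexBody.hausdorffEDist_ne_top).imp
    fun w k => ⟨k.1, (dist_eq_norm z w ▸ k.2).le⟩, fun z hz =>
      (exists_dist_lt_of_hausdorffDist_lt hz ((dist_comm L K).trans_lt h)
        ConvexBody.hausdorffEDist_ne_top).imp fun w k => ⟨k.1, (dist_eq_norm z w ▸ k.2).le⟩⟩

lemma ball_sub {x : E} {ρ η : ℝ} (hb : closedBall x (ρ + η) ⊆ K) (hη : 0 ≤ η)
    (h : ∀ z ∈ K, ∃ w ∈ L, ‖z - w‖ ≤ η) : closedBall x ρ ⊆ L := fun y hy =>
  mem_of_hs L.isCompact L.convex L.nonempty fun α => by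
    have nv : ‖(!₂[cos α, sin α] : E)‖ = 1 := by
      rw [← sq_eq_sq₀ (norm_nonneg _) zero_le_one, nsq]; simp
    obtain ⟨w, h1, h2⟩ := h (y + η • !₂[cos α, sin α]) (hb (by
      rw [mem_closedBall_iff_norm, add_sub_right_comm]
      refine (norm_add_le _ _).trans (add_le_add (mem_closedBall_iff_norm.1 hy) ?_)
      rw [norm_smul, nv, mul_one, Real.norm_of_nonneg hη]))
    have k := (lin_le _ α).trans h2
    rw [lin_vsub, lin_vadd, lin_smul, lin_unit, sub_self, cos_zero] at k
    linarith [le_hs L.isBounded h1 α]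

lemma dil {x : E} {ρ η : ℝ} (hρ : 0 < ρ) (hη : 0 < η) (hb : closedBall x ρ ⊆ K)
    (h : ∀ z ∈ L, ∃ w ∈ K, ‖z - w‖ ≤ η) {k : ℕ} {r : ℝ} (hr : r ∈ adm (interior (L : Set E)) k) :
    (1 + η / ρ) ^ 2 * r ∈ adm (interior (K : Set E)) k := by
  refine adm_transfer (by positivity) (-((η / ρ) • x)) (fun y hy => ?_) hr
  refine interior_maximal (t := {y | (1 + η / ρ) • y + -((η / ρ) • x) ∈ interior (L : Set E)})
    (fun y hy => ?_) (isOpen_interior.preimage (by fun_prop)) hy
  obtain ⟨w, h1, h2⟩ := h _ (interior_subset hy)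
  convert K.convex h1 (hb (a := x + (ρ / η) • ((1 + η / ρ) • y + -((η / ρ) • x) - w)) (by
    rw [mem_closedBall_iff_norm, add_sub_cancel_left, norm_smul, Real.norm_of_nonneg (by positivity),
      div_mul_eq_mul_div, div_le_iff₀ hη]
    gcongr)) (a := ρ / (ρ + η)) (b := η / (ρ + η)) (by positivity) (by positivity) (by field_simp)
    using 1
  ext i
  simp only [PiLp.add_apply, PiLp.smul_apply, PiLp.sub_apply, PiLp.neg_apply, smul_eq_mul]
  field_simp; ring

lemma exists_ball (h : (interior (K : Set E)).Nonempty) :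
    ∃ (x : E) (ρ : ℝ), 0 < ρ ∧ closedBall x (ρ + ρ) ⊆ K := by
  obtain ⟨x, hx⟩ := h
  obtain ⟨ε, ε0, hε⟩ := nhds_basis_closedBall.mem_iff.1 (mem_interior_iff_mem_nhds.1 hx)
  exact ⟨x, ε / 2, half_pos ε0, by rwa [add_halves]⟩

lemma dil2 {x : E} {ρ η : ℝ} (hη : 0 < η) (hρ : η ≤ ρ) (hb : closedBall x (ρ + ρ) ⊆ K)
    (h : dist K L < η) : closedBall x ρ ⊆ L ∧ ∀ k r,
      (r ∈ adm (interior (L : Set E)) k → (1 + η / ρ) ^ 2 * r ∈ adm (interior (K : Set E)) k) ∧
      (r ∈ adm (interior (K : Set E)) k → (1 + η / ρ) ^ 2 * r ∈ adm (interior (L : Set E)) k) := by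
  have h1 := ball_sub ((closedBall_subset_closedBall (add_le_add_right hρ ρ)).trans hb) hη.le
    (near_of_dist h).1
  exact ⟨h1, fun k r => ⟨dil (hη.trans_le hρ) hη ((closedBall_subset_closedBall (by linarith)).trans hb)
    (near_of_dist h).2, dil (hη.trans_le hρ) hη h1 (near_of_dist h).1⟩⟩

lemma inf_le {S T : Set ℝ} {c : ℝ} (hc : 0 < c) (hT : ∀ r ∈ T, 0 ≤ r) (h1 : ∀ r ∈ S, c * r ∈ T)
    (h2 : ∀ r ∈ T, c * r ∈ S) : sInf T ≤ c * sInf S := by
  rcases S.eq_empty_or_nonempty with rfl | h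
  · rw [eq_empty_of_forall_notMem h2]; simp
  · exact (div_le_iff₀' hc).1 (le_csInf h fun r hr => (div_le_iff₀' hc).2 (csInf_le ⟨0, hT⟩ (h1 r hr)))

lemma lam_cont (h : (interior (K : Set E)).Nonempty) {k : ℕ} (hk : 0 < k) :
    ContinuousAt (fun L : ConvexBody E => sInf (adm (interior (L : Set E)) k)) K := by
  obtain ⟨x, ρ, ρ0, hb⟩ := exists_ball h
  have key : ∀ a b : ℝ, a < b → ∃ c, 0 < c ∧ c * a < b ∧ ∀ᶠ L : ConvexBody E in 𝓝 K,
      sInf (adm (interior (K : Set E)) k) ≤ c * sInf (adm (interior (L : Set E)) k) ∧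
      sInf (adm (interior (L : Set E)) k) ≤ c * sInf (adm (interior (K : Set E)) k) := by
    intro a b hab
    have t : Tendsto (fun η : ℝ => (1 + η / ρ) ^ 2 * a) (𝓝[>] 0) (𝓝 a) :=
      tendsto_nhdsWithin_of_tendsto_nhds (Continuous.tendsto' (by fun_prop) _ _ (by simp))
    obtain ⟨η, h1, h2⟩ := ((t.eventually (gt_mem_nhds hab)).and (Ioo_mem_nhdsGT ρ0)).exists
    have η0 := h2.1
    refine ⟨_, by positivity, h1, ?_⟩
    filter_upwards [ball_mem_nhds K η0] with L hL
    have := (dil2 η0 h2.2.le hb (mem_ball'.1 hL)).2 k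
    exact ⟨inf_le (by positivity) (fun r => adm_nonneg hk) (fun r => (this r).1) fun r => (this r).2,
      inf_le (by positivity) (fun r => adm_nonneg hk) (fun r => (this r).2) fun r => (this r).1⟩
  refine tendsto_order.2 ⟨fun a ha => ?_, fun a ha => ?_⟩ <;>
    obtain ⟨c, c0, h1, h2⟩ := key _ _ ha <;> filter_upwards [h2] with L hL
  · exact lt_of_mul_lt_mul_left (h1.trans_le hL.1) c0.le
  · exact hL.2.trans_lt h1

lemma blaschke (L : ℕ → ConvexBody E) {R : ℝ} (h : ∀ j, (L j : Set E) ⊆ closedBall 0 R) :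
    ∃ (C : ConvexBody E) (φ : ℕ → ℕ), StrictMono φ ∧ Tendsto (L ∘ φ) atTop (𝓝 C) := by
  obtain ⟨C, -, φ, h1, h2⟩ := (TopologicalSpace.NonemptyCompacts.isCompact_subsets_of_isCompact
    (isCompact_closedBall (0 : E) R)).tendsto_subseq
      (x := fun j => ⟨⟨L j, (L j).isCompact⟩, (L j).nonempty⟩) h
  rw [tendsto_iff_dist_tendsto_zero] at h2
  refine ⟨⟨C, fun x hx y hy a b ha hb hab => ?_, C.isCompact, C.nonempty⟩, φ, h1,
    tendsto_iff_dist_tendsto_zero.2 h2⟩
  rw [← C.isCompact.isClosed.closure_eq, Metric.mem_closure_iff]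
  intro ε ε0
  obtain ⟨j, hj⟩ := (h2.eventually (gt_mem_nhds (half_pos ε0))).exists
  have fin := hausdorffEDist_ne_top_of_nonempty_of_bounded (L (φ j)).nonempty C.nonempty
    (L (φ j)).isBounded C.isCompact.isBounded
  obtain ⟨x', k1, k2⟩ := exists_dist_lt_of_hausdorffDist_lt' hx hj fin
  obtain ⟨y', k3, k4⟩ := exists_dist_lt_of_hausdorffDist_lt' hy hj fin
  obtain ⟨w, k5, k6⟩ := exists_dist_lt_of_hausdorffDist_lt ((L (φ j)).convex k1 k3 ha hb hab) hj fin
  refine ⟨w, k5, ?_⟩
  have k7 := dist_add_add_le (a • x') (b • y') (a • x) (b • y)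
  rw [dist_smul₀, dist_smul₀, Real.norm_of_nonneg ha, Real.norm_of_nonneg hb] at k7
  have : a * (ε / 2) + b * (ε / 2) = ε / 2 := by rw [← add_mul, hab, one_mul]
  linarith [dist_triangle_left (a • x + b • y) w (a • x' + b • y'),
    mul_le_mul_of_nonneg_left k2.le ha, mul_le_mul_of_nonneg_left k4.le hb]

lemma int_lim {L : ℕ → ConvexBody E} {C : ConvexBody E} (h : Tendsto L atTop (𝓝 C)) {a : ENNReal}
    (ha : 0 < a) (h1 : ∀ j, a ≤ volume (L j : Set E)) : (interior (C : Set E)).Nonempty := by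
  by_contra k
  have h2 := tendsto_measure_cthickening_of_isCompact (μ := volume) C.isCompact
  rw [measure_mono_null (show (C : Set E) ⊆ frontier C from
    fun z hz => ⟨subset_closure hz, fun k' => k ⟨z, k'⟩⟩) (C.convex.addHaar_frontier volume)] at h2
  obtain ⟨r, h3, h4⟩ := (((h2.mono_left (nhdsWithin_le_nhds (s := Ioi 0))).eventually
    (gt_mem_nhds ha)).and self_mem_nhdsWithin).exists
  obtain ⟨j, hj⟩ := (h.eventually (ball_mem_nhds C h4)).exists
  refine h3.not_ge ((h1 j).trans (measure_mono fun z hz => ?_))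
  obtain ⟨w, k1, k2⟩ := (near_of_dist hj).1 z hz
  exact mem_cthickening_of_dist_le z w r _ k1 (dist_eq_norm z w ▸ k2)

lemma dom_int (h : (interior (K : Set E)).Nonempty) : Dom (interior (K : Set E)) :=
  ⟨isOpen_interior, K.convex.interior, K.isBounded.subset interior_subset, h⟩

lemma cl_int (h : (interior (K : Set E)).Nonempty) : closure (interior (K : Set E)) = K :=
  (K.convex.closure_interior_eq_closure_of_nonempty_interior h).trans K.isClosed.closure_eq

/-- The closure of a convex domain as a convex body. -/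
def body {D : Set E} (hD : Dom D) : ConvexBody E :=
  ⟨closure D, hD.conv.closure, hD.bdd.isCompact_closure, hD.ne.closure⟩

/-- A moved convex body. -/
noncomputable def mv (O : E ≃ₗᵢ[ℝ] E) (c : E) (L : ConvexBody E) : ConvexBody E :=
  ⟨mot O c '' L, L.convex.affine_image (O.toLinearEquiv.toLinearMap.toAffineMap +
    AffineMap.const ℝ E c), L.isCompact.image (mot O c).continuous, L.nonempty.image _⟩

lemma cong_mv (O : E ≃ₗᵢ[ℝ] E) (c : E) (L : ConvexBody E) : Cong L (mv O c L) :=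
  ⟨O, c, fun _ => ((mot O c).injective.mem_set_image).symm⟩

lemma dist_mv (O : E ≃ₗᵢ[ℝ] E) (c : E) (K L : ConvexBody E) :
    dist (mv O c K) (mv O c L) = dist K L := hausdorffDist_image (mot O c).isometry

lemma mv_mv (O O' : E ≃ₗᵢ[ℝ] E) (c c' : E) (L : ConvexBody E) :
    mv O c (mv O' c' L) = mv (O'.trans O) (O c' + c) L := ConvexBody.ext (by
  change mot O c '' (mot O' c' '' _) = mot _ _ '' _
  rw [image_image]; congr 1; ext z; simp [mot_apply, add_assoc])

/-- Bodies all of whose isospectral mates have a congruent copy nearby. -/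
def UU (ε : ℝ) : Set (ConvexBody E) := {K | (interior (K : Set E)).Nonempty ∧
  ∀ L : ConvexBody E, (interior (L : Set E)).Nonempty → Iso (interior K) (interior L) →
    ∃ O c, dist (mv O c L) K < ε}

theorem isOpen_UU (ε : ℝ) : IsOpen (UU ε) := by
  rw [← isClosed_compl_iff, ← isSeqClosed_iff_isClosed]
  intro K' K hK' hK ⟨hi, hU⟩
  obtain ⟨x, ρ, ρ0, hb⟩ := exists_ball hi
  obtain ⟨N, hN⟩ := eventually_atTop.1 (hK.eventually (ball_mem_nhds K ρ0))
  obtain ⟨r, hr⟩ := adm_one (dom_int hi)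
  obtain ⟨R, hR⟩ := K.isBounded.exists_norm_le
  set A := volume.real (closedBall (0 : E) (R + ρ))
  have key : ∀ j, ∃ L : ConvexBody E, Iso (interior (K' (j + N))) (interior L) ∧
      (L : Set E) ⊆ closedBall 0 (4 * A * ((1 + ρ / ρ) ^ 2 * r + 1 + 1)) ∧
      volume (ball x ρ) ≤ volume (L : Set E) ∧ ∀ O c, ε ≤ dist (mv O c L) (K' (j + N)) := by
    intro j
    have d := mem_ball'.1 (hN (j + N) le_add_self)
    obtain ⟨h1, h2⟩ := dil2 ρ0 le_rfl hb d
    have h3 : ball x ρ ⊆ interior (K' (j + N) : Set E) :=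
      interior_maximal (ball_subset_closedBall.trans h1) isOpen_ball
    have hi' : (interior (K' (j + N) : Set E)).Nonempty := ⟨x, h3 (mem_ball_self ρ0)⟩
    have := hK' (j + N)
    simp only [UU, mem_compl_iff, mem_ofPred_eq, hi', true_and, not_forall, not_exists,
      not_lt] at this
    obtain ⟨L, l1, l2, l3⟩ := this
    have ar := area_eq (dom_int hi') (dom_int l1) l2
    obtain ⟨y, hy⟩ := id l1
    refine ⟨mv (.refl ℝ E) (-y) L, fun k hk => (l2 k hk).trans
      (by rw [(cong_mv _ _ L).interior.adm_eq]), ?_, ?_, fun O c => by rw [mv_mv]; exact l3 _ _⟩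
    · rintro _ ⟨z, hz, rfl⟩
      rw [← cl_int l1] at hz
      refine closure_minimal (t := mot (.refl ℝ E) (-y) ⁻¹' closedBall 0 _) (fun z hz => ?_)
        (isClosed_closedBall.preimage (mot _ _).continuous) hz
      refine mem_closedBall_zero_iff.2 ((le_of_eq (by simp [mot_apply, sub_eq_add_neg])).trans
        (diam_bd (dom_int l1) (adm_swap (dom_int hi') (dom_int l1) one_pos (l2 1 one_pos) one_pos
          ((h2 1 r).2 hr)) (ar ▸ measureReal_mono (fun z hz => ?_) measure_closedBall_lt_top.ne)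
            hy hz))
      obtain ⟨w, k1, k2⟩ := (near_of_dist d).2 z (interior_subset hz)
      rw [mem_closedBall_zero_iff]
      linarith [norm_le_insert' z w, hR w k1]
    · change _ ≤ volume ((fun z => z + -y) '' _)
      rw [image_add_right, measure_preimage_add_right]
      refine (measure_mono h3).trans (le_trans (le_of_eq ?_) (measure_mono interior_subset))
      exact (ENNReal.toReal_eq_toReal_iff' (dom_int hi').bdd.measure_lt_top.ne
        (dom_int l1).bdd.measure_lt_top.ne).1 ar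
  choose L l1 l2 l3 l4 using key
  obtain ⟨C, φ, h1, h2⟩ := blaschke L l2
  have hC := int_lim h2 (measure_ball_pos volume x ρ0) fun j => l3 _
  have t1 : Tendsto (fun j => K' (φ j + N)) atTop (𝓝 K) :=
    hK.comp ((tendsto_add_atTop_nat N).comp h1.tendsto_atTop)
  obtain ⟨O, c, h3⟩ := hU C hC fun k hk => tendsto_nhds_unique ((lam_cont hi hk).tendsto.comp t1)
    (((lam_cont hC hk).tendsto.comp h2).congr fun j => (l1 _ k hk).symm)
  have t2 := ((tendsto_iff_dist_tendsto_zero.1 h2).add_const (dist (mv O c C) K)).add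
    (tendsto_iff_dist_tendsto_zero.1 t1)
  rw [zero_add, add_zero] at t2
  obtain ⟨j, hj⟩ := (t2.eventually (gt_mem_nhds h3)).exists
  have := dist_triangle4 (mv O c (L (φ j))) (mv O c C) K (K' (φ j + N))
  rw [dist_mv, dist_comm K] at this
  exact (((l4 _ O c).trans this).trans_lt hj).false

lemma cong_of_near (h : ∀ m : ℕ, ∃ O c, dist (mv O c L) K < 1 / (m + 1 : ℝ)) :
    Cong (L : Set E) K := by
  choose O c h using h
  obtain ⟨R, R0, hR⟩ := L.isBounded.exists_pos_norm_le
  obtain ⟨R', hR'⟩ := K.isBounded.exists_norm_le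
  obtain ⟨x, hx⟩ := L.nonempty
  obtain ⟨⟨T, d⟩, -, φ, h1, h2⟩ := ((isCompact_closedBall (0 : E →L[ℝ] E) 1).prod
    (isCompact_closedBall (0 : E) (R' + 1 + R))).tendsto_subseq
      (x := fun m => ((O m : E →L[ℝ] E), c m)) fun m => ⟨mem_closedBall_zero_iff.2
        (O m).toLinearIsometry.norm_toContinuousLinearMap_le, mem_closedBall_zero_iff.2 (by
          obtain ⟨w, k1, k2⟩ := (near_of_dist (h m)).1 _ (mem_image_of_mem _ hx)
          have k3 : 1 / (m + 1 : ℝ) ≤ 1 := div_le_self zero_le_one (by simp)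
          have k4 := norm_sub_le (O m x + c m) (O m x)
          rw [add_sub_cancel_left, (O m).norm_map] at k4
          rw [mot_apply] at k2
          linarith [norm_le_insert' (O m x + c m) w, hR' w k1, hR x hx])⟩
  have t1 : Tendsto (fun j => (O (φ j) : E →L[ℝ] E)) atTop (𝓝 T) := h2.fst_nhds
  have t2 : Tendsto (fun j => c (φ j)) atTop (𝓝 d) := h2.snd_nhds
  let U : E ≃ₗᵢ[ℝ] E := LinearIsometry.toLinearIsometryEquiv ⟨T.toLinearMap, fun z =>
    tendsto_nhds_unique (((ContinuousLinearMap.apply ℝ E z).continuous.tendsto T).comp t1).norm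
      (by simp)⟩ rfl
  have t3 := (((tendsto_iff_norm_sub_tendsto_zero.1 t1).mul_const R).add
    (tendsto_iff_norm_sub_tendsto_zero.1 t2)).add
      (tendsto_one_div_add_atTop_nhds_zero_nat.comp h1.tendsto_atTop)
  simp only [zero_mul, add_zero] at t3
  have := ge_of_tendsto' t3 (b := dist (mv U d L) K) fun j => by
    have k : ∀ z ∈ L, dist (mot (O (φ j)) (c (φ j)) z) (mot U d z) ≤
        ‖(O (φ j) : E →L[ℝ] E) - T‖ * R + ‖c (φ j) - d‖ := fun z hz => by
      rw [dist_eq_norm, mot_apply, mot_apply, add_sub_add_comm]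
      exact (norm_add_le _ _).trans (add_le_add_left ((((O (φ j) : E →L[ℝ] E) - T).le_opNorm z).trans
        (mul_le_mul_of_nonneg_left (hR z hz) (norm_nonneg _))) _)
    refine (dist_triangle_left _ _ (mv (O (φ j)) (c (φ j)) L)).trans (add_le_add
      (hausdorffDist_le_of_mem_dist (by positivity) ?_ ?_) (h _).le) <;> rintro _ ⟨z, hz, rfl⟩
    · exact ⟨_, mem_image_of_mem _ hz, k z hz⟩
    · exact ⟨_, mem_image_of_mem _ hz, dist_comm (_ : E) _ ▸ k z hz⟩
  rw [← dist_le_zero.1 this]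
  exact cong_mv _ _ _

/-- Spectrally determined convex bodies. -/
def Det : Set (ConvexBody E) := {K | (interior (K : Set E)).Nonempty ∧
  ∀ D, Dom D → Iso (interior K) D → Cong (interior K) D}

theorem det_eq : Det = ⋂ m : ℕ, UU (1 / (m + 1 : ℝ)) := by
  ext K
  refine ⟨fun hK => mem_iInter.2 fun m => ⟨hK.1, fun L h1 h2 => ?_⟩,
    fun hK => ⟨(mem_iInter.1 hK 0).1, fun D hD h => ?_⟩⟩
  · obtain ⟨O, c, h⟩ := (hK.2 _ (dom_int h1) h2).symm
    refine ⟨O, c, lt_of_eq_of_lt (dist_eq_zero.2 (ConvexBody.ext ?_)) (by positivity)⟩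
    change (mot O c).toHomeomorph '' _ = _
    rw [← cl_int h1, ← cl_int hK.1, Homeomorph.image_closure,
      show interior (L : Set E) = (mot O c).toHomeomorph ⁻¹' interior K from Set.ext h,
      image_preimage_eq _ (mot O c).toHomeomorph.surjective]
  · have e : interior (body hD : Set E) = D := hD.int_cl
    exact e ▸ (cong_of_near (L := body hD) fun m => (mem_iInter.1 hK m).2 _ (e.symm ▸ hD.ne)
      (e.symm ▸ h)).interior.symm

theorem det_Gδ : IsGδ Det := det_eq ▸ IsGδ.iInter_of_isOpen fun _ => isOpen_UU _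

theorem det_dense (hM : Match) : Dense Det := Metric.dense_iff.2 fun K ε ε0 => by
  obtain ⟨P, hP, h1, h2⟩ := dense_det hM K.isBounded K.nonempty (half_pos ε0)
  have e : interior (body hP : Set E) = P := hP.int_cl
  refine ⟨body hP, lt_of_le_of_lt (hausdorffDist_le_of_mem_dist (half_pos ε0).le (fun z hz => ?_)
    fun z hz => ?_) (half_lt_self ε0), e.symm ▸ hP.ne, e.symm ▸ h2⟩ <;> simp only [dist_eq_norm]
  · exact near_of_hs K.isCompact K.convex K.nonempty (half_pos ε0).le fun α => by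
      linarith [le_closure (fun z hz => le_hs hP.bdd hz α) z hz, (abs_le.1 (h1 α)).2]
  · exact near_of_hs (body hP).isCompact (body hP).convex (body hP).nonempty (half_pos ε0).le
      fun α => by
        linarith [le_hs K.isBounded hz α, (abs_le.1 (h1 α)).1,
          hs_le hP.ne (fun z hz => le_hs (body hP).isBounded (subset_closure hz) α)]

lemma cong_of_image {A B : Set E} (φ : E ≃ᵢ E) (h : φ '' A = B) : Cong A B :=
  ⟨φ.toRealLinearIsometryEquiv, φ 0, fun z => by
    rw [IsometryEquiv.toRealLinearIsometryEquiv_apply, sub_add_cancel, ← h,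
      φ.injective.mem_set_image]⟩

end Pool.Agent.Lib.MP_c1b9d3_an
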