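import Pool.Agent.Lib.MP_c1b9d3_an.BRig

namespace Pool.Agent.Lib.MP_c1b9d3_an

open MeasureTheory Real Filter Topology Set Pool.Agent.Lib.MP_2d4879_an

lemma near_of_hs {K : Set E} (hK : IsCompact K) (hc : Convex ℝ K) (hn : K.Nonempty) {x : E}
    {η : ℝ} (hη : 0 ≤ η) (h : ∀ α, lin x α ≤ hs K α + η) : ∃ p ∈ K, ‖x - p‖ ≤ η := by
  obtain ⟨p, hp, h1⟩ := exists_norm_eq_iInf_of_complete_convex hn hK.isComplete hc x
  rw [norm_eq_iInf_iff_real_inner_le_zero hc hp] at h1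
  refine ⟨p, hp, ?_⟩
  obtain ⟨α, h0, h2⟩ := exists_angle (x - p)
  rcases (norm_nonneg (x - p)).eq_or_lt with e | e
  · linarith
  have k1 : hs K α ≤ lin p α := hs_le hn fun z hz => by
    have := h1 z hz
    rw [inn, h0, h2] at this
    have k : ‖x - p‖ * lin (z - p) α ≤ 0 := by rw [lin]; linarith
    have := nonpos_of_mul_nonpos_right k e
    rw [lin_vsub] at this; linarith
  have k2 : lin (x - p) α = ‖x - p‖ := by
    rw [lin, h0, h2]; linear_combination ‖x - p‖ * cos_sq_add_sin_sq α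
  rw [lin_vsub] at k2
  linarith [h α]

lemma mem_of_hs {K : Set E} (hK : IsCompact K) (hc : Convex ℝ K) (hn : K.Nonempty) {x : E}
    (h : ∀ α, lin x α ≤ hs K α) : x ∈ K := by
  obtain ⟨p, hp, h1⟩ := near_of_hs hK hc hn (x := x) le_rfl (by simpa using h)
  rwa [sub_eq_zero.1 (norm_le_zero_iff.1 h1)]

lemma cont_lin (α : ℝ) : Continuous fun z => lin z α := by unfold lin; fun_prop

lemma le_closure {X : Set E} {α c : ℝ} (h : ∀ z ∈ X, lin z α ≤ c) : ∀ z ∈ closure X, lin z α ≤ c :=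
  closure_minimal h (isClosed_le (cont_lin α) continuous_const)

lemma _root_.Pool.Agent.Lib.MP_2d4879_an.Dom.int_cl {D : Set E} (hD : Dom D) :
    interior (closure D) = D :=
  (hD.conv.interior_closure_eq_interior_of_nonempty_interior
    (hD.isOpen.interior_eq.symm ▸ hD.ne)).trans hD.isOpen.interior_eq

lemma fan_of {A : Set ℝ} (hp : ∀ α, α + 2 * π ∈ A ↔ α ∈ A) (hf : ∀ a b, (A ∩ Icc a b).Finite)
    (hn : A.Nonempty) : ∃ (n : ℕ) (φ : ℤ → ℝ), 0 < n ∧ StrictMono φ ∧ range φ = A ∧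
      ∀ i, φ (i + n) = φ i + 2 * π := by
  have : Nonempty A := hn.to_subtype
  have : NoMaxOrder A := ⟨fun a => ⟨⟨a + 2 * π, (hp _).2 a.2⟩, by
    simp only [← Subtype.coe_lt_coe]; linarith [pi_pos]⟩⟩
  have : NoMinOrder A := ⟨fun a => ⟨⟨a - 2 * π, (hp _).1 (by simp)⟩, by
    simp only [← Subtype.coe_lt_coe]; linarith [pi_pos]⟩⟩
  let _i1 : LocallyFiniteOrder A := LocallyFiniteOrder.ofFiniteIcc fun a b =>
    Finite.of_finite_image ((hf a b).subset (by
      rintro _ ⟨x, hx, rfl⟩; exact ⟨x.2, hx⟩)) Subtype.val_injective.injOn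
  let _i2 := LinearLocallyFiniteOrder.succOrder A
  let _i3 := LinearLocallyFiniteOrder.predOrder A
  let e : A ≃o ℤ := orderIsoIntOfLinearSuccPredArch
  have hm : StrictMono fun i => (e.symm i : ℝ) := fun i j h => e.symm.strictMono h
  have hr : range (fun i => (e.symm i : ℝ)) = A := by
    rw [show (fun i => (e.symm i : ℝ)) = Subtype.val ∘ e.symm from rfl,
      e.symm.surjective.range_comp, Subtype.range_coe]
  obtain ⟨k, hk⟩ := mono_shift (v := fun i => (e.symm i : ℝ) + 2 * π) hm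
    (fun i j h => by simpa using hm h) (by
      rw [hr]
      refine subset_antisymm (fun α h => ⟨e ⟨α - 2 * π, (hp _).1 (by simpa using h)⟩, by simp⟩) ?_
      rintro _ ⟨i, rfl⟩
      exact (hp _).2 (e.symm i).2)
  have k0 : 0 < k := by
    have := hm.lt_iff_lt.1 (show (e.symm 0 : ℝ) < e.symm (0 + k) by
      have := hk 0
      linarith [pi_pos])
    omega
  exact ⟨k.toNat, _, by omega, hm, hr, fun i => by rw [Int.toNat_of_nonneg k0.le]; exact hk i⟩

lemma fin_zero {z : E} (hz : z ≠ 0) (a b : ℝ) : ({α | lin z α = 0} ∩ Icc a b).Finite := by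
  obtain ⟨φ, h⟩ := lin_eq z
  refine ((finite_Icc ⌊(a - φ) / π - 1⌋ ⌈(b - φ) / π⌉).image
    fun k : ℤ => φ + (2 * k + 1) * π / 2).subset ?_
  rintro α ⟨h1, h2, h3⟩
  rw [mem_ofPred_eq, h, mul_eq_zero, norm_eq_zero, cos_eq_zero_iff] at h1
  obtain ⟨k, hk⟩ := h1.resolve_left hz
  have := pi_pos
  refine ⟨k, ⟨Int.floor_le_iff.2 ?_, Int.le_ceil_iff.2 ?_⟩, by linarith⟩
  · rw [sub_lt_iff_lt_add, div_lt_iff₀ this]; nlinarith
  · rw [lt_div_iff₀ this]; nlinarith

theorem poly_of_fin {D : Set E} (hD : Dom D) (hf : ((closure D).extremePoints ℝ).Finite) :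
    ∃ (g : GF) (c : ℤ → ℝ), g.Pd c ∧ (∀ i, 0 < g.ln c i) ∧ D = g.set c := by
  have hK := hD.bdd.isCompact_closure
  set V := (closure D).extremePoints ℝ
  let M : E → ℝ → Prop := fun v α => ∀ z ∈ closure D, lin z α ≤ lin v α
  have hV : ∀ α, ∃ v ∈ V, M v α := fun α => by
    obtain ⟨v, hv, h⟩ := V.exists_max_image (fun z => lin z α) hf
      (hK.extremePoints_nonempty hD.ne.closure)
    refine ⟨v, hv, fun z hz => ?_⟩
    rw [← closure_convexHull_extremePoints hK hD.conv.closure] at hz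
    exact le_closure (convexHull_min h (convex_aff _ _ _)) z hz
  have hT : ∀ v, IsClosed {α | M v α} := fun v => by
    simp only [M, ofPred_forall]
    exact isClosed_iInter fun z => isClosed_iInter fun _ => isClosed_le (by unfold lin; fun_prop)
      (by unfold lin; fun_prop)
  let A := {α | ∃ v ∈ V, ∃ w ∈ V, v ≠ w ∧ M v α ∧ M w α}
  have key : ∀ a b, a < b → (∀ α ∈ Ioo a b, α ∉ A) → ∃ v ∈ V, ∀ α ∈ Icc a b, M v α := by
    intro a b hab h
    obtain ⟨v, hv, h1⟩ := hV ((a + b) / 2)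
    refine ⟨v, hv, ?_⟩
    rw [← closure_Ioo hab.ne]
    refine closure_minimal (fun α hα => ?_) (hT v)
    by_contra k
    obtain ⟨w, hw, h2⟩ := hV α
    obtain ⟨β, h3, h4, h5⟩ := isPreconnected_closed_iff.1 (isPreconnected_Ioo (a := a) (b := b))
      {α | M v α} (⋃ w ∈ V \ {v}, {α | M w α}) (hT v)
      ((hf.subset sdiff_subset).isClosed_biUnion fun w _ => hT w) (fun β _ => by
        obtain ⟨w, hw, h2⟩ := hV β
        by_cases e : w = v
        · exact Or.inl (e ▸ h2)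
        · exact Or.inr (mem_biUnion (x := w) ⟨hw, e⟩ h2))
      ⟨_, ⟨by linarith, by linarith⟩, h1⟩
      ⟨α, hα, mem_biUnion (x := w) ⟨hw, fun e => k (e ▸ h2)⟩ h2⟩
    obtain ⟨u, hu, h6⟩ := mem_iUnion₂.1 h5
    exact h β h3 ⟨u, hu.1, v, hv, hu.2, h6, h4⟩
  have hM : ∀ v ∈ V, ∀ α, M v α → hs D α = lin v α := fun v hv α h =>
    le_antisymm (hs_le hD.ne fun z hz => h z (subset_closure hz))
      (le_closure (fun z hz => le_hs hD.bdd hz α) v (extremePoints_subset hv))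
  have nol : ∀ v ∈ V, ∀ α, M v α → ¬M v (α + π) := fun v hv α h1 h2 => by
    obtain ⟨z, hz⟩ := hD.ne
    have k1 := lt_hs hD.bdd hD.isOpen subset_rfl hz α
    have k2 := lt_hs hD.bdd hD.isOpen subset_rfl hz (α + π)
    rw [hM v hv _ h1] at k1
    rw [hM v hv _ h2, lin_pi, lin_pi] at k2
    linarith
  obtain ⟨n, φ, n0, hm, hr, hp⟩ := fan_of (A := A)
    (fun α => by simp only [A, M, mem_ofPred_eq, lin, cos_add_two_pi, sin_add_two_pi])
    (fun a b => ((hf.prod hf).subset (sdiff_subset (t := diagonal E))).biUnion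
      (fun x hx => fin_zero (z := x.1 - x.2) (sub_ne_zero.2 hx.2) a b) |>.subset (by
        rintro α ⟨⟨v, hv, w, hw, h1, h2, h3⟩, h4⟩
        refine mem_biUnion (x := (v, w)) ⟨⟨hv, hw⟩, h1⟩ ⟨?_, h4⟩
        rw [mem_ofPred_eq, lin_vsub, sub_eq_zero]
        exact le_antisymm (h3 v (extremePoints_subset hv)) (h2 w (extremePoints_subset hw))))
    (by
      by_contra k
      obtain ⟨v, hv, h⟩ := key 0 (0 + π) (by linarith [pi_pos]) fun α _ h => k ⟨α, h⟩
      exact nol v hv 0 (h _ ⟨le_rfl, by linarith [pi_pos]⟩) (h _ ⟨by linarith [pi_pos], le_rfl⟩))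
  choose v hv hv' using fun i => key (φ i) (φ (i + 1)) (hm (lt_add_one i)) fun α h1 h2 => by
    obtain ⟨j, rfl⟩ : α ∈ range φ := hr ▸ h2
    have k1 := hm.lt_iff_lt.1 h1.1
    have k2 := hm.lt_iff_lt.1 h1.2
    omega
  have l0 : ∀ i, M (v i) (φ i) := fun i => hv' i _ ⟨le_rfl, (hm (lt_add_one i)).le⟩
  have l1 : ∀ i, M (v i) (φ (i + 1)) := fun i => hv' i _ ⟨(hm (lt_add_one i)).le, le_rfl⟩
  let g : GF := ⟨n, φ, n0, hp, fun i => hm (lt_add_one i), fun i => not_le.1 fun k =>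
    nol _ (hv i) _ (l0 i) (hv' i _ ⟨by linarith [pi_pos], k⟩)⟩
  have pd : g.Pd fun i => hs D (g.φ i) := g.pd_of_per (sa_hs hD.bdd hD.ne).per
  refine ⟨g, _, pd, fun i => ?_, subset_antisymm
    (fun z hz i => lt_hs hD.bdd hD.isOpen subset_rfl hz _) ?_⟩
  · obtain ⟨w, hw, w', hw', h1, h2, h3⟩ : φ i ∈ A := hr ▸ mem_range_self i
    have s1 := g.sin_pos i
    have s2 := g.sin_pos (i + 1)
    have a0 := hM _ (hv (i - 1)) _ (l0 (i - 1))
    have a1 := hM _ (hv (i - 1)) _ (l1 (i - 1))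
    have a2 := hM _ (hv i) _ (l0 i)
    have a3 := hM _ (hv i) _ (l1 i)
    rw [sub_add_cancel] at a1
    have b0 := g.lin_pred (v (i - 1)) i
    have b1 := g.lin_succ (v i) i
    have e : g.ln (fun i => hs D (g.φ i)) i = rot (φ i) (v i) 0 - rot (φ i) (v (i - 1)) 0 := by
      simp only [GF.ln]
      rw [show hs D (g.φ (i - 1)) = _ from a0.trans b0, show hs D (g.φ (i + 1)) = _ from a3.trans b1,
        rot_1, rot_1, ← show hs D (g.φ i) = _ from a1, ← show hs D (g.φ i) = _ from a2]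
      field_simp; ring
    have k : ∀ w ∈ V, M w (φ i) → rot (φ i) (v (i - 1)) 0 ≤ rot (φ i) w 0 ∧
        rot (φ i) w 0 ≤ rot (φ i) (v i) 0 := fun w hw h => by
      have c0 := g.lin_pred w i
      have c1 := g.lin_succ w i
      have c2 := l0 (i - 1) w (extremePoints_subset hw)
      have c3 := l1 i w (extremePoints_subset hw)
      have c4 := hM w hw _ h
      simp only [rot_1] at b0 b1 c0 c1
      change lin _ (φ _) = _ * lin _ (φ _) - _ * rot (φ _) _ 0 at b0 c0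
      change lin _ (φ _) = _ * lin _ (φ _) + _ * rot (φ _) _ 0 at b1 c1
      rw [← a1] at b0
      rw [← a2] at b1
      rw [← c4] at c0 c1
      exact ⟨le_of_mul_le_mul_left (by linarith) s1, le_of_mul_le_mul_left (by linarith) s2⟩
    rw [e]
    by_contra k'
    refine h1 ((rot (φ i)).injective ?_)
    ext j
    fin_cases j
    · change rot (φ i) w 0 = rot (φ i) w' 0
      linarith [(k w hw h2).2, (k w' hw' h3).1, (k w hw h2).1, (k w' hw' h3).2]
    · exact (hM w hw _ h2).symm.trans (hM w' hw' _ h3)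
  · refine (interior_maximal (fun z hz => mem_of_hs hK hD.conv.closure hD.ne.closure fun α => ?_)
      (GF.isOpen_set pd)).trans hD.int_cl.le
    obtain ⟨i, p, q, p0, q0, -, -, -, -, -, h1, h2⟩ := g.comb α
    refine le_trans ?_ (le_hs hK.isBounded (extremePoints_subset (hv i)) α)
    have k1 := mul_le_mul_of_nonneg_left ((hz i).le.trans_eq (hM _ (hv i) _ (l0 i))) p0
    have k2 := mul_le_mul_of_nonneg_left ((hz (i + 1)).le.trans_eq (hM _ (hv i) _ (l1 i))) q0
    simp only [lin, h1, h2] at k1 k2 ⊢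
    change _ ≤ p * (cos (g.φ i) * _ + sin (g.φ i) * _) at k1
    change _ ≤ q * (cos (g.φ (i + 1)) * _ + sin (g.φ (i + 1)) * _) at k2
    linarith

end Pool.Agent.Lib.MP_c1b9d3_an
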