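import Pool.Agent.Lib.MP_c1b9d3_an.BArea

namespace Pool.Agent.Lib.MP_c1b9d3_an

open MeasureTheory Real Filter Topology Set Pool.Agent.Lib.MP_2d4879_an

lemma cos_quarter {x : ℝ} (h0 : 0 ≤ x) (h : x ≤ 1 / 4) : 31 / 32 ≤ cos x := by
  nlinarith [one_sub_sq_div_two_le_cos (x := x)]

namespace GF

variable {f : GF} {b c : ℤ → ℝ} {G : ℝ → ℝ}

lemma ln_eq (f : GF) (b : ℤ → ℝ) (i : ℤ) : f.ln b i * (sin (f.e i) * sin (f.e (i + 1))) =
    b (i - 1) * sin (f.e (i + 1)) + b (i + 1) * sin (f.e i) - b i * sin (f.e i + f.e (i + 1)) := by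
  have s1 := (f.sin_pos i).ne'
  have s2 := (f.sin_pos (i + 1)).ne'
  rw [ln, sin_add]; field_simp; ring

lemma φ_pred (f : GF) (i : ℤ) : f.φ (i - 1) = f.φ i - f.e i := by simp [e]

lemma φ_succ (f : GF) (i : ℤ) : f.φ (i + 1) = f.φ i + f.e (i + 1) := by simp [e]

lemma ln_sa_nonneg (f : GF) (hG : SA G) (h0 : ∀ α, 0 ≤ G α) (i : ℤ) :
    0 ≤ f.ln (fun i => G (f.φ i)) i := by
  have s1 := f.sin_pos i
  have s2 := f.sin_pos (i + 1)
  refine nonneg_of_mul_nonneg_left ?_ (mul_pos s1 s2)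
  rw [ln_eq]
  rcases lt_or_ge (f.e i + f.e (i + 1)) π with k | k
  · have s3 := sin_pos_of_pos_of_lt_pi (add_pos (f.e_pos i) (f.e_pos _)) k
    have := hG (f.φ (i - 1)) (f.φ (i + 1)) (f.φ i) (sin (f.e (i + 1)) / sin (f.e i + f.e (i + 1)))
      (sin (f.e i) / sin (f.e i + f.e (i + 1))) (by positivity) (by positivity)
      (by field_simp; rw [φ_pred, φ_succ, cos_add, cos_sub, sin_add]; ring)
      (by field_simp; rw [φ_pred, φ_succ, sin_add (f.φ i), sin_sub, sin_add]; ring)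
    rw [div_mul_eq_mul_div, div_mul_eq_mul_div, ← add_div, le_div_iff₀ s3] at this
    linarith
  · have s3 : 0 ≤ -sin (f.e i + f.e (i + 1)) := by
      rw [← sin_two_pi_sub]
      exact sin_nonneg_of_nonneg_of_le_pi (by linarith [f.e_lt i, f.e_lt (i + 1)]) (by linarith)
    nlinarith [mul_nonneg (h0 (f.φ (i - 1))) s2.le, mul_nonneg (h0 (f.φ (i + 1))) s1.le,
      mul_nonneg (h0 (f.φ i)) s3]

lemma ln_hy_nonneg (f : GF) {n : ℕ} (y : Fin n → E) (i : ℤ) : 0 ≤ f.ln (f.hy y) i :=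
  f.ln_sa_nonneg (sa_sa y) (sa_nonneg y) i

lemma vx_up (f : GF) (hG : SA G) (j : ℤ) {γ : ℝ} (h1 : f.φ (j + 1) ≤ γ) (h2 : γ < f.φ j + π) :
    lin (f.vx (fun i => G (f.φ i)) j) γ ≤ G γ := by
  have s1 := f.sin_pos (j + 1)
  have s2 : 0 < sin (γ - f.φ j) :=
    sin_pos_of_pos_of_lt_pi (by linarith [f.lt j]) (by linarith)
  have s3 : 0 ≤ sin (γ - f.φ (j + 1)) :=
    sin_nonneg_of_nonneg_of_le_pi (by linarith) (by linarith [f.lt j])
  have e1 : cos (f.φ (j + 1)) = sin (γ - f.φ (j + 1)) / sin (γ - f.φ j) * cos (f.φ j) +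
      sin (f.e (j + 1)) / sin (γ - f.φ j) * cos γ := by
    field_simp; rw [e_succ, sin_sub, sin_sub, sin_sub]; ring
  have e2 : sin (f.φ (j + 1)) = sin (γ - f.φ (j + 1)) / sin (γ - f.φ j) * sin (f.φ j) +
      sin (f.e (j + 1)) / sin (γ - f.φ j) * sin γ := by
    field_simp; rw [e_succ, sin_sub, sin_sub, sin_sub]; ring
  have k := hG _ _ _ _ _ (by positivity) (by positivity) e1 e2
  have k1 := f.lin_vx (fun i => G (f.φ i)) j
  have k2 := f.lin_vx' (fun i => G (f.φ i)) j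
  generalize f.vx (fun i => G (f.φ i)) j = V at *
  have k3 : lin V (f.φ (j + 1)) = sin (γ - f.φ (j + 1)) / sin (γ - f.φ j) * lin V (f.φ j) +
      sin (f.e (j + 1)) / sin (γ - f.φ j) * lin V γ := by
    rw [lin, e1, e2, lin, lin]; ring
  rw [k1, k2] at k3
  exact le_of_mul_le_mul_left (by linarith) (div_pos s1 s2)

lemma vx_down (f : GF) (hG : SA G) (j : ℤ) {γ : ℝ} (h1 : γ ≤ f.φ j) (h2 : f.φ (j + 1) < γ + π) :
    lin (f.vx (fun i => G (f.φ i)) j) γ ≤ G γ := by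
  have s1 := f.sin_pos (j + 1)
  have s2 : 0 < sin (f.φ (j + 1) - γ) :=
    sin_pos_of_pos_of_lt_pi (by linarith [f.lt j]) (by linarith)
  have s3 : 0 ≤ sin (f.φ j - γ) :=
    sin_nonneg_of_nonneg_of_le_pi (by linarith) (by linarith [f.lt j])
  have e1 : cos (f.φ j) = sin (f.φ j - γ) / sin (f.φ (j + 1) - γ) * cos (f.φ (j + 1)) +
      sin (f.e (j + 1)) / sin (f.φ (j + 1) - γ) * cos γ := by
    field_simp; rw [e_succ, sin_sub, sin_sub, sin_sub]; ring
  have e2 : sin (f.φ j) = sin (f.φ j - γ) / sin (f.φ (j + 1) - γ) * sin (f.φ (j + 1)) +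
      sin (f.e (j + 1)) / sin (f.φ (j + 1) - γ) * sin γ := by
    field_simp; rw [e_succ, sin_sub, sin_sub, sin_sub]; ring
  have k := hG _ _ _ _ _ (by positivity) (by positivity) e1 e2
  have k1 := f.lin_vx (fun i => G (f.φ i)) j
  have k2 := f.lin_vx' (fun i => G (f.φ i)) j
  generalize f.vx (fun i => G (f.φ i)) j = V at *
  have k3 : lin V (f.φ j) = sin (f.φ j - γ) / sin (f.φ (j + 1) - γ) * lin V (f.φ (j + 1)) +
      sin (f.e (j + 1)) / sin (f.φ (j + 1) - γ) * lin V γ := by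
    rw [lin, e1, e2, lin, lin]; ring
  rw [k1, k2] at k3
  exact le_of_mul_le_mul_left (by linarith) (div_pos s1 s2)

lemma lin_half (z : E) (α : ℝ) : lin z (α - π / 2) = -lin z (α + π / 2) := by
  rw [← lin_pi, show α + π / 2 + π = α - π / 2 + 2 * π by ring]
  simp only [lin, cos_add_two_pi, sin_add_two_pi]

lemma ln_sa_le (f : GF) (hG : SA G) (i : ℤ) (h1 : f.e i ≤ π / 2) (h2 : f.e (i + 1) ≤ π / 2) :
    f.ln (fun i => G (f.φ i)) i ≤ G (f.φ i + π / 2) + G (f.φ i - π / 2) := by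
  have k1 := f.vx_succ (fun i => G (f.φ i)) i (f.φ i + π / 2)
  have k2 := f.vx_up hG i (γ := f.φ i + π / 2) (by rw [φ_succ]; linarith) (by linarith [pi_pos])
  have k3 := f.vx_down hG (i - 1) (γ := f.φ i - π / 2) (by rw [φ_pred]; linarith)
    (by rw [sub_add_cancel]; linarith [pi_pos])
  rw [add_sub_cancel_left, sin_pi_div_two] at k1
  rw [lin_half] at k3
  linarith

lemma ln_hy_le (f : GF) {n : ℕ} (y : Fin n → E) (i : ℤ) (h1 : f.e i ≤ π / 2)
    (h2 : f.e (i + 1) ≤ π / 2) : f.ln (f.hy y) i ≤ sa y (f.φ i + π / 2) + sa y (f.φ i - π / 2) :=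
  f.ln_sa_le (sa_sa y) i h1 h2

lemma chain (f : GF) (hG : SA G) (he : ∀ i, f.e i ≤ 1 / 4) (i : ℤ) :
    f.ln (fun i => G (f.φ i)) (i - 1) * cos (f.e i) + f.ln (fun i => G (f.φ i)) i +
      f.ln (fun i => G (f.φ i)) (i + 1) * cos (f.e (i + 1)) ≤
        G (f.φ i + π / 2) + G (f.φ i - π / 2) := by
  have hp := pi_gt_three
  have k0 := f.vx_succ (fun i => G (f.φ i)) (i - 1) (f.φ i + π / 2)
  have k1 := f.vx_succ (fun i => G (f.φ i)) i (f.φ i + π / 2)
  have k1' := f.vx_succ (fun i => G (f.φ i)) (i + 1) (f.φ i + π / 2)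
  have k2 := f.vx_up hG (i + 1) (γ := f.φ i + π / 2)
    (by rw [φ_succ, φ_succ]; linarith [he (i + 1), he (i + 1 + 1)]) (by linarith [f.lt i])
  have k3 := f.vx_down hG (i - 1 - 1) (γ := f.φ i - π / 2)
    (by rw [φ_pred, φ_pred]; linarith [he i, he (i - 1)])
    (by rw [sub_add_cancel, φ_pred]; linarith [f.e_pos i])
  rw [add_sub_cancel_left, sin_pi_div_two] at k1
  rw [show f.φ i + π / 2 - f.φ (i - 1) = f.e i + π / 2 by rw [φ_pred]; ring, sin_add_pi_div_two] at k0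
  rw [show f.φ i + π / 2 - f.φ (i + 1) = π / 2 - f.e (i + 1) by rw [φ_succ]; ring,
    sin_pi_div_two_sub, add_sub_cancel_right] at k1'
  rw [lin_half] at k3
  linarith

lemma er_set (f : GF) (b : ℤ → ℝ) {n : ℕ} (y : Fin n → E) {s : ℝ} (hs : 0 ≤ s) :
    er (f.set b) s y = volume.real (f.set fun i => b i - s * f.hy y i) := by
  unfold er
  congr 1; ext a
  simp only [set, mem_ofPred_eq, hy, sa]
  rw [forall_comm]
  refine forall_congr' fun i => ?_
  rw [lt_sub_comm, sspf_lt y hs]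
  refine forall_congr' fun j => ?_
  rw [lin_vadd, lin_smul]
  unfold lin
  constructor <;> intro k <;> linarith

/-- Area of a polygon some of whose (isolated) formal sides are negative. -/
theorem area_neg (hb : f.Pd b) (he : ∀ i, f.e i ≤ 1 / 4)
    (h1 : ∀ i, 0 ≤ f.ln b i ∨ 0 ≤ f.ln b (i + 1))
    (h2 : ∀ i, 0 ≤ f.ln b i → max (-f.ln b (i - 1)) 0 + max (-f.ln b (i + 1)) 0 ≤ f.ln b i) :
    volume.real (f.set b) = f.B b b / 2 +
      ∑ i ∈ Finset.range f.n, cc (f.e i) (f.e (i + 1)) * max (-f.ln b i) 0 ^ 2 := by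
  have hp := pi_gt_three
  have s3 : ∀ i, 0 < sin (f.e i + f.e (i + 1)) := fun i =>
    sin_pos_of_pos_of_lt_pi (add_pos (f.e_pos i) (f.e_pos _)) (by linarith [he i, he (i + 1)])
  have sl : ∀ x y : ℝ, 0 < x → 0 < y → x ≤ 1 / 4 → y ≤ 1 / 4 → sin x ≤ sin (x + y) :=
    fun x y x0 y0 x1 y1 => sin_le_sin_of_le_of_le_pi_div_two (by linarith) (by linarith)
      (by linarith)
  set τ : ℤ → ℝ := fun i => 2 * cc (f.e i) (f.e (i + 1)) * max (-f.ln b i) 0 with hτ
  have c0 : ∀ i, 0 < cc (f.e i) (f.e (i + 1)) := fun i =>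
    div_pos (mul_pos (f.sin_pos _) (f.sin_pos _)) (mul_pos two_pos (s3 i))
  have τ0 : ∀ i, 0 ≤ τ i := fun i => mul_nonneg (by linarith [c0 i]) (le_max_right _ _)
  have τz : ∀ i, 0 ≤ f.ln b i → τ i = 0 := fun i h => by
    simp only [hτ]; rw [max_eq_right (by linarith), mul_zero]
  have pτ : f.Pd τ := fun i => by
    simp only [hτ]
    rw [show i + f.n + 1 = i + 1 + f.n by ring, f.e_per, f.e_per, hb.ln]
  have lτ : ∀ i, f.ln τ i = τ (i - 1) / sin (f.e i) + τ (i + 1) / sin (f.e (i + 1)) -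
      max (-f.ln b i) 0 := fun i => by
    have s1 := (f.sin_pos i).ne'
    have s2 := (f.sin_pos (i + 1)).ne'
    have s3 := (s3 i).ne'
    have : τ i * sin (f.e i + f.e (i + 1)) = sin (f.e i) * sin (f.e (i + 1)) * max (-f.ln b i) 0 := by
      simp only [hτ, cc]; field_simp
    apply mul_right_cancel₀ (mul_ne_zero s1 s2)
    rw [ln_eq, this]; field_simp
  have nb : ∀ i, f.ln b i < 0 → τ (i - 1) = 0 ∧ τ (i + 1) = 0 := fun i h =>
    ⟨τz _ ((h1 (i - 1)).resolve_right (by rw [sub_add_cancel]; exact not_le.2 h)),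
      τz _ ((h1 i).resolve_left (not_le.2 h))⟩
  have e1 : f.set (fun i => b i - 1 * τ i) = f.set b := by
    refine subset_antisymm (fun z hz i => (hz i).trans_le (by linarith [τ0 i])) fun z hz i => ?_
    rcases le_or_gt 0 (f.ln b i) with k | k
    · simpa [τz i k] using hz i
    · have k1 := f.ln_eq b i
      have k2 := f.ln_eq (fun i => lin z (f.φ i)) i
      have k3 : τ i * sin (f.e i + f.e (i + 1)) = -(f.ln b i * (sin (f.e i) * sin (f.e (i + 1)))) := by
        have s3 := (s3 i).ne'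
        simp only [hτ, cc]; rw [max_eq_left (by linarith)]; field_simp
      rw [ln_lin, zero_mul] at k2
      refine lt_of_mul_lt_mul_right ?_ (s3 i).le
      nlinarith [mul_lt_mul_of_pos_right (hz (i - 1)) (f.sin_pos (i + 1)),
        mul_lt_mul_of_pos_right (hz (i + 1)) (f.sin_pos i)]
  have e2 : ∀ i, 0 ≤ f.ln (fun i => b i - 1 * τ i) i := fun i => by
    rw [ln_sub, lτ]
    rcases le_or_gt 0 (f.ln b i) with k | k
    · have k1 : τ (i - 1) / sin (f.e i) ≤ max (-f.ln b (i - 1)) 0 := by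
        have t := s3 (i - 1)
        simp only [hτ, cc, sub_add_cancel] at t ⊢
        rw [div_le_iff₀ (f.sin_pos i), mul_comm (max _ _)]
        refine mul_le_mul_of_nonneg_right ?_ (le_max_right _ _)
        rw [← mul_div_assoc, div_le_iff₀ (by positivity)]
        nlinarith [mul_le_mul_of_nonneg_right (sl _ _ (f.e_pos (i - 1)) (f.e_pos i) (he _) (he _))
          (f.sin_pos i).le]
      have k2 : τ (i + 1) / sin (f.e (i + 1)) ≤ max (-f.ln b (i + 1)) 0 := by
        have t := s3 (i + 1)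
        simp only [hτ, cc]
        rw [div_le_iff₀ (f.sin_pos _), mul_comm (max _ _)]
        refine mul_le_mul_of_nonneg_right ?_ (le_max_right _ _)
        rw [← mul_div_assoc, div_le_iff₀ (by positivity)]
        have := sl _ _ (f.e_pos (i + 1 + 1)) (f.e_pos (i + 1)) (he _) (he _)
        rw [add_comm (f.e (i + 1 + 1))] at this
        nlinarith [mul_le_mul_of_nonneg_right this (f.sin_pos (i + 1)).le]
      rw [max_eq_right (a := -f.ln b i) (by linarith)]
      linarith [h2 i k]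
    · rw [(nb i k).1, (nb i k).2, max_eq_left (by linarith)]; simp
  rw [← e1, area (hb.sub pτ 1) e2, B_expand hb pτ]
  suffices H : ∑ i ∈ Finset.range f.n, cc (f.e i) (f.e (i + 1)) * max (-f.ln b i) 0 ^ 2 =
      f.B τ τ / 2 - f.B τ b by rw [H]; ring
  rw [B, B, Finset.sum_div, ← Finset.sum_sub_distrib]
  refine Finset.sum_congr rfl fun i _ => ?_
  rcases le_or_gt 0 (f.ln b i) with k | k
  · rw [τz i k, max_eq_right (by linarith)]; simp
  · rw [lτ, (nb i k).1, (nb i k).2]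
    simp only [hτ]
    rw [max_eq_left (by linarith)]; ring

end GF

theorem Fine.loc {f : GF} {b : ℤ → ℝ} (h : Fine f b) {μ : ℝ} (hl : ∀ i, μ ≤ f.ln b i) {n : ℕ}
    (y : Fin n → E) {s : ℝ} (hs : 0 ≤ s)
    (hW : ∀ i, s * (sa y (f.φ i + π / 2) + sa y (f.φ i - π / 2)) ≤ 3 / 2 * μ) :
    er (f.set b) s y = f.B (fun i => b i - s * f.hy y i) (fun i => b i - s * f.hy y i) / 2 +
      ∑ i ∈ Finset.range f.n, cc (f.e i) (f.e (i + 1)) *
        max (s * f.ln (f.hy y) i - f.ln b i) 0 ^ 2 := by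
  have l0 : ∀ i, 0 ≤ s * f.ln (f.hy y) i := fun i => mul_nonneg hs (f.ln_hy_nonneg y i)
  have ch : ∀ i, 31 / 32 * (s * f.ln (f.hy y) (i - 1)) + s * f.ln (f.hy y) i +
      31 / 32 * (s * f.ln (f.hy y) (i + 1)) ≤ 3 / 2 * μ := fun i => by
    have k := mul_le_mul_of_nonneg_left (f.chain (sa_sa y) h.ang i) hs
    have k1 := mul_le_mul_of_nonneg_left (cos_quarter (f.e_pos i).le (h.ang i)) (l0 (i - 1))
    have k2 := mul_le_mul_of_nonneg_left (cos_quarter (f.e_pos _).le (h.ang (i + 1))) (l0 (i + 1))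
    change s * (f.ln (f.hy y) (i - 1) * _ + f.ln (f.hy y) i + f.ln (f.hy y) (i + 1) * _) ≤ _ at k
    linarith [hW i]
  have μ0 : 0 ≤ μ := (fun i : ℤ => by linarith [ch i, l0 i, l0 (i - 1), l0 (i + 1)]) 0
  rw [f.er_set b y hs, GF.area_neg (h.pd.sub (f.pd_hy y) s) h.ang]
  · simp only [GF.ln_sub, neg_sub]
  · intro i
    simp only [GF.ln_sub]
    by_contra k
    push Not at k
    linarith [k.1, k.2, ch i, l0 (i - 1), hl i, hl (i + 1)]
  · intro i _
    simp only [GF.ln_sub, neg_sub] at *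
    have k1 := ch i
    have k2 := hl (i - 1)
    have k3 := hl i
    have k4 := hl (i + 1)
    have k5 := l0 (i - 1)
    have k6 := l0 i
    have k7 := l0 (i + 1)
    rcases le_total (s * f.ln (f.hy y) (i - 1) - f.ln b (i - 1)) 0 with a | a <;>
      rcases le_total (s * f.ln (f.hy y) (i + 1) - f.ln b (i + 1)) 0 with c | c <;>
      simp only [max_eq_left, max_eq_right, a, c] <;> linarith

end Pool.Agent.Lib.MP_c1b9d3_an
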