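import Pool.Agent.Lib.MP_c1b9d3_an.BLoc

namespace Pool.Agent.Lib.MP_c1b9d3_an

open MeasureTheory Real Filter Topology Set Pool.Agent.Lib.MP_2d4879_an

lemma mono_shift {u v : ℤ → ℝ} (hu : StrictMono u) (hv : StrictMono v) (h : range u = range v) :
    ∃ k, ∀ i, u (i + k) = v i := by
  have h1 : ∀ i, ∃ m, u m = v i := fun i => show v i ∈ range u from h ▸ mem_range_self i
  have h2 : ∀ i, ∃ m, v m = u i := fun i => show u i ∈ range v from h ▸ mem_range_self i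
  obtain ⟨k, hk⟩ := h1 0
  refine ⟨k, fun i => ?_⟩
  induction i using Int.induction_on with
  | zero => simpa using hk
  | succ i ih =>
    obtain ⟨m, hm⟩ := h1 (i + 1)
    obtain ⟨m', hm'⟩ := h2 (i + 1 + k)
    have k1 : (i : ℤ) + k < m := hu.lt_iff_lt.1 (by rw [ih, hm]; exact hv (by omega))
    have k2 : (i : ℤ) < m' := hv.lt_iff_lt.1 (by rw [← ih, hm']; exact hu (by omega))
    exact le_antisymm (hm ▸ hu.monotone (by omega)) (hm' ▸ hv.monotone (by omega))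
  | pred i ih =>
    obtain ⟨m, hm⟩ := h1 (-i - 1)
    obtain ⟨m', hm'⟩ := h2 (-i - 1 + k)
    have k1 : m < -(i : ℤ) + k := hu.lt_iff_lt.1 (by rw [ih, hm]; exact hv (by omega))
    have k2 : m' < -(i : ℤ) := hv.lt_iff_lt.1 (by rw [← ih, hm']; exact hu (by omega))
    exact le_antisymm (hm' ▸ hv.monotone (by omega)) (hm ▸ hu.monotone (by omega))

lemma odd_cycle {d : ℤ → ℝ} {n : ℕ} (hn : Odd n) (hp : ∀ i, d (i + n) = d i)
    (h1 : ∀ j, d j ≤ 0 → d (j + 1) ≤ 0 → d j = 0 ∧ d (j + 1) = 0)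
    (h2 : ∀ j, 0 ≤ d j → 0 ≤ d (j + 1) → d j = 0 ∧ d (j + 1) = 0) (j : ℤ) : d j = 0 := by
  by_contra h0
  have key : ∀ m : ℕ, 0 < (-1) ^ m * (d (j + m) * d j) := by
    intro m
    induction m with
    | zero => simpa using h0
    | succ m ih =>
      have hne : d (j + m) ≠ 0 := fun k => by simp [k] at ih
      have : d (j + m) * d (j + m + 1) < 0 := by
        rcases lt_or_gt_of_ne hne with a | a
        · exact mul_neg_of_neg_of_pos a (not_le.1 fun c => hne (h1 _ a.le c).1)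
        · exact mul_neg_of_pos_of_neg a (not_le.1 fun c => hne (h2 _ a.le c).1)
      rw [show j + (m + 1 : ℕ) = j + m + 1 by push_cast; ring, pow_succ]
      have h3 := mul_neg_of_pos_of_neg ih this
      have h4 : 0 < d (j + m) ^ 2 := by positivity
      refine pos_of_mul_pos_left (b := d (j + m) ^ 2) ?_ h4.le
      linarith
  have := key n
  rw [hp, hn.neg_one_pow] at this
  nlinarith [mul_self_nonneg (d j)]

namespace GF

variable {f g : GF} {b c w : ℤ → ℝ}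

lemma ln_zero (hw : f.Pd w) (h : ∀ i, f.ln w i = 0) : ∃ z, ∀ i, w i = lin z (f.φ i) := by
  refine ⟨f.vx w 0, fun i => le_antisymm ?_ (vx_le hw (fun i => (h i).ge) 0 i)⟩
  have := vertex_nonneg ((f.pd_lin (f.vx w 0)).sub hw 1) (fun i => by
    rw [ln_sub, ln_lin, h]; simp) (j := 0) (by rw [lin_vx]; ring) (by rw [lin_vx']; ring) i
  linarith

lemma closure_eq (hb : f.Pd b) (α : ℝ) :
    ∑ i ∈ Finset.range f.n, f.ln b i * sin (α - f.φ i) = 0 := by
  have h1 := B_symm (f.pd_lin !₂[sin α, -cos α]) hb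
  simp only [B, ln_lin, mul_zero, Finset.sum_const_zero] at h1
  rw [← h1]
  refine Finset.sum_congr rfl fun i _ => ?_
  simp only [lin, sin_sub, Matrix.cons_val_zero, Matrix.cons_val_one]; ring

lemma cong_shift (hn : g.n = f.n) (hb : f.Pd b) (hc : g.Pd c) {k : ℤ} {β : ℝ}
    (h : ∀ i, g.φ (i + k) = β + f.φ i) (hl : ∀ i, g.ln c (i + k) = f.ln b i) :
    Cong (f.set b) (g.set c) := by
  have he : ∀ i, g.e (i + k) = f.e i := fun i => by
    simp only [e]; rw [show i + k - 1 = i - 1 + k by ring, h, h]; ring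
  have hc' : f.Pd fun i => c (i + k) := fun i => by
    simp only [← hn, show i + g.n + k = i + k + g.n by ring, hc (i + k)]
  have hl' : ∀ i, f.ln (fun i => c (i + k)) i = g.ln c (i + k) := fun i => by
    simp only [ln, show i + k - 1 = i - 1 + k by ring, show i + k + 1 = i + 1 + k by ring, he]
  obtain ⟨z0, hz0⟩ := ln_zero (hc'.sub hb 1) fun i => by rw [ln_sub, hl', hl]; ring
  set O := ort (cos β) (-sin β) (sin β) (cos β) (by simp) (by simp) (by ring) with hO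
  have hO' : ∀ z α, lin (O z) (β + α) = lin z α := fun z α => by
    simp only [hO, lin, ort_0, ort_1, cos_add, sin_add]
    linear_combination (cos α * z 0 + sin α * z 1) * cos_sq_add_sin_sq β
  refine ⟨O, O z0, fun z => ?_⟩
  rw [← map_add]
  refine ⟨fun hz i => ?_, fun hz i => ?_⟩
  · have := hz (i - k)
    rw [← sub_add_cancel i k, h, hO', lin_vadd]
    linarith [hz0 (i - k)]
  · have := hz (i + k)
    rw [h, hO', lin_vadd] at this
    linarith [hz0 i]

lemma cong_rev (f : GF) (b : ℤ → ℝ) : Cong (f.set b) (f.rev.set fun i => b (-i)) := by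
  refine ⟨ort 1 0 0 (-1) (by simp) (by simp) (by simp), 0, fun z => ?_⟩
  have e : ∀ α, lin (ort 1 0 0 (-1) (by simp) (by simp) (by simp) z + 0) (-α) = lin z α :=
    fun α => by simp [lin, ort_0, ort_1]
  refine ⟨fun hz i => ?_, fun hz i => ?_⟩
  · simpa only [rev, e] using hz (-i)
  · simpa only [rev, e, neg_neg] using hz (-i)

lemma Pd.rev (hb : f.Pd b) : f.rev.Pd fun i => b (-i) := fun i => by
  have := hb (-(i + f.n))
  rw [show -(i + f.n) + f.n = -i by ring] at this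
  exact this.symm

lemma cong_of_angle (hn : g.n = f.n) (hb : f.Pd b) (hc : g.Pd c) {σ : ℤ → ℤ} {β : ℝ}
    (hs : ∀ j, ∃ i k, j = σ i + k * f.n) (h : ∀ i, ∃ m : ℤ, g.φ (σ i) = β + f.φ i + m * (2 * π))
    (hl : ∀ i, g.ln c (σ i) = f.ln b i) : Cong (f.set b) (g.set c) := by
  have h' : ∀ i, ∃ m : ℤ, g.φ (σ i + m * g.n) = β + f.φ i := fun i => by
    obtain ⟨m, hm⟩ := h i
    exact ⟨-m, by rw [φ_mul, hm]; push_cast; ring⟩
  obtain ⟨k, hk⟩ := mono_shift (u := g.φ) (v := fun i => β + f.φ i) g.mono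
    (fun _ _ k => by simpa using f.mono k) (by
      refine subset_antisymm ?_ ?_
      · rintro _ ⟨j, rfl⟩
        obtain ⟨i, k, rfl⟩ := hs j
        obtain ⟨m, hm⟩ := h i
        exact ⟨i + (k + m) * f.n, by simp only [φ_mul]; rw [← hn, φ_mul, hm]; push_cast; ring⟩
      · rintro _ ⟨i, rfl⟩
        obtain ⟨m, hm⟩ := h' i
        exact ⟨_, hm⟩)
  refine cong_shift hn hb hc hk fun i => ?_
  obtain ⟨m, hm⟩ := h' i
  rw [← g.mono.injective (hm.trans (hk i).symm), hc.ln.mul, hl]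

lemma orth (he : ∀ i, f.e i ≤ 1 / 4) {p q : E}
    (h : ∀ i, lin p (f.φ i) ^ 2 + lin q (f.φ i) ^ 2 = 1) :
    p 0 ^ 2 + q 0 ^ 2 = 1 ∧ p 1 ^ 2 + q 1 ^ 2 = 1 ∧ p 0 * p 1 + q 0 * q 1 = 0 := by
  have s1 := f.sin_pos 1
  have s2 := f.sin_pos (1 + 1)
  have s3 : 0 < sin (f.e 1 + f.e (1 + 1)) := sin_pos_of_pos_of_lt_pi
    (add_pos (f.e_pos _) (f.e_pos _)) ((add_le_add (he _) (he _)).trans_lt (by linarith [pi_gt_three]))
  have k : ∀ z : E, lin z (f.φ 1) * sin (f.e 1 + f.e (1 + 1)) =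
      lin z (f.φ (1 - 1)) * sin (f.e (1 + 1)) + lin z (f.φ (1 + 1)) * sin (f.e 1) := fun z => by
    have := f.ln_eq (fun i => lin z (f.φ i)) 1
    rw [ln_lin] at this; linarith
  have kc := k !₂[1, 0]
  have ks := k !₂[0, 1]
  have hd : sin (f.e 1 + f.e (1 + 1)) = sin (f.φ (1 + 1)) * cos (f.φ (1 - 1)) -
      cos (f.φ (1 + 1)) * sin (f.φ (1 - 1)) := by
    rw [← sin_sub]; congr 1; simp only [e, add_sub_cancel_right]; ring
  have h0 := h (1 - 1)
  have h1 := h 1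
  have h2 := h (1 + 1)
  have u0 := cos_sq_add_sin_sq (f.φ (1 - 1))
  have u1 := cos_sq_add_sin_sq (f.φ 1)
  have u2 := cos_sq_add_sin_sq (f.φ (1 + 1))
  simp only [lin, Matrix.cons_val_zero, Matrix.cons_val_one, mul_one, mul_zero, add_zero,
    zero_add] at kc ks h0 h1 h2
  generalize cos (f.φ (1 - 1)) = c0, sin (f.φ (1 - 1)) = t0, cos (f.φ 1) = c1, sin (f.φ 1) = t1,
    cos (f.φ (1 + 1)) = c2, sin (f.φ (1 + 1)) = t2, sin (f.e 1 + f.e (1 + 1)) = d,
    sin (f.e 1) = x, sin (f.e (1 + 1)) = y at *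
  set A := p 0 ^ 2 + q 0 ^ 2 - 1 with hA
  set C := p 1 ^ 2 + q 1 ^ 2 - 1 with hC
  set B := p 0 * p 1 + q 0 * q 1 with hB
  have q0 : A * c0 ^ 2 + 2 * B * (c0 * t0) + C * t0 ^ 2 = 0 := by
    rw [hA, hB, hC]; linear_combination h0 - u0
  have q1 : A * c1 ^ 2 + 2 * B * (c1 * t1) + C * t1 ^ 2 = 0 := by
    rw [hA, hB, hC]; linear_combination h1 - u1
  have q2 : A * c2 ^ 2 + 2 * B * (c2 * t2) + C * t2 ^ 2 = 0 := by
    rw [hA, hB, hC]; linear_combination h2 - u2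
  have q3 : A * (c0 * c2) + B * (c0 * t2 + t0 * c2) + C * (t0 * t2) = 0 := by
    refine mul_left_cancel₀ (mul_pos two_pos (mul_pos s1 s2)).ne' ?_
    have : A * (c1 * d) ^ 2 + 2 * B * ((c1 * d) * (t1 * d)) + C * (t1 * d) ^ 2 = 0 := by
      linear_combination d ^ 2 * q1
    rw [kc, ks] at this
    linear_combination this - y ^ 2 * q0 - x ^ 2 * q2
  have d2 : d ^ 2 ≠ 0 := by positivity
  refine ⟨sub_eq_zero.1 (mul_left_cancel₀ d2 ?_), sub_eq_zero.1 (mul_left_cancel₀ d2 ?_),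
    mul_left_cancel₀ d2 ?_⟩
  · rw [← hA, hd]; linear_combination t2 ^ 2 * q0 - 2 * t0 * t2 * q3 + t0 ^ 2 * q2
  · rw [← hC, hd]; linear_combination c2 ^ 2 * q0 - 2 * c0 * c2 * q3 + c0 ^ 2 * q2
  · rw [hd]; linear_combination -t2 * c2 * q0 + (t2 * c0 + t0 * c2) * q3 - t0 * c0 * q2

lemma angle_of {x y : ℝ} (h1 : cos x = cos y) (h2 : sin x = sin y) :
    ∃ m : ℤ, x = y + m * (2 * π) := by
  obtain ⟨m, hm⟩ := Angle.angle_eq_iff_two_pi_dvd_sub.1 (Angle.cos_sin_inj h1 h2)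
  exact ⟨m, by linarith⟩

lemma cong_of_lin (he : ∀ i, f.e i ≤ 1 / 4) (hn : g.n = f.n) (hb : f.Pd b) (hc : g.Pd c)
    {σ : ℤ → ℤ} (hs : ∀ j, ∃ i k, j = σ i + k * f.n) {p q : E}
    (hp : ∀ i, cos (g.φ (σ i)) = lin p (f.φ i)) (hq : ∀ i, sin (g.φ (σ i)) = lin q (f.φ i))
    (hl : ∀ i, g.ln c (σ i) = f.ln b i) : Cong (f.set b) (g.set c) := by
  obtain ⟨h1, h2, h3⟩ := orth he (p := p) (q := q) fun i => by
    rw [← hp, ← hq, cos_sq_add_sin_sq]
  obtain ⟨β, b0, b1⟩ := exists_angle !₂[p 0, q 0]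
  have hn1 : ‖(!₂[p 0, q 0] : E)‖ = 1 := by
    rw [← sq_eq_sq₀ (norm_nonneg _) zero_le_one, nsq]; simpa using h1
  simp only [hn1, one_mul, Matrix.cons_val_zero, Matrix.cons_val_one] at b0 b1
  set δ := p 0 * q 1 - q 0 * p 1 with hδ
  have e1 : p 1 = -δ * q 0 := by rw [hδ]; linear_combination p 0 * h3 - p 1 * h1
  have e2 : q 1 = δ * p 0 := by rw [hδ]; linear_combination q 0 * h3 - q 1 * h1
  have e3 : (δ - 1) * (δ + 1) = 0 := by
    rw [e1, e2] at h2; linear_combination h2 - δ ^ 2 * h1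
  rcases mul_eq_zero.1 e3 with k | k
  · refine cong_of_angle hn hb hc hs (β := β) (fun i => angle_of ?_ ?_) hl
    · rw [hp, cos_add, lin, e1, sub_eq_zero.1 k, b0, b1]; ring
    · rw [hq, sin_add, lin, e2, sub_eq_zero.1 k, b0, b1]; ring
  · refine (f.cong_rev b).trans (cong_of_angle (f := f.rev) hn hb.rev hc (σ := fun i => σ (-i))
      (β := β) (fun j => ?_) (fun i => angle_of ?_ ?_) fun i => by rw [rev_ln, hl])
    · obtain ⟨i, k, h⟩ := hs j
      exact ⟨-i, k, by rw [neg_neg]; exact h⟩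
    · rw [hp, cos_add, lin, e1, eq_neg_of_add_eq_zero_left k, b0, b1]; simp [rev]; ring
    · rw [hq, sin_add, lin, e2, eq_neg_of_add_eq_zero_left k, b0, b1]; simp [rev]; ring

lemma φ_eq (h : ∀ i, f.e i = g.e i) (i : ℤ) : f.φ i - f.φ 0 = g.φ i - g.φ 0 := by
  induction i using Int.induction_on with
  | zero => simp
  | succ i ih => rw [φ_succ, φ_succ, h]; linarith
  | pred i ih => rw [φ_pred, φ_pred, h]; linarith

/-- Side length as a linear functional. -/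
noncomputable def lnL (f : GF) (i : ℤ) : Module.Dual ℝ (ℤ → ℝ) where
  toFun b := f.ln b i
  map_add' b c := by simp only [ln, Pi.add_apply]; ring
  map_smul' a b := by simp only [ln, Pi.smul_apply, smul_eq_mul, RingHom.id_apply]; ring

/-- Periodic data as a subspace. -/
def pdS (f : GF) : Submodule ℝ (ℤ → ℝ) where
  carrier := {b | f.Pd b}
  add_mem' hb hc i := by simp only [Pi.add_apply, hb i, hc i]
  zero_mem' _ := rfl
  smul_mem' a b hb i := by simp only [Pi.smul_apply, hb i]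

lemma perturb (f : GF) {ι : Type} [Finite ι] (Λ : ι → Module.Dual ℝ (ℤ → ℝ))
    (h : ∀ k, ∃ v, f.Pd v ∧ Λ k v ≠ 0) (hb : f.Pd b) {η : ℝ} (hη : 0 < η) :
    ∃ b', f.Pd b' ∧ (∀ i, |b' i - b i| ≤ η) ∧ ∀ k, Λ k b' ≠ 0 := by
  obtain ⟨v, hv, hv'⟩ := Module.Dual.exists_forall_mem_ne_zero_of_forall_exists f.pdS Λ h
  obtain ⟨C, C0, hC⟩ := Pd.bdd (f := f) hv
  obtain ⟨t, ht, ht'⟩ := (Ioo_infinite (show 0 < η / (C + 1) by positivity)).exists_notMem_finite
    (finite_range fun k => -Λ k b / Λ k v)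
  refine ⟨b + t • v, f.pdS.add_mem hb (f.pdS.smul_mem t hv), fun i => ?_, fun k e => ht' ⟨k, ?_⟩⟩
  · simp only [Pi.add_apply, Pi.smul_apply, smul_eq_mul, add_sub_cancel_left, abs_mul,
      abs_of_pos ht.1]
    have := (lt_div_iff₀ (by positivity)).1 ht.2
    nlinarith [mul_le_mul_of_nonneg_left (hC i) ht.1.le, ht.1]
  · rw [map_add, map_smul, smul_eq_mul] at e
    rw [div_eq_iff (hv' k)]; linarith

lemma ln_ne (he : ∀ i, f.e i ≤ 1 / 4) {i k : ℕ} (hi : i < f.n) (hk : k < f.n) (hik : i ≠ k) :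
    ∃ v, f.Pd v ∧ f.ln v i ≠ f.ln v k := by
  classical
  have h3 := f.three_le
  refine ⟨fun j => if (f.n : ℤ) ∣ j - i then 1 else 0, fun j => ?_, ne_of_lt ?_⟩
  · simp only [show j + f.n - i = j - i + f.n by ring, dvd_add_self_right]
  have n1 : ¬(f.n : ℤ) ∣ i - 1 - i := fun h => by
    have := Int.le_of_dvd one_pos (by simpa using h); omega
  have n2 : ¬(f.n : ℤ) ∣ i + 1 - i := fun h => by
    have := Int.le_of_dvd one_pos (by simpa using h); omega
  have n3 : ¬(f.n : ℤ) ∣ k - i := fun h => by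
    have := Int.eq_zero_of_abs_lt_dvd h (by rw [abs_lt]; omega); omega
  simp only [ln, n1, n2, n3, if_false, sub_self, dvd_zero, if_true, mul_one, mul_zero, sub_zero]
  have c1 := cos_quarter (f.e_pos i).le (he i)
  have c2 := cos_quarter (f.e_pos (i + 1)).le (he _)
  refine lt_of_lt_of_le (add_neg (div_neg_of_neg_of_pos (by linarith) (f.sin_pos _))
    (div_neg_of_neg_of_pos (by linarith) (f.sin_pos _))) (add_nonneg
      (div_nonneg ?_ (f.sin_pos _).le) (div_nonneg ?_ (f.sin_pos _).le)) <;>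
    split_ifs <;> norm_num

end GF

theorem generic (hM : Match) (f : GF) (hodd : Odd f.n) (he : ∀ i, f.e i ≤ 1 / 4) {b0 : ℤ → ℝ}
    (hb0 : f.Pd b0) {η : ℝ} (hη : 0 < η) : ∃ b, f.Pd b ∧ (∀ i, |b i - b0 i| ≤ η) ∧
      ((∀ i, 0 < f.ln b i) → (∀ i j, f.ln b i ≤ 11 / 10 * f.ln b j) → ∀ g c, Fine g c →
        Iso (f.set b) (g.set c) →
        ∑ i ∈ Finset.range f.n, f.ln b i = ∑ j ∈ Finset.range g.n, g.ln c j →
        Cong (f.set b) (g.set c)) := by
  classical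
  obtain ⟨R, hR, hM⟩ := hM
  let Cand : (Fin f.n → Fin f.n) → GF → Prop := fun σ g => g.n = f.n ∧ (∀ j, g.e j ≤ 1 / 4) ∧
    Function.Surjective σ ∧ ∀ i : Fin f.n, R (f.e i) (f.e (i + 1)) (g.e (σ i)) (g.e (σ i + 1))
  have uniq : ∀ σ g g', Cand σ g → Cand σ g' → ∀ j, g.e j = g'.e j := by
    rintro σ g g' ⟨n1, a1, s1, r1⟩ ⟨n2, a2, -, r2⟩ j
    have p1 : f.Pd g.e := fun i => by rw [← n1]; exact g.e_per i
    have p2 : f.Pd g'.e := fun i => by rw [← n2]; exact g'.e_per i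
    have rep : ∀ j : ℤ, ∃ p q, R p q (g.e j) (g.e (j + 1)) ∧ R p q (g'.e j) (g'.e (j + 1)) := by
      intro j
      obtain ⟨m, hm, k, rfl⟩ := f.exists_rep 0 j
      obtain ⟨i, hi⟩ := s1 ⟨m, hm⟩
      refine ⟨f.e i, f.e (i + 1), ?_, ?_⟩
      · rw [show (0 : ℤ) + m + k * f.n + 1 = m + 1 + k * f.n by ring, zero_add, p1.mul, p1.mul]
        simpa [hi] using r1 i
      · rw [show (0 : ℤ) + m + k * f.n + 1 = m + 1 + k * f.n by ring, zero_add, p2.mul, p2.mul]
        simpa [hi] using r2 i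
    refine sub_eq_zero.1 (odd_cycle (d := fun j => g.e j - g'.e j) hodd (fun i => ?_)
      (fun j h1 h2 => ?_) (fun j h1 h2 => ?_) j)
    · simp only [p1 i, p2 i]
    · obtain ⟨p, q, k1, k2⟩ := rep j
      have := hR _ _ _ _ _ _ k1 k2 (g.e_pos _) (g.e_pos _) (a2 _) (a2 _) (by linarith) (by linarith)
      exact ⟨sub_eq_zero.2 this.1, sub_eq_zero.2 this.2⟩
    · obtain ⟨p, q, k1, k2⟩ := rep j
      have := hR _ _ _ _ _ _ k2 k1 (g'.e_pos _) (g'.e_pos _) (a1 _) (a1 _) (by linarith) (by linarith)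
      exact ⟨sub_eq_zero.2 this.1.symm, sub_eq_zero.2 this.2.symm⟩
  let G : (Fin f.n → Fin f.n) → GF := fun σ => if h : ∃ g, Cand σ g then h.choose else f
  let Λ : (Fin f.n → Fin f.n) × Bool → Module.Dual ℝ (ℤ → ℝ) := fun x =>
    ∑ i : Fin f.n, sin ((if x.2 then π / 2 else 0) - ((G x.1).φ (x.1 i) - (G x.1).φ 0)) • f.lnL i
  obtain ⟨b, hb, hb1, hb2⟩ := f.perturb
    (ι := {x : Fin f.n × Fin f.n // x.1 ≠ x.2} ⊕ {x // ∃ v, f.Pd v ∧ Λ x v ≠ 0})
    (Sum.elim (fun x => f.lnL x.1.1 - f.lnL x.1.2) fun x => Λ x.1) (by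
      rintro (x | x)
      · obtain ⟨v, h1, h2⟩ := GF.ln_ne he x.1.1.2 x.1.2.2 fun k => x.2 (Fin.ext k)
        exact ⟨v, h1, sub_ne_zero.2 h2⟩
      · exact x.2) hb0 hη
  refine ⟨b, hb, hb1, fun hl hr g c hg hiso hper => ?_⟩
  have hinj : ∀ i j : ℕ, i < f.n → j < f.n → f.ln b i = f.ln b j → i = j := fun i j hi hj h => by
    by_contra k
    exact hb2 (Sum.inl ⟨(⟨i, hi⟩, ⟨j, hj⟩), fun e => k (Fin.ext_iff.1 e)⟩) (sub_eq_zero.2 h)
  choose! τ t1 t2 t3 using hM f g b c ⟨hb, he, hl⟩ hg hiso hr hinj hper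
  have τinj : InjOn τ (Finset.range f.n) := fun i hi j hj h => by
    simp only [Finset.coe_range, mem_Iio] at hi hj
    exact hinj i j hi hj (by rw [← t2 i hi, ← t2 j hj, h])
  have himg : (Finset.range f.n).image τ = Finset.range g.n := by
    have hsub : (Finset.range f.n).image τ ⊆ Finset.range g.n :=
      Finset.image_subset_iff.2 fun i hi => Finset.mem_range.2 (t1 i (Finset.mem_range.1 hi))
    by_contra hne
    obtain ⟨j, j1, j2⟩ := Finset.exists_of_ssubset (Finset.ssubset_iff_subset_ne.2 ⟨hsub, hne⟩)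
    have := Finset.sum_lt_sum_of_subset hsub j1 j2 (hg.pos j) fun j _ _ => (hg.pos j).le
    rw [Finset.sum_image τinj, ← hper, Finset.sum_congr rfl fun i hi =>
      t2 i (Finset.mem_range.1 hi)] at this
    exact lt_irrefl _ this
  have hn : g.n = f.n := by
    simpa [Finset.card_image_of_injOn τinj] using (congrArg Finset.card himg).symm
  let σ : Fin f.n → Fin f.n := fun i => ⟨τ i, lt_of_lt_of_eq (t1 i i.2) hn⟩
  have σs : Function.Surjective σ := fun j => by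
    obtain ⟨i, hi, e⟩ := Finset.mem_image.1 (by rw [himg, Finset.mem_range, hn]; exact j.2 :
      (j : ℕ) ∈ (Finset.range f.n).image τ)
    exact ⟨⟨i, Finset.mem_range.1 hi⟩, Fin.ext e⟩
  have hc : Cand σ g := ⟨hn, hg.ang, σs, fun i => t3 i i.2⟩
  have hG : ∀ j, (G σ).φ j - (G σ).φ 0 = g.φ j - g.φ 0 := GF.φ_eq (uniq σ _ _ (by
    simp only [G, dif_pos (⟨g, hc⟩ : ∃ g, Cand σ g)]
    exact Exists.choose_spec (⟨g, hc⟩ : ∃ g, Cand σ g)) hc)
  have Λe : ∀ (u : Bool) v, Λ (σ, u) v = ∑ i ∈ Finset.range f.n,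
      f.ln v i * sin ((if u then π / 2 else 0) + g.φ 0 - g.φ (τ i)) := fun u v => by
    simp only [Λ, hG, LinearMap.coe_sum, Finset.sum_apply, LinearMap.smul_apply, smul_eq_mul]
    rw [← Fin.sum_univ_eq_sum_range (fun i : ℕ => f.ln v i *
      sin ((if u then π / 2 else 0) + g.φ 0 - g.φ (τ i)))]
    refine Finset.sum_congr rfl fun i _ => ?_
    rw [mul_comm]; congr 2; ring
  have Λ0 : ∀ (u : Bool) v, f.Pd v → Λ (σ, u) v = 0 := fun u v hv => by
    by_contra k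
    refine hb2 (Sum.inr ⟨(σ, u), v, hv, k⟩) ?_
    change Λ (σ, u) b = 0
    have := GF.closure_eq hg.pd ((if u then π / 2 else 0) + g.φ 0)
    rw [← himg, Finset.sum_image τinj] at this
    rw [Λe]
    exact Eq.trans (Finset.sum_congr rfl fun i hi => by rw [t2 i (Finset.mem_range.1 hi)]) this
  have n0 : (0 : ℤ) < f.n := by exact_mod_cast f.npos
  let s : ℤ → ℤ := fun i => τ (i % f.n).toNat
  have sp : ∀ i, s (i + f.n) = s i := fun i => by simp [s]
  have sn : ∀ i : ℕ, i < f.n → s i = τ i := fun i hi => by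
    simp only [s]; rw [Int.emod_eq_of_lt (by omega) (by omega), Int.toNat_natCast]
  have lin1 : ∀ α, ∃ z, ∀ i, sin (α - g.φ (s i)) = lin z (f.φ i) := fun α => by
    have hw : f.Pd fun i => sin (α - g.φ (s i)) := fun i => by simp only [sp]
    refine GF.ln_zero hw fun i => ?_
    have h1 := GF.B_symm hw hw.ln
    have h2 : f.B (fun i => sin (α - g.φ (s i))) (f.ln fun i => sin (α - g.φ (s i))) = 0 := by
      have k1 := Λ0 true _ hw.ln
      have k2 := Λ0 false _ hw.ln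
      rw [Λe] at k1 k2
      simp only [if_true, Bool.false_eq_true, if_false] at k1 k2
      rw [GF.B, ← add_zero (0 : ℝ)]
      nth_rewrite 1 [← mul_zero (sin (α - g.φ 0)), ← k1]
      rw [← mul_zero (cos (α - g.φ 0)), ← k2, Finset.mul_sum, Finset.mul_sum,
        ← Finset.sum_add_distrib]
      refine Finset.sum_congr rfl fun i hi => ?_
      rw [sn i (Finset.mem_range.1 hi), add_sub_assoc, add_comm (π / 2), sin_add_pi_div_two,
        zero_add, show α - g.φ (τ i) = α - g.φ 0 + (g.φ 0 - g.φ (τ i)) by ring, sin_add]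
      ring
    rw [h2, GF.B, eq_comm, Finset.sum_eq_zero_iff_of_nonneg fun _ _ => mul_self_nonneg _] at h1
    obtain ⟨m, hm, k, rfl⟩ := f.exists_rep 0 i
    rw [hw.ln.mul, zero_add]
    exact mul_self_eq_zero.1 (h1 m (Finset.mem_range.2 hm))
  obtain ⟨p, hp⟩ := lin1 (π / 2)
  obtain ⟨q, hq⟩ := lin1 π
  refine GF.cong_of_lin he hn hb hg.pd (σ := s) (fun j => ?_) (p := p) (q := q)
    (fun i => by rw [← hp, sin_pi_div_two_sub]) (fun i => by rw [← hq, sin_pi_sub]) fun i => ?_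
  · obtain ⟨m, hm, k, rfl⟩ := f.exists_rep 0 j
    obtain ⟨i, hi⟩ := σs ⟨m, hm⟩
    exact ⟨i, k, by rw [sn i i.2, show τ i = m from Fin.ext_iff.1 hi, zero_add]⟩
  · obtain ⟨m, hm, k, rfl⟩ := f.exists_rep 0 i
    have : f.Pd fun i => g.ln c (s i) := fun i => by simp only [sp]
    refine (this.mul _ _).trans ?_
    simp only [zero_add]
    rw [hb.ln.mul, sn m hm, t2 m hm]

end Pool.Agent.Lib.MP_c1b9d3_an
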