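import Pool.Agent.Lib.MP_c1b9d3_an.BHull

namespace Pool.Agent.Lib.MP_c1b9d3_an

open MeasureTheory Real Filter Topology Set Pool.Agent.Lib.MP_2d4879_an
open scoped ENNReal

/-- Points that stay in `K` after a horizontal shift. -/
def XS (K : Set E) (σ : ℝ) : Set E := {a | a ∈ K ∧ a + σ • (!₂[1, 0] : E) ∈ K}

/-- Heights of the horizontal chords of length at least `σ`. -/
def IS (K : Set E) (σ : ℝ) : Set ℝ := (fun a => a 1) '' XS K σ

variable {K : Set E}

lemma XS_cpt (hK : IsCompact K) (σ : ℝ) : IsCompact (XS K σ) :=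
  hK.inter_right (hK.isClosed.preimage (f := fun a => a + σ • (!₂[1, 0] : E)) (by fun_prop))

lemma XS_comb (hc : Convex ℝ K) {σ σ' l m : ℝ} {a b : E} (ha : a ∈ XS K σ) (hb : b ∈ XS K σ')
    (hl : 0 ≤ l) (hm : 0 ≤ m) (h : l + m = 1) : l • a + m • b ∈ XS K (l * σ + m * σ') :=
  ⟨hc ha.1 hb.1 hl hm h, by
    convert hc ha.2 hb.2 hl hm h using 1
    simp only [smul_add, add_smul, mul_smul]; abel⟩

lemma IS_comb (hc : Convex ℝ K) {σ σ' l m a b : ℝ} (ha : a ∈ IS K σ) (hb : b ∈ IS K σ')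
    (hl : 0 ≤ l) (hm : 0 ≤ m) (h : l + m = 1) : l * a + m * b ∈ IS K (l * σ + m * σ') := by
  obtain ⟨a, ha, rfl⟩ := ha
  obtain ⟨b, hb, rfl⟩ := hb
  exact ⟨_, XS_comb hc ha hb hl hm h, by simp⟩

lemma Icc_of {S : Set ℝ} (hS : IsCompact S) (hc : Convex ℝ S) (hn : S.Nonempty) :
    ∃ l r, l ≤ r ∧ S = Icc l r := by
  have := eq_Icc_of_connected_compact ⟨hn, hc.isPreconnected⟩ hS
  exact ⟨_, _, nonempty_Icc.1 (this ▸ hn), this⟩

lemma IS_eq (hK : IsCompact K) (hc : Convex ℝ K) {σ : ℝ} (hn : (XS K σ).Nonempty) :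
    ∃ l r, l ≤ r ∧ IS K σ = Icc l r :=
  Icc_of ((XS_cpt hK σ).image (by fun_prop)) (fun a ha b hb l m hl hm h => by
    have := IS_comb hc ha hb hl hm h
    rwa [← add_mul, h, one_mul] at this) (hn.image _)

lemma ms_IS (hK : IsCompact K) : MeasurableSet {x : ℝ × ℝ | x.2 ∈ IS K x.1} := by
  have h := ((hK.prod hK).inter_right (isClosed_eq (f := fun x : E × E => x.1 1)
    (g := fun x => x.2 1) (by fun_prop) (by fun_prop))).image
      (f := fun x : E × E => (x.2 0 - x.1 0, x.1 1)) (by fun_prop)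
  convert h.measurableSet
  ext ⟨σ, h⟩
  constructor
  · rintro ⟨a, ⟨h1, h2⟩, rfl⟩
    exact ⟨(a, _), ⟨⟨h1, h2⟩, by simp⟩, by simp⟩
  · rintro ⟨⟨a, b⟩, ⟨⟨h1, h2⟩, h3⟩, h4⟩
    obtain ⟨rfl, rfl⟩ := Prod.ext_iff.1 h4
    refine ⟨a, ⟨h1, ?_⟩, rfl⟩
    convert h2
    ext i; fin_cases i
    · simp
    · simpa using h3

lemma vol_XS (hK : IsCompact K) (hc : Convex ℝ K) {τ : ℝ} (hτ : 0 ≤ τ) :
    volume (XS K τ) = ∫⁻ σ in Ioi τ, volume (IS K σ) := by
  have hm : MeasurableSet ({x : ℝ × ℝ | τ < x.1} ∩ {x : ℝ × ℝ | x.2 ∈ IS K x.1}) :=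
    (measurableSet_lt measurable_const measurable_fst).inter (ms_IS hK)
  have h1 := Measure.prod_apply (μ := volume) (ν := volume) hm
  rw [Measure.prod_apply_symm hm] at h1
  rw [vol_sec (XS_cpt hK τ).measurableSet, ← lintegral_indicator measurableSet_Ioi]
  refine (lintegral_congr fun h => ?_).trans (h1.trans (lintegral_congr fun σ => ?_))
  · have e : ∀ u σ : ℝ, (!₂[u, h] : E) + σ • (!₂[1, 0] : E) = !₂[u + σ, h] := fun u σ => by
      ext i; fin_cases i <;> simp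
    have e' : ∀ σ, h ∈ IS K σ ↔ ∃ u, (!₂[u, h] : E) ∈ K ∧ (!₂[u + σ, h] : E) ∈ K := fun σ => by
      refine ⟨?_, fun ⟨u, h1, h2⟩ => ⟨_, ⟨h1, by rwa [e]⟩, rfl⟩⟩
      rintro ⟨a, ha, rfl⟩
      have : (!₂[a 0, a 1] : E) = a := by ext i; fin_cases i <;> rfl
      exact ⟨a 0, by rw [this]; exact ha.1, by rw [← e, this]; exact ha.2⟩
    simp only [XS, mem_ofPred_eq, e, preimage, mem_inter_iff, e']
    rcases {u : ℝ | (!₂[u, h] : E) ∈ K}.eq_empty_or_nonempty with k | k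
    · have k' : ∀ u : ℝ, (!₂[u, h] : E) ∉ K := eq_empty_iff_forall_notMem.1 k
      simp [k']
    obtain ⟨R, hR⟩ := hK.isBounded.exists_norm_le
    obtain ⟨l, r, hlr, hS⟩ := Icc_of (S := {u : ℝ | (!₂[u, h] : E) ∈ K})
      (Metric.isCompact_of_isClosed_isBounded (hK.isClosed.preimage (by fun_prop))
        (isBounded_iff_forall_norm_le.2 ⟨R, fun u hu =>
          (PiLp.norm_apply_le (!₂[u, h] : E) 0).trans (hR _ hu)⟩))
      (fun a ha b hb l m hl hm e => by
        change (!₂[_, h] : E) ∈ K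
        convert hc ha hb hl hm e using 1
        ext i; fin_cases i <;> simp [← add_mul, e]) k
    have k' : ∀ u : ℝ, (!₂[u, h] : E) ∈ K ↔ l ≤ u ∧ u ≤ r := Set.ext_iff.1 hS
    simp only [k']
    rw [show {u : ℝ | (l ≤ u ∧ u ≤ r) ∧ l ≤ u + τ ∧ u + τ ≤ r} = Icc l (r - τ) by
      ext u; simp only [mem_ofPred_eq, mem_Icc]
      exact ⟨fun h => ⟨h.1.1, by linarith [h.2.2]⟩, fun h => ⟨⟨h.1, by linarith [h.2]⟩,
        by linarith [h.1], by linarith [h.2]⟩⟩,
      show {σ : ℝ | τ < σ ∧ ∃ u, (l ≤ u ∧ u ≤ r) ∧ l ≤ u + σ ∧ u + σ ≤ r} = Ioc τ (r - l) by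
      ext σ; simp only [mem_ofPred_eq, mem_Ioc]
      exact ⟨fun ⟨h, u, h'⟩ => ⟨h, by linarith [h'.1.1, h'.2.2]⟩, fun h => ⟨h.1, l, ⟨le_rfl, hlr⟩,
        by linarith [h.1], by linarith [h.2]⟩⟩, Real.volume_Icc, Real.volume_Ioc]
    congr 1; ring
  · by_cases h : σ ∈ Ioi τ
    · rw [indicator_of_mem h]; congr 1; ext u; simp [show τ < σ from h]
    · rw [indicator_of_notMem h]
      convert measure_empty (μ := (volume : Measure ℝ))
      ext u; simp [show ¬τ < σ from h]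

lemma strict_mid (hK : IsCompact K) (hc : Convex ℝ K) {p : E} {t u : ℝ}
    (hp : p ∈ K.extremePoints ℝ) (hq : p + t • (!₂[1, 0] : E) ∈ K.extremePoints ℝ) (hu : 0 < u)
    (hut : u < t) (hn : (XS K (3 * t)).Nonempty) :
    volume (IS K (u + 0)) + volume (IS K (u + 2 * t)) < 2 * volume (IS K (u + t)) := by
  have t0 : 0 < t := hu.trans hut
  have ne : ∀ σ, 0 ≤ σ → σ ≤ 3 * t → (XS K σ).Nonempty := fun σ h1 h2 => by
    obtain ⟨a, ha⟩ := hn
    have := XS_comb hc (σ := 0) (a := a) ⟨ha.1, by simpa using ha.1⟩ ha (l := 1 - σ / (3 * t))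
      (m := σ / (3 * t)) (sub_nonneg.2 ((div_le_one (by positivity)).2 h2)) (by positivity) (by ring)
    rw [mul_zero, zero_add, div_mul_cancel₀ _ (by positivity)] at this
    exact ⟨_, this⟩
  obtain ⟨l0, r0, k0, e0⟩ := IS_eq hK hc (ne u hu.le (by linarith))
  obtain ⟨l1, r1, k1, e1⟩ := IS_eq hK hc (ne (u + 2 * t) (by linarith) (by linarith))
  obtain ⟨lm, rm, km, em⟩ := IS_eq hK hc (ne (u + t) (by linarith) (by linarith))
  rw [add_zero, e0, e1, em, Real.volume_Icc, Real.volume_Icc, Real.volume_Icc,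
    ← ENNReal.ofReal_add (by linarith) (by linarith), ← ENNReal.ofReal_ofNat,
    ← ENNReal.ofReal_mul (by norm_num), ENNReal.ofReal_lt_ofReal_iff_of_nonneg (by linarith)]
  by_contra hle
  have a1 : ∀ a ∈ Icc l0 r0, ∀ b ∈ Icc l1 r1, 1 / 2 * a + 1 / 2 * b ∈ Icc lm rm := fun a ha b hb => by
    have := IS_comb hc (e0 ▸ ha) (e1 ▸ hb) (l := 1 / 2) (m := 1 / 2) (by norm_num) (by norm_num)
      (by norm_num)
    rwa [show 1 / 2 * u + 1 / 2 * (u + 2 * t) = u + t by ring, em] at this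
  have a2 : ∀ b ∈ Icc l1 r1, t / (u + t) * p 1 + u / (u + t) * b ∈ Icc lm rm := fun b hb => by
    have := IS_comb hc (σ := t) ⟨p, ⟨hp.1, hq.1⟩, rfl⟩ (e1 ▸ hb) (l := t / (u + t))
      (m := u / (u + t)) (by positivity) (by positivity) (by field_simp; ring)
    rwa [show t / (u + t) * t + u / (u + t) * (u + 2 * t) = u + t by field_simp; ring, em] at this
  have b1 := (a1 _ (left_mem_Icc.2 k0) _ (left_mem_Icc.2 k1)).1
  have b2 := (a1 _ (right_mem_Icc.2 k0) _ (right_mem_Icc.2 k1)).2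
  have b3 := (a2 _ (left_mem_Icc.2 k1)).1
  have b4 := (a2 _ (right_mem_Icc.2 k1)).2
  rw [div_mul_eq_mul_div, div_mul_eq_mul_div, ← add_div] at b3 b4
  rw [le_div_iff₀ (by positivity), show lm = (l0 + l1) / 2 by linarith] at b3
  rw [div_le_iff₀ (by positivity), show rm = (r0 + r1) / 2 by linarith] at b4
  obtain ⟨l, hl⟩ : ∃ l, l = (t + u) / (2 * t) := ⟨_, rfl⟩
  obtain ⟨m, hm⟩ : ∃ m, m = (t - u) / (2 * t) := ⟨_, rfl⟩
  have l0' : 0 < l := by rw [hl]; positivity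
  have m0 : 0 < m := by rw [hm]; exact div_pos (by linarith) (by positivity)
  have lm' : l + m = 1 := by rw [hl, hm]; field_simp; ring
  obtain ⟨x, y, x0, y0, xy, hxy⟩ : p 1 ∈ segment ℝ (l * l0 + m * l1) (l * r0 + m * r1) := by
    rw [segment_eq_Icc (by gcongr), hl, hm]
    simp only [div_mul_eq_mul_div, ← add_div, mem_Icc]
    rw [div_le_iff₀ (by positivity), le_div_iff₀ (by positivity)]
    constructor <;> linarith
  obtain ⟨a, ha, ha'⟩ : x * l0 + y * r0 ∈ IS K u := e0 ▸ convex_Icc l0 r0 (left_mem_Icc.2 k0)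
    (right_mem_Icc.2 k0) x0 y0 xy
  obtain ⟨b, hb, hb'⟩ : x * l1 + y * r1 ∈ IS K (u + 2 * t) := e1 ▸ convex_Icc l1 r1
    (left_mem_Icc.2 k1) (right_mem_Icc.2 k1) x0 y0 xy
  have hz := XS_comb hc ha hb l0'.le m0.le lm'
  rw [show l * u + m * (u + 2 * t) = t by rw [hl, hm]; field_simp; ring] at hz
  have z1 : (l • a + m • b) 1 = p 1 := by
    simp only [PiLp.add_apply, PiLp.smul_apply, smul_eq_mul] at hxy ha' hb' ⊢
    rw [ha', hb', ← hxy]; ring
  have ext : ∀ w ∈ K, w 1 = p 1 → p 0 ≤ w 0 ∧ w 0 ≤ p 0 + t := fun w hw h => by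
    constructor <;> by_contra k <;> push Not at k
    · have d : 0 < t + (p 0 - w 0) := by linarith
      have := congrArg (fun z : E => z 0) (hp.2 hw hq.1 ⟨t / (t + (p 0 - w 0)),
        (p 0 - w 0) / (t + (p 0 - w 0)), by positivity, div_pos (by linarith) d, by field_simp, by
          ext i; fin_cases i <;> simp [h] <;> field_simp; ring⟩)
      linarith
    · have d : 0 < w 0 - p 0 := by linarith
      have := congrArg (fun z : E => z 0) (hq.2 hp.1 hw ⟨(w 0 - p 0 - t) / (w 0 - p 0),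
        t / (w 0 - p 0), div_pos (by linarith) d, by positivity, by field_simp; ring, by
          ext i; fin_cases i <;> simp [h] <;> field_simp <;> ring⟩)
      simp at this; linarith
  have c1 := (ext _ hz.1 z1).1
  have c2 := (ext _ hz.2 (by simpa using z1)).2
  have c3 := (mem_extremePoints.1 hp).2 _ ha.1 _ hb.1 ⟨l, m, l0', m0, lm', by
    ext i; fin_cases i
    · exact le_antisymm (by simpa using c2) c1
    · exact z1⟩
  have c4 := (ext _ hb.2 (by simp [c3.2])).2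
  simp [c3.2] at c4
  linarith

lemma sep0 (hK : IsCompact K) (hc : Convex ℝ K) {p : E} {t : ℝ} (ht : 0 < t)
    (hp : p ∈ K.extremePoints ℝ) (hq : p + t • (!₂[1, 0] : E) ∈ K.extremePoints ℝ)
    (hn : (XS K (3 * t)).Nonempty) :
    volume.real (XS K 0) + 3 * volume.real (XS K (2 * t)) <
      3 * volume.real (XS K t) + volume.real (XS K (3 * t)) := by
  have mV : Measurable fun σ => volume (IS K σ) := measurable_measure_prodMk_left (ms_IS hK)
  set J : ℝ → ℝ≥0∞ := fun τ => ∫⁻ u in Ioo 0 t, volume (IS K (u + τ)) with hJ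
  have fin : ∀ τ, volume (XS K τ) ≠ ∞ := fun τ => (XS_cpt hK τ).measure_lt_top.ne
  have h1 : ∀ τ, 0 ≤ τ → volume (XS K τ) = J τ + volume (XS K (τ + t)) := fun τ hτ => by
    rw [vol_XS hK hc hτ, vol_XS hK hc (by linarith), ← Ioc_union_Ioi_eq_Ioi (show τ ≤ τ + t by
      linarith), lintegral_union measurableSet_Ioi (Ioc_disjoint_Ioi le_rfl), hJ,
      ← Measure.restrict_congr_set Ioo_ae_eq_Ioc,
      ← (measurePreserving_add_right volume τ).setLIntegral_comp_preimage_emb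
        (measurableEmbedding_addRight τ)]
    simp
  have fJ : ∀ τ, 0 ≤ τ → J τ ≠ ∞ := fun τ hτ => (ENNReal.add_ne_top.1 (h1 τ hτ ▸ fin τ)).1
  have h2 : ∀ τ, 0 ≤ τ → volume.real (XS K τ) = (J τ).toReal + volume.real (XS K (τ + t)) :=
    fun τ hτ => by rw [Measure.real, h1 τ hτ, ENNReal.toReal_add (fJ τ hτ) (fin _)]; rfl
  have h3 : J 0 + J (2 * t) < 2 * J t := by
    have mV' : ∀ τ, Measurable fun u => volume (IS K (u + τ)) := fun τ =>
      mV.comp (measurable_add_const τ)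
    simp only [hJ]
    rw [← lintegral_add_left (mV' _), ← lintegral_const_mul _ (mV' _)]
    refine setLIntegral_strict_mono measurableSet_Ioo (by simpa using ht) ((mV' _).const_mul _) ?_
      (Eventually.of_forall fun u hu => strict_mid hK hc hp hq hu.1 hu.2 hn)
    rw [lintegral_add_left (mV' _)]
    exact ENNReal.add_ne_top.2 ⟨fJ 0 le_rfl, fJ _ (by positivity)⟩
  have h4 := ENNReal.toReal_strict_mono (ENNReal.mul_ne_top (by simp) (fJ t ht.le)) h3
  rw [ENNReal.toReal_add (fJ 0 le_rfl) (fJ _ (by positivity)), ENNReal.toReal_mul] at h4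
  have k0 := h2 0 le_rfl
  have k1 := h2 t ht.le
  have k2 := h2 (2 * t) (by positivity)
  rw [zero_add] at k0
  rw [← two_mul] at k1
  rw [show 2 * t + t = 3 * t by ring] at k2
  simp only [ENNReal.toReal_ofNat] at h4
  linarith

/-- The covariogram. -/
noncomputable def cov (K : Set E) (k : E) : ℝ := volume.real {a | a ∈ K ∧ a + k ∈ K}

theorem sep (hK : IsCompact K) (hc : Convex ℝ K) {p q : E} (hp : p ∈ K.extremePoints ℝ)
    (hq : q ∈ K.extremePoints ℝ) (hpq : p ≠ q) (hn : ∃ a ∈ K, a + (3 : ℝ) • (q - p) ∈ K) :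
    cov K 0 + 3 * cov K ((2 : ℝ) • (q - p)) < 3 * cov K (q - p) + cov K ((3 : ℝ) • (q - p)) := by
  have t0 : 0 < ‖q - p‖ := norm_pos_iff.2 (sub_ne_zero.2 hpq.symm)
  obtain ⟨O, hO, -⟩ := frame t0 0
  have e : ∀ c : ℝ, (c * ‖q - p‖) • (!₂[1, 0] : E) = O (c • (q - p)) := fun c => by
    rw [map_smul, hO]; ext i; fin_cases i <;> simp
  have hK' := hK.image O.continuous
  have key : ∀ c : ℝ, cov K (c • (q - p)) = volume.real (XS (O '' K) (c * ‖q - p‖)) := fun c => by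
    rw [cov, Measure.real, Measure.real, ← O.measurePreserving.measure_preimage
      (XS_cpt hK' _).measurableSet.nullMeasurableSet]
    congr 2; ext a
    simp only [XS, mem_preimage, mem_ofPred_eq, e, ← map_add, O.injective.mem_set_image]
  obtain ⟨a, h1, h2⟩ := hn
  have := sep0 hK' (hc.linear_image O.toLinearEquiv.toLinearMap) t0 (p := O p)
    (image_extremePoints O K ▸ mem_image_of_mem _ hp) (by
      rw [← one_mul ‖q - p‖, e, ← map_add, one_smul, add_sub_cancel]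
      exact image_extremePoints O K ▸ mem_image_of_mem _ hq)
    ⟨O a, mem_image_of_mem _ h1, by rw [e, ← map_add]; exact mem_image_of_mem _ h2⟩
  have k0 := key 0
  have k1 := key 1
  rw [zero_smul, zero_mul] at k0
  rw [one_smul, one_mul] at k1
  rwa [k0, k1, key, key]

lemma fin_of_sep (hK : IsCompact K) {V : Set E} (hV : V ⊆ K) {d : ℝ} (hd : 0 < d)
    (h : ∀ p ∈ V, ∀ q ∈ V, ‖q - p‖ < d → p = q) : V.Finite := by
  obtain ⟨t, -, ht, h1⟩ := finite_cover_balls_of_compact hK (half_pos hd)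
  refine (ht.biUnion (t := fun x => V ∩ Metric.ball x (d / 2)) fun x _ =>
    Subsingleton.finite fun p hp q hq => h p hp.1 q hq.1 ?_).subset fun p hp => ?_
  · rw [← dist_eq_norm]
    linarith [dist_triangle_right q p x, Metric.mem_ball.1 hp.2, Metric.mem_ball.1 hq.2]
  · obtain ⟨x, hx, h2⟩ := mem_iUnion₂.1 (h1 (hV hp))
    exact mem_biUnion hx ⟨hp, h2⟩

end Pool.Agent.Lib.MP_c1b9d3_an
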