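import Mathlib

namespace Pool.Agent.Lib.MP_c1b9d3_an

open Real Filter Topology Set

noncomputable def pq (a : ℝ → ℝ) (r t : ℝ) : ℝ :=
  a 0 + (a r - a 0) / r * t + (a (2 * r) - 2 * a r + a 0) / (2 * r ^ 2) * (t * (t - r))

noncomputable def Lam (a : ℝ → ℝ) (r s : ℝ) : ℝ := a s - pq a r s

lemma cont_of_lip {a : ℝ → ℝ} {M : ℝ} {I : Set ℝ}
    (h : ∀ t ∈ I, ∀ t' ∈ I, t ≤ t' → 0 ≤ a t - a t' ∧ a t - a t' ≤ (t' - t) * M) :
    ContinuousOn a I := by
  refine (LipschitzOnWith.of_dist_le' (K := |M|) fun t ht t' ht' => ?_).continuousOn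
  rw [Real.dist_eq, Real.dist_eq]
  rcases le_total t t' with k | k
  · obtain ⟨h1, h2⟩ := h t ht t' ht' k
    rw [abs_of_nonneg h1, abs_of_nonpos (sub_nonpos.2 k)]
    nlinarith [le_abs_self M]
  · obtain ⟨h1, h2⟩ := h t' ht' t ht k
    rw [abs_sub_comm, abs_of_nonneg h1, abs_of_nonneg (sub_nonneg.2 k)]
    nlinarith [le_abs_self M]

theorem lam_nonneg {a m : ℝ → ℝ} {r s : ℝ} (hr : 0 < r) (hs : 2 * r < s)
    (hm : ConcaveOn ℝ (Icc 0 s) m) (hm0 : ∀ t ∈ Icc 0 s, 0 ≤ m t)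
    (h : ∀ t ∈ Icc 0 s, ∀ t' ∈ Icc 0 s, t ≤ t' →
      (t' - t) * m t' ≤ a t - a t' ∧ a t - a t' ≤ (t' - t) * m t) : 0 ≤ Lam a r s := by
  have anti : ∀ t ∈ Icc 0 s, m t ≤ m 0 := by
    intro t ht
    rcases ht.1.eq_or_lt with e | e
    · rw [e]
    · obtain ⟨h1, h2⟩ := h 0 ⟨le_rfl, by linarith⟩ t ht ht.1
      exact le_of_mul_le_mul_left (h1.trans h2) (sub_pos.2 e)
  have hc : ContinuousOn a (Icc 0 s) := cont_of_lip (M := m 0) fun t ht t' ht' k =>
    ⟨(mul_nonneg (sub_nonneg.2 k) (hm0 _ ht')).trans (h t ht t' ht' k).1,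
      (h t ht t' ht' k).2.trans (mul_le_mul_of_nonneg_left (anti t ht) (sub_nonneg.2 k))⟩
  have hd : ∀ t ∈ Ioo 0 s, HasDerivAt a (-m t) t := by
    intro t ht
    have h1 : ContinuousAt m t := hm.continuousOn_interior.continuousAt
      (isOpen_interior.mem_nhds (by rwa [interior_Icc]))
    rw [hasDerivAt_iff_tendsto_slope]
    have h2 : Tendsto (fun t' => |m t' - m t|) (𝓝[≠] t) (𝓝 0) := by
      have := (h1.tendsto.sub_const (m t)).abs
      rw [sub_self, abs_zero] at this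
      exact this.mono_left nhdsWithin_le_nhds
    rw [tendsto_iff_dist_tendsto_zero]
    refine squeeze_zero' (Eventually.of_forall fun _ => dist_nonneg) ?_ h2
    filter_upwards [self_mem_nhdsWithin, mem_nhdsWithin_of_mem_nhds (Ioo_mem_nhds ht.1 ht.2)]
      with t' h3 h4
    rw [Real.dist_eq, slope_def_field, abs_le]
    rcases lt_or_gt_of_ne h3 with k | k
    · obtain ⟨k1, k2⟩ := h t' (Ioo_subset_Icc_self h4) t (Ioo_subset_Icc_self ht) k.le
      have e : (a t' - a t) / (t' - t) = -((a t' - a t) / (t - t')) := by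
        rw [← div_neg, neg_sub]
      have k3 := (le_div_iff₀' (sub_pos.2 k)).2 k1
      have k4 := (div_le_iff₀' (sub_pos.2 k)).2 k2
      rw [e]
      constructor <;> linarith [le_abs_self (m t' - m t), abs_nonneg (m t' - m t)]
    · obtain ⟨k1, k2⟩ := h t (Ioo_subset_Icc_self ht) t' (Ioo_subset_Icc_self h4) k.le
      have e : (a t' - a t) / (t' - t) = -((a t - a t') / (t' - t)) := by ring
      have k3 := (le_div_iff₀' (sub_pos.2 k)).2 k1
      have k4 := (div_le_iff₀' (sub_pos.2 k)).2 k2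
      rw [e]
      constructor <;> linarith [neg_abs_le (m t' - m t), abs_nonneg (m t' - m t)]
  set b := (a r - a 0) / r
  set q := (a (2 * r) - 2 * a r + a 0) / (2 * r ^ 2) with hq
  have hφ : ∀ t ∈ Ioo 0 s, HasDerivAt (fun t => a t - pq a r t)
      (-m t - (b + q * (2 * t - r))) t := by
    intro t ht
    refine (hd t ht).sub ?_
    have := (((hasDerivAt_id t).const_mul b).const_add (a 0)).add
      (((hasDerivAt_id t).mul ((hasDerivAt_id t).sub_const r)).const_mul q)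
    convert! this using 1
    simp only [id]; ring
  have cφ : ContinuousOn (fun t => a t - pq a r t) (Icc 0 s) :=
    hc.sub (Continuous.continuousOn (by unfold pq; fun_prop))
  have z0 : a 0 - pq a r 0 = 0 := by simp [pq]
  have z1 : a r - pq a r r = 0 := by simp only [pq]; field_simp; ring
  have z2 : a (2 * r) - pq a r (2 * r) = 0 := by simp only [pq]; field_simp; ring
  obtain ⟨x1, hx1, e1⟩ := exists_hasDerivAt_eq_zero hr (cφ.mono (Icc_subset_Icc le_rfl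
    (by linarith))) (z0.trans z1.symm) fun t ht => hφ t ⟨ht.1, by linarith [ht.2]⟩
  obtain ⟨x2, hx2, e2⟩ := exists_hasDerivAt_eq_zero (show r < 2 * r by linarith)
    (cφ.mono (Icc_subset_Icc hr.le hs.le)) (z1.trans z2.symm)
    fun t ht => hφ t ⟨by linarith [ht.1], by linarith [ht.2]⟩
  obtain ⟨x3, hx3, e3⟩ := exists_hasDerivAt_eq_slope _ _ hs
    (cφ.mono (Icc_subset_Icc (by linarith) le_rfl))
    fun t ht => hφ t ⟨by linarith [ht.1], ht.2⟩
  rw [z2, sub_zero, eq_div_iff (by linarith)] at e3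
  rw [Lam, ← e3]
  refine mul_nonneg ?_ (by linarith)
  have k1 : x1 < x2 := hx1.2.trans hx2.1
  have k2 : x2 < x3 := hx2.2.trans hx3.1
  have := hm.neg.secant_mono_aux1 ⟨hx1.1.le, by linarith [hx1.2]⟩
    ⟨by linarith [hx3.1], hx3.2.le⟩ k1 k2
  simp only [Pi.neg_apply] at this
  refine le_of_mul_le_mul_left ?_ (sub_pos.2 k1)
  have f1 : m x1 = -(b + q * (2 * x1 - r)) := by linarith
  have f2 : m x2 = -(b + q * (2 * x2 - r)) := by linarith
  rw [f1, f2] at this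
  nlinarith

theorem lam_bad {a : ℝ → ℝ} {M ε s : ℝ} (hs : 0 < s) (hε : 0 < ε) (hε' : ε ≤ 1 / 4)
    (h0 : ∀ t, 0 ≤ a t) (hA : 0 < a 0)
    (h : ∀ t t', 0 ≤ t → t ≤ t' → 0 ≤ a t - a t' ∧ a t - a t' ≤ (t' - t) * M)
    (h3 : ∀ u, 2 * (ε * s) < u → 0 < a u → 0 ≤ Lam a (ε * s) u)
    (hl : Lam a (ε * s) s < 0 ∨ Lam a (ε * s) s ≤ 0 ∧ ∃ u, 0 ≤ u ∧ u < s ∧ a u = 0) :
    2 * a 0 ≤ s * M * (1 + 2 * ε) := by
  set r := ε * s with hr'
  have hr : 0 < r := by positivity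
  have hrs : 4 * r ≤ s := by nlinarith
  have hM : 0 ≤ M := by
    obtain ⟨h1, h2⟩ := h 0 1 le_rfl zero_le_one
    linarith
  have hz : a s = 0 := by
    rcases hl with hl | ⟨-, u, h1, h2, h4⟩
    · exact (h0 s).eq_or_lt.resolve_right (fun k => (h3 s (by linarith) k).not_gt hl) |>.symm
    · linarith [(h u s h1 h2.le).1, h0 s]
  have hc : ContinuousOn a (Ici 0) := cont_of_lip (M := M) fun t ht t' _ k => h t t' ht k
  have hcl : IsClosed (Ici 0 ∩ a ⁻¹' {0}) :=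
    hc.preimage_isClosed_of_isClosed isClosed_Ici isClosed_singleton
  have bdd : BddBelow (Ici 0 ∩ a ⁻¹' {0}) := ⟨0, fun t ht => ht.1⟩
  have hu := hcl.csInf_mem ⟨s, hs.le, hz⟩ bdd
  set u := sInf (Ici 0 ∩ a ⁻¹' {0})
  have hu0 : a u = 0 := hu.2
  by_cases hur : u ≤ 2 * r
  · have := (h 0 u le_rfl hu.1).2
    nlinarith [mul_le_mul_of_nonneg_right hur hM, mul_nonneg hs.le hM]
  push Not at hur
  have hp : pq a r u ≤ 0 := by
    have t1 : Tendsto (fun t => a t - pq a r t) (𝓝[<] u) (𝓝 (a u - pq a r u)) :=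
      ((hc.continuousAt (Ici_mem_nhds (by linarith))).sub
        (Continuous.continuousAt (by unfold pq; fun_prop))).tendsto.mono_left nhdsWithin_le_nhds
    have := ge_of_tendsto (b := 0) t1 (by
      filter_upwards [Ioo_mem_nhdsLT hur] with t ht
      exact h3 t ht.1 ((h0 t).lt_of_ne fun k =>
        (csInf_le bdd ⟨show 0 ≤ t by linarith [ht.1], k.symm⟩).not_gt ht.2))
    linarith
  have hus : u < s ∧ 0 ≤ pq a r s := by
    rw [Lam, hz] at hl
    rcases hl with hl | ⟨hl, v, h1, h2, h4⟩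
    · refine ⟨(csInf_le bdd ⟨hs.le, hz⟩).lt_of_ne fun k => ?_, by linarith⟩
      rw [← k] at hl; linarith
    · exact ⟨(csInf_le bdd ⟨h1, h4⟩).trans_lt h2, by linarith⟩
  obtain ⟨q, hq⟩ : ∃ q, q = (a (2 * r) - 2 * a r + a 0) / (2 * r ^ 2) := ⟨_, rfl⟩
  obtain ⟨d, hd⟩ : ∃ d, d = (a 0 - a r) / r := ⟨_, rfl⟩
  have e : ∀ t, pq a r t = a 0 - (d + q * r) * t + q * t ^ 2 := fun t => by
    rw [pq, ← hq, hd]; ring
  have d1 : d ≤ M := by rw [hd, div_le_iff₀ hr]; linarith [(h 0 r le_rfl hr.le).2]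
  have d2 : 2 * (q * r) ≤ d := by
    have := (h r (2 * r) hr.le (by linarith)).1
    rw [hq, hd, le_div_iff₀ hr]
    field_simp; linarith
  set β := d + q * r with hβ
  rw [e] at hp hus
  obtain ⟨k1, k2⟩ := hus
  have u0 : 0 < u := by linarith
  have k3 : β ≤ q * (s + u) := le_of_mul_le_mul_left (by nlinarith) (sub_pos.2 k1)
  have q0 : 0 < q := by
    by_contra k
    push Not at k
    nlinarith [mul_le_mul_of_nonneg_right k3 u0.le, mul_nonneg hs.le u0.le]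
  have k4 : 4 * a 0 * q ≤ β ^ 2 := by nlinarith [sq_nonneg (β - 2 * q * u)]
  have b0 : 0 < β := (mul_pos_iff_of_pos_right u0).1 (by nlinarith)
  have k5 : 2 * a 0 ≤ β * s := le_of_mul_le_mul_left (by nlinarith) b0
  by_contra k
  push Not at k
  have k6 : s * M ≤ 2 * a 0 := by nlinarith [mul_nonneg hs.le hM]
  have k7 : β ^ 2 ≤ (3 / 2 * M) ^ 2 := pow_le_pow_left₀ b0.le (by linarith) 2
  have k8 : q * r ≤ 2 * ε * M := by
    refine le_of_mul_le_mul_left ?_ (show 0 < 4 * a 0 by positivity)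
    calc 4 * a 0 * (q * r) ≤ (3 / 2 * M) ^ 2 * r := by nlinarith
      _ = 9 / 4 * (ε * M) * (s * M) := by rw [hr']; ring
      _ ≤ 9 / 4 * (ε * M) * (2 * a 0) := by gcongr
      _ ≤ _ := by nlinarith [mul_nonneg (mul_nonneg hε.le hM) hA.le]
  nlinarith

end Pool.Agent.Lib.MP_c1b9d3_an
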