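import Pool.Agent.Lib.MP_c1b9d3_an.Fan
import Pool.Agent.Lib.MP_c1b9d3_an.Calc

namespace Pool.Agent.Lib.MP_c1b9d3_an

open MeasureTheory Real Filter Topology Set Pool.Agent.Lib.MP_2d4879_an Bornology
open scoped ENNReal Pointwise

lemma exists_angle (w : E) : ∃ φ, w 0 = ‖w‖ * cos φ ∧ w 1 = ‖w‖ * sin φ := by
  have e : ‖(⟨w 0, w 1⟩ : ℂ)‖ = ‖w‖ := by
    rw [← sq_eq_sq₀ (norm_nonneg _) (norm_nonneg _), nsq, Complex.sq_norm, Complex.normSq_mk]
    ring
  exact ⟨Complex.arg ⟨w 0, w 1⟩, by rw [← e, Complex.norm_mul_cos_arg],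
    by rw [← e, Complex.norm_mul_sin_arg]⟩

lemma lin_eq (z : E) : ∃ φ, ∀ β, lin z β = ‖z‖ * cos (β - φ) := by
  obtain ⟨φ, h0, h1⟩ := exists_angle z
  exact ⟨φ, fun β => by rw [lin, cos_sub]; linear_combination cos β * h0 + sin β * h1⟩

lemma lin_le (z : E) (α : ℝ) : lin z α ≤ ‖z‖ := by
  obtain ⟨φ, h⟩ := lin_eq z
  rw [h]; exact mul_le_of_le_one_right (norm_nonneg _) (cos_le_one _)

lemma lin_lip (z : E) (α β : ℝ) : lin z α - lin z β ≤ ‖z‖ * |α - β| := by
  obtain ⟨φ, h⟩ := lin_eq z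
  rw [h, h, ← mul_sub]
  refine mul_le_mul_of_nonneg_left ((le_abs_self _).trans ((abs_cos_sub_cos_le _ _).trans
    (le_of_eq ?_))) (norm_nonneg _)
  congr 1; ring

lemma lin_vadd (z w : E) (α : ℝ) : lin (z + w) α = lin z α + lin w α := by
  simp only [lin, PiLp.add_apply]; ring

lemma lin_vsub (z w : E) (α : ℝ) : lin (z - w) α = lin z α - lin w α := by
  simp only [lin, PiLp.sub_apply]; ring

lemma lin_smul (c : ℝ) (z : E) (α : ℝ) : lin (c • z) α = c * lin z α := by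
  simp only [lin, PiLp.smul_apply, smul_eq_mul]; ring

noncomputable def hs (X : Set E) (α : ℝ) : ℝ := sSup ((fun z => lin z α) '' X)

lemma le_hs {X : Set E} (hX : IsBounded X) {z : E} (hz : z ∈ X) (α : ℝ) : lin z α ≤ hs X α := by
  obtain ⟨R, hR⟩ := hX.exists_norm_le
  exact le_csSup ⟨R, by rintro _ ⟨w, hw, rfl⟩; exact (lin_le _ _).trans (hR w hw)⟩ ⟨z, hz, rfl⟩

lemma hs_le {X : Set E} (hX : X.Nonempty) {α c : ℝ} (h : ∀ z ∈ X, lin z α ≤ c) : hs X α ≤ c :=
  csSup_le (hX.image _) (by rintro _ ⟨w, hw, rfl⟩; exact h w hw)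

lemma sa_hs {X : Set E} (hX : IsBounded X) (hn : X.Nonempty) : SA (hs X) :=
  fun α β γ a b ha hb h1 h2 => hs_le hn fun z hz => by
    have k1 := mul_le_mul_of_nonneg_left (le_hs hX hz α) ha
    have k2 := mul_le_mul_of_nonneg_left (le_hs hX hz β) hb
    simp only [lin, h1, h2] at k1 k2 ⊢
    linarith

lemma lt_hs {X U : Set E} (hX : IsBounded X) (hU : IsOpen U) (hUX : U ⊆ X) {z : E} (hz : z ∈ U)
    (α : ℝ) : lin z α < hs X α := by
  have h1 : Tendsto (fun t : ℝ => z + t • (!₂[cos α, sin α] : E)) (𝓝[>] 0) (𝓝 z) :=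
    tendsto_nhdsWithin_of_tendsto_nhds (Continuous.tendsto' (by fun_prop) _ _ (by simp))
  obtain ⟨t, h2, h3⟩ := ((h1.eventually (hU.mem_nhds hz)).and self_mem_nhdsWithin).exists
  have := le_hs hX (hUX h2) α
  rw [lin_vadd, lin_smul, show lin !₂[cos α, sin α] α = 1 by simp [lin, ← sq]] at this
  linarith [show 0 < t from h3]

noncomputable def sa {n : ℕ} (y : Fin n → E) (α : ℝ) : ℝ := spf y (cos α) (sin α)

lemma sa_sa {n : ℕ} (y : Fin n → E) : SA (sa y) := fun _ _ _ _ _ ha hb h1 h2 =>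
  (sp y).le2 ha hb h1 h2

lemma sa_nonneg {n : ℕ} (y : Fin n → E) (α : ℝ) : 0 ≤ sa y α := (sp y).nonneg _ _

variable {m : ℕ} {θ : ℝ} {F G : ℝ → ℝ}

lemma Fan.near (h : Fan m θ) (φ : ℝ) : ∃ i : ℤ, |i * θ - φ| ≤ θ := by
  refine ⟨⌊φ / θ⌋, abs_le.2 ⟨?_, ?_⟩⟩
  · have := (div_lt_iff₀ h.pos).1 (Int.lt_floor_add_one (φ / θ))
    linarith
  · have := (le_div_iff₀ h.pos).1 (Int.floor_le (φ / θ))
    linarith [h.pos]

lemma Fan.bound (h : Fan m θ) (hF : Per F) {R : ℝ} (hR : ∀ α, F α ≤ R) {z : E}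
    (hz : z ∈ poly m θ F) : cos θ * ‖z‖ ≤ R := by
  obtain ⟨φ, h1⟩ := lin_eq z
  obtain ⟨i, hi⟩ := h.near φ
  have := (h.mem hF hz i).trans (hR _)
  rw [h1, ← cos_abs] at this
  have k := cos_le_cos_of_nonneg_of_le_pi (abs_nonneg _) (by linarith [h.lt, pi_pos]) hi
  nlinarith [norm_nonneg z]

lemma Fan.bdd (h : Fan m θ) (hF : Per F) {R : ℝ} (hR : ∀ α, F α ≤ R) : IsBounded (poly m θ F) :=
  isBounded_iff_forall_norm_le.2 ⟨R / cos θ, fun _ hz =>
    (le_div_iff₀' h.cos_pos).2 (h.bound hF hR hz)⟩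

lemma ms_poly : MeasurableSet (poly m θ F) := by
  unfold poly lin
  measurability

lemma Fan.Bf_lin (h : Fan m θ) (hF : Per F) (z : E) : Bf m θ (lin z) F = 0 := by
  rw [h.symm (per_lin z) hF]; simp [Bf, ell_lin]

lemma Fan.Bf_sub (h : Fan m θ) (hF : Per F) (z : E) :
    Bf m θ (fun α => F α - lin z α) (fun α => F α - lin z α) = Bf m θ F F := by
  have e : (fun α => F α - lin z α) = fun α => F α + (-1) * lin z α := by ext; ring
  rw [e, Bf_add, Bf_add', Bf_add', h.Bf_lin hF, h.Bf_lin (per_lin z), h.symm hF (per_lin z),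
    h.Bf_lin hF]
  ring

lemma vol_poly_sub (z : E) : volume (poly m θ fun α => F α - lin z α) = volume (poly m θ F) := by
  rw [← measure_preimage_add_right volume z (poly m θ F)]
  congr 1; ext w
  simp only [poly, mem_ofPred_eq, mem_preimage, lin_vadd, le_sub_iff_add_le]

section
variable {D : Set E} {n : ℕ} (y : Fin n → E)

def XF (m : ℕ) (θ : ℝ) (D : Set E) (y : Fin n → E) (t : ℝ) : Set E :=
  poly m θ fun α => hs D α - t * sa y α

def DE (D : Set E) (y : Fin n → E) (t : ℝ) : Set E := {a | ∀ j, a + t • cns 0 y j ∈ D}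

lemma mem_XF {t : ℝ} (ht : 0 ≤ t) {z : E} :
    z ∈ XF m θ D y t ↔ ∀ j, z + t • cns 0 y j ∈ poly m θ (hs D) := by
  simp only [XF, poly, mem_ofPred_eq, lin_vadd, lin_smul]
  refine ⟨fun h j i hi => ?_, fun h i hi => ?_⟩
  · linarith [h i hi, show t * lin (cns 0 y j) (i * θ) ≤ t * sa y (i * θ) from
      mul_le_mul_of_nonneg_left (le_spf y _ _ j) ht]
  · obtain ⟨j, hj⟩ := spf_eq y (cos (i * θ)) (sin (i * θ))
    have := h j i hi
    rw [sa, ← hj]
    exact le_sub_iff_add_le.2 this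

lemma DE_sub (hD : Dom D) {t : ℝ} (ht : 0 ≤ t) : DE D y t ⊆ XF m θ D y t := fun _ hz =>
  (mem_XF y ht).2 fun j _ _ => le_hs hD.bdd (hz j) _

lemma DE_open (hD : Dom D) (t : ℝ) : IsOpen (DE D y t) := by
  rw [DE, ofPred_forall]
  exact isOpen_iInter_of_finite fun j => hD.isOpen.preimage (by fun_prop)

lemma DE_anti (hD : Dom D) {t t' : ℝ} (ht : 0 ≤ t) (h : t ≤ t') : DE D y t' ⊆ DE D y t := by
  intro z hz j
  rcases (ht.trans h).eq_or_lt with e | e
  · rw [le_antisymm (e ▸ h) ht, e]; exact hz j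
  have := hD.conv (er_sub D t' y hz) (hz j) (a := 1 - t / t') (b := t / t')
    (sub_nonneg.2 ((div_le_one e).2 h)) (by positivity) (by ring)
  convert this using 1
  rw [smul_add, smul_smul, div_mul_cancel₀ _ e.ne', ← add_assoc, ← add_smul]
  simp

lemma XF_anti {t t' : ℝ} (h : t ≤ t') : XF m θ D y t' ⊆ XF m θ D y t := fun _ hz i hi =>
  (hz i hi).trans (sub_le_sub_left (mul_le_mul_of_nonneg_right h (sa_nonneg y _)) _)

lemma XF_bdd (h : Fan m θ) (hD : Dom D) {t : ℝ} (ht : 0 ≤ t) : IsBounded (XF m θ D y t) := by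
  obtain ⟨R, hR⟩ := hD.bdd.exists_norm_le
  refine (h.bdd ((sa_hs hD.bdd hD.ne).per.sub (sa_sa y).per 0) (R := R) fun α => ?_).subset
    (XF_anti y ht)
  simpa using hs_le hD.ne fun z hz => (lin_le _ _).trans (hR z hz)

lemma hs_XF {t : ℝ} (hn : (XF m θ D y t).Nonempty) {i : ℕ} (hi : i < m) :
    hs (XF m θ D y t) (i * θ) ≤ hs D (i * θ) - t * sa y (i * θ) := hs_le hn fun _ hz => hz i hi

lemma XF_eq (h : Fan m θ) (hD : Dom D) {t : ℝ} (ht : 0 ≤ t) (hn : (XF m θ D y t).Nonempty) :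
    poly m θ (hs (XF m θ D y t)) = XF m θ D y t :=
  Subset.antisymm (fun _ hz i hi => (hz i hi).trans (hs_XF y hn hi))
    fun _ hz _ _ => le_hs (XF_bdd y h hD ht) hz _

lemma XF_I1 (h : Fan m θ) (hD : Dom D) {t t' : ℝ} (ht : 0 ≤ t) (htt : t ≤ t')
    (hn : (XF m θ D y t).Nonempty) : volume.real (XF m θ D y t) - volume.real (XF m θ D y t') ≤
      (t' - t) * Bf m θ (hs (XF m θ D y t)) (sa y) := by
  have hb := XF_bdd y h hD ht
  have hF := sa_hs hb hn
  have h1 := h.erode hF (sa_sa y) (sa_nonneg y) (sub_nonneg.2 htt)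
  rw [XF_eq y h hD ht hn] at h1
  have h2 : poly m θ (fun α => hs (XF m θ D y t) α - (t' - t) * sa y α) ⊆ XF m θ D y t' :=
    fun z hz i hi => (hz i hi).trans (by linarith [hs_XF y hn hi])
  have h3 := (XF_bdd y h hD (ht.trans htt)).measure_lt_top (μ := volume)
  have h4 := ENNReal.toReal_mono (by finiteness) (h1.trans (add_le_add_left (measure_mono h2) _))
  rw [ENNReal.toReal_add (by finiteness) (by finiteness), ENNReal.toReal_ofReal
    (mul_nonneg (sub_nonneg.2 htt) (h.Bf_nonneg hF (sa_nonneg y))), h.symm (sa_sa y).per hF.per]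
    at h4
  exact sub_le_iff_le_add'.2 h4

lemma XF_I2 (h : Fan m θ) (hD : Dom D) {t t' : ℝ} (ht : 0 ≤ t) (htt : t ≤ t')
    (hn : (DE D y t').Nonempty) : (t' - t) * Bf m θ (hs (XF m θ D y t')) (sa y) ≤
      volume.real (XF m θ D y t) - volume.real (XF m θ D y t') := by
  obtain ⟨z, hz⟩ := hn
  have ht' := ht.trans htt
  have hb := XF_bdd y h hD ht'
  have hn : (XF m θ D y t').Nonempty := ⟨z, DE_sub y hD ht' hz⟩
  have hF := sa_hs hb hn
  have hz' := lt_hs hb (DE_open y hD t') (DE_sub y hD ht') hz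
  set g := hs (XF m θ D y t')
  have hδ := sub_nonneg.2 htt
  have h1 := h.lower ((hF.add (sa_sa y) hδ).sub_lin z) fun α => by
    linarith [hz' α, mul_nonneg hδ (sa_nonneg y α)]
  rw [h.Bf_sub (hF.add (sa_sa y) hδ).per, vol_poly_sub, Bf_add, Bf_add', Bf_add',
    h.symm (sa_sa y).per hF.per] at h1
  have h2 : poly m θ (fun α => g α + (t' - t) * sa y α) ⊆ XF m θ D y t :=
    fun z hz i hi => (hz i hi).trans (by linarith [hs_XF y hn hi])
  have h3 := (ENNReal.ofReal_le_iff_le_toReal (XF_bdd y h hD ht).measure_lt_top.ne).1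
    (h1.trans (measure_mono h2))
  have h4 := h.upper (hF.sub_lin z) (fun α => by linarith [hz' α]) (by
    rw [vol_poly_sub, XF_eq y h hD ht' hn]; exact hb.measure_lt_top.ne)
  rw [h.Bf_sub hF.per, Measure.real, vol_poly_sub, XF_eq y h hD ht' hn] at h4
  have h5 := mul_nonneg hδ (mul_nonneg hδ (h.Bf_nonneg (sa_sa y) (sa_nonneg y)))
  simp only [Measure.real]
  linarith

lemma XF_lam (h : Fan m θ) (hD : Dom D) {r s : ℝ} (hr : 0 < r) (hs' : 2 * r < s)
    (hn : (DE D y s).Nonempty) : 0 ≤ Lam (fun t => volume.real (XF m θ D y t)) r s := by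
  have hn1 : ∀ t ∈ Icc 0 s, (DE D y t).Nonempty := fun t ht => hn.mono (DE_anti y hD ht.1 ht.2)
  have hn2 : ∀ t ∈ Icc 0 s, (XF m θ D y t).Nonempty := fun t ht =>
    (hn1 t ht).mono (DE_sub y hD ht.1)
  refine lam_nonneg (m := fun t => Bf m θ (hs (XF m θ D y t)) (sa y)) hr hs'
    ⟨convex_Icc _ _, fun t ht t' ht' a b ha hb hab => ?_⟩ (fun t ht => ?_) fun t ht t' ht' k =>
      ⟨XF_I2 y h hD ht.1 k (hn1 t' ht'), XF_I1 y h hD ht.1 k (hn2 t ht)⟩
  · have e := Bf_add m θ (fun α => 0 + a * hs (XF m θ D y t) α) (hs (XF m θ D y t')) (sa y) b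
    rw [Bf_add m θ (fun _ => 0), show Bf m θ (fun _ => 0) (sa y) = 0 by simp [Bf], zero_add] at e
    simp only [smul_eq_mul]
    rw [← e]
    refine h.Bf_mono (sa_sa y) fun i _ => ?_
    have key : ∀ z ∈ XF m θ D y t, ∀ z' ∈ XF m θ D y t', a * lin z (i * θ) + b * lin z' (i * θ) ≤
        hs (XF m θ D y (a * t + b * t')) (i * θ) := by
      intro z hz z' hz'
      rw [← lin_smul, ← lin_smul, ← lin_vadd]
      refine le_hs (XF_bdd y h hD (add_nonneg (mul_nonneg ha ht.1) (mul_nonneg hb ht'.1)))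
        (fun k hk => ?_) _
      have k1 := mul_le_mul_of_nonneg_left (hz k hk) ha
      have k2 := mul_le_mul_of_nonneg_left (hz' k hk) hb
      have k3 : (a + b) * hs D (k * θ) = hs D (k * θ) := by rw [hab, one_mul]
      simp only [lin_vadd, lin_smul]
      linarith
    have key2 : ∀ c : ℝ, 0 ≤ c → ∀ X : Set E, X.Nonempty → ∀ u : ℝ,
        (∀ z ∈ X, c * lin z (i * θ) ≤ u) → c * hs X (i * θ) ≤ u := by
      intro c hc X hX u hu
      rcases hc.eq_or_lt with e | e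
      · obtain ⟨z, hz⟩ := hX
        simpa [← e] using hu z hz
      · exact (le_div_iff₀' e).1 (hs_le hX fun z hz => (le_div_iff₀' e).2 (hu z hz))
    rw [zero_add, ← le_sub_iff_add_le]
    refine key2 a ha _ (hn2 t ht) _ fun z hz => ?_
    rw [le_sub_comm]
    exact key2 b hb _ (hn2 t' ht') _ fun z' hz' => by linarith [key z hz z' hz']
  · have hF := sa_hs (XF_bdd y h hD ht.1) (hn2 t ht)
    rw [h.symm hF.per (sa_sa y).per]
    exact h.Bf_nonneg hF (sa_nonneg y)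

noncomputable def fθ (k : ℕ) : ℝ := π / 4 / 2 ^ k

lemma fan (k : ℕ) : Fan (8 * 2 ^ k) (fθ k) :=
  ⟨by unfold fθ; positivity, (div_le_self (by positivity) (one_le_pow₀ one_le_two)).trans_lt
    (by linarith [pi_pos]), by unfold fθ; push_cast; field_simp; ring⟩

lemma fθ_lim : Tendsto fθ atTop (𝓝 0) :=
  tendsto_const_nhds.div_atTop (tendsto_pow_atTop_atTop_of_one_lt one_lt_two)

lemma cos_fθ (k : ℕ) : 1 / 2 ≤ cos (fθ k) := by
  rw [← cos_pi_div_three]
  exact cos_le_cos_of_nonneg_of_le_pi (fan k).pos.le (by linarith [pi_pos])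
    ((div_le_self (by positivity) (one_le_pow₀ one_le_two)).trans (by linarith [pi_pos]))

lemma not_mem_poly (hD : Dom D) {z : E} (hz : z ∉ closure D) :
    ∀ᶠ k in atTop, z ∉ poly (8 * 2 ^ k) (fθ k) (hs D) := by
  obtain ⟨f, u, h1, h2⟩ := geometric_hahn_banach_closed_point hD.conv.closure isClosed_closure hz
  obtain ⟨R, hR⟩ := hD.bdd.exists_norm_le
  set w : E := !₂[f !₂[1, 0], f !₂[0, 1]]
  obtain ⟨φ, k0, k1⟩ := exists_angle w
  have e : ∀ x : E, f x = ‖w‖ * lin x φ := by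
    intro x
    have : x = x 0 • (!₂[1, 0] : E) + x 1 • (!₂[0, 1] : E) := by ext i; fin_cases i <;> simp
    rw [this, map_add, map_smul, map_smul, ← this, lin]
    change x 0 * w 0 + x 1 * w 1 = _
    rw [k0, k1]; ring
  have t1 : Tendsto (fun k => ‖w‖ * (‖z‖ + R) * fθ k) atTop (𝓝 0) := by
    simpa using fθ_lim.const_mul (‖w‖ * (‖z‖ + R))
  filter_upwards [t1.eventually (gt_mem_nhds (sub_pos.2 h2))] with k hk hp
  obtain ⟨i, hi⟩ := (fan k).near φ
  obtain ⟨x0, hx0⟩ := hD.ne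
  have w0 : 0 < ‖w‖ := (norm_nonneg w).lt_of_ne fun k => by
    have := (h1 x0 (subset_closure hx0)).trans h2
    simp [e, ← k] at this
  have k2 := ((fan k).mem (sa_hs hD.bdd hD.ne).per hp i).trans (hs_le hD.ne
    (c := u / ‖w‖ + R * fθ k) fun x hx => by
      have := (lt_div_iff₀' w0).2 (e x ▸ h1 x (subset_closure hx))
      have := (lin_lip x (i * fθ k) φ).trans (mul_le_mul (hR x hx) hi (abs_nonneg _)
        ((norm_nonneg _).trans (hR x hx)))
      linarith)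
  have k3 := (lin_lip z φ (i * fθ k)).trans (mul_le_mul_of_nonneg_left
    ((abs_sub_comm _ _).le.trans hi) (norm_nonneg _))
  have k4 := mul_le_mul_of_nonneg_left (show lin z φ ≤ u / ‖w‖ + (‖z‖ + R) * fθ k by linarith) w0.le
  rw [mul_add, mul_div_cancel₀ _ w0.ne', ← e] at k4
  linarith

lemma XF_lim (hD : Dom D) {t : ℝ} (ht : 0 ≤ t) :
    Tendsto (fun k => volume.real (XF (8 * 2 ^ k) (fθ k) D y t)) atTop (𝓝 (er D t y)) := by
  obtain ⟨R, hR⟩ := hD.bdd.exists_norm_le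
  refine (ENNReal.tendsto_toReal ((measure_mono (er_sub D t y)).trans_lt
    hD.bdd.measure_lt_top).ne).comp (tendsto_measure_of_ae_tendsto_indicator atTop
    (DE_open y hD t).measurableSet (fun k => ms_poly) (B := Metric.closedBall 0 (2 * R))
    measurableSet_closedBall measure_closedBall_lt_top.ne (Eventually.of_forall fun k z hz => ?_) ?_)
  · have := (fan k).bound ((sa_hs hD.bdd hD.ne).per.sub (sa_sa y).per 0) (R := R) (fun α => by
      simpa using hs_le hD.ne fun z hz => (lin_le _ _).trans (hR z hz)) (XF_anti y ht hz)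
    rw [mem_closedBall_zero_iff]
    nlinarith [cos_fθ k, norm_nonneg z]
  · have : ∀ᵐ z : E, ∀ j, z + t • cns 0 y j ∉ frontier D := ae_all_iff.2 fun j =>
      measure_eq_zero_iff_ae_notMem.1 ((measure_preimage_add_right volume (t • cns 0 y j)
        (frontier D)).trans (hD.conv.addHaar_frontier volume))
    filter_upwards [this] with z hz
    by_cases h1 : z ∈ DE D y t
    · exact Eventually.of_forall fun k => iff_of_true (DE_sub y hD ht h1) h1
    · obtain ⟨j, hj⟩ := not_forall.1 h1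
      filter_upwards [not_mem_poly hD (z := z + t • cns 0 y j) fun k =>
        hz j ⟨k, fun k' => hj (interior_subset k')⟩] with k hk
      exact iff_of_false (fun k' => hk ((mem_XF y ht).1 k' j)) h1

theorem er_lam (hD : Dom D) {r s : ℝ} (hr : 0 < r) (hs' : 2 * r < s) (hn : 0 < er D s y) :
    0 ≤ Lam (fun t => er D t y) r s := by
  have hn' : (DE D y s).Nonempty := nonempty_of_measure_ne_zero (μ := volume) fun k => by
    rw [er, Measure.real, show volume {a : E | ∀ j, a + s • cns 0 y j ∈ D} = 0 from k] at hn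
    simp at hn
  refine ge_of_tendsto' (x := atTop) ?_ fun k => XF_lam y (fan k) hD hr hs' hn'
  have h0 := XF_lim y hD le_rfl
  have h1 := XF_lim y hD hr.le
  have h2 := XF_lim y hD (show 0 ≤ 2 * r by positivity)
  exact (XF_lim y hD (by linarith)).sub ((h0.add (((h1.sub h0).div_const _).mul_const _)).add
    ((((h2.sub (h1.const_mul 2)).add h0).div_const _).mul_const _))

noncomputable def Pm (k : ℕ) (G : ℝ → ℝ) : ℝ :=
  (2 - 2 * cos (fθ k)) / sin (fθ k) * ∑ i ∈ Finset.range (8 * 2 ^ k), G (i * fθ k)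

lemma Pm_eq (k : ℕ) (hG : Per G) : Bf (8 * 2 ^ k) (fθ k) (fun _ => 1) G = Pm k G := by
  rw [(fan k).symm (fun _ _ _ _ => rfl) hG, Pm, Finset.mul_sum]
  exact Finset.sum_congr rfl fun i _ => by rw [ell]; ring

lemma Pm_succ (k : ℕ) (hG : SA G) : Pm (k + 1) G ≤ Pm k G := by
  set φ := fθ (k + 1)
  have e : fθ k = 2 * φ := by simp only [φ, fθ, pow_succ]; field_simp
  have hf := fan (k + 1)
  have hs := hf.sin_pos
  have hc := hf.cos_pos
  have h1 : ∀ N : ℕ, ∑ i ∈ Finset.range (2 * N), G (i * φ) =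
      ∑ i ∈ Finset.range N, (G (i * fθ k) + G (i * fθ k + φ)) := by
    intro N
    induction N with
    | zero => simp
    | succ N ih =>
      rw [mul_add, mul_one, Finset.sum_range_succ, Finset.sum_range_succ, Finset.sum_range_succ, ih,
        add_assoc, e]
      congr 3 <;> push_cast <;> ring
  have h2 := (fan k).shift (F := fun _ => 1) (fun _ _ _ _ => rfl) hG.per
  simp only [one_mul] at h2
  have h3 : 2 * cos φ * ∑ i ∈ Finset.range (8 * 2 ^ k), G (i * fθ k + φ) ≤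
      2 * ∑ i ∈ Finset.range (8 * 2 ^ k), G (i * fθ k) := by
    rw [two_mul (∑ i ∈ _, _), Finset.mul_sum]
    nth_rewrite 1 [← h2]
    rw [← Finset.sum_add_distrib]
    refine Finset.sum_le_sum fun i _ => ?_
    have := hf.ell_nonneg hG (i * fθ k + φ)
    rw [ell, le_div_iff₀ hs, add_sub_cancel_right, add_assoc, ← two_mul, ← e] at this
    linarith
  rw [Pm, Pm, show 8 * 2 ^ (k + 1) = 2 * (8 * 2 ^ k) by ring, h1, Finset.sum_add_distrib]
  set A := ∑ i ∈ Finset.range (8 * 2 ^ k), G (i * fθ k)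
  have h4 : ∑ i ∈ Finset.range (8 * 2 ^ k), G (i * fθ k + φ) ≤ A / cos φ :=
    (le_div_iff₀' hc).2 (by linarith)
  calc _ ≤ (2 - 2 * cos φ) / sin φ * (A + A / cos φ) := by
        gcongr; exact div_nonneg (by linarith [cos_le_one φ]) hs.le
    _ = _ := by
        have := hc.ne'
        rw [e, cos_two_mul, sin_two_mul]
        generalize cos φ = x at *
        field_simp; ring

theorem er_lip (hD : Dom D) {c : E} {ρ : ℝ} (hc : ∀ z ∈ D, ‖z - c‖ ≤ ρ) (j : ℕ) {t t' : ℝ}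
    (ht : 0 ≤ t) (htt : t ≤ t') : 0 ≤ er D t y - er D t' y ∧
      er D t y - er D t' y ≤ (t' - t) * (ρ * Pm j (sa y)) := by
  refine ⟨sub_nonneg.2 (measureReal_mono (DE_anti y hD ht htt) ((measure_mono
    (er_sub D t y)).trans_lt hD.bdd.measure_lt_top).ne), ?_⟩
  obtain ⟨x0, hx0⟩ := hD.ne
  have hρ : 0 ≤ ρ := (norm_nonneg _).trans (hc x0 hx0)
  refine le_of_tendsto ((XF_lim y hD ht).sub (XF_lim y hD (ht.trans htt))) ?_
  filter_upwards [eventually_ge_atTop j] with k hk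
  have h1 : Pm k (sa y) ≤ Pm j (sa y) :=
    antitone_nat_of_succ_le (f := fun k => Pm k (sa y)) (fun k => Pm_succ k (sa_sa y)) hk
  have h0 : 0 ≤ Pm k (sa y) := Pm_eq k (sa_sa y).per ▸ (fan k).Bf_nonneg (sa_sa y) fun _ => by simp
  rcases (XF (8 * 2 ^ k) (fθ k) D y t).eq_empty_or_nonempty with e | hn
  · rw [e, measureReal_empty, zero_sub]
    exact (neg_nonpos.2 measureReal_nonneg).trans
      (mul_nonneg (sub_nonneg.2 htt) (mul_nonneg hρ (h0.trans h1)))
  refine (XF_I1 y (fan k) hD ht htt hn).trans (mul_le_mul_of_nonneg_left ?_ (sub_nonneg.2 htt))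
  refine ((fan k).Bf_mono (G := fun α => lin c α + ρ * 1) (sa_sa y) fun i hi => ?_).trans ?_
  · have := hs_le hD.ne (α := i * fθ k) (c := lin c (i * fθ k) + ρ * 1) fun z hz => by
      linarith [lin_le (z - c) (i * fθ k), lin_vsub z c (i * fθ k), hc z hz]
    linarith [hs_XF y hn hi, mul_nonneg ht (sa_nonneg y (i * fθ k))]
  · rw [Bf_add _ _ (lin c) fun _ => 1, (fan k).Bf_lin (sa_sa y).per, Pm_eq k (sa_sa y).per,
      zero_add]
    gcongr

end

end Pool.Agent.Lib.MP_c1b9d3_an
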