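import Pool.Agent.Lib.MP_c1b9d3_an.Hit
import Pool.Agent.Lib.MP_c1b9d3_an.Conc

namespace Pool.Agent.Lib.MP_c1b9d3_an

open MeasureTheory Real Filter Topology Set Pool.Agent.Lib.MP_2d4879_an
open scoped ENNReal InnerProductSpace

lemma int_abs_cos (β : ℝ) : ∫ x in β..β + π, |cos x| = 2 := by
  have hp : Function.Periodic (fun x => |cos x|) π := fun x => by simp [cos_add_pi]
  rw [hp.intervalIntegral_add_eq β (-(π / 2)), intervalIntegral.integral_congr (g := cos)]
  · rw [integral_cos, show -(π / 2) + π = π / 2 by ring]; simp; norm_num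
  · intro x hx
    rw [uIcc_of_le (by linarith [pi_pos])] at hx
    exact abs_of_nonneg (cos_nonneg_of_mem_Icc ⟨hx.1, by linarith [hx.2]⟩)

noncomputable def cf (k : ℕ) : ℝ := (2 - 2 * cos (fθ k)) / sin (fθ k)

noncomputable def rf (k : ℕ) : ℝ := (cos (fθ k / 2))⁻¹

lemma half_pos' (k : ℕ) : 0 < sin (fθ k / 2) ∧ 0 < cos (fθ k / 2) := by
  have h1 := (fan k).pos
  have h2 := (fan k).lt
  exact ⟨sin_pos_of_pos_of_lt_pi (by linarith) (by linarith),
    cos_pos_of_mem_Ioo ⟨by linarith, by linarith⟩⟩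

lemma cf_eq (k : ℕ) : cf k = 2 * sin (fθ k / 2) * rf k := by
  obtain ⟨h1, h2⟩ := half_pos' k
  rw [cf, rf]
  nth_rewrite 1 2 [show fθ k = 2 * (fθ k / 2) by ring]
  rw [cos_two_mul, sin_two_mul, cos_sq']
  field_simp; ring

lemma one_le_rf (k : ℕ) : 1 ≤ rf k := (one_le_inv₀ (half_pos' k).2).2 (cos_le_one _)

lemma cf_nonneg (k : ℕ) : 0 ≤ cf k := by
  rw [cf_eq]; exact mul_nonneg (by linarith [(half_pos' k).1]) (zero_le_one.trans (one_le_rf k))

lemma cf_le (k : ℕ) : cf k ≤ 1 := by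
  have h1 := (fan k).pos
  have h2 : fθ k ≤ π / 4 := div_le_self (by positivity) (one_le_pow₀ one_le_two)
  rw [cf_eq, rf, ← div_eq_mul_inv, div_le_one (half_pos' k).2]
  nlinarith [sin_le (show 0 ≤ fθ k / 2 by linarith), one_sub_sq_div_two_le_cos (x := fθ k / 2),
    pi_lt_d2]

lemma rf_lim : Tendsto rf atTop (𝓝 1) := by
  have := ((continuous_cos.tendsto _).comp (fθ_lim.div_const 2)).inv₀ (by simp)
  simp only [zero_div, cos_zero, inv_one] at this
  exact this

lemma half_mul (k : ℕ) : ((4 * 2 ^ k : ℕ) : ℝ) * fθ k = π := by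
  unfold fθ; push_cast; field_simp

lemma zono (k : ℕ) (e : E) :
    cf k * ∑ i ∈ Finset.range (4 * 2 ^ k), |lin e (i * fθ k)| ≤ 2 * rf k * ‖e‖ := by
  obtain ⟨φ, h⟩ := lin_eq e
  have h1 := intervalIntegral.sum_integral_adjacent_intervals (f := fun x => |cos x|) (μ := volume)
    (a := fun i : ℕ => i * fθ k - φ - fθ k / 2) (n := 4 * 2 ^ k)
    fun _ _ => Continuous.intervalIntegrable (by fun_prop) _ _
  rw [half_mul, show π - φ - fθ k / 2 = ((0 : ℕ) * fθ k - φ - fθ k / 2) + π by simp; ring,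
    int_abs_cos] at h1
  have h2 : ∑ i ∈ Finset.range (4 * 2 ^ k), 2 * sin (fθ k / 2) * |cos (i * fθ k - φ)| ≤ 2 := by
    refine le_trans (Finset.sum_le_sum fun i _ => ?_) h1.le
    refine le_trans (le_of_eq ?_) (intervalIntegral.abs_integral_le_integral_abs
      (by push_cast; linarith [(fan k).pos]))
    rw [integral_cos, show ((i + 1 : ℕ) : ℝ) * fθ k - φ - fθ k / 2 =
      i * fθ k - φ + fθ k / 2 by push_cast; ring, sin_add, sin_sub _ (fθ k / 2),
      ← abs_of_pos (mul_pos two_pos (half_pos' k).1), ← abs_mul]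
    congr 1; ring
  simp only [h, abs_mul, abs_norm, ← Finset.mul_sum] at h2 ⊢
  rw [cf_eq]
  nlinarith [mul_le_mul_of_nonneg_left h2 (mul_nonneg (zero_le_one.trans (one_le_rf k))
    (norm_nonneg e))]

lemma Pm_half (k : ℕ) (G : ℝ → ℝ) : Pm k G =
    cf k * ∑ i ∈ Finset.range (4 * 2 ^ k), (G (i * fθ k) + G (i * fθ k + π)) := by
  rw [Pm, show 8 * 2 ^ k = 4 * 2 ^ k + 4 * 2 ^ k by ring, Finset.sum_range_add,
    Finset.sum_add_distrib]
  simp only [Nat.cast_add, add_mul, half_mul, add_comm π, cf]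

theorem Pm_tail (k : ℕ) {η : ℝ} (hη : 0 < η) (hη1 : η < 1) : ∃ C, ∀ n r, 1 ≤ r →
    (nu n).real {y | r ≤ Pm k (sa y)} ≤ exp (-((1 - η) / rf k ^ 2 * r ^ 2 / 4) + C * r) := by
  have c0 := cf_nonneg k
  obtain ⟨C, hC⟩ := zono_tail (M := 4 * 2 ^ k)
    (fun i => cf k • (!₂[cos (i * fθ k), sin (i * fθ k)] : E)) (one_le_rf k) hη hη1
    (fun i => by
      rw [← sq_le_one_iff₀ (norm_nonneg _), nsq]
      simp only [PiLp.smul_apply, Matrix.cons_val_zero, Matrix.cons_val_one, smul_eq_mul, mul_pow,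
        ← mul_add, cos_sq_add_sin_sq, mul_one]
      exact pow_le_one₀ c0 (cf_le k))
    (fun e he => by
      set V := ∑ i, e i • cf k • (!₂[cos (i * fθ k), sin (i * fθ k)] : E) with hV
      have h1 : ‖V‖ ^ 2 ≤ ∑ i : Fin (4 * 2 ^ k), cf k / 2 * |lin V (i * fθ k)| := by
        rw [← real_inner_self_eq_norm_sq]
        nth_rewrite 1 [hV]
        rw [sum_inner]
        refine Finset.sum_le_sum fun i _ => ?_
        rw [inner_smul_left, inner_smul_left, inn]
        refine (le_abs_self _).trans ?_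
        rw [abs_mul, abs_mul]
        simp only [conj_trivial, abs_of_nonneg c0]
        exact (mul_le_mul_of_nonneg_right (he i) (by positivity)).trans
          (le_of_eq (by simp [lin]; ring))
      rw [Fin.sum_univ_eq_sum_range (fun i => cf k / 2 * |lin V (i * fθ k)|),
        ← Finset.mul_sum] at h1
      have h2 := zono k V
      rcases (norm_nonneg V).eq_or_lt with h | h
      · linarith [one_le_rf k]
      · exact le_of_mul_le_mul_right (by linarith) h)
  refine ⟨C, fun n r hr => le_trans (le_of_eq ?_) (hC n r hr)⟩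
  congr 1; ext y
  simp only [mem_ofPred_eq, Pm_half, Finset.mul_sum]
  rw [← Fin.sum_univ_eq_sum_range (fun i => cf k * (sa y (i * fθ k) + sa y (i * fθ k + π)))]
  refine iff_of_eq (congrArg _ (Finset.sum_congr rfl fun i _ => ?_))
  simp only [PiLp.smul_apply, Matrix.cons_val_zero, Matrix.cons_val_one, smul_eq_mul, ← mul_neg,
    sa, cos_add_pi, sin_add_pi, mul_add]
  exact congrArg₂ _ ((sp y).smul _ _ _ c0).symm ((sp y).smul _ _ _ c0).symm

noncomputable def per (k1 k2 : E) : ℝ := ‖k1‖ + ‖k2 - k1‖ + ‖k2‖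

lemma Pm_tri (k : ℕ) (k1 k2 : E) : Pm k (sa ![k1, k2]) ≤ rf k * per k1 k2 := by
  have h1 : ∀ α, sa ![k1, k2] α + sa ![k1, k2] (α + π) ≤
      (|lin k1 α| + |lin (k2 - k1) α| + |lin k2 α|) / 2 := by
    intro α
    obtain ⟨i, hi⟩ := spf_eq ![k1, k2] (cos α) (sin α)
    obtain ⟨j, hj⟩ := spf_eq ![k1, k2] (cos (α + π)) (sin (α + π))
    rw [sa, sa, ← hi, ← hj, lin_vsub, cos_add_pi, sin_add_pi]
    have a1 := le_abs_self (lin k1 α)
    have a2 := neg_le_abs (lin k1 α)
    have a3 := le_abs_self (lin k2 α)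
    have a4 := neg_le_abs (lin k2 α)
    have a5 := le_abs_self (lin k2 α - lin k1 α)
    have a6 := neg_le_abs (lin k2 α - lin k1 α)
    generalize |lin k1 α| = x, |lin k2 α| = y, |lin k2 α - lin k1 α| = z at *
    unfold lin at *
    fin_cases i <;> fin_cases j <;> simp [cns] <;> linarith
  rw [Pm_half]
  refine (mul_le_mul_of_nonneg_left (Finset.sum_le_sum fun i _ => h1 _) (cf_nonneg k)).trans ?_
  rw [← Finset.sum_div, Finset.sum_add_distrib, Finset.sum_add_distrib, per]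
  linarith [zono k k1, zono k k2, zono k (k2 - k1)]

lemma wt_eq {h : ℝ} (hh : 0 < h) {n : ℕ} (y : Fin n → E) : wt h 0 0 y = ENNReal.ofReal
    ((4 * π * h)⁻¹ ^ (n + 1) * exp (-(∑ j, ‖cns 0 y j - snc y 0 j‖ ^ 2) / (4 * h))) := by
  rw [wt]
  simp only [pe]
  rw [← ENNReal.ofReal_prod_of_nonneg fun _ _ => (pk_pos hh _).le]
  simp only [pk, Finset.prod_mul_distrib, ← exp_sum, ← Finset.sum_div, Finset.sum_neg_distrib]
  simp

lemma inc_add {n : ℕ} (x y : Fin n → E) (c : ℝ) (j : Fin (n + 1)) :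
    cns 0 (x + c • y) j - snc (x + c • y) 0 j =
      cns 0 x j - snc x 0 j + c • (cns 0 y j - snc y 0 j) := by
  have h1 : cns 0 (x + c • y) j = cns 0 x j + c • cns 0 y j := by
    cases j using Fin.cases <;> simp
  have h2 : snc (x + c • y) 0 j = snc x 0 j + c • snc y 0 j := by
    cases j using Fin.lastCases <;> simp [snc]
  rw [h1, h2, smul_sub]; abel

lemma nu_shift {n : ℕ} (φ : Fin n → E) {B : Set (Fin n → E)} (hB : MeasurableSet B)
    (hs : ∀ y, -y ∈ B ↔ y ∈ B) :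
    ENNReal.ofReal (exp (-(∑ j, ‖cns 0 φ j - snc φ 0 j‖ ^ 2) / (4 * (1 / (n + 1))))) * nu n B ≤
      nu n {y | y - φ ∈ B} := by
  set h : ℝ := 1 / (n + 1)
  have hh : 0 < h := by positivity
  have m1 : ∀ c : ℝ, Measurable fun y => wt h 0 0 (φ + c • y) * B.indicator 1 y := fun c =>
    Measurable.mul (by fun_prop) (measurable_one.indicator hB)
  have e1 : pm h n 0 0 {y | y - φ ∈ B} = ∫⁻ y, wt h 0 0 (φ + (1 : ℝ) • y) * B.indicator 1 y := by
    rw [pm_apply _ _ _ (show MeasurableSet {y | y - φ ∈ B} from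
      hB.preimage (f := fun y => y - φ) (by fun_prop)), ← lintegral_add_left_eq_self _ φ]
    congr 1; ext y
    change wt h 0 0 (φ + y) * B.indicator 1 (φ + y - φ) = _
    rw [add_sub_cancel_left, one_smul]
  have e2 : pm h n 0 0 {y | y - φ ∈ B} = ∫⁻ y, wt h 0 0 (φ + (-1 : ℝ) • y) * B.indicator 1 y := by
    rw [e1, ← (volume_preserving_pi fun _ : Fin n => Measure.measurePreserving_neg
      (volume : Measure E)).lintegral_comp (m1 1)]
    congr 1; ext y
    change wt h 0 0 (φ + (1 : ℝ) • -y) * B.indicator 1 (-y) = _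
    rw [smul_neg, neg_smul]
    congr 1
    by_cases k : y ∈ B
    · rw [indicator_of_mem k, indicator_of_mem ((hs y).2 k)]; rfl
    · rw [indicator_of_notMem k, indicator_of_notMem (mt (hs y).1 k)]
  rw [nu, Measure.smul_apply, Measure.smul_apply, smul_eq_mul, smul_eq_mul, mul_left_comm]
  refine mul_le_mul_right ?_ _
  rw [← ENNReal.mul_le_mul_iff_right two_ne_zero ENNReal.ofNat_ne_top, two_mul (pm _ _ _ _ _)]
  nth_rewrite 1 [e1]
  rw [e2, ← lintegral_add_left (m1 1), pm_apply _ _ _ hB, ← mul_assoc,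
    ← lintegral_const_mul' _ _ (by finiteness)]
  refine lintegral_mono fun y => ?_
  rw [← add_mul, ← mul_assoc]
  refine mul_le_mul_left ?_ _
  rw [wt_eq hh, wt_eq hh, wt_eq hh, ← ENNReal.ofReal_add (by positivity) (by positivity),
    two_mul, ← ENNReal.ofReal_add (by positivity) (by positivity),
    ← ENNReal.ofReal_mul (by positivity), ← mul_add, mul_left_comm, ← two_mul, mul_assoc 2,
    ← exp_add]
  refine ENNReal.ofReal_le_ofReal (mul_le_mul_of_nonneg_left ?_ (by positivity))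
  simp only [inc_add, norm_add_sq_real, inner_smul_right, norm_smul, norm_neg, norm_one, one_mul,
    Finset.sum_add_distrib, ← Finset.mul_sum]
  set a := ∑ j, ‖cns 0 φ j - snc φ 0 j‖ ^ 2
  set b := ∑ j, ‖cns 0 y j - snc y 0 j‖ ^ 2
  set c := ∑ j, ⟪cns 0 φ j - snc φ 0 j, cns 0 y j - snc y 0 j⟫_ℝ
  rw [show -(a + 2 * c + b) / (4 * h) = -a / (4 * h) + -b / (4 * h) + -(c / (2 * h)) by ring,
    show -(a + 2 * (-1 * c) + b) / (4 * h) = -a / (4 * h) + -b / (4 * h) + c / (2 * h) by ring,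
    exp_add _ (-_), exp_add _ (c / _)]
  nlinarith [add_one_le_exp (c / (2 * h)), add_one_le_exp (-(c / (2 * h))),
    exp_pos (-a / (4 * h) + -b / (4 * h))]

lemma nu_ball (n : ℕ) : 1 / 2 ≤ (nu n).real {y | ∀ j, ‖y j‖ ≤ 4} := by
  have h0 : ∀ e : ℝ, e ^ 2 = 1 → (nu n).real {y | ∃ j, 2 ≤ e * y j 0} ≤ 1 / 8 := fun e he => by
    refine ENNReal.toReal_le_of_le_ofReal (by norm_num) ((nu_hit1 n he two_pos.le).trans
      (ENNReal.ofReal_le_ofReal ?_))
    rw [exp_neg, one_div]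
    refine inv_anti₀ (by norm_num) ?_
    rw [show (2 : ℝ) ^ 2 = 2 + 2 by norm_num, exp_add]
    nlinarith [add_one_le_exp 2]
  have h1 : ∀ e : ℝ, e ^ 2 = 1 → (nu n).real {y | ∃ j, 2 ≤ e * y j 1} ≤ 1 / 8 := fun e he => by
    refine le_trans (le_of_eq ?_) (h0 e he)
    refine Eq.trans ?_ ((nu_iso (ort 0 1 1 0 (by norm_num) (by norm_num)
      (by norm_num))).measureReal_preimage (ms_ex (ms_half e 2)).nullMeasurableSet)
    congr 1; ext y; simp [ort_0]
  have h2 : {y : Fin n → E | ∀ j, ‖y j‖ ≤ 4}ᶜ ⊆ ({y | ∃ j, 2 ≤ 1 * y j 0} ∪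
      {y | ∃ j, 2 ≤ -1 * y j 0}) ∪ ({y | ∃ j, 2 ≤ 1 * y j 1} ∪ {y | ∃ j, 2 ≤ -1 * y j 1}) := by
    intro y hy
    by_contra k
    simp only [mem_union, mem_ofPred_eq, not_or, not_exists, not_le] at k
    refine hy fun j => ?_
    rw [← sq_le_sq₀ (norm_nonneg _) (by norm_num), nsq]
    nlinarith [k.1.1 j, k.1.2 j, k.2.1 j, k.2.2 j]
  have h3 := (measureReal_mono h2 (measure_ne_top (nu n) _)).trans ((measureReal_union_le _ _).trans
    (add_le_add (measureReal_union_le _ _) (measureReal_union_le _ _)))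
  rw [probReal_compl_eq_one_sub (s := {y : Fin n → E | ∀ j, ‖y j‖ ≤ 4})
    (ms_all (A := {z : E | ‖z‖ ≤ 4}) (measurableSet_le (by fun_prop) measurable_const))] at h3
  linarith [h0 1 (by norm_num), h0 (-1) (by norm_num), h1 1 (by norm_num), h1 (-1) (by norm_num)]

noncomputable def co (x l : ℝ) : ℝ := if l ≤ x then 1 else max 0 x / l

lemma co_mul (x : ℝ) {l : ℝ} (hl : 0 ≤ l) : co x l * l = max 0 (min x l) := by
  unfold co
  split_ifs with h
  · rw [min_eq_right h, max_eq_right hl, one_mul]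
  · push Not at h
    rw [min_eq_left h.le]
    rcases hl.eq_or_lt with e | e
    · rw [← e] at h ⊢; simp [h.le]
    · exact div_mul_cancel₀ _ e.ne'

lemma co_mem (x : ℝ) {l : ℝ} (hl : 0 ≤ l) : 0 ≤ co x l ∧ co x l ≤ 1 := by
  unfold co
  split_ifs with h
  · simp
  · exact ⟨by positivity, div_le_one_of_le₀ (max_le hl (not_le.1 h).le) hl⟩

lemma co_le (x : ℝ) {l l' : ℝ} (hl : 0 ≤ l) (hl' : 0 ≤ l') : co (x - l) l' ≤ co x l := by
  by_cases h : l ≤ x
  · rw [show co x l = 1 from if_pos h]; exact (co_mem _ hl').2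
  · rw [co, if_neg (by linarith), max_eq_left (by linarith), zero_div]; exact (co_mem _ hl).1

lemma exists_path (k1 k2 : E) : ∃ γ : ℝ → E, γ 0 = 0 ∧ γ (per k1 k2) = 0 ∧
    (∀ x x', x' ≤ x → ‖γ x - γ x'‖ ≤ x - x') ∧ (∀ x, γ x ∈ convexHull ℝ (range (cns 0 ![k1, k2]))) ∧
    ∀ i, ∃ x ∈ Icc 0 (per k1 k2), γ x = cns 0 ![k1, k2] i := by
  have n1 := norm_nonneg k1
  have n2 := norm_nonneg (k2 - k1)
  have n3 := norm_nonneg k2
  have z : ∀ (x : ℝ) (e : E), x ≤ 0 → co x ‖e‖ • e = 0 := fun x e hx => by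
    rw [← norm_eq_zero, norm_smul, Real.norm_of_nonneg (co_mem _ (norm_nonneg e)).1,
      co_mul _ (norm_nonneg e), max_eq_left ((min_le_left _ _).trans hx)]
  have o : ∀ x l : ℝ, l ≤ x → co x l = 1 := fun x l h => if_pos h
  refine ⟨fun x => co x ‖k1‖ • k1 + co (x - ‖k1‖) ‖k2 - k1‖ • (k2 - k1) -
    co (x - ‖k1‖ - ‖k2 - k1‖) ‖k2‖ • k2, ?_, ?_, fun x x' hx => ?_, fun x => ?_, fun i => ?_⟩
  · simp only []
    rw [z _ _ le_rfl, z _ _ (by linarith), z _ _ (by linarith)]; simp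
  · simp only [per]
    rw [o _ _ (by linarith), o _ _ (by linarith), o _ _ (by linarith)]; simp
  · have key : ∀ (e : E) (u u' : ℝ), u' ≤ u → ‖co u ‖e‖ • e - co u' ‖e‖ • e‖ =
        max 0 (min u ‖e‖) - max 0 (min u' ‖e‖) := fun e u u' h => by
      rw [← sub_smul, norm_smul, Real.norm_eq_abs, ← abs_norm e, ← abs_mul, abs_norm, sub_mul,
        co_mul _ (norm_nonneg e), co_mul _ (norm_nonneg e), abs_of_nonneg]
      exact sub_nonneg.2 (max_le_max le_rfl (min_le_min_right _ h))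
    have sum : ∀ u, max 0 (min u ‖k1‖) + max 0 (min (u - ‖k1‖) ‖k2 - k1‖) +
        max 0 (min (u - ‖k1‖ - ‖k2 - k1‖) ‖k2‖) = max 0 (min u (per k1 k2)) := fun u => by
      simp only [per, max_def, min_def]; split_ifs <;> linarith
    have k := norm_sub_le_of_le (norm_add_le_of_le (key k1 x x' hx).le
      (key (k2 - k1) _ _ (sub_le_sub_right hx ‖k1‖)).le)
      (key k2 _ _ (sub_le_sub_right (sub_le_sub_right hx ‖k1‖) ‖k2 - k1‖)).le
    refine le_trans (le_of_eq (by congr 1; beta_reduce; module)) (k.trans ?_)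
    have : max 0 (min x (per k1 k2)) - max 0 (min x' (per k1 k2)) ≤ x - x' := by
      simp only [max_def, min_def]; split_ifs <;> linarith
    linarith [sum x, sum x']
  · have h1 := (co_mem x n1).2
    have h2 := co_le x n1 n2
    have h3 := co_le (x - ‖k1‖) n2 n3
    have h4 := (co_mem (x - ‖k1‖ - ‖k2 - k1‖) n3).1
    simp only []
    generalize co x ‖k1‖ = a, co (x - ‖k1‖) ‖k2 - k1‖ = b, co (x - ‖k1‖ - ‖k2 - k1‖) ‖k2‖ = c at *
    convert (convex_convexHull ℝ _).sum_mem (t := Finset.univ) (w := ![1 - a + c, a - b, b - c])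
      (z := cns 0 ![k1, k2]) (fun i _ => by fin_cases i <;> simp <;> linarith)
      (by simp only [Fin.sum_univ_three, Matrix.cons_val]; ring) fun i _ => subset_convexHull _ _ (mem_range_self i) using 1
    simp only [Fin.sum_univ_three, cns, Matrix.cons_val, Fin.cons_zero, Fin.cons_one]
    change _ = _ + _ + (b - c) • k2
    module
  · fin_cases i
    · refine ⟨0, ⟨le_rfl, by unfold per; positivity⟩, ?_⟩
      simp only []
      rw [z _ _ le_rfl, z _ _ (by linarith), z _ _ (by linarith)]; simp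
    · refine ⟨‖k1‖, ⟨n1, by unfold per; linarith⟩, ?_⟩
      simp only []
      rw [o _ _ le_rfl, z _ _ (by linarith), z _ _ (by linarith)]; simp [cns]
    · refine ⟨‖k1‖ + ‖k2 - k1‖, ⟨by positivity, by unfold per; linarith⟩, ?_⟩
      simp only []
      rw [o _ _ (by linarith), o _ _ (by linarith), z _ _ (by linarith)]
      simp only [one_smul, add_sub_cancel, sub_zero]; rfl

def Near {n n' : ℕ} (η s : ℝ) (y : Fin n → E) (y0 : Fin n' → E) : Prop :=
  (∀ j, ∃ w ∈ convexHull ℝ (range (cns 0 y0)), ‖s • cns 0 y j - w‖ ≤ η) ∧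
    ∀ i, ∃ j, ‖s • cns 0 y j - cns 0 y0 i‖ ≤ η

theorem tube (k1 k2 : E) {s : ℝ} (hs : 0 < s) (n : ℕ) : ∃ G, MeasurableSet G ∧
    exp (-(per k1 k2 / s) ^ 2 / 4) / 2 ≤ (nu n).real G ∧
      ∀ y ∈ G, Near (4 * s + per k1 k2 / (n + 1)) s y ![k1, k2] := by
  obtain ⟨γ, h0, h1, h2, h3, h4⟩ := exists_path k1 k2
  have p0 : 0 ≤ per k1 k2 := by unfold per; positivity
  set P := per k1 k2
  set δ := P / (n + 1) with hδ
  have δ0 : 0 ≤ δ := by positivity
  set φ : Fin n → E := fun j => s⁻¹ • γ ((j + 1) * δ) with hφ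
  have e1 : ∀ j : Fin (n + 1), cns 0 φ j = s⁻¹ • γ (j * δ) := fun j => by
    cases j using Fin.cases <;> simp [h0, hφ]
  have e2 : ∀ j : Fin (n + 1), snc φ 0 j = s⁻¹ • γ ((j + 1) * δ) := fun j => by
    cases j using Fin.lastCases
    · rw [Fin.val_last, hδ, mul_div_cancel₀ _ (by positivity), h1]; simp [snc]
    · simp [snc, hφ]
  have hB : MeasurableSet {y : Fin n → E | ∀ j, ‖y j‖ ≤ 4} :=
    ms_all (A := {z : E | ‖z‖ ≤ 4}) (measurableSet_le (by fun_prop) measurable_const)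
  refine ⟨{y | y - φ ∈ {y : Fin n → E | ∀ j, ‖y j‖ ≤ 4}}, hB.preimage (by fun_prop), ?_,
    fun y hy => ?_⟩
  · have := ENNReal.toReal_mono (measure_ne_top _ _) (nu_shift φ hB fun y => by simp)
    rw [ENNReal.toReal_mul, ENNReal.toReal_ofReal (exp_pos _).le] at this
    refine le_trans ?_ this
    rw [div_eq_mul_one_div (exp _)]
    refine mul_le_mul (exp_le_exp.2 ?_) (nu_ball n) (by norm_num) (exp_pos _).le
    have k : ∑ j, ‖cns 0 φ j - snc φ 0 j‖ ^ 2 ≤ ∑ _ : Fin (n + 1), (δ / s) ^ 2 := by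
      refine Finset.sum_le_sum fun j _ => pow_le_pow_left₀ (norm_nonneg _) ?_ 2
      rw [e1, e2, ← smul_sub, norm_smul, norm_sub_rev, Real.norm_of_nonneg (by positivity),
        div_eq_inv_mul]
      exact mul_le_mul_of_nonneg_left ((h2 _ _ (by nlinarith)).trans_eq (by ring)) (by positivity)
    rw [le_div_iff₀ (by positivity)]
    refine le_trans (le_of_eq ?_) (neg_le_neg k)
    simp only [Finset.sum_const, Finset.card_univ, Fintype.card_fin, nsmul_eq_mul, hδ]
    push_cast; field_simp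
  · have k : ∀ j : Fin (n + 1), ‖s • cns 0 y j - γ (j * δ)‖ ≤ 4 * s := fun j => by
      have : ‖cns 0 y j - cns 0 φ j‖ ≤ 4 := by
        cases j using Fin.cases
        · simp
        · exact hy _
      rw [e1] at this
      rw [← smul_inv_smul₀ hs.ne' (γ _), ← smul_sub, norm_smul, Real.norm_of_nonneg hs.le, mul_comm]
      gcongr
    refine ⟨fun j => ⟨_, h3 _, (k j).trans (by linarith)⟩, fun i => ?_⟩
    obtain ⟨x, hx, e⟩ := h4 i
    obtain ⟨j, j1, j2⟩ : ∃ j : Fin (n + 1), j * δ ≤ x ∧ x - j * δ ≤ δ := by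
      rcases δ0.eq_or_lt with d | d
      · refine ⟨0, by simpa using hx.1, ?_⟩
        have : P = 0 := by simpa [hδ, show (n : ℝ) + 1 ≠ 0 by positivity] using d.symm
        simpa [← d, this] using hx.2
      · have f1 := (le_div_iff₀ d).1 (Nat.floor_le (div_nonneg hx.1 δ0))
        have f2 := (div_lt_iff₀ d).1 (Nat.lt_floor_add_one (x / δ))
        by_cases hj : ⌊x / δ⌋₊ < n + 1
        · exact ⟨⟨_, hj⟩, f1, by simp only []; linarith⟩
        · have f3 : (n : ℝ) + 1 ≤ ⌊x / δ⌋₊ := by exact_mod_cast not_lt.1 hj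
          have f4 : (n + 1) * δ = P := mul_div_cancel₀ _ (by positivity)
          exact ⟨Fin.last n, by simp only [Fin.val_last]; nlinarith,
            by simp only [Fin.val_last]; linarith [hx.2]⟩
    refine ⟨j, ?_⟩
    rw [← e]
    have := h2 _ _ j1
    rw [norm_sub_rev] at this
    linarith [norm_sub_le_norm_sub_add_norm_sub (s • cns 0 y j) (γ (j * δ)) (γ x), k j]

end Pool.Agent.Lib.MP_c1b9d3_an
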