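import Pool.Agent.Lib.MP_c1b9d3_an.Fit

namespace Pool.Agent.Lib.MP_c1b9d3_an

open MeasureTheory Real Filter Topology Set Pool.Agent.Lib.MP_2d4879_an
open scoped InnerProductSpace

lemma circ_lt {x y x' y' : ℝ} (h : x ^ 2 + y ^ 2 = x' ^ 2 + y' ^ 2) (hy : 0 ≤ y) (hy' : 0 < y')
    (hx : x' < x) : 0 < x * y' - y * x' := by
  rcases le_total 0 x' with k | k
  · have : y ≤ y' := le_of_sq_le_sq' (by nlinarith) hy'.le
    nlinarith
  · rcases le_or_gt x 0 with k' | k'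
    · have : y' ≤ y := le_of_sq_le_sq' (by nlinarith) hy
      nlinarith
    · nlinarith
where le_of_sq_le_sq' {a b : ℝ} (h : a ^ 2 ≤ b ^ 2) (hb : 0 ≤ b) : a ≤ b :=
  (abs_le_of_sq_le_sq' h hb).2

lemma arc_pos {r x y x2 y2 u v : ℝ} (_hr : 0 < r) (h : x ^ 2 + y ^ 2 = r ^ 2)
    (h2 : x2 ^ 2 + y2 ^ 2 = r ^ 2) (hy : 0 ≤ y) (hy2 : 0 ≤ y2) (hx : x2 ≤ x) (hu : 0 < u)
    (hw : 0 < u * x2 + v * y2) : 0 < u * x + v * y := by
  rcases hx.eq_or_lt with rfl | hx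
  · rwa [show y = y2 from (pow_left_inj₀ hy hy2 two_ne_zero).1 (by linarith)]
  rcases hy2.eq_or_lt with rfl | hy2
  · have : 0 < x2 := by nlinarith
    nlinarith
  · have := circ_lt (h.trans h2.symm) hy hy2 hx
    refine (mul_pos_iff_of_pos_left hy2).1 ?_
    nlinarith [mul_pos hu this, mul_nonneg hy hw.le]

def Cert (C : Set E) (ρ : ℝ) : Prop :=
  (∃ X ∈ C, -X ∈ C ∧ ‖X‖ = ρ) ∨ ∃ X1 ∈ C, ∃ X2 ∈ C, ∃ X3 ∈ C, ‖X1‖ = ρ ∧ ‖X2‖ = ρ ∧ ‖X3‖ = ρ ∧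
    0 < det X1 X2 ∧ 0 < det X2 X3 ∧ 0 < det X3 X1

lemma cert_of {C : Set E} (hC : IsCompact C) {ρ : ℝ} (hρ : 0 < ρ)
    (h : ∀ w : E, ∃ X ∈ C, ‖X‖ = ρ ∧ ⟪w, X⟫_ℝ ≤ 0) : Cert C ρ := by
  obtain ⟨X1, m1, n1, -⟩ := h 0
  have cd : Continuous (det X1) := by unfold det; fun_prop
  have hT := hC.inter_right (isClosed_eq continuous_norm (continuous_const (y := ρ)))
  obtain ⟨X2, ⟨⟨m2, n2⟩, d2⟩, h2⟩ := (hT.inter_right (isClosed_le (continuous_const (y := 0))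
    cd)).exists_isMinOn ⟨X1, ⟨m1, n1⟩, by simp [det, mul_comm]⟩ (f := fun X => ⟪X1, X⟫_ℝ)
    (by fun_prop)
  obtain ⟨X3, ⟨⟨m3, n3⟩, d3⟩, h3⟩ := (hT.inter_right (isClosed_le cd
    (continuous_const (y := 0)))).exists_isMinOn ⟨X1, ⟨m1, n1⟩, by simp [det, mul_comm]⟩
    (f := fun X => ⟪X1, X⟫_ℝ) (by fun_prop)
  simp only [mem_ofPred_eq] at n2 n3 d2 d3
  have e1 : ∀ X Y : E, ρ ^ 2 * ⟪X, Y⟫_ℝ = ⟪X1, X⟫_ℝ * ⟪X1, Y⟫_ℝ + det X1 X * det X1 Y :=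
    fun X Y => by simp only [← n1, nsq, inn, det]; ring
  have e2 : ∀ X Y : E, ρ ^ 2 * det X Y = ⟪X1, X⟫_ℝ * det X1 Y - det X1 X * ⟪X1, Y⟫_ℝ :=
    fun X Y => by simp only [← n1, nsq, inn, det]; ring
  have e3 : ∀ X : E, ‖X‖ = ρ → ⟪X1, X⟫_ℝ ^ 2 + det X1 X ^ 2 = (ρ ^ 2) ^ 2 := fun X hX => by
    rw [sq, sq (det _ _), ← e1, real_inner_self_eq_norm_sq, hX]; ring
  have anti : ∀ X ∈ C, ∀ Y ∈ C, ‖X‖ = ρ → ⟪X1, X⟫_ℝ + ⟪X1, Y⟫_ℝ = 0 → det X1 X + det X1 Y = 0 →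
      Cert C ρ := fun X hX Y hY hn k1 k2 => by
    have k := e1 (X + Y) (X + Y)
    rw [inner_add_right X1, k1, show det X1 (X + Y) = 0 by rw [← k2]; simp [det]; ring] at k
    have : X + Y = 0 := by simpa [hρ.ne'] using k
    exact Or.inl ⟨X, hX, (neg_eq_of_add_eq_zero_right this).symm ▸ hY, hn⟩
  have r0 : 0 < ρ ^ 2 := by positivity
  have c2 := e3 X2 n2
  have c3 := e3 X3 n3
  have x1 : ⟪X1, X1⟫_ℝ = ρ ^ 2 := by rw [real_inner_self_eq_norm_sq, n1]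
  have y1 : det X1 X1 = 0 := by simp [det, mul_comm]
  rcases lt_trichotomy (⟪X1, X2⟫_ℝ + ⟪X1, X3⟫_ℝ) 0 with k | k | k
  · rcases d2.eq_or_lt with e | d2
    · refine anti X1 m1 X2 m2 n1 ?_ (by linarith)
      rw [← e] at c2
      have := abs_le_of_sq_le_sq' (show ⟪X1, X3⟫_ℝ ^ 2 ≤ (ρ ^ 2) ^ 2 by nlinarith) r0.le
      rcases sq_eq_sq_iff_eq_or_eq_neg.1 (show ⟪X1, X2⟫_ℝ ^ 2 = (ρ ^ 2) ^ 2 by linarith) with
        f | f <;> linarith [this.1]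
    rcases d3.eq_or_lt with e | d3
    · refine anti X1 m1 X3 m3 n1 ?_ (by linarith)
      rw [e] at c3
      have := abs_le_of_sq_le_sq' (show ⟪X1, X2⟫_ℝ ^ 2 ≤ (ρ ^ 2) ^ 2 by nlinarith) r0.le
      rcases sq_eq_sq_iff_eq_or_eq_neg.1 (show ⟪X1, X3⟫_ℝ ^ 2 = (ρ ^ 2) ^ 2 by linarith) with
        f | f <;> linarith [this.1]
    refine Or.inr ⟨X1, m1, X2, m2, X3, m3, n1, n2, n3, d2, ?_, by unfold det at d3 ⊢; linarith⟩
    have := circ_lt (x := -⟪X1, X2⟫_ℝ) (y := det X1 X2) (x' := ⟪X1, X3⟫_ℝ) (y' := -det X1 X3)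
      (by linarith) d2.le (by linarith) (by linarith)
    exact (mul_pos_iff_of_pos_left r0).1 (by rw [e2]; linarith)
  · refine anti X2 m2 X3 m3 n2 k ?_
    rw [show ⟪X1, X3⟫_ℝ = -⟪X1, X2⟫_ℝ by linarith] at c3
    have := (pow_left_inj₀ d2 (neg_nonneg.2 d3) two_ne_zero).1 (by linarith)
    linarith
  · obtain ⟨X, m, n, hX⟩ := h (X2 + X3)
    have k1 := e1 (X2 + X3) X
    rw [inner_add_right X1, show det X1 (X2 + X3) = det X1 X2 + det X1 X3 by simp [det]; ring] at k1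
    have k2 := mul_nonneg r0.le (neg_nonneg.2 hX)
    have k3 := sq_nonneg (det X1 X2 + det X1 X3)
    rcases le_total 0 (det X1 X) with d | d
    · linarith [arc_pos (v := det X1 X2 + det X1 X3) r0 (e3 X n) c2 d d2 (h2 ⟨⟨m, n⟩, d⟩) k
        (by nlinarith)]
    · linarith [arc_pos (y := -det X1 X) (y2 := -det X1 X3) (v := -(det X1 X2 + det X1 X3)) r0
        (by linarith [e3 X n]) (by linarith) (by linarith) (by linarith) (h3 ⟨⟨m, n⟩, d⟩) k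
        (by nlinarith)]

theorem exists_disc {C : Set E} (hC : IsCompact C) (hv : volume C ≠ 0) :
    ∃ c ρ, 0 < ρ ∧ (∀ z ∈ C, ‖z - c‖ ≤ ρ) ∧ Cert ((· + c) ⁻¹' C) ρ := by
  obtain ⟨R, hR⟩ := hC.isBounded.exists_norm_le
  obtain ⟨z0, hz0⟩ := nonempty_of_measure_ne_zero hv
  have R0 : 0 ≤ R := (norm_nonneg _).trans (hR z0 hz0)
  have hcl : IsClosed {p : E × ℝ | ∀ z ∈ C, ‖z - p.1‖ ≤ p.2} := by
    simp only [ofPred_forall]
    exact isClosed_biInter fun z _ => isClosed_le (by fun_prop) continuous_snd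
  obtain ⟨⟨c, ρ⟩, ⟨⟨-, h1⟩, h2⟩, h3⟩ := (((isCompact_closedBall (0 : E) (2 * R)).prod
    (isCompact_Icc (a := 0) (b := R))).inter_right hcl).exists_isMinOn
    ⟨(0, R), ⟨by simpa using R0, R0, le_rfl⟩, by simpa using hR⟩ continuous_snd.continuousOn
  have hmin : ∀ c' ρ', (∀ z ∈ C, ‖z - c'‖ ≤ ρ') → ρ ≤ ρ' := fun c' ρ' h => by
    refine le_of_not_gt fun k => (h3 (a := (c', ρ')) ⟨⟨?_, (norm_nonneg _).trans (h z0 hz0),
      k.le.trans h1.2⟩, h⟩).not_gt k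
    rw [mem_closedBall_zero_iff]
    linarith [norm_sub_norm_le c' z0, norm_sub_rev c' z0, h z0 hz0, hR z0 hz0, show ρ ≤ R from h1.2]
  have hρ : 0 < ρ := h1.1.lt_of_ne fun k => hv (measure_mono_null (t := {c})
    (fun z hz => sub_eq_zero.1 (norm_le_zero_iff.1 (k ▸ h2 z hz))) (measure_singleton c))
  refine ⟨c, ρ, hρ, h2, cert_of ((Homeomorph.addRight c).isCompact_preimage.2 hC) hρ fun w => ?_⟩
  by_contra k
  push Not at k
  have ev := hC.eventually_forall_of_forall_eventually (x₀ := (0 : ℝ))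
    (P := fun τ z => z ∈ C → 0 < τ → ‖z - (c + τ • w)‖ < ρ) fun y hy => by
      rcases (show ‖y - c‖ ≤ ρ from h2 y hy).eq_or_lt with e | e
      · have k1 := k (y - c) (by simpa using hy) e
        filter_upwards [(show Continuous fun p : ℝ × E => 2 * ⟪w, p.2 - c⟫_ℝ - p.1 * ‖w‖ ^ 2 by
          fun_prop).continuousAt.eventually (lt_mem_nhds (a := 0) (by simpa using k1))]
          with p hp hz hτ
        refine lt_of_pow_lt_pow_left₀ 2 hρ.le ?_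
        rw [← sub_sub, norm_sub_sq_real, inner_smul_right, norm_smul, real_inner_comm,
          Real.norm_of_nonneg hτ.le]
        nlinarith [pow_le_pow_left₀ (norm_nonneg _) (show ‖p.2 - c‖ ≤ ρ from h2 _ hz) 2,
          mul_pos hτ hp]
      · filter_upwards [(show Continuous fun p : ℝ × E => ‖p.2 - (c + p.1 • w)‖ by
          fun_prop).continuousAt.eventually (gt_mem_nhds (a := ρ) (by simpa using e))]
          with p hp _ _ using hp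
  obtain ⟨τ, t1, t2⟩ := ((ev.filter_mono (nhdsWithin_le_nhds (s := Ioi 0))).and
    self_mem_nhdsWithin).exists
  obtain ⟨z, hz, k2⟩ := hC.exists_isMaxOn ⟨z0, hz0⟩ (f := fun z => ‖z - (c + τ • w)‖) (by fun_prop)
  exact (hmin _ _ k2).not_gt (t1 z hz hz t2)

end Pool.Agent.Lib.MP_c1b9d3_an
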