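import Pool.Agent.Lib.MP_2d4879_an.Geom

namespace Pool.Agent.Lib.MP_c1b9d3_an

open MeasureTheory Real Filter Topology Set Pool.Agent.Lib.MP_2d4879_an
open scoped ENNReal Pointwise

noncomputable def lin (z : E) (α : ℝ) : ℝ := cos α * z 0 + sin α * z 1

def SA (F : ℝ → ℝ) : Prop := ∀ α β γ a b : ℝ, 0 ≤ a → 0 ≤ b → cos γ = a * cos α + b * cos β →
  sin γ = a * sin α + b * sin β → F γ ≤ a * F α + b * F β

def Per (F : ℝ → ℝ) : Prop := ∀ α β, cos α = cos β → sin α = sin β → F α = F β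

lemma SA.per {F : ℝ → ℝ} (h : SA F) : Per F := fun α β h1 h2 =>
  le_antisymm (by simpa using h β β α 1 0 zero_le_one le_rfl (by simp [h1]) (by simp [h2]))
    (by simpa using h α α β 1 0 zero_le_one le_rfl (by simp [h1]) (by simp [h2]))

lemma SA.add {F G : ℝ → ℝ} (h : SA F) (h' : SA G) {c : ℝ} (hc : 0 ≤ c) :
    SA fun α => F α + c * G α := fun α β γ a b ha hb h1 h2 => by
  have := mul_le_mul_of_nonneg_left (h' α β γ a b ha hb h1 h2) hc
  linarith [h α β γ a b ha hb h1 h2]

lemma SA.sub_lin {F : ℝ → ℝ} (h : SA F) (z : E) : SA fun α => F α - lin z α :=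
  fun α β γ a b ha hb h1 h2 => by
    have := h α β γ a b ha hb h1 h2
    simp only [lin, h1, h2]
    linarith

lemma per_lin (z : E) : Per (lin z) := fun α β h1 h2 => by simp [lin, h1, h2]

lemma Per.sub {F G : ℝ → ℝ} (h : Per F) (h' : Per G) (c : ℝ) : Per fun α => F α - c * G α :=
  fun α β h1 h2 => by simp only [h α β h1 h2, h' α β h1 h2]

structure Fan (m : ℕ) (θ : ℝ) : Prop where
  pos : 0 < θ
  lt : θ < π / 2
  mul : m * θ = 2 * π

noncomputable def ell (θ : ℝ) (F : ℝ → ℝ) (α : ℝ) : ℝ :=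
  (F (α + θ) + F (α - θ) - 2 * cos θ * F α) / sin θ

noncomputable def Bf (m : ℕ) (θ : ℝ) (F G : ℝ → ℝ) : ℝ :=
  ∑ i ∈ Finset.range m, F (i * θ) * ell θ G (i * θ)

def poly (m : ℕ) (θ : ℝ) (F : ℝ → ℝ) : Set E := {z | ∀ i < m, lin z (i * θ) ≤ F (i * θ)}

variable {m : ℕ} {θ : ℝ} {F G : ℝ → ℝ}

lemma Fan.sin_pos (h : Fan m θ) : 0 < sin θ :=
  sin_pos_of_pos_of_lt_pi h.pos (by linarith [h.lt, pi_pos])

lemma Fan.cos_pos (h : Fan m θ) : 0 < cos θ :=
  cos_pos_of_mem_Ioo ⟨by linarith [h.pos, pi_pos], h.lt⟩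

lemma Fan.m_pos (h : Fan m θ) : 0 < m := by
  rcases Nat.eq_zero_or_pos m with rfl | k
  · have := h.mul; simp at this
  · exact k

lemma Fan.ell_nonneg (h : Fan m θ) (hF : SA F) (α : ℝ) : 0 ≤ ell θ F α := by
  have hc := h.cos_pos
  have := hF (α + θ) (α - θ) α (2 * cos θ)⁻¹ (2 * cos θ)⁻¹ (by positivity) (by positivity)
    (by rw [cos_add, cos_sub]; field_simp; ring) (by rw [sin_add, sin_sub]; field_simp; ring)
  refine div_nonneg ?_ h.sin_pos.le
  rw [← mul_add, ← div_eq_inv_mul, le_div_iff₀ (by positivity)] at this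
  linarith

lemma ell_lin (θ : ℝ) (z : E) (α : ℝ) : ell θ (lin z) α = 0 := by
  simp only [ell, lin, cos_add, cos_sub, sin_add, sin_sub]
  rw [div_eq_zero_iff]; left; ring

lemma Fan.per (h : Fan m θ) (hF : Per F) (α : ℝ) (k : ℤ) : F (α + k * (m * θ)) = F α := by
  rw [h.mul]
  exact hF _ _ (cos_add_int_mul_two_pi _ _) (sin_add_int_mul_two_pi _ _)

lemma Fan.mem (h : Fan m θ) (hF : Per F) {z : E} (hz : z ∈ poly m θ F) (i : ℤ) :
    lin z (i * θ) ≤ F (i * θ) := by
  have hm : (0 : ℤ) < m := by exact_mod_cast h.m_pos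
  have e : (i : ℝ) * θ = ((i % m).toNat : ℕ) * θ + (i / m : ℤ) * (m * θ) := by
    have h1 : (((i % m).toNat : ℕ) : ℝ) = (i % m : ℤ) := by
      rw [← Int.cast_natCast, Int.toNat_of_nonneg (Int.emod_nonneg _ hm.ne')]
    have h2 : (i : ℝ) = (i % m : ℤ) + m * (i / m : ℤ) := by
      exact_mod_cast (Int.emod_add_mul_ediv i m).symm
    rw [h1]; nth_rewrite 1 [h2]; ring
  rw [e, h.per hF, h.per (per_lin z)]
  exact hz _ (by have := Int.emod_lt_of_pos i hm; omega)

lemma Fan.mem_nb (h : Fan m θ) (hF : Per F) {z : E} (hz : z ∈ poly m θ F) (i : ℕ) :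
    lin z (i * θ + θ) ≤ F (i * θ + θ) ∧ lin z (i * θ - θ) ≤ F (i * θ - θ) := by
  have h1 := h.mem hF hz (i + 1)
  have h2 := h.mem hF hz (i - 1)
  push_cast at h1 h2
  rw [add_one_mul] at h1
  rw [sub_one_mul] at h2
  exact ⟨h1, h2⟩

lemma Fan.shift (h : Fan m θ) (hF : Per F) (hG : Per G) :
    ∑ i ∈ Finset.range m, F (i * θ) * G (i * θ + θ) =
      ∑ i ∈ Finset.range m, F (i * θ - θ) * G (i * θ) := by
  have h1 := Finset.sum_range_succ (fun i : ℕ => F (i * θ - θ) * G (i * θ)) m
  have h2 := Finset.sum_range_succ' (fun i : ℕ => F (i * θ - θ) * G (i * θ)) m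
  have h3 := h.per hF (-θ) 1
  have h4 := h.per hG 0 1
  simp only [Nat.cast_add, Nat.cast_one, add_one_mul, add_sub_cancel_right, Nat.cast_zero, zero_mul,
    zero_sub, Int.cast_one, one_mul, zero_add, neg_add_eq_sub] at h2 h3 h4
  rw [h3, h4] at h1
  linarith

lemma Fan.symm (h : Fan m θ) (hF : Per F) (hG : Per G) : Bf m θ F G = Bf m θ G F := by
  have h1 := h.shift hF hG
  have h2 := h.shift hG hF
  simp only [Bf, ell, ← mul_div_assoc, ← Finset.sum_div, mul_sub, mul_add, Finset.sum_sub_distrib,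
    Finset.sum_add_distrib]
  rw [h1, h2]
  simp only [mul_comm, mul_left_comm, add_comm]

lemma Bf_add (m : ℕ) (θ : ℝ) (F G H : ℝ → ℝ) (c : ℝ) :
    Bf m θ (fun α => F α + c * G α) H = Bf m θ F H + c * Bf m θ G H := by
  simp only [Bf, add_mul, Finset.sum_add_distrib, Finset.mul_sum, mul_assoc]

lemma Bf_add' (m : ℕ) (θ : ℝ) (F G H : ℝ → ℝ) (c : ℝ) :
    Bf m θ H (fun α => F α + c * G α) = Bf m θ H F + c * Bf m θ H G := by
  simp only [Bf, Finset.mul_sum, ← Finset.sum_add_distrib, ell]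
  exact Finset.sum_congr rfl fun i _ => by ring

lemma Fan.Bf_mono (h : Fan m θ) {H : ℝ → ℝ} (hH : SA H)
    (hFG : ∀ i < m, F (i * θ) ≤ G (i * θ)) : Bf m θ F H ≤ Bf m θ G H :=
  Finset.sum_le_sum fun _ hi => mul_le_mul_of_nonneg_right (hFG _ (Finset.mem_range.1 hi))
    (h.ell_nonneg hH _)

lemma Fan.Bf_nonneg (h : Fan m θ) (hG : SA G) (hF : ∀ α, 0 ≤ F α) : 0 ≤ Bf m θ F G :=
  Finset.sum_nonneg fun _ _ => mul_nonneg (hF _) (h.ell_nonneg hG _)

noncomputable def rot (α : ℝ) : E ≃ₗᵢ[ℝ] E :=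
  ort (-sin α) (cos α) (cos α) (sin α) (by simp) (by simp) (by ring)

lemma rot_1 (α : ℝ) (z : E) : rot α z 1 = lin z α := rfl

lemma lin_add (z : E) (α θ : ℝ) : lin z (α + θ) = cos θ * rot α z 1 + sin θ * rot α z 0 := by
  simp only [lin, rot, ort_0, ort_1, cos_add, sin_add]; ring

lemma lin_sub (z : E) (α θ : ℝ) : lin z (α - θ) = cos θ * rot α z 1 - sin θ * rot α z 0 := by
  simp only [lin, rot, ort_0, ort_1, cos_sub, sin_sub]; ring

lemma vol_rot (α : ℝ) {A : Set E} (hA : MeasurableSet A) : volume (rot α ⁻¹' A) = volume A :=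
  (rot α).measurePreserving.measure_preimage hA.nullMeasurableSet

lemma vol_par (t0 t1 x l L : ℝ) :
    volume {p : E | t0 ≤ p 1 ∧ p 1 ≤ t1 ∧ x * p 1 + l ≤ p 0 ∧ p 0 ≤ x * p 1 + l + L} =
      ENNReal.ofReal L * ENNReal.ofReal (t1 - t0) := by
  rw [vol_sec (by measurability), ← Real.volume_Icc (a := t0), ← setLIntegral_const,
    ← lintegral_indicator measurableSet_Icc]
  congr 1; ext t
  by_cases ht : t ∈ Icc t0 t1
  · rw [indicator_of_mem ht, show L = x * t + l + L - (x * t + l) by ring, ← Real.volume_Icc]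
    congr 1; ext u; simp [ht.1, ht.2]
  · rw [indicator_of_notMem ht]
    convert measure_empty (μ := (volume : Measure ℝ))
    ext u
    simp only [Matrix.cons_val_one, Matrix.cons_val_zero, mem_ofPred_eq, mem_empty_iff_false,
      iff_false]
    exact fun h => ht ⟨h.1, h.2.1⟩

theorem Fan.erode (h : Fan m θ) (hF : SA F) (hG : SA G) (hG0 : ∀ α, 0 ≤ G α) {δ : ℝ}
    (hδ : 0 ≤ δ) : volume (poly m θ F) ≤ volume (poly m θ fun α => F α - δ * G α) +
      ENNReal.ofReal (δ * Bf m θ G F) := by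
  classical
  have hs := h.sin_pos
  let x : ℝ → ℝ := fun α => (cos θ - G (α - θ) / G α) / sin θ
  let l : ℝ → ℝ := fun α => (F α * G (α - θ) / G α - F (α - θ)) / sin θ
  let R : ℝ → Set E := fun α => rot α ⁻¹' {p : E | F α - δ * G α ≤ p 1 ∧ p 1 ≤ F α ∧
    x α * p 1 + l α ≤ p 0 ∧ p 0 ≤ x α * p 1 + l α + ell θ F α}
  have hsub : poly m θ F ⊆ poly m θ (fun α => F α - δ * G α) ∪
      ⋃ i ∈ Finset.range m, R (i * θ) := by
    intro z hz
    by_cases hz' : z ∈ poly m θ fun α => F α - δ * G α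
    · exact Or.inl hz'
    right
    simp only [poly, mem_ofPred_eq, not_forall, not_le] at hz'
    obtain ⟨i, hi, hz'⟩ := hz'
    have gi : 0 < G (i * θ) := (hG0 _).lt_of_ne fun e => by
      rw [← e] at hz'; linarith [hz i hi]
    obtain ⟨k, hk, hmin⟩ := Finset.exists_min_image ((Finset.range m).filter
      fun k : ℕ => 0 < G (k * θ)) (fun k : ℕ => (F (k * θ) - lin z (k * θ)) / G (k * θ))
      ⟨i, by simp [hi, gi]⟩
    simp only [Finset.mem_filter, Finset.mem_range] at hk hmin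
    set τ := (F (k * θ) - lin z (k * θ)) / G (k * θ) with hτ
    have τ0 : 0 ≤ τ := div_nonneg (sub_nonneg.2 (hz k hk.1)) hk.2.le
    have τ1 : τ ≤ δ := (hmin i ⟨hi, gi⟩).trans ((div_le_iff₀ gi).2 (by linarith))
    have hp : z ∈ poly m θ fun α => F α - τ * G α := by
      intro j hj
      rcases (hG0 (j * θ)).eq_or_lt with e | e
      · simpa [← e] using hz j hj
      · linarith [(le_div_iff₀ e).1 (hmin j ⟨hj, e⟩)]
    obtain ⟨k1, k2⟩ := h.mem_nb (hF.per.sub hG.per τ) hp k
    have k3 := h.ell_nonneg hG (k * θ)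
    simp only [mem_iUnion, Finset.mem_range]
    refine ⟨k, hk.1, ?_⟩
    set α := (k : ℝ) * θ
    have e : rot α z 1 = F α - τ * G α := by rw [rot_1, hτ, div_mul_cancel₀ _ hk.2.ne']; ring
    have e2 : x α * rot α z 1 + l α = (cos θ * rot α z 1 - F (α - θ) + τ * G (α - θ)) / sin θ := by
      have := hk.2.ne'
      simp only [x, l, e]; field_simp; ring
    rw [lin_add] at k1
    rw [lin_sub] at k2
    refine ⟨?_, ?_, ?_, ?_⟩
    · rw [e]; nlinarith [hk.2]
    · rw [e]; nlinarith [hk.2]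
    · rw [e2, div_le_iff₀ hs]; linarith
    · rw [e2, ell, ← add_div, le_div_iff₀ hs]
      rw [ell, le_div_iff₀ hs, zero_mul] at k3
      have := mul_nonneg τ0 k3
      rw [e] at k1 ⊢
      linarith
  refine (measure_mono hsub).trans ((measure_union_le _ _).trans (add_le_add le_rfl
    ((measure_biUnion_finset_le _ _).trans (le_of_eq ?_))))
  rw [Bf, Finset.mul_sum, ENNReal.ofReal_sum_of_nonneg fun i _ =>
    mul_nonneg hδ (mul_nonneg (hG0 _) (h.ell_nonneg hF _))]
  refine Finset.sum_congr rfl fun i _ => ?_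
  rw [vol_rot _ (by measurability), vol_par, ← ENNReal.ofReal_mul (h.ell_nonneg hF _)]
  congr 1; ring

lemma Fan.far (h : Fan m θ) {X : ℝ → ℝ} (hX : SA X) {α : ℝ} (h0 : X α = 0) (h1 : 0 < X (α + θ))
    (h2 : 0 < X (α - θ)) (h3 : 0 < X (α + π)) {j : ℕ} (hj : 0 < j) (hjm : j < m) :
    0 < X (α + j * θ) := by
  have hs := h.sin_pos
  have hp := h.pos
  have j1 : θ ≤ j * θ := le_mul_of_one_le_left hp.le (by exact_mod_cast hj)
  have j2 : j * θ ≤ 2 * π - θ := by
    have : (j : ℝ) + 1 ≤ m := by exact_mod_cast hjm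
    nlinarith [h.mul]
  set φ := (j : ℝ) * θ
  rcases lt_trichotomy φ π with k | k | k
  · have k1 : 0 < sin φ := sin_pos_of_pos_of_lt_pi (by linarith) k
    have k2 : 0 ≤ sin (φ - θ) := sin_nonneg_of_nonneg_of_le_pi (by linarith) (by linarith)
    have := hX α (α + φ) (α + θ) (sin (φ - θ) / sin φ) (sin θ / sin φ) (by positivity)
      (by positivity) (by rw [cos_add, cos_add, sin_sub]; field_simp; ring)
      (by rw [sin_add, sin_add, sin_sub]; field_simp; ring)
    rw [h0, mul_zero, zero_add] at this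
    exact (mul_pos_iff_of_pos_left (by positivity)).1 (h1.trans_le this)
  · rw [k]; exact h3
  · have k1 : 0 < -sin φ := by
      rw [← sin_two_pi_sub]; exact sin_pos_of_pos_of_lt_pi (by linarith) (by linarith)
    have k2 : 0 ≤ -sin (φ + θ) := by
      rw [← sin_two_pi_sub]; exact sin_nonneg_of_nonneg_of_le_pi (by linarith) (by linarith)
    have k3 : sin φ ≠ 0 := by linarith
    have := hX α (α + φ) (α - θ) (-sin (φ + θ) / -sin φ) (sin θ / -sin φ) (by positivity)
      (by positivity) (by rw [cos_add, cos_sub, sin_add]; field_simp; ring)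
      (by rw [sin_add, sin_sub, sin_add]; field_simp; ring)
    rw [h0, mul_zero, zero_add] at this
    exact (mul_pos_iff_of_pos_left (by positivity)).1 (h2.trans_le this)

theorem Fan.lower (h : Fan m θ) (hF : SA F) (hF0 : ∀ α, 0 < F α) :
    ENNReal.ofReal (Bf m θ F F / 2) ≤ volume (poly m θ F) := by
  have hs := h.sin_pos
  let T : ℝ → Set E := fun α => rot α ⁻¹' {p : E | 0 < p 1 ∧ p 1 < F α ∧
    (cos θ - F (α - θ) / F α) / sin θ * p 1 + 0 < p 0 ∧
      p 0 < (F (α + θ) / F α - cos θ) / sin θ * p 1 + 0}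
  have key : ∀ α, ∀ z ∈ T α, ∀ j : ℕ, 0 < j → j < m →
      lin z (α + j * θ) * F α < F (α + j * θ) * lin z α := by
    rintro α z ⟨h1, h2, h3, h4⟩ j hj hjm
    have f0 := hF0 α
    have e : ∀ β, lin ((F α / lin z α) • z) β = F α / lin z α * lin z β := fun β => by
      simp only [lin, PiLp.smul_apply, smul_eq_mul]; ring
    rw [add_zero, div_mul_eq_mul_div, div_lt_iff₀ hs] at h3
    rw [add_zero, div_mul_eq_mul_div, lt_div_iff₀ hs] at h4
    have h1' : 0 < lin z α := h1
    have := h.far (hF.sub_lin ((F α / lin z α) • z)) (α := α) (by simp only [e]; field_simp; ring)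
      (by
        simp only [e, sub_pos, div_mul_eq_mul_div, div_lt_iff₀ h1']
        rw [lin_add, ← rot_1]
        have := mul_lt_mul_of_pos_left h4 f0
        rw [sub_mul, mul_sub, ← mul_assoc _ (_ / _), mul_div_cancel₀ _ f0.ne'] at this
        linarith)
      (by
        simp only [e, sub_pos, div_mul_eq_mul_div, div_lt_iff₀ h1']
        rw [lin_sub, ← rot_1]
        have := mul_lt_mul_of_pos_left h3 f0
        rw [sub_mul, mul_sub, ← mul_assoc _ (_ / _), mul_div_cancel₀ _ f0.ne'] at this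
        linarith)
      (by
        simp only [e, lin_add, cos_pi, sin_pi, rot_1]
        have := hF0 (α + π)
        field_simp
        nlinarith) hj hjm
    simp only [e, sub_pos, div_mul_eq_mul_div, div_lt_iff₀ h1'] at this
    linarith
  have key2 : ∀ i < m, ∀ k < m, i ≠ k → ∀ z ∈ T (i * θ),
      lin z (k * θ) * F (i * θ) < F (k * θ) * lin z (i * θ) := by
    intro i hi k hk hik z hz
    rcases lt_or_gt_of_ne hik with k1 | k1
    · have := key _ z hz (k - i) (by omega) (by omega)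
      rwa [Nat.cast_sub k1.le, show i * θ + (k - i) * θ = k * θ by ring] at this
    · have := key _ z hz (k + m - i) (by omega) (by omega)
      rwa [Nat.cast_sub (by omega), show i * θ + (((k + m : ℕ) : ℝ) - i) * θ =
        k * θ + (1 : ℤ) * (m * θ) by push_cast; ring, h.per hF.per, h.per (per_lin z)] at this
  have hm : ∀ α, MeasurableSet (T α) := fun α =>
    (rot α).continuous.measurable (by measurability)
  calc _ = ∑ i ∈ Finset.range m, volume (T (i * θ)) := by
        rw [Bf, Finset.sum_div, ENNReal.ofReal_sum_of_nonneg fun i _ =>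
          div_nonneg (mul_nonneg (hF0 _).le (h.ell_nonneg hF _)) two_pos.le]
        refine Finset.sum_congr rfl fun i _ => ?_
        rw [vol_rot _ (by measurability), vol_trap]
        congr 1
        set α := (i : ℝ) * θ
        have f0 := hF0 α
        have e : (cos θ - F (α - θ) / F α) / sin θ - (F (α + θ) / F α - cos θ) / sin θ =
            -(ell θ F α / F α) := by rw [ell]; field_simp; ring
        have l0 := h.ell_nonneg hF α
        rw [e, Jk]
        split_ifs with k
        · have : ell θ F α = 0 := by simpa [f0.ne'] using k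
          simp [this]
        · have : ell θ F α ≠ 0 := fun k' => k (by simp [k'])
          simp only [sub_self, mul_zero, max_self, sub_zero, max_eq_left f0.le]
          rw [max_eq_left (by simp [f0.ne', l0])]
          field_simp; ring
    _ = volume (⋃ i ∈ Finset.range m, T (i * θ)) := by
        refine (measure_biUnion_finset (fun i hi k hk hik => ?_) fun i _ => hm _).symm
        simp only [Finset.coe_range, mem_Iio] at hi hk
        refine disjoint_left.2 fun z h1 h2 => ?_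
        linarith [key2 i hi k hk hik z h1, key2 k hk i hi hik.symm z h2]
    _ ≤ _ := by
        refine measure_mono (iUnion₂_subset fun i hi z hz k hk => ?_)
        have h1 : lin z (i * θ) < F (i * θ) := hz.2.1
        rcases eq_or_ne i k with rfl | hik
        · exact h1.le
        · have := key2 i (Finset.mem_range.1 hi) k hk hik z hz
          nlinarith [hF0 (i * θ), hF0 (k * θ)]

theorem Fan.upper (h : Fan m θ) (hF : SA F) (hF0 : ∀ α, 0 ≤ F α)
    (hfin : volume (poly m θ F) ≠ ∞) : volume.real (poly m θ F) ≤ Bf m θ F F / 2 := by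
  have hB := h.Bf_nonneg hF hF0
  have key : ∀ δ ∈ Ioo (0 : ℝ) 1, (2 - δ) * volume.real (poly m θ F) ≤ Bf m θ F F := by
    intro δ hδ
    have h1 := h.erode hF hF hF0 hδ.1.le
    have hp := sub_pos.2 hδ.2
    have h2 : poly m θ (fun α => F α - δ * F α) = (1 - δ) • poly m θ F := by
      ext z
      rw [mem_smul_set_iff_inv_smul_mem₀ hp.ne']
      refine forall₂_congr fun i _ => ?_
      rw [show lin ((1 - δ)⁻¹ • z) (i * θ) = lin z (i * θ) / (1 - δ) by
        simp only [lin, PiLp.smul_apply, smul_eq_mul]; ring, div_le_iff₀ hp]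
      constructor <;> intro k <;> linarith
    rw [h2, Measure.addHaar_smul] at h1
    have h3 := ENNReal.toReal_mono (by finiteness) h1
    rw [ENNReal.toReal_add (by finiteness) (by finiteness), ENNReal.toReal_mul,
      ENNReal.toReal_ofReal (abs_nonneg _), ENNReal.toReal_ofReal (mul_nonneg hδ.1.le hB)] at h3
    simp only [finrank_euclideanSpace, Fintype.card_fin, abs_pow, sq_abs] at h3
    refine le_of_mul_le_mul_left ?_ hδ.1
    rw [Measure.real]; linarith
  have h1 : Tendsto (fun δ : ℝ => (2 - δ) * volume.real (poly m θ F)) (𝓝[>] 0)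
      (𝓝 ((2 - 0) * volume.real (poly m θ F))) :=
    tendsto_nhdsWithin_of_tendsto_nhds (Continuous.tendsto (by fun_prop) _)
  have := le_of_tendsto h1 (mem_of_superset (Ioo_mem_nhdsGT one_pos) key)
  linarith

end Pool.Agent.Lib.MP_c1b9d3_an
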