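import Pool.Agent.Lib.MP_c1b9d3_an.Dev

namespace Pool.Agent.Lib.MP_c1b9d3_an

open MeasureTheory Real Filter Topology Set Pool.Agent.Lib.MP_2d4879_an
open scoped ENNReal InnerProductSpace

def det (u v : E) : ℝ := u 0 * v 1 - u 1 * v 0

def tri (P Q R : E) : Set E :=
  {z | 0 < det (Q - P) (z - P) ∧ 0 < det (R - Q) (z - Q) ∧ 0 < det (P - R) (z - R)}

lemma vol_three {a b : E} (h : 0 < det a b) (f1 f2 f3 : ℝ) :
    volume {z : E | f1 < det a z ∧ f2 < det b z ∧ f3 < -det a z - det b z} =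
      ENNReal.ofReal (max (-(f1 + f2 + f3)) 0 ^ 2 / (2 * det a b)) := by
  set L := Matrix.toLpLin 2 2 !![-a 1, a 0; -b 1, b 0] with hL
  have hd : LinearMap.det L = det a b := by
    rw [hL, LinearMap.det_toLpLin, Matrix.det_fin_two_of, det]; ring
  have e : {z : E | f1 < det a z ∧ f2 < det b z ∧ f3 < -det a z - det b z} = L ⁻¹'
      {p : E | f2 < p 1 ∧ p 1 < -f3 - f1 ∧ 0 * p 1 + f1 < p 0 ∧ p 0 < -1 * p 1 + -f3} := by
    ext z
    have e0 : L z 0 = det a z := by simp [hL, det, Matrix.vecHead, Matrix.vecTail]; ring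
    have e1 : L z 1 = det b z := by simp [hL, det, Matrix.vecHead, Matrix.vecTail]; ring
    simp only [mem_ofPred_eq, mem_preimage, e0, e1]
    exact ⟨fun ⟨h1, h2, h3⟩ => ⟨h2, by linarith, by linarith, by linarith⟩,
      fun ⟨h1, h2, h3, h4⟩ => ⟨by linarith, h1, by linarith⟩⟩
  rw [e, Measure.addHaar_preimage_linearMap _ (hd ▸ h.ne'), vol_trap, hd,
    ← ENNReal.ofReal_mul (abs_nonneg _), abs_of_pos (inv_pos.2 h), Jk, if_neg (by norm_num)]
  congr 1
  rw [show -f3 - f1 - (0 - -1) * f2 = -(f1 + f2 + f3) by ring,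
    show -f3 - f1 - f2 = -(f1 + f2 + f3) by ring,
    max_eq_right (a := _ - _) (by linarith [le_max_left (-(f1 + f2 + f3)) 0])]
  field_simp; ring

noncomputable def Yt (P Q R : E) (σ : S) : ℝ := σ.f ((Q - P) 1) (-(Q - P) 0) +
  σ.f ((R - Q) 1) (-(R - Q) 0) + σ.f ((P - R) 1) (-(P - R) 0)

lemma er_tri {P Q R : E} (h : 0 < det (Q - P) (R - Q)) {s : ℝ} (hs : 0 ≤ s) (n : ℕ)
    (y : Fin n → E) : er (tri P Q R) s y =
      max (det (Q - P) (R - Q) - s * Yt P Q R (sp y)) 0 ^ 2 / (2 * det (Q - P) (R - Q)) := by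
  have key : ∀ u X a : E, (∀ j, 0 < det u (a + s • cns 0 y j - X)) ↔
      det u X + s * spf y (u 1) (-u 0) < det u a := fun u X a => by
    rw [← lt_sub_iff_add_lt', sspf_lt y hs]
    refine forall_congr' fun j => ?_
    simp only [det, PiLp.sub_apply, PiLp.add_apply, PiLp.smul_apply, smul_eq_mul]
    constructor <;> intro k <;> linarith
  have e : ∀ a, det (P - R) a = -det (Q - P) a - det (R - Q) a := fun a => by
    simp only [det, PiLp.sub_apply]; ring
  rw [er, Measure.real]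
  simp only [tri, mem_ofPred_eq, forall_and, key]
  simp only [e]
  rw [vol_three h, ENNReal.toReal_ofReal (by positivity)]
  congr 3
  simp only [Yt, sp, det, PiLp.sub_apply]; ring

lemma vol_tri {P Q R : E} (h : 0 < det (Q - P) (R - Q)) :
    volume.real (tri P Q R) = det (Q - P) (R - Q) / 2 := by
  have := er_tri h le_rfl 0 0
  simp only [er, zero_smul, add_zero, forall_const, ofPred_mem_eq, zero_mul, sub_zero,
    max_eq_left h.le] at this
  rw [this]; field_simp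

lemma Yt_nonneg (P Q R : E) (σ : S) : 0 ≤ Yt P Q R σ :=
  add_nonneg (add_nonneg (σ.nonneg _ _) (σ.nonneg _ _)) (σ.nonneg _ _)

lemma lam_eq (a : ℝ → ℝ) {ε s : ℝ} (hε : ε ≠ 0) (hs : s ≠ 0) : Lam a (ε * s) s =
    a s - (1 - ε⁻¹ + ε⁻¹ * (ε⁻¹ - 1) / 2) * a 0 - (ε⁻¹ - ε⁻¹ * (ε⁻¹ - 1)) * a (ε * s) -
      ε⁻¹ * (ε⁻¹ - 1) / 2 * a (2 * (ε * s)) := by
  simp only [Lam, pq]; field_simp; ring

lemma lam_tri {Δ Y ε s : ℝ} (hΔ : 0 < Δ) (hY : 0 ≤ Y) (hε : 0 < ε) (hε' : ε ≤ 1 / 4) (hs : 0 < s)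
    {a : ℝ → ℝ} (ha : ∀ t, 0 ≤ t → a t = max (Δ - t * Y) 0 ^ 2 / (2 * Δ)) :
    Lam a (ε * s) s ≤ 0 ∧ (2 * (ε * s) * Y ≤ Δ → Δ < s * Y → Lam a (ε * s) s < 0) := by
  rw [lam_eq a hε.ne' hs.ne', ha _ hs.le, ha _ le_rfl, ha _ (by positivity), ha _ (by positivity)]
  obtain ⟨μ, hμ⟩ : ∃ μ, μ = ε⁻¹ - 2 := ⟨_, rfl⟩
  obtain ⟨R, hR⟩ : ∃ R, R = ε * s * Y := ⟨_, rfl⟩
  have μ0 : 0 ≤ μ := by
    rw [hμ, sub_nonneg, le_inv_comm₀ two_pos hε]; linarith
  have R0 : 0 ≤ R := by rw [hR]; positivity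
  have e1 : s * Y = (μ + 2) * R := by rw [hμ, hR]; field_simp; ring
  have e2 : ε⁻¹ = μ + 2 := by rw [hμ]; ring
  have key : ∀ x : ℝ, x / (2 * Δ) ≤ 0 ↔ x ≤ 0 := fun x => by
    rw [div_nonpos_iff]; constructor
    · rintro (h | h) <;> linarith [h.1, h.2]
    · exact fun h => Or.inr ⟨h, by positivity⟩
  simp only [e1, e2, mul_assoc 2 (ε * s), ← hR, zero_mul, sub_zero, max_eq_left hΔ.le, ← mul_div_assoc,
    ← sub_div, key]
  have mR := mul_nonneg μ0 R0
  refine ⟨?_, fun h1 h2 => div_neg_of_neg_of_pos ?_ (by positivity)⟩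
  · rcases le_total (2 * R) Δ with k | k
    · rw [max_eq_left (a := Δ - R) (by linarith), max_eq_left (a := Δ - 2 * R) (by linarith),
        pos_sq_add]
      nlinarith [sq_nonneg (max (-(Δ - (μ + 2) * R)) 0)]
    rw [max_eq_right (a := Δ - 2 * R) (by linarith), max_eq_right (a := Δ - (μ + 2) * R)
      (by linarith)]
    rcases le_total R Δ with k' | k'
    · rw [max_eq_left (by linarith)]
      obtain ⟨d, hd⟩ : ∃ d, d = 2 * R - Δ := ⟨_, rfl⟩
      have d0 : 0 ≤ d := by linarith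
      have d1 : d ≤ R := by linarith
      rw [show Δ = 2 * R - d by linarith]
      nlinarith [mul_nonneg (sq_nonneg μ) (show 0 ≤ R ^ 2 - d ^ 2 / 2 by nlinarith),
        mul_nonneg (mul_nonneg μ0 d0) (show 0 ≤ 2 * R - 3 * d / 2 by linarith)]
    · rw [max_eq_right (by linarith)]
      nlinarith [mul_nonneg (mul_nonneg μ0 (show 0 ≤ μ + 1 by linarith)) (sq_nonneg Δ)]
  · rw [max_eq_left (a := Δ - R) (by linarith), max_eq_left (a := Δ - 2 * R) (by linarith),
      max_eq_right (by linarith)]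
    nlinarith [sq_pos_of_pos (sub_pos.2 h2)]

variable {D : Set E}

lemma er_zero {n : ℕ} (y : Fin n → E) : er D 0 y = volume.real D := by simp [er]

lemma er_le (hD : Dom D) (s : ℝ) {n : ℕ} (y : Fin n → E) : er D s y ≤ volume.real D :=
  measureReal_mono (er_sub D s y) hD.bdd.measure_lt_top.ne

lemma er_int (hD : Dom D) (s : ℝ) (n : ℕ) : Integrable (fun y => er D s y) (nu n) :=
  Integrable.of_bound (measurable_measure_prodMk_right (ms_er hD.isOpen.measurableSet
    s)).ennreal_toReal.aestronglyMeasurable (volume.real D) (Eventually.of_forall fun y => by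
      exact (Real.norm_of_nonneg measureReal_nonneg).trans_le (er_le hD s y))

lemma vol_pos (hD : Dom D) : 0 < volume.real D :=
  ENNReal.toReal_pos (hD.isOpen.measure_ne_zero _ hD.ne) hD.bdd.measure_lt_top.ne

lemma er_ge (hD : Dom D) : ∃ C, 0 ≤ C ∧ ∀ {n n' : ℕ} (y : Fin n → E) (y' : Fin n' → E) (t t' η : ℝ),
    0 < η → (∀ j, ∃ w, (∀ x ∈ DE D y' t', x + w ∈ D) ∧ ‖t • cns 0 y j - w‖ ≤ η) →
      er D t' y' - η * C ≤ er D t y := by
  obtain ⟨ρ, hρ⟩ := hD.bdd.exists_norm_le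
  set q : Fin 3 → E := ![!₂[3, -1], !₂[-1, 3], !₂[-1, -1]] with hq
  have h0 := er_lip q hD (c := 0) (by simpa using hρ) 0 le_rfl zero_le_one
  refine ⟨ρ * Pm 0 (sa q), by linarith [h0.1, h0.2], fun y y' t t' η hη h => ?_⟩
  rcases (DE D y' t').eq_empty_or_nonempty with e | hn
  · rw [show er D t' y' = 0 from (congrArg volume.real e).trans measureReal_empty]
    nlinarith [h0.1, h0.2, show 0 ≤ er D t y from measureReal_nonneg]
  have hX : Dom (DE D y' t') := ⟨DE_open y' hD t', fun a ha b hb u v hu hv huv j => by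
    convert hD.conv (ha j) (hb j) hu hv huv using 1
    rw [smul_add, smul_add, add_add_add_comm, ← add_smul, huv, one_smul],
    hD.bdd.subset (er_sub D t' y'), hn⟩
  have h1 := (er_lip q hX (c := 0) (fun z hz => by simpa using hρ z (er_sub D t' y' hz)) 0
    le_rfl hη.le).2
  rw [er_zero, sub_zero] at h1
  refine le_trans (show _ ≤ er (DE D y' t') η q by unfold er DE at *; linarith)
    (measureReal_mono (fun a ha j => ?_) ((measure_mono (er_sub D t y)).trans_lt
      hD.bdd.measure_lt_top).ne)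
  obtain ⟨w, h2, h3⟩ := h j
  set e := t • cns 0 y j - w with he
  have k := (nsq e).symm.trans_le (pow_le_pow_left₀ (norm_nonneg _) h3 2)
  have k0 := abs_le.1 (abs_le_of_sq_le_sq (show e 0 ^ 2 ≤ η ^ 2 by nlinarith) hη.le)
  have k1 := abs_le.1 (abs_le_of_sq_le_sq (show e 1 ^ 2 ≤ η ^ 2 by nlinarith) hη.le)
  have := h2 _ (hX.conv.sum_mem (t := Finset.univ) (w := ![(η + e 0) / (4 * η), (η + e 1) / (4 * η),
    (2 * η - e 0 - e 1) / (4 * η)]) (z := fun i => a + η • q i) (fun i _ => by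
      fin_cases i <;> exact div_nonneg (by linarith) (by positivity))
    (by simp only [Fin.sum_univ_three, Matrix.cons_val]; field_simp; ring) fun i _ => ha i.succ)
  convert this using 1
  rw [← sub_eq_iff_eq_add, add_sub_assoc, ← he]
  ext i
  fin_cases i <;> simp [Fin.sum_univ_three, hq] <;> field_simp <;> ring

lemma er_near (hD : Dom D) : ∃ C, 0 ≤ C ∧ ∀ {n n' : ℕ} (y : Fin n → E) (y' : Fin n' → E)
    (s η τ : ℝ), 0 < η → Near η s y y' → 0 ≤ τ → τ ≤ 1 → |er D (τ * s) y - er D τ y'| ≤ η * C := by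
  obtain ⟨C, h0, hC⟩ := er_ge hD
  refine ⟨C, h0, fun y y' s η τ hη h t0 t1 => abs_le.2 ⟨?_, ?_⟩⟩
  · have := hC y y' (τ * s) τ η hη fun j => by
      obtain ⟨w, h1, h2⟩ := h.1 j
      refine ⟨τ • w, fun x hx => convexHull_min (t := {w | x + τ • w ∈ D}) ?_ ?_ h1, ?_⟩
      · rintro _ ⟨i, rfl⟩; exact hx i
      · exact (hD.conv.translate_preimage_right x).smul_preimage τ
      · rw [mul_smul, ← smul_sub, norm_smul, Real.norm_of_nonneg t0]
        nlinarith [norm_nonneg (s • cns 0 y j - w)]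
    linarith
  · have := hC y' y τ (τ * s) η hη fun i => by
      obtain ⟨j, h2⟩ := h.2 i
      refine ⟨_, fun x hx => hx j, ?_⟩
      rw [mul_smul, ← smul_sub, norm_smul, Real.norm_of_nonneg t0, norm_sub_rev]
      nlinarith [norm_nonneg (s • cns 0 y j - cns 0 y' i)]
    linarith

lemma good_Pm (k : ℕ) : Good fun σ => Pm k fun α => σ.f (cos α) (sin α) := by
  unfold Pm
  refine (Good.const _).mul ?_
  induction Finset.range (8 * 2 ^ k) using Finset.induction_on with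
  | empty => simpa using Good.const 0
  | insert i s hi ih => simp only [Finset.sum_insert hi]; fun_prop

lemma area_eq {D' : Set E} (hD : Dom D) (hD' : Dom D')
    (he : ∀ k, 0 < k → sInf (adm D k) = sInf (adm D' k)) : volume.real D = volume.real D' := by
  wlog h : volume.real D' < volume.real D generalizing D D'
  · exact (not_lt.1 h).eq_or_lt.elim id fun k => (this hD' hD (fun k hk => (he k hk).symm) k).symm
  obtain ⟨ρ, hρ⟩ := hD.bdd.exists_norm_le
  obtain ⟨C, hC⟩ := (good_Pm 0).int_bd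
  have t1 : Tendsto (fun s : ℝ => s * (|ρ| * C)) (𝓝[>] 0) (𝓝 0) :=
    tendsto_nhdsWithin_of_tendsto_nhds (Continuous.tendsto' (by fun_prop) _ _ (by simp))
  obtain ⟨s, h1, hs⟩ := ((t1.eventually (gt_mem_nhds (sub_pos.2 h))).and self_mem_nhdsWithin).exists
  have := ge_of_tendsto' (er_lim hD hD' he hs)
    (b := volume.real D - volume.real D' - s * (|ρ| * C)) fun j => by
      have k1 := integral_mono (er_int hD' s (4 * j + 3)) (integrable_const _) (er_le hD' s)
      have k2 := integral_mono ((integrable_const (volume.real D)).sub (((hC (4 * j + 3)).1.const_mul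
        |ρ|).const_mul s)) (er_int hD s _) fun y => by
          have := (er_lip y hD (c := 0) (ρ := |ρ|) (fun z hz => by
            simpa using (hρ z hz).trans (le_abs_self ρ)) 0 le_rfl (le_of_lt hs)).2
          rw [er_zero, sub_zero] at this
          exact sub_le_comm.1 this
      rw [integral_sub' (integrable_const _) (((hC _).1.const_mul _).const_mul _),
        integral_const_mul, integral_const_mul] at k2
      simp only [integral_const, probReal_univ, smul_eq_mul, one_mul] at k1 k2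
      have := mul_le_mul_of_nonneg_left (mul_le_mul_of_nonneg_left
        ((le_abs_self _).trans (hC (4 * j + 3)).2) (abs_nonneg ρ)) (le_of_lt hs)
      unfold En at this
      linarith
  linarith

lemma lam_er_bad (hD : Dom D) {c : E} {ρ : ℝ} (hc : ∀ z ∈ D, ‖z - c‖ ≤ ρ) (j : ℕ) {n : ℕ}
    (y : Fin n → E) {ε s : ℝ} (hs : 0 < s) (hε : 0 < ε) (hε' : ε ≤ 1 / 4)
    (hl : Lam (fun t => er D t y) (ε * s) s < 0 ∨ Lam (fun t => er D t y) (ε * s) s ≤ 0 ∧
      ∃ u, 0 ≤ u ∧ u < s ∧ er D u y = 0) :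
    2 * volume.real D ≤ s * (ρ * Pm j (sa y)) * (1 + 2 * ε) := by
  rw [← er_zero y]
  exact lam_bad (a := fun t => er D t y) hs hε hε' (fun _ => measureReal_nonneg)
    ((vol_pos hD).trans_eq (er_zero y).symm) (fun t t' => er_lip y hD hc j)
    (fun u hu => er_lam y hD (by positivity) hu) hl

lemma exp_win {a b C g K : ℝ} (hab : a < b) (hg : 0 < g) :
    ∀ᶠ s in 𝓝[>] (0 : ℝ), K * exp (-(b * s⁻¹ ^ 2) + C * s⁻¹) < g * exp (-(a * s⁻¹ ^ 2)) := by
  have h1 : Tendsto (fun u : ℝ => u * ((b - a) * u + -C)) atTop atTop :=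
    tendsto_id.atTop_mul_atTop₀
      (tendsto_atTop_add_const_right _ _ (tendsto_id.const_mul_atTop (sub_pos.2 hab)))
  have h2 := (tendsto_exp_neg_atTop_nhds_zero.comp (h1.comp tendsto_inv_nhdsGT_zero)).const_mul K
  rw [mul_zero] at h2
  filter_upwards [h2.eventually (gt_mem_nhds hg)] with s hs
  refine lt_of_eq_of_lt ?_ (mul_lt_mul_of_pos_right hs (exp_pos (-(a * s⁻¹ ^ 2))))
  simp only [Function.comp]
  rw [mul_assoc, ← exp_add]
  congr 2; ring

theorem lam_cmp {D' : Set E} (hD : Dom D) (hD' : Dom D')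
    (he : ∀ k, 0 < k → sInf (adm D k) = sInf (adm D' k)) {c : E} {ρ : ℝ} (hρ : 0 < ρ)
    (hc : ∀ z ∈ D, ‖z - c‖ ≤ ρ) {ε : ℝ} (hε : 0 < ε) (hε' : ε ≤ 1 / 4)
    (h' : ∀ s, 0 < s → ∀ n (y : Fin n → E), Lam (fun t => er D' t y) (ε * s) s ≤ 0) {k1 k2 : E}
    (hk : ρ * per k1 k2 * (1 + 2 * ε) < 2 * volume.real D) :
    Lam (fun t => er D t ![k1, k2]) (ε * 1) 1 ≤ Lam (fun t => er D' t ![k1, k2]) (ε * 1) 1 := by
  by_contra hg
  rw [not_le, ← sub_pos] at hg
  obtain ⟨g, hg'⟩ : ∃ g, g = Lam (fun t => er D t ![k1, k2]) (ε * 1) 1 -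
    Lam (fun t => er D' t ![k1, k2]) (ε * 1) 1 := ⟨_, rfl⟩
  rw [← hg'] at hg
  set A := volume.real D
  have A0 : 0 < A := vol_pos hD
  have p0 : 0 ≤ per k1 k2 := by unfold per; positivity
  set P := per k1 k2
  obtain ⟨r, hr⟩ : ∃ r, r = 2 * A / (ρ * (1 + 2 * ε)) := ⟨_, rfl⟩
  have r0 : 0 < r := by rw [hr]; positivity
  have hP : P < r := by rw [hr, lt_div_iff₀ (by positivity)]; linarith
  obtain ⟨η, j, η0, η1, hj⟩ : ∃ η j, 0 < η ∧ η < 1 ∧ P ^ 2 / 4 < (1 - η) / rf j ^ 2 * r ^ 2 / 4 := by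
    have t1 : Tendsto (fun j : ℕ => (1 - 1 / ((j : ℝ) + 2)) / rf j ^ 2 * r ^ 2 / 4) atTop
        (𝓝 ((1 - 0) / 1 ^ 2 * r ^ 2 / 4)) :=
      ((((tendsto_const_nhds.div_atTop (tendsto_atTop_add_const_right _ _
        tendsto_natCast_atTop_atTop)).const_sub 1).div (rf_lim.pow 2) (by simp)).mul_const
          _).div_const _
    obtain ⟨j, hj⟩ := (t1.eventually (lt_mem_nhds (a := P ^ 2 / 4) (by nlinarith))).exists
    exact ⟨_, j, by positivity, (div_lt_one (by positivity)).2 (by linarith [j.cast_nonneg (α := ℝ)]),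
      hj⟩
  obtain ⟨C, hC⟩ := Pm_tail j η0 η1
  obtain ⟨C1, c1, hC1⟩ := er_near hD
  obtain ⟨C2, c2, hC2⟩ := er_near hD'
  obtain ⟨w0, w1, w2, hw⟩ : ∃ w0 w1 w2 : ℝ, ∀ (a : ℝ → ℝ) (s : ℝ), s ≠ 0 → Lam a (ε * s) s =
      a s - w0 * a 0 - w1 * a (ε * s) - w2 * a (2 * (ε * s)) :=
    ⟨_, _, _, fun a s hs => lam_eq a hε.ne' hs⟩
  obtain ⟨W, hW⟩ : ∃ W, W = 1 + |w0| + |w1| + |w2| := ⟨_, rfl⟩
  have W0 : 0 < W := by rw [hW]; positivity
  obtain ⟨δ, hδ⟩ : ∃ δ, δ = g / (2 * W * (C1 + C2 + 1)) := ⟨_, rfl⟩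
  have δ0 : 0 < δ := by rw [hδ]; positivity
  obtain ⟨s, ⟨h1, h2⟩, hs⟩ := (((exp_win (C := C * r) (K := W * A) hj
    (show 0 < g / 4 by positivity)).and (Ioo_mem_nhdsGT (lt_min r0 (show 0 < δ / 8 by
      positivity)))).and self_mem_nhdsWithin).exists
  replace hs : 0 < s := hs
  have near : ∀ {X : Set E} {C : ℝ}, 0 ≤ C → ∀ {n : ℕ} {y : Fin n → E},
      (∀ τ, 0 ≤ τ → τ ≤ 1 → |er X (τ * s) y - er X τ ![k1, k2]| ≤ δ * C) →
      |Lam (fun t => er X t y) (ε * s) s - Lam (fun t => er X t ![k1, k2]) (ε * 1) 1| ≤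
        W * (δ * C) := by
    intro X C C0 n y h
    have k1 := h 1 zero_le_one le_rfl
    have k2 := mul_le_mul_of_nonneg_left (h ε hε.le (by linarith)) (abs_nonneg w1)
    have k3 := mul_le_mul_of_nonneg_left (h (2 * ε) (by linarith) (by linarith)) (abs_nonneg w2)
    rw [hw _ _ hs.ne', hw _ _ one_ne_zero, er_zero, er_zero, abs_le, hW, mul_one]
    rw [← abs_mul, abs_le, mul_sub] at k2 k3
    rw [one_mul, abs_le] at k1
    rw [mul_assoc 2] at k3
    have := mul_nonneg (abs_nonneg w0) (mul_nonneg δ0.le C0)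
    constructor <;> linarith [k1.1, k1.2, k2.1, k2.2, k3.1, k3.2]
  have t1 := ((er_lim hD hD' he hs).sub ((er_lim hD hD' he (mul_pos hε hs)).const_mul w1)).sub
    ((er_lim hD hD' he (mul_pos two_pos (mul_pos hε hs))).const_mul w2)
  have t2 : Tendsto (fun j : ℕ => P / (((4 * j + 3 : ℕ) : ℝ) + 1)) atTop (𝓝 0) :=
    tendsto_const_nhds.div_atTop (tendsto_atTop_add_const_right _ _
      (tendsto_natCast_atTop_atTop.comp (tendsto_atTop_mono (f := id) (fun j => by simp only [id]; omega) tendsto_id)))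
  simp only [mul_zero, sub_zero] at t1
  refine absurd (ge_of_tendsto t1 ?_) (not_le.2 (sub_pos.2 h1))
  filter_upwards [t2.eventually (gt_mem_nhds (half_pos δ0))] with i hi
  set n := 4 * i + 3
  obtain ⟨G, g1, g2, g3⟩ := tube k1 k2 hs n
  have b1 : MeasurableSet {y : Fin n → E | r / s ≤ Pm j (sa y)} :=
    measurableSet_le measurable_const ((good_Pm j).1 n)
  have b2 := hC n (r / s) ((one_le_div hs).2 (h2.2.le.trans (min_le_left _ _)))
  have i0 : ∀ t, Integrable (fun y => er D t y - er D' t y) (nu n) := fun t =>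
    (er_int hD t n).sub (er_int hD' t n)
  have k := integral_mono (((integrable_const (g / 2)).indicator g1).sub
    ((integrable_const (W * A)).indicator b1)) (((i0 s).sub ((i0 (ε * s)).const_mul w1)).sub
      ((i0 (2 * (ε * s))).const_mul w2)) fun y => by
    have e : er D s y - er D' s y - w1 * (er D (ε * s) y - er D' (ε * s) y) -
        w2 * (er D (2 * (ε * s)) y - er D' (2 * (ε * s)) y) =
        Lam (fun t => er D t y) (ε * s) s - Lam (fun t => er D' t y) (ε * s) s := by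
      rw [hw _ _ hs.ne', hw _ _ hs.ne', er_zero, er_zero, ← area_eq hD hD' he]
      ring
    simp only [Pi.sub_apply, e]
    have l1 := h' s hs n y
    have l2 : -{y : Fin n → E | r / s ≤ Pm j (sa y)}.indicator (fun _ => W * A) y ≤
        Lam (fun t => er D t y) (ε * s) s := by
      by_cases hb : y ∈ {y : Fin n → E | r / s ≤ Pm j (sa y)}
      · rw [indicator_of_mem hb, hw _ _ hs.ne', hW]
        have k : ∀ w t : ℝ, w * er D t y ≤ |w| * A := fun w t =>
          mul_le_mul (le_abs_self w) (er_le hD t y) measureReal_nonneg (abs_nonneg w)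
        linarith [k w0 0, k w1 (ε * s), k w2 (2 * (ε * s)),
          show 0 ≤ er D s y from measureReal_nonneg]
      · rw [indicator_of_notMem hb, neg_zero]
        by_contra k
        refine hb ?_
        rw [mem_ofPred_eq, div_le_iff₀ hs, hr, div_le_iff₀ (by positivity)]
        linarith [lam_er_bad hD hc j y hs hε hε' (Or.inl (not_le.1 k))]
    by_cases hG : y ∈ G
    · have hN : Near δ s y ![k1, k2] := by
        have k : 4 * s + P / (n + 1) ≤ δ := by linarith [h2.2.trans_le (min_le_right _ _)]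
        exact ⟨fun j => ((g3 y hG).1 j).imp fun w h => ⟨h.1, h.2.trans k⟩,
          fun j => ((g3 y hG).2 j).imp fun w h => h.trans k⟩
      have k1 := (abs_le.1 (near c1 fun τ => hC1 y _ s δ τ δ0 hN)).1
      have k2 := (abs_le.1 (near c2 fun τ => hC2 y _ s δ τ δ0 hN)).2
      have k3 : W * (δ * (C1 + C2 + 1)) = g / 2 := by rw [hδ]; field_simp
      have k4 : 0 ≤ {y : Fin n → E | r / s ≤ Pm j (sa y)}.indicator (fun _ => W * A) y :=
        indicator_nonneg (fun _ _ => by positivity) _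
      rw [indicator_of_mem hG]
      linarith [mul_pos W0 δ0]
    · rw [indicator_of_notMem hG]; linarith
  rw [integral_sub' ((integrable_const _).indicator g1) ((integrable_const _).indicator b1),
    integral_indicator_const _ g1, integral_indicator_const _ b1,
    integral_sub' ((i0 _).sub ((i0 _).const_mul _)) ((i0 _).const_mul _),
    integral_sub' (i0 _) ((i0 _).const_mul _), integral_const_mul, integral_const_mul,
    integral_sub (er_int hD _ n) (er_int hD' _ n), integral_sub (er_int hD _ n) (er_int hD' _ n),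
    integral_sub (er_int hD _ n) (er_int hD' _ n), smul_eq_mul, smul_eq_mul] at k
  refine le_trans ?_ k
  rw [show -(P / s) ^ 2 / 4 = -(P ^ 2 / 4 * s⁻¹ ^ 2) by ring] at g2
  rw [show -((1 - η) / rf j ^ 2 * (r / s) ^ 2 / 4) + C * (r / s) =
    -((1 - η) / rf j ^ 2 * r ^ 2 / 4 * s⁻¹ ^ 2) + C * r * s⁻¹ by ring] at b2
  linarith [mul_le_mul_of_nonneg_left b2 (mul_pos W0 A0).le, mul_le_mul_of_nonneg_left g2 hg.le]

lemma tri_eq (P Q R : E) : tri P Q R =
    {z | (Q - P) 1 * z 0 + -(Q - P) 0 * z 1 < -det (Q - P) P} ∩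
      ({z | (R - Q) 1 * z 0 + -(R - Q) 0 * z 1 < -det (R - Q) Q} ∩
        {z | (P - R) 1 * z 0 + -(P - R) 0 * z 1 < -det (P - R) R}) := by
  ext z
  simp only [tri, det, mem_ofPred_eq, mem_inter_iff, PiLp.sub_apply]
  constructor <;> rintro ⟨h1, h2, h3⟩ <;> refine ⟨?_, ?_, ?_⟩ <;> linarith

lemma open_tri (P Q R : E) : IsOpen (tri P Q R) := by
  unfold tri det
  refine IsOpen.and ?_ (IsOpen.and ?_ ?_) <;> exact isOpen_lt (by fun_prop) (by fun_prop)

lemma mem_of_det {P Q R z : E} (h : 0 < det (Q - P) (R - Q)) {C : Set E} (hC : Convex ℝ C)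
    (hP : P ∈ C) (hQ : Q ∈ C) (hR : R ∈ C) (h1 : 0 ≤ det (Q - P) (z - P))
    (h2 : 0 ≤ det (R - Q) (z - Q)) (h3 : 0 ≤ det (P - R) (z - R)) : z ∈ C := by
  obtain ⟨d, hd⟩ : ∃ d, d = det (Q - P) (R - Q) := ⟨_, rfl⟩
  rw [← hd] at h
  convert hC.sum_mem (t := Finset.univ) (w := ![det (R - Q) (z - Q) / d, det (P - R) (z - R) / d,
    det (Q - P) (z - P) / d]) (z := ![P, Q, R]) (fun i _ => by
      fin_cases i <;> exact div_nonneg (by assumption) h.le)
    (by
      simp only [Fin.sum_univ_three, Matrix.cons_val]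
      field_simp
      simp only [hd, det, PiLp.sub_apply]; ring) fun i _ => by fin_cases i <;> assumption
  ext i
  simp only [Fin.sum_univ_three, Matrix.cons_val, PiLp.add_apply, PiLp.smul_apply, smul_eq_mul]
  field_simp
  fin_cases i <;> simp [hd, det] <;> ring

lemma tri_sub {P Q R : E} (h : 0 < det (Q - P) (R - Q)) {C : Set E} (hC : Convex ℝ C)
    (hP : P ∈ C) (hQ : Q ∈ C) (hR : R ∈ C) : tri P Q R ⊆ C := fun _ hz =>
  mem_of_det h hC hP hQ hR hz.1.le hz.2.1.le hz.2.2.le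

lemma dom_tri {P Q R : E} (h : 0 < det (Q - P) (R - Q)) : Dom (tri P Q R) := by
  refine ⟨open_tri _ _ _, ?_, (Metric.isBounded_closedBall (x := (0 : E))
    (r := ‖P‖ + ‖Q‖ + ‖R‖)).subset (tri_sub h (convex_closedBall _ _) ?_ ?_ ?_),
    nonempty_of_measure_ne_zero (μ := volume) fun k => ?_⟩
  · rw [tri_eq]
    exact (convex_aff' _ _ _).inter ((convex_aff' _ _ _).inter (convex_aff' _ _ _))
  any_goals
    rw [mem_closedBall_zero_iff]
    linarith [norm_nonneg P, norm_nonneg Q, norm_nonneg R]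
  · have := vol_tri h
    rw [Measure.real, k] at this
    simp only [ENNReal.toReal_zero] at this
    linarith

def Fits (C : Set E) (l : ℝ) : Prop :=
  ∀ k1 k2, per k1 k2 ≤ l → ∃ a ∈ C, a + k1 ∈ C ∧ a + k2 ∈ C

lemma per_smul {u : ℝ} (hu : 0 ≤ u) (k1 k2 : E) : per (u • k1) (u • k2) = u * per k1 k2 := by
  simp only [per, ← smul_sub, norm_smul, Real.norm_of_nonneg hu]; ring

lemma fits_of (hD : Dom D) {l : ℝ} (hl : 0 < l)
    (h : ∀ k1 k2, per k1 k2 < l → ∀ u, 0 ≤ u → u < 1 → er D u ![k1, k2] ≠ 0) :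
    Fits (closure D) l := by
  intro k1 k2 hk
  have hc : IsCompact (closure D ×ˢ Icc (0 : ℝ) 1 ∩ {p : E × ℝ | p.1 + (p.2 * p.2) • k1 ∈ closure D ∧
      p.1 + (p.2 * p.2) • k2 ∈ closure D}) :=
    (hD.bdd.isCompact_closure.prod isCompact_Icc).inter_right
      ((isClosed_closure.preimage (by fun_prop)).inter (isClosed_closure.preimage (by fun_prop)))
  have h1 := (hc.image continuous_snd).isClosed.closure_subset_iff (s := Ico 0 1) |>.2 fun u hu => by
    obtain ⟨a, ha⟩ := nonempty_of_measure_ne_zero (μ := volume) fun k => h (u • k1) (u • k2) (by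
      rw [per_smul hu.1]
      nlinarith [hu.1, hu.2, mul_le_mul_of_nonneg_left hk hu.1]) u hu.1 hu.2
        (by rw [er, Measure.real, k]; rfl)
    refine ⟨(a, u), ⟨⟨subset_closure (by simpa using ha 0), Ico_subset_Icc_self hu⟩,
      subset_closure ?_, subset_closure ?_⟩, rfl⟩
    · rw [mul_smul]; exact ha 1
    · rw [mul_smul]; exact ha 2
  rw [closure_Ico zero_ne_one] at h1
  obtain ⟨⟨a, u⟩, ⟨h2, h3⟩, rfl⟩ := h1 (right_mem_Icc.2 zero_le_one)
  exact ⟨a, h2.1, by simpa using h3⟩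

theorem fits {P Q R : E} (hD : Dom D) (h : 0 < det (Q - P) (R - Q))
    (he : ∀ k, 0 < k → sInf (adm D k) = sInf (adm (tri P Q R) k)) {c : E} {ρ : ℝ} (hρ : 0 < ρ)
    (hc : ∀ z ∈ D, ‖z - c‖ ≤ ρ) : Fits (closure D) (2 * volume.real D / ρ) ∧
      Fits (closure (tri P Q R)) (2 * volume.real D / ρ) := by
  have A0 := vol_pos hD
  have key : ∀ k1 k2, per k1 k2 < 2 * volume.real D / ρ → ∀ u, 0 ≤ u → u < 1 →
      er D u ![k1, k2] ≠ 0 ∧ er (tri P Q R) u ![k1, k2] ≠ 0 := by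
    intro k1 k2 hk u u0 u1
    rw [lt_div_iff₀' hρ] at hk
    have Y0 := Yt_nonneg P Q R (sp ![k1, k2])
    set Y := Yt P Q R (sp ![k1, k2])
    have t1 : Tendsto (fun j : ℕ => 1 / ((j : ℝ) + 4)) atTop (𝓝 0) :=
      tendsto_const_nhds.div_atTop (tendsto_atTop_add_const_right _ _ tendsto_natCast_atTop_atTop)
    have t2 := (rf_lim.const_mul (ρ * per k1 k2)).mul ((t1.const_mul 2).const_add 1)
    have t3 := (t1.const_mul 2).mul_const Y
    obtain ⟨j, h1, h2⟩ := ((t2.eventually (gt_mem_nhds (a := 2 * volume.real D)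
      (by simpa using hk))).and (t3.eventually (gt_mem_nhds (by simpa using h)))).exists
    have j0 : (0 : ℝ) ≤ j := j.cast_nonneg
    have e1 : 1 / ((j : ℝ) + 4) ≤ 1 / 4 := one_div_le_one_div_of_le (by norm_num) (by linarith)
    have e0 : 0 < 1 / ((j : ℝ) + 4) := by positivity
    set ε := 1 / ((j : ℝ) + 4)
    have p0 : 0 ≤ ρ * per k1 k2 * (1 + 2 * ε) := by unfold per; positivity
    have k1' := lam_cmp hD (dom_tri h) he hρ hc e0 e1 (fun s hs n y => (lam_tri h
      (Yt_nonneg _ _ _ _) e0 e1 hs fun t ht => er_tri h ht n y).1) (k1 := k1) (k2 := k2)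
      (by nlinarith [one_le_rf j])
    obtain ⟨k2', k3⟩ := lam_tri h Y0 e0 e1 one_pos fun t ht => er_tri h ht 2 ![k1, k2]
    have k4 := mt (lam_er_bad hD hc j ![k1, k2] one_pos e0 e1) (not_le.2 (by
      have := mul_le_mul_of_nonneg_left (Pm_tri j k1 k2) hρ.le
      nlinarith))
    refine ⟨fun k => k4 (Or.inr ⟨k1'.trans k2', u, u0, u1, k⟩), ?_⟩
    have k5 : Y ≤ det (Q - P) (R - Q) := not_lt.1 fun k =>
      k4 (Or.inl (k1'.trans_lt (k3 (by linarith) (by linarith))))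
    rw [er_tri h u0, max_eq_left (by nlinarith)]
    exact (div_pos (pow_pos (by nlinarith) 2) (by positivity)).ne'
  exact ⟨fits_of hD (by positivity) fun k1 k2 hk u u0 u1 => (key k1 k2 hk u u0 u1).1,
    fits_of (dom_tri h) (by positivity) fun k1 k2 hk u u0 u1 => (key k1 k2 hk u u0 u1).2⟩

end Pool.Agent.Lib.MP_c1b9d3_an
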