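import Pool.Agent.Lib.MP_c1b9d3_an.Disc

namespace Pool.Agent.Lib.MP_c1b9d3_an

open MeasureTheory Real Filter Topology Set Pool.Agent.Lib.MP_2d4879_an
open scoped InnerProductSpace

def cap (C : Set E) (P Q : E) : Set E := C ∩ {z | det (Q - P) (z - P) < 0}

structure Body (C : Set E) : Prop where
  cpt : IsCompact C
  conv : Convex ℝ C

variable {C : Set E}

lemma Body.fin (h : Body C) {s : Set E} (hs : s ⊆ C) : volume s ≠ ⊤ :=
  ((measure_mono hs).trans_lt h.cpt.measure_lt_top).ne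

lemma Body.ms_cap (h : Body C) (P Q : E) : MeasurableSet (cap C P Q) :=
  h.cpt.measurableSet.inter (measurableSet_lt (by unfold det; fun_prop) measurable_const)

lemma Body.tri_cap (h : Body C) {P Q Y : E} (hP : P ∈ C) (hQ : Q ∈ C) (hY : Y ∈ C)
    (hd : 0 < det (Y - P) (Q - Y)) : tri P Y Q ⊆ cap C P Q := fun z hz =>
  ⟨tri_sub hd h.conv hP hY hQ hz, by
    have := hz.2.2
    simp only [det, PiLp.sub_apply, mem_ofPred_eq] at this ⊢
    linarith⟩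

lemma Body.cap_ge (h : Body C) {P Q Y : E} (hP : P ∈ C) (hQ : Q ∈ C) (hY : Y ∈ C) :
    -det (Q - P) (Y - P) ≤ 2 * volume.real (cap C P Q) := by
  have e : det (Y - P) (Q - Y) = -det (Q - P) (Y - P) := by simp only [det, PiLp.sub_apply]; ring
  rcases le_or_gt (det (Y - P) (Q - Y)) 0 with k | k
  · linarith [show 0 ≤ volume.real (cap C P Q) from measureReal_nonneg]
  · linarith [vol_tri k, measureReal_mono (h.tri_cap hP hQ hY k) (h.fin inter_subset_left)]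

lemma Body.cap_side (h : Body C) {P Q k : E} (hP : P ∈ C) (hQ : Q ∈ C) (hk : k ∈ C)
    (hd : 0 < -det (Q - P) (k - P)) (hv : 2 * volume.real (cap C P Q) ≤ -det (Q - P) (k - P))
    {Y : E} (hY : Y ∈ C) : 0 ≤ det (Q - k) (Y - k) ∧ 0 ≤ det (k - P) (Y - k) := by
  have e : det (k - P) (Q - k) = -det (Q - P) (k - P) := by simp only [det, PiLp.sub_apply]; ring
  set H := {z : E | -(Q - P) 1 * z 0 + (Q - P) 0 * z 1 ≤ det (Q - P) P}
  have hH : ∀ z, z ∈ H ↔ det (Q - P) (z - P) ≤ 0 := fun z => by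
    simp only [H, det, PiLp.sub_apply, mem_ofPred_eq]; constructor <;> intro h <;> linarith
  have extra : ∀ U ∈ C ∩ H, ∀ V ∈ C ∩ H, ∀ W ∈ C ∩ H, 0 < det (V - U) (W - V) →
      Disjoint (tri P k Q) (tri U V W) → False := by
    intro U hU V hV W hW h1 h2
    have h3 := tri_sub h1 (h.conv.inter (convex_aff _ _ _)) hU hV hW
    have h4 : tri U V W ⊆ cap C P Q := fun z hz => ⟨(h3 hz).1, by
      have := lt_of_int (K := H) (a := -(Q - P) 1) (b := (Q - P) 0) (by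
        by_contra k
        have k0 : (Q - P) 0 = 0 := by nlinarith
        have k1 : (Q - P) 1 = 0 := by nlinarith
        simp [det, k0, k1] at hd) (fun p hp => hp)
        (interior_maximal (h3.trans inter_subset_right) (open_tri _ _ _) hz)
      simp only [det, PiLp.sub_apply, mem_ofPred_eq] at this ⊢
      linarith⟩
    have h5 := h.tri_cap hP hQ hk (e ▸ hd)
    have h6 := measureReal_mono (union_subset h5 h4) (h.fin inter_subset_left)
    rw [measureReal_union h2 (open_tri _ _ _).measurableSet (h.fin (h5.trans inter_subset_left))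
      (h.fin (h4.trans inter_subset_left)), vol_tri h1, vol_tri (e ▸ hd)] at h6
    linarith
  obtain ⟨τ, t0, t1, t2⟩ : ∃ τ : ℝ, 0 < τ ∧ τ ≤ 1 ∧
      τ * |det (Q - P) (Y - k)| ≤ -det (Q - P) (k - P) := by
    have := abs_nonneg (det (Q - P) (Y - k))
    refine ⟨-det (Q - P) (k - P) / (-det (Q - P) (k - P) + |det (Q - P) (Y - k)|), by positivity,
      (div_le_one (by positivity)).2 (by linarith), ?_⟩
    rw [div_mul_eq_mul_div, div_le_iff₀ (by positivity)]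
    nlinarith
  have m1 : k + τ • (Y - k) ∈ C ∩ H := ⟨h.conv.add_smul_sub_mem hk hY ⟨t0.le, t1⟩, (hH _).2 (by
    have := mul_le_mul_of_nonneg_left (le_abs_self (det (Q - P) (Y - k))) t0.le
    simp only [det, PiLp.sub_apply, PiLp.add_apply, PiLp.smul_apply, smul_eq_mul] at this t2 ⊢
    linarith)⟩
  have m2 : k ∈ C ∩ H := ⟨hk, (hH _).2 (by linarith)⟩
  constructor <;> refine not_lt.1 fun k1 => ?_
  · refine extra _ m2 _ m1 Q ⟨hQ, (hH _).2 (by simp [det, mul_comm])⟩ ?_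
      (disjoint_left.2 fun z h1 h2 => ?_)
    · have := mul_pos t0 (neg_pos.2 k1)
      simp only [det, PiLp.sub_apply, PiLp.add_apply, PiLp.smul_apply, smul_eq_mul] at this ⊢
      linarith
    · have k2 := h1.2.1
      have k3 := h2.2.2
      simp only [det, PiLp.sub_apply] at k2 k3
      linarith
  · refine extra P ⟨hP, (hH _).2 (by simp [det])⟩ _ m1 _ m2 ?_ (disjoint_left.2 fun z h1 h2 => ?_)
    · have := mul_pos t0 (neg_pos.2 k1)
      simp only [det, PiLp.sub_apply, PiLp.add_apply, PiLp.smul_apply, smul_eq_mul] at this ⊢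
      linarith
    · have k2 := h1.1
      have k3 := h2.2.2
      simp only [det, PiLp.sub_apply] at k2 k3
      linarith

def Jv (v : E) : E := !₂[-v 1, v 0]

lemma norm_Jv (v : E) : ‖Jv v‖ = ‖v‖ := by
  rw [← sq_eq_sq₀ (norm_nonneg _) (norm_nonneg _), nsq, nsq]; simp [Jv, add_comm]

lemma perturb {l ρ a2 a3 : ℝ} (hF : Fits C l) (hρ : 0 < ρ) {X1 X2 X3 k1 k2 k3 : E}
    (hΔ : 0 < det (X2 - X1) (X3 - X2)) (n2 : ‖X2‖ = ρ) (n3 : ‖X3‖ = ρ) (ha2 : 0 < a2)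
    (ha3 : 0 < a3) (e2 : k1 - k3 = a2 • Jv X2) (e3 : k2 - k1 = a3 • Jv X3)
    (hl : ρ * (a2 + a3) + ‖k2 - k3‖ ≤ l) (s1 : ∀ Y ∈ C, 0 ≤ det (X3 - X2) (Y - k1))
    (s2 : ∀ Y ∈ C, 0 ≤ det (X1 - X3) (Y - k2)) (s3 : ∀ Y ∈ C, 0 ≤ det (X2 - X1) (Y - k3))
    (s4 : ∀ Y ∈ C, 0 ≤ det (X3 - k1) (Y - k1)) : -det (X3 - X2) (k1 - X2) ≤ 0 := by
  refine not_lt.1 fun hd => ?_
  have l0 : 0 < l := lt_of_lt_of_le (by positivity) hl
  obtain ⟨β, hβ⟩ : ∃ β, β = -det (X3 - k1) (X2 - X1) := ⟨_, rfl⟩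
  obtain ⟨γ, hγ⟩ : ∃ γ, γ = -det (X1 - X3) (X3 - k1) := ⟨_, rfl⟩
  obtain ⟨N, hN⟩ : ∃ N, N = |β| + |γ| := ⟨_, rfl⟩
  obtain ⟨c, hc⟩ : ∃ c, c = ‖X3 - X2‖ ^ 2 * (1 / (2 * a2 * ρ) + 1 / (2 * a3 * ρ)) := ⟨_, rfl⟩
  have c0 : 0 ≤ c := by rw [hc]; positivity
  set Δ := det (X2 - X1) (X3 - X2) with hΔ'
  set d := -det (X3 - X2) (k1 - X2) with hd'
  obtain ⟨B, hB⟩ : ∃ B, B = N * det (X3 - X2) (k1 - k3) + Δ * det (X3 - k1) (k1 - k3) +
    (N + β) * det (X1 - X3) (k2 - k3) := ⟨_, rfl⟩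
  obtain ⟨δ, hδ⟩ : ∃ δ, δ = l * (Δ * d) / (2 * (c * |B| + 1)) := ⟨_, rfl⟩
  have δ0 : 0 < δ := by rw [hδ]; positivity
  have am : ∀ (v : E) (m : ℝ), 0 < m → ‖v‖ ≤ (‖v‖ ^ 2 + m ^ 2) / (2 * m) := fun v m hm => by
    rw [le_div_iff₀ (by positivity)]; nlinarith [sq_nonneg (‖v‖ - m)]
  have hp : per (k1 - k3 + δ • (X3 - X2)) (k2 - k3) ≤ l + c * δ ^ 2 := by
    have k1' := am (a2 • Jv X2 + δ • (X3 - X2)) (a2 * ρ) (by positivity)
    have k2' := am (a3 • Jv X3 - δ • (X3 - X2)) (a3 * ρ) (by positivity)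
    rw [per, show k2 - k3 - (k1 - k3 + δ • (X3 - X2)) = k2 - k1 - δ • (X3 - X2) by abel, e2, e3]
    rw [norm_add_sq_real] at k1'
    rw [norm_sub_sq_real] at k2'
    have i2 : ⟪a2 • Jv X2, δ • (X3 - X2)⟫_ℝ = a2 * δ * det X2 X3 := by simp [inn, Jv, det]; ring
    have i3 : ⟪a3 • Jv X3, δ • (X3 - X2)⟫_ℝ = a3 * δ * det X2 X3 := by simp [inn, Jv, det]; ring
    simp only [i2, i3, norm_smul, norm_Jv, n2, n3, Real.norm_of_nonneg ha2.le,
      Real.norm_of_nonneg ha3.le, Real.norm_of_nonneg δ0.le] at k1' k2'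
    have : ((a2 * ρ) ^ 2 + 2 * (a2 * δ * det X2 X3) + (δ * ‖X3 - X2‖) ^ 2 + (a2 * ρ) ^ 2) /
        (2 * (a2 * ρ)) + ((a3 * ρ) ^ 2 - 2 * (a3 * δ * det X2 X3) + (δ * ‖X3 - X2‖) ^ 2 +
          (a3 * ρ) ^ 2) / (2 * (a3 * ρ)) = ρ * (a2 + a3) + c * δ ^ 2 := by
      rw [hc]; field_simp; ring
    linarith
  obtain ⟨u, hu⟩ : ∃ u, u = l / (l + c * δ ^ 2) := ⟨_, rfl⟩
  have hu' : u * (l + c * δ ^ 2) = l := by rw [hu]; field_simp
  have u0 : 0 < u := by rw [hu]; positivity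
  obtain ⟨a, m3, m1, m2⟩ := hF (u • (k1 - k3 + δ • (X3 - X2))) (u • (k2 - k3)) (by
    rw [per_smul u0.le, ← hu']; gcongr)
  have k := add_nonneg (add_nonneg (add_nonneg (mul_nonneg (show 0 ≤ N by rw [hN]; positivity)
    (s1 _ m1)) (mul_nonneg hΔ.le (s4 _ m1))) (mul_nonneg (show 0 ≤ N + β by
      linarith [neg_le_abs β, abs_nonneg γ]) (s2 _ m2))) (mul_nonneg (show 0 ≤ N + γ by
        linarith [neg_le_abs γ, abs_nonneg β]) (s3 _ m3))
  have e : N * det (X3 - X2) (a + u • (k1 - k3 + δ • (X3 - X2)) - k1) +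
      Δ * det (X3 - k1) (a + u • (k1 - k3 + δ • (X3 - X2)) - k1) +
      (N + β) * det (X1 - X3) (a + u • (k2 - k3) - k2) + (N + γ) * det (X2 - X1) (a - k3) =
      -(u * δ * (Δ * d)) - (1 - u) * B := by
    simp only [hB, hβ, hγ, hΔ', hd', det, PiLp.sub_apply, PiLp.add_apply, PiLp.smul_apply,
      smul_eq_mul]
    ring
  rw [e] at k
  have k1' := mul_nonneg (show 0 ≤ l + c * δ ^ 2 by positivity) k
  have k2' : l * (Δ * d) ≤ c * δ * |B| := by
    refine le_of_mul_le_mul_left ?_ δ0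
    have f : (l + c * δ ^ 2) * (-(u * δ * (Δ * d)) - (1 - u) * B) =
        -(δ * (l * (Δ * d))) - c * δ ^ 2 * B := by
      linear_combination (B - δ * (Δ * d)) * hu'
    nlinarith [mul_le_mul_of_nonneg_left (neg_le_abs B) (mul_nonneg c0 (sq_nonneg δ))]
  have k3' : δ * (2 * (c * |B| + 1)) = l * (Δ * d) := by rw [hδ]; field_simp
  nlinarith [mul_nonneg (mul_nonneg c0 δ0.le) (abs_nonneg B)]

lemma two_caps {ρ : ℝ} {X1 X2 X3 z : E} (hΔ : 0 < det (X2 - X1) (X3 - X2)) (n1 : ‖X1‖ = ρ)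
    (n2 : ‖X2‖ = ρ) (n3 : ‖X3‖ = ρ) (hz : ‖z‖ ≤ ρ) (h1 : det (X2 - X1) (z - X1) < 0)
    (h2 : det (X3 - X2) (z - X2) < 0) : False := by
  have ρ0 : 0 ≤ ρ := n1 ▸ norm_nonneg _
  have k0 := mul_nonneg hΔ.le (sub_nonneg.2 ((real_inner_le_norm z X2).trans
    (mul_le_mul_of_nonneg_right hz (norm_nonneg _))))
  have k1 := mul_nonneg (neg_nonneg.2 h1.le) (sq_nonneg ‖X3 - X2‖)
  have k2 := mul_pos (neg_pos.2 h2) (sq_pos_of_pos (norm_pos_iff.2 (show X2 - X1 ≠ 0 from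
    fun k => by simp [k, det] at hΔ)))
  have q1 := nsq X1
  have q2 := nsq X2
  have q3 := nsq X3
  rw [n2, ← sq] at k0
  rw [n1] at q1
  rw [n2] at q2
  rw [n3] at q3
  have e : 2 * (det (X2 - X1) (X3 - X2) * (ρ ^ 2 - ⟪z, X2⟫_ℝ)) +
      -det (X2 - X1) (z - X1) * ‖X3 - X2‖ ^ 2 + -det (X3 - X2) (z - X2) * ‖X2 - X1‖ ^ 2 = 0 := by
    linear_combination (norm := (simp only [nsq, inn, det, PiLp.sub_apply]; ring1))
      (det (X2 - X1) (z - X1)) * (q3 - q2) + (det (X3 - X2) (z - X2)) * (q1 - q2) +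
        2 * det (X2 - X1) (X3 - X2) * q2
  linarith

lemma Body.eq_tri (h : Body C) {P Q R : E} (hΔ : 0 < det (Q - P) (R - Q)) (hP : P ∈ C) (hQ : Q ∈ C)
    (hR : R ∈ C) (h1 : ∀ Y ∈ C, 0 ≤ det (Q - P) (Y - P)) (h2 : ∀ Y ∈ C, 0 ≤ det (R - Q) (Y - Q))
    (h3 : ∀ Y ∈ C, 0 ≤ det (P - R) (Y - R)) : interior C = tri P Q R := by
  refine Subset.antisymm (fun z hz => ?_)
    (interior_maximal (tri_sub hΔ h.conv hP hQ hR) (open_tri _ _ _))
  have key : ∀ u X : E, u ≠ 0 → (∀ Y ∈ C, 0 ≤ det u (Y - X)) → 0 < det u (z - X) := by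
    intro u X hu hY
    have := lt_of_int (a := u 1) (b := -u 0) (c := -det u X) (by
      have := sq_pos_of_pos (norm_pos_iff.2 hu)
      rw [nsq] at this; linarith) (fun p hp => by
        have := hY p hp
        simp only [det, PiLp.sub_apply] at this ⊢; linarith) hz
    simp only [det, PiLp.sub_apply] at this ⊢; linarith
  refine ⟨key _ _ (fun k => ?_) h1, key _ _ (fun k => ?_) h2, key _ _ (fun k => ?_) h3⟩
  · simp [k, det] at hΔ
  · simp [k, det] at hΔ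
  · rw [sub_eq_zero.1 k] at hΔ
    simp only [det, PiLp.sub_apply] at hΔ; linarith

def Shape (D : Set E) (ρ : ℝ) : Prop := ∃ P Q R : E, 0 < det (Q - P) (R - Q) ∧ D = tri P Q R ∧
  ((‖P‖ = ρ ∧ ‖Q‖ = ρ ∧ ‖R‖ = ρ ∧ 0 < det P Q ∧ 0 < det Q R ∧ 0 < det R P) ∨
    (R = -Q ∧ ‖Q‖ = ρ ∧ ‖P‖ ≤ ρ))

lemma Body.flat (h : Body C) {l ρ a : ℝ} (hF : Fits C l) (hρ : 0 < ρ) (hc : ∀ z ∈ C, ‖z‖ ≤ ρ)
    {X k1 k : E} (m : X ∈ C) (m' : -X ∈ C) (n : ‖X‖ = ρ) (m1 : k1 ∈ C) (mk : k ∈ C) (ha : 0 < a)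
    (e : k1 - k = a • Jv X) (hl : ρ * (a + a) ≤ l)
    (v1 : 2 * volume.real (cap C X (-X)) ≤ -det (-X - X) (k1 - X))
    (v2 : 2 * volume.real (cap C (-X) X) ≤ -det (X - -X) (k - -X))
    (hd : 0 < -det (X - -X) (k - -X)) : Shape (interior C) ρ := by
  have hΔ : 0 < det (X - k) (-X - X) := by
    simp only [det, PiLp.sub_apply, PiLp.neg_apply] at hd ⊢; linarith
  have s := fun Y hY => h.cap_side m' m mk hd v2 (Y := Y) hY
  have s2 : ∀ Y ∈ C, 0 ≤ det (k - -X) (Y - k) := fun Y hY => (s Y hY).2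
  have d1 : -det (-X - X) (k1 - X) ≤ 0 := not_lt.1 fun d1 => (perturb hF hρ hΔ n (by simpa using n)
    ha ha e (k2 := k) (by rw [← neg_sub, e]; ext i; fin_cases i <;> simp [Jv]) (by simpa using hl)
    (fun Y hY => by
      have := (h.cap_ge m m' hY).trans v1
      simp only [det, PiLp.sub_apply] at this ⊢; linarith) s2 (fun Y hY => (s Y hY).1)
    fun Y hY => (h.cap_side m m' m1 d1 v1 hY).1).not_gt d1
  refine ⟨k, X, -X, hΔ, h.eq_tri hΔ mk m m' (fun Y hY => (s Y hY).1) (fun Y hY => by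
    linarith [h.cap_ge m m' hY]) fun Y hY => ?_, Or.inr ⟨rfl, n, hc k mk⟩⟩
  have := s2 Y hY
  simp only [det, PiLp.sub_apply] at this ⊢; linarith

theorem Body.shape (h : Body C) {l ρ : ℝ} (hF : Fits C l) (hl : 0 < l) (hρ : 0 < ρ)
    (hc : ∀ z ∈ C, ‖z‖ ≤ ρ) (hX : Cert C ρ) : ρ * l ≤ 2 * volume.real C ∧
      (2 * volume.real C ≤ ρ * l → Shape (interior C) ρ) := by
  rcases hX with ⟨X, m, m', n⟩ | ⟨X1, m1, X2, m2, X3, m3, n1, n2, n3, d3, d1, d2⟩
  · obtain ⟨a, ha⟩ : ∃ a, a = l / (2 * ρ) := ⟨_, rfl⟩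
    have a0 : 0 < a := by rw [ha]; positivity
    have hl' : ρ * (a + a) = l := by rw [ha]; field_simp; ring
    obtain ⟨k, mk, m1, -⟩ := hF (a • Jv X) 0 (by
      simp only [per, zero_sub, norm_neg, norm_smul, norm_Jv, n, Real.norm_of_nonneg a0.le,
        norm_zero]
      linarith)
    have k1 := h.cap_ge m m' m1
    have k2 := h.cap_ge m' m mk
    have k3 : volume.real (cap C X (-X) ∪ cap C (-X) X) ≤ volume.real C :=
      measureReal_mono (union_subset inter_subset_left inter_subset_left) (h.fin subset_rfl)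
    rw [measureReal_union (s₁ := cap C X (-X)) (s₂ := cap C (-X) X) (disjoint_left.2 fun z h1 h2 => by
      have k1 := h1.2
      have k2 := h2.2
      simp only [det, PiLp.sub_apply, PiLp.neg_apply, mem_ofPred_eq] at k1 k2
      linarith) (h.ms_cap _ _) (h.fin inter_subset_left) (h.fin inter_subset_left)] at k3
    have e : -det (-X - X) (k + a • Jv X - X) + -det (X - -X) (k - -X) = ρ * l := by
      rw [← hl', ← n, ← mul_assoc, ← sq, nsq]; simp [det, Jv]; ring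
    refine ⟨by linarith, fun hA => ?_⟩
    rcases lt_or_ge 0 (-det (X - -X) (k - -X)) with d | d
    · exact h.flat hF hρ hc m m' n m1 mk a0 (by simp) hl'.le (by linarith) (by linarith) d
    · refine h.flat hF hρ hc m' (by simpa using m) (by simpa using n) mk m1 a0
        (by ext i; fin_cases i <;> simp [Jv]) hl'.le ?_ ?_ ?_ <;> rw [neg_neg] <;>
        linarith [mul_pos hρ hl]
  · have hΔ : det (X2 - X1) (X3 - X2) = det X2 X3 + det X3 X1 + det X1 X2 := by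
      simp only [det, PiLp.sub_apply]; ring
    have Δ1 : 0 < det (X2 - X1) (X3 - X2) := by linarith
    have Δ2 : 0 < det (X3 - X2) (X1 - X3) := by
      simp only [det, PiLp.sub_apply] at Δ1 ⊢; linarith
    have Δ3 : 0 < det (X1 - X3) (X2 - X1) := by
      simp only [det, PiLp.sub_apply] at Δ1 ⊢; linarith
    obtain ⟨κ, hκ⟩ : ∃ κ, κ = l / (ρ * det (X2 - X1) (X3 - X2)) := ⟨_, rfl⟩
    have κ0 : 0 < κ := by rw [hκ]; positivity
    have hl' : ρ * (κ * det X2 X3 + κ * det X3 X1 + κ * det X1 X2) = l := by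
      rw [← mul_add, ← mul_add, ← hΔ, hκ]; field_simp
    have a1 := mul_pos κ0 d1
    have a2 := mul_pos κ0 d2
    have a3 := mul_pos κ0 d3
    have nr : ∀ {a : ℝ} {X v : E}, 0 < a → ‖X‖ = ρ → v = a • Jv X → ‖-v‖ = ρ * a :=
      fun ha hX hv => by rw [hv, norm_neg, norm_smul, norm_Jv, hX, Real.norm_of_nonneg ha.le,
        mul_comm]
    have e0 : -((κ * det X3 X1) • Jv X2 + (κ * det X1 X2) • Jv X3) = (κ * det X2 X3) • Jv X1 := by
      ext i; fin_cases i <;> simp [Jv, det] <;> ring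
    obtain ⟨k3, q3, q1, q2⟩ := hF ((κ * det X3 X1) • Jv X2) ((κ * det X3 X1) • Jv X2 +
      (κ * det X1 X2) • Jv X3) (by
        rw [per, add_sub_cancel_left, ← norm_neg, ← norm_neg (_ • Jv X3), nr a2 n2 rfl,
          nr a3 n3 rfl, ← norm_neg, ← norm_neg, nr a1 n1 e0]
        linarith)
    obtain ⟨k1, e1⟩ : ∃ k1, k1 = k3 + (κ * det X3 X1) • Jv X2 := ⟨_, rfl⟩
    obtain ⟨k2, e2⟩ : ∃ k2, k2 = k3 + ((κ * det X3 X1) • Jv X2 + (κ * det X1 X2) • Jv X3) :=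
      ⟨_, rfl⟩
    rw [← e1] at q1
    rw [← e2] at q2
    have f2 : k1 - k3 = (κ * det X3 X1) • Jv X2 := by rw [e1]; abel
    have f3 : k2 - k1 = (κ * det X1 X2) • Jv X3 := by rw [e1, e2]; abel
    have f1 : k3 - k2 = (κ * det X2 X3) • Jv X1 := by rw [e2, ← e0]; abel
    have g1 := h.cap_ge m2 m3 q1
    have g2 := h.cap_ge m3 m1 q2
    have g3 := h.cap_ge m1 m2 q3
    have ts := tri_sub Δ1 h.conv m1 m2 m3
    have cs : ∀ P Q, cap C P Q ⊆ C := fun _ _ => inter_subset_left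
    have k := measureReal_mono (union_subset (union_subset (union_subset ts (cs X2 X3)) (cs X3 X1))
      (cs X1 X2)) (h.fin subset_rfl)
    rw [measureReal_union (disjoint_left.2 ?_) (h.ms_cap _ _)
      (h.fin (union_subset (union_subset ts (cs _ _)) (cs _ _))) (h.fin (cs _ _)),
      measureReal_union (disjoint_left.2 ?_) (h.ms_cap _ _) (h.fin (union_subset ts (cs _ _)))
      (h.fin (cs _ _)), measureReal_union (disjoint_left.2 ?_) (h.ms_cap _ _) (h.fin ts)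
      (h.fin (cs _ _)), vol_tri Δ1] at k
    rotate_left
    · exact fun z h1 h2 => h1.2.1.not_gt h2.2
    · rintro z (h1 | h1) h2
      · exact h1.2.2.not_gt h2.2
      · exact two_caps Δ2 n2 n3 n1 (hc z h1.1) h1.2 h2.2
    · rintro z ((h1 | h1) | h1) h2
      · exact h1.1.not_gt h2.2
      · exact two_caps Δ1 n1 n2 n3 (hc z h1.1) h2.2 h1.2
      · exact two_caps Δ3 n3 n1 n2 (hc z h1.1) h1.2 h2.2
    have e : det (X2 - X1) (X3 - X2) + -det (X3 - X2) (k1 - X2) + -det (X1 - X3) (k2 - X3) +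
        -det (X2 - X1) (k3 - X1) = ρ * l := by
      have : ∀ (a : ℝ) (X v : E), ‖X‖ = ρ → v = a • Jv X → det X v = ρ ^ 2 * a := fun a X v hX hv => by
        rw [hv, ← hX, nsq]; simp [det, Jv]; ring
      have t1 := this _ _ _ n1 f1
      have t2 := this _ _ _ n2 f2
      have t3 := this _ _ _ n3 f3
      rw [← hl']
      generalize κ * det X2 X3 = b1, κ * det X3 X1 = b2, κ * det X1 X2 = b3 at t1 t2 t3 ⊢
      simp only [det, PiLp.sub_apply] at t1 t2 t3 ⊢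
      linarith
    refine ⟨by linarith, fun hA => ?_⟩
    have s : ∀ {P Q k : E}, P ∈ C → Q ∈ C → 2 * volume.real (cap C P Q) ≤ -det (Q - P) (k - P) →
        ∀ Y ∈ C, 0 ≤ det (Q - P) (Y - k) := fun hP hQ hv Y hY => by
      have := (h.cap_ge hP hQ hY).trans hv
      simp only [det, PiLp.sub_apply] at this ⊢; linarith
    have v1 : 2 * volume.real (cap C X2 X3) ≤ -det (X3 - X2) (k1 - X2) := by linarith
    have v2 : 2 * volume.real (cap C X3 X1) ≤ -det (X1 - X3) (k2 - X3) := by linarith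
    have v3 : 2 * volume.real (cap C X1 X2) ≤ -det (X2 - X1) (k3 - X1) := by linarith
    have z1 : -det (X3 - X2) (k1 - X2) ≤ 0 := not_lt.1 fun d => (perturb hF hρ Δ1 n2 n3 a2 a3 f2 f3
      (by rw [← neg_sub, nr a1 n1 f1]; linarith) (s m2 m3 v1) (s m3 m1 v2) (s m1 m2 v3)
      fun Y hY => (h.cap_side m2 m3 q1 d v1 hY).1).not_gt d
    have z2 : -det (X1 - X3) (k2 - X3) ≤ 0 := not_lt.1 fun d => (perturb hF hρ Δ2 n3 n1 a3 a1 f3 f1
      (by rw [← neg_sub, nr a2 n2 f2]; linarith) (s m3 m1 v2) (s m1 m2 v3) (s m2 m3 v1)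
      fun Y hY => (h.cap_side m3 m1 q2 d v2 hY).1).not_gt d
    have z3 : -det (X2 - X1) (k3 - X1) ≤ 0 := not_lt.1 fun d => (perturb hF hρ Δ3 n1 n2 a1 a2 f1 f2
      (by rw [← neg_sub, nr a3 n3 f3]; linarith) (s m1 m2 v3) (s m2 m3 v1) (s m3 m1 v2)
      fun Y hY => (h.cap_side m1 m2 q3 d v3 hY).1).not_gt d
    exact ⟨X1, X2, X3, Δ1, h.eq_tri Δ1 m1 m2 m3 (fun Y hY => by linarith [h.cap_ge m1 m2 hY])
      (fun Y hY => by linarith [h.cap_ge m2 m3 hY]) fun Y hY => by linarith [h.cap_ge m3 m1 hY],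
      Or.inl ⟨n1, n2, n3, d3, d1, d2⟩⟩

end Pool.Agent.Lib.MP_c1b9d3_an
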