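import Pool.Agent.Lib.MP_2d4879_an.Lim

namespace Pool.Agent.Lib.MP_c1b9d3_an

open MeasureTheory Real Filter Topology Set Pool.Agent.Lib.MP_2d4879_an
open scoped ENNReal InnerProductSpace

def ev (v : E) (x x' : ℝ) (q : Fin 3) (N : ℕ) : Set (Fin N → E) :=
  ![{p | ∃ i j, i < j ∧ x ≤ ⟪v, p i⟫_ℝ ∧ x' ≤ -⟪v, p j⟫_ℝ}, {p | ∃ j, x' ≤ -⟪v, p j⟫_ℝ}, univ] q

noncomputable def st (v : E) (x x' : ℝ) (q : Fin 3) (y : E) : Fin 3 :=
  ![if x ≤ ⟪v, y⟫_ℝ then 1 else 0, if x' ≤ -⟪v, y⟫_ℝ then 2 else 1, 2] q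

noncomputable def sgn (q : Fin 3) : ℝ := ![1 / 2, -(1 / 2), 1 / 2] q

def rem (x x' : ℝ) (q : Fin 3) : ℝ := ![x + x', x', 0] q

lemma ms_ev (v : E) (x x' : ℝ) (q : Fin 3) (N : ℕ) : MeasurableSet (ev v x x' q N) := by
  fin_cases q <;> simp only [ev, Fin.zero_eta, Fin.mk_one, Fin.reduceFinMk, Matrix.cons_val]
  · measurability
  · measurability
  · exact MeasurableSet.univ

lemma ev_step (v : E) (x x' : ℝ) (q : Fin 3) (N : ℕ) (y : E) :
    cns y ⁻¹' ev v x x' q (N + 1) ⊆ ev v x x' (st v x x' q y) N := by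
  fin_cases q <;> simp only [st, Fin.zero_eta, Fin.mk_one, Fin.reduceFinMk, Matrix.cons_val]
  · rintro p ⟨i, j, hij, hi, hj⟩
    cases j using Fin.cases
    · simp at hij
    split_ifs with h
    · exact ⟨_, hj⟩
    · cases i using Fin.cases
      · exact (h hi).elim
      · exact ⟨_, _, Fin.succ_lt_succ_iff.1 hij, hi, hj⟩
  · rintro p ⟨j, hj⟩
    split_ifs with h
    · trivial
    · cases j using Fin.cases
      · exact (h hj).elim
      · exact ⟨_, hj⟩
  · exact fun _ _ => trivial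

lemma st_jump (v : E) (x x' : ℝ) (q : Fin 3) (y : E) :
    sgn (st v x x' q y) * ⟪v, y⟫_ℝ - rem x x' (st v x x' q y) ≤ sgn q * ⟪v, y⟫_ℝ - rem x x' q := by
  fin_cases q <;> simp only [st, Fin.zero_eta, Fin.mk_one, Fin.reduceFinMk, Matrix.cons_val]
  · split_ifs with h
    · simp only [sgn, rem, Matrix.cons_val]; linarith
    · rfl
  · split_ifs with h
    · simp only [sgn, rem, Matrix.cons_val]; linarith
    · rfl
  · rfl

lemma st_done {v : E} {x x' : ℝ} {q : Fin 3} {y : E} (h : q ≠ 2) (h' : st v x x' q y = 2) :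
    x' ≤ -⟪v, y⟫_ℝ := by
  fin_cases q <;> simp only [st, Fin.zero_eta, Fin.mk_one, Fin.reduceFinMk, Matrix.cons_val] at h'
  · split_ifs at h' <;> simp at h'
  · split_ifs at h' with k
    · exact k
    · simp at h'
  · simp at h

lemma lint_tilt {h : ℝ} (hh : 0 < h) (V a : E) :
    ∫⁻ y, pe h (a - y) * ENNReal.ofReal (exp ⟪V, y⟫_ℝ) =
      ENNReal.ofReal (exp (⟪V, a⟫_ℝ + h * ‖V‖ ^ 2)) := by
  rw [← lintegral_sub_left_eq_self _ a]
  have e : ∀ z, pe h (a - (a - z)) * ENNReal.ofReal (exp ⟪V, a - z⟫_ℝ) =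
      ENNReal.ofReal (exp ⟪V, a⟫_ℝ * (pk h z * exp ⟪-V, z⟫_ℝ)) := fun z => by
    rw [pe, ← ENNReal.ofReal_mul (pk_pos hh _).le, sub_sub_cancel, inner_sub_right,
      inner_neg_left, sub_eq_add_neg, exp_add]
    congr 1; ring
  simp_rw [e]
  rw [← ofReal_integral_eq_lintegral_ofReal ((pk_tilt_int hh _).const_mul _)
    (Eventually.of_forall fun z => (mul_pos (exp_pos _) (mul_pos (pk_pos hh _) (exp_pos _))).le),
    integral_const_mul, pk_tilt hh, norm_neg, exp_add]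

lemma pk_far {t η d ρ l : ℝ} (ht : 0 < t) (hη : 0 < η) (hη1 : η < 1) (hd : 0 < d) (hl : 0 ≤ l)
    {V y : E} (hV : ‖V‖ ≤ ρ) (hy : d ≤ ‖y‖) :
    pk t y ≤ (π * η * d ^ 2)⁻¹ * exp (l * ⟪V, y⟫_ℝ + l ^ 2 * ρ ^ 2 / (1 - η) * t) := by
  have h1 := sub_pos.2 hη1
  have h2 : -(ρ * ‖y‖) ≤ ⟪V, y⟫_ℝ := (neg_le_neg (mul_le_mul_of_nonneg_right hV
    (norm_nonneg _))).trans (neg_le_of_abs_le (abs_real_inner_le_norm _ _))
  have h3 : exp (-(η * d ^ 2 / (4 * t))) ≤ (η * d ^ 2 / (4 * t))⁻¹ := by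
    rw [exp_neg]
    exact inv_anti₀ (by positivity) (by linarith [add_one_le_exp (η * d ^ 2 / (4 * t))])
  have h4 : -‖y‖ ^ 2 / (4 * t) ≤ -(η * d ^ 2 / (4 * t)) +
      (l * ⟪V, y⟫_ℝ + l ^ 2 * ρ ^ 2 / (1 - η) * t) := by
    have k1 : η * d ^ 2 / (4 * t) ≤ η * ‖y‖ ^ 2 / (4 * t) := by gcongr
    have k2 : 0 ≤ ((1 - η) * ‖y‖ - 2 * t * l * ρ) ^ 2 / (4 * t * (1 - η)) := by positivity
    have k3 : ((1 - η) * ‖y‖ - 2 * t * l * ρ) ^ 2 / (4 * t * (1 - η)) = ‖y‖ ^ 2 / (4 * t) -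
        η * ‖y‖ ^ 2 / (4 * t) - l * (ρ * ‖y‖) + l ^ 2 * ρ ^ 2 / (1 - η) * t := by
      field_simp; ring
    rw [neg_div]
    nlinarith [mul_le_mul_of_nonneg_left h2 hl]
  calc _ ≤ (4 * π * t)⁻¹ * ((η * d ^ 2 / (4 * t))⁻¹ *
        exp (l * ⟪V, y⟫_ℝ + l ^ 2 * ρ ^ 2 / (1 - η) * t)) := by
        refine mul_le_mul_of_nonneg_left ((exp_le_exp.2 h4).trans ?_) (by positivity)
        rw [exp_add]; gcongr
    _ = _ := by field_simp

theorem hit_all {ι : Type} [Fintype ι] (v : ι → E) (x x' : ι → ℝ) {h η d ρ l : ℝ} (hh : 0 < h)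
    (hη : 0 < η) (hη1 : η < 1) (hd : 0 < d) (hl : 0 ≤ l)
    (hV : ∀ q : ι → Fin 3, ‖∑ i, sgn (q i) • v i‖ ≤ ρ)
    (hx : ∀ i y, x' i ≤ -⟪v i, y⟫_ℝ → d ≤ ‖y‖) (N : ℕ) :
    ∀ (q : ι → Fin 3) (a : E), (∃ i, q i ≠ 2) → pm h N a 0 (⋂ i, ev (v i) (x i) (x' i) (q i) N) ≤
      ENNReal.ofReal ((π * η * d ^ 2)⁻¹ * exp (l * (⟪∑ i, sgn (q i) • v i, a⟫_ℝ -
        ∑ i, rem (x i) (x' i) (q i)) + l ^ 2 * ρ ^ 2 / (1 - η) * ((N + 1) * h))) := by
  induction N with
  | zero =>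
    rintro q a ⟨i, hi⟩
    refine le_trans (le_of_eq (measure_mono_null (iInter_subset _ i) ?_)) zero_le
    generalize q i = k at hi
    fin_cases k <;> simp [ev] at hi ⊢
  | succ N ih =>
    rintro q a ⟨i, hi⟩
    set K := (π * η * d ^ 2)⁻¹
    set μ := l ^ 2 * ρ ^ 2 / (1 - η) with hμ
    have hK : 0 ≤ K := by positivity
    rw [pm_succ _ _ _ (MeasurableSet.iInter fun i => ms_ev _ _ _ _ _)]
    calc _ ≤ ∫⁻ y, ENNReal.ofReal (K * exp (-(l * ∑ i, rem (x i) (x' i) (q i)) +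
          μ * ((N + 1) * h))) * (pe h (a - y) *
            ENNReal.ofReal (exp ⟪l • ∑ i, sgn (q i) • v i, y⟫_ℝ)) := by
          refine lintegral_mono fun y => ?_
          rw [mul_left_comm, ← ENNReal.ofReal_mul (by positivity)]
          refine mul_le_mul_right ?_ _
          set q' := fun i => st (v i) (x i) (x' i) (q i) y
          have h1 : pm h N y 0 (cns y ⁻¹' ⋂ i, ev (v i) (x i) (x' i) (q i) (N + 1)) ≤
              ENNReal.ofReal (K * exp (l * (⟪∑ i, sgn (q' i) • v i, y⟫_ℝ -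
                ∑ i, rem (x i) (x' i) (q' i)) + μ * ((N + 1) * h))) := by
            by_cases hq : ∃ i, q' i ≠ 2
            · refine le_trans (measure_mono ?_) (ih q' y hq)
              rw [preimage_iInter]
              exact iInter_mono fun i => ev_step _ _ _ _ _ _
            · push Not at hq
              refine (measure_mono (subset_univ _)).trans ((pm_univ hh N 0 y).le.trans
                (ENNReal.ofReal_le_ofReal ?_))
              rw [sub_zero, show ∑ i, rem (x i) (x' i) (q' i) = 0 by simp [hq, rem], sub_zero]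
              exact pk_far (by positivity) hη hη1 hd hl (hV q') (hx i y (st_done hi (hq i)))
          refine h1.trans (ENNReal.ofReal_le_ofReal ?_)
          rw [mul_assoc K, ← exp_add]
          refine mul_le_mul_of_nonneg_left (exp_le_exp.2 ?_) hK
          have h2 := mul_le_mul_of_nonneg_left (Finset.sum_le_sum (s := Finset.univ)
            fun i _ => st_jump (v i) (x i) (x' i) (q i) y) hl
          simp only [inner_smul_left, sum_inner, Finset.sum_sub_distrib, conj_trivial] at h2 ⊢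
          linarith
      _ ≤ _ := by
          rw [lintegral_const_mul' _ _ ENNReal.ofReal_ne_top, lint_tilt hh,
            ← ENNReal.ofReal_mul (by positivity), mul_assoc K, ← exp_add]
          refine ENNReal.ofReal_le_ofReal (mul_le_mul_of_nonneg_left (exp_le_exp.2 ?_) hK)
          have k1 : ‖l • ∑ i, sgn (q i) • v i‖ ^ 2 ≤ μ := by
            rw [norm_smul, mul_pow, Real.norm_eq_abs, sq_abs, hμ, le_div_iff₀ (sub_pos.2 hη1)]
            have := pow_le_pow_left₀ (norm_nonneg _) (hV q) 2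
            nlinarith [mul_le_mul_of_nonneg_left this (sq_nonneg l),
              mul_nonneg (mul_nonneg (sq_nonneg l) (sq_nonneg ‖∑ i, sgn (q i) • v i‖)) hη.le]
          rw [inner_smul_left, conj_trivial]
          push_cast
          nlinarith [mul_le_mul_of_nonneg_left k1 hh.le]

lemma ev_ex {n : ℕ} (y : Fin n → E) (u : E) {R : ℕ} (hR : 1 ≤ R) :
    ∃ T : Bool × Fin 3 × Fin (R + 1) × Fin (R + 1), 1 ≤ (T.2.2.2 : ℕ) ∧
      y ∈ ev (if T.1 then u else -u) T.2.2.1 T.2.2.2 T.2.1 n ∧ rem T.2.2.1 T.2.2.2 T.2.1 =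
        (min ⌊spf y (u 0) (u 1)⌋₊ R : ℕ) + (min ⌊spf y (-u 0) (-u 1)⌋₊ R : ℕ) := by
  have key : ∀ (a b : ℝ), 0 < min ⌊spf y a b⌋₊ R →
      ∃ j, ((min ⌊spf y a b⌋₊ R : ℕ) : ℝ) ≤ a * y j 0 + b * y j 1 := fun a b h =>
    exists_mid (by exact_mod_cast h) ((Nat.cast_le.2 (min_le_left _ _)).trans
      (Nat.floor_le ((sp y).nonneg a b)))
  have ka := key (u 0) (u 1)
  have kb := key (-u 0) (-u 1)
  have ha : min ⌊spf y (u 0) (u 1)⌋₊ R < R + 1 := Nat.lt_succ_of_le (min_le_right _ _)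
  have hb : min ⌊spf y (-u 0) (-u 1)⌋₊ R < R + 1 := Nat.lt_succ_of_le (min_le_right _ _)
  generalize min ⌊spf y (u 0) (u 1)⌋₊ R = a at *
  generalize min ⌊spf y (-u 0) (-u 1)⌋₊ R = b at *
  rcases Nat.eq_zero_or_pos a with a0 | a0 <;> rcases Nat.eq_zero_or_pos b with b0 | b0
  · exact ⟨(true, 2, 0, ⟨1, by omega⟩), le_rfl, trivial, by simp [rem, a0, b0]⟩
  · obtain ⟨j, hj⟩ := kb b0
    exact ⟨(true, 1, 0, ⟨b, hb⟩), b0, ⟨j, by simp only [if_true, inn]; linarith⟩,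
      by simp [rem, a0]⟩
  · obtain ⟨j, hj⟩ := ka a0
    exact ⟨(false, 1, 0, ⟨a, ha⟩), a0, ⟨j, by simpa [inn] using hj⟩, by simp [rem, b0]⟩
  · obtain ⟨i, hi⟩ := ka a0
    obtain ⟨j, hj⟩ := kb b0
    rcases lt_trichotomy i j with k | rfl | k
    · exact ⟨(true, 0, ⟨a, ha⟩, ⟨b, hb⟩), b0, ⟨i, j, k, by simpa [inn] using hi,
        by simp only [if_true, inn]; linarith⟩, by simp [rem]⟩
    · have : (0 : ℝ) < a := by exact_mod_cast a0
      have : (0 : ℝ) < b := by exact_mod_cast b0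
      linarith
    · exact ⟨(false, 0, ⟨b, hb⟩, ⟨a, ha⟩), a0, ⟨j, i, k, by simp [inn]; linarith,
        by simpa [inn] using hi⟩, by simp [rem, add_comm]⟩

theorem zono_tail {M : ℕ} (u : Fin M → E) {ρ η : ℝ} (hρ : 1 ≤ ρ) (hη : 0 < η) (hη1 : η < 1)
    (hu : ∀ i, ‖u i‖ ≤ 1) (hV : ∀ e : Fin M → ℝ, (∀ i, |e i| ≤ 1 / 2) → ‖∑ i, e i • u i‖ ≤ ρ) :
    ∃ C, ∀ n r, 1 ≤ r → (nu n).real {y | r ≤ ∑ i, (spf y (u i 0) (u i 1) +
      spf y (-u i 0) (-u i 1))} ≤ exp (-((1 - η) / ρ ^ 2 * r ^ 2 / 4) + C * r) := by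
  classical
  refine ⟨14 * M + 4 / η, fun n r hr => ?_⟩
  have h1 := sub_pos.2 hη1
  have k0 : (1 - η) / ρ ^ 2 ≤ 1 := (div_le_one (by positivity)).2 (by nlinarith)
  have k0' : 0 ≤ (1 - η) / ρ ^ 2 := by positivity
  have hM : (0 : ℝ) ≤ M := M.cast_nonneg
  have hη' : 0 < 4 / η := by positivity
  by_cases hrM : r ≤ 2 * M
  · refine measureReal_le_one.trans (one_le_exp ?_)
    nlinarith [mul_le_mul_of_nonneg_right k0 (sq_nonneg r)]
  push Not at hrM
  set R := ⌈r⌉₊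
  have hR : r ≤ R := Nat.le_ceil r
  have hR1 : 1 ≤ R := Nat.one_le_ceil_iff.2 (by linarith)
  have hR2 : (R : ℝ) ≤ r + 1 := (Nat.ceil_lt_add_one (by linarith)).le
  set l := (1 - η) / ρ ^ 2 * (r - 2 * M) / 2 with hl
  have hl0 : 0 ≤ l := by have := sub_pos.2 hrM; positivity
  let A : (Fin M → Bool × Fin 3 × Fin (R + 1) × Fin (R + 1)) → Set (Fin n → E) := fun T =>
    ⋂ i, ev (if (T i).1 then u i else -u i) (T i).2.2.1 (T i).2.2.2 (T i).2.1 n
  let S := Finset.univ.filter fun T : Fin M → Bool × Fin 3 × Fin (R + 1) × Fin (R + 1) =>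
    (∀ i, 1 ≤ ((T i).2.2.2 : ℕ)) ∧ r - 2 * M ≤ ∑ i, rem (T i).2.2.1 (T i).2.2.2 (T i).2.1
  have hsub : {y | r ≤ ∑ i, (spf y (u i 0) (u i 1) + spf y (-u i 0) (-u i 1))} ⊆
      ⋃ T ∈ S, A T := by
    intro y hy
    choose T t1 t2 t3 using fun i => ev_ex y (u i) hR1
    simp only [mem_iUnion, S, Finset.mem_filter, Finset.mem_univ, true_and]
    refine ⟨T, ⟨t1, ?_⟩, mem_iInter.2 t2⟩
    simp only [t3]
    by_cases hc : ∃ i, R ≤ ⌊spf y (u i 0) (u i 1)⌋₊ ∨ R ≤ ⌊spf y (-u i 0) (-u i 1)⌋₊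
    · obtain ⟨i, hi⟩ := hc
      refine le_trans ?_ (Finset.single_le_sum (fun i _ => by positivity) (Finset.mem_univ i))
      rcases hi with hi | hi <;> rw [min_eq_right hi]
      · linarith [(min ⌊spf y (-u i 0) (-u i 1)⌋₊ R).cast_nonneg (α := ℝ)]
      · linarith [(min ⌊spf y (u i 0) (u i 1)⌋₊ R).cast_nonneg (α := ℝ)]
    · push Not at hc
      have := Finset.sum_le_sum (s := Finset.univ) (f := fun i => spf y (u i 0) (u i 1) +
        spf y (-u i 0) (-u i 1)) (g := fun i => ((min ⌊spf y (u i 0) (u i 1)⌋₊ R : ℕ) : ℝ) +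
          (min ⌊spf y (-u i 0) (-u i 1)⌋₊ R : ℕ) + 2) fun i _ => by
        rw [min_eq_left (hc i).1.le, min_eq_left (hc i).2.le]
        linarith [Nat.lt_floor_add_one (spf y (u i 0) (u i 1)),
          Nat.lt_floor_add_one (spf y (-u i 0) (-u i 1))]
      rw [Finset.sum_add_distrib (g := fun _ => 2)] at this
      simp only [Finset.sum_const, Finset.card_univ, Fintype.card_fin, nsmul_eq_mul] at this
      linarith [show r ≤ _ from hy]
  have hA : ∀ T ∈ S, (nu n).real (A T) ≤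
      4 / η * exp (-((1 - η) / ρ ^ 2 * (r - 2 * M) ^ 2 / 4)) := by
    intro T hT
    obtain ⟨t1, t2⟩ := (Finset.mem_filter.1 hT).2
    have := hit_all (fun i => if (T i).1 then u i else -u i) (fun i => (T i).2.2.1)
      (fun i => (T i).2.2.2) (h := 1 / (n + 1)) (d := 1) (ρ := ρ) (by positivity) hη hη1 one_pos hl0
      (fun q => by
        convert hV (fun i => if (T i).1 then sgn (q i) else -sgn (q i)) fun i => ?_ using 3 with i
        · split_ifs <;> simp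
        · generalize q i = k
          split_ifs <;> fin_cases k <;> simp [sgn])
      (fun i y hy => by
        have k1 : (1 : ℝ) ≤ (T i).2.2.2 := by exact_mod_cast t1 i
        have k2 := neg_le_of_abs_le (abs_real_inner_le_norm (if (T i).1 then u i else -u i) y)
        have k3 : ‖if (T i).1 then u i else -u i‖ ≤ 1 := by split_ifs <;> simpa using hu i
        nlinarith [norm_nonneg y]) n (fun i => (T i).2.1) 0 (by
          by_contra k
          push Not at k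
          simp [k, rem] at t2
          linarith)
    refine ENNReal.toReal_le_of_le_ofReal (by positivity) ?_
    rw [nu, Measure.smul_apply, smul_eq_mul]
    refine (mul_le_mul_right this _).trans ?_
    rw [← ENNReal.ofReal_mul (by positivity), step_mul, ← mul_assoc]
    refine ENNReal.ofReal_le_ofReal (mul_le_mul (le_of_eq (by field_simp)) (exp_le_exp.2 ?_)
      (exp_pos _).le hη'.le)
    have k1 := mul_le_mul_of_nonneg_left t2 hl0
    have k2 : l ^ 2 * ρ ^ 2 / (1 - η) = l * (r - 2 * M) / 2 := by rw [hl]; field_simp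
    rw [inner_zero_right, k2]
    have k3 : (1 - η) / ρ ^ 2 * (r - 2 * M) ^ 2 / 4 = l * (r - 2 * M) / 2 := by rw [hl]; ring
    linarith
  have hcard : (S.card : ℝ) ≤ exp (M * (2 * r + 10)) := by
    have k1 : (S.card : ℝ) ≤ (6 * (R + 1) ^ 2) ^ M := by
      have := Finset.card_filter_le (Finset.univ : Finset (Fin M → Bool × Fin 3 × Fin (R + 1) ×
        Fin (R + 1))) fun T => (∀ i, 1 ≤ ((T i).2.2.2 : ℕ)) ∧
          r - 2 * M ≤ ∑ i, rem (T i).2.2.1 (T i).2.2.2 (T i).2.1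
      refine (Nat.cast_le.2 this).trans (le_of_eq ?_)
      simp only [Finset.card_univ, Fintype.card_fun, Fintype.card_prod, Fintype.card_bool,
        Fintype.card_fin]
      push_cast; ring
    rw [exp_nat_mul]
    refine k1.trans (pow_le_pow_left₀ (by positivity) ?_ _)
    rw [show 2 * r + 10 = 6 + 2 * (r + 2) by ring, exp_add, two_mul, exp_add, ← sq]
    gcongr
    · linarith [add_one_le_exp 6]
    · linarith [add_one_le_exp (r + 2)]
  calc _ ≤ ∑ T ∈ S, (nu n).real (A T) :=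
        (measureReal_mono hsub (measure_ne_top _ _)).trans (measureReal_biUnion_finset_le _ _)
    _ ≤ S.card • (4 / η * exp (-((1 - η) / ρ ^ 2 * (r - 2 * M) ^ 2 / 4))) :=
        Finset.sum_le_card_nsmul _ _ _ hA
    _ ≤ exp (M * (2 * r + 10)) * (exp (4 / η) *
        exp (-((1 - η) / ρ ^ 2 * (r - 2 * M) ^ 2 / 4))) := by
        rw [nsmul_eq_mul]
        gcongr
        linarith [add_one_le_exp (4 / η)]
    _ ≤ _ := by
        rw [← exp_add, ← exp_add]
        refine exp_le_exp.2 ?_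
        nlinarith [mul_le_mul_of_nonneg_right k0 (mul_nonneg hM (zero_le_one.trans hr)),
          mul_nonneg k0' (sq_nonneg (M : ℝ)), mul_le_mul_of_nonneg_left hr hM,
          mul_le_mul_of_nonneg_left hr hη'.le]

end Pool.Agent.Lib.MP_c1b9d3_an
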