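import Pool.Agent.Lib.MP_c1b9d3_an.BDef

namespace Pool.Agent.Lib.MP_c1b9d3_an

open MeasureTheory Real Filter Topology Set Pool.Agent.Lib.MP_2d4879_an
open scoped ENNReal

/-- Duration of a loop with `n + 1` steps of length `h`. -/
noncomputable def tm (h : ℝ) (n : ℕ) : ℝ := (n + 1) * h

noncomputable def Lt (h x y z : ℝ) (n : ℕ) : ℝ :=
  exp (-tm h n) / (n + 1) * ((4 * π * tm h n)⁻¹ * En n (th x y z √(tm h n)))

noncomputable def Lh (h x y z : ℝ) : ℝ := ∑' n, Lt h x y z n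

noncomputable def hk (k : ℕ) : ℝ := 1 / (k + 1)

/-- The side term in the resolvent ensemble. -/
noncomputable def Lap (x y z : ℝ) : ℝ := limUnder (hyperfilter ℕ) fun k => Lh (hk k) x y z

noncomputable def lw (Q : E → E → ℝ≥0∞) {n : ℕ} (x : Fin (n + 1) → E) : ℝ≥0∞ :=
  ∏ e, Q (x e) (x (finRotate _ e))

noncomputable def LI (Q : E → E → ℝ≥0∞) (A B : Set E) (n : ℕ) : ℝ≥0∞ :=
  ∫⁻ x : Fin (n + 1) → E, lw Q x * (ev3 univ A B).indicator 1 x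

noncomputable def LL (Q : E → E → ℝ≥0∞) (A B : Set E) : ℝ≥0∞ :=
  ∑' n : ℕ, ((n : ℝ≥0∞) + 1)⁻¹ * LI Q A B n

noncomputable def Pn (Q : E → E → ℝ≥0∞) (B : Set E) : ℕ → E → E → ℝ≥0∞
  | 0 => Q
  | n + 1 => fun a b => ∫⁻ y in Bᶜ, Q a y * Pn Q B n y b

noncomputable def PP (Q : E → E → ℝ≥0∞) (B : Set E) (a b : E) : ℝ≥0∞ := ∑' n, Pn Q B n a b

noncomputable def TG (Q : E → E → ℝ≥0∞) (A B : Set E) : ℝ≥0∞ :=
  ∫⁻ a in A, ∫⁻ v in B, PP Q B a v * PP Q A v a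

noncomputable def p1 (t x : ℝ) : ℝ := (√(4 * π * t))⁻¹ * exp (-x ^ 2 / (4 * t))

def bar (u : E) : E := !₂[u 0, -u 1]

noncomputable def qk (h : ℝ) (u v : E) : ℝ := pk h (u - v) - pk h (u - bar v)

def Hh : Set E := {p | p 1 < 0}

noncomputable def GG (h : ℝ) (a u : E) : ℝ := ∑' n : ℕ, exp (-tm h n) * qk (tm h n) a u

noncomputable def et (ξ : ℂ) : ℂ := ξ * (2 + ξ ^ 2) ^ (2⁻¹ : ℂ)

noncomputable def et' (ξ : ℂ) : ℂ := (2 + 2 * ξ ^ 2) / (2 + ξ ^ 2) ^ (2⁻¹ : ℂ)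

noncomputable def lam (h : ℝ) (θ : ℤ × ℝ) : ℂ :=
  ((1 + (θ.2 : ℂ) ^ 2) ^ 2 + 2 * π * Complex.I * θ.1 / h) ^ (2⁻¹ : ℂ)

noncomputable def cw (h : ℝ) (θ : ℤ × ℝ) : ℂ := et' θ.2 / (2 * π * lam h θ)

noncomputable def mT : Measure (ℤ × ℝ) := Measure.count.prod volume

noncomputable def md (l e : ℂ) (c : ℝ) (u : E) : ℂ :=
  Complex.exp (-(l * (|u 0 - c| : ℝ))) * Complex.sin (e * u 1)

structure Md (h : ℝ) (l e : ℂ) : Prop where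
  re : 1 / 2 ≤ l.re
  im : |e.im| ≤ 47 / 50
  sq : ∃ j : ℤ, l ^ 2 = 1 + e ^ 2 + 2 * π * Complex.I * j / h

end Pool.Agent.Lib.MP_c1b9d3_an
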