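import Pool.Agent.Lib.MP_c1b9d3_an.QG3

namespace Pool.Agent.Lib.MP_c1b9d3_an

open MeasureTheory Real Filter Topology Set Pool.Agent.Lib.MP_2d4879_an Asymptotics
open Complex (I)
open scoped ENNReal FourierTransform

variable {h t : ℝ}

lemma p1_sin (ht : 0 < t) (α β : ℝ) : ((p1 t (α - β) - p1 t (α + β) : ℝ) : ℂ) =
    ∫ η : ℝ, (π : ℂ)⁻¹ * (Complex.exp (-η ^ 2 * t) * (Complex.sin (η * α) * Complex.sin (η * β))) := by
  have i : ∀ x : ℝ, Integrable fun w : ℝ => Complex.exp (-w ^ 2 * t) * Complex.exp (w * x * I) := fun x =>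
    (integrable_cexp_quadratic (b := t) (by simpa using ht) (x * I) 0).congr (.of_forall fun w => by
      simp only [← Complex.exp_add]
      congr 1
      ring)
  have e : ∀ x : ℝ, ∫ w : ℝ, Complex.exp (-w ^ 2 * t) * Complex.exp (w * x * I) = 2 * π * p1 t x := fun x => by
    simpa using p1_four ht one_pos x
  have q : ∀ η : ℝ, Complex.exp (-η ^ 2 * t) * (Complex.sin (η * α) * Complex.sin (η * β)) = 4⁻¹ *
      (Complex.exp (-η ^ 2 * t) * Complex.exp (η * (α - β : ℝ) * I) + Complex.exp (-η ^ 2 * t) * Complex.exp (η * (-(α - β) : ℝ) * I) -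
      (Complex.exp (-η ^ 2 * t) * Complex.exp (η * (α + β : ℝ) * I) +
        Complex.exp (-η ^ 2 * t) * Complex.exp (η * (-(α + β) : ℝ) * I))) := fun η => by
    simp only [Complex.exp_mul_I]
    push_cast
    simp only [mul_neg, Complex.cos_neg, Complex.sin_neg, mul_sub, mul_add, Complex.cos_sub,
      Complex.cos_add]
    ring
  have p0 : (π : ℂ) ≠ 0 := Complex.ofReal_ne_zero.2 pi_ne_zero
  simp only [q]
  have i2 : ∀ x y : ℝ, Integrable fun w : ℝ => Complex.exp (-w ^ 2 * t) * Complex.exp (w * x * I) +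
    Complex.exp (-w ^ 2 * t) * Complex.exp (w * y * I) := fun x y => (i x).add (i y)
  rw [integral_const_mul, integral_const_mul, integral_sub (i2 _ _) (i2 _ _),
    integral_add (i _) (i _), integral_add (i _) (i _), e, e, e, e, p1_neg, p1_neg]
  push_cast
  field_simp
  ring

lemma subst_et (g : ℝ → ℂ) : ∫ η, g η = ∫ ξ : ℝ, et' ξ * g (ξ * √(2 + ξ ^ 2)) := by
  have d : ∀ ξ : ℝ, HasDerivAt (fun ξ : ℝ => ξ * √(2 + ξ ^ 2)) ((2 + 2 * ξ ^ 2) / √(2 + ξ ^ 2)) ξ :=
    fun ξ => by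
      have s := sq_sqrt (show 0 ≤ 2 + ξ ^ 2 by positivity)
      refine ((hasDerivAt_id ξ).mul (((hasDerivAt_pow 2 ξ).const_add 2).sqrt
        (by positivity))).congr_deriv ?_
      simp only [id, Nat.cast_ofNat, Nat.add_one_sub_one, pow_one]
      field_simp
      linarith
  have o : ∀ ξ : ℝ, 1 ≤ √(2 + ξ ^ 2) := fun ξ => le_sqrt_of_sq_le (by linarith [sq_nonneg ξ])
  have s : Function.Surjective fun ξ : ℝ => ξ * √(2 + ξ ^ 2) := Continuous.surjective (by fun_prop)
    (tendsto_atTop_mono' _ ((eventually_ge_atTop 0).mono fun ξ e =>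
      le_mul_of_one_le_right e (o ξ)) tendsto_id)
    (tendsto_atBot_mono' _ ((eventually_le_atBot 0).mono fun ξ e =>
      (mul_le_mul_of_nonpos_left (o ξ) e).trans_eq (mul_one ξ)) tendsto_id)
  have := integral_image_eq_integral_abs_deriv_smul MeasurableSet.univ
    (fun ξ _ => (d ξ).hasDerivWithinAt)
    (strictMono_of_hasDerivAt_pos d fun ξ => by positivity).injective.injOn g
  rw [image_univ, s.range_eq, Measure.restrict_univ] at this
  rw [this]
  refine integral_congr_ae (.of_forall fun ξ => ?_)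
  dsimp only
  rw [et'_real, abs_of_pos (by positivity), Complex.real_smul]

lemma p1_zero {s : ℝ} (hs : s ≤ 0) (x : ℝ) : p1 s x = 0 := by
  rw [p1, sqrt_eq_zero_of_nonpos (mul_nonpos_of_nonneg_of_nonpos (by positivity) hs), inv_zero,
    zero_mul]

lemma p1_cont {x : ℝ} (hx : x ≠ 0) : Continuous fun s => p1 s x := by
  have c := expNegInvGlue.continuous_polynomial_eval_inv_mul Polynomial.X
  simp only [Polynomial.eval_X] at c
  refine (((show Continuous fun s : ℝ => √(4 * π * s) * (π * x ^ 2)⁻¹ by fun_prop)).mul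
    (c.comp (show Continuous fun s : ℝ => 4 * s / x ^ 2 by fun_prop))).congr fun s => ?_
  rcases le_or_gt s 0 with e | e
  · simp [p1_zero e, sqrt_eq_zero_of_nonpos (mul_nonpos_of_nonneg_of_nonpos
      (show 0 ≤ 4 * π by positivity) e)]
  · have s2 := sq_sqrt (show 0 ≤ 4 * π * s by positivity)
    simp only [Pi.mul_apply, Function.comp, expNegInvGlue, p1,
      if_neg (show 0 < 4 * s / x ^ 2 by positivity).not_ge, inv_div, neg_div, ← mul_assoc]
    congr 1
    field_simp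
    linarith

lemma poisson (hh : 0 < h) (hh1 : h ≤ 1) {x : ℝ} (hx : 1 / 2 ≤ |x|) (ξ : ℝ) :
    ∑' n : ℕ, ((h * (exp (-((1 + ξ ^ 2) ^ 2 * tm h n)) * p1 (tm h n) x) : ℝ) : ℂ) =
      ∑' j : ℤ, (2 * lam h (j, ξ))⁻¹ * Complex.exp (-(lam h (j, ξ) * (|x| : ℝ))) := by
  set μ := (1 + ξ ^ 2) ^ 2 with hμ
  have μ0 : 0 < μ := by positivity
  have h0 : (h : ℂ) ≠ 0 := Complex.ofReal_ne_zero.2 hh.ne'
  set F : ℝ → ℂ := fun t => (h * (exp (-(μ * (t * h))) * p1 (t * h) x) : ℝ) with hF
  have F0 : ∀ t ≤ 0, F t = 0 := fun t ht => by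
    simp only [hF, p1_zero (mul_nonpos_of_nonpos_of_nonneg ht hh.le), mul_zero, Complex.ofReal_zero]
  have c : Continuous F := Complex.continuous_ofReal.comp (continuous_const.mul
    (.mul (by fun_prop) ((p1_cont (abs_pos.1 (by linarith))).comp (by fun_prop))))
  have o : F =O[cocompact ℝ] fun t => |t| ^ (-2 : ℝ) := by
    rw [cocompact_eq_atBot_atTop]
    refine IsBigO.sup ((isBigO_zero _ _).congr' ((eventually_le_atBot 0).mono fun t ht =>
      (F0 t ht).symm) .rfl) (((IsBigO.of_bound (h * (√(4 * π * h))⁻¹) ?_).trans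
        (isLittleO_exp_neg_mul_rpow_atTop (mul_pos μ0 hh) (-2)).isBigO).congr' .rfl
          ((eventually_ge_atTop 0).mono fun t ht => by simp only [abs_of_nonneg ht]))
    filter_upwards [eventually_ge_atTop 1] with t ht
    rw [hF, Complex.norm_real, Real.norm_of_nonneg (exp_pos _).le, Real.norm_of_nonneg
      (mul_nonneg hh.le (mul_nonneg (exp_pos _).le (p1_nonneg _ _))), mul_assoc, mul_comm (exp _),
      show -(μ * (t * h)) = -(μ * h) * t by ring]
    gcongr
    exact p1_le hh (le_mul_of_one_le_left hh.le ht) x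
  have l0 : ∀ j : ℤ, 1 ≤ (lam h (j, ξ)).re := fun j =>
    (le_add_of_nonneg_right (sq_nonneg ξ)).trans (lam_re hh (j, ξ)).1
  have f : ∀ j : ℤ, 𝓕 F j = (2 * lam h (j, ξ))⁻¹ * Complex.exp (-(lam h (j, ξ) * (|x| : ℝ))) := fun j => by
    have l1 := one_pos.trans_le (l0 j)
    have l2 : lam h (j, ξ) ≠ 0 := fun e => by simp [e] at l1
    rw [← laplace l1 (by rw [lam_sq, ← hμ]; simpa using μ0), inv_mul_cancel_left₀
      (mul_ne_zero two_ne_zero l2), setIntegral_eq_integral_of_forall_compl_eq_zero fun t ht => by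
        rw [p1_zero (not_lt.1 ht), Complex.ofReal_zero, mul_zero], fourier_real_eq_integral_exp_smul]
    have := Measure.integral_comp_mul_right
      (fun t : ℝ => Complex.exp (-(lam h (j, ξ) ^ 2 * t)) * p1 t x) h
    rw [abs_of_pos (inv_pos.2 hh), eq_comm, inv_smul_eq_iff₀ hh.ne'] at this
    rw [this, ← integral_smul]
    refine integral_congr_ae (.of_forall fun t => ?_)
    simp only [hF, smul_eq_mul, Complex.real_smul, Complex.ofReal_mul h, Complex.ofReal_mul (exp _),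
      Complex.ofReal_exp]
    rw [mul_left_comm, ← mul_assoc (Complex.exp _), ← Complex.exp_add, lam_sq, ← hμ]
    congr 3
    push_cast
    field_simp
    ring
  have b : ∀ j : ℤ, ‖𝓕 F j‖ ≤ 6144 * (exp (-|x|) + h) * (wj j * exp (-(4⁻¹ * ξ ^ 2))) := fun j => by
    rw [f, norm_mul, Complex.norm_exp, Complex.neg_re, Complex.re_mul_ofReal, mul_comm _ |x|]
    refine (mul_le_of_le_one_left (exp_pos _).le ?_).trans (ex_le ⟨hh, hh1⟩ hx (j, ξ))
    rw [norm_inv, norm_mul, Complex.norm_two]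
    exact inv_le_one_of_one_le₀ (by linarith [l0 j, Complex.re_le_norm (lam h (j, ξ))])
  have := tsum_eq_tsum_fourier_of_rpow_decay_of_summable c one_lt_two o (.of_norm_bounded
    ((wj_sum.mul_right _).mul_left _) b) 1
  simp only [AddCircle.coe_period, fourier_eval_zero, mul_one, f] at this
  rw [← this, ← Nat.cast_injective.tsum_eq (f := fun n : ℤ => F (1 + n)) fun n hn => ?_]
  · simp only [hF, tm, Int.cast_natCast, add_comm]
  · refine ⟨n.toNat, Int.toNat_of_nonneg (by_contra fun e => hn (F0 _ ?_))⟩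
    exact_mod_cast (by omega : 1 + n ≤ 0)

lemma sin_et (ξ x : ℝ) : ‖Complex.sin (et ξ * x)‖ ≤ 1 :=
  (norm_sin_le _).trans_eq (by simp [et_im])

theorem GG_modes (hh : 0 < h) (hh1 : h ≤ 1) {a u : E} (hau : 1 / 2 ≤ |u 0 - a 0|) :
    ((h * GG h a u : ℝ) : ℂ) = ∫ θ, cw h θ * (Complex.sin (et θ.2 * a 1) *
      Complex.sin (et θ.2 * u 1) * Complex.exp (-(lam h θ * (|u 0 - a 0| : ℝ)))) ∂mT := by
  set S : ℝ → ℂ := fun ξ => et' ξ * (π : ℂ)⁻¹ * (Complex.sin (et ξ * a 1) * Complex.sin (et ξ * u 1))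
    with hS
  have c1 := cont_et
  have c2 := cont_et'
  have c3 := meas_lam h
  have s1 : ∀ ξ : ℝ, ‖Complex.sin (et ξ * a 1) * Complex.sin (et ξ * u 1)‖ ≤ 1 := fun ξ =>
    (norm_mul_le_of_le (sin_et _ _) (sin_et _ _)).trans_eq (mul_one _)
  have p1' : ‖(π : ℂ)⁻¹‖ ≤ 1 := by
    rw [norm_inv, Complex.norm_real, Real.norm_of_nonneg pi_pos.le]
    exact inv_le_one_of_one_le₀ (by linarith [pi_gt_three])
  have s2 : ∀ ξ, ‖S ξ‖ ≤ ‖et' ξ‖ := fun ξ =>
    (norm_mul_le_of_le (norm_mul_le_of_le le_rfl p1') (s1 ξ)).trans_eq (by ring)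
  have i : Integrable (fun θ : ℤ × ℝ => S θ.2 * ((2 * lam h θ)⁻¹ *
      Complex.exp (-(lam h θ * (|u 0 - a 0| : ℝ))))) mT := by
    refine (dm_int.const_mul _).mono' (Measurable.aestronglyMeasurable (by fun_prop))
      (.of_forall fun θ => (norm_mul_le_of_le (s2 _) ?_).trans
        (dm_le (exp_pos _).le (ex_le ⟨hh, hh1⟩ hau θ)))
    rw [norm_mul, Complex.norm_exp, Complex.neg_re, Complex.re_mul_ofReal, mul_comm _ |_|]
    refine mul_le_of_le_one_left (exp_pos _).le ?_
    rw [norm_inv, norm_mul, Complex.norm_two]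
    exact inv_le_one_of_one_le₀ (by
      linarith [(lam_re hh θ).1, sq_nonneg θ.2, Complex.re_le_norm (lam h θ)])
  set G : ℕ → ℝ → ℂ := fun n ξ => S ξ *
    (h * (exp (-((1 + ξ ^ 2) ^ 2 * tm h n)) * p1 (tm h n) (u 0 - a 0)) : ℝ) with hG
  have b : ∀ n ξ, ‖G n ξ‖ ≤ h * (√(4 * π * h))⁻¹ * exp (-h) ^ n *
      (4 * (1 + ‖ξ‖) * exp (-(h * ξ ^ 2))) := fun n ξ => by
    have e : exp (-((1 + ξ ^ 2) ^ 2 * tm h n)) ≤ exp (-h) ^ n * exp (-(h * ξ ^ 2)) := by
      rw [← exp_nat_mul, ← exp_add, tm]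
      have := mul_nonneg (n.cast_nonneg (α := ℝ)) hh.le
      have := mul_nonneg hh.le (sq_nonneg ξ)
      have : 1 + ξ ^ 2 ≤ (1 + ξ ^ 2) ^ 2 := le_self_pow₀ (by linarith [sq_nonneg ξ]) two_ne_zero
      exact exp_le_exp.2 (by nlinarith [sq_nonneg ξ])
    refine (norm_mul_le_of_le ((s2 ξ).trans ((et'_le _ (.inr (Complex.ofReal_im _))).trans_eq
      (by rw [Complex.norm_real]))) ((Complex.norm_of_nonneg (mul_nonneg hh.le (mul_nonneg
        (exp_pos _).le (p1_nonneg _ _)))).trans_le (mul_le_mul_of_nonneg_left (mul_le_mul e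
          (p1_le hh (tm_ge hh n) _) (p1_nonneg _ _) (by positivity)) hh.le))).trans_eq (by ring)
  have j : ∀ n, Integrable (G n) := fun n => ((int_phi hh).const_mul _).mono'
    (Continuous.aestronglyMeasurable (by fun_prop)) (.of_forall (b n))
  calc _ = ∑' n, ∫ ξ, G n ξ := ?_
    _ = ∫ ξ, ∑' n, G n ξ := integral_tsum_of_summable_integral_norm j (.of_nonneg_of_le
        (fun n => integral_nonneg fun _ => norm_nonneg _) (fun n => (integral_mono (j n).norm
          ((int_phi hh).const_mul _) (b n)).trans_eq (integral_const_mul _ _))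
            ((geo hh _).mul_right _))
    _ = ∫ θ, S θ.2 * ((2 * lam h θ)⁻¹ * Complex.exp (-(lam h θ * (|u 0 - a 0| : ℝ)))) ∂mT := ?_
    _ = _ := integral_congr_ae (.of_forall fun θ => by simp only [hS, cw]; ring)
  · rw [GG, ← tsum_mul_left, Complex.ofReal_tsum]
    refine tsum_congr fun n => ?_
    have t0 := hh.trans_le (tm_ge hh n)
    have e : h * (exp (-tm h n) * qk (tm h n) a u) = h * exp (-tm h n) * p1 (tm h n) (u 0 - a 0) *
        (p1 (tm h n) (a 1 - u 1) - p1 (tm h n) (a 1 + u 1)) := by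
      rw [qk, pk_eq t0, pk_eq t0, ← p1_neg _ (u 0 - a 0), neg_sub]
      simp only [bar, PiLp.sub_apply, Matrix.cons_val_zero, Matrix.cons_val_one, sub_neg_eq_add]
      ring
    rw [e, Complex.ofReal_mul, p1_sin t0, subst_et, ← integral_const_mul]
    refine integral_congr_ae (.of_forall fun ξ => ?_)
    have q : Complex.exp (-((1 + ξ ^ 2) ^ 2 * tm h n)) = Complex.exp (-tm h n) * Complex.exp (-et ξ ^ 2 * tm h n) := by
      rw [← Complex.exp_add, et_sq]
      congr 1
      ring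
    simp only [hG, hS, ← et_real]
    push_cast
    rw [q]
    ring
  · rw [mT, integral_prod_symm _ i]
    refine integral_congr_ae (i.prod_left_ae.mono fun ξ e => ?_)
    simp only [hG]
    rw [integral_countable e, tsum_mul_left, poisson hh hh1 hau, ← tsum_mul_left]
    simp

end Pool.Agent.Lib.MP_c1b9d3_an
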