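import Pool.Agent.Lib.MP_c1b9d3_an.QDef

namespace Pool.Agent.Lib.MP_c1b9d3_an

open MeasureTheory Real Filter Topology Set Pool.Agent.Lib.MP_2d4879_an
open scoped ENNReal

variable {h : ℝ}

lemma et_sq (ξ : ℂ) : et ξ ^ 2 = ξ ^ 2 * (2 + ξ ^ 2) := by
  rw [et, mul_pow, Complex.cpow_ofNat_inv_pow]

lemma sqrt_cx (ξ : ℝ) : (2 + (ξ : ℂ) ^ 2) ^ (2⁻¹ : ℂ) = (√(2 + ξ ^ 2) : ℝ) := by
  rw [sqrt_eq_rpow, Complex.ofReal_cpow (by positivity)]
  push_cast
  rw [one_div]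

lemma et_real (ξ : ℝ) : et ξ = (ξ * √(2 + ξ ^ 2) : ℝ) := by
  rw [et, sqrt_cx, Complex.ofReal_mul]

lemma et'_real (ξ : ℝ) : et' ξ = ((2 + 2 * ξ ^ 2) / √(2 + ξ ^ 2) : ℝ) := by
  rw [et', sqrt_cx]
  push_cast
  rfl

lemma et_im (ξ : ℝ) : (et ξ).im = 0 := by rw [et_real, Complex.ofReal_im]

lemma lam_sq (h : ℝ) (θ : ℤ × ℝ) :
    lam h θ ^ 2 = (((1 + θ.2 ^ 2) ^ 2 : ℝ) : ℂ) + (2 * π * θ.1 / h : ℝ) * Complex.I := by
  rw [lam, Complex.cpow_ofNat_inv_pow]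
  push_cast
  ring

lemma lam_re (hh : 0 < h) (θ : ℤ × ℝ) :
    1 + θ.2 ^ 2 ≤ (lam h θ).re ∧ √(π * |(θ.1 : ℝ)| / h) ≤ (lam h θ).re := by
  have e := lam_sq h θ
  rw [lam, Complex.cpow_ofNat_inv_pow] at e
  rw [lam, Complex.cpow_inv_two_re, e]
  set z := (((1 + θ.2 ^ 2) ^ 2 : ℝ) : ℂ) + (2 * π * θ.1 / h : ℝ) * Complex.I
  have e1 : z.re = (1 + θ.2 ^ 2) ^ 2 := by simp only [z, Complex.add_re, Complex.ofReal_re,
    Complex.mul_re, Complex.I_re, Complex.ofReal_im, mul_zero, zero_mul, sub_zero, add_zero]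
  have e2 : z.im = 2 * π * θ.1 / h := by simp only [z, Complex.add_im, Complex.ofReal_re,
    Complex.mul_im, Complex.I_im, Complex.ofReal_im, mul_one, zero_mul, add_zero, zero_add]
  have e3 := Complex.re_le_norm z
  have e4 := Complex.abs_im_le_norm z
  rw [e2, abs_div, abs_mul, abs_of_pos two_pi_pos, abs_of_pos hh, mul_assoc, mul_div_assoc] at e4
  exact ⟨le_sqrt_of_sq_le (by linarith), sqrt_le_sqrt (by linarith [sq_nonneg (1 + θ.2 ^ 2)])⟩

lemma md_lam (hh : 0 < h) (θ : ℤ × ℝ) : Md h (lam h θ) (et θ.2) :=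
  ⟨by linarith [(lam_re hh θ).1, sq_nonneg θ.2], by rw [et_im]; norm_num,
    θ.1, by rw [lam, Complex.cpow_ofNat_inv_pow, et_sq]; ring⟩

lemma re_sq_ge (ξ : ℂ) : -‖ξ‖ ^ 2 ≤ (ξ ^ 2).re :=
  (abs_le.1 ((Complex.abs_re_le_norm _).trans_eq (norm_pow _ _))).1

lemma md_ball {ξ : ℂ} (hξ : ‖ξ‖ < 3 / 5) : Md h (1 + ξ ^ 2) (et ξ) := by
  have h1 : ‖ξ‖ ^ 2 ≤ (3 / 5) ^ 2 := by gcongr
  refine ⟨?_, (Complex.abs_im_le_norm _).trans (abs_le_of_sq_le_sq' ?_ (by norm_num)).2, 0,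
    by rw [et_sq]; push_cast; ring⟩
  · rw [Complex.add_re, Complex.one_re]
    linarith [re_sq_ge ξ]
  · have h2 : ‖2 + ξ ^ 2‖ ≤ 2 + ‖ξ‖ ^ 2 := (norm_add_le _ _).trans_eq (by simp)
    rw [← norm_pow, et_sq, norm_mul, norm_pow]
    nlinarith [sq_nonneg ‖ξ‖]

lemma lam_zero (h ξ : ℝ) : lam h (0, ξ) = 1 + (ξ : ℂ) ^ 2 := by
  simp only [lam, Int.cast_zero, mul_zero, zero_div, add_zero]
  refine Complex.sq_cpow_two_inv ?_
  rw [← Complex.ofReal_pow, Complex.add_re, Complex.ofReal_re, Complex.one_re]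
  positivity

lemma re_two {ξ : ℂ} (hξ : ‖ξ‖ < 1) : 1 ≤ (2 + ξ ^ 2).re := by
  have : ‖ξ‖ ^ 2 ≤ 1 ^ 2 := by gcongr
  rw [Complex.add_re, Complex.re_ofNat]
  linarith [re_sq_ge ξ]

lemma sq_diff : DifferentiableOn ℂ (fun ξ : ℂ => (2 + ξ ^ 2) ^ (2⁻¹ : ℂ)) (Metric.ball 0 1) :=
  DifferentiableOn.cpow_const (by fun_prop) fun _ e =>
    .inl (one_pos.trans_le (re_two (mem_ball_zero_iff.1 e)))

lemma one_le_sq {ξ : ℂ} (hξ : ‖ξ‖ < 1) : 1 ≤ ‖(2 + ξ ^ 2) ^ (2⁻¹ : ℂ)‖ := by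
  refine (abs_le_of_sq_le_sq' ?_ (norm_nonneg _)).2
  rw [← norm_pow, Complex.cpow_ofNat_inv_pow, one_pow]
  exact (re_two hξ).trans (Complex.re_le_norm _)

lemma et_diff : DifferentiableOn ℂ et (Metric.ball 0 1) := differentiableOn_id.mul sq_diff

lemma et'_diff : DifferentiableOn ℂ et' (Metric.ball 0 1) :=
  DifferentiableOn.div (by fun_prop) sq_diff fun _ e =>
    norm_pos_iff.1 (one_pos.trans_le (one_le_sq (mem_ball_zero_iff.1 e)))

lemma et'_le (ξ : ℂ) (hξ : ‖ξ‖ < 1 ∨ ξ.im = 0) : ‖et' ξ‖ ≤ 4 * (1 + ‖ξ‖) := by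
  rcases hξ with e | e
  · have h1 : ‖ξ‖ ^ 2 ≤ 1 ^ 2 := by gcongr
    have h2 : ‖2 + 2 * ξ ^ 2‖ ≤ 2 + 2 * ‖ξ‖ ^ 2 := (norm_add_le _ _).trans_eq (by simp)
    rw [et', norm_div]
    exact (div_le_self (norm_nonneg _) (one_le_sq e)).trans (by linarith [norm_nonneg ξ])
  · lift ξ to ℝ using e
    have h1 : 1 ≤ √(2 + ξ ^ 2) := le_sqrt_of_sq_le (by linarith [sq_nonneg ξ])
    have h2 : |ξ| ≤ √(2 + ξ ^ 2) := abs_le_sqrt (by linarith)
    rw [et'_real, Complex.norm_real, Complex.norm_real, Real.norm_of_nonneg (by positivity),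
      div_le_iff₀ (by positivity), Real.norm_eq_abs, ← sq_abs ξ]
    rw [← sq_abs ξ] at h1 h2
    nlinarith [abs_nonneg ξ]

lemma cont_et : Continuous fun ξ : ℝ => et ξ := by
  simp only [et_real]
  fun_prop

lemma cont_et' : Continuous fun ξ : ℝ => et' ξ := by
  simp only [et'_real]
  exact Complex.continuous_ofReal.comp (Continuous.div (by fun_prop) (by fun_prop) fun _ => by
    positivity)

lemma meas_lam (h : ℝ) : Measurable (lam h) := by
  have : Measurable fun θ : ℤ × ℝ => (θ.1 : ℂ) := Measurable.of_discrete.comp measurable_fst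
  unfold lam
  fun_prop

/-- weight in the frequency -/
noncomputable def wj (j : ℤ) : ℝ := 1 / (j : ℝ) ^ 2 + if j = 0 then 1 else 0

lemma wj_nonneg (j : ℤ) : 0 ≤ wj j := by unfold wj; positivity

lemma wj_sum : Summable wj := (summable_one_div_int_pow.2 one_lt_two).add (hasSum_ite_eq 0 1).summable

lemma ex_ne (hh : h ∈ Ioc (0 : ℝ) 1) {z : ℝ} (hz : 1 / 2 ≤ z) {θ : ℤ × ℝ} (e : θ.1 ≠ 0) :
    exp (-(z * (lam h θ).re)) ≤ 6144 * h * (wj θ.1 * exp (-(4⁻¹ * θ.2 ^ 2))) := by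
  obtain ⟨h1, h2⟩ := lam_re hh.1 θ
  have h0 := hh.1
  have j0 : (0 : ℝ) < |(θ.1 : ℝ)| := abs_pos.2 (Int.cast_ne_zero.2 e)
  set t := √(π * |(θ.1 : ℝ)| / h)
  have t0 : 0 < t := by positivity
  have t2 : t ^ 2 = π * |(θ.1 : ℝ)| / h := sq_sqrt (by positivity)
  have h3 : exp (-(z * (lam h θ).re)) ≤ exp (-(t / 4)) * exp (-(4⁻¹ * θ.2 ^ 2)) := by
    rw [← exp_add]
    exact exp_le_exp.2 (by nlinarith)
  have h4 := pow_div_factorial_le_exp (t / 4) (by positivity) 4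
  rw [← mul_assoc]
  refine h3.trans (mul_le_mul_of_nonneg_right ?_ (exp_pos _).le)
  rw [exp_neg, wj, if_neg e, add_zero]
  refine (inv_anti₀ (by positivity) h4).trans ?_
  rw [show (t / 4) ^ 4 = (t ^ 2) ^ 2 / 256 by ring, t2, ← sq_abs (θ.1 : ℝ),
    show ((Nat.factorial 4 : ℕ) : ℝ) = 24 by norm_num [Nat.factorial]]
  generalize |(θ.1 : ℝ)| = J at j0
  field_simp
  nlinarith [pi_gt_three, hh.2]

lemma ex_le (hh : h ∈ Ioc (0 : ℝ) 1) {z : ℝ} (hz : 1 / 2 ≤ z) (θ : ℤ × ℝ) :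
    exp (-(z * (lam h θ).re)) ≤ 6144 * (exp (-z) + h) * (wj θ.1 * exp (-(4⁻¹ * θ.2 ^ 2))) := by
  have := wj_nonneg θ.1
  have h0 := hh.1
  by_cases e : θ.1 = 0
  · have h3 : exp (-(z * (lam h θ).re)) ≤ exp (-z) * exp (-(4⁻¹ * θ.2 ^ 2)) := by
      rw [← exp_add]
      exact exp_le_exp.2 (by nlinarith [(lam_re hh.1 θ).1, sq_nonneg θ.2])
    rw [wj, e, if_pos rfl, Int.cast_zero, zero_pow two_ne_zero, div_zero, zero_add, one_mul]
    exact h3.trans (mul_le_mul_of_nonneg_right (by linarith [exp_pos (-z)]) (exp_pos _).le)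
  · exact (ex_ne hh hz e).trans (mul_le_mul_of_nonneg_right (by linarith [exp_pos (-z)])
      (by positivity))

lemma int_phi {b : ℝ} (hb : 0 < b) : Integrable fun ξ : ℝ => 4 * (1 + ‖ξ‖) * exp (-(b * ξ ^ 2)) := by
  refine (((integrable_exp_neg_mul_sq hb).add (integrable_mul_exp_neg_mul_sq hb).norm).const_mul
    4).congr (.of_forall fun ξ => ?_)
  simp only [Pi.add_apply, norm_mul, Real.norm_of_nonneg (exp_pos _).le, neg_mul]
  ring

/-- the dominating function -/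
noncomputable def dm (θ : ℤ × ℝ) : ℝ := wj θ.1 * (4 * (1 + ‖θ.2‖) * exp (-(4⁻¹ * θ.2 ^ 2)))

lemma dm_nonneg (θ : ℤ × ℝ) : 0 ≤ dm θ := mul_nonneg (wj_nonneg _) (by positivity)

lemma dm_int : Integrable dm mT :=
  (integrable_count_iff.2 wj_sum.norm).mul_prod (int_phi (by norm_num))

lemma dm_le {θ : ℤ × ℝ} {x c : ℝ} (hx : 0 ≤ x) (e : x ≤ c * (wj θ.1 * exp (-(4⁻¹ * θ.2 ^ 2)))) :
    ‖et' θ.2‖ * x ≤ c * dm θ :=
  (mul_le_mul ((et'_le _ (.inr (Complex.ofReal_im _))).trans_eq (by rw [Complex.norm_real])) e hx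
    (by positivity)).trans_eq (by rw [dm]; ring)

lemma wt_bd : ∃ C : ℝ, 0 ≤ C ∧ ∀ h ∈ Ioc (0 : ℝ) 1, ∀ z : ℝ, 1 / 2 ≤ z →
    ∫⁻ θ in {θ : ℤ × ℝ | θ.1 ≠ 0}, ‖et' θ.2‖ₑ * ENNReal.ofReal (exp (-(z * (lam h θ).re))) ∂mT ≤
      ENNReal.ofReal (C * h) ∧
    ∫⁻ θ, ‖et' θ.2‖ₑ * ENNReal.ofReal (exp (-(z * (lam h θ).re))) ∂mT ≤
      ENNReal.ofReal (C * (exp (-z) + h)) := by
  have k : ∀ c, 0 ≤ c → ∫⁻ θ, ENNReal.ofReal (6144 * c * dm θ) ∂mT =
      ENNReal.ofReal (6144 * (∫ θ, dm θ ∂mT) * c) := fun c c0 => by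
    rw [← ofReal_integral_eq_lintegral_ofReal (dm_int.const_mul _) (.of_forall fun θ =>
      mul_nonneg (by positivity) (dm_nonneg θ)), integral_const_mul, mul_right_comm]
  have k' : ∀ {θ : ℤ × ℝ} {x c : ℝ}, exp x ≤ c * (wj θ.1 * exp (-(4⁻¹ * θ.2 ^ 2))) →
      ‖et' θ.2‖ₑ * ENNReal.ofReal (exp x) ≤ ENNReal.ofReal (c * dm θ) := fun e => by
    rw [← ofReal_norm, ← ENNReal.ofReal_mul (norm_nonneg _)]
    exact ENNReal.ofReal_le_ofReal (dm_le (exp_pos _).le e)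
  refine ⟨6144 * ∫ θ, dm θ ∂mT, mul_nonneg (by norm_num) (integral_nonneg dm_nonneg),
    fun h hh z hz => ⟨?_, ?_⟩⟩
  · exact ((setLIntegral_mono_ae' (measurable_fst (MeasurableSet.of_discrete (s := {j | j ≠ 0})))
      (.of_forall fun θ e => k' (ex_ne hh hz e))).trans (setLIntegral_le_lintegral _ _)).trans_eq
        (k h hh.1.le)
  · exact (lintegral_mono fun θ => k' (ex_le hh hz θ)).trans_eq
      (k _ (add_pos (exp_pos _) hh.1).le)

lemma qk_nonneg (hh : 0 < h) {u v : E} (hu : u ∈ Hh) (hv : v ∈ Hh) : 0 ≤ qk h u v := by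
  refine sub_nonneg.2 (pk_mono hh ?_)
  have := mul_pos_of_neg_of_neg (show u 1 < 0 from hu) (show v 1 < 0 from hv)
  simp only [nsq, bar, PiLp.sub_apply, Matrix.cons_val_zero, Matrix.cons_val_one]
  linarith

@[fun_prop] lemma bar_cont : Continuous bar := by
  unfold bar
  fun_prop

lemma qk_cont (h : ℝ) : Continuous fun p : E × E => qk h p.1 p.2 := by
  unfold qk
  fun_prop

lemma GG_meas (h : ℝ) (a : E) : Measurable (GG h a) :=
  Measurable.tsum fun _ => (((qk_cont _).comp (Continuous.prodMk_right a)).measurable).const_mul _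

lemma tm_ge (hh : 0 < h) (n : ℕ) : h ≤ tm h n :=
  le_mul_of_one_le_left hh.le (by linarith [n.cast_nonneg (α := ℝ)])

lemma qk_le (hh : 0 < h) (n : ℕ) (a u : E) :
    ‖exp (-tm h n) * qk (tm h n) a u‖ ≤ (4 * π * h)⁻¹ * exp (-h) ^ n := by
  have t := tm_ge hh n
  have t0 := hh.trans_le t
  have b : (4 * π * tm h n)⁻¹ ≤ (4 * π * h)⁻¹ := by gcongr
  rw [norm_mul, mul_comm, ← exp_nat_mul, Real.norm_of_nonneg (exp_pos _).le]
  refine mul_le_mul (abs_le.2 ⟨?_, ?_⟩) (exp_le_exp.2 (by rw [tm]; linarith)) (exp_pos _).le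
    (by positivity) <;> rw [qk] <;>
    linarith [pk_pos t0 (a - u), pk_le t0 (a - u), pk_pos t0 (a - bar u), pk_le t0 (a - bar u)]

lemma geo (hh : 0 < h) (c : ℝ) : Summable fun n : ℕ => c * exp (-h) ^ n :=
  (summable_geometric_of_lt_one (exp_pos _).le (exp_lt_one_iff.2 (neg_neg_of_pos hh))).mul_left c

lemma GG_bd (hh : 0 < h) : ∃ C, ∀ a u, |GG h a u| ≤ C :=
  ⟨_, fun a u => tsum_of_norm_bounded (geo hh _).hasSum fun n => qk_le hh n a u⟩

/-- the reflection as an isometry -/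
noncomputable def br : E ≃ₗᵢ[ℝ] E := ort 1 0 0 (-1) (by simp) (by simp) (by simp)

lemma br_eq (u : E) : br u = bar u := by
  ext i
  fin_cases i
  exacts [(ort_0 _ _ _ u).trans (by simp [bar]), (ort_1 _ _ _ u).trans (by simp [bar])]

lemma pk_bar (h : ℝ) (u v : E) : pk h (bar u - v) = pk h (u - bar v) :=
  pk_congr h (by
    rw [← sq_eq_sq₀ (norm_nonneg _) (norm_nonneg _), nsq, nsq]
    simp only [bar, PiLp.sub_apply, Matrix.cons_val_zero, Matrix.cons_val_one]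
    ring)

lemma bar_bar (u : E) : bar (bar u) = u := by
  ext i
  fin_cases i <;> simp [bar]

lemma Hh_meas : MeasurableSet Hh := measurableSet_lt (by fun_prop) measurable_const

lemma fold {V : Type} [NormedAddCommGroup V] [NormedSpace ℝ V] {φ : E → V} (hφ : Integrable φ) :
    ∫ u in Hh, φ u + φ (bar u) = ∫ u, φ u := by
  have m := br.measurePreserving
  have e := br.toHomeomorph.measurableEmbedding
  have z : volume {u : E | u 1 = 0} = 0 := Measure.addHaar_submodule volume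
    (EuclideanSpace.projₗ (𝕜 := ℝ) (1 : Fin 2)).ker fun e => by
      simpa using (e ▸ Submodule.mem_top : EuclideanSpace.single 1 (1 : ℝ) ∈
        (EuclideanSpace.projₗ (𝕜 := ℝ) (1 : Fin 2)).ker)
  have a : Hh =ᵐ[volume] br ⁻¹' Hhᶜ := mem_of_superset (compl_mem_ae_iff.2 z) fun u hu => by
    change (u 1 < 0) = ¬ br u 1 < 0
    simp [br_eq, bar, lt_iff_le_and_ne, show u 1 ≠ 0 from hu]
  simp only [← br_eq]
  have i : Integrable fun u => φ (br u) := (m.integrable_comp_emb e).2 hφ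
  rw [integral_add hφ.integrableOn i.integrableOn,
    ← integral_add_compl Hh_meas hφ, ← m.setIntegral_preimage_emb e φ Hhᶜ,
    setIntegral_congr_set (f := fun u => φ (br u)) a]

lemma fold_qk {V : Type} [NormedAddCommGroup V] [NormedSpace ℝ V] {b : E → V} {v : E}
    (hb : ∀ u, b (bar u) = -b u) (hi : Integrable fun u => pk h (u - v) • b u) :
    ∫ u in Hh, qk h u v • b u = ∫ u, pk h (u - v) • b u := by
  rw [← fold hi]
  simp only [hb, pk_bar, qk, sub_smul, smul_neg, ← sub_eq_add_neg]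

lemma qk_ck {t : ℝ} (ht : 0 < t) (hh : 0 < h) (a v : E) :
    ∫ u in Hh, qk t a u * qk h u v = qk (t + h) a v := by
  have e : ∀ u, pk h (u - v) • qk t a u =
      pk t (a - u) * pk h (u - v) - pk t (bar a - u) * pk h (u - v) := fun u => by
    rw [qk, pk_bar, smul_eq_mul]
    ring
  have := fold_qk (h := h) (b := qk t a) (v := v) (fun u => by simp only [qk, bar_bar, neg_sub])
    (((pk_ck_int ht hh a v).sub (pk_ck_int ht hh (bar a) v)).congr (.of_forall fun u => (e u).symm))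
  simp only [e] at this
  rw [integral_sub (pk_ck_int ht hh a v) (pk_ck_int ht hh (bar a) v), pk_ck ht hh, pk_ck ht hh,
    pk_bar] at this
  exact (by simp only [smul_eq_mul, mul_comm] : _ = _).trans this

lemma GG_src (hh : 0 < h) (a v : E) :
    GG h a v = exp (-h) * qk h a v + ∫ u in Hh, GG h a u * (exp (-h) * qk h u v) := by
  have i : Integrable fun u => exp (-h) * qk h u v :=
    (((pk_int hh).comp_sub_right v).sub ((pk_int hh).comp_sub_right (bar v))).const_mul _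
  have m : ∀ n, Integrable (fun u => exp (-tm h n) * qk (tm h n) a u * (exp (-h) * qk h u v))
      (volume.restrict Hh) := fun n => (i.bdd_mul (((qk_cont _).comp
        (Continuous.prodMk_right a)).aestronglyMeasurable.const_mul _)
        (.of_forall (qk_le hh n a))).integrableOn
  rw [GG, (Summable.of_norm_bounded (geo hh _) fun n => qk_le hh n a v).tsum_eq_zero_add]
  simp only [GG, ← tsum_mul_right]
  rw [← integral_tsum_of_summable_integral_norm m (.of_nonneg_of_le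
    (fun n => integral_nonneg fun _ => norm_nonneg _) (fun n => ?_)
      (geo hh ((4 * π * h)⁻¹ * ∫ u in Hh, ‖exp (-h) * qk h u v‖)))]
  · congr 1
    · simp [tm]
    · refine tsum_congr fun n => ?_
      simp only [mul_mul_mul_comm (exp (-tm h n))]
      rw [integral_const_mul, qk_ck (hh.trans_le (tm_ge hh n)) hh, ← exp_add, ← neg_add,
        show tm h (n + 1) = tm h n + h by simp only [tm]; push_cast; ring]
  · rw [mul_right_comm, ← integral_const_mul]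
    exact integral_mono (m n).norm (i.integrableOn.norm.const_mul _) fun u =>
      norm_mul_le_of_le (qk_le hh n a u) le_rfl

end Pool.Agent.Lib.MP_c1b9d3_an
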