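import Pool.Agent.Lib.MP_c1b9d3_an.QG1

namespace Pool.Agent.Lib.MP_c1b9d3_an

open MeasureTheory Real Filter Topology Set Pool.Agent.Lib.MP_2d4879_an
open Complex (I)
open scoped ENNReal FourierTransform

variable {h t : ℝ} {l m : ℂ}

lemma p1_nonneg (t x : ℝ) : 0 ≤ p1 t x := by unfold p1; positivity

@[fun_prop] lemma p1_meas : Measurable fun p : ℝ × ℝ => p1 p.1 p.2 := by unfold p1; fun_prop

lemma p1_neg (t x : ℝ) : p1 t (-x) = p1 t x := by rw [p1, p1, neg_sq]

lemma p1_le (hh : 0 < h) (ht : h ≤ t) (x : ℝ) : p1 t x ≤ (√(4 * π * h))⁻¹ := by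
  have := hh.trans_le ht
  refine (mul_le_of_le_one_right (by positivity) (exp_le_one_iff.2 ?_)).trans (by gcongr)
  rw [neg_div, neg_nonpos]
  positivity

lemma pk_eq (ht : 0 < t) (z : E) : pk t z = p1 t (z 0) * p1 t (z 1) := by
  rw [pk, p1, p1, mul_mul_mul_comm, ← mul_inv, mul_self_sqrt (by positivity), ← exp_add, nsq]
  congr 2
  ring

lemma cpow_half {x : ℝ} (hx : 0 ≤ x) : (x : ℂ) ^ (1 / 2 : ℂ) = (√x : ℝ) := by
  rw [sqrt_eq_rpow, Complex.ofReal_cpow hx]
  push_cast
  rfl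

lemma gs_eq (t : ℝ) (c : ℂ) (v s : ℝ) : (p1 t (s - v) : ℂ) * Complex.exp (c * s) = ((√(4 * π * t))⁻¹ : ℝ) *
    Complex.exp ((-(4 * t)⁻¹ : ℝ) * s ^ 2 + (c + v / (2 * t)) * s + -v ^ 2 / (4 * t)) := by
  rw [p1, Complex.ofReal_mul, mul_assoc, Complex.ofReal_exp, ← Complex.exp_add]
  congr 2
  push_cast
  ring

lemma gs_int (ht : 0 < t) (c : ℂ) (v : ℝ) :
    Integrable fun s : ℝ => (p1 t (s - v) : ℂ) * Complex.exp (c * s) := by
  simp only [gs_eq]
  refine (integrable_cexp_quadratic' ?_ _ _).const_mul _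
  rw [Complex.ofReal_re, neg_lt_zero]
  positivity

lemma gs (ht : 0 < t) (c : ℂ) (v : ℝ) :
    ∫ s : ℝ, (p1 t (s - v) : ℂ) * Complex.exp (c * s) = Complex.exp (c * v + c ^ 2 * t) := by
  have t0 : (t : ℂ) ≠ 0 := Complex.ofReal_ne_zero.2 ht.ne'
  simp only [gs_eq]
  rw [integral_const_mul, integral_cexp_quadratic (by
      rw [Complex.ofReal_re, neg_lt_zero]; positivity),
    show (π : ℂ) / -((-(4 * t)⁻¹ : ℝ) : ℂ) = (4 * π * t : ℝ) by push_cast; field_simp,
    cpow_half (by positivity), ← mul_assoc, ← Complex.ofReal_mul, inv_mul_cancel₀ (by positivity),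
    Complex.ofReal_one, one_mul]
  congr 1
  push_cast
  field_simp
  ring

lemma p1_four (ht : 0 < t) {r : ℝ} (hr : 0 < r) (x : ℝ) :
    ∫ w : ℝ, Complex.exp (-(r * w) ^ 2 * t) * Complex.exp (r * w * x * I) = 2 * π / r * p1 t x := by
  have t0 : (t : ℂ) ≠ 0 := Complex.ofReal_ne_zero.2 ht.ne'
  have r0 : (r : ℂ) ≠ 0 := Complex.ofReal_ne_zero.2 hr.ne'
  have e : ∀ w : ℝ, Complex.exp (-(r * w) ^ 2 * t) * Complex.exp (r * w * x * I) =
      Complex.exp ((-(r ^ 2 * t) : ℝ) * w ^ 2 + (r * x * I) * w + 0) := fun w => by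
    rw [← Complex.exp_add]
    congr 1
    push_cast
    ring
  have s : √(π / (r ^ 2 * t)) = 2 * π / r * (√(4 * π * t))⁻¹ := by
    rw [sqrt_eq_iff_mul_self_eq (by positivity) (by positivity), mul_mul_mul_comm, ← mul_inv,
      mul_self_sqrt (by positivity)]
    field_simp
    norm_num
  simp only [e]
  rw [integral_cexp_quadratic (by rw [Complex.ofReal_re, neg_lt_zero]; positivity),
    show (π : ℂ) / -((-(r ^ 2 * t) : ℝ) : ℂ) = (π / (r ^ 2 * t) : ℝ) by push_cast; rw [neg_neg],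
    cpow_half (by positivity), s, p1]
  push_cast
  rw [mul_assoc]
  congr 3
  field_simp
  rw [Complex.I_sq]
  ring

lemma re_den (m : ℂ) (w : ℝ) : (m + (2 * π * w) ^ 2).re = m.re + (2 * π * w) ^ 2 := by
  rw [Complex.add_re]
  norm_cast

lemma int_den' {a : ℝ} (ha : 0 < a) : Integrable fun w : ℝ => (a + (2 * π * w) ^ 2)⁻¹ := by
  refine (integrable_inv_one_add_sq.const_mul (min a 1)⁻¹).mono'
    (Measurable.aestronglyMeasurable (by fun_prop)) (.of_forall fun w => ?_)
  have h1 : 1 ≤ (2 * π) ^ 2 := one_le_pow₀ (by linarith [pi_gt_three])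
  rw [Real.norm_of_nonneg (by positivity), ← mul_inv]
  refine inv_anti₀ (by positivity) ?_
  rw [mul_add, mul_one, mul_pow]
  exact add_le_add (min_le_left _ _)
    (mul_le_mul_of_nonneg_right ((min_le_right _ _).trans h1) (sq_nonneg _))

lemma int_den (hm : 0 < m.re) : Integrable fun w : ℝ => (m + (2 * π * w) ^ 2)⁻¹ := by
  refine (int_den' hm).mono' (Measurable.aestronglyMeasurable (by fun_prop)) (.of_forall fun w => ?_)
  rw [norm_inv]
  exact inv_anti₀ (by positivity) ((re_den m w).symm.trans_le (Complex.re_le_norm _))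

lemma norm_wave (a b : ℝ) : ‖Complex.exp (2 * π * a * b * I)‖ = 1 := by
  exact_mod_cast Complex.norm_exp_ofReal_mul_I (2 * π * a * b)

lemma lap_tail (hm : 0 < m.re) {τ : ℝ} (hτ : 0 ≤ τ) (x : ℝ) :
    IntegrableOn (fun t : ℝ => Complex.exp (-(m * t)) * p1 t x) (Ioi τ) ∧
    ∫ t : ℝ in Ioi τ, Complex.exp (-(m * t)) * p1 t x = ∫ w : ℝ, (m + (2 * π * w) ^ 2)⁻¹ *
      (Complex.exp (-(m + (2 * π * w) ^ 2) * τ) * Complex.exp (2 * π * w * x * I)) := by
  have r : ∀ w : ℝ, (-(m + (2 * π * w) ^ 2)).re < 0 := fun w => by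
    rw [Complex.neg_re, re_den, neg_lt_zero]
    positivity
  have i : Integrable (fun p : ℝ × ℝ => Complex.exp (-(m + (2 * π * p.1) ^ 2) * p.2) *
      Complex.exp (2 * π * p.1 * x * I)) (volume.prod (volume.restrict (Ioi τ))) := by
    have q : Measurable fun p : ℝ × ℝ => Complex.exp (-(m + (2 * π * p.1) ^ 2) * p.2) *
      Complex.exp (2 * π * p.1 * x * I) := by fun_prop
    rw [integrable_prod_iff q.aestronglyMeasurable]
    refine ⟨.of_forall fun w => ((integrableOn_exp_mul_complex_Ioi (r w) τ).mul_const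
      (Complex.exp (2 * π * w * x * I)) :),
      (int_den' hm).mono' q.aestronglyMeasurable.norm.integral_prod_right' (.of_forall fun w => ?_)⟩
    have r' := r w
    simp only [norm_mul, norm_wave, mul_one]
    simp only [Complex.norm_exp, Complex.re_mul_ofReal]
    rw [integral_exp_mul_Ioi r', norm_div, norm_neg, Real.norm_of_nonneg (exp_pos _).le,
      Real.norm_of_nonpos r'.le, Complex.neg_re, neg_neg, re_den, inv_eq_one_div]
    refine div_le_div_of_nonneg_right (exp_le_one_iff.2 ?_) (by positivity)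
    rw [neg_mul, neg_nonpos]
    positivity
  have e : ∀ t ∈ Ioi τ, ∫ w : ℝ, Complex.exp (-(m + (2 * π * w) ^ 2) * t) * Complex.exp (2 * π * w * x * I) =
      Complex.exp (-(m * t)) * p1 t x := fun t ht => by
    have := p1_four (hτ.trans_lt ht) two_pi_pos x
    push_cast at this
    rw [div_self (by simp [pi_ne_zero]), one_mul] at this
    rw [← this, ← integral_const_mul]
    simp only [← Complex.exp_add]
    congr 1
    funext w
    congr 1
    ring
  refine ⟨i.integral_prod_right.congr ((ae_restrict_mem measurableSet_Ioi).mono e), ?_⟩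
  rw [← setIntegral_congr_fun measurableSet_Ioi e, ← integral_integral_swap i]
  refine integral_congr_ae (.of_forall fun w => ?_)
  dsimp only
  rw [integral_mul_const, integral_exp_mul_complex_Ioi (r w), neg_div_neg_eq]
  ring

lemma four_abs (hl : 0 < l.re) (c : ℝ) :
    Integrable (fun x : ℝ => Complex.exp (c * x * I) * Complex.exp (-(l * (|x| : ℝ)))) ∧
    ∫ x : ℝ, Complex.exp (c * x * I) * Complex.exp (-(l * (|x| : ℝ))) = 2 * l * (l ^ 2 + c ^ 2)⁻¹ := by
  have r1 : (c * I - l).re < 0 := by simpa using hl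
  have r2 : 0 < (c * I + l).re := by simpa using hl
  have e1 : EqOn (fun x : ℝ => Complex.exp ((c * I - l) * x))
      (fun x : ℝ => Complex.exp (c * x * I) * Complex.exp (-(l * (|x| : ℝ)))) (Ioi 0) := fun x hx => by
    simp only [← Complex.exp_add, abs_of_pos (show 0 < x from hx)]
    congr 1
    ring
  have e2 : EqOn (fun x : ℝ => Complex.exp ((c * I + l) * x))
      (fun x : ℝ => Complex.exp (c * x * I) * Complex.exp (-(l * (|x| : ℝ)))) (Iic 0) := fun x hx => by
    simp only [← Complex.exp_add, abs_of_nonpos (show x ≤ 0 from hx), Complex.ofReal_neg]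
    congr 1
    ring
  have i1 := (integrableOn_exp_mul_complex_Ioi r1 0).congr_fun e1 measurableSet_Ioi
  have i2 := (integrableOn_exp_mul_complex_Iic r2 0).congr_fun e2 measurableSet_Iic
  refine ⟨integrableOn_univ.1 (Iic_union_Ioi (a := (0 : ℝ)) ▸ i2.union i1), ?_⟩
  have n1 : c * I - l ≠ 0 := fun e => by simp [e] at r1
  have n2 : c * I + l ≠ 0 := fun e => by simp [e] at r2
  rw [← intervalIntegral.integral_Iic_add_Ioi i2 i1, ← setIntegral_congr_fun measurableSet_Ioi e1,
    ← setIntegral_congr_fun measurableSet_Iic e2, integral_exp_mul_complex_Ioi r1,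
    integral_exp_mul_complex_Iic r2, show l ^ 2 + c ^ 2 = -((c * I - l) * (c * I + l)) by
      linear_combination (c : ℂ) ^ 2 * Complex.I_sq]
  simp only [Complex.ofReal_zero, mul_zero, Complex.exp_zero]
  field_simp
  ring

lemma inv_abs (hl : 0 < l.re) (hm : 0 < (l ^ 2).re) (x : ℝ) : Complex.exp (-(l * (|x| : ℝ))) =
    ∫ w : ℝ, 2 * l * (l ^ 2 + (2 * π * w) ^ 2)⁻¹ * Complex.exp (2 * π * w * x * I) := by
  have e : 𝓕 (fun x : ℝ => Complex.exp (-(l * (|x| : ℝ)))) =
      fun w : ℝ => 2 * l * (l ^ 2 + (2 * π * w) ^ 2)⁻¹ := funext fun w => by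
    have := (four_abs hl (-(2 * π * w))).2
    push_cast at this
    rw [neg_sq] at this
    rw [fourier_real_eq_integral_exp_smul, ← this]
    congr 1
    funext v
    rw [smul_eq_mul]
    congr 2
    push_cast
    ring
  have := Continuous.fourierInv_fourier_eq (f := fun x : ℝ => Complex.exp (-(l * (|x| : ℝ)))) (by fun_prop)
    (by simpa using (four_abs hl 0).1) (e ▸ (int_den hm).const_mul _)
  rw [← congrFun this x, e, fourierInv_eq']
  congr 1
  funext v
  rw [smul_eq_mul, mul_comm]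
  congr 2
  simp
  ring

lemma laplace (hl : 0 < l.re) (hm : 0 < (l ^ 2).re) (x : ℝ) :
    2 * l * ∫ t : ℝ in Ioi 0, Complex.exp (-(l ^ 2 * t)) * p1 t x = Complex.exp (-(l * (|x| : ℝ))) := by
  rw [inv_abs hl hm, (lap_tail hm le_rfl x).2, ← integral_const_mul]
  simp only [Complex.ofReal_zero, mul_zero, Complex.exp_zero, one_mul, mul_assoc]

lemma smooth_abs (hh : 0 < h) (hl : 0 < l.re) (hm : 0 < (l ^ 2).re) (c x : ℝ) :
    Complex.exp (-(l * (|x - c| : ℝ))) - Complex.exp (-(l ^ 2 * h)) *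
      ∫ s : ℝ, p1 h (s - x) * Complex.exp (-(l * (|s - c| : ℝ))) =
    2 * l * ∫ t : ℝ in Ioc 0 h, Complex.exp (-(l ^ 2 * t)) * p1 t (x - c) := by
  have i : Integrable (fun p : ℝ × ℝ => (p1 h (p.1 - x) : ℂ) * (2 * l * (l ^ 2 + (2 * π * p.2) ^ 2)⁻¹ *
      Complex.exp (2 * π * p.2 * (p.1 - c : ℝ) * I))) (volume.prod volume) := by
    have := ((gs_int hh 0 x).mul_prod ((int_den hm).const_mul (2 * l))).mul_bdd (c := 1)
      (g := fun p : ℝ × ℝ => Complex.exp (2 * π * p.2 * (p.1 - c : ℝ) * I))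
      (Measurable.aestronglyMeasurable (by fun_prop)) (.of_forall fun p => (norm_wave _ _).le)
    simpa only [zero_mul, Complex.exp_zero, mul_one, mul_assoc] using this
  have i0 := (lap_tail hm le_rfl (x - c)).1
  rw [← laplace hl hm, ← Ioc_union_Ioi_eq_Ioi hh.le, setIntegral_union Ioc_disjoint_Ioi_same
    measurableSet_Ioi (i0.mono_set Ioc_subset_Ioi_self) (lap_tail hm hh.le _).1, mul_add,
    add_sub_assoc, add_eq_left, sub_eq_zero, (lap_tail hm hh.le _).2]
  simp only [inv_abs hl hm, ← integral_const_mul (p1 h _ : ℂ)]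
  rw [integral_integral_swap i, ← integral_const_mul, ← integral_const_mul]
  refine integral_congr_ae (.of_forall fun w => ?_)
  have e : ∀ s : ℝ, (p1 h (s - x) : ℂ) * (2 * l * (l ^ 2 + (2 * π * w) ^ 2)⁻¹ *
      Complex.exp (2 * π * w * (s - c : ℝ) * I)) = 2 * l * (l ^ 2 + (2 * π * w) ^ 2)⁻¹ *
        Complex.exp (-(2 * π * w * c * I)) * (p1 h (s - x) * Complex.exp (2 * π * w * I * s)) := fun s => by
    rw [show 2 * π * w * (s - c : ℝ) * I = -(2 * π * w * c * I) + 2 * π * w * I * s by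
      push_cast; ring, Complex.exp_add]
    ring
  simp only [e]
  rw [integral_const_mul, gs hh, ← Complex.exp_add, mul_left_comm (Complex.exp _), mul_assoc _ (Complex.exp _),
    ← Complex.exp_add, ← Complex.exp_add, mul_assoc (2 * l)]
  congr 3
  push_cast
  linear_combination -(2 * π * w : ℂ) ^ 2 * h * Complex.I_sq

end Pool.Agent.Lib.MP_c1b9d3_an
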