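import Pool.Agent.Lib.MP_c1b9d3_an.QG2

namespace Pool.Agent.Lib.MP_c1b9d3_an

open MeasureTheory Real Filter Topology Set Pool.Agent.Lib.MP_2d4879_an
open Complex (I)
open scoped ENNReal

variable {h t : ℝ} {l e : ℂ}

/-- coordinates -/
noncomputable def eqE : ℝ × ℝ ≃ᵐ E :=
  MeasurableEquiv.finTwoArrow.symm.trans (MeasurableEquiv.toLp 2 (Fin 2 → ℝ))

lemma mpE : MeasurePreserving eqE (volume.prod volume) volume :=
  (PiLp.volume_preserving_toLp (Fin 2)).comp ((volume_preserving_finTwoArrow ℝ).symm _)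

lemma int_E (f g : ℝ → ℂ) : ∫ u : E, f (u 0) * g (u 1) = (∫ s, f s) * ∫ w, g w := by
  rw [← mpE.integral_comp', ← integral_prod_mul]
  rfl

lemma intg_E {f g : ℝ → ℂ} (hf : Integrable f) (hg : Integrable g) :
    Integrable fun u : E => f (u 0) * g (u 1) :=
  (mpE.integrable_comp_emb eqE.measurableEmbedding).1 (hf.mul_prod hg)

lemma lint_E {f g : ℝ → ℝ≥0∞} (hf : Measurable f) (hg : Measurable g) :
    ∫⁻ u : E, f (u 0) * g (u 1) = (∫⁻ s, f s) * ∫⁻ w, g w := by
  rw [← mpE.lintegral_comp_emb eqE.measurableEmbedding,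
    ← lintegral_prod_mul hf.aemeasurable hg.aemeasurable]
  rfl

lemma gs_sin (ht : 0 < t) (e : ℂ) (y : ℝ) :
    Integrable (fun w : ℝ => (p1 t (w - y) : ℂ) * Complex.sin (e * w)) ∧
    ∫ w : ℝ, (p1 t (w - y) : ℂ) * Complex.sin (e * w) = Complex.exp (-(e ^ 2 * t)) * Complex.sin (e * y) := by
  have q : ∀ w : ℝ, (p1 t (w - y) : ℂ) * Complex.sin (e * w) = I / 2 *
      (p1 t (w - y) * Complex.exp (-(e * I) * w) - p1 t (w - y) * Complex.exp (e * I * w)) := fun w => by
    rw [Complex.sin, mul_right_comm e, neg_mul, neg_mul, mul_right_comm e]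
    ring
  simp only [q]
  refine ⟨((gs_int ht _ y).sub (gs_int ht _ y)).const_mul _, ?_⟩
  rw [integral_const_mul, integral_sub (gs_int ht _ y) (gs_int ht _ y), gs ht, gs ht, Complex.sin,
    Complex.exp_add, Complex.exp_add, neg_sq, mul_pow, Complex.I_sq, mul_neg_one, neg_mul, neg_mul,
    neg_mul, mul_right_comm e]
  ring

lemma norm_sin_le (z : ℂ) : ‖Complex.sin z‖ ≤ exp |z.im| := by
  have h1 : ‖Complex.exp (-z * I)‖ ≤ exp |z.im| := by
    rw [Complex.norm_exp]
    exact exp_le_exp.2 (by simpa using le_abs_self _)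
  have h2 : ‖Complex.exp (z * I)‖ ≤ exp |z.im| := by
    rw [Complex.norm_exp]
    exact exp_le_exp.2 (by simpa using neg_le_abs _)
  rw [Complex.sin, norm_div, norm_mul, Complex.norm_I, mul_one, Complex.norm_two]
  linarith [norm_sub_le_of_le h1 h2]

lemma gs_lint (ht : 0 < t) (κ v : ℝ) : ∫⁻ s : ℝ, ENNReal.ofReal (p1 t (s - v) * exp (κ * (s - v))) =
    ENNReal.ofReal (exp (κ ^ 2 * t)) := by
  have q : ∀ s : ℝ, (p1 t (s - 0) : ℂ) * Complex.exp (κ * s) = (p1 t s * exp (κ * s) : ℝ) := fun s => by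
    simp
  have i := gs_int ht κ 0
  have j := gs ht κ 0
  simp only [q] at i j
  rw [integral_complex_ofReal] at j
  rw [lintegral_sub_right_eq_self fun s => ENNReal.ofReal (p1 t s * exp (κ * s)),
    ← ofReal_integral_eq_lintegral_ofReal (f := fun s => p1 t s * exp (κ * s)) i.re (.of_forall fun s =>
      mul_nonneg (p1_nonneg _ _) (exp_pos _).le)]
  congr 1
  refine Complex.ofReal_injective (j.trans ?_)
  simp

lemma Md.re_sq (hm : Md h l e) : (7 / 25) ^ 2 ≤ (l ^ 2).re := by
  obtain ⟨j, hj⟩ := hm.sq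
  have h1 := sq_le_sq' (abs_le.1 hm.im).1 (abs_le.1 hm.im).2
  rw [hj, show 2 * π * I * j / h = (2 * π * j / h : ℝ) * I by push_cast; ring, pow_two e]
  simp only [Complex.add_re, Complex.one_re, Complex.mul_re, Complex.ofReal_re, Complex.I_re,
    Complex.ofReal_im, mul_zero, zero_mul]
  nlinarith [mul_self_nonneg e.re]

lemma md_conv (hh : 0 < h) (hl : 0 < l.re) (e : ℂ) (c : ℝ) (v : E) :
    ∫ u in Hh, md l e c u * ((exp (-h) * qk h u v : ℝ) : ℂ) = Complex.exp (-h) *
      ((∫ s : ℝ, p1 h (s - v 0) * Complex.exp (-(l * (|s - c| : ℝ)))) *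
        (Complex.exp (-(e ^ 2 * h)) * Complex.sin (e * v 1))) := by
  have q : ∀ u : E, pk h (u - v) • md l e c u = (p1 h (u 0 - v 0) * Complex.exp (-(l * (|u 0 - c| : ℝ)))) *
      (p1 h (u 1 - v 1) * Complex.sin (e * u 1)) := fun u => by
    rw [pk_eq hh, md, Complex.real_smul, Complex.ofReal_mul, mul_mul_mul_comm]
    rfl
  have i : Integrable fun s : ℝ => (p1 h (s - v 0) : ℂ) * Complex.exp (-(l * (|s - c| : ℝ))) := by
    have := (gs_int hh 0 (v 0)).mul_bdd (c := 1) (g := fun s : ℝ => Complex.exp (-(l * (|s - c| : ℝ))))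
      (by fun_prop) (.of_forall fun s => by
        rw [Complex.norm_exp, exp_le_one_iff, Complex.neg_re, Complex.re_mul_ofReal, neg_nonpos]
        positivity)
    simpa only [zero_mul, Complex.exp_zero, mul_one] using this
  have := fold_qk (h := h) (b := md l e c) (v := v) (fun u => by simp [md, bar])
    ((intg_E i (gs_sin hh e (v 1)).1).congr (.of_forall fun u => (q u).symm))
  simp only [q] at this
  rw [int_E (fun s => p1 h (s - v 0) * Complex.exp (-(l * (|s - c| : ℝ))))
    fun w => p1 h (w - v 1) * Complex.sin (e * w), (gs_sin hh e _).2] at this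
  rw [← this, ← integral_const_mul]
  refine integral_congr_ae (.of_forall fun u => ?_)
  simp only [Complex.real_smul]
  push_cast
  ring

theorem md_src (hh : 0 < h) {l e : ℂ} (hm : Md h l e) (c : ℝ) : ∃ f : E → ℂ, Measurable f ∧
    (∀ v, md l e c v = f v + ∫ u in Hh, md l e c u * ((exp (-h) * qk h u v : ℝ) : ℂ)) ∧
    ∀ ε : ℝ, ε ^ 2 = 1 → ∫⁻ v in Hh, ‖f v‖ₑ *
      ENNReal.ofReal (exp (7 / 25 * (ε * (v 0 - c)) + 24 / 25 * v 1)) ≤
        ENNReal.ofReal (100 * ‖l‖ * h) := by
  have l0 : 0 < l.re := lt_of_lt_of_le (by norm_num) hm.re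
  have l1 := hm.re_sq
  set F : ℝ → ℂ := fun x => 2 * l * ∫ t : ℝ in Ioc 0 h, Complex.exp (-(l ^ 2 * t)) * p1 t (x - c) with hF
  have p : Measurable fun q : ℝ × ℝ => p1 q.2 (q.1 - c) :=
    p1_meas.comp (measurable_snd.prodMk (measurable_fst.sub_const c))
  have m : Measurable F := (StronglyMeasurable.integral_prod_right' (f := fun q : ℝ × ℝ =>
    Complex.exp (-(l ^ 2 * q.2)) * p1 q.2 (q.1 - c)) (Measurable.stronglyMeasurable
      (by fun_prop))).measurable.const_mul _
  refine ⟨fun v => F (v 0) * Complex.sin (e * v 1), by fun_prop, fun v => ?_, fun ε hε => ?_⟩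
  · obtain ⟨j, hj⟩ := hm.sq
    have h0 : (h : ℂ) ≠ 0 := Complex.ofReal_ne_zero.2 hh.ne'
    have q : Complex.exp (-(l ^ 2 * h)) = Complex.exp (-h) * Complex.exp (-(e ^ 2 * h)) := by
      rw [← Complex.exp_add, Complex.exp_eq_exp_iff_exists_int]
      exact ⟨-j, by rw [hj]; push_cast; field_simp; ring⟩
    simp only [hF]
    rw [md_conv hh l0, ← smooth_abs hh l0 (lt_of_lt_of_le (by norm_num) l1), q, md]
    ring
  have a : ∫⁻ x, ‖F x‖ₑ * ENNReal.ofReal (exp (7 / 25 * ε * (x - c))) ≤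
      ENNReal.ofReal (2 * ‖l‖) * ENNReal.ofReal h := by
    calc _ ≤ ∫⁻ x, ENNReal.ofReal (2 * ‖l‖) * ∫⁻ t in Ioc 0 h, ENNReal.ofReal (exp (-((l ^ 2).re * t))) *
          ENNReal.ofReal (p1 t (x - c) * exp (7 / 25 * ε * (x - c))) := lintegral_mono fun x => by
          rw [hF, enorm_mul, mul_assoc, ← ofReal_norm, norm_mul, Complex.norm_two]
          refine mul_le_mul_right ((mul_le_mul_left (enorm_integral_le_lintegral_enorm _) _).trans ?_) _
          rw [← lintegral_mul_const' _ _ ENNReal.ofReal_ne_top]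
          refine lintegral_mono fun t => le_of_eq ?_
          rw [← ofReal_norm, norm_mul, Complex.norm_exp, Complex.norm_real, Complex.neg_re,
            Complex.re_mul_ofReal, Real.norm_of_nonneg (p1_nonneg _ _),
            ENNReal.ofReal_mul (exp_pos _).le, ENNReal.ofReal_mul (p1_nonneg _ _), mul_assoc]
      _ ≤ _ := by
          rw [lintegral_const_mul' _ _ ENNReal.ofReal_ne_top, lintegral_lintegral_swap
            (Measurable.aemeasurable (by fun_prop))]
          refine mul_le_mul_right ((setLIntegral_mono' (g := fun _ => 1) measurableSet_Ioc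
            fun t ht => ?_).trans_eq (by simp)) _
          rw [lintegral_const_mul' _ _ ENNReal.ofReal_ne_top, gs_lint ht.1,
            ← ENNReal.ofReal_mul (exp_pos _).le, ← exp_add, ENNReal.ofReal_le_one, exp_le_one_iff,
            mul_pow, hε]
          nlinarith [ht.1]
  have b : ∫⁻ w, (Iio 0).indicator (fun w : ℝ => ‖Complex.sin (e * w)‖ₑ *
      ENNReal.ofReal (exp (24 / 25 * w))) w ≤ ENNReal.ofReal 50 := by
    rw [lintegral_indicator measurableSet_Iio]
    refine (setLIntegral_mono' (g := fun w => ENNReal.ofReal (exp (50⁻¹ * w))) measurableSet_Iio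
      fun w (hw : w < 0) => ?_).trans ((lintegral_mono_set Iio_subset_Iic_self).trans_eq ?_)
    · rw [← ofReal_norm, ← ENNReal.ofReal_mul (norm_nonneg _)]
      refine ENNReal.ofReal_le_ofReal ((mul_le_mul_of_nonneg_right (norm_sin_le _)
        (exp_pos _).le).trans ?_)
      rw [← exp_add, Complex.im_mul_ofReal, abs_mul, abs_of_neg hw]
      exact exp_le_exp.2 (by nlinarith [hm.im])
    · rw [← ofReal_integral_eq_lintegral_ofReal (integrableOn_exp_mul_Iic (by norm_num) _)
        (.of_forall fun _ => (exp_pos _).le), integral_exp_mul_Iic (by norm_num)]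
      simp
  rw [← lintegral_indicator Hh_meas]
  refine le_of_eq_of_le ((lintegral_congr fun v => ?_).trans (lint_E (by fun_prop)
    (Measurable.indicator (by fun_prop) measurableSet_Iio))) ((mul_le_mul' a b).trans_eq ?_)
  · by_cases hv : v 1 < 0
    · rw [indicator_of_mem (show v ∈ Hh from hv), indicator_of_mem (show v 1 ∈ Iio 0 from hv),
        enorm_mul, exp_add, ENNReal.ofReal_mul (exp_pos _).le, mul_mul_mul_comm, mul_assoc _ ε]
    · rw [indicator_of_notMem (show v ∉ Hh from hv),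
        indicator_of_notMem (show v 1 ∉ Iio 0 from hv), mul_zero]
  · rw [← ENNReal.ofReal_mul (by positivity), ← ENNReal.ofReal_mul (by positivity)]
    congr 1
    ring

end Pool.Agent.Lib.MP_c1b9d3_an
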