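import Pool.Agent.Lib.MP_c1b9d3_an.QH2

namespace Pool.Agent.Lib.MP_c1b9d3_an

open MeasureTheory Real Filter Topology Set Pool.Agent.Lib.MP_2d4879_an Metric Asymptotics
open scoped ENNReal InnerProductSpace

variable {h x k z : ℝ}

noncomputable def Ip (h x k z : ℝ) {n : ℕ} (X : Fin (n + 1) → E) : ℝ≥0∞ :=
  ENNReal.ofReal (exp (-tm h n)) * ((∏ e, pe h (X e - X (finRotate _ e))) *
    (ev3 {p | p 1 < 0} {p | p 0 ≤ x * p 1} {p | z + -k * p 1 ≤ p 0}).indicator 1 X)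

lemma Lt_eqH (hh : 0 < h) (hxk : -k < x) (z : ℝ) (n : ℕ) : ENNReal.ofReal (Lt h x (-k) z n) =
    ((n : ℝ≥0∞) + 1)⁻¹ * ∫⁻ X : Fin (n + 1) → E, Ip h x k z X := by
  have ht := tm_pos hh n
  have h1 := loop_eq (sqrt_pos.2 ht) n (ms_ev3 (ι := Fin (n + 1)) (H := {p | p 1 < 0})
    (T := {p | p 0 ≤ x * p 1}) (R := {p | z + -k * p 1 ≤ p 0}) (by measurability)
    (by measurability) (by measurability))
  simp_rw [vol_th hxk z (sqrt_nonneg _)] at h1
  rw [← En_ofReal (by fun_prop) (th_nonneg hxk _ _), sq_sqrt ht.le,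
    show tm h n * (1 / (n + 1)) = h by unfold tm; field_simp] at h1
  unfold Ip
  rw [lintegral_const_mul' _ _ ENNReal.ofReal_ne_top, h1, Lt, ENNReal.ofReal_mul (by positivity),
    ENNReal.ofReal_mul (by positivity), ENNReal.ofReal_div_of_pos (by positivity),
    ENNReal.ofReal_add (by positivity) zero_le_one, ENNReal.ofReal_natCast, ENNReal.ofReal_one,
    div_eq_mul_inv]
  ring

lemma exp_tm (c h : ℝ) (n : ℕ) :
    ENNReal.ofReal (exp (c * tm h n)) = ∏ _e : Fin (n + 1), ENNReal.ofReal (exp (c * h)) := by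
  rw [Finset.prod_const, Finset.card_univ, Fintype.card_fin, ← ENNReal.ofReal_pow (exp_pos _).le,
    ← exp_nat_mul, tm]
  congr 2; push_cast; ring

lemma LI_le (hh : 0 < h) (x k z : ℝ) (n : ℕ) :
    LI (Qh h) (Wg (-1) 0 x) (Wg 1 z k) n ≤ ∫⁻ X : Fin (n + 1) → E, Ip h x k z X := by
  refine lintegral_mono fun X => ?_
  by_cases hX : ∀ e, X e ∈ Hh
  · rw [Ip, ← mul_assoc, ← neg_one_mul (tm h n), exp_tm, ← Finset.prod_mul_distrib, neg_one_mul]
    refine mul_le_mul' (Finset.prod_le_prod' fun e _ => Qh_le hh _ _) ?_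
    by_cases h1 : X ∈ ev3 univ (Wg (-1) 0 x) (Wg 1 z k)
    · obtain ⟨-, ⟨i, hi⟩, j, hj⟩ := id h1
      rw [indicator_of_mem h1, indicator_of_mem]
      exact ⟨hX, ⟨i, show X i 0 ≤ _ by linarith [hi.2]⟩, j, show _ ≤ X j 0 by linarith [hj.2]⟩
    · rw [indicator_of_notMem h1]; exact zero_le
  · obtain ⟨e, he⟩ := not_forall.1 hX
    rw [lw, Finset.prod_eq_zero (Finset.mem_univ ((finRotate _).symm e)) (by
      rw [Equiv.apply_symm_apply, Qh, indicator_of_notMem he]), zero_mul]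
    exact zero_le

lemma qk_eq (h : ℝ) (u v : E) : qk h u v = pk h (u - v) * (1 - exp (-(u 1 * v 1 / h))) := by
  have : -‖u - bar v‖ ^ 2 / (4 * h) = -‖u - v‖ ^ 2 / (4 * h) + -(u 1 * v 1 / h) := by
    simp only [nsq, bar, PiLp.sub_apply, Matrix.cons_val_zero, Matrix.cons_val_one]
    ring
  rw [qk, pk, pk, this, exp_add]; ring

lemma le_LI (hh : 0 < h) {δ ρ : ℝ} (hδ : 0 < δ) (hρ : exp (-(ρ * h)) ≤ 1 - exp (-(δ ^ 2 / h)))
    (x k z : ℝ) (n : ℕ) : ∫⁻ X : Fin (n + 1) → E, Ip h x k z X ≤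
      ENNReal.ofReal (exp (ρ * tm h n)) * LI (Qh h) (Wg (-1) 0 x) (Wg 1 (z - (x + k) * δ) k) n := by
  set d : Fin (n + 1) → E := fun _ => !₂[-(x * δ), -δ] with hd
  rw [LI, ← lintegral_add_right_eq_self (fun X : Fin (n + 1) → E => lw (Qh h) X * _) d,
    ← lintegral_const_mul' _ _ ENNReal.ofReal_ne_top]
  refine lintegral_mono fun X => ?_
  by_cases h1 : X ∈ ev3 {p | p 1 < 0} {p | p 0 ≤ x * p 1} {p | z + -k * p 1 ≤ p 0}
  swap
  · rw [Ip, indicator_of_notMem h1, mul_zero, mul_zero]; exact zero_le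
  obtain ⟨hX, ⟨i, hi⟩, j, hj⟩ := id h1
  have e0 : ∀ e, (X + d) e 0 = X e 0 - x * δ := fun e => rfl
  have e1 : ∀ e, (X + d) e 1 = X e 1 - δ := fun e => rfl
  have h2 : ∀ e, (X + d) e 1 < -δ := fun e => by
    rw [e1]; linarith [show X e 1 < 0 from hX e]
  rw [Ip, indicator_of_mem h1, indicator_of_mem (show (X + d) ∈ ev3 univ (Wg (-1) 0 x)
    (Wg 1 (z - (x + k) * δ) k) from ⟨fun _ => trivial, ⟨i, by linarith [h2 i], by
      rw [e0, e1]; linarith [show X i 0 ≤ _ from hi]⟩, j, by linarith [h2 j], by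
      rw [e0, e1]; linarith [show _ ≤ X j 0 from hj]⟩), Pi.one_apply, Pi.one_apply, mul_one,
    mul_one, ← neg_one_mul (tm h n), exp_tm, exp_tm, lw, ← Finset.prod_mul_distrib,
    ← Finset.prod_mul_distrib]
  refine Finset.prod_le_prod' fun e _ => ?_
  rw [Qh, indicator_of_mem (show _ ∈ Hh from (h2 _).trans (by linarith)), pe,
    ← ENNReal.ofReal_mul (exp_pos _).le, ← ENNReal.ofReal_mul (exp_pos _).le, qe, qk_eq,
    Pi.add_apply, Pi.add_apply, show d (finRotate _ e) = d e from rfl, add_sub_add_right_eq_sub,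
    neg_one_mul, mul_left_comm,
    mul_left_comm (exp (ρ * h))]
  refine ENNReal.ofReal_le_ofReal (mul_le_mul_of_nonneg_left (le_mul_of_one_le_right
    (pk_pos hh _).le ?_) (exp_pos _).le)
  rw [← inv_mul_le_iff₀ (exp_pos _), mul_one, ← exp_neg]
  refine hρ.trans (sub_le_sub_left (exp_le_exp.2 (neg_le_neg (div_le_div_of_nonneg_right ?_
    hh.le))) _)
  have a1 := h2 e
  have a2 := h2 (finRotate _ e)
  rw [Pi.add_apply] at a1
  rw [Pi.add_apply, show d (finRotate _ e) = d e from rfl] at a2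
  nlinarith

lemma disj (hx : 0 ≤ x) (hk : 0 ≤ k) (hz : 0 < z) : Disjoint (Wg (-1) 0 x) (Wg 1 z k) :=
  disjoint_left.2 fun p h1 h2 => by nlinarith [h1.1, h1.2, h2.2]

lemma Lh_ge (hx : 7 / 2 ≤ x) (hk : 7 / 2 ≤ k) (hh : h ∈ Ioc (0 : ℝ) 1) (hz : 1 / 2 ≤ z) :
    (TG (Qh h) (Wg (-1) 0 x) (Wg 1 z k)).toReal ≤ Lh h x (-k) z := by
  have h0 := Lt_nonneg (x := x) (y := -k) hh.1 (by linarith) z
  refine ENNReal.toReal_le_of_le_ofReal (tsum_nonneg h0) ((loop_lower (meas_Qh h) (ms_Wg _ _ _)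
    (ms_Wg _ _ _) (disj (by linarith) (by linarith) (by linarith))).trans ?_)
  rw [Lh, ENNReal.ofReal_tsum_of_nonneg h0 (Lt_sum (by linarith) (by linarith) hh hz)]
  refine ENNReal.tsum_le_tsum fun n => ?_
  rw [Lt_eqH hh.1 (by linarith)]
  exact mul_le_mul_right (LI_le hh.1 x k z n) _

lemma Lh_le (hx : 7 / 2 ≤ x) (hk : 7 / 2 ≤ k) : ∃ C : ℝ, 0 ≤ C ∧ ∀ h ∈ Ioc (0 : ℝ) 1, ∀ z δ ρ : ℝ,
    0 < δ → 0 ≤ ρ → ρ ≤ 1 / 4 → exp (-(ρ * h)) ≤ 1 - exp (-(δ ^ 2 / h)) → 1 / 2 ≤ z →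
    2 * (C * (exp (-z) + h)) ^ 2 ≤ 1 → Lh h x (-k) (z + (x + k) * δ) ≤
      (TG (Qh h) (Wg (-1) 0 x) (Wg 1 z k)).toReal + 2 * (C * (exp (-z) + h)) ^ 4 + ρ * C := by
  obtain ⟨C, C0, hC⟩ := wt_bd
  obtain ⟨D, hD⟩ := Lt_bd (x := x) (y := -k) (by linarith) (by linarith)
  refine ⟨max (17 * C) (4 * D), le_max_of_le_left (by positivity),
    fun h hh z δ ρ hδ ρ0 ρ1 hρ hz hm => ?_⟩
  set M := max (17 * C) (4 * D)
  have M0 : 0 ≤ M := le_max_of_le_left (by positivity)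
  have h0 := hh.1
  have m1 : 17 * ∫⁻ θ, om h z θ ∂mT ≤ ENNReal.ofReal (M * (exp (-z) + h)) := by
    refine (mul_le_mul_right (hC h hh z hz).2 _).trans ?_
    rw [← ENNReal.ofReal_ofNat 17, ← ENNReal.ofReal_mul (by norm_num), ← mul_assoc]
    exact ENNReal.ofReal_le_ofReal (mul_le_mul_of_nonneg_right (le_max_left _ _) (by positivity))
  have h1 := loop_upper (meas_Qh h) (ms_Wg _ _ _) (ms_Wg _ _ _)
    (disj (x := x) (k := k) (z := z) (by linarith) (by linarith) (by linarith))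
    (meas_be h z (-1) 0 x) (meas_be h z 1 z k)
    (fun v hv a ha => PP_le_be h0 hh.2 (by norm_num) hx hk (c' := z) (by ring) hz
      (by rwa [neg_neg]) ha)
    (fun a ha v hv => PP_le_be h0 hh.2 (by norm_num) hk hx (by ring) hz ha hv)
    ((be_int h0 (by norm_num) hx).trans m1) ((be_int h0 (by norm_num) hk).trans m1) (by
      rw [← ENNReal.ofReal_pow (by positivity), ← ENNReal.ofReal_ofNat 2,
        ← ENNReal.ofReal_mul (by norm_num)]
      exact ENNReal.ofReal_le_one.2 hm)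
  have n0 := Lt_nonneg (x := x) (y := -k) h0 (by linarith)
  obtain ⟨s1, s2⟩ := hD h hh z hz
  have h2 : ∀ n, ENNReal.ofReal (Lt h x (-k) (z + (x + k) * δ) n) ≤
      ((n : ℝ≥0∞) + 1)⁻¹ * LI (Qh h) (Wg (-1) 0 x) (Wg 1 z k) n +
        ENNReal.ofReal (4 * ρ * (exp (tm h n / 2) * Lt h x (-k) z n)) := fun n => by
    have k1 := le_LI h0 hδ hρ x k (z + (x + k) * δ) n
    have t0 := tm_pos h0 n
    have k2 : exp (ρ * tm h n) ≤ 1 + 4 * ρ * exp (tm h n / 2) := by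
      have a1 := add_one_le_exp (-(ρ * tm h n))
      have a2 : exp (-(ρ * tm h n)) * exp (ρ * tm h n) = 1 := by rw [← exp_add]; simp
      have a3 : exp (ρ * tm h n) ≤ exp (tm h n / 4) := exp_le_exp.2 (by nlinarith)
      have a4 := add_one_le_exp (tm h n / 4)
      have a5 : exp (tm h n / 2) = exp (tm h n / 4) * exp (tm h n / 4) := by
        rw [← exp_add]; congr 1; ring
      have a6 : tm h n * exp (ρ * tm h n) ≤ 4 * exp (tm h n / 4) * exp (tm h n / 4) :=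
        mul_le_mul (by linarith) a3 (exp_pos _).le (by positivity)
      nlinarith [mul_le_mul_of_nonneg_left a6 ρ0, exp_pos (ρ * tm h n)]
    rw [add_sub_cancel_right] at k1
    rw [Lt_eqH h0 (by linarith), ← mul_assoc (4 * ρ), ENNReal.ofReal_mul (by positivity),
      Lt_eqH h0 (by linarith), mul_left_comm, ← mul_add]
    refine mul_le_mul_right (k1.trans ((mul_le_mul_left (ENNReal.ofReal_le_ofReal k2) _).trans ?_)) _
    rw [ENNReal.ofReal_add zero_le_one (by positivity), ENNReal.ofReal_one, add_mul, one_mul]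
    exact add_le_add_right (mul_le_mul_right (LI_le h0 x k z n) _) _
  have h3 := ENNReal.tsum_le_tsum h2
  rw [← ENNReal.ofReal_tsum_of_nonneg (n0 _) (Lt_sum (by linarith) (by linarith) hh
    (by nlinarith)), ENNReal.tsum_add, ← ENNReal.ofReal_tsum_of_nonneg (fun n => mul_nonneg
      (by positivity) (mul_nonneg (exp_pos _).le (n0 _ _))) (s1.mul_left _), tsum_mul_left] at h3
  have f := TG_fin h0 hh.2 hx hk hz
  rw [← ENNReal.ofReal_le_ofReal_iff (by positivity), ENNReal.ofReal_add (by positivity)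
    (by positivity), ENNReal.ofReal_add (by positivity) (by positivity), ENNReal.ofReal_toReal f,
    ENNReal.ofReal_mul (by norm_num), ENNReal.ofReal_pow (by positivity), ENNReal.ofReal_ofNat]
  refine h3.trans (add_le_add h1 (ENNReal.ofReal_le_ofReal ?_))
  nlinarith [mul_le_mul_of_nonneg_left s2 ρ0, mul_le_mul_of_nonneg_left (le_max_right (17 * C)
    (4 * D)) ρ0]

lemma ev_small {δ ρ c : ℝ} (hδ : 0 < δ) (hρ : 0 < ρ) (hc : 0 < c) : ∀ᶠ j in atTop,
    hk j ∈ Ioc (0 : ℝ) 1 ∧ hk j ≤ c ∧ exp (-(ρ * hk j)) ≤ 1 - exp (-(δ ^ 2 / hk j)) := by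
  have t : Tendsto hk atTop (𝓝 0) := tendsto_one_div_add_atTop_nhds_zero_nat
  filter_upwards [t.eventually (ge_mem_nhds one_pos), t.eventually (ge_mem_nhds hc),
    t.eventually (ge_mem_nhds (show 0 < 1 / ρ by positivity)),
    t.eventually (ge_mem_nhds (show 0 < ρ * δ ^ 4 / 4 by positivity))] with j h1 h2 h3 h4
  have h0 : 0 < hk j := by unfold hk; positivity
  refine ⟨⟨h0, h1⟩, h2, ?_⟩
  set h := hk j
  have a1 : ρ * h ≤ 1 := by rwa [le_div_iff₀' hρ] at h3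
  have a2 : exp (-(ρ * h)) ≤ 1 - ρ * h / 2 := by
    rw [exp_neg, inv_le_iff_one_le_mul₀ (exp_pos _)]
    nlinarith [add_one_le_exp (ρ * h), mul_pos hρ h0]
  have a3 : exp (-(δ ^ 2 / h)) ≤ ρ * h / 2 := by
    rw [exp_neg, inv_le_iff_one_le_mul₀ (exp_pos _)]
    have := quadratic_le_exp_of_nonneg (show 0 ≤ δ ^ 2 / h by positivity)
    have e : ρ * h / 2 * ((δ ^ 2 / h) ^ 2 / 2) = ρ * δ ^ 4 / 4 / h := by field_simp; ring
    have : ρ * h / 2 * ((δ ^ 2 / h) ^ 2 / 2) ≤ ρ * h / 2 * exp (δ ^ 2 / h) :=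
      mul_le_mul_of_nonneg_left (by linarith [show 0 ≤ δ ^ 2 / h by positivity]) (by positivity)
    exact ((one_le_div h0).2 h4).trans (e ▸ this)
  linarith

theorem Lap_an {x y : ℝ} (hx : 7 / 2 ≤ x) (hy : y ≤ -(7 / 2)) : ∃ u : ℝ → ℝ,
    AnalyticOnNhd ℝ u (Ioo (-(14 / 25)) (14 / 25)) ∧
    (fun z => Lap x y z - ∫ r in (0 : ℝ)..11 / 20, exp (-(z * (2 + r ^ 2))) * (u r * r))
      =O[atTop] fun z => exp (-(23 / 10 * z)) := by
  obtain ⟨k, rfl⟩ : ∃ k, y = -k := ⟨-y, (neg_neg y).symm⟩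
  have hk' : 7 / 2 ≤ k := by linarith
  have h0 : ∀ j, 0 < hk j := fun j => by unfold hk; positivity
  set M : ℝ := (68 * (1 + 1)) ^ 2 * 8
  have hM : ∀ j, ∀ r ∈ ball (0 : ℂ) (3 / 5), ‖ww (hk j) x k r‖ ≤ M := fun j r hr => by
    have := mem_ball_zero_iff.1 hr
    refine (ww_le (h0 j) hx hk' (Or.inl this)).trans ?_
    unfold M
    gcongr; linarith
  have sb : ball (0 : ℂ) (14 / 25) ⊆ ball 0 (3 / 5) := ball_subset_ball (by norm_num)
  have cw : ∀ j, ContinuousOn (ww (hk j) x k) (ball 0 (14 / 25)) := fun j =>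
    (ww_hol (h0 j) hx hk').continuousOn.mono sb
  obtain ⟨f, hf, hlim⟩ := ultra_hol (fun j => ww_hol (h0 j) hx hk') hM
  refine ⟨fun r => (f r).re, fun r hr => Complex.reCLM.analyticAt _ |>.comp
    (((hf.analyticAt (isOpen_ball.mem_nhds ?_)).restrictScalars (𝕜 := ℝ)).comp
      (Complex.ofRealCLM.analyticAt r)), ?_⟩
  · simpa [abs_lt] using hr
  obtain ⟨C, hC⟩ := TG_pol
  obtain ⟨D, D0, hD⟩ := Lh_le hx hk'
  have t1 : Tendsto (fun z : ℝ => 2 * (D * (exp (1 - z) + exp (1 - z))) ^ 2) atTop (𝓝 0) := by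
    have : Tendsto (fun z : ℝ => exp (1 - z)) atTop (𝓝 0) :=
      tendsto_exp_atBot.comp (tendsto_atBot_add_const_left _ _ tendsto_neg_atTop_atBot)
    simpa using (((this.add this).const_mul D).pow 2).const_mul 2
  refine IsBigO.of_bound (|C| * (1 + exp 3) + 2 * (2 * D * exp 1) ^ 4 + D + 3 * M + 1) ?_
  filter_upwards [eventually_ge_atTop (2 : ℝ), t1.eventually (ge_mem_nhds one_pos)] with z z2 hz
  set e := exp (-(23 / 10 * z)) with he
  have e0 : 0 < e := exp_pos _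
  have e1 : e ≤ 1 / 4 := by
    rw [he, exp_neg, one_div]
    exact inv_anti₀ (by norm_num) (by linarith [add_one_le_exp (23 / 10 * z)])
  have e2 : e ≤ exp (1 - z) := exp_le_exp.2 (by linarith)
  rw [Real.norm_of_nonneg e0.le, Real.norm_eq_abs]
  refine le_of_tendsto ((Lh_lim (by linarith) (by linarith) (by linarith)).sub_const
    (Ph f z)).abs ?_
  filter_upwards [Nat.hyperfilter_le_atTop (ev_small (δ := e / (x + k)) (by positivity) e0 e0),
    Metric.tendstoUniformlyOn_iff.1 hlim e e0] with j ⟨j1, j2, j3⟩ j4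
  have a1 := abs_le.1 (hC _ j1 x k z hx hk' (by linarith))
  have a2 := abs_le.1 (hC _ j1 x k (z - e) hx hk' (by linarith))
  have a3 := Lh_ge hx hk' j1 (z := z) (by linarith)
  have b1 : exp (-(z - e)) ≤ exp (1 - z) := exp_le_exp.2 (by linarith)
  have b2 : D * (exp (-(z - e)) + hk j) ≤ D * (exp (1 - z) + exp (1 - z)) := by
    gcongr; linarith
  have hj := h0 j
  have a4 := hD _ j1 (z - e) _ e (by positivity) e0.le e1 j3 (by linarith)
    (le_trans (by gcongr) hz)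
  rw [mul_div_cancel₀ _ (by positivity), sub_add_cancel] at a4
  have hb : ∀ r ∈ ball (0 : ℂ) (14 / 25), ‖ww (hk j) x k r‖ ≤ M ∧ ‖ww (hk j) x k r - f r‖ ≤ e :=
    fun r hr => ⟨hM j r (sb hr), by
      rw [norm_sub_rev, ← dist_eq_norm]; exact (j4 r (ball_subset_closedBall hr)).le⟩
  have a5 := abs_le.1 (Ph_sub (cw j) hf.continuousOn (z := z) (z' := z) (by linarith)
    (by linarith) hb)
  have a6 := abs_le.1 (Ph_sub (cw j) hf.continuousOn (z := z - e) (z' := z) (by linarith)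
    (by linarith) hb)
  rw [sub_self, abs_zero, mul_zero] at a5
  rw [sub_sub_cancel_left, abs_neg, abs_of_pos e0] at a6
  have b3 : exp (-(23 / 10 * (z - e))) ≤ exp 3 * e := by
    rw [he, ← exp_add]; exact exp_le_exp.2 (by linarith)
  have b4 : (D * (exp (-(z - e)) + hk j)) ^ 4 ≤ (2 * D * exp 1) ^ 4 * e := by
    refine (pow_le_pow_left₀ (by positivity) b2 4).trans ?_
    rw [show D * (exp (1 - z) + exp (1 - z)) = 2 * D * exp 1 * exp (-z) by
      rw [sub_eq_add_neg, exp_add]; ring, mul_pow _ (exp _), ← exp_nat_mul]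
    exact mul_le_mul_of_nonneg_left (exp_le_exp.2 (by push_cast; linarith)) (by positivity)
  have b5 : C * (hk j + exp (-(23 / 10 * (z - e)))) ≤ |C| * ((1 + exp 3) * e) :=
    mul_le_mul (le_abs_self C) (by linarith) (by positivity) (abs_nonneg C)
  have b6 : C * (hk j + e) ≤ |C| * ((1 + exp 3) * e) :=
    mul_le_mul (le_abs_self C) (by nlinarith [one_le_exp (show (0 : ℝ) ≤ 3 by norm_num)])
      (by positivity) (abs_nonneg C)
  have b7 : 0 ≤ (2 * (2 * D * exp 1) ^ 4 + D + 3 * M) * e := by positivity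
  rw [abs_le]
  constructor <;> linarith [a1.1, a2.2, a5.1, a6.2]

end Pool.Agent.Lib.MP_c1b9d3_an
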