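import Pool.Agent.Lib.MP_c1b9d3_an.QK3

namespace Pool.Agent.Lib.MP_c1b9d3_an

open MeasureTheory Real Filter Topology Set Pool.Agent.Lib.MP_2d4879_an Metric
open scoped ENNReal InnerProductSpace

theorem hol_int {Ω : Type} [MeasurableSpace Ω] {ν : Measure Ω} {f : ℂ → Ω → ℂ} {S : Set ℂ}
    (hS : IsOpen S) {b : Ω → ℝ} (hb : Integrable b ν) (hm : ∀ t ∈ S, AEStronglyMeasurable (f t) ν)
    (hd : ∀ᵐ ω ∂ν, DifferentiableOn ℂ (fun t => f t ω) S ∧ ∀ t ∈ S, ‖f t ω‖ ≤ b ω) :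
    DifferentiableOn ℂ (fun t => ∫ ω, f t ω ∂ν) S := by
  intro t₀ ht₀
  obtain ⟨r, r0, hr⟩ := Metric.isOpen_iff.1 hS t₀ ht₀
  have hn : S ∈ 𝓝 t₀ := hS.mem_nhds ht₀
  have m' : AEStronglyMeasurable (fun ω => deriv (fun t => f t ω) t₀) ν := by
    set u : ℕ → ℂ := fun n => t₀ + ((r / 2 / (n + 1) : ℝ) : ℂ) with hu
    have up : ∀ n : ℕ, 0 < r / 2 / (n + 1) := fun n => by positivity
    have uS : ∀ n, u n ∈ S := fun n => hr (by
      rw [mem_ball_iff_norm, hu, add_sub_cancel_left, Complex.norm_real, Real.norm_of_nonneg (up n).le]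
      have : (1 : ℝ) ≤ n + 1 := by simp
      exact (div_le_self (by positivity) this).trans_lt (by linarith))
    have ut : Tendsto u atTop (𝓝[≠] t₀) := by
      refine tendsto_nhdsWithin_iff.2 ⟨?_, Eventually.of_forall fun n => ?_⟩
      · have := (Complex.continuous_ofReal.tendsto 0).comp
          (tendsto_const_div_atTop_nhds_zero_nat (r / 2) |>.comp (tendsto_add_atTop_nat 1))
        simpa [hu, Function.comp_def] using this.const_add t₀
      · simpa [hu, -Complex.ofReal_div] using (up n).ne'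
    refine aestronglyMeasurable_of_tendsto_ae atTop
      (f := fun n ω => slope (fun t => f t ω) t₀ (u n)) (fun n => ?_) ?_
    · exact ((hm _ (uS n)).sub (hm _ ht₀)).const_smul (u n - t₀)⁻¹
    · filter_upwards [hd] with ω h
      exact (hasDerivAt_iff_tendsto_slope.1 (h.1.differentiableAt hn).hasDerivAt).comp ut
  refine (hasDerivAt_integral_of_dominated_loc_of_lip (s := ball t₀ (r / 2))
    (bound := fun ω => 2 * b ω / (r / 2)) (ball_mem_nhds _ (by positivity))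
    (mem_of_superset hn hm) ?_ m' ?_ ((hb.const_mul 2).div_const _)
    ?_).2.differentiableAt.differentiableWithinAt
  · exact hb.mono' (hm _ ht₀) (hd.mono fun ω h => h.2 _ ht₀)
  · filter_upwards [hd] with ω h
    have hb : ∀ t ∈ ball t₀ (r / 2), ball t (r / 2) ⊆ S := fun t ht =>
      (ball_subset_ball' (by rw [mem_ball] at ht; linarith)).trans hr
    refine (convex_ball _ _).lipschitzOnWith_of_nnnorm_deriv_le (𝕜 := ℂ) (fun t ht =>
      h.1.differentiableAt (hS.mem_nhds (hb t ht (mem_ball_self (by positivity))))) fun t ht => ?_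
    rw [← NNReal.coe_le_coe, coe_nnnorm, Real.coe_nnabs]
    refine (Complex.norm_deriv_le_div_of_mapsTo_ball (h.1.mono (hb t ht)) (fun s hs => ?_)
      (by positivity)).trans (le_abs_self _)
    rw [mem_closedBall_iff_norm]
    linarith [norm_sub_le (f s ω) (f t ω), h.2 s (hb t ht hs),
      h.2 t (hb t ht (mem_ball_self (by positivity)))]
  · exact hd.mono fun ω h => (h.1.differentiableAt hn).hasDerivAt

theorem ultra_hol {F : ℕ → ℂ → ℂ} {M : ℝ} (hd : ∀ k, DifferentiableOn ℂ (F k) (ball 0 (3 / 5)))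
    (hb : ∀ k, ∀ r ∈ ball (0 : ℂ) (3 / 5), ‖F k r‖ ≤ M) : ∃ f : ℂ → ℂ,
    DifferentiableOn ℂ f (ball 0 (14 / 25)) ∧
      TendstoUniformlyOn F f (hyperfilter ℕ) (closedBall 0 (14 / 25)) := by
  have hs : ∀ t ∈ closedBall (0 : ℂ) (14 / 25), ball t (1 / 25) ⊆ ball 0 (3 / 5) := fun t ht =>
    ball_subset_ball' (by rw [mem_closedBall] at ht; linarith)
  have hm : ∀ t ∈ closedBall (0 : ℂ) (14 / 25), t ∈ ball (0 : ℂ) (3 / 5) := fun t ht =>
    hs t ht (mem_ball_self (by norm_num))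
  have h1 : ∀ k, LipschitzOnWith (nnabs (2 * M / (1 / 25))) (F k) (closedBall 0 (14 / 25)) :=
    fun k => by
    refine (convex_closedBall _ _).lipschitzOnWith_of_nnnorm_deriv_le (𝕜 := ℂ) (fun t ht =>
      (hd k).differentiableAt (isOpen_ball.mem_nhds (hm t ht))) fun t ht => ?_
    rw [← NNReal.coe_le_coe, coe_nnnorm, Real.coe_nnabs]
    refine (Complex.norm_deriv_le_div_of_mapsTo_ball ((hd k).mono (hs t ht)) (fun s hs' => ?_)
      (by norm_num)).trans (le_abs_self _)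
    rw [mem_closedBall_iff_norm]
    linarith [norm_sub_le (F k s) (F k t), hb k s (hs t ht hs'), hb k t (hm t ht)]
  have h2 : TendstoUniformlyOn F (fun r => limUnder (hyperfilter ℕ) fun k => F k r) (hyperfilter ℕ)
      (closedBall 0 (14 / 25)) := by
    have := (EquicontinuousOn.tendsto_uniformOnFun_iff_pi' (𝔖 := {closedBall (0 : ℂ) (14 / 25)})
      (F := F) (fun K hK => hK ▸ isCompact_closedBall _ _) (fun K hK => hK ▸
        (LipschitzOnWith.uniformEquicontinuousOn F _ h1).equicontinuousOn) (hyperfilter ℕ)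
      (fun r => limUnder (hyperfilter ℕ) fun k => F k r)).2 (tendsto_pi_nhds.2 fun r => ?_)
    · exact UniformOnFun.tendsto_iff_tendstoUniformlyOn.1 this _ rfl
    obtain ⟨x, -, hx⟩ := (isCompact_closedBall (0 : ℂ) M).ultrafilter_le_nhds
      ((hyperfilter ℕ).map fun k => F k r) (by
        rw [Ultrafilter.coe_map, ← Tendsto, tendsto_principal]
        exact Eventually.of_forall fun k => mem_closedBall_zero_iff.2
          (hb k r (hm r (by simpa using r.2))))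
    exact tendsto_nhds_limUnder (f := (hyperfilter ℕ : Filter ℕ)) (g := fun k => F k r) ⟨x, hx⟩
  exact ⟨_, (h2.mono ball_subset_closedBall).tendstoLocallyUniformlyOn.differentiableOn
    (Eventually.of_forall fun k => (hd k).mono (ball_subset_ball (by norm_num))) isOpen_ball, h2⟩

variable {h ε x k z : ℝ}

noncomputable def m0 (ξ : ℂ) : E → ℂ := md (1 + ξ ^ 2) (et ξ) 0

lemma md0 (hh : 0 < h) {ξ : ℂ} (hξ : ‖ξ‖ < 3 / 5 ∨ ξ.im = 0) : Md h (1 + ξ ^ 2) (et ξ) := by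
  rcases hξ with hξ | hξ
  · exact md_ball hξ
  · lift ξ to ℝ using hξ
    simpa [lam_zero] using md_lam hh (0, ξ)

lemma meas_et : Measurable et := by unfold et; fun_prop

lemma meas_et' : Measurable et' := by unfold et'; fun_prop

lemma ball_mul {a r : ℂ} (ha : ‖a‖ ≤ 1) (hr : r ∈ ball (0 : ℂ) (3 / 5)) : ‖r * a‖ < 3 / 5 := by
  rw [norm_mul]
  exact (mul_le_of_le_one_right (norm_nonneg _) ha).trans_lt (mem_ball_zero_iff.1 hr)

lemma comp_hol {g : ℂ → ℂ} (hg : DifferentiableOn ℂ g (ball 0 1)) {a : ℂ} (ha : ‖a‖ ≤ 1) :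
    DifferentiableOn ℂ (fun r => g (r * a)) (ball 0 (3 / 5)) :=
  hg.comp (f := fun r => r * a) (by fun_prop) fun _ hr =>
    mem_ball_zero_iff.2 ((ball_mul ha hr).trans (by norm_num))

lemma m0_hol {a : ℂ} (ha : ‖a‖ ≤ 1) (u : E) :
    DifferentiableOn ℂ (fun r => m0 (r * a) u) (ball 0 (3 / 5)) := by
  have := comp_hol et_diff ha
  unfold m0 md
  fun_prop

lemma int_dec : Integrable fun v : E => exp (-(|v 0 - 0| / 10) - |v 1| / 10) := by
  refine ((integrable_one_add_norm (E := E) (r := 3) (by simp; norm_num)).const_mul 27000).mono'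
    (Continuous.aestronglyMeasurable (by fun_prop)) (Eventually.of_forall fun v => ?_)
  have h1 : ‖v‖ ≤ |v 0| + |v 1| := by
    rw [← sq_le_sq₀ (norm_nonneg _) (by positivity), nsq, ← sq_abs (v 0), ← sq_abs (v 1)]
    nlinarith [mul_nonneg (abs_nonneg (v 0)) (abs_nonneg (v 1))]
  have h2 : (1 + ‖v‖) ^ 3 ≤ (30 * exp (‖v‖ / 30)) ^ 3 := by
    gcongr; linarith [add_one_le_exp (‖v‖ / 30)]
  rw [mul_pow, ← exp_nat_mul] at h2
  rw [Real.norm_of_nonneg (exp_pos _).le, rpow_neg (by positivity), rpow_ofNat, sub_zero,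
    ← div_eq_mul_inv, le_div_iff₀ (by positivity)]
  refine (mul_le_mul_of_nonneg_left h2 (exp_pos _).le).trans ?_
  rw [mul_left_comm, ← exp_add]
  have : exp (-(|v 0| / 10) - |v 1| / 10 + (3 : ℕ) * (‖v‖ / 30)) ≤ 1 :=
    exp_le_one_iff.2 (by push_cast; linarith)
  linarith

lemma Sf_hol (hh : 0 < h) (hε : ε ^ 2 = 1) (hk : 7 / 2 ≤ k) {a a' : ℂ} (ha : ‖a‖ ≤ 1)
    (ha' : ‖a'‖ ≤ 1) :
    DifferentiableOn ℂ (fun r => Sf h (Wg ε 0 k) (m0 (r * a')) (m0 (r * a))) (ball 0 (3 / 5)) := by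
  obtain ⟨D, hD, h2⟩ := PP_tilt hh (V := 0) (by simp)
  set W := Wg ε 0 k
  have hW : MeasurableSet W := ms_Wg _ _ _
  have mm : ∀ ξ, Measurable (m0 ξ) := fun ξ =>
    meas_md measurable_const measurable_const measurable_id 0
  have h3 : ∀ v, ∫⁻ u in W, PP (Qh h) W u v ≤ D := fun v =>
    (setLIntegral_le_lintegral _ _).trans (by simpa using (h2 W v).1)
  have i1 : ∀ v, IntegrableOn (fun u => Pr h W u v) W := fun v =>
    integrable_toReal_of_lintegral_ne_top (Measurable.aemeasurable (by fun_prop))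
      (ne_top_of_le_ne_top hD (h3 v))
  have b1 : ∀ r ∈ ball (0 : ℂ) (3 / 5), ∀ v, ∀ u ∈ W, ‖m0 (r * a) u * Pr h W u v‖ ≤ Pr h W u v :=
    fun r hr v u hu => by
    have : 0 ≤ Pr h W u v := ENNReal.toReal_nonneg
    rw [norm_mul, Complex.norm_real, Real.norm_of_nonneg this]
    exact mul_le_of_le_one_left this
      (norm_md_one (md0 hh (Or.inl (ball_mul ha hr))) hε hk hu)
  refine hol_int isOpen_ball (b := fun v => exp (-(|v 0 - 0| / 10) - |v 1| / 10) *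
    (‖(h : ℂ)⁻¹‖ * (1 + D.toReal))) (int_dec.mul_const _).integrableOn (fun r _ => ((mm _).mul
      (((meas_TT (X := Unit) (b := fun _ => m0 (r * a)) h W ((mm _).comp measurable_snd)).comp
        (measurable_prodMk_left (x := ()))).const_mul _)).aestronglyMeasurable)
    ((ae_restrict_mem hW).mono fun v hv => ⟨(m0_hol ha' v).mul (((m0_hol ha v).sub (hol_int
      (f := fun r u => m0 (r * a) u * Pr h W u v) isOpen_ball (i1 v) (fun r _ => ((mm _).mul (by fun_prop)).aestronglyMeasurable)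
      ((ae_restrict_mem hW).mono fun u hu => ⟨(m0_hol ha u).mul_const _, fun r hr =>
        b1 r hr v u hu⟩))).const_mul _), fun r hr => ?_⟩)
  rw [norm_mul, norm_mul]
  refine mul_le_mul (norm_md_le (md0 hh (Or.inl (ball_mul ha' hr))) hε hk hv)
    (mul_le_mul_of_nonneg_left ((norm_sub_le _ _).trans (add_le_add
      (norm_md_one (md0 hh (Or.inl (ball_mul ha hr))) hε hk hv) ?_)) (norm_nonneg _))
    (by positivity) (exp_pos _).le
  refine (norm_integral_le_of_norm_le (i1 v) ((ae_restrict_mem hW).mono (b1 r hr v))).trans ?_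
  rw [show (fun u => Pr h W u v) = fun u => (PP (Qh h) W u v).toReal from rfl,
    integral_toReal (Measurable.aemeasurable (by fun_prop))
    (Eventually.of_forall fun u => (PP_fin hh _ _).lt_top)]
  exact ENNReal.toReal_mono hD (h3 v)

noncomputable def Ps (h x k : ℝ) (ξ ξ' : ℂ) : ℂ :=
  et' ξ / (2 * π * (1 + ξ ^ 2)) * (et' ξ' / (2 * π * (1 + ξ' ^ 2))) *
    (Sf h (Wg (-1) 0 x) (m0 ξ) (m0 ξ') * Sf h (Wg 1 0 k) (m0 ξ') (m0 ξ))

noncomputable def ww (h x k : ℝ) (r : ℂ) : ℂ := ∫ φ in Ioo (-π) π, Ps h x k (r * cos φ) (r * sin φ)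

lemma FF_zero (h x k z ξ ξ' : ℝ) : FF h x k z ((0, ξ), (0, ξ')) =
    exp (-(z * (2 + (ξ ^ 2 + ξ' ^ 2)))) * Ps h x k ξ ξ' := by
  rw [show -(z * (2 + (ξ ^ 2 + ξ' ^ 2))) = -((1 + ξ ^ 2) * z) + -((1 + ξ' ^ 2) * z) by ring, exp_add]
  simp only [FF, Kc, cw, mo, lam_zero, Ps, m0]
  push_cast
  ring

lemma Ps_le (hh : 0 < h) (hx : 7 / 2 ≤ x) (hk : 7 / 2 ≤ k) {ξ ξ' : ℂ} {r : ℝ}
    (hξ : ‖ξ‖ < 3 / 5 ∨ ξ.im = 0) (hξ' : ‖ξ'‖ < 3 / 5 ∨ ξ'.im = 0) (h1 : ‖ξ‖ ≤ r) (h2 : ‖ξ'‖ ≤ r) :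
    ‖Ps h x k ξ ξ'‖ ≤ (68 * (1 + r)) ^ 2 := by
  have key : ∀ ξ : ℂ, ‖ξ‖ < 3 / 5 ∨ ξ.im = 0 → ‖ξ‖ ≤ r →
      ‖et' ξ / (2 * π * (1 + ξ ^ 2))‖ * (100 * ‖1 + ξ ^ 2‖) ≤ 68 * (1 + r) := fun ξ hξ h1 => by
    have k1 : 1 / 2 ≤ ‖1 + ξ ^ 2‖ := (md0 hh hξ).re.trans (Complex.re_le_norm _)
    have k2 := et'_le ξ (hξ.imp_left fun k => k.trans (by norm_num))
    rw [norm_div, norm_mul, norm_mul, Complex.norm_real, Real.norm_of_nonneg pi_pos.le,
      Complex.norm_two, div_mul_eq_mul_div, div_le_iff₀ (by positivity)]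
    have k3 : ‖et' ξ‖ * 100 ≤ 68 * (1 + r) * (2 * π) := by
      nlinarith [pi_gt_three, norm_nonneg ξ]
    nlinarith
  rw [sq]
  refine le_trans ?_ (mul_le_mul (key ξ hξ h1) (key ξ' hξ' h2) (by positivity)
    (by linarith [norm_nonneg ξ]))
  rw [Ps, norm_mul, norm_mul, norm_mul, mul_mul_mul_comm _ (100 * _), mul_comm (100 * _)]
  exact mul_le_mul_of_nonneg_left (mul_le_mul (Sf_le hh (md0 hh hξ') (md0 hh hξ) (by norm_num) hx)
    (Sf_le hh (md0 hh hξ) (md0 hh hξ') (by norm_num) hk) (norm_nonneg _) (by positivity))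
    (by positivity)

lemma meas_Ps (h x k : ℝ) {X : Type} [MeasurableSpace X] {f g : X → ℂ} (hf : Measurable f)
    (hg : Measurable g) : Measurable fun p => Ps h x k (f p) (g p) := by
  have m1 : Measurable fun p => 1 + f p ^ 2 := by fun_prop
  have m2 : Measurable fun p => 1 + g p ^ 2 := by fun_prop
  have m3 : Measurable fun p => et (f p) := meas_et.comp hf
  have m4 : Measurable fun p => et (g p) := meas_et.comp hg
  have m5 : Measurable fun p => et' (f p) := meas_et'.comp hf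
  have m6 : Measurable fun p => et' (g p) := meas_et'.comp hg
  unfold Ps m0
  exact ((m5.div (m1.const_mul _)).mul (m6.div (m2.const_mul _))).mul
    ((meas_Sm h _ m2 m4 m1 m3).mul (meas_Sm h _ m1 m3 m2 m4))

lemma trig_le (φ : ℝ) : ‖(cos φ : ℂ)‖ ≤ 1 ∧ ‖(sin φ : ℂ)‖ ≤ 1 := by
  rw [Complex.norm_real, Complex.norm_real]
  exact ⟨abs_cos_le_one φ, abs_sin_le_one φ⟩

lemma Ps_pol (hh : 0 < h) (hx : 7 / 2 ≤ x) (hk : 7 / 2 ≤ k) {r : ℂ} (hr : ‖r‖ < 3 / 5 ∨ r.im = 0)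
    (φ : ℝ) : ‖Ps h x k (r * cos φ) (r * sin φ)‖ ≤ (68 * (1 + ‖r‖)) ^ 2 := by
  have key : ∀ a : ℝ, ‖(a : ℂ)‖ ≤ 1 → (‖r * a‖ < 3 / 5 ∨ (r * a).im = 0) ∧ ‖r * a‖ ≤ ‖r‖ :=
    fun a ha => ⟨hr.imp (fun k => ball_mul ha (mem_ball_zero_iff.2 k)) fun k => by simp [k], by
      rw [norm_mul]; exact mul_le_of_le_one_right (norm_nonneg _) ha⟩
  exact Ps_le hh hx hk (key _ (trig_le φ).1).1 (key _ (trig_le φ).2).1 (key _ (trig_le φ).1).2
    (key _ (trig_le φ).2).2

lemma ww_le (hh : 0 < h) (hx : 7 / 2 ≤ x) (hk : 7 / 2 ≤ k) {r : ℂ} (hr : ‖r‖ < 3 / 5 ∨ r.im = 0) :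
    ‖ww h x k r‖ ≤ (68 * (1 + ‖r‖)) ^ 2 * 8 := by
  refine (norm_setIntegral_le_of_norm_le_const (by simp) fun φ _ => Ps_pol hh hx hk hr φ).trans ?_
  rw [Real.volume_real_Ioo_of_le (by linarith [pi_pos])]
  gcongr
  linarith [pi_le_four]

lemma ww_hol (hh : 0 < h) (hx : 7 / 2 ≤ x) (hk : 7 / 2 ≤ k) :
    DifferentiableOn ℂ (ww h x k) (ball 0 (3 / 5)) := by
  refine hol_int isOpen_ball (b := fun _ => (68 * (1 + 1)) ^ 2) (integrable_const _)
    (fun r _ => (meas_Ps h x k (by fun_prop) (by fun_prop)).aestronglyMeasurable)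
    (Eventually.of_forall fun φ => ⟨?_, fun r hr => (Ps_pol hh hx hk
      (Or.inl (mem_ball_zero_iff.1 hr)) φ).trans ?_⟩)
  · have key : ∀ a : ℂ, ‖a‖ ≤ 1 → DifferentiableOn ℂ
        (fun r => et' (r * a) / (2 * π * (1 + (r * a) ^ 2))) (ball 0 (3 / 5)) := fun a ha =>
      (comp_hol et'_diff ha).div (by fun_prop) fun r hr => mul_ne_zero (by simp) fun k => by
        have := (md0 hh (Or.inl (ball_mul ha hr))).re
        rw [k] at this; norm_num at this
    exact ((key _ (trig_le φ).1).mul (key _ (trig_le φ).2)).mul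
      ((Sf_hol hh (by norm_num) hx (trig_le φ).2 (trig_le φ).1).mul
        (Sf_hol hh (by norm_num) hk (trig_le φ).1 (trig_le φ).2))
  · have := mem_ball_zero_iff.1 hr
    gcongr; linarith

end Pool.Agent.Lib.MP_c1b9d3_an
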