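import Pool.Agent.Lib.MP_c1b9d3_an.QH1

namespace Pool.Agent.Lib.MP_c1b9d3_an

open MeasureTheory Real Filter Topology Set Pool.Agent.Lib.MP_2d4879_an Metric
open scoped ENNReal InnerProductSpace

variable {h x k z : ℝ}

lemma gb {r : ℝ} (hr : 0 ≤ r) : r * (68 * (1 + r)) ^ 2 ≤ 68 ^ 2 * exp 9 * exp (r ^ 2 / 4) := by
  have h1 : 1 + r ≤ exp (r ^ 2 / 12 + 3) :=
    (add_comm 1 r ▸ add_one_le_exp r).trans (exp_le_exp.2 (by nlinarith [sq_nonneg (r - 6)]))
  have h2 := pow_le_pow_left₀ (by linarith) h1 3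
  rw [← exp_nat_mul, show ((3 : ℕ) : ℝ) * (r ^ 2 / 12 + 3) = 9 + r ^ 2 / 4 by push_cast; ring,
    exp_add] at h2
  nlinarith [sq_nonneg (1 + r)]

lemma meas_ww (h x k : ℝ) : Measurable fun r : ℝ => ww h x k r :=
  (StronglyMeasurable.integral_prod_right' (ν := volume.restrict (Ioo (-π) π))
    (f := fun p : ℝ × ℝ => Ps h x k (p.1 * cos p.2) (p.1 * sin p.2))
    (meas_Ps h x k (by fun_prop) (by fun_prop)).stronglyMeasurable).measurable

lemma int_gau : Integrable fun r : ℝ => exp (-(1 / 4) * r ^ 2) :=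
  integrable_exp_neg_mul_sq (by norm_num)

lemma pol_eq (hh : 0 < h) (hx : 7 / 2 ≤ x) (hk : 7 / 2 ≤ k) (hz : 1 / 2 ≤ z) :
    ∫ q : ℝ × ℝ, FF h x k z ((0, q.1), (0, q.2)) =
      ∫ r in Ioi (0 : ℝ), ((exp (-(z * (2 + r ^ 2))) * r : ℝ) : ℂ) * ww h x k r := by
  have i : Integrable (fun p : ℝ × ℝ => ((exp (-(z * (2 + p.1 ^ 2))) * p.1 : ℝ) : ℂ) *
      Ps h x k (p.1 * cos p.2) (p.1 * sin p.2))
      ((volume.restrict (Ioi 0)).prod (volume.restrict (Ioo (-π) π))) := by
    refine ((int_gau.const_mul (68 ^ 2 * exp 9)).integrableOn.mul_prod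
      (integrable_const (1 : ℝ))).mono' (Measurable.aestronglyMeasurable (Measurable.mul
        (by fun_prop) (meas_Ps h x k (by fun_prop) (by fun_prop)))) ?_
    rw [Measure.prod_restrict]
    filter_upwards [ae_restrict_mem (measurableSet_Ioi.prod measurableSet_Ioo)] with p hp
    have h0 : 0 < p.1 := hp.1
    have h1 := Ps_pol hh hx hk (r := p.1) (Or.inr (Complex.ofReal_im _)) p.2
    rw [Complex.norm_real, Real.norm_of_nonneg h0.le] at h1
    rw [norm_mul, Complex.norm_real, Real.norm_of_nonneg (by positivity), mul_one, mul_assoc]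
    refine (mul_le_mul_of_nonneg_left ((mul_le_mul_of_nonneg_left h1 h0.le).trans (gb h0.le))
      (exp_pos _).le).trans ?_
    rw [mul_left_comm, ← exp_add]
    gcongr
    nlinarith [sq_nonneg p.1]
  rw [← integral_comp_polarCoord_symm, polarCoord_target, Measure.volume_eq_prod,
    ← Measure.prod_restrict]
  refine Eq.trans ?_ ((integral_prod _ i).trans ?_)
  · congr 1; ext p
    rw [FF_zero, polarCoord_symm_apply, show (p.1 * cos p.2) ^ 2 + (p.1 * sin p.2) ^ 2 = p.1 ^ 2 by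
      linear_combination p.1 ^ 2 * cos_sq_add_sin_sq p.2, Complex.real_smul]
    push_cast; ring
  · simp_rw [integral_const_mul, ww]

noncomputable def Ph (w : ℂ → ℂ) (z : ℝ) : ℝ :=
  ∫ r in (0 : ℝ)..11 / 20, exp (-(z * (2 + r ^ 2))) * ((w r).re * r)

theorem TG_pol : ∃ C : ℝ, ∀ h ∈ Ioc (0 : ℝ) 1, ∀ x k z : ℝ, 7 / 2 ≤ x → 7 / 2 ≤ k → 1 / 2 ≤ z →
    |(TG (Qh h) (Wg (-1) 0 x) (Wg 1 z k)).toReal - Ph (ww h x k) z| ≤
      C * (h + exp (-(23 / 10 * z))) := by
  obtain ⟨C, hC⟩ := TG_main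
  set D := 68 ^ 2 * exp 9 * 8 * exp 1
  refine ⟨max C (D * ∫ r : ℝ, exp (-(1 / 4) * r ^ 2)), fun h hh x k z hx hk hz => ?_⟩
  have h1 := hC h hh x k z hx hk hz
  set g : ℝ → ℂ := fun r => ((exp (-(z * (2 + r ^ 2))) * r : ℝ) : ℂ) * ww h x k r with hg
  have b : ∀ r, 0 < r → ‖g r‖ ≤ 68 ^ 2 * exp 9 * 8 * exp (-(z * (2 + r ^ 2)) + r ^ 2 / 4) := by
    intro r h0
    have h1 := ww_le hh.1 hx hk (r := r) (Or.inr (Complex.ofReal_im _))
    rw [Complex.norm_real, Real.norm_of_nonneg h0.le] at h1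
    rw [hg, norm_mul, Complex.norm_real, Real.norm_of_nonneg (by positivity), mul_assoc, exp_add]
    have h2 := (mul_le_mul_of_nonneg_left h1 h0.le).trans ((mul_assoc _ _ _).ge.trans
      (mul_le_mul_of_nonneg_right (gb h0.le) (by norm_num)))
    exact (mul_le_mul_of_nonneg_left h2 (exp_pos _).le).trans (le_of_eq (by ring))
  have i : IntegrableOn g (Ioi 0) := by
    refine (int_gau.const_mul (68 ^ 2 * exp 9 * 8)).integrableOn.mono'
      (Measurable.aestronglyMeasurable (Measurable.mul (by fun_prop) (meas_ww h x k))) ?_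
    filter_upwards [ae_restrict_mem measurableSet_Ioi] with r hr
    refine (b r hr).trans ?_
    gcongr
    nlinarith [sq_nonneg r]
  have i2 : IntegrableOn g (Ioi (11 / 20)) := i.mono_set (Ioi_subset_Ioi (by norm_num))
  have h2 : ‖∫ r in Ioi (11 / 20 : ℝ), g r‖ ≤
      D * (∫ r : ℝ, exp (-(1 / 4) * r ^ 2)) * exp (-(23 / 10 * z)) := by
    refine (norm_integral_le_of_norm_le (int_gau.const_mul (D * exp (-(23 / 10 * z)))).integrableOn
      ?_).trans ((setIntegral_le_integral (int_gau.const_mul _)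
        (Eventually.of_forall fun r => by positivity)).trans (le_of_eq ?_))
    · filter_upwards [ae_restrict_mem measurableSet_Ioi] with r hr
      have hr : 11 / 20 < r := hr
      refine (b r (by linarith)).trans ?_
      rw [mul_assoc D, mul_assoc _ (exp 1), ← exp_add, ← exp_add]
      refine mul_le_mul_of_nonneg_left (exp_le_exp.2 ?_) (by positivity)
      nlinarith [mul_nonneg (sub_nonneg.2 hz) (show 0 ≤ r ^ 2 - 3 / 10 by nlinarith)]
    · rw [integral_const_mul]; ring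
  have h3 : (∫ r in (0 : ℝ)..11 / 20, g r).re = Ph (ww h x k) z := by
    refine (Complex.reCLM.intervalIntegral_comp_comm ((intervalIntegrable_iff_integrableOn_Ioc_of_le
      (by norm_num)).2 (i.mono_set Ioc_subset_Ioi_self))).symm.trans ?_
    simp only [Ph, hg, Complex.reCLM_apply, Complex.re_ofReal_mul]
    congr 1; ext r; ring
  rw [pol_eq hh.1 hx hk hz, ← intervalIntegral.integral_interval_add_Ioi i i2] at h1
  have h4 := (Complex.abs_re_le_norm _).trans h1
  have h5 := (Complex.abs_re_le_norm _).trans h2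
  rw [Complex.sub_re, Complex.add_re, h3, Complex.ofReal_re] at h4
  have h6 := mul_le_mul_of_nonneg_right (le_max_left C (D * ∫ r : ℝ, exp (-(1 / 4) * r ^ 2))) hh.1.le
  have h7 := mul_le_mul_of_nonneg_right (le_max_right C (D * ∫ r : ℝ, exp (-(1 / 4) * r ^ 2)))
    (exp_pos (-(23 / 10 * z))).le
  rw [abs_le] at h4 h5 ⊢
  constructor <;> linarith [h4.1, h4.2, h5.1, h5.2]

lemma exp_lip {s t : ℝ} (hs : 0 ≤ s) (ht : 0 ≤ t) : |exp (-s) - exp (-t)| ≤ |s - t| := by
  wlog h : s ≤ t generalizing s t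
  · rw [abs_sub_comm, abs_sub_comm s]; exact this ht hs (not_le.1 h).le
  have h1 : exp (-t) ≤ exp (-s) := exp_le_exp.2 (by linarith)
  have h2 : exp (-s) ≤ 1 := exp_le_one_iff.2 (by linarith)
  have h3 : exp (-t) = exp (-s) * exp (s - t) := by rw [← exp_add]; congr 1; ring
  rw [abs_of_nonneg (by linarith), abs_of_nonpos (by linarith)]
  nlinarith [add_one_le_exp (s - t), exp_pos (-s)]

lemma mem_I {r : ℝ} (hr : r ∈ uIcc (0 : ℝ) (11 / 20)) :
    0 ≤ r ∧ r ≤ 11 / 20 ∧ (r : ℂ) ∈ ball (0 : ℂ) (14 / 25) := by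
  rw [uIcc_of_le (by norm_num)] at hr
  refine ⟨hr.1, hr.2, mem_ball_zero_iff.2 ?_⟩
  rw [Complex.norm_real, Real.norm_of_nonneg hr.1]; linarith [hr.2]

lemma Ph_sub {w w' : ℂ → ℂ} (hw : ContinuousOn w (ball 0 (14 / 25)))
    (hw' : ContinuousOn w' (ball 0 (14 / 25))) {M ε z z' : ℝ} (hz : 0 ≤ z) (hz' : 0 ≤ z')
    (hM : ∀ r ∈ ball (0 : ℂ) (14 / 25), ‖w r‖ ≤ M ∧ ‖w r - w' r‖ ≤ ε) :
    |Ph w z - Ph w' z'| ≤ 3 * M * |z - z'| + ε := by
  have i : ∀ {w : ℂ → ℂ} (z : ℝ), ContinuousOn w (ball 0 (14 / 25)) → IntervalIntegrable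
      (fun r : ℝ => exp (-(z * (2 + r ^ 2))) * ((w r).re * r)) volume 0 (11 / 20) := fun z hw =>
    ContinuousOn.intervalIntegrable (ContinuousOn.mul (by fun_prop) (ContinuousOn.mul
      (Complex.continuous_re.comp_continuousOn (hw.comp Complex.continuous_ofReal.continuousOn
        fun r hr => (mem_I hr).2.2)) continuousOn_id))
  obtain ⟨M0, e0⟩ := hM 0 (mem_ball_self (by norm_num))
  replace M0 := (norm_nonneg _).trans M0
  replace e0 := (norm_nonneg _).trans e0
  rw [Ph, Ph, ← intervalIntegral.integral_sub (i z hw) (i z' hw'), ← Real.norm_eq_abs]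
  refine (intervalIntegral.norm_integral_le_of_norm_le_const (C := 3 * M * |z - z'| + ε)
    (a := 0) (b := 11 / 20) fun r hr => ?_).trans
    (mul_le_of_le_one_right (by positivity) (by norm_num [abs_of_pos]))
  obtain ⟨r0, r1, r2⟩ := mem_I (uIoc_subset_uIcc hr)
  obtain ⟨h1, h2⟩ := hM r r2
  have h3 := exp_lip (s := z * (2 + r ^ 2)) (t := z' * (2 + r ^ 2)) (by positivity) (by positivity)
  rw [← sub_mul, abs_mul, abs_of_nonneg (a := 2 + r ^ 2) (by positivity)] at h3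
  have h4 : exp (-(z' * (2 + r ^ 2))) ≤ 1 := exp_le_one_iff.2 (neg_nonpos.2 (by positivity))
  rw [show ∀ a b c d : ℝ, a * (c * r) - b * (d * r) = ((a - b) * c + b * (c - d)) * r from
    fun _ _ _ _ => by ring, norm_mul, Real.norm_of_nonneg r0]
  refine (mul_le_of_le_one_right (norm_nonneg _) (by linarith)).trans ((norm_add_le _ _).trans
    (add_le_add ?_ ?_))
  · rw [norm_mul]
    refine (mul_le_mul h3 ((Complex.abs_re_le_norm _).trans h1) (abs_nonneg _)
      (by positivity)).trans ?_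
    nlinarith [mul_nonneg (mul_nonneg (abs_nonneg (z - z')) M0) (show 0 ≤ 1 - r ^ 2 by nlinarith)]
  · rw [norm_mul, Real.norm_of_nonneg (exp_pos _).le, ← Complex.sub_re]
    exact (mul_le_of_le_one_left (norm_nonneg _) h4).trans ((Complex.abs_re_le_norm _).trans h2)

end Pool.Agent.Lib.MP_c1b9d3_an
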