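import Pool.Agent.Lib.MP_c1b9d3_an.QT2
import Pool.Agent.Lib.MP_c1b9d3_an.BLoc

namespace Pool.Agent.Lib.MP_c1b9d3_an

open MeasureTheory Real Filter Topology Set Pool.Agent.Lib.MP_2d4879_an Asymptotics
open scoped ENNReal

lemma ind_tail (n : ℕ) {c : ℝ} (hc : 0 ≤ c) :
    En n (fun σ => ind c σ.W1) ≤ 2 * exp 41 * exp (-(17 / 18 * c ^ 2)) := by
  rcases le_or_gt c 1 with h | h
  · rw [En_ind, mul_assoc, ← exp_add]
    refine measureReal_le_one.trans ?_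
    linarith [one_le_exp (show 0 ≤ 41 + -(17 / 18 * c ^ 2) by nlinarith)]
  · have h1 := En_ind_le n (sub_pos.2 h)
    rw [sub_add_cancel] at h1
    calc _ ≤ _ := h1
      _ ≤ 2 * exp c * exp (-(c - 1) ^ 2) := by gcongr; linarith [add_one_le_exp c]
      _ ≤ _ := by
        rw [mul_assoc, mul_assoc, ← exp_add, ← exp_add]
        exact mul_le_mul_of_nonneg_left (exp_le_exp.2 (by nlinarith [sq_nonneg (c - 27)]))
          zero_le_two

lemma tail_tool {Φ : S → ℝ} (h : Good Φ) (h0 : ∀ σ, 0 ≤ Φ σ) (α : ℝ) : ∃ K, ∀ (n : ℕ) (c : ℝ),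
    0 ≤ c → En n (fun σ => Φ σ * ind c (σ.W (-sin α) (cos α))) ≤ K * exp (-(8 / 9 * c ^ 2)) := by
  obtain ⟨C, hC⟩ := (h.pow 17).int_bd
  refine ⟨2 * exp 41 + C, fun n c hc => ?_⟩
  have g := good_ind c (Good.W (-sin α) (cos α))
  have e : En n (fun σ => ind c (σ.W (-sin α) (cos α))) = En n fun σ => ind c σ.W1 := by
    rw [← En_rot n (p := -sin α) (q := cos α) (r := cos α) (t := sin α) (by simp) (by simp)
      (by ring) fun σ => ind c σ.W1]
    simp [S.rot, S.W, S.W1]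
  set M := exp (c ^ 2 / 18) with hM
  have M0 : 0 < M := exp_pos _
  have e1 : M * exp (-(17 / 18 * c ^ 2)) = exp (-(8 / 9 * c ^ 2)) := by
    rw [← exp_add]; congr 1; ring
  have e2 : (M ^ 16)⁻¹ = exp (-(8 / 9 * c ^ 2)) := by
    rw [← exp_nat_mul, ← exp_neg]; congr 1; push_cast; ring
  calc _ ≤ En n (fun σ => M * ind c (σ.W (-sin α) (cos α)) + (M ^ 16)⁻¹ * Φ σ ^ 17) := by
        refine En_mono (h.mul g) (((Good.const _).mul g).add (by fun_prop)) fun σ => ?_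
        have k0 := h0 σ
        have k1 : 0 ≤ (M ^ 16)⁻¹ * Φ σ ^ 17 := by positivity
        unfold ind
        split_ifs
        · rcases le_total (Φ σ) M with k | k
          · linarith
          · have : Φ σ ≤ (M ^ 16)⁻¹ * Φ σ ^ 17 := by
              rw [le_inv_mul_iff₀ (by positivity), pow_succ _ 16]; gcongr
            linarith
        · linarith
    _ ≤ M * (2 * exp 41 * exp (-(17 / 18 * c ^ 2))) + (M ^ 16)⁻¹ * C := by
        rw [En_add ((Good.const _).mul g) (by fun_prop), En_mul, En_mul, e]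
        gcongr
        · exact ind_tail n hc
        · exact (le_abs_self _).trans (hC n).2
    _ = _ := by rw [e2, mul_left_comm, e1]; ring

noncomputable def hS (f : GF) (σ : S) (i : ℤ) : ℝ := σ.f (cos (f.φ i)) (sin (f.φ i))

lemma good_ln (f : GF) (i : ℤ) : Good fun σ => f.ln (hS f σ) i := by
  unfold GF.ln hS; fun_prop

lemma good_B (f : GF) : Good fun σ => f.B (hS f σ) (hS f σ) :=
  good_sumT _ fun _ => (Good.atom _ _).mul (good_ln _ _)

lemma good_B' (f : GF) (b : ℤ → ℝ) : Good fun σ => f.B (hS f σ) b :=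
  good_sumT _ fun _ => (Good.atom _ _).mul (Good.const _)

lemma th_rot (f : GF) (i : ℤ) (l s : ℝ) (σ : S) :
    th (cot (f.e i)) (-cot (f.e (i + 1))) l s
      (σ.rot (-sin (f.φ i)) (cos (f.φ i)) (cos (f.φ i)) (sin (f.φ i))) =
      cc (f.e i) (f.e (i + 1)) * max (s * f.ln (hS f σ) i - l) 0 ^ 2 := by
  have s1 := f.sin_pos i
  have s2 := f.sin_pos (i + 1)
  set τ := σ.rot (-sin (f.φ i)) (cos (f.φ i)) (cos (f.φ i)) (sin (f.φ i)) with hτ
  have k1 : τ.f (-1) (cot (f.e i)) = hS f σ (i - 1) / sin (f.e i) := by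
    rw [eq_div_iff s1.ne', mul_comm, ← τ.smul _ _ _ s1.le, hS, f.φ_pred, cos_sub, sin_sub,
      cot_eq_cos_div_sin, mul_div_cancel₀ _ s1.ne']
    simp only [hτ, S.rot]
    congr 1 <;> ring
  have k2 : τ.f 1 (- -cot (f.e (i + 1))) = hS f σ (i + 1) / sin (f.e (i + 1)) := by
    rw [eq_div_iff s2.ne', mul_comm, ← τ.smul _ _ _ s2.le, hS, f.φ_succ, cos_add, sin_add, neg_neg,
      cot_eq_cos_div_sin, mul_div_cancel₀ _ s2.ne']
    simp only [hτ, S.rot]
    congr 1 <;> ring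
  have k3 : τ.f 0 1 = hS f σ i := by simp [hτ, S.rot, hS]
  have k4 : cot (f.e i) - -cot (f.e (i + 1)) =
      sin (f.e i + f.e (i + 1)) / (sin (f.e i) * sin (f.e (i + 1))) := by
    rw [cot_eq_cos_div_sin, cot_eq_cos_div_sin, sin_add]; field_simp; ring
  have k5 : nm (cot (f.e i)) (-cot (f.e (i + 1))) l s τ = s * f.ln (hS f σ) i - l := by
    rw [nm, k1, k2, k3, GF.ln, cot_eq_cos_div_sin, cot_eq_cos_div_sin]; ring
  rw [th, k5, k4, cc, mul_div_assoc', div_div_eq_mul_div]; ring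

noncomputable def TT (f : GF) (b : ℤ → ℝ) (n : ℕ) (s : ℝ) : ℝ :=
  ∑ i ∈ Finset.range f.n, En n (th (cot (f.e i)) (-cot (f.e (i + 1))) (f.ln b i) s)

noncomputable def GN (f : GF) (n : ℕ) : ℝ := En n (fun σ => f.B (hS f σ) (hS f σ)) / 2

variable {f g : GF} {b c : ℤ → ℝ} {μ : ℝ}

lemma er_one (hf : Fine f b) (hμ : 0 < μ) (h1 : ∀ i, μ ≤ f.ln b i) : ∃ K, 0 ≤ K ∧
    ∀ (n : ℕ) (s : ℝ), 0 < s → |∫ y, er (f.set b) s y ∂nu n - (f.B b b / 2 -
      s * ((∑ i ∈ Finset.range f.n, f.ln b i) * En n fun σ => σ.f 0 1) + s ^ 2 * GN f n +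
      TT f b n s)| ≤ K * (1 + s ^ 2) * exp (-(2 * μ ^ 2 / s ^ 2)) := by
  have hD := GF.dom hf.pd hf.pos
  set V := volume.real (f.set b)
  have V0 : 0 ≤ V := measureReal_nonneg
  let Φ : S → ℝ := fun σ => V + |f.B b b| + |f.B (hS f σ) b| + |f.B (hS f σ) (hS f σ)| +
    ∑ i ∈ Finset.range f.n, |cc (f.e i) (f.e (i + 1))| * f.ln (hS f σ) i ^ 2
  have gΦ : Good Φ := (((Good.const _).add (good_B' f b).abs).add (good_B f).abs).add
    (good_sumT _ fun _ => (Good.const _).mul ((good_ln _ _).pow 2))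
  have Φ0 : ∀ σ, 0 ≤ Φ σ := fun σ => by positivity
  choose K hK using fun i : ℕ => tail_tool gΦ Φ0 (f.φ i)
  refine ⟨∑ i ∈ Finset.range f.n, |K i|, by positivity, fun n s hs => ?_⟩
  let A : ℕ → S → ℝ := fun i σ =>
    cc (f.e i) (f.e (i + 1)) * max (s * f.ln (hS f σ) i - f.ln b i) 0 ^ 2
  have gA : ∀ i, Good (A i) := fun i => (Good.const _).mul
    (((((Good.const _).mul (good_ln _ _)).sub (Good.const _)).max (Good.const _)).pow 2)
  let P : S → ℝ := fun σ => f.B b b / 2 - s * f.B (hS f σ) b +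
    s ^ 2 / 2 * f.B (hS f σ) (hS f σ) + ∑ i ∈ Finset.range f.n, A i σ
  have g1 := (Good.const s).mul (good_B' f b)
  have g2 := (Good.const (s ^ 2 / 2)).mul (good_B f)
  have g3 := (Good.const (f.B b b / 2)).sub g1
  have gP : Good P := (g3.add g2).add (good_sumT _ gA)
  have eP : En n P = f.B b b / 2 - s * ((∑ i ∈ Finset.range f.n, f.ln b i) *
      En n fun σ => σ.f 0 1) + s ^ 2 * GN f n + TT f b n s := by
    rw [En_add (g3.add g2) (good_sumT _ gA), En_add g3 g2, En_sub (Good.const _) g1, En_const,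
      En_mul, En_mul, En_sum _ gA, GN, TT, Finset.sum_mul]
    congr 2
    · congr 2
      refine (En_sum _ fun _ => (Good.atom _ _).mul (Good.const _)).trans
        (Finset.sum_congr rfl fun i _ => ?_)
      rw [← En_rot n (p := -sin (f.φ i)) (q := cos (f.φ i)) (r := cos (f.φ i)) (t := sin (f.φ i))
        (by simp) (by simp) (by ring) fun σ => σ.f 0 1, ← En_mul]
      simp [S.rot, mul_comm]
    · ring
    · ext i
      rw [← En_rot n (p := -sin (f.φ i)) (q := cos (f.φ i)) (r := cos (f.φ i)) (t := sin (f.φ i))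
        (by simp) (by simp) (by ring) (th _ _ _ _)]
      simp only [th_rot, A]
  have gI : ∀ i : ℕ, Good fun σ => Φ σ * ind (3 / 2 * μ / s) (σ.W (-sin (f.φ i)) (cos (f.φ i))) :=
    fun i => gΦ.mul (good_ind _ (Good.W _ _))
  have key : ∀ y : Fin n → E, ‖er (f.set b) s y - P (sp y)‖ ≤ (1 + s ^ 2) *
      ∑ i ∈ Finset.range f.n, Φ (sp y) * ind (3 / 2 * μ / s)
        ((sp y).W (-sin (f.φ i)) (cos (f.φ i))) := fun y => by
    have i0 : ∀ i ∈ Finset.range f.n, 0 ≤ Φ (sp y) * ind (3 / 2 * μ / s)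
        ((sp y).W (-sin (f.φ i)) (cos (f.φ i))) := fun i _ => mul_nonneg (Φ0 _) (ind_nonneg _ _)
    by_cases hW : ∀ i : ℕ, i < f.n → (sp y).W (-sin (f.φ i)) (cos (f.φ i)) < 3 / 2 * μ / s
    · rw [hf.loc h1 y hs.le fun i => ?_, GF.B_expand hf.pd (f.pd_hy y)]
      · refine le_trans (le_of_eq (norm_eq_zero.2 ?_))
          (mul_nonneg (by positivity) (Finset.sum_nonneg i0))
        simp only [P, A]
        change _ - (_ - s * f.B (f.hy y) b + s ^ 2 / 2 * f.B (f.hy y) (f.hy y) +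
          ∑ i ∈ Finset.range f.n, _ * max (s * f.ln (f.hy y) i - _) 0 ^ 2) = 0
        ring
      · obtain ⟨m, hm, k, rfl⟩ := f.exists_rep 0 i
        have := (lt_div_iff₀' hs).1 (hW m hm)
        simp only [sa, f.φ_mul, zero_add, cos_add_pi_div_two, sin_add_pi_div_two,
          cos_sub_pi_div_two, sin_sub_pi_div_two, cos_add_int_mul_two_pi, sin_add_int_mul_two_pi]
        simpa only [S.W, sp, neg_neg] using this.le
    · push Not at hW
      obtain ⟨i, hi, hW⟩ := hW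
      have k1 := Finset.single_le_sum i0 (Finset.mem_range.2 hi)
      rw [ind, if_pos hW, mul_one] at k1
      refine le_trans ?_ (mul_le_mul_of_nonneg_left k1 (by positivity))
      have k2 : |∑ i ∈ Finset.range f.n, A i (sp y)| ≤ s ^ 2 *
          ∑ i ∈ Finset.range f.n, |cc (f.e i) (f.e (i + 1))| * f.ln (hS f (sp y)) i ^ 2 := by
        rw [Finset.mul_sum]
        refine (Finset.abs_sum_le_sum_abs _ _).trans (Finset.sum_le_sum fun i _ => ?_)
        rw [abs_mul, mul_left_comm, ← mul_pow, ← sq_abs (s * _), abs_sq]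
        gcongr
        exact max_le (by linarith [le_abs_self (s * f.ln (hS f (sp y)) i), hf.pos i])
          (abs_nonneg _)
      have k3 : 0 ≤ er (f.set b) s y := measureReal_nonneg
      have k4 : er (f.set b) s y ≤ V := er_le hD s y
      have k5 : 0 ≤ ∑ i ∈ Finset.range f.n,
        |cc (f.e i) (f.e (i + 1))| * f.ln (hS f (sp y)) i ^ 2 := by positivity
      simp only [P, Φ, Real.norm_eq_abs]
      generalize f.B (hS f (sp y)) b = u at *
      generalize f.B (hS f (sp y)) (hS f (sp y)) = v at *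
      generalize f.B b b = w at *
      have k6 : s * |u| ≤ (1 + s ^ 2) * |u| := by gcongr; nlinarith
      have k7 := mul_le_mul_of_nonneg_left (le_abs_self u) hs.le
      have k8 := mul_le_mul_of_nonneg_left (neg_abs_le u) hs.le
      have k9 := mul_le_mul_of_nonneg_left (le_abs_self v) (sq_nonneg s)
      have k10 := mul_le_mul_of_nonneg_left (neg_abs_le v) (sq_nonneg s)
      have k11 := mul_nonneg (sq_nonneg s) (abs_nonneg v)
      have k12 := mul_nonneg (sq_nonneg s) (abs_nonneg w)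
      have k13 := mul_nonneg (sq_nonneg s) V0
      rw [abs_le] at k2 ⊢
      constructor <;> linarith [k2.1, k2.2, le_abs_self w, neg_abs_le w, abs_nonneg v, abs_nonneg w]
  rw [← eP, En, ← integral_sub (er_int hD s n) (gP.int n)]
  refine (norm_integral_le_of_norm_le (((Good.const _).mul (good_sumT _ gI)).int n)
    (Eventually.of_forall key)).trans ?_
  refine (En_mul (1 + s ^ 2) fun σ => ∑ i ∈ Finset.range f.n, Φ σ * ind (3 / 2 * μ / s)
    (σ.W (-sin (f.φ i)) (cos (f.φ i)))).trans_le ?_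
  rw [En_sum _ gI, mul_comm _ (1 + s ^ 2), mul_assoc, Finset.sum_mul]
  gcongr with i
  refine (hK i n _ (by positivity)).trans ?_
  rw [show 8 / 9 * (3 / 2 * μ / s) ^ 2 = 2 * μ ^ 2 / s ^ 2 by field_simp; ring]
  gcongr
  exact le_abs_self _

lemma Fine.cot_pos (hf : Fine f b) (i : ℤ) : 0 < cot (f.e i) := by
  rw [cot_eq_cos_div_sin]
  exact div_pos (by linarith [cos_quarter (f.e_pos i).le (hf.ang i)]) (f.sin_pos i)

lemma TT_le (hf : Fine f b) : ∃ C, 0 ≤ C ∧ ∀ (n : ℕ) (s : ℝ), 0 ≤ s → |TT f b n s| ≤ C * s ^ 4 := by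
  choose C C0 hC using fun i : ℕ => En_th_le (hf.cot_pos i) (neg_neg_of_pos (hf.cot_pos (i + 1)))
  refine ⟨∑ i ∈ Finset.range f.n, C i / f.ln b i ^ 2,
    Finset.sum_nonneg fun i _ => div_nonneg (C0 i) (sq_nonneg _), fun n s hs => ?_⟩
  rw [Finset.sum_mul]
  refine (Finset.abs_sum_le_sum_abs _ _).trans (Finset.sum_le_sum fun i _ => ?_)
  rw [abs_of_nonneg (En_nonneg (th_nonneg (by linarith [hf.cot_pos i, hf.cot_pos (i + 1)]) _ _)),
    div_mul_eq_mul_div]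
  exact hC i n _ _ (hf.pos i) hs

lemma TT_key (hf : Fine f b) (hg : Fine g c) (he : Iso (f.set b) (g.set c))
    (hp : ∑ i ∈ Finset.range f.n, f.ln b i = ∑ j ∈ Finset.range g.n, g.ln c j)
    (hμ : 0 < μ) (h1 : ∀ i, μ ≤ f.ln b i) (h2 : ∀ j, μ ≤ g.ln c j) : ∃ K, 0 ≤ K ∧
    ∀ ε > 0, ∀ τ > 0, ∀ T, ∀ᶠ n : ℕ in atTop, ∀ s ∈ Icc τ T,
      |TT f b n s - TT g c n s| ≤ ε + K * (1 + s ^ 2) * exp (-(2 * μ ^ 2 / s ^ 2)) := by
  obtain ⟨K1, p1, hK1⟩ := er_one hf hμ h1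
  obtain ⟨K2, p2, hK2⟩ := er_one hg hμ h2
  obtain ⟨C1, q1, hC1⟩ := TT_le hf
  obtain ⟨C2, q2, hC2⟩ := TT_le hg
  have hD := GF.dom hf.pd hf.pos
  have hD' := GF.dom hg.pd hg.pos
  have hA := area_eq hD hD' he
  rw [GF.area hf.pd fun i => (hf.pos i).le, GF.area hg.pd fun i => (hg.pos i).le] at hA
  have base : ∀ (n : ℕ) (s : ℝ), 0 < s → |∫ y, er (f.set b) s y ∂nu n -
      ∫ y, er (g.set c) s y ∂nu n - (s ^ 2 * (GN f n - GN g n) + (TT f b n s - TT g c n s))| ≤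
      (K1 + K2) * (1 + s ^ 2) * exp (-(2 * μ ^ 2 / s ^ 2)) := fun n s hs => by
    have a1 := abs_le.1 (hK1 n s hs)
    have a2 := abs_le.1 (hK2 n s hs)
    rw [hA, hp] at a1
    rw [abs_le]
    constructor <;> linarith [a1.1, a1.2, a2.1, a2.2]
  have hG : ∀ η > 0, ∀ᶠ n : ℕ in atTop, |GN f n - GN g n| ≤ η := fun η hη => by
    set C := C1 + C2 + (K1 + K2) / μ ^ 4 + 1 with hC
    have C0 : 0 < C := by positivity
    set s := min 1 (η / (2 * C))
    have s0 : 0 < s := by positivity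
    have s1 : s ≤ 1 := min_le_left _ _
    have s2 : s * (2 * C) ≤ η := (le_div_iff₀ (by positivity)).1 (min_le_right _ _)
    filter_upwards [er_unif hD hD' he s0 s (show 0 < η * s ^ 2 / 2 by positivity)] with n hn
    have a1 := abs_le.1 (hn s ⟨le_rfl, le_rfl⟩)
    have a2 := abs_le.1 (hC1 n s s0.le)
    have a3 := abs_le.1 (hC2 n s s0.le)
    have a4 : exp (-(2 * μ ^ 2 / s ^ 2)) ≤ s ^ 4 / (2 * μ ^ 4) := by
      rw [exp_neg, ← inv_div (2 * μ ^ 4)]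
      refine inv_anti₀ (by positivity)
        (le_trans ?_ (quadratic_le_exp_of_nonneg (x := 2 * μ ^ 2 / s ^ 2) (by positivity)))
      rw [show (2 * μ ^ 2 / s ^ 2) ^ 2 / 2 = 2 * μ ^ 4 / s ^ 4 by field_simp]
      exact le_add_of_nonneg_left (by positivity)
    have a5 : (K1 + K2) * (1 + s ^ 2) * exp (-(2 * μ ^ 2 / s ^ 2)) ≤ (K1 + K2) / μ ^ 4 * s ^ 4 :=
      calc _ ≤ (K1 + K2) * (1 + 1 ^ 2) * (s ^ 4 / (2 * μ ^ 4)) := by gcongr
        _ = _ := by field_simp; ring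
    have a6 := abs_le.1 ((base n s s0).trans a5)
    have a7 : C * s ^ 4 ≤ η * s ^ 2 / 2 := by
      have : C * s ^ 2 ≤ η / 2 := by nlinarith [mul_le_mul_of_nonneg_left s1 (mul_pos C0 s0).le]
      nlinarith [mul_le_mul_of_nonneg_right this (sq_nonneg s)]
    have a8 : |s ^ 2 * (GN f n - GN g n)| ≤ s ^ 2 * η := by
      have := pow_pos s0 4
      rw [hC] at a7
      rw [abs_le]
      constructor <;> linarith [a1.1, a1.2, a2.1, a2.2, a3.1, a3.2, a6.1, a6.2]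
    rw [abs_mul, abs_of_pos (pow_pos s0 2)] at a8
    exact le_of_mul_le_mul_left a8 (pow_pos s0 2)
  refine ⟨K1 + K2, by positivity, fun ε hε τ hτ T => ?_⟩
  filter_upwards [er_unif hD hD' he hτ T (half_pos hε),
    hG (ε / (2 * (T ^ 2 + 1))) (by positivity)] with n a1 a2 s hs
  have s0 := hτ.trans_le hs.1
  have a3 := abs_le.1 (a1 s hs)
  have a4 := abs_le.1 (base n s s0)
  have a5 : |s ^ 2 * (GN f n - GN g n)| ≤ ε / 2 := by
    have := pow_le_pow_left₀ s0.le hs.2 2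
    rw [abs_mul, abs_of_pos (pow_pos s0 2)]
    calc _ ≤ (T ^ 2 + 1) * (ε / (2 * (T ^ 2 + 1))) := by gcongr; linarith
      _ = _ := by field_simp
  rw [abs_le] at a5 ⊢
  constructor <;> linarith [a3.1, a3.2, a4.1, a4.2, a5.1, a5.2]

lemma Lt_TT (f : GF) (b : ℤ → ℝ) {h z : ℝ} (hh : 0 < h) (hz : 0 < z) (n : ℕ) :
    ∑ i ∈ Finset.range f.n, Lt h (cot (f.e i)) (-cot (f.e (i + 1))) (f.ln b i * z) n =
      h * exp (-tm h n) * ((4 * π * tm h n ^ 2)⁻¹ * (z ^ 2 * TT f b n (√(tm h n) / z))) := by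
  simp only [TT, Finset.mul_sum]
  refine Finset.sum_congr rfl fun i _ => ?_
  rw [Lt_eq hh, ← En_mul (z ^ 2)]
  congr 3; ext σ
  rw [th, th, ← mul_div_assoc, ← mul_pow, mul_max_of_nonneg _ _ hz.le, mul_zero, nm, nm]
  congr 3
  field_simp

lemma term_le {t z F C K : ℝ} (hμ : 0 < μ) (ht : 0 < t) (hz : 1 ≤ z) (hC : 0 ≤ C) (hK : 0 ≤ K)
    {X : ℝ} (hX : X = exp (-(5 / 2 * μ * z))) (h1 : |F| ≤ C * (√t / z) ^ 4)
    (h2 : X ≤ t → t ≤ 5 * μ * z →
      |F| ≤ X ^ 3 / z ^ 2 + K * (1 + (√t / z) ^ 2) * exp (-(2 * μ ^ 2 / (√t / z) ^ 2))) :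
    exp (-t) * ((4 * π * t ^ 2)⁻¹ * (z ^ 2 * |F|)) ≤ C * exp 1 * exp (-(X⁻¹ * t)) +
      (C + 1 + K * (8 / μ ^ 2 + 128 / μ ^ 4)) * X * exp (-(1 / 6 * t)) := by
  have X0 : 0 < X := hX ▸ exp_pos _
  have z0 : 0 < z := by linarith
  have e1 : (√t / z) ^ 2 = t / z ^ 2 := by rw [div_pow, sq_sqrt ht.le]
  rw [show (√t / z) ^ 4 = ((√t / z) ^ 2) ^ 2 by ring] at h1
  rw [e1] at h1 h2
  have k0 : (4 * π * t ^ 2)⁻¹ ≤ (t ^ 2)⁻¹ :=
    inv_anti₀ (by positivity) (le_mul_of_one_le_left (sq_nonneg _) (by linarith [pi_gt_three]))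
  have k1 : (4 * π * t ^ 2)⁻¹ * (z ^ 2 * |F|) ≤ C :=
    calc _ ≤ (t ^ 2)⁻¹ * (z ^ 2 * (C * (t / z ^ 2) ^ 2)) := by gcongr
      _ = C / z ^ 2 := by field_simp
      _ ≤ C := div_le_self hC (one_le_pow₀ hz)
  have p1 : 0 ≤ C * exp 1 * exp (-(X⁻¹ * t)) := by positivity
  have p2 : 0 < X * exp (-(1 / 6 * t)) := by positivity
  have p3 : 0 ≤ K * (8 / μ ^ 2 + 128 / μ ^ 4) := by positivity
  rw [mul_assoc _ X]
  rcases lt_or_ge t X with a1 | a1
  · have k2 : exp (-t) ≤ exp 1 * exp (-(X⁻¹ * t)) := by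
      rw [← exp_add, exp_le_exp]
      linarith [(inv_mul_lt_one₀ X0).2 a1]
    refine le_add_of_le_of_nonneg ?_ (by positivity)
    rw [mul_comm, mul_assoc C]
    gcongr
  rcases lt_or_ge (5 * μ * z) t with a2 | a2
  · have k2 : exp (-t) ≤ X * exp (-(1 / 6 * t)) := by
      rw [hX, ← exp_add, exp_le_exp]
      linarith
    refine le_add_of_nonneg_of_le p1 ?_
    rw [mul_comm]
    gcongr
    linarith
  obtain ⟨u, hu⟩ : ∃ u, u = z ^ 2 / t := ⟨_, rfl⟩
  have u0 : 0 < u := by rw [hu]; positivity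
  have u1 : u * t = z ^ 2 := by rw [hu]; field_simp
  have k2 := h2 a1 a2
  rw [show 2 * μ ^ 2 / (t / z ^ 2) = μ ^ 2 * u / 8 + 15 / 8 * μ ^ 2 * u by
    rw [hu]; field_simp; ring, neg_add, exp_add] at k2
  have k3 : (t ^ 2)⁻¹ * (z ^ 2 * (X ^ 3 / z ^ 2)) ≤ X := by
    rw [mul_div_cancel₀ _ (by positivity), inv_mul_le_iff₀ (by positivity), pow_succ]
    gcongr
  have k4 : (t ^ 2)⁻¹ * (z ^ 2 * (1 + t / z ^ 2)) * exp (-(μ ^ 2 * u / 8)) ≤
      8 / μ ^ 2 + 128 / μ ^ 4 := by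
    rw [exp_neg, mul_inv_le_iff₀ (exp_pos _)]
    have b1 := quadratic_le_exp_of_nonneg (show 0 ≤ μ ^ 2 * u / 8 by positivity)
    have b2 : u ≤ 8 / μ ^ 2 * exp (μ ^ 2 * u / 8) := by
      rw [div_mul_eq_mul_div, le_div_iff₀ (by positivity)]
      nlinarith [sq_nonneg (μ ^ 2 * u / 8)]
    have b3 : u ^ 2 ≤ 128 / μ ^ 4 * exp (μ ^ 2 * u / 8) := by
      rw [div_mul_eq_mul_div, le_div_iff₀ (by positivity)]
      nlinarith [mul_pos (pow_pos hμ 2) u0]
    calc _ = (u + u ^ 2) / z ^ 2 := by rw [hu]; field_simp; ring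
      _ ≤ u + u ^ 2 := div_le_self (by positivity) (one_le_pow₀ hz)
      _ ≤ _ := by linarith
  have k5 : exp (-t) * exp (-(15 / 8 * μ ^ 2 * u)) ≤ X * exp (-(1 / 6 * t)) := by
    rw [hX, ← exp_add, ← exp_add, exp_le_exp]
    refine le_of_mul_le_mul_right ?_ ht
    nlinarith [sq_nonneg (t - 3 / 2 * μ * z)]
  have k6 : exp (-t) ≤ exp (-(1 / 6 * t)) := exp_le_exp.2 (by linarith)
  refine le_add_of_nonneg_of_le p1 ?_
  calc _ ≤ exp (-t) * ((t ^ 2)⁻¹ * (z ^ 2 * (X ^ 3 / z ^ 2 + K * (1 + t / z ^ 2) *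
        (exp (-(μ ^ 2 * u / 8)) * exp (-(15 / 8 * μ ^ 2 * u)))))) := by gcongr
    _ = (t ^ 2)⁻¹ * (z ^ 2 * (X ^ 3 / z ^ 2)) * exp (-t) +
        K * ((t ^ 2)⁻¹ * (z ^ 2 * (1 + t / z ^ 2)) * exp (-(μ ^ 2 * u / 8))) *
          (exp (-t) * exp (-(15 / 8 * μ ^ 2 * u))) := by ring
    _ ≤ X * exp (-(1 / 6 * t)) + K * (8 / μ ^ 2 + 128 / μ ^ 4) * (X * exp (-(1 / 6 * t))) := by
        gcongr
    _ ≤ _ := by nlinarith [mul_nonneg hC p2.le]

theorem Lap_iso {f g : GF} {b c : ℤ → ℝ} (hf : Fine f b) (hg : Fine g c)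
    (he : Iso (f.set b) (g.set c))
    (hp : ∑ i ∈ Finset.range f.n, f.ln b i = ∑ j ∈ Finset.range g.n, g.ln c j) {μ : ℝ}
    (hμ : 0 < μ) (h1 : ∀ i, μ ≤ f.ln b i) (h2 : ∀ j, μ ≤ g.ln c j) :
    (fun z => ∑ i ∈ Finset.range f.n, Lap (cot (f.e i)) (-cot (f.e (i + 1))) (f.ln b i * z) -
      ∑ j ∈ Finset.range g.n, Lap (cot (g.e j)) (-cot (g.e (j + 1))) (g.ln c j * z))
      =O[atTop] fun z => exp (-(5 / 2 * μ * z)) := by
  obtain ⟨K, K0, hK⟩ := TT_key hf hg he hp hμ h1 h2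
  obtain ⟨C1, q1, hC1⟩ := TT_le hf
  obtain ⟨C2, q2, hC2⟩ := TT_le hg
  set A := (C1 + C2) * exp 1 with hA
  set B := C1 + C2 + 1 + K * (8 / μ ^ 2 + 128 / μ ^ 4) with hB
  refine IsBigO.of_bound (A + 6 * B) ?_
  filter_upwards [eventually_ge_atTop 1, eventually_ge_atTop (1 / 2 / μ)] with z hz hz2
  have z0 : 0 < z := by linarith
  have z1 : ∀ l, μ ≤ l → 1 / 2 ≤ l * z := fun l hl =>
    ((div_le_iff₀' hμ).1 hz2).trans (by gcongr)
  rw [Real.norm_of_nonneg (exp_pos _).le]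
  obtain ⟨X, hX⟩ : ∃ X, X = exp (-(5 / 2 * μ * z)) := ⟨_, rfl⟩
  have X0 : 0 < X := hX ▸ exp_pos _
  rw [← hX]
  refine le_of_tendsto ((tendsto_finsetSum _ fun i _ => Lh_lim (hf.cot_pos _)
    (neg_neg_of_pos (hf.cot_pos _)) (z1 _ (h1 _))).sub (tendsto_finsetSum _ fun i _ =>
      Lh_lim (hg.cot_pos _) (neg_neg_of_pos (hg.cot_pos _)) (z1 _ (h2 _)))).norm ?_
  obtain ⟨N, hN⟩ := eventually_atTop.1 (hK (X ^ 3 / z ^ 2) (by positivity) (√X / z)
    (by positivity) (√(5 * μ * z) / z))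
  filter_upwards [Nat.hyperfilter_le_atTop (tendsto_one_div_add_atTop_nhds_zero_nat.eventually
    (ge_mem_nhds (show 0 < X / (N + 1) by positivity)))] with k hk1
  have hh := hk_mem k
  change hk k ≤ _ at hk1
  generalize hk k = h at hh hk1
  obtain ⟨g1, g2⟩ := geoT hh.1 (inv_pos.2 X0)
  obtain ⟨g3, g4⟩ := geoT hh.1 (c := 1 / 6) (by norm_num)
  refine (((hasSum_sum fun i _ => (Lt_sum (hf.cot_pos _) (neg_neg_of_pos (hf.cot_pos _)) hh
    (z1 _ (h1 _))).hasSum).sub (hasSum_sum fun i _ => (Lt_sum (hg.cot_pos _)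
      (neg_neg_of_pos (hg.cot_pos _)) hh (z1 _ (h2 _))).hasSum)).norm_le_of_bounded
    ((g1.hasSum.mul_left A).add (g3.hasSum.mul_left (B * X))) fun n => ?_).trans ?_
  · have h0 := hh.1
    have t0 := tm_pos h0 n
    have := term_le (F := TT f b n (√(tm h n) / z) - TT g c n (√(tm h n) / z)) hμ t0 hz
      (add_nonneg q1 q2) K0 hX ((abs_sub _ _).trans (by
        linarith [hC1 n _ (show 0 ≤ √(tm h n) / z by positivity),
          hC2 n _ (show 0 ≤ √(tm h n) / z by positivity)])) fun a1 a2 =>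
      hN n (by
        have a3 := (le_div_iff₀ (by positivity)).1 hk1
        have a4 : (N : ℝ) + 1 ≤ n + 1 := le_of_mul_le_mul_left (a3.trans (a1.trans_eq
          (mul_comm _ _))) h0
        exact_mod_cast le_of_add_le_add_right a4) _ ⟨by gcongr, by gcongr⟩
    rw [Lt_TT f b h0 z0, Lt_TT g c h0 z0, ← mul_sub, ← mul_sub, ← mul_sub, Real.norm_eq_abs,
      abs_mul (h * _), abs_mul _ (_ * _), abs_mul (z ^ 2), abs_of_pos (by positivity),
      abs_of_pos (by positivity), abs_of_pos (pow_pos z0 2), mul_assoc]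
    exact (mul_le_mul_of_nonneg_left this h0.le).trans (le_of_eq (by ring))
  · calc _ ≤ A * (1 / X⁻¹) + B * X * (1 / (1 / 6)) := by gcongr
      _ = _ := by field_simp

end Pool.Agent.Lib.MP_c1b9d3_an
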