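import Pool.Agent.Lib.MP_c1b9d3_an.QL
import Pool.Agent.Lib.MP_c1b9d3_an.QG
import Pool.Agent.Lib.MP_c1b9d3_an.QT

namespace Pool.Agent.Lib.MP_c1b9d3_an

open MeasureTheory Real Filter Topology Set Pool.Agent.Lib.MP_2d4879_an
open scoped ENNReal InnerProductSpace

noncomputable def qe (h : ℝ) (u v : E) : ℝ := exp (-h) * qk h u v

noncomputable def Qh (h : ℝ) (a v : E) : ℝ≥0∞ :=
  Hh.indicator (fun v => ENNReal.ofReal (qe h a v)) v

noncomputable def Pr (h : ℝ) (W : Set E) (u v : E) : ℝ := (PP (Qh h) W u v).toReal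

noncomputable def TK (h : ℝ) (W : Set E) (b : E → ℂ) (v : E) : ℂ :=
  b v - ∫ u in W, b u * Pr h W u v

variable {h : ℝ} {W : Set E}

lemma ms_Hh : MeasurableSet Hh := measurableSet_lt (by fun_prop) measurable_const

@[fun_prop] lemma cont_bar : Continuous bar := by unfold bar; fun_prop

@[fun_prop] lemma cont_qe (h : ℝ) {X : Type} [TopologicalSpace X] {f g : X → E}
    (hf : Continuous f) (hg : Continuous g) : Continuous fun p => qe h (f p) (g p) := by
  unfold qe qk; fun_prop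

lemma meas_Qh (h : ℝ) : Measurable (Function.uncurry (Qh h)) :=
  Measurable.indicator (f := fun p : E × E => ENNReal.ofReal (qe h p.1 p.2))
    (Continuous.measurable (by fun_prop : Continuous fun p : E × E => qe h p.1 p.2)).ennreal_ofReal
    (measurable_snd ms_Hh)

lemma qe_le (hh : 0 < h) (u v : E) : qe h u v ≤ exp (-h) * pk h (u - v) :=
  mul_le_mul_of_nonneg_left (sub_le_self _ (pk_pos hh _).le) (exp_pos _).le

lemma qe_nonneg (hh : 0 < h) {u v : E} (hu : u ∈ Hh) (hv : v ∈ Hh) : 0 ≤ qe h u v :=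
  mul_nonneg (exp_pos _).le (qk_nonneg hh hu hv)

lemma Qh_le (hh : 0 < h) (a v : E) : Qh h a v ≤ ENNReal.ofReal (exp (-h)) * pe h (a - v) := by
  refine (indicator_le_self _ _ v).trans ?_
  rw [pe, ← ENNReal.ofReal_mul (exp_pos _).le]
  exact ENNReal.ofReal_le_ofReal (qe_le hh a v)

lemma Pn_le (hh : 0 < h) (n : ℕ) (b : E) : ∀ a, Pn (Qh h) W n a b ≤
    ENNReal.ofReal (exp (-tm h n)) * pe (tm h n) (a - b) := by
  induction n with
  | zero => intro a; simpa [tm, Pn] using Qh_le hh a b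
  | succ n ih =>
    intro a
    have e : tm h (n + 1) = h + tm h n := by unfold tm; push_cast; ring
    calc _ ≤ ∫⁻ y, ENNReal.ofReal (exp (-h)) * ENNReal.ofReal (exp (-tm h n)) *
          (pe h (a - y) * pe (tm h n) (y - b)) := by
          refine (setLIntegral_le_lintegral _ _).trans (lintegral_mono fun y => ?_)
          exact (mul_le_mul' (Qh_le hh a y) (ih y)).trans (mul_mul_mul_comm _ _ _ _).le
      _ = _ := by
          rw [lintegral_const_mul' _ _ (by finiteness), pe_ck hh (tm_pos hh n),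
            ← ENNReal.ofReal_mul (exp_pos _).le, ← exp_add, e, neg_add]

lemma geo_fin {c : ℝ} (hc : 0 < c) (hh : 0 < h) :
    ∑' n : ℕ, ENNReal.ofReal (exp (-(c * tm h n))) ≠ ∞ := by
  have h1 : Summable fun n : ℕ => exp (-(c * h)) ^ (n + 1) :=
    (summable_nat_add_iff 1).2 (summable_geometric_of_lt_one (exp_pos _).le
      (exp_lt_one_iff.2 (neg_neg_of_pos (mul_pos hc hh))))
  have e : ∀ n : ℕ, exp (-(c * tm h n)) = exp (-(c * h)) ^ (n + 1) := fun n => by
    rw [← exp_nat_mul, tm]; congr 1; push_cast; ring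
  simp_rw [e]
  rw [← ENNReal.ofReal_tsum_of_nonneg (fun n => by positivity) h1]
  exact ENNReal.ofReal_ne_top

lemma PP_fin (hh : 0 < h) (a b : E) : PP (Qh h) W a b ≠ ∞ := by
  refine ne_top_of_le_ne_top (ENNReal.mul_ne_top (geo_fin one_pos hh)
    (ENNReal.ofReal_ne_top (r := (4 * π * h)⁻¹))) ?_
  rw [← ENNReal.tsum_mul_right]
  refine ENNReal.tsum_le_tsum fun n => (Pn_le hh n b a).trans ?_
  rw [one_mul]
  refine mul_le_mul_right (ENNReal.ofReal_le_ofReal ((pk_le (tm_pos hh n) _).trans ?_)) _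
  have : h ≤ tm h n := le_mul_of_one_le_left hh.le (by simp)
  gcongr

lemma PP_tilt (hh : 0 < h) {V : E} (hV : ‖V‖ ^ 2 < 1) : ∃ C ≠ ∞, ∀ W v,
    ∫⁻ u, PP (Qh h) W u v * ENNReal.ofReal (exp ⟪V, u⟫_ℝ) ≤ C * ENNReal.ofReal (exp ⟪V, v⟫_ℝ) ∧
    ∫⁻ u, PP (Qh h) W v u * ENNReal.ofReal (exp ⟪V, u⟫_ℝ) ≤ C * ENNReal.ofReal (exp ⟪V, v⟫_ℝ) := by
  refine ⟨_, geo_fin (sub_pos.2 hV) hh, fun W v => ?_⟩
  have key : ∀ F : E → ℝ≥0∞, (∀ u, F u ≤ ∑' n, ENNReal.ofReal (exp (-tm h n)) *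
      pe (tm h n) (v - u)) → ∫⁻ u, F u * ENNReal.ofReal (exp ⟪V, u⟫_ℝ) ≤
      (∑' n : ℕ, ENNReal.ofReal (exp (-((1 - ‖V‖ ^ 2) * tm h n)))) *
        ENNReal.ofReal (exp ⟪V, v⟫_ℝ) := fun F hF => by
    refine (lintegral_mono fun u => mul_le_mul_left (hF u) _).trans (le_of_eq ?_)
    simp_rw [← ENNReal.tsum_mul_right]
    rw [lintegral_tsum fun n => Measurable.aemeasurable (by fun_prop)]
    congr 1; ext n
    simp_rw [mul_assoc]
    rw [lintegral_const_mul' _ _ ENNReal.ofReal_ne_top, lint_tilt (tm_pos hh n),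
      ← ENNReal.ofReal_mul (exp_pos _).le, ← ENNReal.ofReal_mul (exp_pos _).le, ← exp_add,
      ← exp_add]
    congr 2; ring
  refine ⟨key _ fun u => ENNReal.tsum_le_tsum fun n => (Pn_le hh n v u).trans (le_of_eq ?_),
    key _ fun u => ENNReal.tsum_le_tsum fun n => Pn_le hh n u v⟩
  rw [pe, pe, pk_sub_comm]

@[fun_prop] lemma meas_PP (h : ℝ) (W : Set E) {X : Type} [MeasurableSpace X] {f g : X → E}
    (hf : Measurable f) (hg : Measurable g) : Measurable fun p => PP (Qh h) W (f p) (g p) :=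
  (PP_meas (meas_Qh h)).comp (hf.prodMk hg)

@[fun_prop] lemma meas_Pr (h : ℝ) (W : Set E) {X : Type} [MeasurableSpace X] {f g : X → E}
    (hf : Measurable f) (hg : Measurable g) : Measurable fun p => Pr h W (f p) (g p) :=
  (meas_PP h W hf hg).ennreal_toReal

lemma enorm_Pr (hh : 0 < h) (u v : E) : ‖(Pr h W u v : ℂ)‖ₑ = PP (Qh h) W u v := by
  rw [← ofReal_norm, Complex.norm_real, Pr, Real.norm_of_nonneg ENNReal.toReal_nonneg,
    ENNReal.ofReal_toReal (PP_fin hh u v)]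

lemma enorm_qe (hh : 0 < h) {u v : E} (hu : u ∈ Hh) (hv : v ∈ Hh) :
    ‖(qe h u v : ℂ)‖ₑ = Qh h u v := by
  rw [← ofReal_norm, Complex.norm_real, Real.norm_of_nonneg (qe_nonneg hh hu hv), Qh,
    indicator_of_mem hv]

lemma Pr_eq (hh : 0 < h) (hW : MeasurableSet W) {u v : E} (hu : u ∈ Hh) (hv : v ∈ Hh) :
    Pr h W u v = qe h u v + ∫ y in Hh \ W, qe h u y * Pr h W y v := by
  have h1 := PP_eq (B := W) (meas_Qh h) u v
  have h2 : ∫⁻ y in Wᶜ, Qh h u y * PP (Qh h) W y v =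
      ∫⁻ y in Hh \ W, ENNReal.ofReal (qe h u y * Pr h W y v) := by
    rw [Set.sdiff_eq, ← Measure.restrict_restrict ms_Hh, ← lintegral_indicator ms_Hh]
    congr 1; ext y
    by_cases hy : y ∈ Hh
    · rw [indicator_of_mem hy, Qh, indicator_of_mem hy, ENNReal.ofReal_mul (qe_nonneg hh hu hy), Pr,
        ENNReal.ofReal_toReal (PP_fin hh _ _)]
    · rw [indicator_of_notMem hy, Qh, indicator_of_notMem hy, zero_mul]
  have h3 := PP_fin (W := W) hh u v
  rw [h1] at h3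
  rw [Pr, h1, ENNReal.toReal_add (ENNReal.add_ne_top.1 h3).1 (ENNReal.add_ne_top.1 h3).2, h2, Qh,
    indicator_of_mem hv, ENNReal.toReal_ofReal (qe_nonneg hh hu hv),
    integral_eq_lintegral_of_nonneg_ae _ (Measurable.aestronglyMeasurable (by fun_prop))]
  filter_upwards [ae_restrict_mem (ms_Hh.diff hW)] with y hy
  exact mul_nonneg (qe_nonneg hh hu hy.1) ENNReal.toReal_nonneg

/-- Growth condition on the half plane. -/
def Gr (b : E → ℂ) : Prop :=
  Measurable b ∧ ∃ C ≠ ∞, ∀ u ∈ Hh, ‖b u‖ₑ ≤ C * ENNReal.ofReal (exp ⟪(!₂[0, -(47 / 50)] : E), u⟫_ℝ)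

lemma nV : ‖(!₂[0, -(47 / 50)] : E)‖ ^ 2 < 1 := by rw [nsq]; norm_num

lemma Gr.int {b : E → ℂ} (hb : Gr b) (hh : 0 < h) (W : Set E) (v : E) :
    IntegrableOn (fun u => b u * Pr h W u v) Hh := by
  obtain ⟨hm, C, hC, hb⟩ := hb
  obtain ⟨D, hD, h1⟩ := PP_tilt hh nV
  refine ⟨Measurable.aestronglyMeasurable (by fun_prop), ?_⟩
  refine lt_of_le_of_lt (setLIntegral_mono' ms_Hh (g := fun u => C * (PP (Qh h) W u v *
    ENNReal.ofReal (exp ⟪(!₂[0, -(47 / 50)] : E), u⟫_ℝ))) fun u hu => ?_) ?_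
  · rw [enorm_mul, enorm_Pr hh, mul_comm (PP _ _ _ _), ← mul_assoc]
    exact mul_le_mul_left (hb u hu) _
  · refine (setLIntegral_le_lintegral _ _).trans_lt ?_
    rw [lintegral_const_mul' _ _ hC]
    exact ENNReal.mul_lt_top hC.lt_top ((h1 W v).1.trans_lt (by finiteness))

lemma Gr.lint {b : E → ℂ} (hb : Gr b) (hh : 0 < h) : ∃ C ≠ ∞, ∀ y ∈ Hh,
    ∫⁻ u in Hh, ‖b u * qe h u y‖ₑ ≤ C * ENNReal.ofReal (exp ⟪(!₂[0, -(47 / 50)] : E), y⟫_ℝ) := by
  obtain ⟨hm, C, hC, hb⟩ := hb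
  refine ⟨C * ENNReal.ofReal (exp (h * ‖(!₂[0, -(47 / 50)] : E)‖ ^ 2)), by finiteness,
    fun y hy => ?_⟩
  refine (setLIntegral_mono' ms_Hh (g := fun u => C * (pe h (y - u) *
    ENNReal.ofReal (exp ⟪(!₂[0, -(47 / 50)] : E), u⟫_ℝ))) fun u hu => ?_).trans ?_
  · rw [enorm_mul, enorm_qe hh hu hy, mul_comm (pe _ _), ← mul_assoc]
    refine mul_le_mul' (hb u hu) ((Qh_le hh u y).trans ?_)
    rw [pe, pe, pk_sub_comm]
    exact mul_le_of_le_one_left' (ENNReal.ofReal_le_one.2 (exp_le_one_iff.2 (by linarith)))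
  · refine (setLIntegral_le_lintegral _ _).trans (le_of_eq ?_)
    rw [lintegral_const_mul' _ _ hC, lint_tilt hh, add_comm, exp_add, ENNReal.ofReal_mul (exp_pos _).le,
      mul_assoc]

theorem TT_src (hh : 0 < h) (hW : MeasurableSet W) (hWH : W ⊆ Hh) {b f : E → ℂ} (hb : Gr b)
    (hf : ∀ v, b v = f v + ∫ u in Hh, b u * qe h u v) {v : E} (hv : v ∈ Hh) :
    TK h W b v = f v + ∫ u in Hh \ W, f u * Pr h W u v := by
  obtain ⟨C, hC, h1⟩ := hb.lint hh
  obtain ⟨D, hD, h2⟩ := PP_tilt hh nV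
  have hm := hb.1
  have i0 : ∀ y ∈ Hh, IntegrableOn (fun u => b u * qe h u y) Hh := fun y hy =>
    ⟨Measurable.aestronglyMeasurable (hm.mul (Continuous.measurable (by fun_prop))),
      (h1 y hy).trans_lt (by finiteness)⟩
  have m1 : Measurable fun p : E × E => b p.1 * qe h p.1 p.2 * Pr h W p.2 v :=
    ((hm.comp measurable_fst).mul (Continuous.measurable (by fun_prop))).mul (by fun_prop)
  have i1 : Integrable (fun p : E × E => b p.1 * qe h p.1 p.2 * Pr h W p.2 v)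
      ((volume.restrict Hh).prod (volume.restrict (Hh \ W))) := by
    refine ⟨m1.aestronglyMeasurable, ?_⟩
    rw [HasFiniteIntegral, lintegral_prod_symm _ m1.enorm.aemeasurable]
    refine lt_of_le_of_lt (setLIntegral_mono' (ms_Hh.diff hW) (g := fun u => C * (PP (Qh h) W u v *
      ENNReal.ofReal (exp ⟪(!₂[0, -(47 / 50)] : E), u⟫_ℝ))) fun y hy => ?_) ?_
    · simp_rw [enorm_mul _ (Pr h W y v : ℂ)]
      rw [lintegral_mul_const' _ _ enorm_ne_top, enorm_Pr hh, mul_comm (PP _ _ _ _), ← mul_assoc]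
      exact mul_le_mul_left (h1 y hy.1) _
    · refine (setLIntegral_le_lintegral _ _).trans_lt ?_
      rw [lintegral_const_mul' _ _ hC]
      exact ENNReal.mul_lt_top hC.lt_top ((h2 W v).1.trans_lt (by finiteness))
  have i2 := hb.int hh W v
  have e1 : ∫ u in Hh, b u * Pr h W u v = (∫ u in Hh, b u * qe h u v) +
      ∫ u in Hh, ∫ y in Hh \ W, b u * qe h u y * Pr h W y v := by
    rw [← integral_add (i0 v hv) i1.integral_prod_left]
    refine setIntegral_congr_fun ms_Hh fun u hu => ?_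
    simp only
    rw [Pr_eq hh hW hu hv, Complex.ofReal_add, mul_add, ← integral_complex_ofReal,
      ← integral_const_mul]
    simp [mul_assoc]
  have e2 : ∀ y, ∫ u in Hh, b u * qe h u y * Pr h W y v =
      b y * Pr h W y v - f y * Pr h W y v := fun y => by
    rw [integral_mul_const, ← sub_mul, hf y, add_sub_cancel_left]
  have i3 := i1.integral_prod_right
  simp only [e2] at i3
  have i4 := i2.mono_set (sdiff_subset (t := W))
  have i5 : IntegrableOn (fun y => f y * Pr h W y v) (Hh \ W) :=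
    (i4.sub i3).congr (Eventually.of_forall fun y => by simp)
  rw [integral_integral_swap i1] at e1
  simp only [e2] at e1
  rw [integral_sub i4 i5, setIntegral_sdiff hW i2 hWH] at e1
  rw [TK]
  linear_combination hf v - e1

end Pool.Agent.Lib.MP_c1b9d3_an
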