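import Pool.Agent.Lib.MP_c1b9d3_an.QK1

namespace Pool.Agent.Lib.MP_c1b9d3_an

open MeasureTheory Real Filter Topology Set Pool.Agent.Lib.MP_2d4879_an
open scoped ENNReal InnerProductSpace

def Wg (ε c k : ℝ) : Set E := {p | p 1 < 0 ∧ -(k * p 1) ≤ ε * (p 0 - c)}

variable {h ε c c' k k' z : ℝ} {l e : ℂ}

lemma ms_Wg (ε c k : ℝ) : MeasurableSet (Wg ε c k) :=
  ms_Hh.inter (measurableSet_le (f := fun p : E => -(k * p 1)) (g := fun p : E => ε * (p 0 - c))
    (by fun_prop) (by fun_prop))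

lemma Wg_sub (ε c k : ℝ) : Wg ε c k ⊆ Hh := fun _ h => h.1

lemma norm_csin (w : ℂ) : ‖Complex.sin w‖ ≤ exp |w.im| := by
  rw [Complex.sin, norm_div, norm_mul, Complex.norm_I, mul_one, Complex.norm_two,
    div_le_iff₀ two_pos]
  refine (norm_sub_le _ _).trans ?_
  rw [Complex.norm_exp, Complex.norm_exp, mul_two]
  gcongr
  · simpa using le_abs_self w.im
  · simpa using neg_le_abs w.im

lemma norm_md (hm : Md h l e) (c : ℝ) {u : E} (hu : u ∈ Hh) :
    ‖md l e c u‖ ≤ exp (-(|u 0 - c| / 2) - 47 / 50 * u 1) := by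
  rw [md, norm_mul, Complex.norm_exp, sub_eq_add_neg (-_), exp_add]
  refine mul_le_mul (exp_le_exp.2 ?_) ((norm_csin _).trans (exp_le_exp.2 ?_)) (norm_nonneg _)
    (exp_pos _).le
  · simp only [Complex.neg_re, Complex.mul_re, Complex.ofReal_re, Complex.ofReal_im, mul_zero,
      sub_zero]
    nlinarith [hm.re, abs_nonneg (u 0 - c)]
  · have : u 1 < 0 := hu
    simp only [Complex.mul_im, Complex.ofReal_re, Complex.ofReal_im, mul_zero, zero_add, abs_mul,
      abs_of_neg this]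
    nlinarith [hm.im]

lemma meas_md {X : Type} [MeasurableSpace X] {l e : X → ℂ} {u : X → E} (hl : Measurable l)
    (he : Measurable e) (hu : Measurable u) (c : ℝ) : Measurable fun p => md (l p) (e p) c (u p) := by
  have h0 : Measurable fun p => u p 0 := (PiLp.continuous_apply 2 _ 0).measurable.comp hu
  have h1 : Measurable fun p => u p 1 := (PiLp.continuous_apply 2 _ 1).measurable.comp hu
  unfold md
  fun_prop

lemma Gr_md (hm : Md h l e) (c : ℝ) : Gr (md l e c) := by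
  refine ⟨meas_md measurable_const measurable_const measurable_id c, 1, ENNReal.one_ne_top,
    fun u hu => ?_⟩
  rw [one_mul, ← ofReal_norm]
  refine ENNReal.ofReal_le_ofReal ((norm_md hm c hu).trans (exp_le_exp.2 ?_))
  rw [inn]
  simp only [Matrix.cons_val_zero, Matrix.cons_val_one]
  linarith [abs_nonneg (u 0 - c)]

lemma Wg_abs (hε : ε ^ 2 = 1) (hk : 7 / 2 ≤ k) {u : E} (hu : u ∈ Wg ε c k) :
    |u 0 - c| = ε * (u 0 - c) ∧ -(7 / 2 * u 1) ≤ |u 0 - c| := by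
  have h1 : -(7 / 2 * u 1) ≤ ε * (u 0 - c) := by nlinarith [hu.1, hu.2]
  have h2 : |u 0 - c| = ε * (u 0 - c) := by
    rw [← sq_eq_sq₀ (abs_nonneg _) (by linarith [hu.1]), sq_abs, mul_pow, hε, one_mul]
  exact ⟨h2, h2 ▸ h1⟩

lemma norm_md_le (hm : Md h l e) (hε : ε ^ 2 = 1) (hk : 7 / 2 ≤ k) {u : E} (hu : u ∈ Wg ε c k) :
    ‖md l e c u‖ ≤ exp (-(|u 0 - c| / 10) - |u 1| / 10) := by
  refine (norm_md hm c hu.1).trans (exp_le_exp.2 ?_)
  rw [abs_of_neg hu.1]
  linarith [(Wg_abs hε hk hu).2, hu.1]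

lemma norm_md_one (hm : Md h l e) (hε : ε ^ 2 = 1) (hk : 7 / 2 ≤ k) {u : E} (hu : u ∈ Wg ε c k) :
    ‖md l e c u‖ ≤ 1 := (norm_md_le hm hε hk hu).trans (exp_le_one_iff.2 (by
      linarith [abs_nonneg (u 0 - c), abs_nonneg (u 1)]))

lemma hit_le (hh : 0 < h) (hε : ε ^ 2 = 1) (hk : 7 / 2 ≤ k) (u : E) :
    ∫⁻ v in Wg ε c k, PP (Qh h) (Wg ε c k) u v ≤
      ENNReal.ofReal (exp (7 / 25 * (ε * (u 0 - c)) + 24 / 25 * u 1)) := by
  have := PP_super (B := Wg ε c k) (meas_Qh h) (g := (Wg ε c k).indicator 1)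
    (ψ := fun u => ENNReal.ofReal (exp (7 / 25 * (ε * (u 0 - c)) + 24 / 25 * u 1)))
    (measurable_one.indicator (ms_Wg _ _ _)) (fun a => ?_) u
  · refine le_trans (le_of_eq ?_) this
    rw [← lintegral_indicator (ms_Wg _ _ _)]
    congr 1; ext v
    by_cases hv : v ∈ Wg ε c k <;> simp [hv]
  set V : E := !₂[7 / 25 * ε, 24 / 25]
  have e1 : ∀ y : E, ENNReal.ofReal (exp (7 / 25 * (ε * (y 0 - c)) + 24 / 25 * y 1)) =
      ENNReal.ofReal (exp (-(7 / 25 * ε * c))) * ENNReal.ofReal (exp ⟪V, y⟫_ℝ) := fun y => by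
    rw [← ENNReal.ofReal_mul (exp_pos _).le, ← exp_add, inn]
    simp only [V, Matrix.cons_val_zero, Matrix.cons_val_one]
    congr 2; ring
  have e2 : ‖V‖ ^ 2 = 1 := by
    rw [nsq]; simp only [V, Matrix.cons_val_zero, Matrix.cons_val_one]; nlinarith
  calc _ ≤ (∫⁻ y in Wg ε c k, Qh h a y *
          ENNReal.ofReal (exp (7 / 25 * (ε * (y 0 - c)) + 24 / 25 * y 1))) + _ := by
        refine add_le_add_left ?_ _
        rw [← lintegral_indicator (ms_Wg _ _ _)]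
        refine lintegral_mono fun y => ?_
        by_cases hy : y ∈ Wg ε c k
        · rw [indicator_of_mem hy, indicator_of_mem hy]
          refine mul_le_mul_right (ENNReal.one_le_ofReal.2 (one_le_exp ?_)) _
          nlinarith [hy.1, hy.2]
        · simp [hy]
    _ ≤ ∫⁻ y, ENNReal.ofReal (exp (-h)) * ENNReal.ofReal (exp (-(7 / 25 * ε * c))) *
          (pe h (a - y) * ENNReal.ofReal (exp ⟪V, y⟫_ℝ)) := by
        rw [lintegral_add_compl _ (ms_Wg _ _ _)]
        refine lintegral_mono fun y => ?_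
        rw [e1, mul_mul_mul_comm]
        exact mul_le_mul_left (Qh_le hh a y) _
    _ = _ := by
        rw [lintegral_const_mul' _ _ (by finiteness), lint_tilt hh, e2, e1,
          ← ENNReal.ofReal_mul (exp_pos _).le, ← ENNReal.ofReal_mul (exp_pos _).le,
          ← ENNReal.ofReal_mul (by positivity), ← exp_add, ← exp_add, ← exp_add]
        congr 2; ring

theorem TT_norm (hh : 0 < h) (hm : Md h l e) (hε : ε ^ 2 = 1) (hk : 7 / 2 ≤ k) :
    ∫⁻ v in Wg ε c k, ‖TK h (Wg ε c k) (md l e c) v‖ₑ ≤ ENNReal.ofReal (100 * ‖l‖ * h) := by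
  obtain ⟨f, hf, h1, h2⟩ := md_src hh hm c
  refine le_trans ?_ (h2 ε hε)
  set W := Wg ε c k
  have hW : MeasurableSet W := ms_Wg _ _ _
  calc _ ≤ ∫⁻ v in W, (‖f v‖ₑ + ∫⁻ u in Hh \ W, ‖f u‖ₑ * PP (Qh h) W u v) := by
        refine setLIntegral_mono' hW fun v hv => ?_
        rw [TT_src hh hW (Wg_sub _ _ _) (Gr_md hm c) h1 hv.1]
        refine (enorm_add_le _ _).trans (add_le_add_right ((enorm_integral_le_lintegral_enorm
          _).trans (le_of_eq ?_)) _)
        simp_rw [enorm_mul, enorm_Pr hh]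
    _ = (∫⁻ v in W, ‖f v‖ₑ) + ∫⁻ u in Hh \ W, ‖f u‖ₑ * ∫⁻ v in W, PP (Qh h) W u v := by
        rw [lintegral_add_left hf.enorm, lintegral_lintegral_swap (Measurable.aemeasurable
          (by unfold Function.uncurry; fun_prop))]
        simp_rw [lintegral_const_mul' _ _ enorm_ne_top]
    _ ≤ _ := by
        rw [← lintegral_inter_add_sdiff _ Hh hW, inter_eq_right.2 (Wg_sub _ _ _)]
        refine add_le_add (setLIntegral_mono' hW fun v hv => ?_)
          (lintegral_mono fun u => mul_le_mul_right (hit_le hh hε hk u) _)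
        refine le_mul_of_one_le_right' (ENNReal.one_le_ofReal.2 (one_le_exp ?_))
        nlinarith [hv.1, hv.2]

lemma meas_TT {X : Type} [MeasurableSpace X] {b : X → E → ℂ} (h : ℝ) (W : Set E)
    (hb : Measurable (Function.uncurry b)) : Measurable fun p : X × E => TK h W (b p.1) p.2 := by
  refine hb.sub (StronglyMeasurable.integral_prod_right' (ν := volume.restrict W)
    (f := fun q : (X × E) × E => b q.1.1 q.2 * Pr h W q.2 q.1.2)
    (Measurable.stronglyMeasurable ?_)).measurable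
  exact (hb.comp (measurable_fst.fst.prodMk measurable_snd)).mul (by fun_prop)

lemma Pr_TT (hh : 0 < h) {W : Set E} (hW : MeasurableSet W) (hWH : W ⊆ Hh) {a v : E} (ha : a ∈ Hh)
    (hv : v ∈ Hh) : (Pr h W a v : ℂ) = TK h W (fun u => GG h a u) v := by
  obtain ⟨C, hC⟩ := GG_bd hh
  rw [TT_src hh hW hWH (b := fun u => GG h a u) (f := fun u => qe h a u) ⟨Complex.measurable_ofReal.comp (GG_meas h a),
    ENNReal.ofReal C, ENNReal.ofReal_ne_top, fun u hu => ?_⟩ (fun u => ?_) hv, Pr_eq hh hW ha hv,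
    Complex.ofReal_add, ← integral_complex_ofReal]
  · simp
  · rw [← ofReal_norm, Complex.norm_real]
    refine (ENNReal.ofReal_le_ofReal (hC a u)).trans (le_mul_of_one_le_right'
      (ENNReal.one_le_ofReal.2 (one_le_exp ?_)))
    rw [inn]
    simp only [Matrix.cons_val_zero, Matrix.cons_val_one]
    linarith [show u 1 < 0 from hu]
  · rw [GG_src hh a u, Complex.ofReal_add, ← integral_complex_ofReal]
    simp [qe]

instance : SFinite mT := by unfold mT; infer_instance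

/-- The mode attached to a parameter. -/
noncomputable def mo (h c : ℝ) (θ : ℤ × ℝ) : E → ℂ := md (lam h θ) (et θ.2) c

noncomputable def Kc (h z : ℝ) (θ : ℤ × ℝ) : ℂ := cw h θ * Complex.exp (-(lam h θ * z))

noncomputable def om (h z : ℝ) (θ : ℤ × ℝ) : ℝ≥0∞ :=
  ‖et' θ.2‖ₑ * ENNReal.ofReal (exp (-(z * (lam h θ).re)))

lemma meas_mo (h c : ℝ) : Measurable (Function.uncurry (mo h c)) :=
  meas_md ((meas_lam h).comp measurable_fst) (cont_et.measurable.comp measurable_fst.snd)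
    measurable_snd c

lemma enorm_mo (hh : 0 < h) (hε : ε ^ 2 = 1) (hk : 7 / 2 ≤ k) {u : E} (hu : u ∈ Wg ε c k)
    (θ : ℤ × ℝ) : ‖mo h c θ u‖ₑ ≤ 1 := by
  rw [← ofReal_norm]
  exact ENNReal.ofReal_le_one.2 (norm_md_one (md_lam hh θ) hε hk hu)

lemma meas_Kc (h z : ℝ) : Measurable (Kc h z) := by
  have := meas_lam h
  have : Measurable fun θ : ℤ × ℝ => et' θ.2 := cont_et'.measurable.comp measurable_snd
  unfold Kc cw
  fun_prop

lemma meas_om (h z : ℝ) : Measurable (om h z) := by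
  have := meas_lam h
  have : Measurable fun θ : ℤ × ℝ => et' θ.2 := cont_et'.measurable.comp measurable_snd
  unfold om
  fun_prop

lemma Kc_le (hh : 0 < h) (z : ℝ) (θ : ℤ × ℝ) :
    ‖Kc h z θ‖ₑ * ENNReal.ofReal (100 * ‖lam h θ‖) ≤ 17 * om h z θ ∧ ‖Kc h z θ‖ₑ ≤ om h z θ := by
  have h1 : 1 / 2 ≤ ‖lam h θ‖ := (md_lam hh θ).re.trans (Complex.re_le_norm _)
  have e : ‖Kc h z θ‖ = (2 * π * ‖lam h θ‖)⁻¹ * (‖et' θ.2‖ * exp (-(z * (lam h θ).re))) := by
    rw [Kc, cw, norm_mul, norm_div, Complex.norm_exp, norm_mul, norm_mul, Complex.norm_real,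
      Real.norm_of_nonneg pi_pos.le, Complex.norm_two]
    simp only [Complex.neg_re, Complex.mul_re, Complex.ofReal_re, Complex.ofReal_im, mul_zero,
      sub_zero, mul_comm z]
    ring
  rw [om, ← ofReal_norm, ← ofReal_norm, ← ENNReal.ofReal_mul (norm_nonneg _),
    ← ENNReal.ofReal_mul (norm_nonneg _), ← ENNReal.ofReal_ofNat 17,
    ← ENNReal.ofReal_mul (by norm_num), e]
  have h0 : 0 ≤ ‖et' θ.2‖ * exp (-(z * (lam h θ).re)) := by positivity
  have h3 := pi_gt_three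
  refine ⟨ENNReal.ofReal_le_ofReal ?_, ENNReal.ofReal_le_ofReal (mul_le_of_le_one_left h0
    (inv_le_one_of_one_le₀ (by nlinarith)))⟩
  rw [mul_right_comm]
  refine mul_le_mul_of_nonneg_right ?_ h0
  rw [inv_mul_le_iff₀ (by positivity)]
  nlinarith

lemma om_fin (hh : 0 < h) (hh1 : h ≤ 1) (hz : 1 / 2 ≤ z) : ∫⁻ θ, om h z θ ∂mT ≠ ∞ := by
  obtain ⟨C, -, hC⟩ := wt_bd
  exact ne_top_of_le_ne_top ENNReal.ofReal_ne_top (hC h ⟨hh, hh1⟩ z hz).2

theorem Pr_modes (hh : 0 < h) (hh1 : h ≤ 1) (hε : ε ^ 2 = 1) (hk : 7 / 2 ≤ k) (hk' : 7 / 2 ≤ k')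
    (hc : ε * (c - c') = z) (hz : 1 / 2 ≤ z) {a v : E} (ha : a ∈ Wg (-ε) c' k')
    (hv : v ∈ Wg ε c k) : (Pr h (Wg ε c k) a v : ℂ) = ∫ θ, Kc h z θ * mo h c' θ a *
      ((h : ℂ)⁻¹ * TK h (Wg ε c k) (mo h c θ) v) ∂mT := by
  set W := Wg ε c k
  have hW : MeasurableSet W := ms_Wg _ _ _
  have hε' : (-ε) ^ 2 = 1 := by rw [neg_sq, hε]
  have e1 : ∀ u ∈ W, (GG h a u : ℂ) = ∫ θ, (h : ℂ)⁻¹ * (Kc h z θ * mo h c' θ a) * mo h c θ u ∂mT := by
    intro u hu
    have k1 := (Wg_abs hε hk hu).1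
    have k2 := (Wg_abs hε' hk' ha).1
    have k3 : |u 0 - a 0| = z + |a 0 - c'| + |u 0 - c| := by
      rw [← sq_eq_sq₀ (abs_nonneg _) (by positivity), sq_abs, k1, k2, ← hc]
      linear_combination (-(u 0 - a 0) ^ 2) * hε
    have := GG_modes hh hh1 (a := a) (u := u) (by
      rw [k3]; linarith [abs_nonneg (a 0 - c'), abs_nonneg (u 0 - c)])
    simp_rw [mul_assoc (h : ℂ)⁻¹]
    rw [integral_const_mul, eq_inv_mul_iff_mul_eq₀ (by exact_mod_cast hh.ne'), ← Complex.ofReal_mul,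
      this]
    congr 1; ext θ
    simp only [Kc, mo, md, k3, Complex.ofReal_add, mul_add, neg_add, Complex.exp_add]
    ring
  have m0 : Measurable fun θ => (h : ℂ)⁻¹ * (Kc h z θ * mo h c' θ a) :=
    ((meas_Kc h z).mul (meas_mo h c').of_uncurry_right).const_mul _
  have b0 : ∀ θ, ∀ u ∈ W, ‖(h : ℂ)⁻¹ * (Kc h z θ * mo h c' θ a) * mo h c θ u‖ₑ ≤
      ‖(h : ℂ)⁻¹‖ₑ * om h z θ := fun θ u hu => by
    rw [enorm_mul, enorm_mul, enorm_mul]
    refine (mul_le_of_le_one_right' ?_).trans (mul_le_mul_right ((mul_le_of_le_one_right' ?_).trans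
      (Kc_le hh z θ).2) _)
    · exact enorm_mo hh hε hk hu θ
    · exact enorm_mo hh hε' hk' ha θ
  have f0 : ∫⁻ θ, ‖(h : ℂ)⁻¹‖ₑ * om h z θ ∂mT < ∞ := by
    rw [lintegral_const_mul' _ _ enorm_ne_top]
    exact ENNReal.mul_lt_top enorm_lt_top (om_fin hh hh1 hz).lt_top
  have i1 : Integrable (fun θ => (h : ℂ)⁻¹ * (Kc h z θ * mo h c' θ a) * mo h c θ v) mT :=
    ⟨(m0.mul (meas_mo h c).of_uncurry_right).aestronglyMeasurable,
      (lintegral_mono fun θ => b0 θ v hv).trans_lt f0⟩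
  have m2 : Measurable fun p : E × (ℤ × ℝ) => (h : ℂ)⁻¹ * (Kc h z p.2 * mo h c' p.2 a) *
      mo h c p.2 p.1 * Pr h W p.1 v :=
    ((m0.comp measurable_snd).mul ((meas_mo h c).comp measurable_swap)).mul (by fun_prop)
  have i2 : Integrable (fun p : E × (ℤ × ℝ) => (h : ℂ)⁻¹ * (Kc h z p.2 * mo h c' p.2 a) *
      mo h c p.2 p.1 * Pr h W p.1 v) ((volume.restrict W).prod mT) := by
    refine ⟨m2.aestronglyMeasurable, ?_⟩
    rw [HasFiniteIntegral, lintegral_prod _ m2.enorm.aemeasurable]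
    obtain ⟨D, hD, h2⟩ := PP_tilt hh (V := 0) (by simp)
    refine lt_of_le_of_lt (setLIntegral_mono' hW (g := fun u => (∫⁻ θ, ‖(h : ℂ)⁻¹‖ₑ * om h z θ ∂mT) *
      PP (Qh h) W u v) fun u hu => ?_) ?_
    · simp_rw [enorm_mul _ (Pr h W u v : ℂ)]
      rw [lintegral_mul_const' _ _ enorm_ne_top, enorm_Pr hh]
      exact mul_le_mul_left (lintegral_mono fun θ => b0 θ u hu) _
    · rw [lintegral_const_mul' _ _ f0.ne]
      refine ENNReal.mul_lt_top f0 ((setLIntegral_le_lintegral _ _).trans_lt ?_)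
      simpa using ((h2 W v).1.trans_lt (by finiteness))
  rw [Pr_TT hh hW (Wg_sub _ _ _) ha.1 hv.1, TK, e1 v hv, setIntegral_congr_fun hW
    (g := fun u => ∫ θ, (h : ℂ)⁻¹ * (Kc h z θ * mo h c' θ a) * mo h c θ u * Pr h W u v ∂mT)
    (fun u hu => by simp only [e1 u hu, integral_mul_const]), integral_integral_swap i2,
    ← integral_sub i1 i2.integral_prod_right]
  congr 1; ext θ
  simp_rw [TK, mul_assoc _ (mo h c θ _), integral_const_mul]
  ring

end Pool.Agent.Lib.MP_c1b9d3_an
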