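import Pool.Agent.Lib.MP_c1b9d3_an.QK2

namespace Pool.Agent.Lib.MP_c1b9d3_an

open MeasureTheory Real Filter Topology Set Pool.Agent.Lib.MP_2d4879_an
open scoped ENNReal InnerProductSpace

lemma four {Θ : Type} [MeasurableSpace Θ] {μ : Measure Θ} [SFinite μ] {α β : Measure E} [SFinite α]
    [SFinite β] {X Y X' Y' : Θ → E → ℂ} {κ : Θ → ℝ≥0∞} (mX : Measurable (Function.uncurry X))
    (mY : Measurable (Function.uncurry Y)) (mX' : Measurable (Function.uncurry X'))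
    (mY' : Measurable (Function.uncurry Y')) (mκ : Measurable κ)
    (hX : ∀ᵐ q : E × E ∂α.prod β, ∀ θ, ‖X θ q.1‖ₑ ≤ κ θ ∧ ‖X' θ q.2‖ₑ ≤ κ θ)
    (fY : ∫⁻ v, ∫⁻ θ, κ θ * ‖Y θ v‖ₑ ∂μ ∂β ≠ ∞) (fY' : ∫⁻ v, ∫⁻ θ, κ θ * ‖Y' θ v‖ₑ ∂μ ∂α ≠ ∞) :
    ∫ q : E × E, (∫ θ, X θ q.1 * Y θ q.2 ∂μ) * (∫ θ, X' θ q.2 * Y' θ q.1 ∂μ) ∂α.prod β =
      ∫ p : Θ × Θ, (∫ a, X p.1 a * Y' p.2 a ∂α) * (∫ v, X' p.2 v * Y p.1 v ∂β) ∂μ.prod μ := by
  have m : Measurable fun r : (E × E) × Θ × Θ =>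
      X r.2.1 r.1.1 * Y r.2.1 r.1.2 * (X' r.2.2 r.1.2 * Y' r.2.2 r.1.1) :=
    ((mX.comp (measurable_snd.fst.prodMk measurable_fst.fst)).mul
      (mY.comp (measurable_snd.fst.prodMk measurable_fst.snd))).mul
      ((mX'.comp (measurable_snd.snd.prodMk measurable_fst.snd)).mul
      (mY'.comp (measurable_snd.snd.prodMk measurable_fst.fst)))
  have m1 : ∀ {Y : Θ → E → ℂ}, Measurable (Function.uncurry Y) →
      Measurable fun v => ∫⁻ θ, κ θ * ‖Y θ v‖ₑ ∂μ := fun mY =>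
    Measurable.lintegral_prod_left' (f := fun p : Θ × E => κ p.1 * ‖_‖ₑ)
      ((mκ.comp measurable_fst).mul mY.enorm)
  have i : Integrable (fun r : (E × E) × Θ × Θ =>
      X r.2.1 r.1.1 * Y r.2.1 r.1.2 * (X' r.2.2 r.1.2 * Y' r.2.2 r.1.1))
      ((α.prod β).prod (μ.prod μ)) := by
    refine ⟨m.aestronglyMeasurable, ?_⟩
    rw [HasFiniteIntegral, lintegral_prod _ m.enorm.aemeasurable]
    refine lt_of_le_of_lt (lintegral_mono_ae (g := fun q => (∫⁻ θ, κ θ * ‖Y' θ q.1‖ₑ ∂μ) *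
      ∫⁻ θ, κ θ * ‖Y θ q.2‖ₑ ∂μ) (hX.mono fun q hq => ?_)) ?_
    · refine le_trans (lintegral_mono fun p => ?_) ((lintegral_prod_mul
        (f := fun θ => κ θ * ‖Y θ q.2‖ₑ) (g := fun θ => κ θ * ‖Y' θ q.1‖ₑ)
        (mκ.mul mY.of_uncurry_right.enorm).aemeasurable
        (mκ.mul mY'.of_uncurry_right.enorm).aemeasurable).trans (mul_comm _ _)).le
      simp only [enorm_mul]
      exact mul_le_mul' (mul_le_mul_left (hq _).1 _) (mul_le_mul_left (hq _).2 _)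
    · rw [lintegral_prod_mul (m1 mY').aemeasurable (m1 mY).aemeasurable]
      exact ENNReal.mul_lt_top fY'.lt_top fY.lt_top
  simp_rw [← integral_prod_mul]
  refine (integral_integral_swap (f := fun (q : E × E) (p : Θ × Θ) =>
    X p.1 q.1 * Y p.1 q.2 * (X' p.2 q.2 * Y' p.2 q.1)) i).trans ?_
  congr 1; ext p; congr 1; ext q; ring

variable {h ε c c' k k' x z : ℝ} {l e l' e' : ℂ}

noncomputable def be (h z ε c k : ℝ) (v : E) : ℝ≥0∞ :=
  ∫⁻ θ, ‖Kc h z θ‖ₑ * ‖(h : ℂ)⁻¹ * TK h (Wg ε c k) (mo h c θ) v‖ₑ ∂mT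

lemma meas_Y (h c : ℝ) (W : Set E) :
    Measurable (Function.uncurry fun θ v => (h : ℂ)⁻¹ * TK h W (mo h c θ) v) :=
  (meas_TT h W (meas_mo h c)).const_mul _

lemma meas_be (h z ε c k : ℝ) : Measurable (be h z ε c k) :=
  Measurable.lintegral_prod_left' (f := fun p : (ℤ × ℝ) × E => ‖Kc h z p.1‖ₑ * ‖_‖ₑ)
    (((meas_Kc h z).comp measurable_fst).enorm.mul (meas_Y h c _).enorm)

lemma PP_le_be (hh : 0 < h) (hh1 : h ≤ 1) (hε : ε ^ 2 = 1) (hk : 7 / 2 ≤ k) (hk' : 7 / 2 ≤ k')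
    (hc : ε * (c - c') = z) (hz : 1 / 2 ≤ z) {a v : E} (ha : a ∈ Wg (-ε) c' k')
    (hv : v ∈ Wg ε c k) : PP (Qh h) (Wg ε c k) a v ≤ be h z ε c k v := by
  rw [← enorm_Pr hh, Pr_modes hh hh1 hε hk hk' hc hz ha hv]
  refine (enorm_integral_le_lintegral_enorm _).trans (lintegral_mono fun θ => ?_)
  rw [enorm_mul, enorm_mul]
  exact mul_le_mul_left (mul_le_of_le_one_right' (enorm_mo hh (by rw [neg_sq, hε]) hk' ha θ)) _

lemma TT_norm' (hh : 0 < h) (hm : Md h l e) (hε : ε ^ 2 = 1) (hk : 7 / 2 ≤ k) :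
    ∫⁻ v in Wg ε c k, ‖(h : ℂ)⁻¹ * TK h (Wg ε c k) (md l e c) v‖ₑ ≤ ENNReal.ofReal (100 * ‖l‖) := by
  simp_rw [enorm_mul]
  rw [lintegral_const_mul' _ _ enorm_ne_top]
  refine (mul_le_mul_right (TT_norm hh hm hε hk) _).trans (le_of_eq ?_)
  rw [← ofReal_norm, ← ENNReal.ofReal_mul (norm_nonneg _), norm_inv, Complex.norm_real,
    Real.norm_of_nonneg hh.le]
  congr 1; field_simp

lemma be_int (hh : 0 < h) (hε : ε ^ 2 = 1) (hk : 7 / 2 ≤ k) :
    ∫⁻ v in Wg ε c k, be h z ε c k v ≤ 17 * ∫⁻ θ, om h z θ ∂mT := by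
  unfold be
  rw [lintegral_lintegral_swap (((meas_Kc h z).comp measurable_snd).enorm.mul
    ((meas_Y h c _).comp measurable_swap).enorm).aemeasurable,
    ← lintegral_const_mul' _ _ (by simp)]
  refine lintegral_mono fun θ => ?_
  rw [lintegral_const_mul' _ _ enorm_ne_top]
  exact (mul_le_mul_right (TT_norm' hh (md_lam hh θ) hε hk) _).trans (Kc_le hh z θ).1

noncomputable def Sf (h : ℝ) (W : Set E) (b' b : E → ℂ) : ℂ :=
  ∫ v in W, b' v * ((h : ℂ)⁻¹ * TK h W b v)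

lemma Sf_le (hh : 0 < h) (hm : Md h l e) (hm' : Md h l' e') (hε : ε ^ 2 = 1) (hk : 7 / 2 ≤ k) :
    ‖Sf h (Wg ε c k) (md l' e' c) (md l e c)‖ ≤ 100 * ‖l‖ := by
  rw [← ENNReal.ofReal_le_ofReal_iff (by positivity), ofReal_norm]
  refine (enorm_integral_le_lintegral_enorm _).trans (le_trans (setLIntegral_mono' (ms_Wg _ _ _)
    fun v hv => ?_) (TT_norm' (c := c) hh hm hε hk))
  rw [enorm_mul]
  refine mul_le_of_le_one_left' ?_
  rw [← ofReal_norm]
  exact ENNReal.ofReal_le_one.2 (norm_md_one hm' hε hk hv)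

lemma int_shift {W : Set E} (hW : MeasurableSet W) (d : E) (F : E → ℂ) :
    ∫ v in W, F v = ∫ v in (fun u => u + d) ⁻¹' W, F (v + d) := by
  rw [← integral_indicator hW, ← integral_indicator (measurable_add_const d hW),
    ← integral_add_right_eq_self _ d]
  rfl

lemma Sf_shift (h ε c k : ℝ) (l e l' e' : ℂ) : Sf h (Wg ε c k) (md l' e' c) (md l e c) =
    Sf h (Wg ε 0 k) (md l' e' 0) (md l e 0) := by
  set d : E := !₂[c, 0]
  have e1 : (fun u => u + d) ⁻¹' Wg ε c k = Wg ε 0 k := by ext u; simp [Wg, d]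
  have e2 : ∀ l e u, md l e c (u + d) = md l e 0 u := fun l e u => by simp [md, d]
  have e3 : ∀ a b, Qh h (a + d) (b + d) = Qh h a b := fun a b => by
    have : bar (b + d) = bar b + d := by ext i; fin_cases i <;> simp [bar, d]
    simp [Qh, indicator, Hh, qe, qk, this, d]
  rw [Sf, int_shift (ms_Wg _ _ _) d, e1]
  congr 1; ext v
  rw [TK, int_shift (ms_Wg _ _ _) d, e1]
  simp only [e2, Pr, PP_shift (ms_Wg _ _ _) d e3, e1, TK]

noncomputable def FF (h x k z : ℝ) (p : (ℤ × ℝ) × ℤ × ℝ) : ℂ := Kc h z p.1 * Kc h z p.2 *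
  (Sf h (Wg (-1) 0 x) (mo h 0 p.1) (mo h 0 p.2) * Sf h (Wg 1 0 k) (mo h 0 p.2) (mo h 0 p.1))

lemma TG_fin (hh : 0 < h) (hh1 : h ≤ 1) (hx : 7 / 2 ≤ x) (hk : 7 / 2 ≤ k) (hz : 1 / 2 ≤ z) :
    TG (Qh h) (Wg (-1) 0 x) (Wg 1 z k) ≠ ∞ := by
  have f := om_fin hh hh1 hz
  refine ne_top_of_le_ne_top (b := ∫⁻ a in Wg (-1) 0 x, ∫⁻ v in Wg 1 z k,
    be h z (-1) 0 x a * be h z 1 z k v) ?_ (setLIntegral_mono' (ms_Wg _ _ _) fun a ha =>
      setLIntegral_mono' (ms_Wg _ _ _) fun v hv => ?_)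
  · rw [lintegral_lintegral_mul (meas_be _ _ _ _ _).aemeasurable (meas_be _ _ _ _ _).aemeasurable]
    exact ENNReal.mul_ne_top (ne_top_of_le_ne_top (by finiteness) (be_int hh (by norm_num) hx))
      (ne_top_of_le_ne_top (by finiteness) (be_int hh (by norm_num) hk))
  · rw [mul_comm]
    exact mul_le_mul' (PP_le_be hh hh1 (by norm_num) hx hk (c' := z) (by ring) hz
      (by rwa [neg_neg]) ha) (PP_le_be hh hh1 (by norm_num) hk hx (by ring) hz ha hv)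

theorem TG_eq (hh : 0 < h) (hh1 : h ≤ 1) (hx : 7 / 2 ≤ x) (hk : 7 / 2 ≤ k) (hz : 1 / 2 ≤ z) :
    ((TG (Qh h) (Wg (-1) 0 x) (Wg 1 z k)).toReal : ℂ) = ∫ p, FF h x k z p ∂mT.prod mT := by
  have f := om_fin hh hh1 hz
  have hae : ∀ᵐ q : E × E ∂(volume.restrict (Wg (-1) 0 x)).prod (volume.restrict (Wg 1 z k)),
      q.1 ∈ Wg (-1) 0 x ∧ q.2 ∈ Wg 1 z k := by
    rw [Measure.prod_restrict]
    exact ae_restrict_mem ((ms_Wg _ _ _).prod (ms_Wg _ _ _))
  have := four (μ := mT) (X := fun θ a => Kc h z θ * mo h 0 θ a)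
    (Y := fun θ v => (h : ℂ)⁻¹ * TK h (Wg 1 z k) (mo h z θ) v) (X' := fun θ a => Kc h z θ * mo h z θ a)
    (Y' := fun θ v => (h : ℂ)⁻¹ * TK h (Wg (-1) 0 x) (mo h 0 θ) v) (κ := fun θ => ‖Kc h z θ‖ₑ)
    (((meas_Kc h z).comp measurable_fst).mul (meas_mo h 0)) (meas_Y h z _)
    (((meas_Kc h z).comp measurable_fst).mul (meas_mo h z)) (meas_Y h 0 _) (meas_Kc h z).enorm
    (hae.mono fun q hq θ => by
      simp only [enorm_mul]
      exact ⟨mul_le_of_le_one_right' (enorm_mo hh (by norm_num) hx hq.1 θ),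
        mul_le_of_le_one_right' (enorm_mo hh (by norm_num) hk hq.2 θ)⟩)
    (ne_top_of_le_ne_top (by finiteness) (be_int hh (by norm_num) hk))
    (ne_top_of_le_ne_top (by finiteness) (be_int hh (by norm_num) hx))
  rw [TG, ← lintegral_prod (fun q : E × E => PP (Qh h) (Wg 1 z k) q.1 q.2 *
    PP (Qh h) (Wg (-1) 0 x) q.2 q.1) (Measurable.aemeasurable (by fun_prop)),
    ← integral_toReal (Measurable.aemeasurable (by fun_prop)) (Eventually.of_forall fun q =>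
      ENNReal.mul_lt_top (PP_fin hh _ _).lt_top (PP_fin hh _ _).lt_top), ← integral_complex_ofReal]
  refine (integral_congr_ae (hae.mono fun q hq => ?_)).trans (this.trans ?_)
  · rw [← Pr_modes hh hh1 (by norm_num) hk hx (by ring) hz hq.1 hq.2, ← Pr_modes hh hh1
      (by norm_num) hx hk (c' := z) (by ring) hz (by rw [neg_neg]; exact hq.2) hq.1,
      ENNReal.toReal_mul, Complex.ofReal_mul]
    rfl
  · congr 1; ext p
    simp_rw [mul_assoc (Kc h z _), integral_const_mul]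
    rw [FF, mo, mo, ← Sf_shift h 1 z]
    simp only [Sf, mo]
    ring

lemma meas_Sf {X : Type} [MeasurableSpace X] {b b' : X → E → ℂ} (h : ℝ) (W : Set E)
    (hb' : Measurable (Function.uncurry b')) (hb : Measurable (Function.uncurry b)) :
    Measurable fun p => Sf h W (b' p) (b p) :=
  (StronglyMeasurable.integral_prod_right' (ν := volume.restrict W)
    (f := fun q : X × E => b' q.1 q.2 * ((h : ℂ)⁻¹ * TK h W (b q.1) q.2))
    (hb'.mul ((meas_TT h W hb).const_mul _)).stronglyMeasurable).measurable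

lemma meas_Sm {X : Type} [MeasurableSpace X] {l e l' e' : X → ℂ} (h : ℝ) (W : Set E)
    (h1 : Measurable l) (h2 : Measurable e) (h3 : Measurable l') (h4 : Measurable e') :
    Measurable fun p => Sf h W (md (l' p) (e' p) 0) (md (l p) (e p) 0) :=
  meas_Sf h W (meas_md (h3.comp measurable_fst) (h4.comp measurable_fst) measurable_snd 0)
    (meas_md (h1.comp measurable_fst) (h2.comp measurable_fst) measurable_snd 0)

lemma meas_FF (h x k z : ℝ) : Measurable (FF h x k z) := by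
  have m1 : Measurable fun p : (ℤ × ℝ) × ℤ × ℝ => lam h p.1 := (meas_lam h).comp measurable_fst
  have m2 : Measurable fun p : (ℤ × ℝ) × ℤ × ℝ => lam h p.2 := (meas_lam h).comp measurable_snd
  have m3 : Measurable fun p : (ℤ × ℝ) × ℤ × ℝ => et p.1.2 :=
    cont_et.measurable.comp measurable_fst.snd
  have m4 : Measurable fun p : (ℤ × ℝ) × ℤ × ℝ => et p.2.2 :=
    cont_et.measurable.comp measurable_snd.snd
  have m5 : Measurable fun p : (ℤ × ℝ) × ℤ × ℝ => Kc h z p.1 := (meas_Kc h z).comp measurable_fst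
  have m6 : Measurable fun p : (ℤ × ℝ) × ℤ × ℝ => Kc h z p.2 := (meas_Kc h z).comp measurable_snd
  unfold FF mo
  exact (m5.mul m6).mul ((meas_Sm h _ m2 m4 m1 m3).mul (meas_Sm h _ m1 m3 m2 m4))

lemma FF_le (hh : 0 < h) (hx : 7 / 2 ≤ x) (hk : 7 / 2 ≤ k) (p : (ℤ × ℝ) × ℤ × ℝ) :
    ‖FF h x k z p‖ₑ ≤ 17 * om h z p.1 * (17 * om h z p.2) := by
  refine le_trans ?_ (mul_le_mul' (Kc_le hh z p.1).1 (Kc_le hh z p.2).1)
  rw [FF, enorm_mul, enorm_mul, enorm_mul, mul_mul_mul_comm _ (ENNReal.ofReal _),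
    mul_comm (ENNReal.ofReal _), ← ofReal_norm (Sf _ _ _ _), ← ofReal_norm (Sf _ _ _ _)]
  exact mul_le_mul_right (mul_le_mul' (ENNReal.ofReal_le_ofReal (Sf_le hh (md_lam hh _)
    (md_lam hh _) (by norm_num) hx)) (ENNReal.ofReal_le_ofReal (Sf_le hh (md_lam hh _)
    (md_lam hh _) (by norm_num) hk))) _

lemma mp_zero : MeasurePreserving (fun ξ : ℝ => ((0, ξ) : ℤ × ℝ)) volume
    (mT.restrict {θ | θ.1 = 0}) := by
  refine ⟨by fun_prop, ?_⟩
  rw [show {θ : ℤ × ℝ | θ.1 = 0} = {0} ×ˢ univ by ext; simp, mT, ← Measure.prod_restrict,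
    Measure.restrict_univ, Measure.restrict_singleton, Measure.count_singleton, one_smul,
    Measure.dirac_prod]

theorem TG_main : ∃ C : ℝ, ∀ h ∈ Ioc (0 : ℝ) 1, ∀ x k z : ℝ, 7 / 2 ≤ x → 7 / 2 ≤ k → 1 / 2 ≤ z →
    ‖((TG (Qh h) (Wg (-1) 0 x) (Wg 1 z k)).toReal : ℂ) -
      ∫ q : ℝ × ℝ, FF h x k z ((0, q.1), (0, q.2))‖ ≤ C * h := by
  obtain ⟨C, hC0, hC⟩ := wt_bd
  refine ⟨2 * (17 * C * (17 * (C * 2))), fun h hh x k z hx hk hz => ?_⟩
  obtain ⟨h1, h2⟩ := hC h hh z hz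
  set S : Set (ℤ × ℝ) := {θ | θ.1 = 0}
  have hS : MeasurableSet S := measurable_fst (measurableSet_singleton 0)
  have mo := (meas_om h z).const_mul 17
  have h3 : ∫⁻ θ, 17 * om h z θ ∂mT ≤ ENNReal.ofReal (17 * (C * 2)) := by
    rw [lintegral_const_mul' _ _ (by simp), ENNReal.ofReal_mul (by norm_num), ENNReal.ofReal_ofNat]
    refine mul_le_mul_right (h2.trans (ENNReal.ofReal_le_ofReal ?_)) _
    have := exp_le_one_iff.2 (show -z ≤ 0 by linarith)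
    nlinarith [hh.2]
  have h4 : ∫⁻ θ in Sᶜ, 17 * om h z θ ∂mT ≤ ENNReal.ofReal (17 * C * h) := by
    rw [lintegral_const_mul' _ _ (by simp), mul_assoc, ENNReal.ofReal_mul (by norm_num),
      ENNReal.ofReal_ofNat]
    exact mul_le_mul_right h1 _
  have i : Integrable (FF h x k z) (mT.prod mT) := by
    refine ⟨(meas_FF h x k z).aestronglyMeasurable, (lintegral_mono (FF_le hh.1 hx hk)).trans_lt ?_⟩
    rw [lintegral_prod_mul mo.aemeasurable mo.aemeasurable]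
    exact (mul_le_mul' h3 h3).trans_lt (by finiteness)
  have e := (mp_zero.prod mp_zero).integral_comp ((measurableEmbedding_prodMk_left 0).prodMap
    (measurableEmbedding_prodMk_left 0)) (FF h x k z)
  rw [Measure.prod_restrict] at e
  rw [TG_eq hh.1 hh.2 hx hk hz, ← integral_add_compl (hS.prod hS) i, ← e, Measure.volume_eq_prod]
  simp only [Prod.map]
  have := hh.1
  rw [add_sub_cancel_left, ← ENNReal.ofReal_le_ofReal_iff (by positivity), ofReal_norm]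
  refine (enorm_integral_le_lintegral_enorm _).trans ((lintegral_mono (FF_le hh.1 hx hk)).trans
    ((lintegral_mono_set (t := Sᶜ ×ˢ univ ∪ univ ×ˢ Sᶜ) fun p hp => ?_).trans
    ((lintegral_union_le _ _ _).trans ?_)))
  · by_cases h5 : p.1 ∈ S
    · exact Or.inr ⟨trivial, fun h6 => hp ⟨h5, h6⟩⟩
    · exact Or.inl ⟨h5, trivial⟩
  · rw [← Measure.prod_restrict, ← Measure.prod_restrict, Measure.restrict_univ,
      lintegral_prod_mul mo.aemeasurable mo.aemeasurable,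
      lintegral_prod_mul mo.aemeasurable mo.aemeasurable]
    refine (add_le_add (mul_le_mul' h4 h3) (mul_le_mul' h3 h4)).trans (le_of_eq ?_)
    rw [← ENNReal.ofReal_mul (by positivity), ← ENNReal.ofReal_mul (by positivity),
      ← ENNReal.ofReal_add (by positivity) (by positivity)]
    congr 1; ring

end Pool.Agent.Lib.MP_c1b9d3_an
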