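import Pool.Agent.Lib.MP_c1b9d3_an.QDef

namespace Pool.Agent.Lib.MP_c1b9d3_an

open MeasureTheory Real Filter Topology Set Pool.Agent.Lib.MP_2d4879_an Asymptotics
open scoped ENNReal

section L
variable {Q : E → E → ℝ≥0∞} {A B : Set E}

lemma ql_ap {X : Type} [MeasurableSpace X] (hQ : Measurable (Function.uncurry Q)) {f g : X → E}
    (hf : Measurable f) (hg : Measurable g) : Measurable fun p => Q (f p) (g p) :=
  hQ.comp (hf.prodMk hg)

lemma ql_l (hQ : Measurable (Function.uncurry Q)) (a : E) : Measurable (Q a) :=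
  ql_ap hQ measurable_const measurable_id

lemma ql_r (hQ : Measurable (Function.uncurry Q)) (b : E) : Measurable fun a => Q a b :=
  ql_ap hQ measurable_id measurable_const

lemma Pn_meas (hQ : Measurable (Function.uncurry Q)) (n : ℕ) :
    Measurable (Function.uncurry (Pn Q B n)) := by
  induction n with
  | zero => exact hQ
  | succ n ih =>
    exact Measurable.lintegral_prod_right' (f := fun p : (E × E) × E =>
      Q p.1.1 p.2 * Pn Q B n p.2 p.1.2) ((ql_ap hQ measurable_fst.fst measurable_snd).fun_mul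
        (ql_ap ih measurable_snd measurable_fst.snd))

lemma PP_meas (hQ : Measurable (Function.uncurry Q)) :
    Measurable (Function.uncurry (PP Q B)) :=
  Measurable.tsum fun n => Pn_meas hQ n

lemma ql_tsum (f : ℕ → ℝ≥0∞) : ∑' n, f n = f 0 + ∑' n, f (n + 1) :=
  tsum_eq_zero_add' ENNReal.summable

lemma PP_eq (hQ : Measurable (Function.uncurry Q)) (a b : E) :
    PP Q B a b = Q a b + ∫⁻ y in Bᶜ, Q a y * PP Q B y b := by
  rw [PP, ql_tsum]
  simp only [PP, ← ENNReal.tsum_mul_left]
  rw [lintegral_tsum fun n => ((ql_l hQ a).fun_mul (ql_r (Pn_meas hQ n) b)).aemeasurable]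
  rfl

lemma ql_swap (hQ : Measurable (Function.uncurry Q)) {P : E → E → ℝ≥0∞}
    (hP : Measurable (Function.uncurry P)) {g : E → ℝ≥0∞} (hg : Measurable g) (μ ν : Measure E)
    [SFinite μ] [SFinite ν] (a : E) :
    ∫⁻ v, (∫⁻ y, Q a y * P y v ∂μ) * g v ∂ν = ∫⁻ y, Q a y * (∫⁻ v, P y v * g v ∂ν) ∂μ := by
  have e1 : ∀ v, (∫⁻ y, Q a y * P y v ∂μ) * g v = ∫⁻ y, Q a y * P y v * g v ∂μ := fun v =>
    (lintegral_mul_const _ ((ql_l hQ a).fun_mul (ql_r hP v))).symm
  have e2 : ∀ y, Q a y * (∫⁻ v, P y v * g v ∂ν) = ∫⁻ v, Q a y * P y v * g v ∂ν := fun y => by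
    rw [← lintegral_const_mul _ ((ql_l hP y).fun_mul hg)]
    simp only [mul_assoc]
  simp only [e1, e2]
  exact lintegral_lintegral_swap (((ql_ap hQ measurable_const measurable_snd).fun_mul
    (ql_ap hP measurable_snd measurable_fst)).fun_mul (hg.comp measurable_fst)).aemeasurable

lemma ql_int {P : E → E → ℝ≥0∞} (hP : Measurable (Function.uncurry P)) {g : E → ℝ≥0∞}
    (hg : Measurable g) (ν : Measure E) [SFinite ν] : Measurable fun y => ∫⁻ v, P y v * g v ∂ν :=
  Measurable.lintegral_prod_right' (f := fun p : E × E => P p.1 p.2 * g p.2)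
    (hP.fun_mul (hg.comp measurable_snd))

lemma PP_super (hQ : Measurable (Function.uncurry Q)) {g ψ : E → ℝ≥0∞} (hg : Measurable g)
    (h : ∀ a, (∫⁻ y, Q a y * g y) + ∫⁻ y in Bᶜ, Q a y * ψ y ≤ ψ a) (a : E) :
    ∫⁻ v, PP Q B a v * g v ≤ ψ a := by
  simp only [PP, ← ENNReal.tsum_mul_right]
  rw [lintegral_tsum fun n => ((ql_l (Pn_meas hQ n) a).fun_mul hg).aemeasurable,
    ENNReal.tsum_eq_iSup_nat]
  refine iSup_le fun m => ?_
  induction m generalizing a with
  | zero => simp
  | succ m ih =>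
    rw [Finset.sum_range_succ', add_comm]
    refine le_trans (add_le_add le_rfl ?_) (h a)
    simp only [Pn, ql_swap hQ (Pn_meas hQ _) hg]
    rw [← lintegral_finsetSum _ fun n _ => (ql_l hQ a).fun_mul (ql_int (Pn_meas hQ n) hg _)]
    refine lintegral_mono fun y => ?_
    simp only [← Finset.mul_sum]
    exact mul_le_mul_right (ih y) _

lemma PP_shift (hB : MeasurableSet B) (c : E) (hc : ∀ a b, Q (a + c) (b + c) = Q a b) (a b : E) :
    PP Q B (a + c) (b + c) = PP Q ((fun u => u + c) ⁻¹' B) a b := by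
  refine tsum_congr fun n => ?_
  induction n generalizing a with
  | zero => exact hc a b
  | succ n ih =>
    simp only [Pn]
    rw [← lintegral_indicator hB.compl, ← lintegral_add_right_eq_self _ c,
      ← lintegral_indicator (hB.preimage (measurable_add_const c)).compl]
    refine lintegral_congr fun y => ?_
    by_cases hy : y + c ∈ B
    · simp [hy]
    · simp [hy, hc, ih]

lemma PP_int (hQ : Measurable (Function.uncurry Q)) {g : E → ℝ≥0∞} (hg : Measurable g)
    (C : Set E) (a : E) : ∫⁻ v in C, PP Q B a v * g v =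
      (∫⁻ v in C, Q a v * g v) + ∫⁻ y in Bᶜ, Q a y * ∫⁻ v in C, PP Q B y v * g v := by
  rw [← ql_swap hQ (PP_meas hQ) hg, ← lintegral_add_left ((ql_l hQ a).fun_mul hg)]
  refine lintegral_congr fun v => ?_
  rw [PP_eq hQ, add_mul]

noncomputable def wq (Q : E → E → ℝ≥0∞) {n : ℕ} (a b : E) (x : Fin n → E) : ℝ≥0∞ :=
  ∏ j : Fin (n + 1), Q (cns a x j) (snc x b j)

noncomputable def qp (Q : E → E → ℝ≥0∞) (n : ℕ) (a b : E) (S : Set (Fin n → E)) : ℝ≥0∞ :=
  ∫⁻ x, wq Q a b x * S.indicator 1 x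

lemma wq_meas (hQ : Measurable (Function.uncurry Q)) {X : Type} [MeasurableSpace X] {n : ℕ}
    {f g : X → E} {x : X → Fin n → E} (hf : Measurable f) (hg : Measurable g)
    (hx : Measurable x) : Measurable fun p => wq Q (f p) (g p) (x p) :=
  Finset.measurable_prod _ fun j _ => ql_ap hQ ((measurable_pi_apply j).comp (meas_cns hf hx))
    ((measurable_pi_apply j).comp (meas_snc hg hx))

lemma qp_meas (hQ : Measurable (Function.uncurry Q)) {n : ℕ} {S : Set (Fin n → E)}
    (hS : MeasurableSet S) : Measurable (Function.uncurry fun a b => qp Q n a b S) :=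
  Measurable.lintegral_prod_right' (f := fun p : (E × E) × (Fin n → E) =>
    wq Q p.1.1 p.1.2 p.2 * S.indicator 1 p.2)
    ((wq_meas hQ measurable_fst.fst measurable_fst.snd measurable_snd).fun_mul
      ((measurable_one.indicator hS).comp measurable_snd))

lemma qp_zero (a b : E) : qp Q 0 a b univ = Q a b := by
  simp [qp, wq, snc, Fin.snoc, volume_pi]

lemma qp_empty (n : ℕ) (a b : E) : qp Q n a b ∅ = 0 := by simp [qp]

lemma qp_succ (hQ : Measurable (Function.uncurry Q)) {n : ℕ} (a b : E)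
    {S : Set (Fin (n + 1) → E)} (hS : MeasurableSet S) {C : Set E} (hC : MeasurableSet C)
    {S1 S2 : Set (Fin n → E)} (h1 : ∀ y ∈ C, cns y ⁻¹' S = S1) (h2 : ∀ y ∉ C, cns y ⁻¹' S = S2) :
    qp Q (n + 1) a b S =
      (∫⁻ y in C, Q a y * qp Q n y b S1) + ∫⁻ y in Cᶜ, Q a y * qp Q n y b S2 := by
  have : qp Q (n + 1) a b S = ∫⁻ y, Q a y * qp Q n y b (cns y ⁻¹' S) := by
    rw [qp, lintegral_cns (G := fun x => wq Q a b x * S.indicator 1 x)
      ((wq_meas hQ measurable_const measurable_const measurable_id).fun_mul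
        (measurable_one.indicator hS))]
    refine lintegral_congr fun y => ?_
    rw [qp, ← lintegral_const_mul _ (f := fun x => wq Q y b x * (cns y ⁻¹' S).indicator 1 x)
      ((wq_meas hQ measurable_const measurable_const measurable_id).fun_mul
        (measurable_one.indicator (hS.preimage (by fun_prop))))]
    refine lintegral_congr fun x => ?_
    have : wq Q a b (cns y x) = Q a y * wq Q y b x := by
      unfold wq
      rw [Fin.prod_univ_succ, snc_cns]
      simp
    rw [this, mul_assoc]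
    rfl
  rw [this, ← lintegral_add_compl _ hC, setLIntegral_congr_fun hC fun y hy => by rw [h1 y hy],
    setLIntegral_congr_fun hC.compl fun y hy => by rw [h2 y hy]]

/-- no visit -/
def Nv (A : Set E) (n : ℕ) : Set (Fin n → E) := {x | ∀ j, x j ∉ A}

def Mv (A B : Set E) (n : ℕ) : Set (Fin n → E) :=
  {x | (∃ k, x k ∈ B) ∧ ∀ k l, k < l → x k ∈ B → x l ∉ A}

def Nw (A B : Set E) (n : ℕ) : Set (Fin n → E) := {x | ∃ k, x k ∈ B ∧ ∀ l, k < l → x l ∉ A}

lemma ms_Nv (hA : MeasurableSet A) (n : ℕ) : MeasurableSet (Nv A n) := ms_all hA.compl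

lemma ms_Mv (hA : MeasurableSet A) (hB : MeasurableSet B) (n : ℕ) : MeasurableSet (Mv A B n) := by
  unfold Mv
  measurability

lemma ms_Nw (hA : MeasurableSet A) (hB : MeasurableSet B) (n : ℕ) : MeasurableSet (Nw A B n) := by
  unfold Nw
  measurability

lemma qp_Nv (hQ : Measurable (Function.uncurry Q)) (hA : MeasurableSet A) (n : ℕ) (a b : E) :
    qp Q n a b (Nv A n) = Pn Q A n a b := by
  induction n generalizing a with
  | zero => rw [show Nv A 0 = univ by simp [Nv], qp_zero, Pn]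
  | succ n ih =>
    rw [qp_succ hQ a b (ms_Nv hA _) hA (S1 := ∅) (S2 := Nv A n)
      (fun y hy => by ext x; simp [Nv, Fin.forall_fin_succ, hy])
      fun y hy => by ext x; simp [Nv, Fin.forall_fin_succ, hy]]
    simp [qp_empty, ih, Pn]

lemma Mv_in {n : ℕ} {y : E} (hy : y ∈ B) : cns y ⁻¹' Mv A B (n + 1) = Nv A n := by
  ext x
  simp only [Mv, Nv, mem_preimage, mem_ofPred_eq]
  refine ⟨fun h j => h.2 0 j.succ (Fin.succ_pos j) hy, fun h => ⟨⟨0, hy⟩, fun k l hkl _ => ?_⟩⟩
  cases l using Fin.cases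
  · simp at hkl
  · exact h _

lemma Mv_out {n : ℕ} {y : E} (hy : y ∉ B) : cns y ⁻¹' Mv A B (n + 1) = Mv A B n := by
  ext x
  simp [Mv, Fin.forall_fin_succ, Fin.exists_fin_succ, hy]

lemma Nw_in {n : ℕ} {y : E} (hy : y ∈ B) : cns y ⁻¹' Nw A B (n + 1) = Nv A n ∪ Nw A B n := by
  ext x
  simp [Nw, Nv, Fin.forall_fin_succ, Fin.exists_fin_succ, hy]

lemma Nw_out {n : ℕ} {y : E} (hy : y ∉ B) : cns y ⁻¹' Nw A B (n + 1) = Nw A B n := by
  ext x
  simp [Nw, Fin.forall_fin_succ, Fin.exists_fin_succ, hy]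

/-- re-rooting of a loop -/
def qrot {n : ℕ} (r : Fin (n + 1)) (x : Fin (n + 1) → E) : Fin (n + 1) → E := fun k => x (k + r)

lemma lw_meas (hQ : Measurable (Function.uncurry Q)) (n : ℕ) :
    Measurable (lw Q : (Fin (n + 1) → E) → ℝ≥0∞) :=
  Finset.measurable_prod _ fun _ _ => ql_ap hQ (measurable_pi_apply _) (measurable_pi_apply _)

lemma qrot_meas {n : ℕ} (r : Fin (n + 1)) : Measurable (qrot r) :=
  measurable_pi_lambda _ fun _ => measurable_pi_apply _

lemma qrot_sum (hQ : Measurable (Function.uncurry Q)) {n : ℕ} {S : Set (Fin (n + 1) → E)}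
    (hS : MeasurableSet S) : ∫⁻ x, lw Q x * ∑ r, S.indicator 1 (qrot r x) =
      ((n : ℝ≥0∞) + 1) * ∫⁻ x, lw Q x * S.indicator 1 x := by
  have key : ∀ r, ∫⁻ x, lw Q x * S.indicator 1 (qrot r x) = ∫⁻ x, lw Q x * S.indicator 1 x := by
    intro r
    have h := (volume_measurePreserving_piCongrLeft (fun _ : Fin (n + 1) => E)
      (Equiv.addRight r)).symm _
    rw [← h.lintegral_comp ((lw_meas hQ n).fun_mul (measurable_one.indicator hS))]
    refine lintegral_congr fun x => ?_
    have e : (MeasurableEquiv.piCongrLeft (fun _ : Fin (n + 1) => E) (Equiv.addRight r)).symm x =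
        qrot r x := rfl
    rw [e, lw, lw, ← Equiv.prod_comp (Equiv.addRight r)]
    simp only [qrot, finRotate_apply, Equiv.coe_addRight, add_right_comm]
  simp only [Finset.mul_sum]
  rw [lintegral_finsetSum (f := fun r x => lw Q x * S.indicator 1 (qrot r x)) _ fun r _ =>
    (lw_meas hQ n).fun_mul ((measurable_one.indicator hS).comp (qrot_meas r))]
  simp [key]

lemma loop_qp (hQ : Measurable (Function.uncurry Q)) (hA : MeasurableSet A) {n : ℕ}
    {S : Set (Fin (n + 1) → E)} (hS : MeasurableSet S) {S1 : Set (Fin n → E)}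
    (h : ∀ y ∈ A, cns y ⁻¹' S = S1) :
    ∫⁻ x, lw Q x * ({x | x 0 ∈ A} ∩ S).indicator 1 x = ∫⁻ a in A, qp Q n a a S1 := by
  rw [lintegral_cns (G := fun x => lw Q x * ({x | x 0 ∈ A} ∩ S).indicator 1 x)
    ((lw_meas hQ n).fun_mul (measurable_one.indicator ((ms_at hA 0).inter hS))),
    ← lintegral_indicator hA]
  refine lintegral_congr fun a => ?_
  by_cases ha : a ∈ A
  · rw [indicator_of_mem ha, qp, ← h a ha]
    refine lintegral_congr fun x => ?_
    have : lw Q (cns a x) = wq Q a a x := by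
      simp only [wq, snc, Fin.snoc_eq_cons_rotate]
      rfl
    rw [this]
    by_cases hx : cns a x ∈ S <;> simp [hx, ha]
  · simp [ha]

lemma rot_M {n : ℕ} (x : Fin (n + 1) → E) :
    ∑ r, ({x | x 0 ∈ A} ∩ Mv A B (n + 1)).indicator (1 : (Fin (n + 1) → E) → ℝ≥0∞)
      (qrot r x) ≤
      (ev3 univ A B).indicator 1 x := by
  by_cases h : ∃ r, qrot r x ∈ {x | x 0 ∈ A} ∩ Mv A B (n + 1)
  · obtain ⟨r, h⟩ := h
    obtain ⟨h0, ⟨k, hk⟩, h1⟩ := id h
    rw [Finset.sum_eq_single r (fun s _ hs => indicator_of_notMem ?_ _) (by simp),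
      indicator_of_mem h, indicator_of_mem (show x ∈ ev3 univ A B from
        ⟨fun _ => trivial, ⟨_, h0⟩, _, hk⟩)]
    · rfl
    rintro ⟨g0, -, g1⟩
    have a1 : s - r ≤ k := not_lt.1 fun e => h1 k _ e hk (by simpa [qrot] using g0)
    have a2 : s - r ≠ 0 := sub_ne_zero.2 hs
    refine g1 (k - (s - r)) (-(s - r)) ?_ ?_ ?_
    · rw [Fin.lt_def, Fin.sub_val_of_le a1, Fin.val_neg, if_neg a2]
      have := k.2
      have := Fin.le_def.1 a1
      omega
    · rwa [qrot, show k - (s - r) + s = k + r by abel]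
    · rwa [qrot, show -(s - r) + s = 0 + r by abel]
  · rw [Finset.sum_eq_zero fun r _ => indicator_of_notMem (fun e => h ⟨r, e⟩) _]
    exact zero_le

lemma rot_N (hAB : Disjoint A B) {n : ℕ} (x : Fin (n + 1) → E) :
    (ev3 univ A B).indicator 1 x ≤
      ∑ r, ({x | x 0 ∈ A} ∩ Nw A B (n + 1)).indicator (1 : (Fin (n + 1) → E) → ℝ≥0∞)
        (qrot r x) := by
  by_cases h : x ∈ ev3 univ A B
  · obtain ⟨-, ⟨i, hi⟩, j, hj⟩ := id h
    obtain ⟨⟨i, j⟩, ⟨hi, hj⟩, hm⟩ := exists_min_image {p : Fin (n + 1) × Fin (n + 1) |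
      x p.1 ∈ A ∧ x p.2 ∈ B} (fun p => p.1 - p.2) (toFinite _) ⟨(i, j), hi, hj⟩
    have : qrot i x ∈ {x | x 0 ∈ A} ∩ Nw A B (n + 1) := by
      refine ⟨by simpa [qrot] using hi, j - i, by simpa [qrot] using hj, fun l hl e => ?_⟩
      have a1 := hm (l + i, j) ⟨e, hj⟩
      have a2 : j - i ≠ 0 := sub_ne_zero.2 fun e => disjoint_left.1 hAB hi (e ▸ hj)
      dsimp only at a1
      rw [show i - j = -(j - i) by abel, show l + i - j = l - (j - i) by abel, Fin.le_def,
        Fin.sub_val_of_le hl.le, Fin.val_neg, if_neg a2] at a1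
      have := l.2
      have := Fin.lt_def.1 hl
      omega
    rw [indicator_of_mem h]
    refine le_trans (le_of_eq ?_) (Finset.single_le_sum (fun _ _ => zero_le) (Finset.mem_univ i))
    rw [indicator_of_mem this]
    rfl
  · rw [indicator_of_notMem h]
    exact zero_le

lemma ql_inv (n : ℕ) (t : ℝ≥0∞) : ((n : ℝ≥0∞) + 1)⁻¹ * ((n + 1) * t) = t := by
  rw [← mul_assoc, ENNReal.inv_mul_cancel (by simp) (by simp), one_mul]

theorem loop_lower (hQ : Measurable (Function.uncurry Q)) (hA : MeasurableSet A)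
    (hB : MeasurableSet B) (hAB : Disjoint A B) : TG Q A B ≤ LL Q A B := by
  have hM := fun n => qp_meas hQ (ms_Mv hA hB n)
  calc TG Q A B ≤ ∫⁻ a in A, ∑' n, qp Q n a a (Mv A B n) := by
        refine lintegral_mono fun b => ?_
        have := PP_super (B := B) hQ (g := B.indicator fun v => PP Q A v b)
          (ψ := fun a => ∑' n, qp Q n a b (Mv A B n)) ((ql_r (PP_meas hQ) b).indicator hB)
          (fun a => ?_) b
        · simpa only [← indicator_mul_right, lintegral_indicator hB] using this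
        rw [ql_tsum fun n => qp Q n a b (Mv A B n)]
        refine le_trans (le_of_eq ?_) le_add_self
        simp only [qp_succ hQ a b (ms_Mv hA hB _) hB (fun _ => Mv_in) fun _ => Mv_out,
          ENNReal.tsum_add, qp_Nv hQ hA, ← indicator_mul_right, lintegral_indicator hB, PP,
          ← ENNReal.tsum_mul_left]
        rw [lintegral_tsum fun n => ((ql_l hQ a).fun_mul (ql_r (Pn_meas hQ n) b)).aemeasurable,
          lintegral_tsum fun n => ((ql_l hQ a).fun_mul (ql_r (hM n) b)).aemeasurable]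
    _ = ∑' n, ∫⁻ a in A, qp Q n a a (Mv A B n) :=
        lintegral_tsum fun n => (ql_ap (hM n) measurable_id measurable_id).aemeasurable
    _ ≤ _ := by
        refine ENNReal.tsum_le_tsum fun n => ?_
        rw [← loop_qp hQ hA (ms_Mv hA hB _) fun y hy => Mv_out (disjoint_left.1 hAB hy),
          ← ql_inv n (∫⁻ _, _), ← qrot_sum hQ ((ms_at hA 0).inter (ms_Mv hA hB _))]
        exact mul_le_mul_right (lintegral_mono fun x => mul_le_mul_right (rot_M x) _) _

theorem loop_upper (hQ : Measurable (Function.uncurry Q)) (hA : MeasurableSet A)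
    (hB : MeasurableSet B) (hAB : Disjoint A B) {α β : E → ℝ≥0∞} (hα : Measurable α)
    (hβ : Measurable β) (h1 : ∀ v ∈ B, ∀ a ∈ A, PP Q A v a ≤ α a)
    (h2 : ∀ a ∈ A, ∀ v ∈ B, PP Q B a v ≤ β v) {m : ℝ≥0∞} (m1 : ∫⁻ a in A, α a ≤ m)
    (m2 : ∫⁻ v in B, β v ≤ m) (hm : 2 * m ^ 2 ≤ 1) : LL Q A B ≤ TG Q A B + 2 * m ^ 4 := by
  have hN := fun n => qp_meas hQ (ms_Nw hA hB n)
  have hV := fun n => qp_meas hQ ((ms_Nv hA n).union (ms_Nw hA hB n))
  let R : E → ℝ≥0∞ := fun y => ∫⁻ u in A, PP Q A y u * 1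
  have mR : Measurable R := ql_int (PP_meas hQ) measurable_const _
  have hR : ∀ v ∈ B, R v ≤ m := fun v hv =>
    (setLIntegral_mono hα fun u hu => by simpa using h1 v hv u hu).trans m1
  have hZ : ∀ a ∈ A, ∀ (g : E → ℝ≥0∞) c, (∀ v ∈ B, g v ≤ c) →
      ∫⁻ v in B, PP Q B a v * g v ≤ m * c := fun a ha g c hg =>
    (setLIntegral_mono (hβ.mul_const c) fun v hv => mul_le_mul' (h2 a ha v hv) (hg v hv)).trans
      (by rw [lintegral_mul_const _ hβ]; exact mul_le_mul_left m2 _)
  have key : ∀ b ∈ A, ∑' n, qp Q n b b (Nw A B n) ≤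
      (∫⁻ v in B, PP Q B b v * PP Q A v b) + 2 * m ^ 3 * α b := by
    intro b hb
    let V : E → ℝ≥0∞ := fun y => PP Q A y b + 2 * m * α b * R y
    have mV : Measurable V := (ql_r (PP_meas hQ) b).add (mR.const_mul _)
    let U : E → ℝ≥0∞ := fun a => ∫⁻ v in B, PP Q B a v * V v
    have hU : ∀ a ∈ A, U a ≤ 2 * m * α b := fun a ha =>
      calc U a ≤ m * (α b + 2 * m * α b * m) := hZ a ha V _ fun v hv =>
            add_le_add (h1 v hv b hb) (mul_le_mul_right (hR v hv) _)
        _ = m * α b * (1 + 2 * m ^ 2) := by ring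
        _ ≤ m * α b * (1 + 1) := by gcongr
        _ = _ := by ring
    have ind : ∀ k, (∀ a, ∑ n ∈ Finset.range k, qp Q n a b (Nw A B n) ≤ U a) ∧
        ∀ y, ∑ n ∈ Finset.range k, qp Q n y b (Nv A n ∪ Nw A B n) ≤ V y := by
      intro k
      induction k with
      | zero => simp
      | succ k ih =>
        have s1 : ∀ a C, ∑ n ∈ Finset.range k, ∫⁻ y in C, Q a y * qp Q n y b (Nw A B n) ≤
            ∫⁻ y in C, Q a y * U y := fun a C => by
          rw [← lintegral_finsetSum _ fun n _ => (ql_l hQ a).fun_mul (ql_r (hN n) b)]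
          refine lintegral_mono fun y => ?_
          simp only [← Finset.mul_sum]
          exact mul_le_mul_right (ih.1 y) _
        have s2 : ∀ a C, ∑ n ∈ Finset.range k, ∫⁻ y in C, Q a y * qp Q n y b (Nv A n ∪ Nw A B n) ≤
            ∫⁻ y in C, Q a y * V y := fun a C => by
          rw [← lintegral_finsetSum _ fun n _ => (ql_l hQ a).fun_mul (ql_r (hV n) b)]
          refine lintegral_mono fun y => ?_
          simp only [← Finset.mul_sum]
          exact mul_le_mul_right (ih.2 y) _
        refine ⟨fun a => ?_, fun y => ?_⟩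
        · rw [Finset.sum_range_succ', show Nw A B 0 = ∅ by simp [Nw], qp_empty, add_zero]
          simp only [qp_succ hQ a b (ms_Nw hA hB _) hB (fun _ => Nw_in) fun _ => Nw_out,
            Finset.sum_add_distrib]
          exact (add_le_add (s2 a _) (s1 a _)).trans (PP_int hQ mV B a).ge
        · have e : ∀ n, qp Q (n + 1) y b (Nv A (n + 1) ∪ Nw A B (n + 1)) =
              (∫⁻ u in A, Q y u * qp Q n u b (Nw A B n)) +
                ∫⁻ u in Aᶜ, Q y u * qp Q n u b (Nv A n ∪ Nw A B n) := fun n =>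
            qp_succ hQ y b ((ms_Nv hA _).union (ms_Nw hA hB _)) hA (fun u hu => by
              rw [preimage_union, Nw_out (disjoint_left.1 hAB hu)]
              ext x
              simp [Nv, Fin.forall_fin_succ, hu]) fun u hu => by
              have : cns u ⁻¹' Nv A (n + 1) = Nv A n := by
                ext x
                simp [Nv, Fin.forall_fin_succ, hu]
              rw [preimage_union, this]
              by_cases hu' : u ∈ B
              · rw [Nw_in hu', ← union_assoc, union_self]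
              · rw [Nw_out hu']
          rw [Finset.sum_range_succ', show Nv A 0 ∪ Nw A B 0 = univ by simp [Nv], qp_zero]
          simp only [e, Finset.sum_add_distrib]
          have t1 : ∫⁻ u in A, Q y u * U u ≤ 2 * m * α b * ∫⁻ u in A, Q y u * 1 := by
            rw [← lintegral_const_mul _ ((ql_l hQ y).mul_const 1)]
            refine setLIntegral_mono (((ql_l hQ y).mul_const 1).const_mul _) fun u hu => ?_
            rw [mul_one, mul_comm]
            exact mul_le_mul_left (hU u hu) _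
          have t2 : ∫⁻ u in Aᶜ, Q y u * V u = (∫⁻ u in Aᶜ, Q y u * PP Q A u b) +
              2 * m * α b * ∫⁻ u in Aᶜ, Q y u * R u := by
            rw [← lintegral_const_mul _ ((ql_l hQ y).fun_mul mR),
              ← lintegral_add_left ((ql_l hQ y).fun_mul (ql_r (PP_meas hQ) b))]
            refine lintegral_congr fun u => ?_
            simp only [V]
            ring
          refine (add_le_add (add_le_add ((s1 y _).trans t1) ((s2 y _).trans t2.le))
            le_rfl).trans (le_of_eq ?_)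
          simp only [V]
          rw [PP_eq hQ y b, show R y = _ from PP_int hQ measurable_const A y]
          ring
    rw [ENNReal.tsum_eq_iSup_nat]
    refine (iSup_le fun k => (ind k).1 b).trans ?_
    simp only [U, V, mul_add]
    rw [lintegral_add_left ((ql_l (PP_meas hQ) b).fun_mul (ql_r (PP_meas hQ) b))]
    refine add_le_add le_rfl ((hZ b hb _ (2 * m * α b * m) fun v hv =>
      mul_le_mul_right (hR v hv) _).trans (le_of_eq (by ring)))
  calc LL Q A B ≤ ∑' n, ∫⁻ a in A, qp Q n a a (Nw A B n) := by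
        refine ENNReal.tsum_le_tsum fun n => ?_
        rw [← loop_qp hQ hA (ms_Nw hA hB _) fun y hy => Nw_out (disjoint_left.1 hAB hy),
          ← ql_inv n (∫⁻ _, _), ← qrot_sum hQ ((ms_at hA 0).inter (ms_Nw hA hB _))]
        exact mul_le_mul_right (lintegral_mono fun x => mul_le_mul_right (rot_N hAB x) _) _
    _ = ∫⁻ a in A, ∑' n, qp Q n a a (Nw A B n) :=
        (lintegral_tsum fun n => (ql_ap (hN n) measurable_id measurable_id).aemeasurable).symm
    _ ≤ ∫⁻ b in A, ((∫⁻ v in B, PP Q B b v * PP Q A v b) + 2 * m ^ 3 * α b) :=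
        setLIntegral_mono' hA key
    _ ≤ _ := by
        rw [lintegral_add_right _ (hα.const_mul _), lintegral_const_mul _ hα]
        exact add_le_add le_rfl ((mul_le_mul_right m1 _).trans (le_of_eq (by ring)))

end L

end Pool.Agent.Lib.MP_c1b9d3_an
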