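import Pool.Agent.Lib.MP_c1b9d3_an.QDef
import Pool.Agent.Lib.MP_c1b9d3_an.BFan

namespace Pool.Agent.Lib.MP_c1b9d3_an

open MeasureTheory Real Filter Topology Set Pool.Agent.Lib.MP_2d4879_an Asymptotics

/-- exponential decay with rate `c` -/
def Dc (D : ℝ → ℝ) (c : ℝ) : Prop := D =O[atTop] fun z => exp (-(c * z))

lemma Dc.mono {D : ℝ → ℝ} {c c' : ℝ} (h : Dc D c) (hc : c' ≤ c) : Dc D c' :=
  IsBigO.trans h (IsBigO.of_norm_eventuallyLE (by
    filter_upwards [eventually_ge_atTop 0] with z hz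
    rw [norm_eq_abs, abs_exp]
    exact exp_le_exp.2 (by nlinarith)))

lemma Dc.scale {D : ℝ → ℝ} {c l : ℝ} (h : Dc D c) (hl : 0 < l) :
    Dc (fun z => D (l * z)) (c * l) := by
  have := IsBigO.comp_tendsto h (tendsto_id.const_mul_atTop hl)
  simpa only [Dc, Function.comp_def, id, mul_assoc] using this

lemma Dc.unscale {D : ℝ → ℝ} {c l : ℝ} (h : Dc (fun z => D (l * z)) c) (hl : 0 < l) :
    Dc D (c / l) := by
  simpa only [mul_inv_cancel_left₀ hl.ne', div_eq_mul_inv] using h.scale (inv_pos.2 hl)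

lemma Dc.not {D : ℝ → ℝ} {a b k : ℝ} (h : Dc D b) (hab : a < b) (hk : 0 < k)
    (hD : ∀ᶠ z in atTop, k * exp (-(a * z)) ≤ D z) : False := by
  obtain ⟨C, hC⟩ := h.bound
  have h1 : Tendsto (fun z => C * exp (-((b - a) * z))) atTop (𝓝 (C * 0)) :=
    (tendsto_exp_neg_atTop_nhds_zero.comp
      (tendsto_id.const_mul_atTop (sub_pos.2 hab))).const_mul C
  rw [mul_zero] at h1
  obtain ⟨z, h2, h3, h4⟩ := (hC.and (hD.and (h1.eventually (gt_mem_nhds hk)))).exists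
  rw [norm_eq_abs, norm_eq_abs, abs_exp,
    show -(b * z) = -((b - a) * z) + -(a * z) by ring, exp_add, ← mul_assoc] at h2
  nlinarith [le_abs_self (D z), exp_pos (-(a * z))]

noncomputable def Jw (u : ℝ → ℝ) (z : ℝ) : ℝ :=
  ∫ r in (0 : ℝ)..11 / 20, exp (-(z * (2 + r ^ 2))) * (u r * r)

def Iw : Set ℝ := Ioo (-(14 / 25)) (14 / 25)

lemma Iw_sub : Icc (0 : ℝ) (11 / 20) ⊆ Iw := fun _ h => ⟨by linarith [h.1], by linarith [h.2]⟩

lemma jw_int {v : ℝ → ℝ} (hv : ContinuousOn v (Icc 0 (11 / 20))) {a b : ℝ}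
    (ha : a ∈ Icc (0 : ℝ) (11 / 20)) (hb : b ∈ Icc (0 : ℝ) (11 / 20)) (z : ℝ) :
    IntervalIntegrable (fun r => exp (-(z * (2 + r ^ 2))) * v r) volume a b :=
  (ContinuousOn.mul (by fun_prop) (hv.mono (uIcc_subset_Icc ha hb))).intervalIntegrable

lemma jw_tail {v : ℝ → ℝ} (hv : ContinuousOn v (Icc 0 (11 / 20))) {e : ℝ}
    (he : e ∈ Icc (0 : ℝ) (11 / 20)) :
    Dc (fun z => ∫ r in e..11 / 20, exp (-(z * (2 + r ^ 2))) * v r) (2 + e ^ 2) := by
  obtain ⟨M, hM⟩ := isCompact_Icc.exists_bound_of_continuousOn hv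
  refine IsBigO.of_bound (M * |11 / 20 - e|) ?_
  filter_upwards [eventually_ge_atTop 0] with z hz
  refine (intervalIntegral.norm_integral_le_of_norm_le_const (C := exp (-((2 + e ^ 2) * z)) * M)
    fun r hr => ?_).trans (le_of_eq (by rw [norm_eq_abs, abs_exp]; ring))
  rw [uIoc_of_le he.2] at hr
  rw [norm_mul, norm_eq_abs, abs_exp]
  refine mul_le_mul (exp_le_exp.2 ?_) (hM r ⟨he.1.trans hr.1.le, hr.2⟩) (norm_nonneg _)
    (exp_pos _).le
  nlinarith [mul_nonneg hz (sub_nonneg.2 (pow_le_pow_left₀ he.1 hr.1.le 2))]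

lemma jw_pos {v : ℝ → ℝ} (hv : ContinuousOn v (Icc 0 (11 / 20))) {e d : ℝ} (he : 0 < e)
    (he' : e ≤ 11 / 20) (hd : 0 < d) (hp : ∀ r ∈ Ioo 0 e, 0 < v r)
    (h : Dc (fun z => ∫ r in (0 : ℝ)..11 / 20, exp (-(z * (2 + r ^ 2))) * v r) (2 + d)) :
    False := by
  obtain ⟨ρ, r1, r2, r0⟩ : ∃ ρ, ρ < e ∧ ρ ^ 2 < d ∧ 0 < ρ := by
    have : ∀ᶠ ρ : ℝ in 𝓝 0, ρ ^ 2 < d :=
      ((continuous_pow 2).tendsto' 0 0 (by simp)).eventually (gt_mem_nhds hd)
    exact ((((gt_mem_nhds he).and this).filter_mono nhdsWithin_le_nhds).and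
      (self_mem_nhdsWithin (s := Ioi 0))).exists.imp fun _ h => ⟨h.1.1, h.1.2, h.2⟩
  have m0 : (0 : ℝ) ∈ Icc (0 : ℝ) (11 / 20) := ⟨le_rfl, by norm_num⟩
  have m1 : ρ ∈ Icc (0 : ℝ) (11 / 20) := ⟨r0.le, by linarith⟩
  have m2 : e ∈ Icc (0 : ℝ) (11 / 20) := ⟨he.le, he'⟩
  have m3 : (11 / 20 : ℝ) ∈ Icc (0 : ℝ) (11 / 20) := ⟨by norm_num, le_rfl⟩
  have i0 : IntervalIntegrable v volume 0 ρ :=
    (hv.mono (uIcc_subset_Icc m0 m1)).intervalIntegrable
  have a1 : ρ ^ 2 < e ^ 2 := by gcongr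
  refine Dc.not (a := 2 + ρ ^ 2) (b := 2 + min d (e ^ 2)) (k := ∫ r in (0 : ℝ)..ρ, v r)
    (IsBigO.sub (h.mono (by simp)) ((jw_tail hv m2).mono (by simp))) (by simp [r2, a1])
    (intervalIntegral.intervalIntegral_pos_of_pos_on i0
      (fun r hr => hp r ⟨hr.1, hr.2.trans r1⟩) r0) ?_
  filter_upwards [eventually_ge_atTop 0] with z hz
  rw [← intervalIntegral.integral_add_adjacent_intervals (jw_int hv m0 m2 z) (jw_int hv m2 m3 z),
    add_sub_cancel_right,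
    ← intervalIntegral.integral_add_adjacent_intervals (jw_int hv m0 m1 z) (jw_int hv m1 m2 z),
    ← intervalIntegral.integral_mul_const]
  refine le_add_of_le_of_nonneg (intervalIntegral.integral_mono_on_of_le_Ioo r0.le (i0.mul_const _)
    (jw_int hv m0 m1 z) fun r hr => ?_) ?_
  · rw [mul_comm]
    refine mul_le_mul_of_nonneg_right (exp_le_exp.2 ?_) (hp r ⟨hr.1, hr.2.trans r1⟩).le
    nlinarith [mul_nonneg hz (sub_nonneg.2 (pow_le_pow_left₀ hr.1.le hr.2.le 2))]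
  · have := intervalIntegral.integral_mono_on_of_le_Ioo (f := fun _ => (0 : ℝ)) r1.le
      intervalIntegrable_const (jw_int hv m1 m2 z) fun r hr =>
        mul_nonneg (exp_pos _).le (hp r ⟨r0.trans hr.1, hr.2⟩).le
    simpa using this

lemma jw_cont {u : ℝ → ℝ} (hu : AnalyticOnNhd ℝ u Iw) :
    ContinuousOn (fun r => u r * r) (Icc 0 (11 / 20)) :=
  (hu.continuousOn.mono Iw_sub).mul continuousOn_id

theorem watson {u : ℝ → ℝ} (hu : AnalyticOnNhd ℝ u Iw) {d : ℝ} (hd : 0 < d)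
    (h : Dc (Jw u) (2 + d)) : EqOn u 0 Iw := by
  have m0 : (0 : ℝ) ∈ Iw := Iw_sub ⟨le_rfl, by norm_num⟩
  rcases (hu 0 m0).eventually_eq_zero_or_eventually_ne_zero with h1 | h1
  · exact hu.eqOn_zero_of_preconnected_of_eventuallyEq_zero isPreconnected_Ioo m0 h1
  exfalso
  obtain ⟨e', e0, h2⟩ := mem_nhdsGT_iff_exists_Ioo_subset.1 (h1.filter_mono (nhdsGT_le_nhdsNE 0))
  set e := min e' (11 / 20)
  have e1 : 0 < e := lt_min e0 (by norm_num)
  have e2 : e ≤ 11 / 20 := min_le_right _ _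
  have h3 : ∀ r ∈ Ioo 0 e, u r ≠ 0 := fun r hr => h2 ⟨hr.1, hr.2.trans_le (min_le_left _ _)⟩
  have hc : ContinuousOn u (Ioo 0 e) := hu.continuousOn.mono fun r hr =>
    Iw_sub ⟨hr.1.le, hr.2.le.trans e2⟩
  by_cases h4 : ∀ r ∈ Ioo 0 e, 0 < u r
  · exact jw_pos (jw_cont hu) e1 e2 hd (fun r hr => mul_pos (h4 r hr) hr.1) h
  push Not at h4
  obtain ⟨x, hx, h4⟩ := h4
  refine jw_pos (jw_cont hu.neg) e1 e2 hd (fun r hr => mul_pos (neg_pos.2 ?_) hr.1) ?_
  · by_contra h5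
    obtain ⟨w, hw, h6⟩ := isPreconnected_Ioo.intermediate_value hx hr hc ⟨h4, not_lt.1 h5⟩
    exact h3 w hw h6
  · refine (IsBigO.neg_left h).congr_left fun z => ?_
    simp [Jw]

/-- functions with an analytic Laplace germ -/
def Wa (D : ℝ → ℝ) : Prop :=
  ∃ u, AnalyticOnNhd ℝ u Iw ∧ Dc (fun z => D z - Jw u z) (23 / 10)

lemma Wa.zero : Wa fun _ => 0 :=
  ⟨fun _ => 0, analyticOnNhd_const, by simpa [Dc, Jw] using isBigO_zero _ _⟩

lemma Wa.add {D D' : ℝ → ℝ} (h : Wa D) (h' : Wa D') (k : ℝ) : Wa fun z => D z + k * D' z := by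
  obtain ⟨u, h1, h2⟩ := h
  obtain ⟨v, h3, h4⟩ := h'
  refine ⟨fun r => u r + k * v r, h1.add (analyticOnNhd_const.mul h3),
    (IsBigO.add h2 (IsBigO.const_mul_left h4 k)).congr_left fun z => ?_⟩
  have m0 : (0 : ℝ) ∈ Icc (0 : ℝ) (11 / 20) := ⟨le_rfl, by norm_num⟩
  have m3 : (11 / 20 : ℝ) ∈ Icc (0 : ℝ) (11 / 20) := ⟨by norm_num, le_rfl⟩
  have : Jw (fun r => u r + k * v r) z = Jw u z + k * Jw v z := by
    rw [Jw, Jw, Jw, ← intervalIntegral.integral_const_mul, ← intervalIntegral.integral_add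
      (jw_int (jw_cont h1) m0 m3 z) ((jw_int (jw_cont h3) m0 m3 z).const_mul k)]
    exact intervalIntegral.integral_congr fun r _ => by ring
  rw [this]
  ring

lemma Wa.sum {s : Finset ℕ} {L : ℕ → ℝ → ℝ} (h : ∀ i ∈ s, Wa (L i)) :
    Wa fun z => ∑ i ∈ s, L i z := by
  induction s using Finset.induction_on with
  | empty => simpa using Wa.zero
  | insert a s ha ih =>
    simpa [Finset.sum_insert ha] using (h a (by simp)).add (ih fun i hi => h i (by simp [hi])) 1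

lemma Wa.two {D : ℝ → ℝ} (h : Wa D) : Dc D 2 := by
  obtain ⟨u, h1, h2⟩ := h
  exact (IsBigO.add (h2.mono (by norm_num)) ((jw_tail (jw_cont h1) ⟨le_rfl, by norm_num⟩).mono
    (by norm_num))).congr_left fun z => sub_add_cancel _ _

lemma Wa.jump {D : ℝ → ℝ} (h : Wa D) {c : ℝ} (hc : 2 < c) (hD : Dc D c) : Dc D (23 / 10) := by
  obtain ⟨u, h1, h2⟩ := h
  have := watson h1 (d := min c (23 / 10) - 2) (by simp [hc]; norm_num)
    ((IsBigO.sub (hD.mono (by simp)) (h2.mono (by simp))).congr_left fun z => sub_sub_cancel _ _)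
  refine h2.congr_left fun z => ?_
  rw [Jw, intervalIntegral.integral_congr (g := fun _ => 0) fun r hr => ?_]
  · simp
  rw [uIcc_of_le (by norm_num)] at hr
  simp [this (Iw_sub hr)]

/-- lower bounds -/
def Lw (L : ℝ → ℝ) : Prop := ∀ δ, 0 < δ → ∀ᶠ z in atTop, exp (-((2 + δ) * z)) ≤ L z

lemma Lw.sum {s : Finset ℕ} {L : ℕ → ℝ → ℝ} (h : ∀ i ∈ s, Lw (L i)) (hs : s.Nonempty) {c : ℝ}
    (hc : 2 < c) (hD : Dc (fun z => ∑ i ∈ s, L i z) c) : False := by
  obtain ⟨i, hi⟩ := hs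
  refine hD.not (a := 2 + (c - 2) / 2) (by linarith) one_pos ?_
  filter_upwards [(eventually_all_finset s).2 fun j hj => h j hj ((c - 2) / 2) (by linarith)]
    with z hz
  rw [one_mul]
  exact (hz i hi).trans (Finset.single_le_sum (fun j hj => (exp_pos _).le.trans (hz j hj)) hi)

theorem qm_core {s t : Finset ℕ} {p q : ℕ → ℝ} {L L' : ℕ → ℝ → ℝ} (w1 : ∀ i ∈ s, Wa (L i))
    (w2 : ∀ j ∈ t, Wa (L' j)) (l1 : ∀ i ∈ s, Lw (L i)) (l2 : ∀ j ∈ t, Lw (L' j)) {μ : ℝ}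
    (hμ : 0 < μ) (m1 : ∀ i ∈ s, μ ≤ p i) (m2 : ∀ j ∈ t, μ ≤ q j)
    (m3 : (∃ i ∈ s, p i = μ) ∨ ∃ j ∈ t, q j = μ)
    (iso : Dc (fun z => ∑ i ∈ s, L i (p i * z) - ∑ j ∈ t, L' j (q j * z)) (5 / 2 * μ))
    (near : ∀ i ∈ s, ∀ j ∈ s, p i ≤ 11 / 10 * p j) (inj : ∀ i ∈ s, ∀ j ∈ s, p i = p j → i = j)
    (per : ∑ i ∈ s, p i = ∑ j ∈ t, q j) :
    ∀ i ∈ s, ∃ j ∈ t, q j = p i ∧ Dc (fun z => L i z - L' j z) (41 / 20) := by
  classical
  let S := s.image p ∪ t.image q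
  let D : ℝ → ℝ → ℝ := fun l z => ∑ i ∈ s with p i = l, L i z - ∑ j ∈ t with q j = l, L' j z
  have hS : ∀ l ∈ S, μ ≤ l := fun l hl => by
    simp only [S, Finset.mem_union, Finset.mem_image] at hl
    rcases hl with ⟨i, hi, rfl⟩ | ⟨i, hi, rfl⟩
    exacts [m1 i hi, m2 i hi]
  have hW : ∀ l, Wa (D l) := fun l => by
    simpa [← sub_eq_add_neg] using (Wa.sum fun i hi => w1 i (Finset.mem_filter.1 hi).1).add
      (Wa.sum (s := t.filter (q · = l)) fun i hi => w2 i (Finset.mem_filter.1 hi).1) (-1)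
  have tot : ∀ z, ∑ l ∈ S, D l (l * z) = ∑ i ∈ s, L i (p i * z) - ∑ j ∈ t, L' j (q j * z) :=
    fun z => by
      rw [Finset.sum_sub_distrib, ← Finset.sum_fiberwise_of_maps_to (s := s) (t := S) (g := p)
        (fun i hi => Finset.mem_union_left _ (Finset.mem_image_of_mem _ hi)),
        ← Finset.sum_fiberwise_of_maps_to (s := t) (t := S) (g := q)
        (fun i hi => Finset.mem_union_right _ (Finset.mem_image_of_mem _ hi))]
      congr 1 <;> exact Finset.sum_congr rfl fun l _ => Finset.sum_congr rfl fun i hi => by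
        rw [(Finset.mem_filter.1 hi).2]
  have good : ∀ l ∈ S, Dc (fun z => D l (l * z)) (23 / 10 * μ) := by
    by_contra hn
    push Not at hn
    obtain ⟨l, hl, hm⟩ := Finset.exists_min_image
      (S.filter fun l => ¬ Dc (fun z => D l (l * z)) (23 / 10 * μ)) id
      (hn.imp fun l h => Finset.mem_filter.2 h)
    obtain ⟨h1, h2⟩ := Finset.mem_filter.1 hl
    have l0 := hμ.trans_le (hS l h1)
    refine h2 ?_
    rcases le_or_gt (23 / 10 * μ) (2 * l) with h3 | h3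
    · exact ((hW l).two.scale l0).mono h3
    obtain ⟨c, ⟨c1, c2⟩, c3⟩ := ((((gt_mem_nhds h3).and ((eventually_all_finset S
      (p := fun l' c => l < l' → c < 2 * l')).2 fun l' _ => by
        by_cases e : l < l'
        · exact (gt_mem_nhds (by linarith : 2 * l < 2 * l')).mono fun _ h _ => h
        · simp [e])).filter_mono nhdsWithin_le_nhds).and
      (self_mem_nhdsWithin (s := Ioi (2 * l)))).exists
    have a1 : Dc (fun z => ∑ l' ∈ S.erase l, D l' (l' * z)) c := IsBigO.fun_sum fun l' hl' => by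
      obtain ⟨b1, b2⟩ := Finset.mem_erase.1 hl'
      rcases lt_or_gt_of_ne b1 with b3 | b3
      · by_contra b4
        exact (hm l' (Finset.mem_filter.2 ⟨b2, fun b5 => b4 (b5.mono c1.le)⟩)).not_gt b3
      · exact ((hW l').two.scale (l0.trans b3)).mono (c2 l' b2 b3).le
    have a2 : Dc (fun z => D l (l * z)) c :=
      (IsBigO.sub (iso.mono (by linarith)) a1).congr_left fun z => by
        rw [← tot, ← Finset.add_sum_erase _ _ h1, add_sub_cancel_right]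
    exact (((hW l).jump ((lt_div_iff₀ l0).2 c3) (a2.unscale l0)).scale l0).mono
      (by linarith [hS l h1])
  have both : ∀ l ∈ S, 2 * l < 23 / 10 * μ → (∃ i ∈ s, p i = l) ∧ ∃ j ∈ t, q j = l := by
    intro l hl h1
    have l0 := hμ.trans_le (hS l hl)
    have h2 := (good l hl).unscale l0
    have h3 := (lt_div_iff₀ l0).2 h1
    have h4 : (∃ i ∈ s, p i = l) ∨ ∃ j ∈ t, q j = l := by
      simpa only [S, Finset.mem_union, Finset.mem_image] using hl
    refine ⟨by_contra fun hn => ?_, by_contra fun hn => ?_⟩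
    · have e : s.filter (p · = l) = ∅ := Finset.filter_eq_empty_iff.2 fun i hi h => hn ⟨i, hi, h⟩
      refine Lw.sum (s := t.filter (q · = l)) (fun i hi => l2 i (Finset.mem_filter.1 hi).1)
        ((h4.resolve_left hn).imp fun _ h => Finset.mem_filter.2 h) h3 ?_
      simpa [D, e, Dc] using h2
    · have e : t.filter (q · = l) = ∅ := Finset.filter_eq_empty_iff.2 fun i hi h => hn ⟨i, hi, h⟩
      refine Lw.sum (s := s.filter (p · = l)) (fun i hi => l1 i (Finset.mem_filter.1 hi).1)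
        ((h4.resolve_right hn).imp fun _ h => Finset.mem_filter.2 h) h3 ?_
      simpa [D, e, Dc] using h2
  obtain ⟨i₀, hi₀, e₀⟩ := (both μ (by
    simpa only [S, Finset.mem_union, Finset.mem_image] using m3) (by linarith)).1
  have mem : ∀ i ∈ s, p i ∈ S := fun i hi => Finset.mem_union_left _ (Finset.mem_image_of_mem _ hi)
  have le : ∀ i ∈ s, p i ≤ 11 / 10 * μ := fun i hi => e₀ ▸ near i hi i₀ hi₀
  choose! J hJ hJ' using fun i hi => (both _ (mem i hi) (by linarith [le i hi])).2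
  have surj : s.image J = t := by
    refine Finset.eq_of_subset_of_card_le (Finset.image_subset_iff.2 hJ) (not_lt.1 fun h => ?_)
    obtain ⟨j, h1, h2⟩ := Finset.exists_mem_notMem_of_card_lt_card h
    have := Finset.sum_lt_sum_of_subset (Finset.image_subset_iff.2 hJ) h1 h2
      (hμ.trans_le (m2 j h1)) fun k hk _ => (hμ.trans_le (m2 k hk)).le
    rw [Finset.sum_image fun a ha b hb e => inj a ha b hb (by rw [← hJ' a ha, e, hJ' b hb]),
      Finset.sum_congr rfl hJ'] at this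
    exact this.ne per
  refine fun i hi => ⟨J i, hJ i hi, hJ' i hi, ?_⟩
  have l0 := hμ.trans_le (m1 i hi)
  have e1 : s.filter (p · = p i) = {i} := Finset.eq_singleton_iff_unique_mem.2
    ⟨by simp [hi], fun k hk => inj k (Finset.mem_filter.1 hk).1 i hi (Finset.mem_filter.1 hk).2⟩
  have e2 : t.filter (q · = p i) = {J i} := Finset.eq_singleton_iff_unique_mem.2
    ⟨by simp [hJ i hi, hJ' i hi], fun k hk => by
      obtain ⟨h1, h2⟩ := Finset.mem_filter.1 hk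
      obtain ⟨a, ha, rfl⟩ := Finset.mem_image.1 (surj ▸ h1)
      rw [inj a ha i hi ((hJ' a ha).symm.trans h2)]⟩
  have := ((good _ (mem i hi)).unscale l0).mono (c' := 41 / 20)
    ((le_div_iff₀ l0).2 (by linarith [le i hi]))
  simpa [D, e1, e2] using this

lemma qm_cot {a : ℝ} (h0 : 0 < a) (h1 : a ≤ 1 / 4) : 7 / 2 ≤ cot a := by
  rw [cot_eq_cos_div_sin, le_div_iff₀ (sin_pos_of_pos_of_lt_pi h0 (by linarith [pi_gt_three]))]
  nlinarith [sin_le h0.le, one_sub_sq_div_two_le_cos (x := a)]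

lemma qm_anti {a b : ℝ} (h0 : 0 < a) (h : a < b) (h1 : b ≤ 1 / 4) : cot b < cot a := by
  have := pi_gt_three
  rw [cot_eq_cos_div_sin, cot_eq_cos_div_sin, div_lt_div_iff₀
    (sin_pos_of_pos_of_lt_pi (by linarith) (by linarith)) (sin_pos_of_pos_of_lt_pi h0 (by linarith))]
  have := sin_pos_of_pos_of_lt_pi (sub_pos.2 h) (by linarith)
  rw [sin_sub] at this
  linarith

theorem match_of
    (an : ∀ {x y : ℝ}, 7 / 2 ≤ x → y ≤ -(7 / 2) → ∃ u : ℝ → ℝ,
      AnalyticOnNhd ℝ u (Ioo (-(14 / 25)) (14 / 25)) ∧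
      (fun z => Lap x y z - ∫ r in (0 : ℝ)..11 / 20, exp (-(z * (2 + r ^ 2))) * (u r * r))
        =O[atTop] fun z => exp (-(23 / 10 * z)))
    (mono : ∀ {x y x' y' z : ℝ}, 0 < x → y < 0 → x ≤ x' → y' ≤ y → 1 / 2 ≤ z →
      (x' - y') * Lap x' y' z ≤ (x - y) * Lap x y z)
    (lower : ∀ {x y : ℝ}, 0 < x → y < 0 → ∀ {δ : ℝ}, 0 < δ →
      ∀ᶠ z in atTop, exp (-((2 + δ) * z)) ≤ Lap x y z)
    (iso : ∀ {f g : GF} {b c : ℤ → ℝ}, Fine f b → Fine g c → Iso (f.set b) (g.set c) →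
      ∑ i ∈ Finset.range f.n, f.ln b i = ∑ j ∈ Finset.range g.n, g.ln c j → ∀ {μ : ℝ},
      0 < μ → (∀ i, μ ≤ f.ln b i) → (∀ j, μ ≤ g.ln c j) →
      (fun z => ∑ i ∈ Finset.range f.n, Lap (cot (f.e i)) (-cot (f.e (i + 1))) (f.ln b i * z) -
        ∑ j ∈ Finset.range g.n, Lap (cot (g.e j)) (-cot (g.e (j + 1))) (g.ln c j * z))
        =O[atTop] fun z => exp (-(5 / 2 * μ * z))) : Match := by
  refine ⟨fun p q a b => Dc (fun z => Lap (cot p) (-cot q) z - Lap (cot a) (-cot b) z) (41 / 20),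
    fun p q a b a' b' h h' a0 b0 a1 b1 ha hb => ?_, fun f g b c hf hg he near inj per i hi => ?_⟩
  · have x1 := qm_cot (a0.trans_le ha) a1
    have x2 := qm_cot (b0.trans_le hb) b1
    have x3 : cot a' ≤ cot a := ha.eq_or_lt.elim (fun e => e ▸ le_rfl) fun e => (qm_anti a0 e a1).le
    have x4 : cot b' ≤ cot b := hb.eq_or_lt.elim (fun e => e ▸ le_rfl) fun e => (qm_anti b0 e b1).le
    by_contra hn
    have x5 : cot a' + cot b' < cot a + cot b := by
      rcases not_and_or.1 hn with e | e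
      · linarith [qm_anti a0 (ha.lt_of_ne e) a1]
      · linarith [qm_anti b0 (hb.lt_of_ne e) b1]
    refine Dc.not (a := 2 + 1 / 40) (k := (cot a + cot b) / (cot a' + cot b') - 1)
      (IsBigO.sub h h') (by norm_num) (sub_pos.2 ((one_lt_div (by linarith)).2 x5)) ?_
    filter_upwards [eventually_ge_atTop (1 / 2), lower (x := cot a) (y := -cot b) (by linarith)
      (by linarith) (δ := 1 / 40) (by norm_num)] with z hz h1
    have h2 := mono (x := cot a') (y := -cot b') (by linarith) (by linarith) x3 (neg_le_neg x4) hz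
    refine (mul_le_mul_of_nonneg_left h1 (sub_pos.2 ((one_lt_div (by linarith)).2 x5)).le).trans ?_
    rw [sub_mul, div_mul_eq_mul_div, sub_le_iff_le_add, div_le_iff₀ (by linarith)]
    linarith
  have ct : ∀ {f : GF} {b}, Fine f b → ∀ i, 7 / 2 ≤ cot (f.e i) := fun h i =>
    qm_cot (GF.e_pos _ i) (h.ang i)
  have wa : ∀ {f : GF} {b}, Fine f b → ∀ i, Wa (Lap (cot (f.e i)) (-cot (f.e (i + 1)))) :=
    fun h i => an (ct h i) (neg_le_neg (ct h _))
  have lw : ∀ {f : GF} {b}, Fine f b → ∀ i, Lw (Lap (cot (f.e i)) (-cot (f.e (i + 1)))) :=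
    fun h i δ => lower (by linarith [ct h i]) (by linarith [ct h (i + 1)])
  have mn : ∀ {f : GF} {b}, Fine f b → ∃ k ∈ Finset.range f.n, ∀ i, f.ln b k ≤ f.ln b i := by
    intro f b h
    obtain ⟨k, h1, h2⟩ := (Finset.range f.n).exists_min_image (fun i : ℕ => f.ln b i)
      ⟨0, Finset.mem_range.2 f.npos⟩
    refine ⟨k, h1, fun i => ?_⟩
    obtain ⟨m, hm, l, rfl⟩ := f.exists_rep 0 i
    rw [h.pd.ln.mul, zero_add]
    exact h2 m (Finset.mem_range.2 hm)
  obtain ⟨k, k1, k2⟩ := mn hf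
  obtain ⟨l, l1, l2⟩ := mn hg
  have μ0 := lt_min (hf.pos k) (hg.pos l)
  have m1 := fun i => (min_le_left _ (g.ln c l)).trans (k2 i)
  have m2 := fun i => (min_le_right (f.ln b k) _).trans (l2 i)
  obtain ⟨j, h1, h2⟩ := qm_core (p := fun i => f.ln b i) (q := fun j => g.ln c j)
    (fun i _ => wa hf i) (fun i _ => wa hg i) (fun i _ => lw hf i) (fun i _ => lw hg i) μ0
    (fun i _ => m1 i) (fun i _ => m2 i) ((min_choice _ _).imp (fun e => ⟨k, k1, e.symm⟩)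
      fun e => ⟨l, l1, e.symm⟩) (iso hf hg he per μ0 m1 m2) (fun i _ j _ => near i j)
    (fun i hi j hj => inj i j (Finset.mem_range.1 hi) (Finset.mem_range.1 hj)) per i
    (Finset.mem_range.2 hi)
  exact ⟨j, Finset.mem_range.1 h1, h2⟩

end Pool.Agent.Lib.MP_c1b9d3_an
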