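import Pool.Agent.Lib.MP_c1b9d3_an.QH
import Pool.Agent.Lib.MP_c1b9d3_an.QM

namespace Pool.Agent.Lib.MP_c1b9d3_an

/-- isospectral fine fan polygons have matching side data -/
theorem match_sides : Match :=
  match_of Lap_an (fun hx hy => Lap_mono hx hy) (fun hx hy _ => Lap_lower hx hy)
    fun hf hg he hp _ => Lap_iso hf hg he hp

end Pool.Agent.Lib.MP_c1b9d3_an
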