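import Pool.Agent.Lib.MP_c1b9d3_an.QDef

namespace Pool.Agent.Lib.MP_c1b9d3_an

open MeasureTheory Real Filter Topology Set Pool.Agent.Lib.MP_2d4879_an Asymptotics
open scoped ENNReal InnerProductSpace

section
variable {α : Type} [MeasurableSpace α] {μ : Measure α} [IsFiniteMeasure μ] {K K' : α → α → ℝ}

lemma parseval2 (hK : GK K) (hK' : GK K') {ι : Type} [Countable ι]
    (b : HilbertBasis ι ℝ (Lp ℝ 2 μ)) :
    HasSum (fun i => ⟪hK.op μ (b i), hK'.op μ (b i)⟫_ℝ) (∫ x, ∫ y, K x y * K' x y ∂μ ∂μ) := by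
  have hi : ∀ i, Integrable (fun x => ⟪hK.row μ x, b i⟫_ℝ * ⟪hK'.row μ x, b i⟫_ℝ) μ := fun i =>
    (hK.memLp_act (b i)).integrable_mul (hK'.memLp_act (b i))
  have h1 := hasSum_integral_of_summable_integral_norm (μ := μ)
    (F := fun i x => ⟪hK.row μ x, b i⟫_ℝ * ⟪hK'.row μ x, b i⟫_ℝ) hi (by
      refine Summable.of_nonneg_of_le (fun i => integral_nonneg fun x => norm_nonneg _)
        (fun i => ?_) ((hK.parseval b).summable.add (hK'.parseval b).summable)
      rw [hK.norm_op, hK'.norm_op, ← integral_add (hK.int_actsq _) (hK'.int_actsq _)]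
      refine integral_mono (hi i).norm ((hK.int_actsq _).add (hK'.int_actsq _)) fun x => ?_
      simp only [Real.norm_eq_abs, abs_le]
      constructor <;> nlinarith [sq_nonneg (⟪hK.row μ x, b i⟫_ℝ + ⟪hK'.row μ x, b i⟫_ℝ),
        sq_nonneg (⟪hK.row μ x, b i⟫_ℝ - ⟪hK'.row μ x, b i⟫_ℝ)])
  convert! h1 using 1
  · ext i
    rw [L2.inner_def]
    refine integral_congr_ae ?_
    filter_upwards [hK.op_ae' (b i), hK'.op_ae' (b i)] with x h2 h3
    simp [h2, h3, mul_comm]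
  · congr 1; ext x
    simp_rw [real_inner_comm (b _) (hK'.row μ x)]
    rw [b.tsum_inner_mul_inner, hK.inner_row]
    refine integral_congr_ae ?_
    filter_upwards [(hK'.memLp (μ := μ) x).coeFn_toLp] with y hy
    simp [GK.row, hy]

theorem ker_spec2 [TopologicalSpace.SeparableSpace (Lp ℝ 2 μ)] (hK : GK K)
    (hs : ∀ x y, K x y = K y x) :
    ∃ (ι : Type) (b : HilbertBasis ι ℝ (Lp ℝ 2 μ)) (ev : ι → ℝ),
      (∀ i, hK.op μ (b i) = ev i • b i) ∧
      ∀ m, HasSum (fun i => ev i ^ (m + 2)) (∫ x, pw μ K (m + 1) x x ∂μ) := by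
  obtain ⟨ι, _, b, ev, hb⟩ := exists_eigenbasis (hK.op μ) hK.compact_op (hK.symm_op hs)
  refine ⟨ι, b, ev, hb, fun m => ?_⟩
  convert! parseval2 hK (hK.pw (μ := μ) m) b using 2 with i x
  · rw [op_pw hK (hb i), hb i, inner_smul_left, inner_smul_right, real_inner_self_eq_norm_sq,
      b.orthonormal.1 i]
    simp; ring
  · simp only [pw, cv]
    ext x
    congr 1; ext y; rw [pw_symm hK hs m y x]

end

theorem trace_unif {D D' : Set E} (hD : Dom D) (hD' : Dom D') (he : Iso D D') {t0 δ : ℝ}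
    (ht0 : 0 < t0) (t1 : ℝ) (hδ : 0 < δ) :
    ∀ᶠ n : ℕ in atTop, ∀ t ∈ Icc t0 t1, tr D (t / (n + 1)) n ≤ tr D' (t / (n + 1)) n + δ := by
  rcases lt_or_ge t1 t0 with h01 | h01
  · exact Eventually.of_forall fun n t ht => (lt_irrefl _ (h01.trans_le (ht.1.trans ht.2))).elim
  have ht1 : 0 < t1 := ht0.trans_le h01
  have := hD.fin
  have := hD'.fin
  have : Fact ((2 : ℝ≥0∞) ≠ ∞) := ⟨by simp⟩
  set C := (2 * π * t0)⁻¹ * volume.real D + 1 with hC
  have hC0 : 0 < C := by positivity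
  obtain ⟨R, hR, hR'⟩ : ∃ R > 0, exp (-(t0 * R / 4)) * C ≤ δ / 2 := by
    refine ⟨8 * C / (t0 * δ), by positivity, ?_⟩
    have h1 : t0 * (8 * C / (t0 * δ)) / 4 = 2 * C / δ := by field_simp; ring
    have h2 := add_one_le_exp (2 * C / δ)
    rw [h1, exp_neg, inv_mul_le_iff₀ (exp_pos _)]
    have : 2 * C / δ * (δ / 2) = C := by field_simp
    nlinarith
  set e := min 1 (δ / (2 * C)) with he'
  have he0 : 0 < e := by positivity
  have he1 : e ≤ 1 := min_le_left _ _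
  have he2 : e * (2 * C) ≤ δ := (le_div_iff₀ (by positivity)).1 (min_le_right _ _)
  obtain ⟨h0, hh0, hc⟩ := count_transfer hD hD' he hR (θ := e / (2 * t1)) (by positivity)
  have hlim : Tendsto (fun n : ℕ => t1 / (n + 1)) atTop (𝓝 0) :=
    tendsto_const_nhds.div_atTop (tendsto_atTop_add_const_right _ _ tendsto_natCast_atTop_atTop)
  filter_upwards [hlim.eventually (ge_mem_nhds hh0),
    hlim.eventually (ge_mem_nhds (show 0 < 1 / (2 * R) by positivity)), eventually_ge_atTop 2]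
    with n hj1 hj2 hn2 t ht
  have ht' : 0 < t := ht0.trans_le ht.1
  obtain ⟨m, p, rfl, hm, hp⟩ : ∃ m p : ℕ, n = m + p + 1 ∧ n + 1 ≤ 2 * (m + 2) ∧ n + 1 ≤ 4 * p :=
    ⟨n / 2 - 1, n - n / 2, by omega, by omega, by omega⟩
  set h := t / (((m + p + 1 : ℕ) : ℝ) + 1) with hh'
  have hh : 0 < h := by positivity
  have hle : h ≤ t1 / (((m + p + 1 : ℕ) : ℝ) + 1) := by rw [hh']; gcongr; exact ht.2
  have hN : (((m + p + 1 : ℕ) : ℝ) + 1) * h = t := by rw [hh']; field_simp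
  have hR2 : h * (2 * R) ≤ 1 := (le_div_iff₀ (by positivity)).1 (hle.trans hj2)
  obtain ⟨ι, b, ev, hb, hs⟩ := ker_spec2 (μ := volume.restrict D) (gk_pk hh)
    fun x y => pk_sub_comm h x y
  obtain ⟨κ, b', ev', hb', hs'⟩ := ker_spec2 (μ := volume.restrict D') (gk_pk hh)
    fun x y => pk_sub_comm h x y
  have s1 : HasSum (fun i => ev i ^ (m + p + 2)) (tr D h (m + p + 1)) := hs _
  have s2 : HasSum (fun i => ev' i ^ (m + p + 2)) (tr D' h (m + p + 1)) := hs' _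
  have s3 : HasSum (fun i => ev i ^ (m + 2)) (tr D h (m + 1)) := hs _
  have hm' : ((m + p + 1 : ℕ) : ℝ) + 1 ≤ 2 * (((m + 1 : ℕ) : ℝ) + 1) := by exact_mod_cast hm
  have hp' : ((m + p + 1 : ℕ) : ℝ) + 1 ≤ 4 * (p : ℝ) := by exact_mod_cast hp
  have b0 : ∀ k : ℕ, t0 ≤ 2 * ((k + 1) * h) → tr D h k ≤ C := fun k hk => by
    refine (tr_le hD hh _).trans ?_
    have : (4 * π * ((k + 1) * h))⁻¹ ≤ (2 * π * t0)⁻¹ :=
      inv_anti₀ (by positivity) (by nlinarith [pi_pos])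
    nlinarith [measureReal_nonneg (μ := volume) (s := D)]
  have b1 : tr D h (m + p + 1) ≤ C := b0 _ (by rw [hN]; linarith [ht.1])
  have b2 : tr D h (m + 1) ≤ C := b0 _ (by nlinarith [ht.1])
  have ev0 : ∀ i, 0 ≤ ev i := fun i =>
    (ev_nonneg hD.isOpen.measurableSet hh (b.orthonormal.1 i) (hb i)).1
  have ev0' : ∀ i, 0 ≤ ev' i := fun i =>
    (ev_nonneg hD'.isOpen.measurableSet hh (b'.orthonormal.1 i) (hb' i)).1
  refine le_of_tendsto' s1 fun F => ?_
  classical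
  rw [← Finset.sum_filter_add_sum_filter_not F (fun i => 1 - h * R ≤ ev i)]
  obtain ⟨J, -, hJ⟩ := sum_le_of_count ev ev' (1 - h * R) (fun a => a - h * (e / (2 * t1)))
    (fun a => (1 - e) * a ^ (m + p + 2)) (fun a => a ^ (m + p + 2))
    (hc h hh (hle.trans hj1) ι b ev hb κ b' ev' hb') (fun i v hi hv => by
      have h1 : 1 / 2 ≤ ev i := by linarith
      have h2 : ((m + p + 2 : ℕ) : ℝ) * (2 * (h * (e / (2 * t1)))) ≤ e := by
        have : ((m + p + 2 : ℕ) : ℝ) * (2 * (h * (e / (2 * t1)))) = e * (t / t1) := by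
          rw [← hN]; push_cast; field_simp; ring
        rw [this]
        exact mul_le_of_le_one_right he0.le ((div_le_one ht1).2 ht.2)
      have h3 : 0 ≤ h * (e / (2 * t1)) := by positivity
      have h4 : 2 * (h * (e / (2 * t1))) ≤ 1 := by
        have : (1 : ℝ) ≤ ((m + p + 2 : ℕ) : ℝ) := by exact_mod_cast (by omega)
        nlinarith
      have h5 := one_add_mul_le_pow (a := -(2 * (h * (e / (2 * t1))))) (by linarith) (m + p + 2)
      rw [mul_neg] at h5
      calc _ ≤ (1 + -(2 * (h * (e / (2 * t1))))) ^ (m + p + 2) * ev i ^ (m + p + 2) := by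
            have := ev0 i
            gcongr; linarith
        _ ≤ _ := by
            rw [← mul_pow]
            gcongr
            · nlinarith
            · nlinarith)
    (F.filter fun i => 1 - h * R ≤ ev i) (fun i hi => (Finset.mem_filter.1 hi).2)
  have c1 := sum_le_hasSum J (fun i _ => pow_nonneg (ev0' i) _) s2
  have c2 := sum_le_hasSum (F.filter fun i => 1 - h * R ≤ ev i)
    (fun i _ => pow_nonneg (ev0 i) _) s1
  have c3 := sum_le_hasSum (F.filter fun i => ¬ 1 - h * R ≤ ev i)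
    (fun i _ => pow_nonneg (ev0 i) _) s3
  have c4 : ∑ i ∈ F.filter fun i => ¬ 1 - h * R ≤ ev i, ev i ^ (m + p + 2) ≤
      exp (-(t0 * R / 4)) * ∑ i ∈ F.filter fun i => ¬ 1 - h * R ≤ ev i, ev i ^ (m + 2) := by
    rw [Finset.mul_sum]
    refine Finset.sum_le_sum fun i hi => ?_
    have h1 := not_le.1 (Finset.mem_filter.1 hi).2
    have h2 : ev i ≤ exp (-(h * R)) := by linarith [add_one_le_exp (-(h * R))]
    have h3 : ev i ^ p ≤ exp (-(t0 * R / 4)) := by
      refine (pow_le_pow_left₀ (ev0 i) h2 _).trans ?_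
      rw [← exp_nat_mul, exp_le_exp]
      have : t0 ≤ 4 * (p * h) := by nlinarith [ht.1]
      nlinarith
    rw [show m + p + 2 = p + (m + 2) by ring, pow_add]
    exact mul_le_mul_of_nonneg_right h3 (pow_nonneg (ev0 i) _)
  rw [← Finset.mul_sum] at hJ
  have c5 := mul_le_mul_of_nonneg_left (c3.trans b2) (exp_pos (-(t0 * R / 4))).le
  have c6 := mul_le_mul_of_nonneg_left (c2.trans b1) he0.le
  linarith

theorem er_unif {D D' : Set E} (hD : Dom D) (hD' : Dom D') (he : Iso D D') {τ δ : ℝ} (hτ : 0 < τ)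
    (T : ℝ) (hδ : 0 < δ) : ∀ᶠ n : ℕ in atTop, ∀ s ∈ Icc τ T,
      |∫ y, er D s y ∂nu n - ∫ y, er D' s y ∂nu n| ≤ δ := by
  have h0 : 0 < δ / (4 * π * (T ^ 2 + 1)) := by positivity
  filter_upwards [trace_unif hD hD' he (pow_pos hτ 2) (T ^ 2) h0,
    trace_unif hD' hD (fun k hk => (he k hk).symm) (pow_pos hτ 2) (T ^ 2) h0] with n h1 h2 s hs
  have hs0 : 0 < s := hτ.trans_le hs.1
  have hs2 : s ^ 2 ∈ Icc (τ ^ 2) (T ^ 2) :=
    ⟨pow_le_pow_left₀ hτ.le hs.1 2, pow_le_pow_left₀ hs0.le hs.2 2⟩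
  have k1 := h1 _ hs2
  have k2 := h2 _ hs2
  rw [tr_eq hD hs0, tr_eq hD' hs0] at k1 k2
  have k3 : |(4 * π * s ^ 2)⁻¹ * (∫ y, er D s y ∂nu n - ∫ y, er D' s y ∂nu n)| ≤
      δ / (4 * π * (T ^ 2 + 1)) := by
    rw [abs_le]; constructor <;> linarith
  rw [abs_mul, abs_of_pos (by positivity), inv_mul_le_iff₀ (by positivity)] at k3
  refine k3.trans ?_
  rw [← mul_div_assoc, div_le_iff₀ (by positivity), mul_comm δ]
  gcongr
  linarith [hs2.2]

end Pool.Agent.Lib.MP_c1b9d3_an
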