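import Pool.Agent.Lib.MP_c1b9d3_an.QT1

namespace Pool.Agent.Lib.MP_c1b9d3_an

open MeasureTheory Real Filter Topology Set Pool.Agent.Lib.MP_2d4879_an Asymptotics
open scoped ENNReal

section
variable {Φ Ψ : S → ℝ} {n : ℕ}

lemma En_mono (h1 : Good Φ) (h2 : Good Ψ) (h : ∀ σ, Φ σ ≤ Ψ σ) : En n Φ ≤ En n Ψ :=
  integral_mono (h1.int _) (h2.int _) fun _ => h _

lemma En_nonneg (h : ∀ σ, 0 ≤ Φ σ) : 0 ≤ En n Φ := integral_nonneg fun _ => h _

lemma En_add (h1 : Good Φ) (h2 : Good Ψ) : En n (fun σ => Φ σ + Ψ σ) = En n Φ + En n Ψ :=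
  integral_add (h1.int _) (h2.int _)

lemma En_sub (h1 : Good Φ) (h2 : Good Ψ) : En n (fun σ => Φ σ - Ψ σ) = En n Φ - En n Ψ :=
  integral_sub (h1.int _) (h2.int _)

lemma En_mul (c : ℝ) (Φ : S → ℝ) : En n (fun σ => c * Φ σ) = c * En n Φ := integral_const_mul _ _

lemma En_const (c : ℝ) : En n (fun _ => c) = c := by simp [En]

lemma good_sumT {ι : Type} (F : Finset ι) {Φ : ι → S → ℝ} (h : ∀ i, Good (Φ i)) :
    Good fun σ => ∑ i ∈ F, Φ i σ := by
  classical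
  induction F using Finset.induction_on with
  | empty => simpa using Good.const 0
  | insert a F ha ih => simpa [Finset.sum_insert ha] using (h a).add ih

lemma En_sum {ι : Type} (F : Finset ι) {Φ : ι → S → ℝ} (h : ∀ i, Good (Φ i)) :
    En n (fun σ => ∑ i ∈ F, Φ i σ) = ∑ i ∈ F, En n (Φ i) :=
  integral_finsetSum _ fun i _ => (h i).int n

lemma En_indep {f g : ℝ → ℝ} (h1 : Good fun σ => f σ.W1) (h2 : Good fun σ => g σ.W2) :
    En n (fun σ => f σ.W1 * g σ.W2) = En n (fun σ => f σ.W1) * En n (fun σ => g σ.W2) := by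
  have m : Measurable fun (x : Fin n → ℝ) j => (!₂[x j, x j] : E) := by
    refine Continuous.measurable ?_
    fun_prop
  have e : ∀ (y : Fin n → E) (i : Fin 2) (a b : ℝ), spf (fun j => !₂[y j i, y j i]) a b =
      ⨆ j, (a + b) * cns 0 y j i := by
    intro y i a b
    have e0 : (!₂[(0 : E) i, (0 : E) i] : E) = 0 := by ext k; fin_cases k <;> simp
    have e1 := cns_map (fun z => !₂[z i, z i]) 0 y
    simp only [e0] at e1
    simp [spf, e1, add_mul]
  have := ((nu_indep n).comp ((h1.1 n).comp m) ((h2.1 n).comp m)).integral_fun_mul_eq_mul_integral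
    (((h1.1 n).comp m).comp (by fun_prop)).aestronglyMeasurable
    (((h2.1 n).comp m).comp (by fun_prop)).aestronglyMeasurable
  have e1 : ∀ y : Fin n → E, (sp fun j => (!₂[y j 0, y j 0] : E)).W1 = (sp y).W1 := by
    intro y; simp only [S.W1, sp, e]; simp [spf]
  have e2 : ∀ y : Fin n → E, (sp fun j => (!₂[y j 1, y j 1] : E)).W2 = (sp y).W2 := by
    intro y; simp only [S.W2, sp, e]; simp [spf]
  simp only [Function.comp_def, e1, e2] at this
  exact this

noncomputable def ind (c w : ℝ) : ℝ := if c ≤ w then 1 else 0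

lemma ind_nonneg (c w : ℝ) : 0 ≤ ind c w := by unfold ind; split_ifs <;> norm_num

lemma good_ind (c : ℝ) (h : Good Φ) : Good fun σ => ind c (Φ σ) :=
  (Good.const 1).of_le (fun n => Measurable.ite (measurableSet_le measurable_const (h.1 n))
    measurable_const measurable_const) fun σ => by unfold ind; split_ifs <;> norm_num

lemma En_ind (n : ℕ) (c : ℝ) : En n (fun σ => ind c σ.W1) = (nu n).real {y | c ≤ wd y} := by
  rw [← integral_indicator_one (measurableSet_le measurable_const (meas_wd n))]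
  rfl

lemma En_ind_le (n : ℕ) {c : ℝ} (hc : 0 < c) :
    En n (fun σ => ind (c + 1) σ.W1) ≤ (2 * c + 4) * exp (-c ^ 2) := by
  rw [En_ind]
  exact ENNReal.toReal_le_of_le_ofReal (by positivity) (nu_wd n hc)

end

variable {x y : ℝ}

lemma tm_pos {h : ℝ} (hh : 0 < h) (n : ℕ) : 0 < tm h n := by unfold tm; positivity

lemma geoT {h c : ℝ} (hh : 0 < h) (hc : 0 < c) : Summable (fun n => h * exp (-(c * tm h n))) ∧
    ∑' n, h * exp (-(c * tm h n)) ≤ 1 / c := by
  have h1 : exp (-(c * h)) < 1 := exp_lt_one_iff.2 (neg_neg_of_pos (by positivity))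
  have h2 := (hasSum_geometric_of_lt_one (exp_pos _).le h1).mul_left (h * exp (-(c * h)))
  have e : (fun n => h * exp (-(c * tm h n))) =
      fun n : ℕ => h * exp (-(c * h)) * exp (-(c * h)) ^ n := by
    ext n
    rw [← exp_nat_mul, mul_assoc, ← exp_add, tm]; congr 2; ring
  rw [e]
  refine ⟨h2.summable, h2.tsum_eq.trans_le ?_⟩
  rw [← div_eq_mul_inv, div_le_div_iff₀ (sub_pos.2 h1) hc]
  have h3 := mul_le_mul_of_nonneg_left (add_one_le_exp (c * h)) (exp_pos (-(c * h))).le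
  rw [← exp_add, neg_add_cancel, exp_zero] at h3
  linarith

lemma En_th_le (hx : 0 < x) (hy : y < 0) : ∃ C, 0 ≤ C ∧ ∀ (n : ℕ) (z s : ℝ), 0 < z → 0 ≤ s →
    En n (th x y z s) ≤ C * s ^ 4 / z ^ 2 := by
  obtain ⟨C, hC⟩ := (Good.W1.pow 4).int_bd
  have hk : 0 < x - y := by linarith
  refine ⟨|C| / (2 * (x - y)), by positivity, fun n z s hz hs => ?_⟩
  calc _ ≤ En n (fun σ => s ^ 4 / z ^ 2 / (2 * (x - y)) * σ.W1 ^ 4) := by
        refine En_mono (by fun_prop) (by fun_prop) fun σ => ?_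
        have h1 := nm_le hx.le hy.le hs z σ
        have h2 : σ.W 1 (-0) = σ.W1 := by simp [S.W, S.W1]
        have h3 := mul_nonneg hs σ.W1_nonneg
        rw [h2] at h1
        have h4 : max (nm x y z s σ) 0 ≤ (s * σ.W1) ^ 2 / z := by
          refine max_le (h1.trans ?_) (by positivity)
          rw [le_div_iff₀ hz]
          nlinarith [sq_nonneg (s * σ.W1 - z)]
        calc _ ≤ ((s * σ.W1) ^ 2 / z) ^ 2 / (2 * (x - y)) := by unfold th; gcongr
          _ = _ := by field_simp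
    _ ≤ _ := by
        rw [En_mul]
        refine (mul_le_mul_of_nonneg_left ((le_abs_self _).trans ((hC n).2.trans (le_abs_self _)))
          (by positivity)).trans (le_of_eq ?_)
        field_simp

lemma Lt_nonneg {h : ℝ} (hh : 0 < h) (hxy : y < x) (z : ℝ) (n : ℕ) : 0 ≤ Lt h x y z n := by
  have h1 := tm_pos hh n
  have h2 : 0 ≤ En n (th x y z √(tm h n)) := En_nonneg (th_nonneg hxy _ _)
  unfold Lt
  positivity

lemma Lt_eq {h : ℝ} (hh : 0 < h) (x y z : ℝ) (n : ℕ) : Lt h x y z n =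
    h * exp (-tm h n) * ((4 * π * tm h n ^ 2)⁻¹ * En n (th x y z √(tm h n))) := by
  unfold Lt
  generalize En n (th x y z √(tm h n)) = A
  generalize exp (-tm h n) = B
  unfold tm
  field_simp

lemma Lt_bd (hx : 0 < x) (hy : y < 0) : ∃ C, ∀ h ∈ Ioc (0 : ℝ) 1, ∀ z : ℝ, 1 / 2 ≤ z →
    Summable (fun n => exp (tm h n / 2) * Lt h x y z n) ∧
      ∑' n, exp (tm h n / 2) * Lt h x y z n ≤ C := by
  obtain ⟨C, C0, hC⟩ := En_th_le hx hy
  refine ⟨C / π * (1 / (1 / 2)), fun h hh z hz => ?_⟩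
  obtain ⟨g1, g2⟩ := geoT hh.1 (c := 1 / 2) (by norm_num)
  have k : ∀ n, exp (tm h n / 2) * Lt h x y z n ≤ C / π * (h * exp (-(1 / 2 * tm h n))) := by
    intro n
    have h0 := hh.1
    have h1 := tm_pos h0 n
    have h2 := hC n z _ (by linarith) (sqrt_nonneg (tm h n))
    rw [show √(tm h n) ^ 4 = (√(tm h n) ^ 2) ^ 2 by ring, sq_sqrt h1.le] at h2
    have h3 : C * tm h n ^ 2 / z ^ 2 ≤ C * tm h n ^ 2 / (1 / 2) ^ 2 := by gcongr
    rw [Lt_eq h0]
    calc _ ≤ exp (tm h n / 2) * (h * exp (-tm h n) * ((4 * π * tm h n ^ 2)⁻¹ *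
          (C * tm h n ^ 2 / (1 / 2) ^ 2))) := by gcongr; exact h2.trans h3
      _ = C / π * (h * (exp (tm h n / 2) * exp (-tm h n))) := by field_simp; ring
      _ = _ := by rw [← exp_add]; congr 3; ring
  have k1 : Summable (fun n => exp (tm h n / 2) * Lt h x y z n) :=
    Summable.of_nonneg_of_le (fun n => mul_nonneg (exp_pos _).le
      (Lt_nonneg hh.1 (hy.trans hx) z n)) k (g1.mul_left _)
  refine ⟨k1, (k1.tsum_le_tsum k (g1.mul_left _)).trans ?_⟩
  rw [tsum_mul_left]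
  gcongr

lemma hk_mem (k : ℕ) : hk k ∈ Ioc (0 : ℝ) 1 :=
  ⟨by unfold hk; positivity, (div_le_one (by positivity)).2 (by linarith [k.cast_nonneg (α := ℝ)])⟩

lemma Lt_le {h : ℝ} (hh : 0 < h) (hxy : y < x) (z : ℝ) (n : ℕ) :
    Lt h x y z n ≤ exp (tm h n / 2) * Lt h x y z n :=
  le_mul_of_one_le_left (Lt_nonneg hh hxy z n) (one_le_exp (half_pos (tm_pos hh n)).le)

lemma Lt_sum (hx : 0 < x) (hy : y < 0) {h z : ℝ} (hh : h ∈ Ioc (0 : ℝ) 1) (hz : 1 / 2 ≤ z) :
    Summable (Lt h x y z) :=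
  Summable.of_nonneg_of_le (Lt_nonneg hh.1 (hy.trans hx) z) (Lt_le hh.1 (hy.trans hx) z)
    ((Lt_bd hx hy).choose_spec h hh z hz).1

lemma Lh_lim (hx : 0 < x) (hy : y < 0) {z : ℝ} (hz : 1 / 2 ≤ z) :
    Tendsto (fun k => Lh (hk k) x y z) (hyperfilter ℕ) (𝓝 (Lap x y z)) := by
  obtain ⟨C, hC⟩ := Lt_bd hx hy
  obtain ⟨a, -, ha⟩ := (isCompact_Icc (a := 0) (b := C)).ultrafilter_le_nhds
    ((hyperfilter ℕ).map fun k => Lh (hk k) x y z) (by
      rw [Ultrafilter.coe_map, ← Tendsto, tendsto_principal]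
      refine Eventually.of_forall fun k => ⟨tsum_nonneg (Lt_nonneg (hk_mem k).1 (hy.trans hx) z),
        le_trans ?_ (hC _ (hk_mem k) z hz).2⟩
      exact (Lt_sum hx hy (hk_mem k) hz).tsum_le_tsum (Lt_le (hk_mem k).1 (hy.trans hx) z)
        (hC _ (hk_mem k) z hz).1)
  exact tendsto_nhds_limUnder ⟨a, ha⟩

lemma Lap_mono {x' y' z : ℝ} (hx : 0 < x) (hy : y < 0) (h2 : x ≤ x') (h3 : y' ≤ y)
    (hz : 1 / 2 ≤ z) : (x' - y') * Lap x' y' z ≤ (x - y) * Lap x y z := by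
  have hx' := hx.trans_le h2
  have hy' := h3.trans_lt hy
  refine le_of_tendsto_of_tendsto' ((Lh_lim hx' hy' hz).const_mul _)
    ((Lh_lim hx hy hz).const_mul _) fun k => ?_
  rw [Lh, Lh, ← tsum_mul_left, ← tsum_mul_left]
  refine ((Lt_sum hx' hy' (hk_mem k) hz).mul_left _).tsum_le_tsum (fun n => ?_)
    ((Lt_sum hx hy (hk_mem k) hz).mul_left _)
  have h0 := tm_pos (hk_mem k).1 n
  unfold Lt
  rw [mul_left_comm, mul_left_comm (x' - y'), mul_left_comm (x - y), mul_left_comm (x - y),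
    ← En_mul (x' - y'), ← En_mul (x - y)]
  refine mul_le_mul_of_nonneg_left (mul_le_mul_of_nonneg_left (En_mono (by fun_prop)
    (by fun_prop) fun σ => ?_) (by positivity)) (by positivity)
  have hs := sqrt_nonneg (tm (hk k) n)
  generalize √(tm (hk k) n) = s at hs
  have a1 := σ.le2 (a := -1) (b := x') (a1 := -1) (b1 := x) (a2 := 0) (b2 := 1) zero_le_one
    (sub_nonneg.2 h2) (by ring) (by ring)
  have a2 := σ.le2 (a := 1) (b := -y') (a1 := 1) (b1 := -y) (a2 := 0) (b2 := 1) zero_le_one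
    (sub_nonneg.2 h3) (by ring) (by ring)
  have a3 : nm x' y' z s σ ≤ nm x y z s σ := by
    unfold nm
    exact sub_le_sub_right (mul_le_mul_of_nonneg_left (by linarith) hs) _
  have k1 : 0 < x - y := by linarith
  have k2 : 0 < x' - y' := by linarith
  calc _ = max (nm x' y' z s σ) 0 ^ 2 / 2 := by unfold th; field_simp
    _ ≤ max (nm x y z s σ) 0 ^ 2 / 2 := by gcongr
    _ = _ := by unfold th; field_simp

lemma En_th_ge (hx : 0 < x) (hy : y < 0) (l : ℕ) {r s : ℝ} (hr : 1 ≤ r) (hs : r ≤ s) :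
    (2 * (x - y))⁻¹ * (π⁻¹ * exp (-((r + 4 * (x - y) + 1 + 1) ^ 2 + 1)) * (1 / 2)) ≤
      En (l + 1 + l) (th x y (r ^ 2) s) := by
  have hk : 0 < x - y := by linarith
  set a := r + 4 * (x - y) + 1 with ha
  have g1 : Good fun σ => ind a σ.W1 := good_ind _ Good.W1
  have g2 : Good fun σ => 1 - ind (3 + 1) σ.W2 := (Good.const 1).sub (good_ind _ Good.W2)
  have k1 : π⁻¹ * exp (-((a + 1) ^ 2 + 1)) ≤ En (l + 1 + l) fun σ => ind a σ.W1 := by
    rw [En_ind]
    exact (ENNReal.ofReal_le_iff_le_toReal (measure_ne_top _ _)).1 (nu_lower l rfl (by positivity))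
  have k2 : 1 / 2 ≤ En (l + 1 + l) fun σ => 1 - ind (3 + 1) σ.W2 := by
    have e := En_rot (l + 1 + l) (p := 0) (q := 1) (r := 1) (t := 0) (by norm_num) (by norm_num)
      (by norm_num) fun σ => ind (3 + 1) σ.W1
    simp only [rot_swap_W1] at e
    rw [En_sub (Good.const 1) (good_ind _ Good.W2), En_const, e]
    have h1 := En_ind_le (l + 1 + l) (c := 3) (by norm_num)
    have h2 : exp (-(3 : ℝ) ^ 2) ≤ 1 / 20 := by
      rw [exp_neg, one_div]
      exact inv_anti₀ (by norm_num) (le_trans (by norm_num)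
        (quadratic_le_exp_of_nonneg (show (0 : ℝ) ≤ 3 ^ 2 by norm_num)))
    have h3 := h1.trans (mul_le_mul_of_nonneg_left h2 (by norm_num))
    exact le_sub_comm.1 (h3.trans (by norm_num))
  calc _ ≤ (2 * (x - y))⁻¹ * ((En (l + 1 + l) fun σ => ind a σ.W1) *
        En (l + 1 + l) fun σ => 1 - ind (3 + 1) σ.W2) := by
        gcongr
        exact En_nonneg fun σ => ind_nonneg _ _
    _ = _ := by rw [← En_indep (f := ind a) (g := fun w => 1 - ind (3 + 1) w) g1 g2, ← En_mul]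
    _ ≤ _ := by
        refine En_mono ((Good.const _).mul (g1.mul g2)) (by fun_prop) fun σ => ?_
        have t0 := th_nonneg (hy.trans hx) (r ^ 2) s σ
        unfold ind
        split_ifs with h1 h2 h2 <;> try simpa using t0
        have a1 := σ.le2 (a := -1) (b := 0) (a1 := -1) (b1 := x) (a2 := 0) (b2 := -1) zero_le_one
          hx.le (by ring) (by ring)
        have a2 := σ.le2 (a := 1) (b := 0) (a1 := 1) (b1 := -y) (a2 := 0) (b2 := -1) zero_le_one
          (neg_nonneg.2 hy.le) (by ring) (by ring)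
        have a3 : r + 1 ≤ σ.f (-1) x + σ.f 1 (-y) - (x - y) * σ.f 0 1 := by
          have := mul_le_mul_of_nonneg_left (not_le.1 h2).le hk.le
          unfold S.W1 at h1
          unfold S.W2 at this
          linarith
        have a4 : 1 ≤ max (nm x y (r ^ 2) s σ) 0 := by
          refine le_max_of_le_left ?_
          unfold nm
          nlinarith [mul_le_mul hs a3 (by linarith) (by linarith)]
        rw [sub_zero, mul_one, mul_one, th, inv_eq_one_div]
        gcongr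
        exact one_le_pow₀ a4

lemma Lh_lower (hx : 0 < x) (hy : y < 0) {r : ℝ} (hr : 1 ≤ r) {k : ℕ} (hk7 : 7 ≤ k) :
    1 / 8 * (exp (-(r ^ 2 + 1)) * ((4 * π * (r ^ 2 + 1) ^ 2)⁻¹ * ((2 * (x - y))⁻¹ *
      (π⁻¹ * exp (-((r + 4 * (x - y) + 1 + 1) ^ 2 + 1)) * (1 / 2))))) ≤ Lh (hk k) x y (r ^ 2) := by
  have hxy : 0 < x - y := by linarith
  have hh := hk_mem k
  have h0 := hh.1
  have h1 : hk k * (k + 1) = 1 := by unfold hk; field_simp
  have k7 : (7 : ℝ) ≤ k := by exact_mod_cast hk7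
  set h := hk k
  set l0 := ⌈r ^ 2 / (2 * h)⌉₊
  have a1 : r ^ 2 ≤ l0 * (2 * h) := (div_le_iff₀ (by positivity)).1 (Nat.le_ceil _)
  have a2 : (l0 - 1) * (2 * h) < r ^ 2 :=
    (lt_div_iff₀ (by positivity)).1 (sub_lt_iff_lt_add.2 (Nat.ceil_lt_add_one (by positivity)))
  set M := (k + 1) / 4 with hM
  have m1 : 4 * (M : ℝ) ≤ k + 1 := by exact_mod_cast (by omega : 4 * M ≤ k + 1)
  have m2 : (k : ℝ) + 1 ≤ 8 * M := by exact_mod_cast (by omega : k + 1 ≤ 8 * M)
  set c := exp (-(r ^ 2 + 1)) * ((4 * π * (r ^ 2 + 1) ^ 2)⁻¹ * ((2 * (x - y))⁻¹ *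
      (π⁻¹ * exp (-((r + 4 * (x - y) + 1 + 1) ^ 2 + 1)) * (1 / 2)))) with hc
  have c0 : 0 < c := by positivity
  refine le_trans ?_ ((Lt_sum hx hy hh (by nlinarith)).sum_le_tsum
    ((Finset.range M).image fun l => l0 + l + 1 + (l0 + l))
    fun n _ => Lt_nonneg h0 (hy.trans hx) _ n)
  rw [Finset.sum_image fun a _ b _ h => by omega]
  refine le_trans ?_ (Finset.card_nsmul_le_sum _ _ (h * c) fun l hl => ?_)
  · rw [Finset.card_range, nsmul_eq_mul, ← mul_assoc (M : ℝ)]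
    exact mul_le_mul_of_nonneg_right (by nlinarith) c0.le
  have l1 : (l : ℝ) + 1 ≤ M := by exact_mod_cast Finset.mem_range.1 hl
  have l2 : (0 : ℝ) ≤ l := l.cast_nonneg
  have e : tm h (l0 + l + 1 + (l0 + l)) = (l0 + l + 1) * (2 * h) := by unfold tm; push_cast; ring
  have t1 : r ^ 2 ≤ tm h (l0 + l + 1 + (l0 + l)) := by rw [e]; nlinarith
  have t2 : tm h (l0 + l + 1 + (l0 + l)) ≤ r ^ 2 + 1 := by rw [e]; nlinarith
  have t0 := tm_pos h0 (l0 + l + 1 + (l0 + l))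
  rw [Lt_eq h0, hc, ← mul_assoc h]
  gcongr
  exact En_th_ge hx hy _ hr (le_sqrt_of_sq_le t1)

theorem Lap_lower (hx : 0 < x) (hy : y < 0) {δ : ℝ} (hδ : 0 < δ) :
    ∀ᶠ z in atTop, exp (-((2 + δ) * z)) ≤ Lap x y z := by
  have hxy : 0 < x - y := by linarith
  set K := 4 * (x - y) + 1 + 1 with hK
  set c := 1 / 8 * (exp (-(K ^ 2 * (2 / δ) + K ^ 2 + 2)) * ((4 * π * 4)⁻¹ * ((2 * (x - y))⁻¹ *
    (π⁻¹ * (1 / 2))))) with hc
  have c0 : 0 < c := by positivity
  filter_upwards [(isLittleO_pow_exp_pos_mul_atTop 2 (half_pos hδ)).bound c0,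
    eventually_ge_atTop 1] with z h1 hz
  have hr : 1 ≤ √z := one_le_sqrt.2 hz
  have e : √z ^ 2 = z := sq_sqrt (by linarith)
  refine ge_of_tendsto (Lh_lim hx hy (by linarith)) ?_
  filter_upwards [Nat.hyperfilter_le_atTop (eventually_ge_atTop 7)] with k hk
  have h2 := Lh_lower hx hy hr hk
  rw [e] at h2
  refine le_trans ?_ h2
  rw [Real.norm_of_nonneg (by positivity), Real.norm_of_nonneg (exp_pos _).le] at h1
  have h3 : exp (-((2 + δ) * z)) ≤ c * (z ^ 2)⁻¹ * exp (-((2 + δ / 2) * z)) := by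
    rw [show -((2 + δ / 2) * z) = δ / 2 * z + -((2 + δ) * z) by ring, exp_add, ← mul_assoc]
    refine le_mul_of_one_le_left (exp_pos _).le ?_
    rwa [mul_right_comm, ← div_eq_mul_inv, one_le_div (by positivity)]
  have h4 : exp (-(K ^ 2 * (2 / δ) + K ^ 2 + 2)) * exp (-((2 + δ / 2) * z)) ≤
      exp (-(z + 1)) * exp (-((√z + 4 * (x - y) + 1 + 1) ^ 2 + 1)) := by
    rw [← exp_add, ← exp_add, exp_le_exp, show √z + 4 * (x - y) + 1 + 1 = √z + K by rw [hK]; ring]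
    have h5 : 2 * √z * K ≤ δ / 2 * √z ^ 2 + K ^ 2 * (2 / δ) := by
      have : δ / 2 * (√z - K * (2 / δ)) ^ 2 = δ / 2 * √z ^ 2 + K ^ 2 * (2 / δ) - 2 * √z * K := by
        field_simp; ring
      nlinarith [mul_nonneg (half_pos hδ).le (sq_nonneg (√z - K * (2 / δ)))]
    nlinarith
  have h5 : (4 * π * 4)⁻¹ * (z ^ 2)⁻¹ ≤ (4 * π * (z + 1) ^ 2)⁻¹ := by
    rw [← mul_inv, mul_assoc]
    gcongr
    nlinarith
  calc _ ≤ _ := h3
    _ = 1 / 8 * (exp (-(K ^ 2 * (2 / δ) + K ^ 2 + 2)) * exp (-((2 + δ / 2) * z))) *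
        ((4 * π * 4)⁻¹ * (z ^ 2)⁻¹) * ((2 * (x - y))⁻¹ * (π⁻¹ * (1 / 2))) := by rw [hc]; ring
    _ ≤ 1 / 8 * (exp (-(z + 1)) * exp (-((√z + 4 * (x - y) + 1 + 1) ^ 2 + 1))) *
        (4 * π * (z + 1) ^ 2)⁻¹ * ((2 * (x - y))⁻¹ * (π⁻¹ * (1 / 2))) := by gcongr
    _ = _ := by ring

end Pool.Agent.Lib.MP_c1b9d3_an
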